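import Pool.Agent.Lib.SVY.Rule

/-!
# SVY.Facts: the local reducible configurations used by the discharging

A structure which collects the statements; the discharging uses it as a hypothesis.
-/

set_option autoImplicit false
set_option linter.unusedSectionVars false

namespace Pool.Agent.Lib.SVY

open Finset Pool.Agent.Lib.SVT Pool.Agent.Lib.SVX

variable {V : Type*} [Fintype V] [DecidableEq V]

section

variable (G : SimpleGraph V) (B : Finset V)

/-- inner vertex of degree at most `k` -/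
def Inn (k : ℕ) (v : V) : Prop := v ∉ B ∧ dg G v ≤ k

/-- the V-edge `x y` and the edge `y A` are consecutive on the face `i` -/
structure VE {m : ℕ} (F : Fin m → Finset (Sym2 V)) (i : Fin m) (x y A : V) : Prop where
  nt : Nt F i
  xy : s(x, y) ∈ F i
  ya : s(y, A) ∈ F i
  ne : A ≠ x
  fx : FF G B x
  fy : FF G B y
  v : OneP G B (apx G x y)

end

structure LF (G : SimpleGraph V) (B : Finset V) {m : ℕ} (F : Fin m → Finset (Sym2 V)) : Prop where
  /-- path 3,3,3 -/
  l1 : ∀ a b c, Inn G B 3 a → Inn G B 3 b → Inn G B 3 c → G.Adj a b → G.Adj b c → a ≠ c →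
    ¬ G.Adj a c → False
  /-- path 3,3,4,3 -/
  l2 : ∀ a b c d, Inn G B 3 a → Inn G B 3 b → Inn G B 4 c → Inn G B 3 d → G.Adj a b →
    G.Adj b c → G.Adj c d → a ≠ c → b ≠ d → ¬ G.Adj a c → ¬ G.Adj b d → False
  /-- path 3,4,3,4,3 -/
  l3 : ∀ a b c d e, Inn G B 3 a → Inn G B 4 b → Inn G B 3 c → Inn G B 4 d → Inn G B 3 e →
    G.Adj a b → G.Adj b c → G.Adj c d → G.Adj d e → a ≠ c → b ≠ d → c ≠ e → ¬ G.Adj a c →
    ¬ G.Adj b d → ¬ G.Adj c e → False
  /-- degree 4 with three independent 3-neighbours -/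
  c2 : ∀ y a b c, Inn G B 4 y → Inn G B 3 a → Inn G B 3 b → Inn G B 3 c → G.Adj y a →
    G.Adj y b → G.Adj y c → a ≠ b → a ≠ c → b ≠ c → ¬ G.Adj a b → ¬ G.Adj a c → ¬ G.Adj b c →
    False
  /-- degree 5 without triangles, all neighbours of degree 3 -/
  c3 : ∀ y, y ∉ B → dg G y = 5 → (∀ u, G.Adj y u → WE G y u ∧ Inn G B 3 u) → False
  /-- two adjacent `P1c` vertices -/
  cc : ∀ z z', P1c G B z → P1c G B z' → TE G z z' → False
  /-- `OneP` - `ExK` -/
  pk : ∀ v x, OneP G B v → ExK G B x → TE G v x → False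
  /-- `OneQ` - `ExK` -/
  qk : ∀ v x, OneQ G B v → ExK G B x → TE G v x → False
  /-- `OneP` - `FF` - `P1c` in the other triangle -/
  m5 : ∀ v x c, OneP G B v → FF G B x → P1c G B c → TE G v x → TE G x c → ¬ G.Adj v c → False
  /-- `OneQ` - `FF` - `P1c` in the other triangle, small third vertex -/
  q16 : ∀ v x c, OneQ G B v → FF G B x → P1c G B c → TE G v x → TE G x c → ¬ G.Adj v c →
    Sm G B (apx G v x) → False
  /-- `P1c` - `Npay`, small third vertex -/
  a18n : ∀ z a, P1c G B z → Npay G B a → TE G z a → Sm G B (apx G z a) → False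
  /-- `P1c` - `FF` - `One` or `P1c` in the other triangle, small third vertex -/
  a18f : ∀ z a w, P1c G B z → FF G B a → TE G z a → Sm G B (apx G z a) → TE G a w → w ≠ z →
    ¬ G.Adj z w → (One G B w ∨ P1c G B w) → False
  /-- `P1c` - `ExK`: the third vertex is paying -/
  a19 : ∀ z a, P1c G B z → ExK G B a → TE G z a → ¬ Np G B (apx G z a) → False
  /-- V T V -/
  s5 : ∀ i x y A u, VE G B F i x y A → FF G B A → s(A, u) ∈ F i → u ≠ y →
    OneP G B (apx G A u) → False
  s8 : ∀ i x y A u, VE G B F i x y A → FF G B A → s(A, u) ∈ F i → u ≠ y → One G B u → False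
  s9 : ∀ i x y A u, VE G B F i x y A → FF G B A → s(A, u) ∈ F i → u ≠ y →
    (P1c G B u ∨ P1c G B (apx G A u)) → False
  s9p : ∀ i x y A, VE G B F i x y A → P1c G B A → False
  /-- `Npay`, the third vertex is not paying -/
  s10 : ∀ i x y A u, VE G B F i x y A → Npay G B A → s(A, u) ∈ F i → u ≠ y →
    ¬ Np G B (apx G y A) → False
  s12 : ∀ i x y A, VE G B F i x y A → ExK G B A → False
  /-- ring `OneP`, `FF`, `FF`, V-edge -/
  sb : ∀ i o x y u, Nt F i → OneP G B o → FF G B x → FF G B y → s(o, x) ∈ F i → s(x, y) ∈ F i →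
    s(y, u) ∈ F i → o ≠ y → x ≠ u → TE G o x → TE G y u → OneP G B (apx G y u) → False
  /-- `Ex2` with two triangles `v y`, `v' y'` -/
  e20 : ∀ g v v', Ex2 G B g → TE G g v → TE G g v' → v ≠ v' → ¬ G.Adj v v' → OneP G B v →
    Sm G B (apx G g v) → OneP G B v' → False
  e21 : ∀ g v v', Ex2 G B g → TE G g v → TE G g v' → v ≠ v' → ¬ G.Adj v v' → OneP G B v →
    Ex2 G B (apx G g v) → OneP G B v' → Ex2 G B (apx G g v') → False
  e22 : ∀ g v v', Ex2 G B g → TE G g v → TE G g v' → v ≠ v' → ¬ G.Adj v v' → OneP G B v →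
    Sm G B (apx G g v) → OneQ G B v' → False
  e23 : ∀ g v z, Ex2 G B g → TE G g v → TE G g z → v ≠ z → ¬ G.Adj v z → OneP G B v →
    Sm G B (apx G g v) → P1c G B z → (Sm G B (apx G g z) ∨ Ex2 G B (apx G g z)) → False
  /-- any two `One` vertices, small third vertices -/
  lss : ∀ g v v', Ex2 G B g → TE G g v → TE G g v' → v ≠ v' → ¬ G.Adj v v' → One G B v →
    Sm G B (apx G g v) → One G B v' → Sm G B (apx G g v') → False
  /-- any `One` vertex and a `P1c` vertex, small third vertices -/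
  lgc : ∀ g v z, Ex2 G B g → TE G g v → TE G g z → v ≠ z → ¬ G.Adj v z → One G B v →
    Sm G B (apx G g v) → P1c G B z → Sm G B (apx G g z) → False
  e26 : ∀ g v v', Ex2 G B g → TE G g v → TE G g v' → v ≠ v' → ¬ G.Adj v v' → OneP G B v →
    Ex2 G B (apx G g v) → (OneQ G B v' ∨ P1c G B v') → Sm G B (apx G g v') → False
  /-- `OneP` vertex `v` with two `Ex2` vertices `g`, `g'`; `g` is in a triangle with a `OneP` and
  a paying vertex, `g'` is in such a triangle or in a triangle with a `OneQ` or `P1c` vertex and an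
  `Ex2` vertex -/
  e24 : ∀ g g' v v' v'', Ex2 G B g → Ex2 G B g' → OneP G B v → G.Adj g g' → G.Adj v g →
    G.Adj v g' → TE G g v' → v' ≠ v → v' ≠ g' → ¬ G.Adj v' g' → OneP G B v' →
    Np G B (apx G g v') → TE G g' v'' → v'' ≠ v → v'' ≠ g → ¬ G.Adj v'' g →
    ((OneP G B v'' ∧ Np G B (apx G g' v'')) ∨
      ((OneQ G B v'' ∨ P1c G B v'') ∧ Ex2 G B (apx G g' v''))) → False

end Pool.Agent.Lib.SVY
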