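import Pool.Agent.Lib.SVY.LocOk3
import Pool.Agent.Lib.SVY.Facts

/-!
# SVY.LocThm3: further local reducible configurations

Generated.
-/

set_option autoImplicit false
set_option linter.unusedSectionVars false
set_option maxRecDepth 100000

namespace Pool.Agent.Lib.SVY.LC

open Finset Pool.Agent.Lib.SVT Pool.Agent.Lib.SVX

variable {V : Type*} [Fintype V] [DecidableEq V] {G : SimpleGraph V} {B : Finset V}
variable {m : ℕ} {F : Fin m → Finset (Sym2 V)}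

/-- V-edge `x y`, triangles `x x2 wp`, `y A w`, `A u v1`, 3-vertex `v1` with the neighbour `z1` of type (1,2) and its 3-neighbour `z2` -/
theorem gS7_false (h : MinCE G B) (hF : Faces G F) {v x y A v1 x2 wp z w z1 z2 u : V}
    (e1 : G.Adj v x) (e2 : G.Adj v y) (e3 : G.Adj x y) (e4 : G.Adj x x2) (e5 : G.Adj x wp)
    (e6 : G.Adj y w) (e7 : G.Adj y A) (e8 : G.Adj A w) (e9 : G.Adj A u) (e10 : G.Adj A v1)
    (e11 : G.Adj v1 u) (e12 : G.Adj x2 wp) (e13 : G.Adj z1 z2) (w1 : WE G v z) (w2 : WE G v1 z1)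
    (d1 : v ≠ A) (d2 : v ≠ w) (d3 : v ≠ x2) (d4 : v ≠ wp) (d5 : y ≠ u) (d6 : y ≠ v1)
    (d7 : v1 ≠ z2) (x1 : ¬ G.Adj z z2) (c1 : ¬ Corner F A y v1) (c2 : ¬ Corner F y x w)
    (i1 : Inn G B 3 v) (i2 : Inn G B 4 x) (i3 : Inn G B 4 y) (i4 : Inn G B 4 A)
    (i5 : Inn G B 3 v1) (i6 : Inn G B 3 z) (i7 : Inn G B 4 z1) (i8 : Inn G B 3 z2) : False := by
  refine Loc.cfalseD (nm := fun i => [v, x, y, A, v1, x2, wp, z, w, z1, z2, u].getD i v) gS7_adm gS7_lchk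
    gS7_echk gS7_dchk gS7_xchk gS7_ok h hF ?_ ?_ ?_ ?_ ?_ ?_ ?_
  · show ∀ e ∈ [(0, 1), (0, 2), (0, 7), (1, 2), (1, 5), (1, 6), (2, 8), (2, 3), (3, 8), (3, 11), (3, 4), (4, 11), (4, 9), (5, 6), (9, 10)], G.Adj _ _
    simp only [List.forall_mem_cons]
    exact ⟨e1, e2, w1.1, e3, e4, e5, e6, e7, e8, e9, e10, e11, w2.1, e12, e13, by simp⟩
  · simp only [List.forall_mem_cons]
    exact ⟨w1, w2, by simp⟩
  · simp only [List.forall_mem_cons]
    exact ⟨d1, d2, d3, d4, d5, d6, d7, by simp⟩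
  · simp only [List.forall_mem_cons]
    exact ⟨x1, by simp⟩
  · simp only [List.forall_mem_cons]
    exact ⟨c1, c2, by simp⟩
  · simp
  · have hl : Loc.hlist gS7 = [0, 1, 2, 3, 4, 7, 9, 10] := by decide
    rw [hl]
    simp only [List.forall_mem_cons]
    exact ⟨i1, i2, i3, i4, i5, i6, i7, i8, by simp⟩

/-- V-edge `x y`, triangles `y A w`, `A u l`, 3-vertex `u` with the neighbour `o`: new edge `w o` -/
theorem gS8_false (h : MinCE G B) (hF : Faces G F) {v x y A u x2 wp z w l o : V}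
    (e1 : G.Adj v x) (e2 : G.Adj v y) (e3 : G.Adj x y) (e4 : G.Adj x x2) (e5 : G.Adj x wp)
    (e6 : G.Adj y A) (e7 : G.Adj y w) (e8 : G.Adj A w) (e9 : G.Adj A u) (e10 : G.Adj A l)
    (e11 : G.Adj u l) (e12 : G.Adj x2 wp) (w1 : WE G v z) (w2 : WE G u o) (d1 : v ≠ A)
    (d2 : v ≠ w) (d3 : v ≠ x2) (d4 : v ≠ wp) (d5 : y ≠ u) (d6 : y ≠ l) (c1 : ¬ Corner F A u w)
    (i1 : Inn G B 3 v) (i2 : Inn G B 4 x) (i3 : Inn G B 4 y) (i4 : Inn G B 4 A)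
    (i5 : Inn G B 3 u) (i6 : Inn G B 3 z) : False := by
  refine Loc.cfalseD (nm := fun i => [v, x, y, A, u, x2, wp, z, w, l, o].getD i v) gS8_adm gS8_lchk
    gS8_echk gS8_dchk gS8_xchk gS8_ok h hF ?_ ?_ ?_ ?_ ?_ ?_ ?_
  · show ∀ e ∈ [(0, 1), (0, 2), (0, 7), (1, 2), (1, 5), (1, 6), (2, 3), (2, 8), (3, 8), (3, 4), (3, 9), (4, 9), (4, 10), (5, 6)], G.Adj _ _
    simp only [List.forall_mem_cons]
    exact ⟨e1, e2, w1.1, e3, e4, e5, e6, e7, e8, e9, e10, e11, w2.1, e12, by simp⟩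
  · simp only [List.forall_mem_cons]
    exact ⟨w1, w2, by simp⟩
  · simp only [List.forall_mem_cons]
    exact ⟨d1, d2, d3, d4, d5, d6, by simp⟩
  · simp
  · simp only [List.forall_mem_cons]
    exact ⟨c1, by simp⟩
  · simp
  · have hl : Loc.hlist gS8 = [0, 1, 2, 3, 4, 7] := by decide
    rw [hl]
    simp only [List.forall_mem_cons]
    exact ⟨i1, i2, i3, i4, i5, i6, by simp⟩

/-- V-edge `x y`, triangles `y A w`, `A u l`, P1 centre `u` -/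
theorem gS9a_false (h : MinCE G B) (hF : Faces G F) {v y A u x z w l o2 o1 : V}
    (e1 : G.Adj v x) (e2 : G.Adj v y) (e3 : G.Adj x y) (e4 : G.Adj y A) (e5 : G.Adj y w)
    (e6 : G.Adj A w) (e7 : G.Adj A u) (e8 : G.Adj A l) (e9 : G.Adj u l) (w1 : WE G v z)
    (w2 : WE G u o1) (w3 : WE G u o2) (d1 : o1 ≠ o2) (d2 : y ≠ u) (d3 : y ≠ l) (d4 : v ≠ A)
    (d5 : v ≠ w) (c1 : ¬ Corner F A y l) (c2 : ¬ Corner F y v A) (i1 : Inn G B 3 v)
    (i2 : Inn G B 4 y) (i3 : Inn G B 4 A) (i4 : Inn G B 4 u) (i5 : Inn G B 3 z)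
    (i6 : Inn G B 3 o2) (i7 : Inn G B 3 o1) : False := by
  refine Loc.cfalseD (nm := fun i => [v, y, A, u, x, z, w, l, o2, o1].getD i v) gS9a_adm gS9a_lchk
    gS9a_echk gS9a_dchk gS9a_xchk gS9a_ok h hF ?_ ?_ ?_ ?_ ?_ ?_ ?_
  · show ∀ e ∈ [(0, 4), (0, 1), (0, 5), (4, 1), (1, 2), (1, 6), (2, 6), (2, 3), (2, 7), (3, 7), (3, 9), (3, 8)], G.Adj _ _
    simp only [List.forall_mem_cons]
    exact ⟨e1, e2, w1.1, e3, e4, e5, e6, e7, e8, e9, w2.1, w3.1, by simp⟩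
  · simp only [List.forall_mem_cons]
    exact ⟨w1, w2, w3, by simp⟩
  · simp only [List.forall_mem_cons]
    exact ⟨d1, d2, d3, d4, d5, by simp⟩
  · simp
  · simp only [List.forall_mem_cons]
    exact ⟨c1, c2, by simp⟩
  · simp
  · have hl : Loc.hlist gS9a = [0, 1, 2, 3, 5, 8, 9] := by decide
    rw [hl]
    simp only [List.forall_mem_cons]
    exact ⟨i1, i2, i3, i4, i5, i6, i7, by simp⟩

end Pool.Agent.Lib.SVY.LC
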