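import Pool.Agent.Lib.SVY.LocOk4
import Pool.Agent.Lib.SVY.Facts

/-!
# SVY.LocThm4: further local reducible configurations

Generated.
-/

set_option autoImplicit false
set_option linter.unusedSectionVars false
set_option maxRecDepth 100000

namespace Pool.Agent.Lib.SVY.LC

open Finset Pool.Agent.Lib.SVT Pool.Agent.Lib.SVX

variable {V : Type*} [Fintype V] [DecidableEq V] {G : SimpleGraph V} {B : Finset V}
variable {m : ℕ} {F : Fin m → Finset (Sym2 V)}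

/-- V-edge `x y`, triangles `x x2 wp`, `y A w`, `A u p`, P1 centre `p` -/
theorem gS9b_false (h : MinCE G B) (hF : Faces G F) {v x y A p x2 wp z w p1 p2 u : V}
    (e1 : G.Adj v x) (e2 : G.Adj v y) (e3 : G.Adj x y) (e4 : G.Adj x x2) (e5 : G.Adj x wp)
    (e6 : G.Adj y w) (e7 : G.Adj y A) (e8 : G.Adj A w) (e9 : G.Adj A u) (e10 : G.Adj A p)
    (e11 : G.Adj p u) (e12 : G.Adj x2 wp) (w1 : WE G v z) (w2 : WE G p p1) (w3 : WE G p p2)
    (d1 : v ≠ A) (d2 : v ≠ w) (d3 : v ≠ x2) (d4 : v ≠ wp) (d5 : y ≠ u) (d6 : y ≠ p)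
    (d7 : p1 ≠ p2) (c1 : ¬ Corner F A y p) (c2 : ¬ Corner F y x w) (i1 : Inn G B 3 v)
    (i2 : Inn G B 4 x) (i3 : Inn G B 4 y) (i4 : Inn G B 4 A) (i5 : Inn G B 4 p)
    (i6 : Inn G B 3 z) (i7 : Inn G B 3 p1) (i8 : Inn G B 3 p2) : False := by
  refine Loc.cfalseD (nm := fun i => [v, x, y, A, p, x2, wp, z, w, p1, p2, u].getD i v) gS9b_adm gS9b_lchk
    gS9b_echk gS9b_dchk gS9b_xchk gS9b_ok h hF ?_ ?_ ?_ ?_ ?_ ?_ ?_
  · show ∀ e ∈ [(0, 1), (0, 2), (0, 7), (1, 2), (1, 5), (1, 6), (2, 8), (2, 3), (3, 8), (3, 11), (3, 4), (4, 11), (4, 9), (4, 10), (5, 6)], G.Adj _ _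
    simp only [List.forall_mem_cons]
    exact ⟨e1, e2, w1.1, e3, e4, e5, e6, e7, e8, e9, e10, e11, w2.1, w3.1, e12, by simp⟩
  · simp only [List.forall_mem_cons]
    exact ⟨w1, w2, w3, by simp⟩
  · simp only [List.forall_mem_cons]
    exact ⟨d1, d2, d3, d4, d5, d6, d7, by simp⟩
  · simp
  · simp only [List.forall_mem_cons]
    exact ⟨c1, c2, by simp⟩
  · simp
  · have hl : Loc.hlist gS9b = [0, 1, 2, 3, 4, 7, 9, 10] := by decide
    rw [hl]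
    simp only [List.forall_mem_cons]
    exact ⟨i1, i2, i3, i4, i5, i6, i7, i8, by simp⟩

/-- V-edge `x y`, triangle `y A w`, P1 centre `A` -/
theorem gS9p_false (h : MinCE G B) (hF : Faces G F) {v x y A x2 wp z w o u : V}
    (e1 : G.Adj v x) (e2 : G.Adj v y) (e3 : G.Adj x y) (e4 : G.Adj x x2) (e5 : G.Adj x wp)
    (e6 : G.Adj y w) (e7 : G.Adj y A) (e8 : G.Adj A w) (e9 : G.Adj x2 wp) (w1 : WE G v z)
    (w2 : WE G A o) (w3 : WE G A u) (d1 : o ≠ u) (d2 : v ≠ A) (d3 : v ≠ w) (d4 : v ≠ x2)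
    (d5 : v ≠ wp) (i1 : Inn G B 3 v) (i2 : Inn G B 4 x) (i3 : Inn G B 4 y) (i4 : Inn G B 4 A)
    (i5 : Inn G B 3 z) (i6 : Inn G B 3 o) (i7 : Inn G B 3 u) : False := by
  refine Loc.cfalseD (nm := fun i => [v, x, y, A, x2, wp, z, w, o, u].getD i v) gS9p_adm gS9p_lchk
    gS9p_echk gS9p_dchk gS9p_xchk gS9p_ok h hF ?_ ?_ ?_ ?_ ?_ ?_ ?_
  · show ∀ e ∈ [(0, 1), (0, 2), (0, 6), (1, 2), (1, 4), (1, 5), (2, 7), (2, 3), (3, 7), (3, 8), (3, 9), (4, 5)], G.Adj _ _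
    simp only [List.forall_mem_cons]
    exact ⟨e1, e2, w1.1, e3, e4, e5, e6, e7, e8, w2.1, w3.1, e9, by simp⟩
  · simp only [List.forall_mem_cons]
    exact ⟨w1, w2, w3, by simp⟩
  · simp only [List.forall_mem_cons]
    exact ⟨d1, d2, d3, d4, d5, by simp⟩
  · simp
  · simp
  · simp
  · have hl : Loc.hlist gS9p = [0, 1, 2, 3, 6, 8, 9] := by decide
    rw [hl]
    simp only [List.forall_mem_cons]
    exact ⟨i1, i2, i3, i4, i5, i6, i7, by simp⟩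

/-- P3-triangle `v x y`, `x` small, triangle `y w A`, `A` of type (1,2) with the neighbours `n` (3-vertex), `c`, `w` of type (1,3) with three 3-neighbours -/
theorem gS10K_false (h : MinCE G B) (hF : Faces G F) {v w y A x z k1 k2 k3 n c : V}
    (e1 : G.Adj v x) (e2 : G.Adj v y) (e3 : G.Adj x y) (e4 : G.Adj w y) (e5 : G.Adj w A)
    (e6 : G.Adj y A) (w1 : WE G v z) (w2 : WE G w k1) (w3 : WE G w k2) (w4 : WE G w k3)
    (w5 : WE G A n) (w6 : WE G A c) (d1 : v ≠ A) (d2 : v ≠ w) (d3 : n ≠ c) (d4 : k1 ≠ k2)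
    (d5 : k1 ≠ k3) (d6 : k2 ≠ k3) (i1 : Inn G B 3 v) (i2 : Inn G B 5 w) (i3 : Inn G B 4 y)
    (i4 : Inn G B 4 A) (i5 : Inn G B 4 x) (i6 : Inn G B 3 z) (i7 : Inn G B 3 k1)
    (i8 : Inn G B 3 k2) (i9 : Inn G B 3 k3) (i10 : Inn G B 3 n) : False := by
  refine Loc.cfalseD (nm := fun i => [v, w, y, A, x, z, k1, k2, k3, n, c].getD i v) gS10K_adm gS10K_lchk
    gS10K_echk gS10K_dchk gS10K_xchk gS10K_ok h hF ?_ ?_ ?_ ?_ ?_ ?_ ?_
  · show ∀ e ∈ [(0, 5), (0, 4), (0, 2), (4, 2), (1, 2), (1, 3), (2, 3), (3, 9), (3, 10), (1, 6), (1, 7), (1, 8)], G.Adj _ _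
    simp only [List.forall_mem_cons]
    exact ⟨w1.1, e1, e2, e3, e4, e5, e6, w5.1, w6.1, w2.1, w3.1, w4.1, by simp⟩
  · simp only [List.forall_mem_cons]
    exact ⟨w1, w2, w3, w4, w5, w6, by simp⟩
  · simp only [List.forall_mem_cons]
    exact ⟨d1, d2, d3, d4, d5, d6, by simp⟩
  · simp
  · simp
  · simp
  · have hl : Loc.hlist gS10K = [0, 1, 2, 3, 4, 5, 6, 7, 8, 9] := by decide
    rw [hl]
    simp only [List.forall_mem_cons]
    exact ⟨i1, i2, i3, i4, i5, i6, i7, i8, i9, i10, by simp⟩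

/-- V-edge `x y`, triangles `x x2 wp`, `y A w`, `A` of type (1,3) with three 3-neighbours -/
theorem gS12_false (h : MinCE G B) (hF : Faces G F) {v x y A x2 wp z w k3 k2 u : V}
    (e1 : G.Adj v x) (e2 : G.Adj v y) (e3 : G.Adj x y) (e4 : G.Adj x x2) (e5 : G.Adj x wp)
    (e6 : G.Adj y w) (e7 : G.Adj y A) (e8 : G.Adj A w) (e9 : G.Adj x2 wp) (w1 : WE G v z)
    (w2 : WE G A k3) (w3 : WE G A k2) (w4 : WE G A u) (d1 : k2 ≠ k3) (d2 : k2 ≠ u) (d3 : k3 ≠ u)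
    (d4 : v ≠ A) (d5 : v ≠ w) (d6 : v ≠ x2) (d7 : v ≠ wp) (c1 : ¬ Corner F y x w)
    (i1 : Inn G B 3 v) (i2 : Inn G B 4 x) (i3 : Inn G B 4 y) (i4 : Inn G B 5 A)
    (i5 : Inn G B 3 z) (i6 : Inn G B 3 k3) (i7 : Inn G B 3 k2) (i8 : Inn G B 3 u) : False := by
  refine Loc.cfalseD (nm := fun i => [v, x, y, A, x2, wp, z, w, k3, k2, u].getD i v) gS12_adm gS12_lchk
    gS12_echk gS12_dchk gS12_xchk gS12_ok h hF ?_ ?_ ?_ ?_ ?_ ?_ ?_
  · show ∀ e ∈ [(0, 1), (0, 2), (0, 6), (1, 2), (1, 4), (1, 5), (2, 7), (2, 3), (3, 7), (3, 8), (3, 9), (3, 10), (4, 5)], G.Adj _ _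
    simp only [List.forall_mem_cons]
    exact ⟨e1, e2, w1.1, e3, e4, e5, e6, e7, e8, w2.1, w3.1, w4.1, e9, by simp⟩
  · simp only [List.forall_mem_cons]
    exact ⟨w1, w2, w3, w4, by simp⟩
  · simp only [List.forall_mem_cons]
    exact ⟨d1, d2, d3, d4, d5, d6, d7, by simp⟩
  · simp
  · simp only [List.forall_mem_cons]
    exact ⟨c1, by simp⟩
  · simp
  · have hl : Loc.hlist gS12 = [0, 1, 2, 3, 6, 8, 9, 10] := by decide
    rw [hl]
    simp only [List.forall_mem_cons]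
    exact ⟨i1, i2, i3, i4, i5, i6, i7, i8, by simp⟩

end Pool.Agent.Lib.SVY.LC
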