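import Pool.Agent.Lib.SVY.LocData
import Pool.Agent.Lib.SVX.Chk

/-!
# SVY.LocL4: the list statements

Generated.
-/

set_option autoImplicit false
set_option linter.unusedSectionVars false
set_option maxRecDepth 100000

namespace Pool.Agent.Lib.SVY.LC

open Pool.Agent.Lib.SVX Pool.Agent.Lib.SVX.Chk

def gVTV_l : List St :=
  [.par 2 5 [],
   .par 2 6 [5],
   .vf ⟨1, false, [5, 6], []⟩,
   .par 3 7 [],
   .tr 1 2 ⟨0, false, [], [(7, true, [])]⟩,
   .par 2 8 [5, 6],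
   .vf ⟨2, false, [8], []⟩,
   .ed 2 3,
   .par 2 10 [],
   .vf ⟨3, false, [8, 10], []⟩,
   .ed 3 4,
   .par 3 9 [],
   .vf ⟨4, false, [10], [(9, true, [])]⟩]

theorem gVTV_chk : chkPath (ofCfg gVTV) gVTV_l [(5, 2, []), (6, 2, [5]), (8, 2, [5, 6])] 1 = true := by
  decide +kernel

theorem gVTV_list : gVTV.ListOK := chkPath_cfg gVTV_chk

end Pool.Agent.Lib.SVY.LC
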