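import Pool.Agent.Lib.SVY.LocData
import Pool.Agent.Lib.SVX.Chk

/-!
# SVY.LocL6: the list statements

Generated.
-/

set_option autoImplicit false
set_option linter.unusedSectionVars false
set_option maxRecDepth 100000

namespace Pool.Agent.Lib.SVY.LC

open Pool.Agent.Lib.SVX Pool.Agent.Lib.SVX.Chk

def gN1B_l : List St :=
  [.par 3 5 [],
   .vf ⟨0, false, [], [(5, true, [])]⟩,
   .par 3 4 [],
   .tr 0 2 ⟨4, true, [], []⟩,
   .par 2 6 [],
   .par 2 7 [],
   .tr 2 3 ⟨1, false, [6, 7], []⟩,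
   .par 3 8 [],
   .par 2 9 [6, 7],
   .vf ⟨3, false, [9], [(8, true, [])]⟩]

theorem gN1B_chk : chkPath (ofCfg gN1B) gN1B_l [(6, 2, []), (7, 2, []), (9, 2, [6, 7])] 0 = true := by
  decide +kernel

theorem gN1B_list : gN1B.ListOK := chkPath_cfg gN1B_chk

end Pool.Agent.Lib.SVY.LC
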