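import Pool.Agent.Lib.SVY.LocL3
import Pool.Agent.Lib.SVY.LocL4
import Pool.Agent.Lib.SVY.LocL5
import Pool.Agent.Lib.SVY.LocL6

/-!
# SVY.LocThmB: local reducible configurations: VTV, N1

Generated.
-/

set_option autoImplicit false
set_option linter.unusedSectionVars false
set_option maxRecDepth 100000

namespace Pool.Agent.Lib.SVY.LC

open Finset Pool.Agent.Lib.SVT Pool.Agent.Lib.SVX

variable {V : Type*} [Fintype V] [DecidableEq V] {G : SimpleGraph V} {B : Finset V}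
variable {m : ℕ} {F : Fin m → Finset (Sym2 V)}

/-- VTV: P3-triangles `v x y`, `v' y2 c`, triangles `x x2 wp`, `y y2 w`: new edges `x2 w`, `wp w` -/
theorem gVTV_false (h : MinCE G B) (hF : Faces G F) {v x y y2 v' x2 wp z w z' c : V}
    (e1 : G.Adj v x) (e2 : G.Adj v y) (e3 : G.Adj x y) (e4 : G.Adj x x2) (e5 : G.Adj x wp)
    (e6 : G.Adj y w) (e7 : G.Adj y y2) (e8 : G.Adj y2 w) (e9 : G.Adj y2 c) (e10 : G.Adj y2 v')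
    (e11 : G.Adj v' c) (e12 : G.Adj x2 wp) (w1 : WE G v z) (w2 : WE G v' z') (d1 : v ≠ x2)
    (d2 : v ≠ wp) (d3 : v ≠ w) (d4 : x ≠ w) (d5 : y ≠ c) (d6 : w ≠ c) (x1 : ¬ G.Adj z z')
    (c1 : ¬ Corner F y x w) (b1 : v ∉ B) (b2 : x ∉ B) (b3 : y ∉ B) (b4 : y2 ∉ B) (b5 : v' ∉ B)
    (b6 : z ∉ B) (b7 : z' ∉ B) (g1 : dg G v ≤ 3) (g2 : dg G x ≤ 4) (g3 : dg G y ≤ 4)
    (g4 : dg G y2 ≤ 4) (g5 : dg G v' ≤ 3) (g6 : dg G z ≤ 3) (g7 : dg G z' ≤ 3) : False := by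
  refine Loc.cfalse (nm := fun i => [v, x, y, y2, v', x2, wp, z, w, z', c].getD i v) gVTV_adm gVTV_lchk gVTV_echk gVTV_list h hF
    ?_ ?_ ?_ ?_ ?_ ?_
  · show ∀ e ∈ [(0, 1), (0, 2), (0, 7), (1, 2), (1, 5), (1, 6), (2, 8), (2, 3), (3, 8), (3, 10), (3, 4), (4, 10), (4, 9), (5, 6)], G.Adj _ _
    simp only [List.forall_mem_cons]
    exact ⟨e1, e2, w1.1, e3, e4, e5, e6, e7, e8, e9, e10, e11, w2.1, e12, by simp⟩
  · simp only [List.forall_mem_cons]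
    exact ⟨w1, w2, by simp⟩
  · simp only [List.forall_mem_cons]
    exact ⟨d1, d2, d3, d4, d5, d6, by simp⟩
  · simp only [List.forall_mem_cons]
    exact ⟨x1, by simp⟩
  · simp only [List.forall_mem_cons]
    exact ⟨c1, by simp⟩
  · have hl : Loc.hlist gVTV = [0, 1, 2, 3, 4, 7, 9] := by decide
    rw [hl]
    simp only [List.forall_mem_cons]
    exact ⟨⟨b1, g1⟩, ⟨b2, g2⟩, ⟨b3, g3⟩, ⟨b4, g4⟩, ⟨b5, g5⟩, ⟨b6, g6⟩, ⟨b7, g7⟩, by simp⟩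

/-- P3-triangle `v x y`, `x` small, triangle `y y2 w`, `y2` of type (1,2) with the neighbours `n` (3-vertex), `c`: `w` of type (2,0) with the other triangle `w u l`: new edges `u c`, `l c` -/
theorem gN1F_false (h : MinCE G B) (hF : Faces G F) {v w y y2 x z u l n c : V}
    (e1 : G.Adj v x) (e2 : G.Adj v y) (e3 : G.Adj x y) (e4 : G.Adj w y) (e5 : G.Adj w y2)
    (e6 : G.Adj y y2) (e7 : G.Adj w u) (e8 : G.Adj w l) (e9 : G.Adj u l) (w1 : WE G v z)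
    (w2 : WE G y2 n) (w3 : WE G y2 c) (d1 : y ≠ u) (d2 : y2 ≠ u) (d3 : w ≠ x) (d4 : y2 ≠ x)
    (d5 : n ≠ c) (c1 : ¬ Corner F y2 w c) (b1 : v ∉ B) (b2 : w ∉ B) (b3 : y ∉ B) (b4 : y2 ∉ B)
    (b5 : x ∉ B) (b6 : z ∉ B) (b7 : n ∉ B) (g1 : dg G v ≤ 3) (g2 : dg G w ≤ 4) (g3 : dg G y ≤ 4)
    (g4 : dg G y2 ≤ 4) (g5 : dg G x ≤ 4) (g6 : dg G z ≤ 3) (g7 : dg G n ≤ 3) : False := by
  refine Loc.cfalse (nm := fun i => [v, w, y, y2, x, z, u, l, n, c].getD i v) gN1F_adm gN1F_lchk gN1F_echk gN1F_list h hF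
    ?_ ?_ ?_ ?_ ?_ ?_
  · show ∀ e ∈ [(0, 5), (0, 4), (0, 2), (4, 2), (1, 2), (1, 3), (2, 3), (3, 8), (3, 9), (1, 6), (1, 7), (6, 7)], G.Adj _ _
    simp only [List.forall_mem_cons]
    exact ⟨w1.1, e1, e2, e3, e4, e5, e6, w2.1, w3.1, e7, e8, e9, by simp⟩
  · simp only [List.forall_mem_cons]
    exact ⟨w1, w2, w3, by simp⟩
  · simp only [List.forall_mem_cons]
    exact ⟨d1, d2, d3, d4, d5, by simp⟩
  · simp
  · simp only [List.forall_mem_cons]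
    exact ⟨c1, by simp⟩
  · have hl : Loc.hlist gN1F = [0, 1, 2, 3, 4, 5, 8] := by decide
    rw [hl]
    simp only [List.forall_mem_cons]
    exact ⟨⟨b1, g1⟩, ⟨b2, g2⟩, ⟨b3, g3⟩, ⟨b4, g4⟩, ⟨b5, g5⟩, ⟨b6, g6⟩, ⟨b7, g7⟩, by simp⟩

/-- P3-triangle `v x y`, `x` small, triangle `y y2 w`, `y2` of type (1,2) with the neighbours `n` (3-vertex), `c`: `w` of type (1,2) with the neighbours `u`, `l`: new edges `u c`, `l c` -/
theorem gN1B_false (h : MinCE G B) (hF : Faces G F) {v w y y2 x z u l n c : V}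
    (e1 : G.Adj v x) (e2 : G.Adj v y) (e3 : G.Adj x y) (e4 : G.Adj w y) (e5 : G.Adj w y2)
    (e6 : G.Adj y y2) (w1 : WE G v z) (w2 : WE G w u) (w3 : WE G w l) (w4 : WE G y2 n)
    (w5 : WE G y2 c) (d1 : u ≠ l) (d2 : w ≠ x) (d3 : y2 ≠ x) (d4 : n ≠ c)
    (c1 : ¬ Corner F y2 w c) (b1 : v ∉ B) (b2 : w ∉ B) (b3 : y ∉ B) (b4 : y2 ∉ B) (b5 : x ∉ B)
    (b6 : z ∉ B) (b7 : n ∉ B) (g1 : dg G v ≤ 3) (g2 : dg G w ≤ 4) (g3 : dg G y ≤ 4)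
    (g4 : dg G y2 ≤ 4) (g5 : dg G x ≤ 4) (g6 : dg G z ≤ 3) (g7 : dg G n ≤ 3) : False := by
  refine Loc.cfalse (nm := fun i => [v, w, y, y2, x, z, u, l, n, c].getD i v) gN1B_adm gN1B_lchk gN1B_echk gN1B_list h hF
    ?_ ?_ ?_ ?_ ?_ ?_
  · show ∀ e ∈ [(0, 5), (0, 4), (0, 2), (4, 2), (1, 2), (1, 3), (2, 3), (3, 8), (3, 9), (1, 6), (1, 7)], G.Adj _ _
    simp only [List.forall_mem_cons]
    exact ⟨w1.1, e1, e2, e3, e4, e5, e6, w4.1, w5.1, w2.1, w3.1, by simp⟩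
  · simp only [List.forall_mem_cons]
    exact ⟨w1, w2, w3, w4, w5, by simp⟩
  · simp only [List.forall_mem_cons]
    exact ⟨d1, d2, d3, d4, by simp⟩
  · simp
  · simp only [List.forall_mem_cons]
    exact ⟨c1, by simp⟩
  · have hl : Loc.hlist gN1B = [0, 1, 2, 3, 4, 5, 8] := by decide
    rw [hl]
    simp only [List.forall_mem_cons]
    exact ⟨⟨b1, g1⟩, ⟨b2, g2⟩, ⟨b3, g3⟩, ⟨b4, g4⟩, ⟨b5, g5⟩, ⟨b6, g6⟩, ⟨b7, g7⟩, by simp⟩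

/-- `w` of type (1,2) with the neighbours `a` (3-vertex), `b`, triangle `w y s`, `s` small, triangle `y x l`, P3-triangle `x t v`, `t` small: new edges `a l`, `b l` -/
theorem gG7_false (h : MinCE G B) (hF : Faces G F) {w y x v a b s l t z : V}
    (e1 : G.Adj w s) (e2 : G.Adj w y) (e3 : G.Adj y s) (e4 : G.Adj y l) (e5 : G.Adj y x)
    (e6 : G.Adj x l) (e7 : G.Adj x t) (e8 : G.Adj x v) (e9 : G.Adj v t) (w1 : WE G w a)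
    (w2 : WE G w b) (w3 : WE G v z) (d1 : a ≠ b) (d2 : w ≠ x) (d3 : w ≠ l) (d4 : y ≠ t)
    (d5 : y ≠ v) (x1 : ¬ G.Adj z a) (c1 : ¬ Corner F y w l) (b1 : w ∉ B) (b2 : y ∉ B)
    (b3 : x ∉ B) (b4 : v ∉ B) (b5 : a ∉ B) (b6 : s ∉ B) (b7 : t ∉ B) (b8 : z ∉ B)
    (g1 : dg G w ≤ 4) (g2 : dg G y ≤ 4) (g3 : dg G x ≤ 4) (g4 : dg G v ≤ 3) (g5 : dg G a ≤ 3)
    (g6 : dg G s ≤ 4) (g7 : dg G t ≤ 4) (g8 : dg G z ≤ 3) : False := by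
  refine Loc.cfalse (nm := fun i => [w, y, x, v, a, b, s, l, t, z].getD i w) gG7_adm gG7_lchk gG7_echk gG7_list h hF
    ?_ ?_ ?_ ?_ ?_ ?_
  · show ∀ e ∈ [(0, 4), (0, 5), (0, 6), (0, 1), (1, 6), (1, 7), (1, 2), (2, 7), (2, 8), (2, 3), (3, 8), (3, 9)], G.Adj _ _
    simp only [List.forall_mem_cons]
    exact ⟨w1.1, w2.1, e1, e2, e3, e4, e5, e6, e7, e8, e9, w3.1, by simp⟩
  · simp only [List.forall_mem_cons]
    exact ⟨w1, w2, w3, by simp⟩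
  · simp only [List.forall_mem_cons]
    exact ⟨d1, d2, d3, d4, d5, by simp⟩
  · simp only [List.forall_mem_cons]
    exact ⟨x1, by simp⟩
  · simp only [List.forall_mem_cons]
    exact ⟨c1, by simp⟩
  · have hl : Loc.hlist gG7 = [0, 1, 2, 3, 4, 6, 8, 9] := by decide
    rw [hl]
    simp only [List.forall_mem_cons]
    exact ⟨⟨b1, g1⟩, ⟨b2, g2⟩, ⟨b3, g3⟩, ⟨b4, g4⟩, ⟨b5, g5⟩, ⟨b6, g6⟩, ⟨b7, g7⟩, ⟨b8, g8⟩, by simp⟩

end Pool.Agent.Lib.SVY.LC
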