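import Pool.Agent.Lib.SVY.LocL7

/-!
# SVY.LocThmC: local reducible configurations

Generated.
-/

set_option autoImplicit false
set_option linter.unusedSectionVars false
set_option maxRecDepth 100000

namespace Pool.Agent.Lib.SVY.LC

open Finset Pool.Agent.Lib.SVT Pool.Agent.Lib.SVX

variable {V : Type*} [Fintype V] [DecidableEq V] {G : SimpleGraph V} {B : Finset V}
variable {m : ℕ} {F : Fin m → Finset (Sym2 V)}

/-- P3-triangle `v x y`, `x` small, triangle `y y2 w`, `y2` of type (1,2) with the neighbours `n` (3-vertex), `c`: `w` of type (2,1) with the other triangle `w a b` and the neighbour `m` (3-vertex): new edges `a c`, `b c`, `m c` -/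
theorem gN1Y_false (h : MinCE G B) (hF : Faces G F) {v w y y2 x z a b m n c : V}
    (e1 : G.Adj v x) (e2 : G.Adj v y) (e3 : G.Adj x y) (e4 : G.Adj w y) (e5 : G.Adj w y2)
    (e6 : G.Adj y y2) (e7 : G.Adj w a) (e8 : G.Adj w b) (e9 : G.Adj a b) (w1 : WE G v z)
    (w2 : WE G w m) (w3 : WE G y2 n) (w4 : WE G y2 c) (d1 : y ≠ a) (d2 : y2 ≠ a) (d3 : w ≠ x)
    (d4 : y2 ≠ x) (d5 : n ≠ c) (c1 : ¬ Corner F y2 w c) (b1 : v ∉ B) (b2 : w ∉ B) (b3 : y ∉ B)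
    (b4 : y2 ∉ B) (b5 : x ∉ B) (b6 : z ∉ B) (b7 : m ∉ B) (b8 : n ∉ B) (g1 : dg G v ≤ 3)
    (g2 : dg G w ≤ 5) (g3 : dg G y ≤ 4) (g4 : dg G y2 ≤ 4) (g5 : dg G x ≤ 4) (g6 : dg G z ≤ 3)
    (g7 : dg G m ≤ 3) (g8 : dg G n ≤ 3) : False := by
  refine Loc.cfalse (nm := fun i => [v, w, y, y2, x, z, a, b, m, n, c].getD i v) gN1Y_adm gN1Y_lchk gN1Y_echk gN1Y_ok h hF
    ?_ ?_ ?_ ?_ ?_ ?_
  · show ∀ e ∈ [(0, 5), (0, 4), (0, 2), (4, 2), (1, 2), (1, 3), (2, 3), (3, 9), (3, 10), (1, 6), (1, 7), (1, 8), (6, 7)], G.Adj _ _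
    simp only [List.forall_mem_cons]
    exact ⟨w1.1, e1, e2, e3, e4, e5, e6, w3.1, w4.1, e7, e8, w2.1, e9, by simp⟩
  · simp only [List.forall_mem_cons]
    exact ⟨w1, w2, w3, w4, by simp⟩
  · simp only [List.forall_mem_cons]
    exact ⟨d1, d2, d3, d4, d5, by simp⟩
  · simp
  · simp only [List.forall_mem_cons]
    exact ⟨c1, by simp⟩
  · have hl : Loc.hlist gN1Y = [0, 1, 2, 3, 4, 5, 8, 9] := by decide
    rw [hl]
    simp only [List.forall_mem_cons]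
    exact ⟨⟨b1, g1⟩, ⟨b2, g2⟩, ⟨b3, g3⟩, ⟨b4, g4⟩, ⟨b5, g5⟩, ⟨b6, g6⟩, ⟨b7, g7⟩, ⟨b8, g8⟩, by simp⟩

end Pool.Agent.Lib.SVY.LC
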