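import Pool.Agent.Lib.SVY.LfB
import Pool.Agent.Lib.SVY.LocThmB
import Pool.Agent.Lib.SVY.LocThmC
import Pool.Agent.Lib.SVY.LocThm3
import Pool.Agent.Lib.SVY.LocThm4

/-!
# SVY.LfC: local facts at faces
-/

set_option autoImplicit false
set_option linter.unusedSectionVars false

namespace Pool.Agent.Lib.SVY

open Finset Pool.Agent.Lib.SVT Pool.Agent.Lib.SVX

variable {V : Type*} [Fintype V] [DecidableEq V] {G : SimpleGraph V} {B : Finset V}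
variable {m : ℕ} {F : Fin m → Finset (Sym2 V)}

namespace LfProof

/-- the vertices at a V-edge -/
structure VD (G : SimpleGraph V) (B : Finset V) {m : ℕ} (F : Fin m → Finset (Sym2 V))
    (x y A v x2 wp w z : V) : Prop where
  hv : OneP G B v
  hz : One G B z
  wz : WE G v z
  vx : G.Adj v x
  vy : G.Adj v y
  xy : G.Adj x y
  xx : G.Adj x x2
  xp : G.Adj x wp
  pp : G.Adj x2 wp
  vx2 : v ≠ x2
  vwp : v ≠ wp
  yw : G.Adj y w
  yA : G.Adj y A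
  Aw : G.Adj A w
  vA : v ≠ A
  vw : v ≠ w
  xA : x ≠ A
  xw : x ≠ w
  nvw : ¬ G.Adj v w
  nvA : ¬ G.Adj v A
  nxA : ¬ G.Adj x A
  nxw : ¬ G.Adj x w
  n1 : ¬ Corner F y x w
  n2 : ¬ Corner F y v A
  hw : apx G y A = w
  hw' : apx G A y = w
  hvx : apx G x y = v

theorem vd (h : MinCE G B) (hF : Faces G F) {i : Fin m} {x y A : V} (hV : VE G B F i x y A) :
    ∃ v x2 wp w z, VD G B F x y A v x2 wp w z := by
  obtain ⟨hi, k1, k2, hne, fx, fy, hv⟩ := hV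
  have k1' : s(y, x) ∈ F i := by
    rw [Sym2.eq_swap]
    exact k1
  obtain ⟨v, w, D⟩ := FF.fd h hF fy hi k1' k2 hne.symm
  have e1 : apx G x y = v := D.hw'
  rw [e1] at hv
  obtain ⟨z, wz, hz⟩ := hv.2
  obtain ⟨c, d, n0, q1, q2, q3, n1, n2, n3, n4, m1, m2, m3, m4, -⟩ :=
    FF.other h fx D.ay.symm D.yw D.aw
  exact ⟨v, c, d, w, z, hv, hz, wz, D.yw.symm, D.aw.symm, D.ay.symm, q1, q2, q3, n3, n4, D.al,
    D.au, D.ul, D.wu, D.wl, D.yu, D.yl, D.nwl, D.nwu, D.nyu, D.nyl, D.c1, D.c4, D.hl, D.hl', e1⟩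

/-- weak neighbours of the outer vertices of two V-edges are not adjacent -/
theorem zz (h : MinCE G B) (hF : Faces G F) {v v' z z' y A : V} (hv : One G B v) (hz : One G B z)
    (w1 : WE G v z) (hz' : One G B z') (w2 : WE G v' z') (e1 : G.Adj v y)
    (e2 : G.Adj y A) (e3 : G.Adj A v') (d1 : v ≠ A) (d2 : y ≠ v') : ¬ G.Adj z z' := by
  intro hzz
  have h1 : ¬ G.Adj v v' := fun h2 => h.good.c4 v y A v' d1 d2 e1 e2 e3 h2.symm
  have h2 : v ≠ z' := by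
    rintro rfl
    exact h1 w2.1.symm
  exact l1 h hF v z z' hv.inn hz.inn hz'.inn w1.1 hzz h2 fun h3 => w1.2 ⟨z', h3, hzz⟩

theorem s5 (h : MinCE G B) (hF : Faces G F) : ∀ i x y A u, VE G B F i x y A → FF G B A →
    s(A, u) ∈ F i → u ≠ y → OneP G B (apx G A u) → False := by
  intro i x y A u hV hA hu huy hv'
  obtain ⟨v, x2, wp, w, z, D⟩ := vd h hF hV
  have k1 : s(A, y) ∈ F i := by
    rw [Sym2.eq_swap]
    exact hV.ya
  obtain ⟨w', v', E⟩ := FF.fd h hF hA hV.nt k1 hu huy.symm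
  have e1 : w' = w := E.hw.symm.trans D.hw'
  subst e1
  rw [E.hl] at hv'
  obtain ⟨z', wz', hz'⟩ := hv'.2
  have x1 := zz h hF D.hv.1 D.hz D.wz hz' wz' D.vy D.yA E.al D.vA E.yl
  exact LC.gVTV_false h hF D.vx D.vy D.xy D.xx D.xp D.yw D.yA D.Aw E.au E.al E.ul.symm D.pp D.wz
    wz' D.vx2 D.vwp D.vw D.xw E.yu E.wu x1 D.n1 D.hv.inn.1 hV.fx.inn.1 hV.fy.inn.1 hA.inn.1
    hv'.inn.1 D.hz.inn.1 hz'.inn.1 D.hv.inn.2 hV.fx.inn.2 hV.fy.inn.2 hA.inn.2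
    hv'.inn.2 D.hz.inn.2 hz'.inn.2

theorem s8 (h : MinCE G B) (hF : Faces G F) : ∀ i x y A u, VE G B F i x y A → FF G B A →
    s(A, u) ∈ F i → u ≠ y → One G B u → False := by
  intro i x y A u hV hA hu huy hO
  obtain ⟨v, x2, wp, w, z, D⟩ := vd h hF hV
  have k1 : s(A, y) ∈ F i := by
    rw [Sym2.eq_swap]
    exact hV.ya
  obtain ⟨w', l, E⟩ := FF.fd h hF hA hV.nt k1 hu huy.symm
  have e1 : w' = w := E.hw.symm.trans D.hw'
  subst e1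
  obtain ⟨o, ho⟩ := One.exists_weak h hO
  exact LC.gS8_false h hF D.vx D.vy D.xy D.xx D.xp D.yA D.yw D.Aw E.au E.al E.ul D.pp D.wz ho D.vA
    D.vw D.vx2 D.vwp E.yu E.yl E.c2 D.hv.inn hV.fx.inn hV.fy.inn hA.inn hO.inn D.hz.inn

theorem s9 (h : MinCE G B) (hF : Faces G F) : ∀ i x y A u, VE G B F i x y A → FF G B A →
    s(A, u) ∈ F i → u ≠ y → (P1c G B u ∨ P1c G B (apx G A u)) → False := by
  intro i x y A u hV hA hu huy hO
  obtain ⟨v, x2, wp, w, z, D⟩ := vd h hF hV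
  have k1 : s(A, y) ∈ F i := by
    rw [Sym2.eq_swap]
    exact hV.ya
  obtain ⟨w', l, E⟩ := FF.fd h hF hA hV.nt k1 hu huy.symm
  have e1 : w' = w := E.hw.symm.trans D.hw'
  subst e1
  rcases hO with hO | hO
  · obtain ⟨o1, o2, n1, w1, w2, -⟩ := F12.weak h hO.1
    exact LC.gS9a_false h hF D.vx D.vy D.xy D.yA D.yw D.Aw E.au E.al E.ul D.wz w1 w2 n1
      E.yu E.yl D.vA D.vw E.c1 D.n2 D.hv.inn hV.fy.inn hA.inn hO.inn D.hz.inn (hO.2 o2 w2).inn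
      (hO.2 o1 w1).inn
  · rw [E.hl] at hO
    obtain ⟨o1, o2, n1, w1, w2, -⟩ := F12.weak h hO.1
    exact LC.gS9b_false h hF D.vx D.vy D.xy D.xx D.xp D.yw D.yA D.Aw E.au E.al E.ul.symm D.pp D.wz
      w1 w2 D.vA D.vw D.vx2 D.vwp E.yu E.yl n1 E.c1 D.n1 D.hv.inn hV.fx.inn hV.fy.inn hA.inn
      hO.inn D.hz.inn (hO.2 o1 w1).inn (hO.2 o2 w2).inn

theorem s9p (h : MinCE G B) (hF : Faces G F) : ∀ i x y A, VE G B F i x y A → P1c G B A →
    False := by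
  intro i x y A hV hA
  obtain ⟨v, x2, wp, w, z, D⟩ := vd h hF hV
  obtain ⟨o1, o2, n1, w1, w2, -⟩ := F12.weak h hA.1
  exact LC.gS9p_false h hF D.vx D.vy D.xy D.xx D.xp D.yw D.yA D.Aw D.pp D.wz w1 w2 n1 D.vA
    D.vw D.vx2 D.vwp D.hv.inn hV.fx.inn hV.fy.inn hA.inn D.hz.inn (hA.2 o1 w1).inn
    (hA.2 o2 w2).inn

theorem s12 (h : MinCE G B) (hF : Faces G F) : ∀ i x y A, VE G B F i x y A → ExK G B A →
    False := by
  intro i x y A hV hA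
  obtain ⟨v, x2, wp, w, z, D⟩ := vd h hF hV
  obtain ⟨a, b, c, n1, n2, n3, w2, w3, w4, m1, m2, m3, -⟩ := ExK.weak h hA
  exact LC.gS12_false h hF D.vx D.vy D.xy D.xx D.xp D.yw D.yA D.Aw D.pp D.wz w2 w3 w4 n1.symm n3
    n2 D.vA D.vw D.vx2 D.vwp D.n1 D.hv.inn hV.fx.inn hV.fy.inn hA.inn D.hz.inn m1.inn m2.inn
    m3.inn

theorem sb (h : MinCE G B) (hF : Faces G F) : ∀ i o x y u, Nt F i → OneP G B o → FF G B x →
    FF G B y → s(o, x) ∈ F i → s(x, y) ∈ F i → s(y, u) ∈ F i → o ≠ y → x ≠ u → TE G o x →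
    TE G y u → OneP G B (apx G y u) → False := by
  intro i o x y u hi ho hx hy k1 k2 k3 n1 n2 t1 t2 hv
  have k1' : s(x, o) ∈ F i := by
    rw [Sym2.eq_swap]
    exact k1
  have k2' : s(y, x) ∈ F i := by
    rw [Sym2.eq_swap]
    exact k2
  obtain ⟨q, l, D⟩ := FF.fd h hF hx hi k1' k2 n1
  obtain ⟨l', v, E⟩ := FF.fd h hF hy hi k2' k3 n2
  have e1 : l' = l := E.hw.symm.trans D.hl'
  subst e1
  rw [E.hl] at hv
  obtain ⟨z1, w1, hz1⟩ := ho.2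
  obtain ⟨z2, w2, hz2⟩ := hv.2
  exact LC.gSB_false h hF D.yw D.ay.symm D.aw.symm D.al D.au D.ul E.au E.al E.ul w1 w2 D.yl D.yu
    E.yu E.yl D.c2 E.c1 ho.inn hx.inn hy.inn hv.inn hz1.inn hz2.inn

/-- the face at an `F12` vertex `A` through the triangle edge `A y` and a second edge `A u`: `u` is
a weak neighbour, the other weak neighbour is next to `w` -/
theorem n12 (h : MinCE G B) (hF : Faces G F) {i : Fin m} {A y u w : V} (hA : F12 G B A)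
    (hi : Nt F i) (e1 : G.Adj A y) (e2 : G.Adj A w) (e3 : G.Adj y w) (k1 : s(A, y) ∈ F i)
    (k2 : s(A, u) ∈ F i) (huy : u ≠ y) : WE G A u ∧ ∃ n, n ≠ u ∧ WE G A n ∧
      (∀ c, WE G A c → c = u ∨ c = n) ∧ ¬ Corner F A w u := by
  obtain ⟨p, q, hpq, w1, w2, hall, ⟨j, j1, j2⟩, ⟨k, l1, l2⟩, -⟩ := F12.faces h hF hA e1 e2 e3
  have ty : TE G A y := ⟨e1, w, e2, e3⟩
  have tw : TE G A w := ⟨e2, y, e1, e3.symm⟩
  have hpy : p ≠ y := fun e => ty.not_we (e ▸ w1)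
  have e4 : j = i := te_nt_unique h hF ty (we_nt h hF w1 j2) hi j1 k1
  subst e4
  have e5 : u = p := by
    rcases face_two hF hpy.symm j1 j2 k2 with h1 | h1
    · exact absurd h1 huy
    · exact h1
  subst e5
  refine ⟨w1, q, hpq.symm, w2, hall, ?_⟩
  exact not_corner h hF (we_nt h hF w2 l2) e2 e3.symm e1 l1 l2
    (fun e => tw.not_we (e ▸ w2)) (fun e => tw.not_we (e ▸ w1)) huy hpq

theorem s10n (h : MinCE G B) (hF : Faces G F) : ∀ i x y A u, VE G B F i x y A → Npay G B A →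
    s(A, u) ∈ F i → u ≠ y → ¬ Dm G B u → ¬ Np G B (apx G y A) → False := by
  intro i x y A u hV hA hu huy hD hNp
  obtain ⟨v, x2, wp, w, z, D⟩ := vd h hF hV
  rw [D.hw] at hNp
  have k1 : s(A, y) ∈ F i := by
    rw [Sym2.eq_swap]
    exact hV.ya
  obtain ⟨wu, n, hnu, wn, hall, nc⟩ := n12 h hF hA.1 hV.nt D.yA.symm D.Aw D.yw k1 hu huy
  have hn : Dm G B n := by
    obtain ⟨p, q, -, wp', -, -, hp⟩ := npay_weak h hA
    rcases hall p wp' with rfl | rfl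
    · exact absurd hp hD
    · exact hp
  have tyw : TE G w y := ⟨D.yw.symm, A, D.Aw.symm, D.yA⟩
  by_cases hE : Exc G B w
  · rcases hE with hw | hw
    · obtain ⟨c, d, n0, q1, q2, q3, n1, n2, n3, n4, m1, m2, m3, m4, -⟩ :=
        other_tri h hw.2.2.1 D.yw.symm D.Aw.symm D.yA
      obtain ⟨k, wk, hk⟩ := Ex2.weak h hw
      exact LC.gN1Y_false h hF D.vx D.vy D.xy D.yw.symm D.Aw.symm D.yA q1 q2 q3 D.wz wk wn wu n1 n3
        D.xw.symm D.xA.symm hnu nc D.hv.inn.1 hw.inn.1 hV.fy.inn.1 hA.inn.1 hV.fx.inn.1 D.hz.inn.1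
        hk.inn.1 hn.inn.1 D.hv.inn.2 hw.inn.2 hV.fy.inn.2 hA.inn.2 hV.fx.inn.2 D.hz.inn.2
        hk.inn.2 hn.inn.2
    · obtain ⟨a, b, c, n1, n2, n3, w2, w3, w4, m1, m2, m3, -⟩ := ExK.weak h hw
      exact LC.gS10K_false h hF D.vx D.vy D.xy D.yw.symm D.Aw.symm D.yA D.wz w2 w3 w4 wn wu
        D.vA D.vw hnu n1 n2 n3 D.hv.inn hw.inn hV.fy.inn hA.inn hV.fx.inn D.hz.inn
        m1.inn m2.inn m3.inn hn.inn
  · have hS : Sm G B w := ⟨hNp, hE⟩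
    have h12 : F12 G B w → False := by
      intro hw
      obtain ⟨a, b, hab, w1, w2, -⟩ := F12.weak h hw
      exact LC.gN1B_false h hF D.vx D.vy D.xy D.yw.symm D.Aw.symm D.yA D.wz w1 w2 wn wu hab
        D.xw.symm D.xA.symm hnu nc D.hv.inn.1 hw.inn.1 hV.fy.inn.1 hA.inn.1 hV.fx.inn.1 D.hz.inn.1
        hn.inn.1 D.hv.inn.2 hw.inn.2 hV.fy.inn.2 hA.inn.2 hV.fx.inn.2 D.hz.inn.2
        hn.inn.2
    rcases sm_te h hS tyw with hw | hw | hw | hw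
    · obtain ⟨c, d, n0, q1, q2, q3, n1, n2, n3, n4, m1, m2, m3, m4, -⟩ :=
        FF.other h hw D.yw.symm D.Aw.symm D.yA
      exact LC.gN1F_false h hF D.vx D.vy D.xy D.yw.symm D.Aw.symm D.yA q1 q2 q3 D.wz wn wu n1 n3
        D.xw.symm D.xA.symm hnu nc D.hv.inn.1 hw.inn.1 hV.fy.inn.1 hA.inn.1 hV.fx.inn.1 D.hz.inn.1
        hn.inn.1 D.hv.inn.2 hw.inn.2 hV.fy.inn.2 hA.inn.2 hV.fx.inn.2 D.hz.inn.2
        hn.inn.2
    · exact h12 hw.1
    · exact h12 hw.1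
    · have e1 : z ≠ y := by
        rintro rfl
        exact D.wz.2 ⟨x, D.vx, D.xy.symm⟩
      exact l2 h hF z v y w D.hz.inn D.hv.inn hV.fy.inn hw.inn D.wz.1.symm D.vy D.yw e1 D.vw
        (fun e => D.wz.2 ⟨y, D.vy, e⟩) D.nvw

end LfProof

end Pool.Agent.Lib.SVY
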