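import Pool.Agent.Lib.SVY.LocOk2
import Pool.Agent.Lib.SVY.Facts

/-!
# SVY.LocThm2: further local reducible configurations

Generated.
-/

set_option autoImplicit false
set_option linter.unusedSectionVars false
set_option maxRecDepth 100000

namespace Pool.Agent.Lib.SVY.LC

open Finset Pool.Agent.Lib.SVT Pool.Agent.Lib.SVX

variable {V : Type*} [Fintype V] [DecidableEq V] {G : SimpleGraph V} {B : Finset V}
variable {m : ℕ} {F : Fin m → Finset (Sym2 V)}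

/-- two P1 centres `p`, `q` in a triangle -/
theorem gCC_false (h : MinCE G B) (hF : Faces G F) {p q s a b c d : V}
    (e1 : G.Adj p q) (e2 : G.Adj p s) (e3 : G.Adj q s) (w1 : WE G p a) (w2 : WE G p b)
    (w3 : WE G q c) (w4 : WE G q d) (d1 : a ≠ b) (d2 : c ≠ d) (i1 : Inn G B 4 p)
    (i2 : Inn G B 4 q) (i3 : Inn G B 3 a) (i4 : Inn G B 3 b) (i5 : Inn G B 3 c)
    (i6 : Inn G B 3 d) : False := by
  refine Loc.cfalseD (nm := fun i => [p, q, s, a, b, c, d].getD i p) gCC_adm gCC_lchk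
    gCC_echk gCC_dchk gCC_xchk gCC_ok h hF ?_ ?_ ?_ ?_ ?_ ?_ ?_
  · show ∀ e ∈ [(0, 1), (0, 2), (1, 2), (0, 3), (0, 4), (1, 5), (1, 6)], G.Adj _ _
    simp only [List.forall_mem_cons]
    exact ⟨e1, e2, e3, w1.1, w2.1, w3.1, w4.1, by simp⟩
  · simp only [List.forall_mem_cons]
    exact ⟨w1, w2, w3, w4, by simp⟩
  · simp only [List.forall_mem_cons]
    exact ⟨d1, d2, by simp⟩
  · simp
  · simp
  · simp
  · have hl : Loc.hlist gCC = [0, 1, 3, 4, 5, 6] := by decide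
    rw [hl]
    simp only [List.forall_mem_cons]
    exact ⟨i1, i2, i3, i4, i5, i6, by simp⟩

/-- 3-vertex `v` with a 3-neighbour `z` in a triangle `v x y`, `x` of type (1,3) with three 3-neighbours -/
theorem gPK_false (h : MinCE G B) (hF : Faces G F) {v x y z k1 k2 k3 : V}
    (e1 : G.Adj v x) (e2 : G.Adj v y) (e3 : G.Adj x y) (w1 : WE G v z) (w2 : WE G x k1)
    (w3 : WE G x k2) (w4 : WE G x k3) (d1 : k1 ≠ k2) (d2 : k1 ≠ k3) (d3 : k2 ≠ k3)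
    (i1 : Inn G B 3 v) (i2 : Inn G B 5 x) (i3 : Inn G B 3 z) (i4 : Inn G B 3 k1)
    (i5 : Inn G B 3 k2) (i6 : Inn G B 3 k3) : False := by
  refine Loc.cfalseD (nm := fun i => [v, x, y, z, k1, k2, k3].getD i v) gPK_adm gPK_lchk
    gPK_echk gPK_dchk gPK_xchk gPK_ok h hF ?_ ?_ ?_ ?_ ?_ ?_ ?_
  · show ∀ e ∈ [(0, 1), (0, 2), (1, 2), (0, 3), (1, 4), (1, 5), (1, 6)], G.Adj _ _
    simp only [List.forall_mem_cons]
    exact ⟨e1, e2, e3, w1.1, w2.1, w3.1, w4.1, by simp⟩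
  · simp only [List.forall_mem_cons]
    exact ⟨w1, w2, w3, w4, by simp⟩
  · simp only [List.forall_mem_cons]
    exact ⟨d1, d2, d3, by simp⟩
  · simp
  · simp
  · simp
  · have hl : Loc.hlist gPK = [0, 1, 3, 4, 5, 6] := by decide
    rw [hl]
    simp only [List.forall_mem_cons]
    exact ⟨i1, i2, i3, i4, i5, i6, by simp⟩

/-- 3-vertex `v` whose neighbour `z` has type (1,2) with a 3-neighbour `z2`, triangle `v x y`, `x` of type (1,3) with three 3-neighbours -/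
theorem gQK_false (h : MinCE G B) (hF : Faces G F) {v x y z z2 k1 k2 k3 : V}
    (e1 : G.Adj v x) (e2 : G.Adj v y) (e3 : G.Adj x y) (e4 : G.Adj z z2) (w1 : WE G v z)
    (w2 : WE G x k1) (w3 : WE G x k2) (w4 : WE G x k3) (d1 : k1 ≠ k2) (d2 : k1 ≠ k3)
    (d3 : k2 ≠ k3) (d4 : v ≠ z2) (i1 : Inn G B 3 v) (i2 : Inn G B 5 x) (i3 : Inn G B 4 z)
    (i4 : Inn G B 3 z2) (i5 : Inn G B 3 k1) (i6 : Inn G B 3 k2) (i7 : Inn G B 3 k3) : False := by
  refine Loc.cfalseD (nm := fun i => [v, x, y, z, z2, k1, k2, k3].getD i v) gQK_adm gQK_lchk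
    gQK_echk gQK_dchk gQK_xchk gQK_ok h hF ?_ ?_ ?_ ?_ ?_ ?_ ?_
  · show ∀ e ∈ [(0, 1), (0, 2), (1, 2), (0, 3), (1, 5), (1, 6), (1, 7), (3, 4)], G.Adj _ _
    simp only [List.forall_mem_cons]
    exact ⟨e1, e2, e3, w1.1, w2.1, w3.1, w4.1, e4, by simp⟩
  · simp only [List.forall_mem_cons]
    exact ⟨w1, w2, w3, w4, by simp⟩
  · simp only [List.forall_mem_cons]
    exact ⟨d1, d2, d3, d4, by simp⟩
  · simp
  · simp
  · simp
  · have hl : Loc.hlist gQK = [0, 1, 3, 4, 5, 6, 7] := by decide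
    rw [hl]
    simp only [List.forall_mem_cons]
    exact ⟨i1, i2, i3, i4, i5, i6, i7, by simp⟩

/-- 3-vertex `v` with a 3-neighbour `z` in a triangle `v x y`, `x` of type (2,0), P1 centre `c` in the other triangle `x c t`: new edge `y a2` -/
theorem gM5_false (h : MinCE G B) (hF : Faces G F) {v x c z y a1 a2 t : V}
    (e1 : G.Adj v x) (e2 : G.Adj v y) (e3 : G.Adj y x) (e4 : G.Adj x c) (e5 : G.Adj x t)
    (e6 : G.Adj c t) (w1 : WE G v z) (w2 : WE G c a1) (w3 : WE G c a2) (d1 : a1 ≠ a2)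
    (d2 : v ≠ c) (d3 : v ≠ t) (c1 : ¬ Corner F c x a2) (i1 : Inn G B 3 v) (i2 : Inn G B 4 x)
    (i3 : Inn G B 4 c) (i4 : Inn G B 3 z) (i5 : Inn G B 3 a1) (i6 : Inn G B 3 a2) : False := by
  refine Loc.cfalseD (nm := fun i => [v, x, c, z, y, a1, a2, t].getD i v) gM5_adm gM5_lchk
    gM5_echk gM5_dchk gM5_xchk gM5_ok h hF ?_ ?_ ?_ ?_ ?_ ?_ ?_
  · show ∀ e ∈ [(0, 3), (0, 1), (0, 4), (4, 1), (1, 2), (1, 7), (2, 7), (2, 5), (2, 6)], G.Adj _ _
    simp only [List.forall_mem_cons]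
    exact ⟨w1.1, e1, e2, e3, e4, e5, e6, w2.1, w3.1, by simp⟩
  · simp only [List.forall_mem_cons]
    exact ⟨w1, w2, w3, by simp⟩
  · simp only [List.forall_mem_cons]
    exact ⟨d1, d2, d3, by simp⟩
  · simp
  · simp only [List.forall_mem_cons]
    exact ⟨c1, by simp⟩
  · simp
  · have hl : Loc.hlist gM5 = [0, 1, 2, 3, 5, 6] := by decide
    rw [hl]
    simp only [List.forall_mem_cons]
    exact ⟨i1, i2, i3, i4, i5, i6, by simp⟩

/-- 3-vertex `v` in a triangle `v x y`, `y` small, `x` of type (2,0), P1 centre `c` in the other triangle `x c t`: `c` deleted -/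
theorem gQ16_false (h : MinCE G B) (hF : Faces G F) {v x c z y a1 a2 t : V}
    (e1 : G.Adj v x) (e2 : G.Adj v y) (e3 : G.Adj y x) (e4 : G.Adj x c) (e5 : G.Adj x t)
    (e6 : G.Adj c t) (w1 : WE G v z) (w2 : WE G c a1) (w3 : WE G c a2) (d1 : a1 ≠ a2)
    (d2 : v ≠ c) (d3 : v ≠ t) (i1 : Inn G B 3 v) (i2 : Inn G B 4 x) (i3 : Inn G B 4 c)
    (i4 : Inn G B 4 y) (i5 : Inn G B 3 a1) (i6 : Inn G B 3 a2) : False := by
  refine Loc.cfalseD (nm := fun i => [v, x, c, z, y, a1, a2, t].getD i v) gQ16_adm gQ16_lchk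
    gQ16_echk gQ16_dchk gQ16_xchk gQ16_ok h hF ?_ ?_ ?_ ?_ ?_ ?_ ?_
  · show ∀ e ∈ [(0, 3), (0, 1), (0, 4), (4, 1), (1, 2), (1, 7), (2, 7), (2, 5), (2, 6)], G.Adj _ _
    simp only [List.forall_mem_cons]
    exact ⟨w1.1, e1, e2, e3, e4, e5, e6, w2.1, w3.1, by simp⟩
  · simp only [List.forall_mem_cons]
    exact ⟨w1, w2, w3, by simp⟩
  · simp only [List.forall_mem_cons]
    exact ⟨d1, d2, d3, by simp⟩
  · simp
  · simp
  · simp
  · have hl : Loc.hlist gQ16 = [0, 1, 2, 4, 5, 6] := by decide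
    rw [hl]
    simp only [List.forall_mem_cons]
    exact ⟨i1, i2, i3, i4, i5, i6, by simp⟩

/-- P1 centre `z` in a triangle `z a b`, `b` small, `a` of type (2,0), P1 centre `w` in the other triangle `a w t`: new edge `t v2` -/
theorem gA18_false (h : MinCE G B) (hF : Faces G F) {z a w b c1 c2 t v1 v2 : V}
    (e1 : G.Adj z a) (e2 : G.Adj z b) (e3 : G.Adj a b) (e4 : G.Adj a w) (e5 : G.Adj a t)
    (e6 : G.Adj w t) (w1 : WE G z v1) (w2 : WE G z v2) (w3 : WE G w c1) (w4 : WE G w c2)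
    (d1 : v1 ≠ v2) (d2 : c1 ≠ c2) (d3 : z ≠ w) (d4 : z ≠ t) (f1 : ¬ Corner F z a v2)
    (i1 : Inn G B 4 z) (i2 : Inn G B 4 a) (i3 : Inn G B 4 w) (i4 : Inn G B 4 b)
    (i5 : Inn G B 3 c1) (i6 : Inn G B 3 c2) (i7 : Inn G B 3 v1) (i8 : Inn G B 3 v2) : False := by
  refine Loc.cfalseD (nm := fun i => [z, a, w, b, c1, c2, t, v1, v2].getD i z) gA18_adm gA18_lchk
    gA18_echk gA18_dchk gA18_xchk gA18_ok h hF ?_ ?_ ?_ ?_ ?_ ?_ ?_
  · show ∀ e ∈ [(0, 7), (0, 8), (0, 1), (0, 3), (1, 3), (1, 2), (1, 6), (2, 6), (2, 4), (2, 5)], G.Adj _ _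
    simp only [List.forall_mem_cons]
    exact ⟨w1.1, w2.1, e1, e2, e3, e4, e5, e6, w3.1, w4.1, by simp⟩
  · simp only [List.forall_mem_cons]
    exact ⟨w1, w2, w3, w4, by simp⟩
  · simp only [List.forall_mem_cons]
    exact ⟨d1, d2, d3, d4, by simp⟩
  · simp
  · simp only [List.forall_mem_cons]
    exact ⟨f1, by simp⟩
  · simp
  · have hl : Loc.hlist gA18 = [0, 1, 2, 3, 4, 5, 7, 8] := by decide
    rw [hl]
    simp only [List.forall_mem_cons]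
    exact ⟨i1, i2, i3, i4, i5, i6, i7, i8, by simp⟩

/-- P1 centre `z` in a triangle `z a b`, `b` small, `a` of type (1,3) with three 3-neighbours -/
theorem gA19_false (h : MinCE G B) (hF : Faces G F) {z a b v1 v2 k1 k2 k3 : V}
    (e1 : G.Adj z a) (e2 : G.Adj z b) (e3 : G.Adj a b) (w1 : WE G z v1) (w2 : WE G z v2)
    (w3 : WE G a k1) (w4 : WE G a k2) (w5 : WE G a k3) (d1 : v1 ≠ v2) (d2 : k1 ≠ k2)
    (d3 : k1 ≠ k3) (d4 : k2 ≠ k3) (i1 : Inn G B 4 z) (i2 : Inn G B 5 a) (i3 : Inn G B 4 b)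
    (i4 : Inn G B 3 v1) (i5 : Inn G B 3 v2) (i6 : Inn G B 3 k1) (i7 : Inn G B 3 k2)
    (i8 : Inn G B 3 k3) : False := by
  refine Loc.cfalseD (nm := fun i => [z, a, b, v1, v2, k1, k2, k3].getD i z) gA19_adm gA19_lchk
    gA19_echk gA19_dchk gA19_xchk gA19_ok h hF ?_ ?_ ?_ ?_ ?_ ?_ ?_
  · show ∀ e ∈ [(0, 3), (0, 4), (0, 1), (0, 2), (1, 2), (1, 5), (1, 6), (1, 7)], G.Adj _ _
    simp only [List.forall_mem_cons]
    exact ⟨w1.1, w2.1, e1, e2, e3, w3.1, w4.1, w5.1, by simp⟩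
  · simp only [List.forall_mem_cons]
    exact ⟨w1, w2, w3, w4, w5, by simp⟩
  · simp only [List.forall_mem_cons]
    exact ⟨d1, d2, d3, d4, by simp⟩
  · simp
  · simp
  · simp
  · have hl : Loc.hlist gA19 = [0, 1, 2, 3, 4, 5, 6, 7] := by decide
    rw [hl]
    simp only [List.forall_mem_cons]
    exact ⟨i1, i2, i3, i4, i5, i6, i7, i8, by simp⟩

/-- 3-vertex `o` with a 3-neighbour, triangles `o q x`, `x l y`, V-edge `y u` -/
theorem gSB_false (h : MinCE G B) (hF : Faces G F) {o x y v z1 u z2 l q : V}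
    (e1 : G.Adj o q) (e2 : G.Adj o x) (e3 : G.Adj q x) (e4 : G.Adj x l) (e5 : G.Adj x y)
    (e6 : G.Adj y l) (e7 : G.Adj y u) (e8 : G.Adj y v) (e9 : G.Adj u v) (w1 : WE G o z1)
    (w2 : WE G v z2) (d1 : o ≠ l) (d2 : o ≠ y) (d3 : x ≠ u) (d4 : x ≠ v) (c1 : ¬ Corner F x y q)
    (c2 : ¬ Corner F y x v) (i1 : Inn G B 3 o) (i2 : Inn G B 4 x) (i3 : Inn G B 4 y)
    (i4 : Inn G B 3 v) (i5 : Inn G B 3 z1) (i6 : Inn G B 3 z2) : False := by
  refine Loc.cfalseD (nm := fun i => [o, x, y, v, z1, u, z2, l, q].getD i o) gSB_adm gSB_lchk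
    gSB_echk gSB_dchk gSB_xchk gSB_ok h hF ?_ ?_ ?_ ?_ ?_ ?_ ?_
  · show ∀ e ∈ [(0, 4), (0, 8), (0, 1), (8, 1), (1, 7), (1, 2), (2, 7), (2, 5), (2, 3), (5, 3), (3, 6)], G.Adj _ _
    simp only [List.forall_mem_cons]
    exact ⟨w1.1, e1, e2, e3, e4, e5, e6, e7, e8, e9, w2.1, by simp⟩
  · simp only [List.forall_mem_cons]
    exact ⟨w1, w2, by simp⟩
  · simp only [List.forall_mem_cons]
    exact ⟨d1, d2, d3, d4, by simp⟩
  · simp
  · simp only [List.forall_mem_cons]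
    exact ⟨c1, c2, by simp⟩
  · simp
  · have hl : Loc.hlist gSB = [0, 1, 2, 3, 4, 6] := by decide
    rw [hl]
    simp only [List.forall_mem_cons]
    exact ⟨i1, i2, i3, i4, i5, i6, by simp⟩

end Pool.Agent.Lib.SVY.LC
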