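import Pool.Agent.Lib.SVY.LocData
import Pool.Agent.Lib.SVX.Chk

/-!
# SVY.LocL2: the list statements

Generated.
-/

set_option autoImplicit false
set_option linter.unusedSectionVars false
set_option maxRecDepth 100000

namespace Pool.Agent.Lib.SVY.LC

open Pool.Agent.Lib.SVX Pool.Agent.Lib.SVX.Chk

def gQ_l : List St :=
  [.par 3 3 [],
   .par 2 4 [],
   .vf ⟨0, false, [4], [(3, true, [])]⟩,
   .ed 0 1,
   .vf ⟨1, false, [4], []⟩,
   .par 3 5 [],
   .tr 1 2 ⟨5, true, [], []⟩,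
   .par 3 6 [],
   .par 2 7 [4],
   .vf ⟨2, false, [7], [(6, true, [])]⟩]

def gPP_l : List St :=
  [.par 3 3 [],
   .par 3 4 [],
   .vf ⟨0, false, [], [(3, true, []), (4, true, [])]⟩,
   .par 3 2 [],
   .tr 0 1 ⟨2, true, [], []⟩,
   .par 3 5 [],
   .par 3 6 [],
   .vf ⟨1, false, [], [(5, true, []), (6, true, [])]⟩]

def gG5_l : List St :=
  [.par 2 4 [],
   .par 2 5 [4],
   .vf ⟨0, false, [4, 5], []⟩,
   .ed 0 1,
   .par 2 6 [],
   .par 2 7 [4, 5],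
   .vf ⟨1, false, [6, 7], []⟩,
   .ed 1 2,
   .vf ⟨2, false, [7], []⟩,
   .par 3 9 [],
   .tr 2 8 ⟨3, false, [], [(9, true, [])]⟩,
   .par 3 8 [],
   .vf ⟨8, true, [], []⟩]

/-- all checks, one after the other -/
theorem locl2_seq :
    (chkPath (ofCfg gQ) gQ_l [(4, 2, []), (7, 2, [4]), (6, 1, [4])] 0 = true) ∧
    (chkPath (ofCfg gPP) gPP_l [] 0 = true) ∧
    (chkPath (ofCfg gG5) gG5_l [(4, 2, []), (5, 2, [4]), (7, 2, [4, 5])] 0 = true) :=
  ⟨(by
  decide +kernel),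
  (by
  decide +kernel),
  (by
  decide +kernel)⟩

theorem gQ_chk : chkPath (ofCfg gQ) gQ_l [(4, 2, []), (7, 2, [4]), (6, 1, [4])] 0 = true := locl2_seq.1

theorem gPP_chk : chkPath (ofCfg gPP) gPP_l [] 0 = true := locl2_seq.2.1

theorem gG5_chk : chkPath (ofCfg gG5) gG5_l [(4, 2, []), (5, 2, [4]), (7, 2, [4, 5])] 0 = true := locl2_seq.2.2

theorem gQ_list : gQ.ListOK := chkPath_cfg gQ_chk

theorem gPP_list : gPP.ListOK := chkPath_cfg gPP_chk

theorem gG5_list : gG5.ListOK := chkPath_cfg gG5_chk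

end Pool.Agent.Lib.SVY.LC
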