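import Pool.Agent.Lib.SVY.LocL1
import Pool.Agent.Lib.SVY.LocL2

/-!
# SVY.LocThmA: local reducible configurations

Generated.
-/

set_option autoImplicit false
set_option linter.unusedSectionVars false
set_option maxRecDepth 100000

namespace Pool.Agent.Lib.SVY.LC

open Finset Pool.Agent.Lib.SVT Pool.Agent.Lib.SVX

variable {V : Type*} [Fintype V] [DecidableEq V] {G : SimpleGraph V} {B : Finset V}
variable {m : ℕ} {F : Fin m → Finset (Sym2 V)}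

/-- P1 centre `p`, `N` of type (1,2), small third vertex `s`: new edge `v' g` -/
theorem gG3_false (h : MinCE G B) (hF : Faces G F) {p N v v' s m g : V}
    (e1 : G.Adj p N) (e2 : G.Adj p s) (e3 : G.Adj N s) (w1 : WE G p v) (w2 : WE G p v')
    (w3 : WE G N m) (w4 : WE G N g) (d1 : v ≠ v') (d2 : m ≠ g) (c1 : ¬ Corner F p N v')
    (b1 : p ∉ B) (b2 : N ∉ B) (b3 : v ∉ B) (b4 : v' ∉ B) (b5 : s ∉ B) (b6 : m ∉ B)
    (g1 : dg G p ≤ 4) (g2 : dg G N ≤ 4) (g3 : dg G v ≤ 3) (g4 : dg G v' ≤ 3) (g5 : dg G s ≤ 4)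
    (g6 : dg G m ≤ 3) : False := by
  refine Loc.cfalse (nm := fun i => [p, N, v, v', s, m, g].getD i p) gG3_adm gG3_lchk gG3_echk gG3_list h hF
    ?_ ?_ ?_ ?_ ?_ ?_
  · show ∀ e ∈ [(0, 1), (0, 2), (0, 3), (0, 4), (1, 4), (1, 5), (1, 6)], G.Adj _ _
    simp only [List.forall_mem_cons]
    exact ⟨e1, w1.1, w2.1, e2, e3, w3.1, w4.1, by simp⟩
  · simp only [List.forall_mem_cons]
    exact ⟨w1, w2, w3, w4, by simp⟩
  · simp only [List.forall_mem_cons]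
    exact ⟨d1, d2, by simp⟩
  · simp
  · simp only [List.forall_mem_cons]
    exact ⟨c1, by simp⟩
  · have hl : Loc.hlist gG3 = [0, 1, 2, 3, 4, 5] := by decide
    rw [hl]
    simp only [List.forall_mem_cons]
    exact ⟨⟨b1, g1⟩, ⟨b2, g2⟩, ⟨b3, g3⟩, ⟨b4, g4⟩, ⟨b5, g5⟩, ⟨b6, g6⟩, by simp⟩

/-- P1 centre `p`, `a` of type (2,0), small third vertex `b`, the other triangle `a t g` has a 3-vertex `t`: new edge `v' g` -/
theorem gG4_false (h : MinCE G B) (hF : Faces G F) {p a t v v' b g u : V}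
    (e1 : G.Adj p a) (e2 : G.Adj p b) (e3 : G.Adj a b) (e4 : G.Adj a t) (e5 : G.Adj a g)
    (e6 : G.Adj t g) (w1 : WE G p v) (w2 : WE G p v') (w3 : WE G t u) (d1 : v ≠ v') (d2 : b ≠ t)
    (d3 : p ≠ t) (c1 : ¬ Corner F p a v') (b1 : p ∉ B) (b2 : a ∉ B) (b3 : t ∉ B) (b4 : v ∉ B)
    (b5 : v' ∉ B) (b6 : b ∉ B) (g1 : dg G p ≤ 4) (g2 : dg G a ≤ 4) (g3 : dg G t ≤ 3)
    (g4 : dg G v ≤ 3) (g5 : dg G v' ≤ 3) (g6 : dg G b ≤ 4) : False := by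
  refine Loc.cfalse (nm := fun i => [p, a, t, v, v', b, g, u].getD i p) gG4_adm gG4_lchk gG4_echk gG4_list h hF
    ?_ ?_ ?_ ?_ ?_ ?_
  · show ∀ e ∈ [(0, 1), (0, 3), (0, 4), (0, 5), (1, 5), (1, 2), (1, 6), (2, 6), (2, 7)], G.Adj _ _
    simp only [List.forall_mem_cons]
    exact ⟨e1, w1.1, w2.1, e2, e3, e4, e5, e6, w3.1, by simp⟩
  · simp only [List.forall_mem_cons]
    exact ⟨w1, w2, w3, by simp⟩
  · simp only [List.forall_mem_cons]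
    exact ⟨d1, d2, d3, by simp⟩
  · simp
  · simp only [List.forall_mem_cons]
    exact ⟨c1, by simp⟩
  · have hl : Loc.hlist gG4 = [0, 1, 2, 3, 4, 5] := by decide
    rw [hl]
    simp only [List.forall_mem_cons]
    exact ⟨⟨b1, g1⟩, ⟨b2, g2⟩, ⟨b3, g3⟩, ⟨b4, g4⟩, ⟨b5, g5⟩, ⟨b6, g6⟩, by simp⟩

/-- 3-vertex `a` in the triangle `a y s`, `s` small, triangle `y x l`, P3-triangle `x t v`: new edge `b l` -/
theorem gG1_false (h : MinCE G B) (hF : Faces G F) {a y x v b s l t z : V}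
    (e1 : G.Adj a y) (e2 : G.Adj a s) (e3 : G.Adj y s) (e4 : G.Adj y x) (e5 : G.Adj y l)
    (e6 : G.Adj x l) (e7 : G.Adj x v) (e8 : G.Adj x t) (e9 : G.Adj v t) (w1 : WE G a b)
    (w2 : WE G v z) (d1 : a ≠ x) (d2 : a ≠ l) (d3 : y ≠ t) (d4 : y ≠ v) (c1 : ¬ Corner F y a l)
    (b1 : a ∉ B) (b2 : y ∉ B) (b3 : x ∉ B) (b4 : v ∉ B) (b5 : s ∉ B) (b6 : z ∉ B)
    (g1 : dg G a ≤ 3) (g2 : dg G y ≤ 4) (g3 : dg G x ≤ 4) (g4 : dg G v ≤ 3) (g5 : dg G s ≤ 4)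
    (g6 : dg G z ≤ 3) : False := by
  refine Loc.cfalse (nm := fun i => [a, y, x, v, b, s, l, t, z].getD i a) gG1_adm gG1_lchk gG1_echk gG1_list h hF
    ?_ ?_ ?_ ?_ ?_ ?_
  · show ∀ e ∈ [(0, 4), (0, 1), (0, 5), (1, 5), (1, 2), (1, 6), (2, 6), (2, 3), (2, 7), (3, 7), (3, 8)], G.Adj _ _
    simp only [List.forall_mem_cons]
    exact ⟨w1.1, e1, e2, e3, e4, e5, e6, e7, e8, e9, w2.1, by simp⟩
  · simp only [List.forall_mem_cons]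
    exact ⟨w1, w2, by simp⟩
  · simp only [List.forall_mem_cons]
    exact ⟨d1, d2, d3, d4, by simp⟩
  · simp
  · simp only [List.forall_mem_cons]
    exact ⟨c1, by simp⟩
  · have hl : Loc.hlist gG1 = [0, 1, 2, 3, 5, 8] := by decide
    rw [hl]
    simp only [List.forall_mem_cons]
    exact ⟨⟨b1, g1⟩, ⟨b2, g2⟩, ⟨b3, g3⟩, ⟨b4, g4⟩, ⟨b5, g5⟩, ⟨b6, g6⟩, by simp⟩

/-- 3-vertex `a` in the triangle `a y l`, triangle `y x s` with `s` small, P3-triangle `x t v`, `t` small: new edge `b s` -/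
theorem gG2_false (h : MinCE G B) (hF : Faces G F) {a y x b l s t v : V}
    (e1 : G.Adj a y) (e2 : G.Adj a l) (e3 : G.Adj y l) (e4 : G.Adj y x) (e5 : G.Adj y s)
    (e6 : G.Adj x s) (e7 : G.Adj x v) (e8 : G.Adj x t) (e9 : G.Adj v t) (w1 : WE G a b)
    (d1 : a ≠ x) (d2 : a ≠ s) (d3 : y ≠ t) (d4 : y ≠ v) (c1 : ¬ Corner F y a s) (b1 : a ∉ B)
    (b2 : y ∉ B) (b3 : x ∉ B) (b4 : s ∉ B) (b5 : t ∉ B) (b6 : v ∉ B) (g1 : dg G a ≤ 3)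
    (g2 : dg G y ≤ 4) (g3 : dg G x ≤ 4) (g4 : dg G s ≤ 4) (g5 : dg G t ≤ 4) (g6 : dg G v ≤ 3) : False := by
  refine Loc.cfalse (nm := fun i => [a, y, x, b, l, s, t, v].getD i a) gG2_adm gG2_lchk gG2_echk gG2_list h hF
    ?_ ?_ ?_ ?_ ?_ ?_
  · show ∀ e ∈ [(0, 3), (0, 1), (0, 4), (1, 4), (1, 2), (1, 5), (2, 5), (2, 7), (2, 6), (7, 6)], G.Adj _ _
    simp only [List.forall_mem_cons]
    exact ⟨w1.1, e1, e2, e3, e4, e5, e6, e7, e8, e9, by simp⟩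
  · simp only [List.forall_mem_cons]
    exact ⟨w1, by simp⟩
  · simp only [List.forall_mem_cons]
    exact ⟨d1, d2, d3, d4, by simp⟩
  · simp
  · simp only [List.forall_mem_cons]
    exact ⟨c1, by simp⟩
  · have hl : Loc.hlist gG2 = [0, 1, 2, 5, 6, 7] := by decide
    rw [hl]
    simp only [List.forall_mem_cons]
    exact ⟨⟨b1, g1⟩, ⟨b2, g2⟩, ⟨b3, g3⟩, ⟨b4, g4⟩, ⟨b5, g5⟩, ⟨b6, g6⟩, by simp⟩

/-- 3-vertex `a` with the 3-neighbour `a'` and the triangle `a y l`, triangle `y w s` with `s` small, `w` of type (1,2) with the neighbours `n` (3-vertex), `b`: new edges `l n`, `l b` -/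
theorem gQ_false (h : MinCE G B) (hF : Faces G F) {a y w a' l s n b : V}
    (e1 : G.Adj a y) (e2 : G.Adj a l) (e3 : G.Adj y l) (e4 : G.Adj y s) (e5 : G.Adj y w)
    (e6 : G.Adj w s) (w1 : WE G a a') (w2 : WE G w n) (w3 : WE G w b) (d1 : n ≠ b) (d2 : a ≠ w)
    (d3 : a ≠ s) (c1 : ¬ Corner F y w l) (b1 : a ∉ B) (b2 : y ∉ B) (b3 : w ∉ B) (b4 : a' ∉ B)
    (b5 : s ∉ B) (b6 : n ∉ B) (g1 : dg G a ≤ 3) (g2 : dg G y ≤ 4) (g3 : dg G w ≤ 4)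
    (g4 : dg G a' ≤ 3) (g5 : dg G s ≤ 4) (g6 : dg G n ≤ 3) : False := by
  refine Loc.cfalse (nm := fun i => [a, y, w, a', l, s, n, b].getD i a) gQ_adm gQ_lchk gQ_echk gQ_list h hF
    ?_ ?_ ?_ ?_ ?_ ?_
  · show ∀ e ∈ [(0, 3), (0, 1), (0, 4), (1, 4), (1, 5), (1, 2), (2, 5), (2, 6), (2, 7)], G.Adj _ _
    simp only [List.forall_mem_cons]
    exact ⟨w1.1, e1, e2, e3, e4, e5, e6, w2.1, w3.1, by simp⟩
  · simp only [List.forall_mem_cons]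
    exact ⟨w1, w2, w3, by simp⟩
  · simp only [List.forall_mem_cons]
    exact ⟨d1, d2, d3, by simp⟩
  · simp
  · simp only [List.forall_mem_cons]
    exact ⟨c1, by simp⟩
  · have hl : Loc.hlist gQ = [0, 1, 2, 3, 5, 6] := by decide
    rw [hl]
    simp only [List.forall_mem_cons]
    exact ⟨⟨b1, g1⟩, ⟨b2, g2⟩, ⟨b3, g3⟩, ⟨b4, g4⟩, ⟨b5, g5⟩, ⟨b6, g6⟩, by simp⟩

/-- P1 centres `p`, `q` in a triangle `p q s`, `s` small -/
theorem gPP_false (h : MinCE G B) (hF : Faces G F) {p q s a b c d : V}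
    (e1 : G.Adj p q) (e2 : G.Adj p s) (e3 : G.Adj q s) (w1 : WE G p a) (w2 : WE G p b)
    (w3 : WE G q c) (w4 : WE G q d) (d1 : a ≠ b) (d2 : c ≠ d) (b1 : p ∉ B) (b2 : q ∉ B)
    (b3 : s ∉ B) (b4 : a ∉ B) (b5 : b ∉ B) (b6 : c ∉ B) (b7 : d ∉ B) (g1 : dg G p ≤ 4)
    (g2 : dg G q ≤ 4) (g3 : dg G s ≤ 4) (g4 : dg G a ≤ 3) (g5 : dg G b ≤ 3) (g6 : dg G c ≤ 3)
    (g7 : dg G d ≤ 3) : False := by
  refine Loc.cfalse (nm := fun i => [p, q, s, a, b, c, d].getD i p) gPP_adm gPP_lchk gPP_echk gPP_list h hF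
    ?_ ?_ ?_ ?_ ?_ ?_
  · show ∀ e ∈ [(0, 1), (0, 2), (1, 2), (0, 3), (0, 4), (1, 5), (1, 6)], G.Adj _ _
    simp only [List.forall_mem_cons]
    exact ⟨e1, e2, e3, w1.1, w2.1, w3.1, w4.1, by simp⟩
  · simp only [List.forall_mem_cons]
    exact ⟨w1, w2, w3, w4, by simp⟩
  · simp only [List.forall_mem_cons]
    exact ⟨d1, d2, by simp⟩
  · simp
  · simp
  · have hl : Loc.hlist gPP = [0, 1, 2, 3, 4, 5, 6] := by decide
    rw [hl]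
    simp only [List.forall_mem_cons]
    exact ⟨⟨b1, g1⟩, ⟨b2, g2⟩, ⟨b3, g3⟩, ⟨b4, g4⟩, ⟨b5, g5⟩, ⟨b6, g6⟩, ⟨b7, g7⟩, by simp⟩

/-- 3-vertex `a` in the triangle `a c d`, neighbour `w` of type (1,2), triangle `w y l`, P3-triangle `y t v`, `t` small: new edges `c l`, `d l` -/
theorem gG5_false (h : MinCE G B) (hF : Faces G F) {a w y v c d r l t z : V}
    (e1 : G.Adj a c) (e2 : G.Adj a d) (e3 : G.Adj w l) (e4 : G.Adj w y) (e5 : G.Adj y l)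
    (e6 : G.Adj y t) (e7 : G.Adj y v) (e8 : G.Adj v t) (e9 : G.Adj c d) (w1 : WE G a w)
    (w2 : WE G w r) (w3 : WE G v z) (d1 : a ≠ r) (d2 : w ≠ t) (d3 : l ≠ t)
    (c1 : ¬ Corner F w a l) (b1 : a ∉ B) (b2 : w ∉ B) (b3 : y ∉ B) (b4 : v ∉ B) (b5 : t ∉ B)
    (b6 : z ∉ B) (g1 : dg G a ≤ 3) (g2 : dg G w ≤ 4) (g3 : dg G y ≤ 4) (g4 : dg G v ≤ 3)
    (g5 : dg G t ≤ 4) (g6 : dg G z ≤ 3) : False := by
  refine Loc.cfalse (nm := fun i => [a, w, y, v, c, d, r, l, t, z].getD i a) gG5_adm gG5_lchk gG5_echk gG5_list h hF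
    ?_ ?_ ?_ ?_ ?_ ?_
  · show ∀ e ∈ [(0, 4), (0, 5), (0, 1), (1, 6), (1, 7), (1, 2), (2, 7), (2, 8), (2, 3), (3, 8), (3, 9), (4, 5)], G.Adj _ _
    simp only [List.forall_mem_cons]
    exact ⟨e1, e2, w1.1, w2.1, e3, e4, e5, e6, e7, e8, w3.1, e9, by simp⟩
  · simp only [List.forall_mem_cons]
    exact ⟨w1, w2, w3, by simp⟩
  · simp only [List.forall_mem_cons]
    exact ⟨d1, d2, d3, by simp⟩
  · simp
  · simp only [List.forall_mem_cons]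
    exact ⟨c1, by simp⟩
  · have hl : Loc.hlist gG5 = [0, 1, 2, 3, 8, 9] := by decide
    rw [hl]
    simp only [List.forall_mem_cons]
    exact ⟨⟨b1, g1⟩, ⟨b2, g2⟩, ⟨b3, g3⟩, ⟨b4, g4⟩, ⟨b5, g5⟩, ⟨b6, g6⟩, by simp⟩

end Pool.Agent.Lib.SVY.LC
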