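import Pool.Agent.Lib.SVY.PathL

/-!
# SVY.PathThm: path lemmas

Generated.
-/

set_option autoImplicit false
set_option linter.unusedSectionVars false
set_option maxRecDepth 100000

namespace Pool.Agent.Lib.SVY.LC

open Finset Pool.Agent.Lib.SVT Pool.Agent.Lib.SVX

variable {V : Type*} [Fintype V] [DecidableEq V] {G : SimpleGraph V} {B : Finset V}
variable {m : ℕ} {F : Fin m → Finset (Sym2 V)}

/-- path of three 3-vertices -/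
theorem gL1_false (h : MinCE G B) (hF : Faces G F) {a b c : V}
    (e1 : G.Adj a b) (e2 : G.Adj b c) (d1 : a ≠ c) (x1 : ¬ G.Adj a c) (b1 : a ∉ B) (b2 : b ∉ B)
    (b3 : c ∉ B) (g1 : dg G a ≤ 3) (g2 : dg G b ≤ 3) (g3 : dg G c ≤ 3) : False := by
  refine Loc.cfalse (nm := fun i => [a, b, c].getD i a) gL1_adm gL1_lchk gL1_echk gL1_list h hF
    ?_ ?_ ?_ ?_ ?_ ?_
  · show ∀ e ∈ [(0, 1), (1, 2)], G.Adj _ _
    simp only [List.forall_mem_cons]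
    exact ⟨e1, e2, by simp⟩
  · simp
  · simp only [List.forall_mem_cons]
    exact ⟨d1, by simp⟩
  · simp only [List.forall_mem_cons]
    exact ⟨x1, by simp⟩
  · simp
  · have hl : Loc.hlist gL1 = [0, 1, 2] := by decide
    rw [hl]
    simp only [List.forall_mem_cons]
    exact ⟨⟨b1, g1⟩, ⟨b2, g2⟩, ⟨b3, g3⟩, by simp⟩

/-- path of vertices of degrees 3, 3, 4, 3 -/
theorem gL2_false (h : MinCE G B) (hF : Faces G F) {z v y u : V}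
    (e1 : G.Adj z v) (e2 : G.Adj v y) (e3 : G.Adj y u) (d1 : z ≠ y) (d2 : v ≠ u) (d3 : z ≠ u)
    (x1 : ¬ G.Adj z y) (x2 : ¬ G.Adj v u) (x3 : ¬ G.Adj z u) (b1 : z ∉ B) (b2 : v ∉ B)
    (b3 : y ∉ B) (b4 : u ∉ B) (g1 : dg G z ≤ 3) (g2 : dg G v ≤ 3) (g3 : dg G y ≤ 4)
    (g4 : dg G u ≤ 3) : False := by
  refine Loc.cfalse (nm := fun i => [z, v, y, u].getD i z) gL2_adm gL2_lchk gL2_echk gL2_list h hF
    ?_ ?_ ?_ ?_ ?_ ?_
  · show ∀ e ∈ [(0, 1), (1, 2), (2, 3)], G.Adj _ _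
    simp only [List.forall_mem_cons]
    exact ⟨e1, e2, e3, by simp⟩
  · simp
  · simp only [List.forall_mem_cons]
    exact ⟨d1, d2, d3, by simp⟩
  · simp only [List.forall_mem_cons]
    exact ⟨x1, x2, x3, by simp⟩
  · simp
  · have hl : Loc.hlist gL2 = [0, 1, 2, 3] := by decide
    rw [hl]
    simp only [List.forall_mem_cons]
    exact ⟨⟨b1, g1⟩, ⟨b2, g2⟩, ⟨b3, g3⟩, ⟨b4, g4⟩, by simp⟩

/-- path of vertices of degrees 3, 4, 3, 4, 3 -/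
theorem gL3_false (h : MinCE G B) (hF : Faces G F) {c a b d e : V}
    (e1 : G.Adj b c) (e2 : G.Adj c d) (e3 : G.Adj a b) (e4 : G.Adj d e) (d1 : a ≠ c)
    (d2 : a ≠ d) (d3 : a ≠ e) (d4 : b ≠ d) (d5 : b ≠ e) (d6 : c ≠ e) (x1 : ¬ G.Adj a c)
    (x2 : ¬ G.Adj a d) (x3 : ¬ G.Adj a e) (x4 : ¬ G.Adj b d) (x5 : ¬ G.Adj b e)
    (x6 : ¬ G.Adj c e) (b1 : c ∉ B) (b2 : a ∉ B) (b3 : b ∉ B) (b4 : d ∉ B) (b5 : e ∉ B)
    (g1 : dg G c ≤ 3) (g2 : dg G a ≤ 3) (g3 : dg G b ≤ 4) (g4 : dg G d ≤ 4) (g5 : dg G e ≤ 3) : False := by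
  refine Loc.cfalse (nm := fun i => [c, a, b, d, e].getD i c) gL3_adm gL3_lchk gL3_echk gL3_list h hF
    ?_ ?_ ?_ ?_ ?_ ?_
  · show ∀ e ∈ [(2, 0), (0, 3), (1, 2), (3, 4)], G.Adj _ _
    simp only [List.forall_mem_cons]
    exact ⟨e1, e2, e3, e4, by simp⟩
  · simp
  · simp only [List.forall_mem_cons]
    exact ⟨d1, d2, d3, d4, d5, d6, by simp⟩
  · simp only [List.forall_mem_cons]
    exact ⟨x1, x2, x3, x4, x5, x6, by simp⟩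
  · simp
  · have hl : Loc.hlist gL3 = [0, 1, 2, 3, 4] := by decide
    rw [hl]
    simp only [List.forall_mem_cons]
    exact ⟨⟨b1, g1⟩, ⟨b2, g2⟩, ⟨b3, g3⟩, ⟨b4, g4⟩, ⟨b5, g5⟩, by simp⟩

/-- 4-vertex with three 3-neighbours -/
theorem gC2_false (h : MinCE G B) (hF : Faces G F) {y a b c : V}
    (e1 : G.Adj y a) (e2 : G.Adj y b) (e3 : G.Adj y c) (d1 : a ≠ b) (d2 : a ≠ c) (d3 : b ≠ c)
    (x1 : ¬ G.Adj a b) (x2 : ¬ G.Adj a c) (x3 : ¬ G.Adj b c) (b1 : y ∉ B) (b2 : a ∉ B)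
    (b3 : b ∉ B) (b4 : c ∉ B) (g1 : dg G y ≤ 4) (g2 : dg G a ≤ 3) (g3 : dg G b ≤ 3)
    (g4 : dg G c ≤ 3) : False := by
  refine Loc.cfalse (nm := fun i => [y, a, b, c].getD i y) gC2_adm gC2_lchk gC2_echk gC2_list h hF
    ?_ ?_ ?_ ?_ ?_ ?_
  · show ∀ e ∈ [(0, 1), (0, 2), (0, 3)], G.Adj _ _
    simp only [List.forall_mem_cons]
    exact ⟨e1, e2, e3, by simp⟩
  · simp
  · simp only [List.forall_mem_cons]
    exact ⟨d1, d2, d3, by simp⟩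
  · simp only [List.forall_mem_cons]
    exact ⟨x1, x2, x3, by simp⟩
  · simp
  · have hl : Loc.hlist gC2 = [0, 1, 2, 3] := by decide
    rw [hl]
    simp only [List.forall_mem_cons]
    exact ⟨⟨b1, g1⟩, ⟨b2, g2⟩, ⟨b3, g3⟩, ⟨b4, g4⟩, by simp⟩

end Pool.Agent.Lib.SVY.LC
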