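import Pool.Agent.Lib.SVY.LfA
import Pool.Agent.Lib.SVY.PathThm
import Pool.Agent.Lib.SVY.LocThmA
import Pool.Agent.Lib.SVY.LocThm2

/-!
# SVY.LfB: the first local facts
-/

set_option autoImplicit false
set_option linter.unusedSectionVars false

namespace Pool.Agent.Lib.SVY

open Finset Pool.Agent.Lib.SVT Pool.Agent.Lib.SVX

variable {V : Type*} [Fintype V] [DecidableEq V] {G : SimpleGraph V} {B : Finset V}
variable {m : ℕ} {F : Fin m → Finset (Sym2 V)}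

namespace LfProof

theorem l1 (h : MinCE G B) (hF : Faces G F) : ∀ a b c, Inn G B 3 a → Inn G B 3 b → Inn G B 3 c →
    G.Adj a b → G.Adj b c → a ≠ c → ¬ G.Adj a c → False := by
  intro a b c i1 i2 i3 e1 e2 d1 x1
  exact LC.gL1_false h hF e1 e2 d1 x1 i1.1 i2.1 i3.1 i1.2 i2.2 i3.2

theorem l2 (h : MinCE G B) (hF : Faces G F) : ∀ a b c d, Inn G B 3 a → Inn G B 3 b →
    Inn G B 4 c → Inn G B 3 d → G.Adj a b → G.Adj b c → G.Adj c d → a ≠ c → b ≠ d →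
    ¬ G.Adj a c → ¬ G.Adj b d → False := by
  intro a b c d i1 i2 i3 i4 e1 e2 e3 d1 d2 x1 x2
  have d3 : a ≠ d := by
    rintro rfl
    exact x1 e3.symm
  have x3 : ¬ G.Adj a d := fun e4 => h.good.c4 a b c d d1 d2 e1 e2 e3 e4.symm
  exact LC.gL2_false h hF e1 e2 e3 d1 d2 d3 x1 x2 x3 i1.1 i2.1 i3.1 i4.1 i1.2 i2.2 i3.2 i4.2

theorem l3 (h : MinCE G B) (hF : Faces G F) : ∀ a b c d e, Inn G B 3 a → Inn G B 4 b →
    Inn G B 3 c → Inn G B 4 d → Inn G B 3 e → G.Adj a b → G.Adj b c → G.Adj c d → G.Adj d e →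
    a ≠ c → b ≠ d → c ≠ e → ¬ G.Adj a c → ¬ G.Adj b d → ¬ G.Adj c e → False := by
  intro a b c d e i1 i2 i3 i4 i5 e1 e2 e3 e4 d1 d2 d3 x1 x2 x3
  have d4 : a ≠ d := by
    rintro rfl
    exact x2 e1.symm
  have d5 : a ≠ e := by
    rintro rfl
    exact h.good.c4 a b c d d1 d2 e1 e2 e3 e4
  have d6 : b ≠ e := by
    rintro rfl
    exact x2 e4.symm
  have x4 : ¬ G.Adj a d := fun e5 => h.good.c4 a b c d d1 d2 e1 e2 e3 e5.symm
  have x5 : ¬ G.Adj b e := fun e5 => h.good.c4 b c d e d2 d3 e2 e3 e4 e5.symm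
  have x6 : ¬ G.Adj a e := fun e5 => h.good.c5 a b c d e d1 d4 d2 d6 d3 e1 e2 e3 e4 e5.symm
  exact LC.gL3_false h hF e2 e3 e1 e4 d1 d4 d5 d2 d6 d3 x1 x4 x6 x2 x5 x3 i3.1 i1.1 i2.1 i4.1 i5.1
    i3.2 i1.2 i2.2 i4.2 i5.2

theorem c2 (h : MinCE G B) (hF : Faces G F) : ∀ y a b c, Inn G B 4 y → Inn G B 3 a →
    Inn G B 3 b → Inn G B 3 c → G.Adj y a → G.Adj y b → G.Adj y c → a ≠ b → a ≠ c → b ≠ c →
    ¬ G.Adj a b → ¬ G.Adj a c → ¬ G.Adj b c → False := by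
  intro y a b c i1 i2 i3 i4 e1 e2 e3 d1 d2 d3 x1 x2 x3
  exact LC.gC2_false h hF e1 e2 e3 d1 d2 d3 x1 x2 x3 i1.1 i2.1 i3.1 i4.1 i1.2 i2.2 i3.2 i4.2

theorem cc (h : MinCE G B) (hF : Faces G F) : ∀ z z', P1c G B z → P1c G B z' → TE G z z' →
    False := by
  intro z z' hz hz' ht
  obtain ⟨a, b, hab, w1, w2, -⟩ := F12.weak h hz.1
  obtain ⟨c, d, hcd, w3, w4, -⟩ := F12.weak h hz'.1
  obtain ⟨s1, s2⟩ := apx_adj ht
  exact LC.gCC_false h hF ht.1 s1 s2 w1 w2 w3 w4 hab hcd hz.inn hz'.inn (hz.2 a w1).inn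
    (hz.2 b w2).inn (hz'.2 c w3).inn (hz'.2 d w4).inn

theorem pk (h : MinCE G B) (hF : Faces G F) : ∀ v x, OneP G B v → ExK G B x → TE G v x →
    False := by
  intro v x hv hx ht
  obtain ⟨z, w1, hz⟩ := hv.2
  obtain ⟨a, b, c, n1, n2, n3, w2, w3, w4, m1, m2, m3, -⟩ := ExK.weak h hx
  obtain ⟨s1, s2⟩ := apx_adj ht
  exact LC.gPK_false h hF ht.1 s1 s2 w1 w2 w3 w4 n1 n2 n3 hv.inn hx.inn hz.inn m1.inn m2.inn
    m3.inn

theorem qk (h : MinCE G B) (hF : Faces G F) : ∀ v x, OneQ G B v → ExK G B x → TE G v x →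
    False := by
  intro v x hv hx ht
  obtain ⟨z, w1, hz⟩ := hv.2
  obtain ⟨p, q, hpq, u1, u2, hu⟩ := F12.weak h hz.1
  obtain ⟨a, b, c, n1, n2, n3, w2, w3, w4, m1, m2, m3, -⟩ := ExK.weak h hx
  obtain ⟨s1, s2⟩ := apx_adj ht
  rcases hu v w1.symm with rfl | rfl
  · exact LC.gQK_false h hF ht.1 s1 s2 u2.1 w1 w2 w3 w4 n1 n2 n3 hpq hv.1.inn hx.inn hz.inn
      (hz.2 q u2).inn m1.inn m2.inn m3.inn
  · exact LC.gQK_false h hF ht.1 s1 s2 u1.1 w1 w2 w3 w4 n1 n2 n3 hpq.symm hv.1.inn hx.inn hz.inn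
      (hz.2 p u1).inn m1.inn m2.inn m3.inn

theorem m5 (h : MinCE G B) (hF : Faces G F) : ∀ v x c, OneP G B v → FF G B x → P1c G B c →
    TE G v x → TE G x c → ¬ G.Adj v c → False := by
  intro v x c hv hx hc ht1 ht2 hvc
  obtain ⟨z, w1, hz⟩ := hv.2
  obtain ⟨s1, s2⟩ := apx_adj ht1
  obtain ⟨t1, t2⟩ := apx_adj ht2
  obtain ⟨p, q, hpq, u1, u2, o1, o2, nc, -⟩ := P1c.faces h hF hc ht2.1.symm t2 t1
  have d2 : v ≠ c := by
    rintro rfl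
    have e1 := hv.1.2.1
    have e2 := hc.1.2.1
    omega
  have d3 : v ≠ apx G x c := by
    intro e1
    exact hvc (e1 ▸ t2.symm)
  exact LC.gM5_false h hF ht1.1 s1 s2.symm ht2.1 t1 t2 w1 u1 u2 hpq d2 d3 nc hv.inn hx.inn hc.inn
    hz.inn o1.inn o2.inn

theorem q16 (h : MinCE G B) (hF : Faces G F) : ∀ v x c, OneQ G B v → FF G B x → P1c G B c →
    TE G v x → TE G x c → ¬ G.Adj v c → Sm G B (apx G v x) → False := by
  intro v x c hv hx hc ht1 ht2 hvc hs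
  obtain ⟨z, w1, hz⟩ := hv.2
  obtain ⟨s1, s2⟩ := apx_adj ht1
  obtain ⟨t1, t2⟩ := apx_adj ht2
  obtain ⟨p, q, hpq, u1, u2, o1, o2, -, -⟩ := P1c.faces h hF hc ht2.1.symm t2 t1
  have d2 : v ≠ c := by
    rintro rfl
    have e1 := hv.1.2.1
    have e2 := hc.1.2.1
    omega
  have d3 : v ≠ apx G x c := by
    intro e1
    exact hvc (e1 ▸ t2.symm)
  have hy : Inn G B 4 (apx G v x) := Sm.inn h hs (apx_te ht1).1.symm
  exact LC.gQ16_false h hF ht1.1 s1 s2.symm ht2.1 t1 t2 w1 u1 u2 hpq d2 d3 hv.1.inn hx.inn hc.inn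
    hy o1.inn o2.inn

/-- an `Npay` vertex: weak neighbours, the first one has degree 3 -/
theorem npay_weak (h : MinCE G B) {a : V} (ha : Npay G B a) : ∃ p q, p ≠ q ∧ WE G a p ∧
    WE G a q ∧ (∀ c, WE G a c → c = p ∨ c = q) ∧ Dm G B p := by
  obtain ⟨h1, h2, h3⟩ := ha
  obtain ⟨p, q, hpq, w1, w2, hall⟩ := F12.weak h h1
  by_cases hp : Dm G B p
  · exact ⟨p, q, hpq, w1, w2, hall, hp⟩
  · by_cases hq : Dm G B q
    · exact ⟨q, p, hpq.symm, w2, w1, fun c hc => (hall c hc).symm, hq⟩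
    · exact absurd ⟨h1, fun u hu => by
        rcases hall u hu with rfl | rfl
        · exact hp
        · exact hq⟩ h3

theorem a18n (h : MinCE G B) (hF : Faces G F) : ∀ z a, P1c G B z → Npay G B a → TE G z a →
    Sm G B (apx G z a) → False := by
  intro z a hz ha ht hs
  obtain ⟨s1, s2⟩ := apx_adj ht
  obtain ⟨p, q, hpq, u1, u2, o1, o2, nc, -⟩ := P1c.faces h hF hz ht.1 s1 s2
  obtain ⟨r, t, hrt, v1, v2, -, hr⟩ := npay_weak h ha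
  have hy : Inn G B 4 (apx G z a) := Sm.inn h hs (apx_te ht).1.symm
  exact LC.gG3_false h hF ht.1 s1 s2 u1 u2 v1 v2 hpq hrt nc hz.inn.1 ha.inn.1 o1.inn.1 o2.inn.1
    hy.1 hr.inn.1 hz.inn.2 ha.inn.2 o1.inn.2 o2.inn.2 hy.2 hr.inn.2

theorem a18f (h : MinCE G B) (hF : Faces G F) : ∀ z a w, P1c G B z → FF G B a → TE G z a →
    Sm G B (apx G z a) → TE G a w → w ≠ z → ¬ G.Adj z w → (One G B w ∨ P1c G B w) → False := by
  intro z a w hz ha ht hs htw hwz hzw hw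
  obtain ⟨s1, s2⟩ := apx_adj ht
  obtain ⟨t1, t2⟩ := apx_adj htw
  obtain ⟨p, q, hpq, u1, u2, o1, o2, nc, -⟩ := P1c.faces h hF hz ht.1 s1 s2
  have hy : Inn G B 4 (apx G z a) := Sm.inn h hs (apx_te ht).1.symm
  have d4 : z ≠ apx G a w := by
    intro e1
    exact hzw (e1 ▸ t2.symm)
  rcases hw with hw | hw
  · obtain ⟨u, hu⟩ := One.exists_weak h hw
    have d2 : apx G z a ≠ w := by
      rintro rfl
      exact hzw s1
    exact LC.gG4_false h hF ht.1 s1 s2 htw.1 t1 t2 u1 u2 hu hpq d2 hwz.symm nc hz.inn.1 ha.inn.1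
      hw.inn.1 o1.inn.1 o2.inn.1 hy.1 hz.inn.2 ha.inn.2 hw.inn.2 o1.inn.2 o2.inn.2 hy.2
  · obtain ⟨c1, c2, hc, v1, v2, -⟩ := F12.weak h hw.1
    exact LC.gA18_false h hF ht.1 s1 s2 htw.1 t1 t2 u1 u2 v1 v2 hpq hc hwz.symm d4 nc hz.inn
      ha.inn hw.inn hy (hw.2 c1 v1).inn (hw.2 c2 v2).inn o1.inn o2.inn

end LfProof

end Pool.Agent.Lib.SVY
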