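import Pool.Agent.Lib.SVY.LocData5

/-!
# SVY.LocC3: `ListOK` of the configuration `gC3`
-/

set_option autoImplicit false

namespace Pool.Agent.Lib.SVY.LC

open Finset Pool.Agent.Lib.SVX

theorem five_pairs {T : ℕ → Finset (Fin 7)} (hT : ∀ i ∈ Finset.Icc 1 5, (T i).card = 3) :
    ∃ Y : Finset (Fin 7), Y.card = 2 ∧ ∀ i ∈ Finset.Icc 1 5, ¬ Y ⊆ T i := by
  by_contra hc
  push Not at hc
  have h1 : powersetCard 2 (univ : Finset (Fin 7)) ⊆
      (Finset.Icc 1 5).biUnion (fun i => powersetCard 2 (T i)) := by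
    intro Y hY
    rw [mem_powersetCard] at hY
    obtain ⟨i, hi, hs⟩ := hc Y hY.2
    exact mem_biUnion.2 ⟨i, hi, mem_powersetCard.2 ⟨hs, hY.2⟩⟩
  have h2 := card_le_card h1
  have h3 : ((Finset.Icc 1 5).biUnion (fun i => powersetCard 2 (T i))).card ≤
      (Finset.Icc 1 5).card * 3 := card_biUnion_le_card_mul _ _ _ (fun i hi => by
        rw [card_powersetCard, hT i hi]
        decide)
  rw [card_powersetCard, card_univ, Fintype.card_fin] at h2
  have h4 : Nat.choose 7 2 = 21 := by decide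
  have h5 : (Finset.Icc 1 5).card = 5 := by decide
  omega

theorem gC3_ok : gC3.ListOK := by
  intro ψ L h1 h2 h3 h4
  have hT : ∀ i, ∃ T : Finset (Fin 7), i ∈ Finset.Icc 1 5 → T ⊆ L i ∧ T.card = 3 := by
    intro i
    by_cases hi : i ∈ Finset.Icc 1 5
    · rw [mem_Icc] at hi
      have h5 := h3 i (by
        unfold Cfg.isT gC3 Cfg.N
        simp only [Bool.and_eq_true, decide_eq_true_eq]
        omega) (by
        have : i = 1 ∨ i = 2 ∨ i = 3 ∨ i = 4 ∨ i = 5 := by omega
        rcases this with rfl | rfl | rfl | rfl | rfl <;> rfl)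
      have h6 : gC3.outs i = 2 := by
        have : i = 1 ∨ i = 2 ∨ i = 3 ∨ i = 4 ∨ i = 5 := by omega
        rcases this with rfl | rfl | rfl | rfl | rfl <;> rfl
      rw [h6] at h5
      obtain ⟨T, hT1, hT2⟩ := Finset.exists_subset_card_eq (show 3 ≤ (L i).card by omega)
      exact ⟨T, fun _ => ⟨hT1, hT2⟩⟩
    · exact ⟨∅, fun h => absurd h hi⟩
  choose T hT using hT
  obtain ⟨Y, hY, hYT⟩ := five_pairs (T := T) (fun i hi => (hT i hi).2)
  have hS : ∀ i, ∃ S : Finset (Fin 7), S.card = 2 ∧ (i ∈ Finset.Icc 1 5 → S ⊆ L i ∧ Disjoint Y S) ∧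
      (i ∉ Finset.Icc 1 5 → S = Y) := by
    intro i
    by_cases hi : i ∈ Finset.Icc 1 5
    · have h5 : 2 ≤ (T i \ Y).card := by
        have h6 : (Y ∩ T i).card < Y.card := card_lt_card (by
          rw [ssubset_iff_subset_ne]
          refine ⟨inter_subset_left, fun h7 => hYT i hi ?_⟩
          rw [← h7]
          exact inter_subset_right)
        have h8 := card_sdiff_add_card_inter (T i) Y
        rw [inter_comm] at h8
        have h9 := (hT i hi).2
        omega
      obtain ⟨S, hS1, hS2⟩ := Finset.exists_subset_card_eq h5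
      refine ⟨S, hS2, fun _ => ⟨fun x hx => (hT i hi).1 (mem_sdiff.1 (hS1 hx)).1, ?_⟩,
        fun h => absurd hi h⟩
      rw [disjoint_left]
      intro x hx hxS
      exact (mem_sdiff.1 (hS1 hxS)).2 hx
    · exact ⟨Y, hY, fun h => absurd h hi, fun _ => rfl⟩
  choose S hS1 hS2 hS3 using hS
  have hL0 : L 0 = univ := by
    have h5 := h4 0 (by decide)
    have h6 : gC3.outs 0 = 0 := rfl
    rw [h6] at h5
    apply eq_univ_of_card
    have h7 := card_le_univ (L 0)
    rw [Fintype.card_fin] at h7 ⊢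
    omega
  have h0 : S 0 = Y := hS3 0 (by decide)
  have hI : ∀ i, gC3.isT i = true → i ∈ Finset.Icc 1 5 := by
    intro i hi
    unfold Cfg.isT gC3 Cfg.N at hi
    simp only [Bool.and_eq_true, decide_eq_true_eq] at hi
    rw [mem_Icc]
    omega
  refine ⟨S, fun i _ => hS1 i, ?_, ?_, ?_, ?_⟩
  · intro t ht hts
    have h5 := hI t ht
    rw [mem_Icc] at h5
    have : t = 1 ∨ t = 2 ∨ t = 3 ∨ t = 4 ∨ t = 5 := by omega
    rcases this with rfl | rfl | rfl | rfl | rfl <;> exact absurd hts (by decide)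
  · intro t ht _
    exact (hS2 t (hI t ht)).1
  · intro r hr
    have : r = 0 := by
      have : gC3.nc = 1 := rfl
      omega
    subst this
    rw [hL0]
    exact subset_univ _
  · intro i j hi hj hij
    have hN : gC3.N = 6 := rfl
    rw [hN] at hi hj
    have hd : ∀ j ∈ Finset.Icc 1 5, Disjoint (S 0) (S j) := by
      intro j hj
      rw [h0]
      exact (hS2 j hj).2
    interval_cases i <;> interval_cases j <;> first
      | exact absurd hij (by decide)
      | exact hd _ (by decide)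
      | exact (hd _ (by decide)).symm

end Pool.Agent.Lib.SVY.LC
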