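import Pool.Agent.Lib.SVY.LocOk5
import Pool.Agent.Lib.SVY.LocC3
import Pool.Agent.Lib.SVY.Facts

/-!
# SVY.LocThm5: further local reducible configurations

Generated.
-/

set_option autoImplicit false
set_option linter.unusedSectionVars false
set_option maxRecDepth 100000

namespace Pool.Agent.Lib.SVY.LC

open Finset Pool.Agent.Lib.SVT Pool.Agent.Lib.SVX

variable {V : Type*} [Fintype V] [DecidableEq V] {G : SimpleGraph V} {B : Finset V}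
variable {m : ℕ} {F : Fin m → Finset (Sym2 V)}

/-- 5-vertex `y` without triangles with five 3-neighbours -/
theorem gC3_false (h : MinCE G B) (hF : Faces G F) {y u1 u2 u3 u4 u5 : V}
    (e1 : G.Adj y u5) (w1 : WE G y u1) (w2 : WE G y u2) (w3 : WE G y u3) (w4 : WE G y u4)
    (d1 : u1 ≠ u2) (d2 : u1 ≠ u3) (d3 : u1 ≠ u4) (d4 : u1 ≠ u5) (d5 : u2 ≠ u3) (d6 : u2 ≠ u4)
    (d7 : u2 ≠ u5) (d8 : u3 ≠ u4) (d9 : u3 ≠ u5) (d10 : u4 ≠ u5) (i1 : Inn G B 5 y)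
    (i2 : Inn G B 3 u1) (i3 : Inn G B 3 u2) (i4 : Inn G B 3 u3) (i5 : Inn G B 3 u4)
    (i6 : Inn G B 3 u5) : False := by
  refine Loc.cfalseD (nm := fun i => [y, u1, u2, u3, u4, u5].getD i y) gC3_adm gC3_lchk
    gC3_echk gC3_dchk gC3_xchk gC3_ok h hF ?_ ?_ ?_ ?_ ?_ ?_ ?_
  · show ∀ e ∈ [(0, 1), (0, 2), (0, 3), (0, 4), (0, 5)], G.Adj _ _
    simp only [List.forall_mem_cons]
    exact ⟨w1.1, w2.1, w3.1, w4.1, e1, by simp⟩
  · simp only [List.forall_mem_cons]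
    exact ⟨w1, w2, w3, w4, by simp⟩
  · simp only [List.forall_mem_cons]
    exact ⟨d1, d2, d3, d4, d5, d6, d7, d8, d9, d10, by simp⟩
  · simp
  · simp
  · simp
  · have hl : Loc.hlist gC3 = [0, 1, 2, 3, 4, 5] := by decide
    rw [hl]
    simp only [List.forall_mem_cons]
    exact ⟨i1, i2, i3, i4, i5, i6, by simp⟩

/-- V-edge `x y`, triangles `x x2 wp`, `y A w`, `A` with the weak neighbours `n`, `u`, 3-vertex `u` with the neighbours `e`, `d`: new edges `w d`, `n d` -/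
theorem gS11_false (h : MinCE G B) (hF : Faces G F) {v x y A u x2 wp z w n e d : V}
    (e1 : G.Adj v x) (e2 : G.Adj v y) (e3 : G.Adj x y) (e4 : G.Adj x x2) (e5 : G.Adj x wp)
    (e6 : G.Adj y A) (e7 : G.Adj y w) (e8 : G.Adj A w) (e9 : G.Adj u e) (e10 : G.Adj u d)
    (e11 : G.Adj x2 wp) (w1 : WE G v z) (w2 : WE G A n) (w3 : WE G A u) (d1 : n ≠ u)
    (d2 : e ≠ d) (d3 : A ≠ e) (d4 : A ≠ d) (d5 : v ≠ A) (d6 : v ≠ w) (d7 : v ≠ x2) (d8 : v ≠ wp)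
    (f1 : ¬ Corner F A u w)
    (o1 : ¬ OPath G {ω | ∃ r, r < 5 ∧ ω = [v, x, y, A, u, x2, wp, z, w, n, e, d].getD r v} n d 3)
    (o2 : ¬ OPath G {ω | ∃ r, r < 5 ∧ ω = [v, x, y, A, u, x2, wp, z, w, n, e, d].getD r v} n d 4)
    (i1 : Inn G B 3 v) (i2 : Inn G B 4 x) (i3 : Inn G B 4 y) (i4 : Inn G B 4 A)
    (i5 : Inn G B 3 u) (i6 : Inn G B 3 z) : False := by
  refine Loc.cfalseD (nm := fun i => [v, x, y, A, u, x2, wp, z, w, n, e, d].getD i v) gS11_adm gS11_lchk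
    gS11_echk gS11_dchk gS11_xchk gS11_ok h hF ?_ ?_ ?_ ?_ ?_ ?_ ?_
  · show ∀ e ∈ [(0, 1), (0, 2), (0, 7), (1, 2), (1, 5), (1, 6), (2, 3), (2, 8), (3, 8), (3, 9), (3, 4), (4, 10), (4, 11), (5, 6)], G.Adj _ _
    simp only [List.forall_mem_cons]
    exact ⟨e1, e2, w1.1, e3, e4, e5, e6, e7, e8, w2.1, w3.1, e9, e10, e11, by simp⟩
  · simp only [List.forall_mem_cons]
    exact ⟨w1, w2, w3, by simp⟩
  · simp only [List.forall_mem_cons]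
    exact ⟨d1, d2, d3, d4, d5, d6, d7, d8, by simp⟩
  · simp
  · simp only [List.forall_mem_cons]
    exact ⟨f1, by simp⟩
  · simp only [List.forall_mem_cons]
    exact ⟨o1, o2, by simp⟩
  · have hl : Loc.hlist gS11 = [0, 1, 2, 3, 4, 7] := by decide
    rw [hl]
    simp only [List.forall_mem_cons]
    exact ⟨i1, i2, i3, i4, i5, i6, by simp⟩

/-- 33XFFX TWTVTW: new edges `c2 c5`, `l2 c5` -/
theorem gX4_false (h : MinCE G B) (hF : Faces G F) {c0 c1 c3 c4 v c2 c5 l0 l2 l4 z : V}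
    (e1 : G.Adj c0 c1) (e2 : G.Adj c0 l0) (e3 : G.Adj c1 l0) (e4 : G.Adj c2 c3)
    (e5 : G.Adj c3 l2) (e6 : G.Adj c3 c4) (e7 : G.Adj c3 v) (e8 : G.Adj c4 v) (e9 : G.Adj c4 l4)
    (e10 : G.Adj c4 c5) (e11 : G.Adj c2 l2) (e12 : G.Adj c5 l4) (w1 : WE G c1 c2)
    (w2 : WE G c0 c5) (w3 : WE G v z)
    (o1 : ¬ OPath G {ω | ∃ r, r < 5 ∧ ω = [c0, c1, c3, c4, v, c2, c5, l0, l2, l4, z].getD r c0} c2 c5 3)
    (o2 : ¬ OPath G {ω | ∃ r, r < 5 ∧ ω = [c0, c1, c3, c4, v, c2, c5, l0, l2, l4, z].getD r c0} c2 c5 4)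
    (o3 : ¬ OPath G {ω | ∃ r, r < 5 ∧ ω = [c0, c1, c3, c4, v, c2, c5, l0, l2, l4, z].getD r c0} c5 l2 3)
    (o4 : ¬ OPath G {ω | ∃ r, r < 5 ∧ ω = [c0, c1, c3, c4, v, c2, c5, l0, l2, l4, z].getD r c0} c5 l2 4)
    (i1 : Inn G B 3 c0) (i2 : Inn G B 3 c1) (i3 : Inn G B 4 c3) (i4 : Inn G B 4 c4)
    (i5 : Inn G B 3 v) (i6 : Inn G B 3 z) : False := by
  refine Loc.cfalseD (nm := fun i => [c0, c1, c3, c4, v, c2, c5, l0, l2, l4, z].getD i c0) gX4_adm gX4_lchk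
    gX4_echk gX4_dchk gX4_xchk gX4_ok h hF ?_ ?_ ?_ ?_ ?_ ?_ ?_
  · show ∀ e ∈ [(0, 1), (0, 7), (1, 7), (1, 5), (0, 6), (5, 2), (2, 8), (2, 3), (2, 4), (3, 4), (4, 10), (3, 9), (3, 6), (5, 8), (6, 9)], G.Adj _ _
    simp only [List.forall_mem_cons]
    exact ⟨e1, e2, e3, w1.1, w2.1, e4, e5, e6, e7, e8, w3.1, e9, e10, e11, e12, by simp⟩
  · simp only [List.forall_mem_cons]
    exact ⟨w1, w2, w3, by simp⟩
  · simp
  · simp
  · simp
  · simp only [List.forall_mem_cons]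
    exact ⟨o1, o2, o3, o4, by simp⟩
  · have hl : Loc.hlist gX4 = [0, 1, 2, 3, 4, 10] := by decide
    rw [hl]
    simp only [List.forall_mem_cons]
    exact ⟨i1, i2, i3, i4, i5, i6, by simp⟩

/-- P1 centre `z` in a triangle `z a b`, `b` not paying, `a` of type (1,3) with three 3-neighbours -/
theorem gA19E_false (h : MinCE G B) (hF : Faces G F) {z a b v1 v2 k1 k2 k3 : V}
    (e1 : G.Adj z a) (e2 : G.Adj z b) (e3 : G.Adj a b) (w1 : WE G z v1) (w2 : WE G z v2)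
    (w3 : WE G a k1) (w4 : WE G a k2) (w5 : WE G a k3) (d1 : v1 ≠ v2) (d2 : k1 ≠ k2)
    (d3 : k1 ≠ k3) (d4 : k2 ≠ k3) (i1 : Inn G B 4 z) (i2 : Inn G B 5 a)
    (i4 : Inn G B 3 v1) (i5 : Inn G B 3 v2) (i6 : Inn G B 3 k1) (i7 : Inn G B 3 k2)
    (i8 : Inn G B 3 k3) (np : ¬ Np G B b) : False := by
  refine Loc.cfalseG (nm := fun i => [z, a, b, v1, v2, k1, k2, k3].getD i z) gA19E_adm gA19E_lchk
    gA19E_echk gA19E_xchk gA19E_flchk gA19E_okF h hF ?_ ?_ ?_ ?_ ?_ ?_ ?_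
  · show ∀ e ∈ [(0, 3), (0, 4), (0, 1), (0, 2), (1, 2), (1, 5), (1, 6), (1, 7)], G.Adj _ _
    simp only [List.forall_mem_cons]
    exact ⟨w1.1, w2.1, e1, e2, e3, w3.1, w4.1, w5.1, by simp⟩
  · simp only [List.forall_mem_cons]
    exact ⟨w1, w2, w3, w4, w5, by simp⟩
  · simp only [List.forall_mem_cons]
    exact ⟨d1, d2, d3, d4, by simp⟩
  · simp
  · simp
  · have hl : Loc.hlist gA19E = [0, 1, 3, 4, 5, 6, 7] := by decide
    rw [hl]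
    simp only [List.forall_mem_cons]
    exact ⟨i1, i2, i4, i5, i6, i7, i8, by simp⟩
  · have hl : Loc.flist gA19E gA19E_fl = [2] := by decide
    rw [hl]
    simp only [List.forall_mem_cons]
    exact ⟨np, by simp⟩

end Pool.Agent.Lib.SVY.LC
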