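import Pool.Agent.Lib.SVY.LfC
import Pool.Agent.Lib.SVY.LocThm5

/-!
# SVY.LfD: further local facts
-/

set_option autoImplicit false
set_option linter.unusedSectionVars false

namespace Pool.Agent.Lib.SVY

open Finset Pool.Agent.Lib.SVT Pool.Agent.Lib.SVX

variable {V : Type*} [Fintype V] [DecidableEq V] {G : SimpleGraph V} {B : Finset V}
variable {m : ℕ} {F : Fin m → Finset (Sym2 V)}

/-- `a - p - q - b` is a path whose edges do not lie in a common face, and no vertex outside `R` is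
adjacent to `q` and `b` or to `p` and `a`: there is no path of length at most 4 from `a` to `b`
outside `R` -/
theorem far2 (h : MinCE G B) (hF : Faces G F) {a p q b : V} {R : Set V} (hp : p ∈ R) (hq : q ∈ R)
    (e1 : G.Adj a p) (e2 : G.Adj p q) (e3 : G.Adj q b) (hab : a ≠ b) (haq : a ≠ q) (hpb : p ≠ b)
    (naq : ¬ G.Adj a q) (npb : ¬ G.Adj p b)
    (hnc : ∀ i, s(p, a) ∈ F i → s(p, q) ∈ F i → s(q, b) ∈ F i → False)
    (hu : ∀ u, u ∉ R → G.Adj q u → ¬ G.Adj u b) (hu' : ∀ u, u ∉ R → G.Adj p u → ¬ G.Adj u a)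
    (l : ℕ) : ¬ OPath G R a b l := by
  have key : ∀ {x y : V}, x ∉ R → y ∉ R → x ≠ b → y ≠ a → G.Adj a x → G.Adj x y → G.Adj y b →
      False := by
    intro x y hx hy h1 h2 h3 h4 h5
    have hpx : p ≠ x := fun he => hx (he ▸ hp)
    have hpy : p ≠ y := fun he => hy (he ▸ hp)
    have hqx : q ≠ x := fun he => hx (he ▸ hq)
    have hqy : q ≠ y := fun he => hy (he ▸ hq)
    have hnd : [a, p, q, b, y, x].Nodup := by
      simp only [List.nodup_cons, List.mem_cons, List.not_mem_nil, or_false, not_or,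
        not_false_eq_true, List.nodup_nil, and_true]
      exact ⟨⟨e1.ne, haq, hab, h2.symm, h3.ne⟩, ⟨e2.ne, hpb, hpy, hpx⟩, ⟨e3.ne, hqy, hqx⟩,
        ⟨h5.ne.symm, h1.symm⟩, h4.ne.symm⟩
    obtain ⟨i, hi⟩ := cyc6 h hF hnd e1 e2 e3 h5.symm h4.symm h3.symm
    refine hnc i ?_ ?_ ?_
    · rw [hi, Sym2.eq_swap]
      simp
    · rw [hi]
      simp
    · rw [hi]
      simp
  match l with
  | 0 => exact fun h => h
  | 1 => exact fun h1 => h.good.c4 a p q b haq hpb e1 e2 e3 (SimpleGraph.Adj.symm h1)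
  | 2 =>
    rintro ⟨x, hx, h1, h2⟩
    have hpx : p ≠ x := fun he => hx (he ▸ hp)
    have hqx : q ≠ x := fun he => hx (he ▸ hq)
    exact h.good.c5 a p q b x haq hab hpb hpx hqx e1 e2 e3 h2.symm h1.symm
  | 3 =>
    rintro ⟨x, y, hx, hy, h1, h2, h3, h4, h5⟩
    exact key hx hy h1 h2 h3 h4 h5
  | 4 =>
    rintro ⟨x, y, z, hx, hy, hz, h1, h2, h3, h4, h5, h6, h7, h8, h9⟩
    have hpx : p ≠ x := fun he => hx (he ▸ hp)
    have hpy : p ≠ y := fun he => hy (he ▸ hp)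
    have hpz : p ≠ z := fun he => hz (he ▸ hp)
    have hqx : q ≠ x := fun he => hx (he ▸ hq)
    have hqy : q ≠ y := fun he => hy (he ▸ hq)
    have hqz : q ≠ z := fun he => hz (he ▸ hq)
    have hnd : [a, p, q, b, z, y, x].Nodup := by
      simp only [List.nodup_cons, List.mem_cons, List.not_mem_nil, or_false, not_or,
        not_false_eq_true, List.nodup_nil, and_true]
      exact ⟨⟨e1.ne, haq, hab, h4.symm, h2.symm, h6.ne⟩, ⟨e2.ne, hpb, hpz, hpy, hpx⟩,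
        ⟨e3.ne, hqz, hqy, hqx⟩, ⟨h9.ne.symm, h3.symm, h1.symm⟩, ⟨h8.ne.symm, h5.symm⟩, h7.ne.symm⟩
    rcases cyc7 h hF hnd e1 e2 e3 h9.symm h8.symm h7.symm h6.symm with
      ⟨i, hi⟩ | h10 | h10 | h10 | h10 | h10 | h10 | h10
    · refine hnc i ?_ ?_ ?_
      · rw [hi, Sym2.eq_swap]
        simp
      · rw [hi]
        simp
      · rw [hi]
        simp
    · exact naq h10
    · exact npb h10
    · exact hu z hz h10 h9
    · exact key hx hy h1 h2 h6 h7 h10.symm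
    · exact key hx hz h1 h4 h6 h10.symm h9
    · exact key hy hz h3 h4 h10.symm h8 h9
    · exact hu' x hx h10.symm h6.symm
  | _ + 5 => exact fun h => h

namespace LfProof

theorem c3 (h : MinCE G B) (hF : Faces G F) : ∀ y, y ∉ B → dg G y = 5 →
    (∀ u, G.Adj y u → WE G y u ∧ Inn G B 3 u) → False := by
  intro y hyB hd hall
  have h1 : (nb G univ y).card = 5 := hd
  obtain ⟨f⟩ : Nonempty (Fin 5 ≃ nb G univ y) := ⟨(Finset.equivFinOfCardEq h1).symm⟩
  have hw : ∀ i, WE G y (f i).1 ∧ Inn G B 3 (f i).1 := fun i =>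
    hall _ (mem_nb.1 (f i).2).2
  have hne : ∀ i j, i ≠ j → (f i).1 ≠ (f j).1 := fun i j hij he =>
    hij (f.injective (Subtype.ext he))
  exact LC.gC3_false h hF (hw 4).1.1 (hw 0).1 (hw 1).1 (hw 2).1 (hw 3).1
    (hne 0 1 (by decide)) (hne 0 2 (by decide)) (hne 0 3 (by decide)) (hne 0 4 (by decide))
    (hne 1 2 (by decide)) (hne 1 3 (by decide)) (hne 1 4 (by decide)) (hne 2 3 (by decide))
    (hne 2 4 (by decide)) (hne 3 4 (by decide)) ⟨hyB, hd.le⟩ (hw 0).2 (hw 1).2 (hw 2).2 (hw 3).2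
    (hw 4).2

theorem a19 (h : MinCE G B) (hF : Faces G F) : ∀ z a, P1c G B z → ExK G B a → TE G z a →
    ¬ Np G B (apx G z a) → False := by
  intro z a hz ha ht hb
  obtain ⟨s1, s2⟩ := apx_adj ht
  obtain ⟨p, q, hpq, w1, w2, -⟩ := F12.weak h hz.1
  obtain ⟨b, c, d, n1, n2, n3, w3, w4, w5, m1, m2, m3, -⟩ := ExK.weak h ha
  exact LC.gA19E_false h hF ht.1 s1 s2 w1 w2 w3 w4 w5 hpq n1 n2 n3 hz.inn ha.inn (hz.2 p w1).inn
    (hz.2 q w2).inn m1.inn m2.inn m3.inn hb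

/-- `s11` with a `Star` vertex -/
theorem s11s (h : MinCE G B) (hF : Faces G F) : ∀ i x y A u, VE G B F i x y A → Npay G B A →
    s(A, u) ∈ F i → u ≠ y → Star G B u → False := by
  intro i x y A u hV hA hu huy hS
  obtain ⟨v, x2, wp, w, z, D⟩ := vd h hF hV
  have k1 : s(A, y) ∈ F i := by
    rw [Sym2.eq_swap]
    exact hV.ya
  have k2 : s(u, A) ∈ F i := by
    rw [Sym2.eq_swap]
    exact hu
  obtain ⟨wu, n, hnu, wn, hall, nc⟩ := n12 h hF hA.1 hV.nt D.yA.symm D.Aw D.yw k1 hu huy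
  obtain ⟨d, hdA, k3, ud⟩ := face_next hF k2
  have huI : Inn G B 3 u := Dm.inn (Or.inr hS)
  have hweu : ∀ c, G.Adj u c → WE G u c := fun c hc =>
    (te_or_we hc).resolve_left (Thr.no_te h hS.1)
  obtain ⟨e, hue, heA, hed⟩ : ∃ e, G.Adj u e ∧ e ≠ A ∧ e ≠ d := by
    have h2 : ({A, d} : Finset V) ⊆ nb G univ u := by
      intro c hc
      rw [mem_insert, mem_singleton] at hc
      rcases hc with rfl | rfl
      · exact mem_nb.2 ⟨mem_univ _, wu.1.symm⟩
      · exact mem_nb.2 ⟨mem_univ _, ud⟩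
    have h3 : 0 < ((nb G univ u) \ {A, d}).card := by
      rw [card_sdiff_of_subset h2, card_pair hdA.symm]
      have h4 : (nb G univ u).card = 3 := hS.1.2.1
      omega
    obtain ⟨e, he⟩ := card_pos.1 h3
    rw [mem_sdiff, mem_nb, mem_insert, mem_singleton] at he
    push Not at he
    exact ⟨e, he.1.2, he.2.1, he.2.2⟩
  have nd : n ≠ d := by
    rintro rfl
    exact wu.2 ⟨n, wn.1, ud⟩
  have nun : ¬ G.Adj n u := fun h5 => wu.2 ⟨n, wn.1, h5.symm⟩
  have nAd : ¬ G.Adj A d := fun h5 => wu.2 ⟨d, h5, ud⟩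
  have tAy : TE G A y := ⟨D.yA.symm, w, D.Aw, D.yw⟩
  have hny : n ≠ y := fun h5 => tAy.not_we (h5 ▸ wn)
  have hcor : ∀ j, s(A, n) ∈ F j → s(A, u) ∈ F j → s(u, d) ∈ F j → False := by
    intro j h5 h6 h7
    have h8 : s(u, A) ∈ F j := by
      rw [Sym2.eq_swap]
      exact h6
    have h9 : j = i := corner_face h hF (by rw [hS.1.2.1]) hdA.symm h8 h7 k2 k3
    subst h9
    rcases face_two hF huy.symm k1 hu h5 with h10 | h10
    · exact hny h10
    · exact hnu h10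
  have hex : ∀ l, ¬ OPath G {ω | ∃ r, r < 5 ∧ ω = [v, x, y, A, u, x2, wp, z, w, n, e, d].getD r v}
      n d l := by
    intro l
    refine far2 h hF (p := A) (q := u) ?_ ?_ wn.1.symm wu.1 ud nd hnu hdA.symm nun nAd hcor
      (fun c _ h5 h6 => (hweu c h5).2 ⟨d, ud, h6⟩) (fun c _ h5 h6 => wn.2 ⟨c, h5, h6.symm⟩) l
    · exact ⟨3, by norm_num, rfl⟩
    · exact ⟨4, by norm_num, rfl⟩
  exact LC.gS11_false h hF D.vx D.vy D.xy D.xx D.xp D.yA D.yw D.Aw hue ud D.pp D.wz wn wu hnu hed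
    heA.symm hdA.symm D.vA D.vw D.vx2 D.vwp (fun h5 => nc (corner_symm h5)) (hex 3) (hex 4)
    D.hv.inn hV.fx.inn hV.fy.inn hA.inn huI D.hz.inn

end LfProof

end Pool.Agent.Lib.SVY
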