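import Pool.Agent.Lib.SVY.LocOk6
import Pool.Agent.Lib.SVY.Facts

/-!
# SVY.LocThm6: further local reducible configurations

Generated.
-/

set_option autoImplicit false
set_option linter.unusedSectionVars false
set_option maxRecDepth 100000

namespace Pool.Agent.Lib.SVY.LC

open Finset Pool.Agent.Lib.SVT Pool.Agent.Lib.SVX

variable {V : Type*} [Fintype V] [DecidableEq V] {G : SimpleGraph V} {B : Finset V}
variable {m : ℕ} {F : Fin m → Finset (Sym2 V)}

/-- V-edge `x y`, triangles `x x2 wp`, `y A w`, `A` with the weak neighbours `n`, `u`, triangle `u e d`: new edges `w e`, `w d` -/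
theorem gS11O_false (h : MinCE G B) (hF : Faces G F) {v x y A u x2 wp z w n e d : V}
    (e1 : G.Adj v x) (e2 : G.Adj v y) (e3 : G.Adj x y) (e4 : G.Adj x x2) (e5 : G.Adj x wp)
    (e6 : G.Adj y A) (e7 : G.Adj y w) (e8 : G.Adj A w) (e9 : G.Adj u e) (e10 : G.Adj u d)
    (e11 : G.Adj x2 wp) (e12 : G.Adj e d) (w1 : WE G v z) (w2 : WE G A n) (w3 : WE G A u)
    (d1 : n ≠ u) (d2 : v ≠ A) (d3 : v ≠ w) (d4 : v ≠ x2) (d5 : v ≠ wp) (f1 : ¬ Corner F A u w)
    (i1 : Inn G B 3 v) (i2 : Inn G B 4 x) (i3 : Inn G B 4 y) (i4 : Inn G B 4 A)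
    (i5 : Inn G B 3 u) (i6 : Inn G B 3 z) : False := by
  refine Loc.cfalseD (nm := fun i => [v, x, y, A, u, x2, wp, z, w, n, e, d].getD i v) gS11O_adm gS11O_lchk
    gS11O_echk gS11O_dchk gS11O_xchk gS11O_ok h hF ?_ ?_ ?_ ?_ ?_ ?_ ?_
  · show ∀ e ∈ [(0, 1), (0, 2), (0, 7), (1, 2), (1, 5), (1, 6), (2, 3), (2, 8), (3, 8), (3, 9), (3, 4), (4, 10), (4, 11), (5, 6), (10, 11)], G.Adj _ _
    simp only [List.forall_mem_cons]
    exact ⟨e1, e2, w1.1, e3, e4, e5, e6, e7, e8, w2.1, w3.1, e9, e10, e11, e12, by simp⟩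
  · simp only [List.forall_mem_cons]
    exact ⟨w1, w2, w3, by simp⟩
  · simp only [List.forall_mem_cons]
    exact ⟨d1, d2, d3, d4, d5, by simp⟩
  · simp
  · simp only [List.forall_mem_cons]
    exact ⟨f1, by simp⟩
  · simp
  · have hl : Loc.hlist gS11O = [0, 1, 2, 3, 4, 7] := by decide
    rw [hl]
    simp only [List.forall_mem_cons]
    exact ⟨i1, i2, i3, i4, i5, i6, by simp⟩

end Pool.Agent.Lib.SVY.LC
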