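import Pool.Agent.Lib.SVY.LfD
import Pool.Agent.Lib.SVY.LocThm6

/-!
# SVY.LfE: the last facts at V-edges
-/

set_option autoImplicit false
set_option linter.unusedSectionVars false

namespace Pool.Agent.Lib.SVY

open Finset Pool.Agent.Lib.SVT Pool.Agent.Lib.SVX

variable {V : Type*} [Fintype V] [DecidableEq V] {G : SimpleGraph V} {B : Finset V}
variable {m : ℕ} {F : Fin m → Finset (Sym2 V)}

namespace LfProof

/-- `s11` with a `One` vertex -/
theorem s11o (h : MinCE G B) (hF : Faces G F) : ∀ i x y A u, VE G B F i x y A → Npay G B A →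
    s(A, u) ∈ F i → u ≠ y → One G B u → False := by
  intro i x y A u hV hA hu huy hS
  obtain ⟨v, x2, wp, w, z, D⟩ := vd h hF hV
  have k1 : s(A, y) ∈ F i := by
    rw [Sym2.eq_swap]
    exact hV.ya
  obtain ⟨wu, n, hnu, wn, hall, nc⟩ := n12 h hF hA.1 hV.nt D.yA.symm D.Aw D.yw k1 hu huy
  obtain ⟨e, d, hed, ue, ud, ed, -⟩ := one_tri h hS.2.2
  exact LC.gS11O_false h hF D.vx D.vy D.xy D.xx D.xp D.yA D.yw D.Aw ue ud D.pp ed D.wz wn wu hnu
    D.vA D.vw D.vx2 D.vwp (fun h5 => nc (corner_symm h5)) D.hv.inn hV.fx.inn hV.fy.inn hA.inn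
    hS.inn D.hz.inn

theorem s11 (h : MinCE G B) (hF : Faces G F) : ∀ i x y A u, VE G B F i x y A → Npay G B A →
    s(A, u) ∈ F i → u ≠ y → Dm G B u → False := by
  intro i x y A u hV hA hu huy hD
  rcases hD with hD | hD
  · exact s11o h hF i x y A u hV hA hu huy hD
  · exact s11s h hF i x y A u hV hA hu huy hD

theorem s10 (h : MinCE G B) (hF : Faces G F) : ∀ i x y A u, VE G B F i x y A → Npay G B A →
    s(A, u) ∈ F i → u ≠ y → ¬ Np G B (apx G y A) → False := by
  intro i x y A u hV hA hu huy hw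
  by_cases hD : Dm G B u
  · exact s11 h hF i x y A u hV hA hu huy hD
  · exact s10n h hF i x y A u hV hA hu huy hD hw

end LfProof

end Pool.Agent.Lib.SVY
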