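import Pool.Agent.Lib.SVY.Rule

/-!
# SVY.Spec: meaning of the types of vertices and edges

Plan.  `card_wn`, `card_tn`, `apex` (SVY/Tri.lean), `deg_three` (SVX/MinA.lean), the definitions of
SVY/Rule.lean.  In `ty_cases` all types are determined by `v ∈ B`, `dg`, `tt` and the weak
neighbours; a `One` vertex has exactly one weak neighbour (`(wn G v).card = 1`).
-/

set_option autoImplicit false
set_option linter.unusedSectionVars false

namespace Pool.Agent.Lib.SVY

open Finset Pool.Agent.Lib.SVT Pool.Agent.Lib.SVX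

variable {V : Type*} [Fintype V] [DecidableEq V] {G : SimpleGraph V} {B : Finset V}

namespace SpecAux

lemma wn1 (_h : MinCE G B) {v : V} (hc : (wn G v).card = 1) {a b : V} (ha : WE G v a)
    (hb : WE G v b) : a = b :=
  card_le_one.1 (le_of_eq hc) a (mem_wn.2 ha) b (mem_wn.2 hb)

lemma One.card (h : MinCE G B) {v : V} (hv : One G B v) : (wn G v).card = 1 := by
  have h1 := card_wn h v
  have h2 := hv.2.1
  have h3 := hv.2.2
  omega

lemma no_tn (h : MinCE G B) {v : V} (hv : tt G v = 0) {a : V} : ¬ TE G v a := by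
  intro ha
  have h1 := card_tn h v
  have h2 : (tn G v).card = 0 := by omega
  rw [card_eq_zero] at h2
  have h3 := mem_tn.2 ha
  rw [h2] at h3
  exact notMem_empty _ h3

lemma te_pos (h : MinCE G B) {v a : V} (ha : TE G v a) : 1 ≤ tt G v := by
  by_contra hc
  exact no_tn h (by omega) ha

lemma big4 {v : V} (hB : v ∉ B) (hd : dg G v ≤ 4) : ¬ Big G B v := by
  rintro (h1 | h1)
  · exact hB h1
  · have := h1.1
    omega

lemma free12 {v : V} (hv : Free G B v) : F12 G B v := hv.1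

lemma p12 {v : V} (hv : P1c G B v) : F12 G B v := hv.1

/-- exclusions by degree and number of triangles -/
lemma sig_excl {v : V} :
    (F12 G B v → ¬ Big G B v) ∧ (FF G B v → ¬ Big G B v) ∧ (F04 G B v → ¬ Big G B v) ∧
    (Exc G B v → ¬ Big G B v) ∧ (One G B v → ¬ Big G B v) ∧ (Thr G B v → ¬ Big G B v) := by
  refine ⟨fun h => big4 h.1 (le_of_eq h.2.1), fun h => big4 h.1 (le_of_eq h.2.1),
    fun h => big4 h.1 (le_of_eq h.2.1), ?_, fun h => big4 h.1 (by have := h.2.1; omega),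
    fun h => big4 h.1 (by have := h.2.1; omega)⟩
  rintro h (h1 | h1)
  · rcases h with h | h
    · exact h.1 h1
    · exact h.1 h1
  · exact h1.2 h

end SpecAux

open SpecAux

/-! ### weak neighbours -/

theorem One.wn_unique (h : MinCE G B) {v a b : V} (hv : One G B v) (ha : WE G v a)
    (hb : WE G v b) : a = b :=
  wn1 h (SpecAux.One.card h hv) ha hb

theorem One.exists_weak (h : MinCE G B) {v : V} (hv : One G B v) : ∃ a, WE G v a := by
  have h1 := SpecAux.One.card h hv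
  obtain ⟨a, ha⟩ := card_pos.1 (show 0 < (wn G v).card by omega)
  exact ⟨a, mem_wn.1 ha⟩

theorem FF.no_weak (h : MinCE G B) {v a : V} (hv : FF G B v) : ¬ WE G v a := by
  intro ha
  have h1 := card_wn h v
  have h2 := hv.2.1
  have h3 := hv.2.2
  have h4 : (wn G v).card = 0 := by omega
  rw [card_eq_zero] at h4
  have h5 := mem_wn.2 ha
  rw [h4] at h5
  exact notMem_empty _ h5

theorem Thr.no_te (h : MinCE G B) {v a : V} (hv : Thr G B v) : ¬ TE G v a :=
  no_tn h hv.2.2

theorem F04.no_te (h : MinCE G B) {v a : V} (hv : F04 G B v) : ¬ TE G v a :=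
  no_tn h hv.2.2

theorem Ex2.wn_unique (h : MinCE G B) {v a b : V} (hv : Ex2 G B v) (ha : WE G v a)
    (hb : WE G v b) : a = b := by
  have h1 := card_wn h v
  have h2 := hv.2.1
  have h3 := hv.2.2.1
  exact wn1 h (by omega) ha hb

/-- two weak neighbours -/
theorem F12.weak (h : MinCE G B) {v : V} (hv : F12 G B v) : ∃ a b, a ≠ b ∧ WE G v a ∧ WE G v b ∧
    ∀ c, WE G v c → c = a ∨ c = b := by
  have h1 := card_wn h v
  have h2 := hv.2.1
  have h3 := hv.2.2
  have h4 : (wn G v).card = 2 := by omega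
  obtain ⟨a, b, hab, he⟩ := card_eq_two.1 h4
  refine ⟨a, b, hab, mem_wn.1 (by rw [he]; simp), mem_wn.1 (by rw [he]; simp), ?_⟩
  intro c hc
  have h5 := mem_wn.2 hc
  rw [he, mem_insert, mem_singleton] at h5
  exact h5

/-- one triangle -/
theorem one_tri (h : MinCE G B) {v : V} (ht : tt G v = 1) : ∃ a b, a ≠ b ∧ G.Adj v a ∧
    G.Adj v b ∧ G.Adj a b ∧ ∀ c, TE G v c → c = a ∨ c = b := by
  have h1 := card_tn h v
  have h2 : (tn G v).card = 2 := by omega
  obtain ⟨a, b, hab, he⟩ := card_eq_two.1 h2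
  have ha : TE G v a := mem_tn.1 (by rw [he]; simp)
  have hb : TE G v b := mem_tn.1 (by rw [he]; simp)
  have hall : ∀ c, TE G v c → c = a ∨ c = b := by
    intro c hc
    have h5 := mem_tn.2 hc
    rw [he, mem_insert, mem_singleton] at h5
    exact h5
  obtain ⟨hva, w, hvw, haw⟩ := ha
  refine ⟨a, b, hab, hva, hb.1, ?_, hall⟩
  rcases hall w ⟨hvw, a, hva, haw.symm⟩ with h3 | h3
  · exact absurd h3.symm haw.ne
  · rw [← h3]
    exact haw

/-- two triangles -/
theorem two_tri (h : MinCE G B) {v : V} (ht : tt G v = 2) : ∃ a b c d, a ≠ b ∧ c ≠ d ∧ a ≠ c ∧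
    a ≠ d ∧ b ≠ c ∧ b ≠ d ∧ G.Adj v a ∧ G.Adj v b ∧ G.Adj a b ∧ G.Adj v c ∧ G.Adj v d ∧
    G.Adj c d ∧ ¬ G.Adj a c ∧ ¬ G.Adj a d ∧ ¬ G.Adj b c ∧ ¬ G.Adj b d ∧
    ∀ x, TE G v x → x = a ∨ x = b ∨ x = c ∨ x = d := by
  have h1 := card_tn h v
  have h2 : (tn G v).card = 4 := by omega
  obtain ⟨a, ha⟩ := card_pos.1 (show 0 < (tn G v).card by omega)
  obtain ⟨hva, b, hvb, hab⟩ := mem_tn.1 ha
  have hb : b ∈ tn G v := mem_tn.2 ⟨hvb, a, hva, hab.symm⟩
  obtain ⟨c, hc, hcn⟩ : ∃ c ∈ tn G v, c ∉ ({a, b} : Finset V) := by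
    by_contra hcon
    push Not at hcon
    have h3 : tn G v ⊆ {a, b} := hcon
    have h4 := card_le_card h3
    have h5 := card_le_two (a := a) (b := b)
    omega
  rw [mem_insert, mem_singleton, not_or] at hcn
  obtain ⟨hvc, d, hvd, hcd⟩ := mem_tn.1 hc
  have hd : d ∈ tn G v := mem_tn.2 ⟨hvd, c, hvc, hcd.symm⟩
  have nac : ¬ G.Adj a c := fun hac => hcn.2 (apex h hva hvc hac hvb hab)
  have nbc : ¬ G.Adj b c := fun hbc => hcn.1 (apex h hvb hvc hbc hva hab.symm)
  have hda : d ≠ a := by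
    rintro rfl
    exact nac hcd.symm
  have hdb : d ≠ b := by
    rintro rfl
    exact nbc hcd.symm
  have nad : ¬ G.Adj a d := fun had => hdb (apex h hva hvd had hvb hab)
  have nbd : ¬ G.Adj b d := fun hbd => hda (apex h hvb hvd hbd hva hab.symm)
  have hac : a ≠ c := fun e => hcn.1 e.symm
  have hbc : b ≠ c := fun e => hcn.2 e.symm
  refine ⟨a, b, c, d, hab.ne, hcd.ne, hac, hda.symm, hbc, hdb.symm, hva, hvb, hab, hvc, hvd, hcd,
    nac, nad, nbc, nbd, ?_⟩
  have h6 : ({a, b, c, d} : Finset V) = tn G v := by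
    apply eq_of_subset_of_card_le
    · intro x hx
      rw [mem_insert, mem_insert, mem_insert, mem_singleton] at hx
      rcases hx with rfl | rfl | rfl | rfl
      · exact ha
      · exact hb
      · exact hc
      · exact hd
    · rw [h2, card_insert_of_notMem, card_insert_of_notMem, card_pair hcd.ne]
      · rw [mem_insert, mem_singleton, not_or]
        exact ⟨hbc, hdb.symm⟩
      · rw [mem_insert, mem_insert, mem_singleton, not_or, not_or]
        exact ⟨hab.ne, hac, hda.symm⟩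
  intro x hx
  have h7 := mem_tn.2 hx
  rw [← h6, mem_insert, mem_insert, mem_insert, mem_singleton] at h7
  exact h7

/-! ### the apex -/

theorem apx_eq (h : MinCE G B) {a b w : V} (hab : G.Adj a b) (h1 : G.Adj a w) (h2 : G.Adj b w) :
    apx G a b = w := by
  unfold apx
  have hex : ∃ w, G.Adj a w ∧ G.Adj b w := ⟨w, h1, h2⟩
  rw [dif_pos hex]
  exact apex h hab hex.choose_spec.1 hex.choose_spec.2 h1 h2

theorem apx_adj {a b : V} (h : TE G a b) : G.Adj a (apx G a b) ∧ G.Adj b (apx G a b) := by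
  unfold apx
  rw [dif_pos h.2]
  exact h.2.choose_spec

theorem apx_te {a b : V} (h : TE G a b) : TE G a (apx G a b) ∧ TE G b (apx G a b) := by
  obtain ⟨h1, h2⟩ := apx_adj h
  exact ⟨⟨h1, b, h.1, h2.symm⟩, ⟨h2, a, h.1.symm, h1.symm⟩⟩

theorem apx_symm (h : MinCE G B) {a b : V} (hab : TE G a b) : apx G a b = apx G b a := by
  obtain ⟨h1, h2⟩ := apx_adj hab.symm
  exact apx_eq h hab.1 h2 h1

theorem apx_apx (h : MinCE G B) {a b : V} (hab : TE G a b) : apx G a (apx G a b) = b := by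
  obtain ⟨h1, h2⟩ := apx_adj hab
  exact apx_eq h h1 hab.1 h2.symm

theorem apx_ne {a b : V} (h : TE G a b) : apx G a b ≠ a ∧ apx G a b ≠ b := by
  obtain ⟨h1, h2⟩ := apx_adj h
  exact ⟨h1.ne.symm, h2.ne.symm⟩

/-! ### the types -/

namespace SpecAux

lemma ff12 {v : V} (h : FF G B v) : ¬ F12 G B v := fun h' => by
  have h1 := h.2.2
  have h2 := h'.2.2
  omega

lemma f0412 {v : V} (h : F04 G B v) : ¬ F12 G B v := fun h' => by
  have h1 := h.2.2
  have h2 := h'.2.2
  omega

lemma f04ff {v : V} (h : F04 G B v) : ¬ FF G B v := fun h' => by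
  have h1 := h.2.2
  have h2 := h'.2.2
  omega

lemma dg4_12 {v : V} (h : dg G v ≠ 4) : ¬ F12 G B v := fun h' => h h'.2.1
lemma dg4_ff {v : V} (h : dg G v ≠ 4) : ¬ FF G B v := fun h' => h h'.2.1
lemma dg4_04 {v : V} (h : dg G v ≠ 4) : ¬ F04 G B v := fun h' => h h'.2.1
lemma dg5_x2 {v : V} (h : dg G v ≠ 5) : ¬ Ex2 G B v := fun h' => h h'.2.1
lemma dg5_xk {v : V} (h : dg G v ≠ 5) : ¬ ExK G B v := fun h' => h h'.2.1

lemma x2k {v : V} (h : ExK G B v) : ¬ Ex2 G B v := fun h' => by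
  have h1 := h.2.2.1
  have h2 := h'.2.2.1
  omega

lemma x2dg {v : V} (h : Ex2 G B v) : dg G v ≠ 4 := by rw [h.2.1]; omega
lemma xkdg {v : V} (h : ExK G B v) : dg G v ≠ 4 := by rw [h.2.1]; omega
lemma onedg {v : V} (h : One G B v) : dg G v ≠ 4 := by rw [h.2.1]; omega
lemma onedg5 {v : V} (h : One G B v) : dg G v ≠ 5 := by rw [h.2.1]; omega
lemma thrdg {v : V} (h : Thr G B v) : dg G v ≠ 4 := by rw [h.2.1]; omega
lemma thrdg5 {v : V} (h : Thr G B v) : dg G v ≠ 5 := by rw [h.2.1]; omega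
lemma throne {v : V} (h : Thr G B v) : ¬ One G B v := fun h' => by
  have h1 := h.2.2
  have h2 := h'.2.2
  omega

lemma excl3 {v : V} (h3 : One G B v ∨ Thr G B v) :
    ¬ Big G B v ∧ ¬ Free G B v ∧ ¬ FF G B v ∧ ¬ P1c G B v ∧ ¬ F12 G B v ∧ ¬ F04 G B v ∧
    ¬ Ex2 G B v ∧ ¬ ExK G B v := by
  have e4 : dg G v ≠ 4 := by
    rcases h3 with h | h
    · exact onedg h
    · exact thrdg h
  have e5 : dg G v ≠ 5 := by
    rcases h3 with h | h
    · exact onedg5 h
    · exact thrdg5 h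
  refine ⟨?_, fun h => dg4_12 e4 h.1, dg4_ff e4, fun h => dg4_12 e4 h.1, dg4_12 e4, dg4_04 e4,
    dg5_x2 e5, dg5_xk e5⟩
  rcases h3 with h | h
  · exact sig_excl.2.2.2.2.1 h
  · exact sig_excl.2.2.2.2.2 h

/-- the value of `ty` for vertices of degree 3 -/
lemma ty3 {v : V} (h3 : One G B v ∨ Thr G B v) : ty G B v =
    (open Classical in if OneP G B v then Ty.a
    else if OneQ G B v then Ty.b
    else if One G B v then Ty.c
    else if Star G B v then Ty.s
    else Ty.z) := by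
  obtain ⟨e1, e2, e3, e4, e5, e6, e7, e8⟩ := excl3 h3
  unfold ty
  rw [if_neg e1, if_neg e2, if_neg e3, if_neg e4, if_neg e5, if_neg e6, if_neg e7, if_neg e8]

end SpecAux

/-- the value of `ty` from a position in the list -/
lemma SpecAux.ty_ne {v : V} {t : Ty} (h1 : Big G B v → Ty.X ≠ t) (h2 : Free G B v → Ty.f ≠ t)
    (h3 : FF G B v → Ty.F ≠ t) (h4 : P1c G B v → Ty.p ≠ t) (h5 : F12 G B v → Ty.N ≠ t)
    (h6 : F04 G B v → Ty.E ≠ t) (h7 : Ex2 G B v → Ty.G ≠ t) (h8 : ExK G B v → Ty.K ≠ t)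
    (h9 : OneP G B v → Ty.a ≠ t) (h10 : OneQ G B v → Ty.b ≠ t) (h11 : One G B v → Ty.c ≠ t)
    (h12 : Star G B v → Ty.s ≠ t) (h13 : Ty.z ≠ t) : ty G B v ≠ t := by
  unfold ty
  by_cases a1 : Big G B v
  · rw [if_pos a1]
    exact h1 a1
  rw [if_neg a1]
  by_cases a2 : Free G B v
  · rw [if_pos a2]
    exact h2 a2
  rw [if_neg a2]
  by_cases a3 : FF G B v
  · rw [if_pos a3]
    exact h3 a3
  rw [if_neg a3]
  by_cases a4 : P1c G B v
  · rw [if_pos a4]
    exact h4 a4
  rw [if_neg a4]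
  by_cases a5 : F12 G B v
  · rw [if_pos a5]
    exact h5 a5
  rw [if_neg a5]
  by_cases a6 : F04 G B v
  · rw [if_pos a6]
    exact h6 a6
  rw [if_neg a6]
  by_cases a7 : Ex2 G B v
  · rw [if_pos a7]
    exact h7 a7
  rw [if_neg a7]
  by_cases a8 : ExK G B v
  · rw [if_pos a8]
    exact h8 a8
  rw [if_neg a8]
  by_cases a9 : OneP G B v
  · rw [if_pos a9]
    exact h9 a9
  rw [if_neg a9]
  by_cases a10 : OneQ G B v
  · rw [if_pos a10]
    exact h10 a10
  rw [if_neg a10]
  by_cases a11 : One G B v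
  · rw [if_pos a11]
    exact h11 a11
  rw [if_neg a11]
  by_cases a12 : Star G B v
  · rw [if_pos a12]
    exact h12 a12
  rw [if_neg a12]
  exact h13

theorem ty_X {v : V} : ty G B v = .X ↔ Big G B v := by
  constructor
  · intro h
    by_contra hn
    refine SpecAux.ty_ne (fun h => absurd h hn) ?_ ?_ ?_ ?_ ?_ ?_ ?_ ?_ ?_ ?_ ?_ ?_ h <;>
      simp only [ne_eq, reduceCtorEq, not_false_eq_true, implies_true]
  · intro h
    unfold ty
    rw [if_pos h]

theorem ty_f {v : V} : ty G B v = .f ↔ Free G B v := by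
  constructor
  · intro h
    by_contra hn
    refine SpecAux.ty_ne ?_ (fun h => absurd h hn) ?_ ?_ ?_ ?_ ?_ ?_ ?_ ?_ ?_ ?_ ?_ h <;>
      simp only [ne_eq, reduceCtorEq, not_false_eq_true, implies_true]
  · intro h
    unfold ty
    rw [if_neg (sig_excl.1 h.1), if_pos h]

theorem ty_F {v : V} : ty G B v = .F ↔ FF G B v := by
  constructor
  · intro h
    by_contra hn
    refine SpecAux.ty_ne ?_ ?_ (fun h => absurd h hn) ?_ ?_ ?_ ?_ ?_ ?_ ?_ ?_ ?_ ?_ h <;>
      simp only [ne_eq, reduceCtorEq, not_false_eq_true, implies_true]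
  · intro h
    unfold ty
    rw [if_neg (sig_excl.2.1 h), if_neg (fun h' => ff12 h h'.1), if_pos h]

/-- a `P1c` vertex is not `Free` -/
theorem ty_p (h : MinCE G B) {v : V} : ty G B v = .p ↔ P1c G B v := by
  constructor
  · intro h
    by_contra hn
    refine SpecAux.ty_ne ?_ ?_ ?_ (fun h => absurd h hn) ?_ ?_ ?_ ?_ ?_ ?_ ?_ ?_ ?_ h <;>
      simp only [ne_eq, reduceCtorEq, not_false_eq_true, implies_true]
  · intro h1
    have h2 : ¬ Free G B v := by
      intro h2
      obtain ⟨a, b, -, ha, -, -⟩ := F12.weak h h1.1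
      exact h2.2 a ha (Or.inl (h1.2 a ha))
    unfold ty
    rw [if_neg (sig_excl.1 h1.1), if_neg h2, if_neg (fun h' => ff12 h' h1.1), if_pos h1]

theorem ty_N {v : V} : ty G B v = .N ↔ Npay G B v := by
  constructor
  · intro h
    unfold ty at h
    by_cases a1 : Big G B v
    · rw [if_pos a1] at h
      cases h
    by_cases a2 : Free G B v
    · rw [if_neg a1, if_pos a2] at h
      cases h
    by_cases a3 : FF G B v
    · rw [if_neg a1, if_neg a2, if_pos a3] at h
      cases h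
    by_cases a4 : P1c G B v
    · rw [if_neg a1, if_neg a2, if_neg a3, if_pos a4] at h
      cases h
    by_cases a5 : F12 G B v
    · exact ⟨a5, a4, a2⟩
    exfalso
    rw [if_neg a1, if_neg a2, if_neg a3, if_neg a4, if_neg a5] at h
    revert h
    by_cases b1 : F04 G B v
    · rw [if_pos b1]
      intro h
      cases h
    rw [if_neg b1]
    by_cases b2 : Ex2 G B v
    · rw [if_pos b2]
      intro h
      cases h
    rw [if_neg b2]
    by_cases b3 : ExK G B v
    · rw [if_pos b3]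
      intro h
      cases h
    rw [if_neg b3]
    by_cases b4 : OneP G B v
    · rw [if_pos b4]
      intro h
      cases h
    rw [if_neg b4]
    by_cases b5 : OneQ G B v
    · rw [if_pos b5]
      intro h
      cases h
    rw [if_neg b5]
    by_cases b6 : One G B v
    · rw [if_pos b6]
      intro h
      cases h
    rw [if_neg b6]
    by_cases b7 : Star G B v
    · rw [if_pos b7]
      intro h
      cases h
    rw [if_neg b7]
    intro h
    cases h
  · rintro ⟨h1, h2, h3⟩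
    unfold ty
    rw [if_neg (sig_excl.1 h1), if_neg h3, if_neg (fun h' => ff12 h' h1), if_neg h2, if_pos h1]

theorem ty_E {v : V} : ty G B v = .E ↔ F04 G B v := by
  constructor
  · intro h
    by_contra hn
    refine SpecAux.ty_ne ?_ ?_ ?_ ?_ ?_ (fun h => absurd h hn) ?_ ?_ ?_ ?_ ?_ ?_ ?_ h <;>
      simp only [ne_eq, reduceCtorEq, not_false_eq_true, implies_true]
  · intro h
    have h1 := f0412 h
    unfold ty
    rw [if_neg (sig_excl.2.2.1 h), if_neg (fun h' => h1 h'.1), if_neg (f04ff h),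
      if_neg (fun h' => h1 h'.1), if_neg h1, if_pos h]

theorem ty_G {v : V} : ty G B v = .G ↔ Ex2 G B v := by
  constructor
  · intro h
    by_contra hn
    refine SpecAux.ty_ne ?_ ?_ ?_ ?_ ?_ ?_ (fun h => absurd h hn) ?_ ?_ ?_ ?_ ?_ ?_ h <;>
      simp only [ne_eq, reduceCtorEq, not_false_eq_true, implies_true]
  · intro h
    have h1 := dg4_12 (B := B) (x2dg h)
    unfold ty
    rw [if_neg (sig_excl.2.2.2.1 (Or.inl h)), if_neg (fun h' => h1 h'.1),
      if_neg (dg4_ff (x2dg h)), if_neg (fun h' => h1 h'.1), if_neg h1,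
      if_neg (dg4_04 (x2dg h)), if_pos h]

theorem ty_K {v : V} : ty G B v = .K ↔ ExK G B v := by
  constructor
  · intro h
    by_contra hn
    refine SpecAux.ty_ne ?_ ?_ ?_ ?_ ?_ ?_ ?_ (fun h => absurd h hn) ?_ ?_ ?_ ?_ ?_ h <;>
      simp only [ne_eq, reduceCtorEq, not_false_eq_true, implies_true]
  · intro h
    have h1 := dg4_12 (B := B) (xkdg h)
    unfold ty
    rw [if_neg (sig_excl.2.2.2.1 (Or.inr h)), if_neg (fun h' => h1 h'.1),
      if_neg (dg4_ff (xkdg h)), if_neg (fun h' => h1 h'.1), if_neg h1,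
      if_neg (dg4_04 (xkdg h)), if_neg (x2k h), if_pos h]

theorem ty_a {v : V} : ty G B v = .a ↔ OneP G B v := by
  constructor
  · intro h
    by_contra hn
    refine SpecAux.ty_ne ?_ ?_ ?_ ?_ ?_ ?_ ?_ ?_ (fun h => absurd h hn) ?_ ?_ ?_ ?_ h <;>
      simp only [ne_eq, reduceCtorEq, not_false_eq_true, implies_true]
  · intro h
    rw [ty3 (Or.inl h.1), if_pos h]

theorem ty_b (h : MinCE G B) {v : V} : ty G B v = .b ↔ OneQ G B v := by
  constructor
  · intro h
    by_contra hn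
    refine SpecAux.ty_ne ?_ ?_ ?_ ?_ ?_ ?_ ?_ ?_ ?_ (fun h => absurd h hn) ?_ ?_ ?_ h <;>
      simp only [ne_eq, reduceCtorEq, not_false_eq_true, implies_true]
  · intro h1
    have h2 : ¬ OneP G B v := by
      rintro ⟨-, z, hz, hz1⟩
      obtain ⟨h3, y, hy, hy1⟩ := h1
      have h4 := One.wn_unique h h3 hz hy
      subst h4
      have h5 := hz1.2.1
      have h6 := hy1.1.2.1
      omega
    rw [ty3 (Or.inl h1.1), if_neg h2, if_pos h1]

theorem ty_c {v : V} : ty G B v = .c ↔ One G B v ∧ ¬ OneP G B v ∧ ¬ OneQ G B v := by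
  constructor
  · intro h1
    have h2 : One G B v := by
      by_contra hn
      refine SpecAux.ty_ne ?_ ?_ ?_ ?_ ?_ ?_ ?_ ?_ ?_ ?_ (fun h => absurd h hn) ?_ ?_ h1 <;>
        simp only [ne_eq, reduceCtorEq, not_false_eq_true, implies_true]
    rw [ty3 (Or.inl h2)] at h1
    by_cases a1 : OneP G B v
    · rw [if_pos a1] at h1
      cases h1
    by_cases a2 : OneQ G B v
    · rw [if_neg a1, if_pos a2] at h1
      cases h1
    exact ⟨h2, a1, a2⟩
  · rintro ⟨h1, h2, h3⟩
    rw [ty3 (Or.inl h1), if_neg h2, if_neg h3, if_pos h1]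

theorem ty_s {v : V} : ty G B v = .s ↔ Star G B v := by
  constructor
  · intro h1
    by_contra hn
    refine SpecAux.ty_ne ?_ ?_ ?_ ?_ ?_ ?_ ?_ ?_ ?_ ?_ ?_ (fun h => absurd h hn) ?_ h1 <;>
      simp only [ne_eq, reduceCtorEq, not_false_eq_true, implies_true]
  · intro h1
    have h2 := throne h1.1
    rw [ty3 (Or.inr h1.1), if_neg (fun h => h2 h.1), if_neg (fun h => h2 h.1), if_neg h2,
      if_pos h1]

namespace SpecAux

/-- degrees and numbers of triangles of inner vertices -/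
lemma small_cases (h : MinCE G B) {v : V} (hv : ∃ u, G.Adj v u) (hB : ¬ Big G B v)
    (hE : ¬ Exc G B v) : One G B v ∨ Thr G B v ∨ F04 G B v ∨ F12 G B v ∨ FF G B v := by
  have h1 : v ∉ B := fun h1 => hB (Or.inl h1)
  have h2 : dg G v < 5 := by
    by_contra hc
    exact hB (Or.inr ⟨by omega, hE⟩)
  have h3 : 3 ≤ dg G v := deg_three h h1 hv
  have h4 := card_wn h v
  have h5 : (dg G v = 3 ∧ tt G v = 1) ∨ (dg G v = 3 ∧ tt G v = 0) ∨ (dg G v = 4 ∧ tt G v = 0) ∨
      (dg G v = 4 ∧ tt G v = 1) ∨ (dg G v = 4 ∧ tt G v = 2) := by omega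
  rcases h5 with h5 | h5 | h5 | h5 | h5
  · exact Or.inl ⟨h1, h5⟩
  · exact Or.inr (Or.inl ⟨h1, h5⟩)
  · exact Or.inr (Or.inr (Or.inl ⟨h1, h5⟩))
  · exact Or.inr (Or.inr (Or.inr (Or.inl ⟨h1, h5⟩)))
  · exact Or.inr (Or.inr (Or.inr (Or.inr ⟨h1, h5⟩)))

end SpecAux

/-- for vertices which are not isolated -/
theorem ty_z (h : MinCE G B) {v : V} (hv : ∃ u, G.Adj v u) :
    ty G B v = .z ↔ Thr G B v ∧ ¬ Star G B v := by
  constructor
  · intro h1
    have a1 : ¬ Big G B v := fun hb => by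
      rw [ty_X.2 hb] at h1
      cases h1
    have a2 : ¬ Ex2 G B v := fun hb => by
      rw [ty_G.2 hb] at h1
      cases h1
    have a3 : ¬ ExK G B v := fun hb => by
      rw [ty_K.2 hb] at h1
      cases h1
    rcases small_cases h hv a1 (by rintro (h2 | h2); exacts [a2 h2, a3 h2]) with
      h2 | h2 | h2 | h2 | h2
    · exfalso
      rw [ty3 (Or.inl h2)] at h1
      by_cases b1 : OneP G B v
      · rw [if_pos b1] at h1
        cases h1
      by_cases b2 : OneQ G B v
      · rw [if_neg b1, if_pos b2] at h1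
        cases h1
      rw [if_neg b1, if_neg b2, if_pos h2] at h1
      cases h1
    · refine ⟨h2, fun hs => ?_⟩
      rw [ty_s.2 hs] at h1
      cases h1
    · exfalso
      rw [ty_E.2 h2] at h1
      cases h1
    · exfalso
      by_cases b1 : P1c G B v
      · rw [(ty_p h).2 b1] at h1
        cases h1
      by_cases b2 : Free G B v
      · rw [ty_f.2 b2] at h1
        cases h1
      rw [ty_N.2 ⟨h2, b1, b2⟩] at h1
      cases h1
    · exfalso
      rw [ty_F.2 h2] at h1
      cases h1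
  · rintro ⟨h1, h2⟩
    have h3 := throne h1
    rw [ty3 (Or.inr h1), if_neg (fun h => h3 h.1), if_neg (fun h => h3 h.1), if_neg h3,
      if_neg h2]

theorem np_iff {v : V} : (ty G B v).np = true ↔ Np G B v := by
  have h1 : (ty G B v).np = true ↔ ty G B v = .X ∨ ty G B v = .f := by
    cases ty G B v <;> simp [Ty.np]
  rw [h1, ty_X, ty_f]
  rfl

theorem ex_iff {v : V} : (ty G B v).ex = true ↔ Exc G B v := by
  have h1 : (ty G B v).ex = true ↔ ty G B v = .G ∨ ty G B v = .K := by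
    cases ty G B v <;> simp [Ty.ex]
  rw [h1, ty_G, ty_K]
  rfl

theorem sm_iff {v : V} : (ty G B v).sm = true ↔ Sm G B v := by
  unfold Ty.sm Sm
  rw [← np_iff, ← ex_iff]
  simp

theorem dm_iff {v : V} : (ty G B v).dm = true ↔ Dm G B v := by
  have h1 : (ty G B v).dm = true ↔
      ty G B v = .a ∨ ty G B v = .b ∨ ty G B v = .c ∨ ty G B v = .s := by
    cases ty G B v <;> simp [Ty.dm]
  rw [h1]
  constructor
  · rintro (h2 | h2 | h2 | h2)
    · exact Or.inl (ty_a.1 h2).1
    · left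
      by_contra hn
      refine SpecAux.ty_ne ?_ ?_ ?_ ?_ ?_ ?_ ?_ ?_ ?_ (fun h => absurd h.1 hn) ?_ ?_ ?_ h2 <;>
        simp only [ne_eq, reduceCtorEq, not_false_eq_true, implies_true]
    · exact Or.inl (ty_c.1 h2).1
    · exact Or.inr (ty_s.1 h2)
  · rintro (h2 | h2)
    · rw [ty3 (Or.inl h2)]
      split_ifs
      · exact Or.inl rfl
      · exact Or.inr (Or.inl rfl)
      · exact Or.inr (Or.inr (Or.inl rfl))
    · exact Or.inr (Or.inr (Or.inr (ty_s.2 h2)))

theorem t3_iff (h : MinCE G B) {v : V} (hv : ∃ u, G.Adj v u) :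
    (ty G B v).t3 = true ↔ v ∉ B ∧ dg G v = 3 := by
  have h1 : (ty G B v).t3 = true ↔ ty G B v = .z ∨ (ty G B v).dm = true := by
    cases ty G B v <;> simp [Ty.t3, Ty.dm]
  rw [h1, dm_iff, ty_z h hv]
  constructor
  · rintro (h2 | h2 | h2)
    · exact ⟨h2.1.1, h2.1.2.1⟩
    · exact ⟨h2.1, h2.2.1⟩
    · exact ⟨h2.1.1, h2.1.2.1⟩
  · rintro ⟨h2, h3⟩
    have h4 := card_wn h v
    have h5 : tt G v = 0 ∨ tt G v = 1 := by omega
    rcases h5 with h5 | h5
    · by_cases hs : Star G B v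
      · exact Or.inr (Or.inr hs)
      · exact Or.inl ⟨⟨h2, h3, h5⟩, hs⟩
    · exact Or.inr (Or.inl ⟨h2, h3, h5⟩)

/-- a vertex which is not small, not exceptional is big or free; classification of the small
vertices on a triangle edge -/
theorem sm_te (h : MinCE G B) {v a : V} (hv : Sm G B v) (ha : TE G v a) :
    FF G B v ∨ P1c G B v ∨ Npay G B v ∨ One G B v := by
  have h0 := te_pos h ha
  rcases small_cases h ⟨a, ha.1⟩ (fun hb => hv.1 (Or.inl hb)) hv.2 with h2 | h2 | h2 | h2 | h2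
  · exact Or.inr (Or.inr (Or.inr h2))
  · have := h2.2.2
    omega
  · have := h2.2.2
    omega
  · by_cases hp : P1c G B v
    · exact Or.inr (Or.inl hp)
    · exact Or.inr (Or.inr (Or.inl ⟨h2, hp, fun hf => hv.1 (Or.inr hf)⟩))
  · exact Or.inl h2

/-! ### the edges -/

theorem ed_W {a b : V} : ed G B a b = .W ↔ WE G a b := by
  unfold ed
  split_ifs with h1
  · simp [h1]
  · cases ty G B (apx G a b) <;> simp [Ty.ecls, h1]

theorem ed_te {a b : V} (h : TE G a b) : ed G B a b = (ty G B (apx G a b)).ecls := by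
  unfold ed
  rw [if_neg h.not_we]

theorem ed_symm (h : MinCE G B) {a b : V} (hab : G.Adj a b) : ed G B a b = ed G B b a := by
  rcases te_or_we hab with h1 | h1
  · rw [ed_te h1, ed_te h1.symm, apx_symm h h1]
  · rw [ed_W.2 h1, ed_W.2 h1.symm]

theorem ed_V {a b : V} (h : TE G a b) : ed G B a b = .V ↔ OneP G B (apx G a b) := by
  rw [ed_te h, ← ty_a]
  cases ty G B (apx G a b) <;> simp [Ty.ecls]

theorem ed_Q (h : MinCE G B) {a b : V} (hab : TE G a b) :
    ed G B a b = .Q ↔ OneQ G B (apx G a b) := by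
  rw [ed_te hab, ← ty_b h]
  cases ty G B (apx G a b) <;> simp [Ty.ecls]

theorem ed_C (h : MinCE G B) {a b : V} (hab : TE G a b) :
    ed G B a b = .C ↔ P1c G B (apx G a b) := by
  rw [ed_te hab, ← ty_p h]
  cases ty G B (apx G a b) <;> simp [Ty.ecls]

theorem ed_T {a b : V} (h : TE G a b) : ed G B a b = .T ↔ Np G B (apx G a b) := by
  rw [ed_te h, ← np_iff]
  cases ty G B (apx G a b) <;> simp [Ty.ecls, Ty.np]

theorem ed_Z {a b : V} (h : TE G a b) : ed G B a b = .Z ↔ Exc G B (apx G a b) := by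
  rw [ed_te h, ← ex_iff]
  cases ty G B (apx G a b) <;> simp [Ty.ecls, Ty.ex]

/-- `V`, `Q`, `C`, `S`: the apex is small -/
theorem ed_sm {a b : V} (h : TE G a b) : Sm G B (apx G a b) ↔
    ed G B a b = .S ∨ ed G B a b = .V ∨ ed G B a b = .Q ∨ ed G B a b = .C := by
  rw [ed_te h, ← sm_iff]
  cases ty G B (apx G a b) <;> simp [Ty.ecls, Ty.sm, Ty.np, Ty.ex]

end Pool.Agent.Lib.SVY
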