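import Pool.Agent.Lib.SVY.Defs
import Pool.Agent.Lib.SVT.Loc

/-!
# SVY.Tri: triangle edges and weak edges, faces at them

Plan.  `card_wn`, `card_tn`: `wn G v = fr G univ v` (SVT/Loc: `fr_card`), `wn` and `tn` partition
`nb G univ v`.  `apex`: NoC4.  `face_size`: a face is a circuit (`face_cycle`) of length `≥ 3`
(a closed walk without repeated vertices), length 4, 5 are excluded by `NoC4`, `NoC5`.
`te_faces`: the triangle is a face by `cyc3`; the edge has exactly two faces (`two_faces`); the
other face is not a triangle: a triangle on the same edge has the same third vertex (NoC4), so it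
would be the same edge set; if `F i = F j` with `i ≠ j` is this triangle, then by `corner_unique`
every vertex of the triangle has degree at most 2 and `TwoConn` (theorem `two_conn`) and
`exists_inner`, `deg_three` give a contradiction (the three vertices form a component).
`we_faces`: a face of size 3 through the edge would be a triangle.
-/

set_option autoImplicit false
set_option linter.unusedSectionVars false

namespace Pool.Agent.Lib.SVY

open Finset Pool.Agent.Lib.SVT Pool.Agent.Lib.SVX
open Pool.Agent.Lib.SVX.LinkAux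

variable {V : Type*} [Fintype V] [DecidableEq V] {G : SimpleGraph V} {B : Finset V}
variable {m : ℕ} {F : Fin m → Finset (Sym2 V)}

theorem card_wn (h : MinCE G B) (v : V) : (wn G v).card + 2 * tt G v = dg G v := by
  have h1 : wn G v = fr G univ v := by
    ext u
    rw [mem_wn, mem_fr, mem_nb]
    constructor
    · rintro ⟨h2, h3⟩
      refine ⟨⟨mem_univ _, h2⟩, ?_⟩
      intro T hT hu
      obtain ⟨q1, q2⟩ := mem_tr.1 hT
      obtain ⟨x, y, rfl, hxy, r1, r2, r3, -⟩ := tri_cases q1 q2
      rw [mem_insert, mem_insert, mem_singleton] at hu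
      rcases hu with rfl | rfl | rfl
      · exact h2.ne rfl
      · exact h3 ⟨y, r2, r3⟩
      · exact h3 ⟨x, r1, r3.symm⟩
    · rintro ⟨⟨-, h2⟩, h3⟩
      refine ⟨h2, ?_⟩
      rintro ⟨w, h4, h5⟩
      exact h3 {v, u, w} (mem_tr.2 ⟨mk_tri (mem_univ _) (mem_univ _) (mem_univ _) h2 h4 h5,
        by simp⟩) (by simp)
  rw [h1]
  exact fr_card h.good.c4 (mem_univ v)

theorem card_tn (h : MinCE G B) (v : V) : (tn G v).card = 2 * tt G v := by
  have h1 := card_wn h v
  have h2 : (wn G v).card + (tn G v).card = dg G v := by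
    unfold dg
    rw [← card_union_of_disjoint]
    · congr 1
      ext u
      rw [mem_union, mem_wn, mem_tn, mem_nb]
      constructor
      · rintro (h3 | h3)
        · exact ⟨mem_univ _, h3.1⟩
        · exact ⟨mem_univ _, h3.1⟩
      · rintro ⟨-, h3⟩
        exact (te_or_we h3).symm
    · rw [disjoint_left]
      intro u h3 h4
      exact (mem_tn.1 h4).not_we (mem_wn.1 h3)
  omega

/-- the third vertex of the triangle on a triangle edge is unique -/
theorem apex (h : MinCE G B) {a b w w' : V} (hab : G.Adj a b) (h1 : G.Adj a w) (h2 : G.Adj b w)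
    (h3 : G.Adj a w') (h4 : G.Adj b w') : w = w' := by
  by_contra hne
  exact h.good.c4 a w b w' hab.ne hne h1 h2.symm h4 h3.symm

namespace TriAux

/-- every face of size `n ≥ 3` is a ring -/
theorem ring_of (hF : Faces G F) (i : Fin m) (n : ℕ) [NeZero n] (hn : (F i).card = n) :
    3 ≤ n ∧ ∃ c : ZMod n → V, Ring G F i n c := by
  obtain ⟨v, p, hp, hFp⟩ := face_cycle hF i
  have hlen : p.length = n := by
    rw [← hn, hFp, List.toFinset_card_of_nodup hp.isTrail.edges_nodup,
      SimpleGraph.Walk.length_edges]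
  have h3 : 3 ≤ n := by
    rw [← hlen]
    exact hp.three_le_length
  refine ⟨h3, fun j => p.getVert j.val, ?_⟩
  have hsucc : ∀ j : ZMod n, p.getVert (j + 1).val = p.getVert (j.val + 1) := by
    intro j
    have hj := ZMod.val_lt j
    have hval : (j + 1).val = (j.val + 1) % n := by
      rw [ZMod.val_add]
      congr 2
      have : Fact (1 < n) := ⟨by omega⟩
      exact ZMod.val_one n
    by_cases hc : j.val + 1 = n
    · rw [hval, hc, Nat.mod_self, ← hlen, SimpleGraph.Walk.getVert_zero,
        SimpleGraph.Walk.getVert_length]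
    · rw [hval, Nat.mod_eq_of_lt (by omega)]
  have hcyc : IsCyc G n (fun j : ZMod n => p.getVert j.val) := by
    refine ⟨?_, ?_⟩
    · intro x y hxy
      have hx := ZMod.val_lt x
      have hy := ZMod.val_lt y
      exact ZMod.val_injective n (hp.getVert_injOn' (by rw [Set.mem_ofPred_eq]; omega)
        (by rw [Set.mem_ofPred_eq]; omega) hxy)
    · intro j
      have hj := ZMod.val_lt j
      show G.Adj (p.getVert j.val) (p.getVert (j + 1).val)
      rw [hsucc]
      exact p.adj_getVert_succ (by omega)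
  refine ⟨hcyc, ?_⟩
  symm
  apply eq_of_subset_of_card_le
  · intro e he
    obtain ⟨j, rfl⟩ := mem_cycEdges.1 he
    have hj := ZMod.val_lt j
    rw [hFp, List.mem_toFinset, SimpleGraph.Walk.mk_mem_edges_iff_exists]
    refine ⟨j.val, by omega, ?_⟩
    show s(p.getVert j.val, p.getVert (j.val + 1)) = s(p.getVert j.val, p.getVert (j + 1).val)
    rw [hsucc]
  · rw [card_cyc h3 hcyc, hn]

end TriAux

theorem face_size (h : MinCE G B) (hF : Faces G F) (i : Fin m) :
    (F i).card = 3 ∨ 6 ≤ (F i).card := by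
  have h0 : (F i).card ≠ 0 := fun h1 => by
    have := hF.ne i
    rw [card_eq_zero.1 h1] at this
    exact not_nonempty_empty this
  by_cases h4 : (F i).card = 4
  · exfalso
    obtain ⟨-, c, hc, -⟩ := TriAux.ring_of hF i 4 h4
    have hne : ∀ x y : ZMod 4, x ≠ y → c x ≠ c y := fun x y hxy h => hxy (hc.1 h)
    exact h.good.c4 (c 0) (c 1) (c 2) (c 3) (hne _ _ (by clear * -; decide))
      (hne _ _ (by clear * -; decide)) (hc.2 0) (hc.2 1) (hc.2 2) (hc.2 3)
  by_cases h5 : (F i).card = 5
  · exfalso
    obtain ⟨-, c, hc, -⟩ := TriAux.ring_of hF i 5 h5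
    have hne : ∀ x y : ZMod 5, x ≠ y → c x ≠ c y := fun x y hxy h => hxy (hc.1 h)
    exact h.good.c5 (c 0) (c 1) (c 2) (c 3) (c 4) (hne _ _ (by clear * -; decide))
      (hne _ _ (by clear * -; decide)) (hne _ _ (by clear * -; decide))
      (hne _ _ (by clear * -; decide)) (hne _ _ (by clear * -; decide))
      (hc.2 0) (hc.2 1) (hc.2 2) (hc.2 3) (hc.2 4)
  have : NeZero (F i).card := ⟨h0⟩
  have := (TriAux.ring_of hF i (F i).card rfl).1
  omega

namespace TriAux

/-- a face of size 3 is a triangle -/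
theorem tri_of (hF : Faces G F) {i : Fin m} (hi : (F i).card = 3) {a b : V}
    (hab : s(a, b) ∈ F i) : ∃ w, G.Adj a b ∧ G.Adj a w ∧ G.Adj b w ∧
      F i = {s(a, b), s(b, w), s(w, a)} := by
  obtain ⟨-, c, hc, hFc⟩ := ring_of hF i 3 hi
  have key : ∀ j : ZMod 3, F i = {s(c j, c (j + 1)), s(c (j + 1), c (j + 2)), s(c (j + 2), c j)} := by
    intro j
    rw [hFc]
    have e1 : j + 1 + 1 = j + 2 := by clear * -; decide +revert
    have e2 : j + 2 + 1 = j := by clear * -; decide +revert
    ext e
    rw [mem_cycEdges, mem_insert, mem_insert, mem_singleton]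
    constructor
    · rintro ⟨k, rfl⟩
      have hk : k = j ∨ k = j + 1 ∨ k = j + 2 := by clear * -; decide +revert
      rcases hk with rfl | rfl | rfl
      · exact Or.inl rfl
      · rw [e1]
        exact Or.inr (Or.inl rfl)
      · rw [e2]
        exact Or.inr (Or.inr rfl)
    · rintro (rfl | rfl | rfl)
      · exact ⟨j, rfl⟩
      · exact ⟨j + 1, by rw [e1]⟩
      · exact ⟨j + 2, by rw [e2]⟩
  have hadj : ∀ j : ZMod 3, G.Adj (c j) (c (j + 1)) ∧ G.Adj (c (j + 1)) (c (j + 2)) ∧
      G.Adj (c (j + 2)) (c j) := by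
    intro j
    have e1 : j + 1 + 1 = j + 2 := by clear * -; decide +revert
    have e2 : j + 2 + 1 = j := by clear * -; decide +revert
    have a1 := hc.2 j
    have a2 := hc.2 (j + 1)
    have a3 := hc.2 (j + 2)
    rw [e1] at a2
    rw [e2] at a3
    exact ⟨a1, a2, a3⟩
  rw [hFc] at hab
  obtain ⟨j, hj⟩ := mem_cycEdges.1 hab
  have hk := key j
  obtain ⟨a1, a2, a3⟩ := hadj j
  rcases Sym2.eq_iff.1 hj with ⟨rfl, rfl⟩ | ⟨rfl, rfl⟩
  · exact ⟨c (j + 2), a1, a3.symm, a2, hk⟩
  · refine ⟨c (j + 2), a1.symm, a2, a3.symm, ?_⟩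
    rw [hk]
    ext e
    rw [mem_insert, mem_insert, mem_singleton, mem_insert, mem_insert, mem_singleton,
      Sym2.eq_swap (a := c (j + 1)) (b := c j), Sym2.eq_swap (a := c j) (b := c (j + 2)),
      Sym2.eq_swap (a := c (j + 2)) (b := c (j + 1))]
    tauto

end TriAux

/-- the two faces at a triangle edge -/
theorem te_faces (h : MinCE G B) (hF : Faces G F) {a b w : V} (hab : G.Adj a b)
    (h1 : G.Adj a w) (h2 : G.Adj b w) :
    ∃ i j, i ≠ j ∧ F i = {s(a, b), s(b, w), s(w, a)} ∧ s(a, b) ∈ F j ∧ 6 ≤ (F j).card ∧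
      ∀ k, s(a, b) ∈ F k ↔ k = i ∨ k = j := by
  obtain ⟨i, hi⟩ := cyc3 h hF hab h2 h1.symm
  have hiab : s(a, b) ∈ F i := by rw [hi]; simp
  obtain ⟨j, hij, hk⟩ : ∃ j, i ≠ j ∧ ∀ k, s(a, b) ∈ F k ↔ k = i ∨ k = j := by
    obtain ⟨i', j', hij', hk'⟩ := two_faces hF ((SimpleGraph.mem_edgeSet G).2 hab)
    rcases (hk' i).1 hiab with rfl | rfl
    · exact ⟨j', hij', hk'⟩
    · exact ⟨i', hij'.symm, fun k => (hk' k).trans or_comm⟩
  have hjab : s(a, b) ∈ F j := (hk j).2 (Or.inr rfl)
  refine ⟨i, j, hij, hi, hjab, ?_, hk⟩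
  rcases face_size h hF j with h3 | h3
  · exfalso
    obtain ⟨w', -, h4, h5, hj⟩ := TriAux.tri_of hF h3 hjab
    have hw := apex h hab h1 h2 h4 h5
    subst hw
    have h2c := two_conn h
    have hbw : s(b, w) ∈ F i := by rw [hi]; simp
    have hwa : s(w, a) ∈ F i := by rw [hi]; simp
    have hbw' : s(b, w) ∈ F j := by rw [hj]; simp
    have hwa' : s(w, a) ∈ F j := by rw [hj]; simp
    have da : (nb G univ a).card < 3 := by
      by_contra hd
      exact hij (corner_unique hF h2c h2.ne (by omega) hiab (by rw [Sym2.eq_swap]; exact hwa)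
        hjab (by rw [Sym2.eq_swap]; exact hwa'))
    have db : (nb G univ b).card < 3 := by
      by_contra hd
      exact hij (corner_unique hF h2c h1.ne (by omega) (by rw [Sym2.eq_swap]; exact hiab) hbw
        (by rw [Sym2.eq_swap]; exact hjab) hbw')
    have dw : (nb G univ w).card < 3 := by
      by_contra hd
      exact hij (corner_unique hF h2c hab.ne (by omega) hwa (by rw [Sym2.eq_swap]; exact hbw)
        hwa' (by rw [Sym2.eq_swap]; exact hbw'))
    have two : ∀ x y z : V, G.Adj x y → G.Adj x z → y ≠ z → (nb G univ x).card < 3 →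
        ∀ u, G.Adj x u → u = y ∨ u = z := by
      intro x y z hxy hxz hyz hd u hu
      by_contra hc
      push Not at hc
      have h6 : ({u, y, z} : Finset V) ⊆ nb G univ x := by
        intro t ht
        rw [mem_insert, mem_insert, mem_singleton] at ht
        rw [mem_nb]
        rcases ht with rfl | rfl | rfl
        · exact ⟨mem_univ _, hu⟩
        · exact ⟨mem_univ _, hxy⟩
        · exact ⟨mem_univ _, hxz⟩
      have h7 := card_le_card h6
      rw [card_eq_three.2 ⟨u, y, z, hc.1, hc.2, hyz, rfl⟩] at h7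
      omega
    have nbb := two b a w hab.symm h2 h1.ne db
    have nbw := two w a b h1.symm h2.symm hab.ne dw
    obtain ⟨v, hvB, u, hu⟩ := exists_inner h
    have hdv := deg_three h hvB ⟨u, hu⟩
    have hva : v ≠ a := by rintro rfl; omega
    have hvb : v ≠ b := by rintro rfl; omega
    have hvw : v ≠ w := by rintro rfl; omega
    rcases h2c a {x | x = b ∨ x = w} (by
      rintro (h6 | h6)
      · exact hab.ne h6
      · exact h1.ne h6) (by
      intro x y hxy hx
      rcases hx with rfl | rfl
      · rcases nbb y hxy with h6 | h6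
        · exact Or.inr h6
        · exact Or.inl (Or.inr h6)
      · rcases nbw y hxy with h6 | h6
        · exact Or.inr h6
        · exact Or.inl (Or.inl h6)) with h6 | h6
    · exact h6 b (Or.inl rfl) a hab.symm
    · refine h6 v ?_ hva u hu
      rintro (h7 | h7)
      · exact hvb h7
      · exact hvw h7
  · exact h3

/-- the faces at a weak edge have at least 6 edges -/
theorem we_faces (h : MinCE G B) (hF : Faces G F) {a b : V} (hab : WE G a b) {k : Fin m}
    (hk : s(a, b) ∈ F k) : 6 ≤ (F k).card := by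
  rcases face_size h hF k with h1 | h1
  · obtain ⟨w, h2, h3, h4, -⟩ := TriAux.tri_of hF h1 hk
    exact absurd ⟨w, h3, h4⟩ hab.2
  · exact h1

/-- a face of size 3 is a triangle -/
theorem face_tri (hF : Faces G F) {i : Fin m} (hi : (F i).card = 3) {a b : V}
    (hab : s(a, b) ∈ F i) : ∃ w, G.Adj a b ∧ G.Adj a w ∧ G.Adj b w ∧
      F i = {s(a, b), s(b, w), s(w, a)} := by
  exact TriAux.tri_of hF hi hab

/-- every face of size `n ≥ 3` is a ring -/
theorem exists_ring (hF : Faces G F) (i : Fin m) (n : ℕ) [NeZero n] (hn : (F i).card = n) :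
    ∃ c : ZMod n → V, Ring G F i n c := by
  exact (TriAux.ring_of hF i n hn).2

end Pool.Agent.Lib.SVY
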