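import Pool.Agent.Lib.SVY.LocB

/-!
# SVY.LocC: reducible local configurations, more rules for excluded paths

`Loc.cfalseC` is `Loc.cfalse` with the check `echkC`: in addition to `echk`, a path of length 2
between `i` and `j` is excluded by a known path `i - p - q - j` (cycle of length 5) or by a known
path `i - p - q - r - j` with a non-corner (cycle of length 6), a path of length 4 by a common core
neighbour `r` with the non-corner `(r, i, j)` (cycle of length 6), a path of length 1 by a known path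
of length 5 with a non-corner.
-/

set_option autoImplicit false
set_option linter.unusedSectionVars false

namespace Pool.Agent.Lib.SVY

open Finset Pool.Agent.Lib.SVT Pool.Agent.Lib.SVX

namespace Loc

/-- `(q, p, b)` is a known non-corner -/
def ncor (NC : List (ℕ × ℕ × ℕ)) (q p b : ℕ) : Bool := NC.contains (q, p, b) || NC.contains (q, b, p)

/-- a path of length 2 closes a cycle of length 5 with `i - p - q - j` -/
def fiveOK (c : Cfg) (W X s : List (ℕ × ℕ)) (i j p q : ℕ) : Bool :=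
  decide (p < c.N) && decide (q < c.N) && c.adjE i p && c.adjE p q && c.adjE q j && mem2 s i j &&
  mem2 s i q && mem2 s p j && (decide (p < c.nc) || nadj c W X s p j) &&
  (decide (q < c.nc) || nadj c W X s i q)

/-- a path of length 2 closes a cycle of length 6 with `i - p - q - r - j` -/
def sixOK (c : Cfg) (W X s : List (ℕ × ℕ)) (NC : List (ℕ × ℕ × ℕ)) (i j p q r : ℕ) : Bool :=
  decide (p < c.N) && decide (q < c.N) && decide (r < c.N) && c.adjE i p && c.adjE p q &&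
  c.adjE q r && c.adjE r j && mem2 s i j && mem2 s i q && mem2 s i r && mem2 s p r && mem2 s p j &&
  mem2 s q j && (decide (p < c.nc) || nadj c W X s p j) &&
  (decide (q < c.nc) || nadj c W X s i q || nadj c W X s q j) &&
  (decide (r < c.nc) || nadj c W X s i r) &&
  (ncor NC p i q || ncor NC q p r || ncor NC r q j)

/-- an edge closes a cycle of length 6 with `i - p - q - r - t - j` -/
def edgeOK (c : Cfg) (s : List (ℕ × ℕ)) (NC : List (ℕ × ℕ × ℕ)) (i j p q r t : ℕ) : Bool :=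
  c.adjE i p && c.adjE p q && c.adjE q r && c.adjE r t && c.adjE t j && mem2 s i q &&
  mem2 s i r && mem2 s i t && mem2 s i j && mem2 s p r && mem2 s p t && mem2 s p j &&
  mem2 s q t && mem2 s q j && mem2 s r j && (ncor NC p i q || ncor NC q p r || ncor NC r q t ||
    ncor NC t r j)

/-- a path of length 3 closes a cycle of length 7 with `i - p - q - r - j` -/
def sevenOK (c : Cfg) (W X s : List (ℕ × ℕ)) (NC : List (ℕ × ℕ × ℕ)) (i j p q r : ℕ) : Bool :=
  decide (p < c.nc) && decide (q < c.nc) && decide (r < c.nc) && c.adjE i p && c.adjE p q &&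
  c.adjE q r && c.adjE r j && mem2 s i j && mem2 s i q && mem2 s i r && mem2 s p r && mem2 s p j &&
  mem2 s q j && nadj c W X s i q && nadj c W X s p r && nadj c W X s q j && ncor NC q p r

/-- the check of one excluded path -/
def echC (c : Cfg) (W X s : List (ℕ × ℕ)) (NC : List (ℕ × ℕ × ℕ)) (e : ℕ × ℕ × ℕ) : Bool :=
  ech1 c W X s NC e ||
  ((e.2.2 == 4) && mem2 s e.1 e.2.1 && (List.range c.nc).any (fun r =>
    c.adjE e.1 r && c.adjE r e.2.1 && ncor NC r e.1 e.2.1)) ||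
  ((e.2.2 == 2) && (List.range c.N).any (fun p => c.adjE e.1 p &&
    (List.range c.N).any (fun q => c.adjE p q && (fiveOK c W X s e.1 e.2.1 p q ||
      (List.range c.N).any (fun r => c.adjE q r && sixOK c W X s NC e.1 e.2.1 p q r))))) ||
  ((e.2.2 == 1) && (List.range c.N).any (fun p => c.adjE e.1 p &&
    (List.range c.N).any (fun q => c.adjE p q && (List.range c.N).any (fun r => c.adjE q r &&
      (List.range c.N).any (fun t => c.adjE r t && edgeOK c s NC e.1 e.2.1 p q r t))))) ||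
  ((e.2.2 == 3) && (List.range c.nc).any (fun p => c.adjE e.1 p &&
    (List.range c.nc).any (fun q => c.adjE p q && (List.range c.nc).any (fun r => c.adjE q r &&
      sevenOK c W X s NC e.1 e.2.1 p q r))))

/-- the check of the excluded paths -/
def echkC (c : Cfg) (W D X : List (ℕ × ℕ)) (NC : List (ℕ × ℕ × ℕ)) (k : ℕ) : Bool :=
  c.al.all (fun e => decide (e.1 < c.N) && decide (e.2.1 < c.N) &&
    echC c W X (iter c W k D) NC e)

variable {V : Type*} [Fintype V] [DecidableEq V] {G : SimpleGraph V} {B : Finset V}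
variable {m : ℕ} {F : Fin m → Finset (Sym2 V)}

/-- no cycle of length 6 through a non-corner -/
theorem six_false (h : MinCE G B) (hF : Faces G F) {a b c d e f : V}
    (hnd : [a, b, c, d, e, f].Nodup) (h1 : G.Adj a b) (h2 : G.Adj b c) (h3 : G.Adj c d)
    (h4 : G.Adj d e) (h5 : G.Adj e f) (h6 : G.Adj f a)
    (hnc : ¬ Corner F b a c ∨ ¬ Corner F c b d ∨ ¬ Corner F d c e ∨ ¬ Corner F e d f) : False := by
  obtain ⟨i, hi⟩ := cyc6 h hF hnd h1 h2 h3 h4 h5 h6
  rcases hnc with hnc | hnc | hnc | hnc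
  · refine hnc ⟨i, ?_, ?_⟩ <;> rw [hi]
    · rw [Sym2.eq_swap]
      simp
    · simp
  · refine hnc ⟨i, ?_, ?_⟩ <;> rw [hi]
    · rw [Sym2.eq_swap]
      simp
    · simp
  · refine hnc ⟨i, ?_, ?_⟩ <;> rw [hi]
    · rw [Sym2.eq_swap]
      simp
    · simp
  · refine hnc ⟨i, ?_, ?_⟩ <;> rw [hi]
    · rw [Sym2.eq_swap]
      simp
    · simp

/-- no path of length 3 outside `R` from `a` to `b` -/
theorem far4 (h : MinCE G B) (hF : Faces G F) {a p q r b : V} {R : Set V} (hp : p ∈ R)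
    (hq : q ∈ R) (hr : r ∈ R) (e1 : G.Adj a p) (e2 : G.Adj p q) (e3 : G.Adj q r) (e4 : G.Adj r b)
    (hab : a ≠ b) (haq : a ≠ q) (har : a ≠ r) (hpr : p ≠ r) (hpb : p ≠ b) (hqb : q ≠ b)
    (naq : ¬ G.Adj a q) (npr : ¬ G.Adj p r) (nqb : ¬ G.Adj q b) (hnc : ¬ Corner F q p r) :
    ¬ OPath G R a b 3 := by
  rintro ⟨x, y, hx, hy, h1, h2, h3, h4, h5⟩
  have hpx : p ≠ x := fun he => hx (he ▸ hp)
  have hpy : p ≠ y := fun he => hy (he ▸ hp)
  have hqx : q ≠ x := fun he => hx (he ▸ hq)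
  have hqy : q ≠ y := fun he => hy (he ▸ hq)
  have hrx : r ≠ x := fun he => hx (he ▸ hr)
  have hry : r ≠ y := fun he => hy (he ▸ hr)
  have hnd : [a, p, q, r, b, y, x].Nodup := by
    simp only [List.nodup_cons, List.mem_cons, List.not_mem_nil, or_false, not_or,
      not_false_eq_true, List.nodup_nil, and_true]
    exact ⟨⟨e1.ne, haq, har, hab, h2.symm, h3.ne⟩, ⟨e2.ne, hpr, hpb, hpy, hpx⟩,
      ⟨e3.ne, hqb, hqy, hqx⟩, ⟨e4.ne, hry, hrx⟩, ⟨h5.ne.symm, h1.symm⟩, h4.ne.symm⟩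
  have h1' := hnc
  rcases cyc7 h hF hnd e1 e2 e3 e4 h5.symm h4.symm h3.symm with
    ⟨i, hi⟩ | h10 | h10 | h10 | h10 | h10 | h10 | h10
  · refine hnc ⟨i, ?_, ?_⟩
    · rw [hi, Sym2.eq_swap]
      simp
    · rw [hi]
      simp
  · exact naq h10
  · exact npr h10
  · exact nqb h10
  · -- chord `r y`
    have hnd' : [a, p, q, r, y, x].Nodup := by
      simp only [List.nodup_cons, List.mem_cons, List.not_mem_nil, or_false, not_or,
        not_false_eq_true, List.nodup_nil, and_true]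
      exact ⟨⟨e1.ne, haq, har, h2.symm, h3.ne⟩, ⟨e2.ne, hpr, hpy, hpx⟩,
        ⟨e3.ne, hqy, hqx⟩, ⟨hry, hrx⟩, h4.ne.symm⟩
    exact six_false h hF hnd' e1 e2 e3 h10 h4.symm h3.symm (Or.inr (Or.inl hnc))
  · -- chord `b x`
    have hnd' : [a, p, q, r, b, x].Nodup := by
      simp only [List.nodup_cons, List.mem_cons, List.not_mem_nil, or_false, not_or,
        not_false_eq_true, List.nodup_nil, and_true]
      exact ⟨⟨e1.ne, haq, har, hab, h3.ne⟩, ⟨e2.ne, hpr, hpb, hpx⟩,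
        ⟨e3.ne, hqb, hqx⟩, ⟨e4.ne, hrx⟩, h1.symm⟩
    exact six_false h hF hnd' e1 e2 e3 e4 h10 h3.symm (Or.inr (Or.inl hnc))
  · -- chord `y a`
    have hnd' : [a, p, q, r, b, y].Nodup := by
      simp only [List.nodup_cons, List.mem_cons, List.not_mem_nil, or_false, not_or,
        not_false_eq_true, List.nodup_nil, and_true]
      exact ⟨⟨e1.ne, haq, har, hab, h2.symm⟩, ⟨e2.ne, hpr, hpb, hpy⟩,
        ⟨e3.ne, hqb, hqy⟩, ⟨e4.ne, hry⟩, h5.ne.symm⟩
    exact six_false h hF hnd' e1 e2 e3 e4 h5.symm h10 (Or.inr (Or.inl hnc))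
  · -- chord `x p`
    have hnd' : [p, q, r, b, y, x].Nodup := by
      simp only [List.nodup_cons, List.mem_cons, List.not_mem_nil, or_false, not_or,
        not_false_eq_true, List.nodup_nil, and_true]
      exact ⟨⟨e2.ne, hpr, hpb, hpy, hpx⟩, ⟨e3.ne, hqb, hqy, hqx⟩, ⟨e4.ne, hry, hrx⟩,
        ⟨h5.ne.symm, h1.symm⟩, h4.ne.symm⟩
    exact six_false h hF hnd' e2 e3 e4 h5.symm h4.symm h10 (Or.inl hnc)

theorem cor_symm {q p b : V} (h : Corner F q p b) : Corner F q b p := by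
  obtain ⟨i, h1, h2⟩ := h
  exact ⟨i, h2, h1⟩

theorem ncor_nc {NC : List (ℕ × ℕ × ℕ)} {nm : ℕ → V}
    (hNC : ∀ t ∈ NC, ¬ Corner F (nm t.1) (nm t.2.1) (nm t.2.2)) {q p b : ℕ}
    (h : ncor NC q p b = true) : ¬ Corner F (nm q) (nm p) (nm b) := by
  unfold ncor at h
  rw [Bool.or_eq_true, List.contains_iff_mem, List.contains_iff_mem] at h
  rcases h with h | h
  · exact hNC _ h
  · exact fun h' => hNC _ h (cor_symm h')

theorem echC_exc {c : Cfg} {W X s : List (ℕ × ℕ)} {NC : List (ℕ × ℕ × ℕ)} {nm : ℕ → V}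
    (h : MinCE G B) (hF : Faces G F)
    (hf : Facts c W G nm) (hs : DS nm s) (hX : ∀ p ∈ X, ¬ G.Adj (nm p.1) (nm p.2))
    (hdeg : ∀ r, r < c.nc → dg G (nm r) ≤ c.outs r + (nn c r).card)
    (hinj : ∀ i j, i < c.N → j < c.N → nm i = nm j → i = j)
    (hNC : ∀ t ∈ NC, ¬ Corner F (nm t.1) (nm t.2.1) (nm t.2.2))
    {e : ℕ × ℕ × ℕ} (hi : e.1 < c.N) (hj : e.2.1 < c.N) (hr : echC c W X s NC e = true) :
    ¬ OPath G {v | ∃ r, r < c.nc ∧ v = nm r} (nm e.1) (nm e.2.1) e.2.2 := by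
  obtain ⟨i, j, l⟩ := e
  simp only at hi hj ⊢
  unfold echC at hr
  rw [Bool.or_eq_true, Bool.or_eq_true, Bool.or_eq_true, Bool.or_eq_true] at hr
  rcases hr with (((hr | hr) | hr) | hr) | hr
  · exact ech1_exc h hF hf hs hX hdeg hinj hNC (e := (i, j, l)) hi hj hr
  · simp only [Bool.and_eq_true, List.any_eq_true, List.mem_range, beq_iff_eq] at hr
    obtain ⟨⟨h1, h2⟩, r, hrn, ⟨h3, h4⟩, h5⟩ := hr
    have n1 : r < c.N := Nat.lt_of_lt_of_le hrn (Nat.le_add_right _ _)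
    have e1 := hf.edge _ _ hi n1 h3
    have e2 := hf.edge _ _ n1 hj h4
    have n2 := hs.ne h2
    rw [h1]
    rintro ⟨x, y, z, hx, hy, hz, h11, h12, h13, h14, h15, h16, h17, h18, h19⟩
    have hrx : nm r ≠ x := fun he => hx ⟨r, hrn, he.symm⟩
    have hry : nm r ≠ y := fun he => hy ⟨r, hrn, he.symm⟩
    have hrz : nm r ≠ z := fun he => hz ⟨r, hrn, he.symm⟩
    have hnd : [nm i, nm r, nm j, z, y, x].Nodup := by
      simp only [List.nodup_cons, List.mem_cons, List.not_mem_nil, or_false, not_or,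
        not_false_eq_true, List.nodup_nil, and_true]
      exact ⟨⟨e1.ne, n2, h14.symm, h12.symm, h16.ne⟩, ⟨e2.ne, hrz, hry, hrx⟩,
        ⟨h19.ne.symm, h13.symm, h11.symm⟩, ⟨h18.ne.symm, h15.symm⟩, h17.ne.symm⟩
    exact six_false h hF hnd e1 e2 h19.symm h18.symm h17.symm h16.symm
      (Or.inl (ncor_nc hNC h5))
  · simp only [Bool.and_eq_true, List.any_eq_true, List.mem_range, beq_iff_eq] at hr
    obtain ⟨h1, p, hp, h2, q, hq, h3, hr⟩ := hr
    rw [h1]
    rintro ⟨x, hx, h4, h5⟩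
    rw [Bool.or_eq_true] at hr
    rcases hr with hr | hr
    · unfold fiveOK at hr
      simp only [Bool.and_eq_true, Bool.or_eq_true, decide_eq_true_eq] at hr
      obtain ⟨⟨⟨⟨⟨⟨⟨⟨⟨_, _⟩, a1⟩, a2⟩, a3⟩, a4⟩, a5⟩, a6⟩, a7⟩, a8⟩ := hr
      have hpx : nm p ≠ x := by
        intro he
        rcases a7 with a7 | a7
        · exact hx ⟨p, a7, he.symm⟩
        · rw [← he] at h5
          exact nadj_na hf hs hX hp hj a7 h5
      have hqx : nm q ≠ x := by
        intro he
        rcases a8 with a8 | a8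
        · exact hx ⟨q, a8, he.symm⟩
        · rw [← he] at h4
          exact nadj_na hf hs hX hi hq a8 h4
      exact h.good.c5 (nm i) (nm p) (nm q) (nm j) x (hs.ne a5) (hs.ne a4) (hs.ne a6) hpx hqx
        (hf.edge _ _ hi hp a1) (hf.edge _ _ hp hq a2) (hf.edge _ _ hq hj a3) h5.symm h4.symm
    · rw [List.any_eq_true] at hr
      obtain ⟨r, hr1, hr⟩ := hr
      have hrN := List.mem_range.1 hr1
      unfold sixOK at hr
      simp only [Bool.and_eq_true, Bool.or_eq_true, decide_eq_true_eq] at hr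
      obtain ⟨_, ⟨⟨⟨⟨⟨⟨⟨⟨⟨⟨⟨⟨⟨⟨⟨⟨_, _⟩, _⟩, b1⟩, b2⟩, b3⟩, b4⟩, b5⟩, b6⟩, b7⟩, b8⟩, b9⟩, b10⟩, b11⟩,
        b12⟩, b13⟩, b14⟩⟩ := hr
      have hpx : nm p ≠ x := by
        intro he
        rcases b11 with b | b
        · exact hx ⟨p, b, he.symm⟩
        · rw [← he] at h5
          exact nadj_na hf hs hX hp hj b h5
      have hqx : nm q ≠ x := by
        intro he
        rcases b12 with (b | b) | b
        · exact hx ⟨q, b, he.symm⟩
        · rw [← he] at h4
          exact nadj_na hf hs hX hi hq b h4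
        · rw [← he] at h5
          exact nadj_na hf hs hX hq hj b h5
      have hrx : nm r ≠ x := by
        intro he
        rcases b13 with b | b
        · exact hx ⟨r, b, he.symm⟩
        · rw [← he] at h4
          exact nadj_na hf hs hX hi hrN b h4
      have f1 := hf.edge _ _ hi hp b1
      have f2 := hf.edge _ _ hp hq b2
      have f3 := hf.edge _ _ hq hrN b3
      have f4 := hf.edge _ _ hrN hj b4
      have hnd : [nm i, nm p, nm q, nm r, nm j, x].Nodup := by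
        simp only [List.nodup_cons, List.mem_cons, List.not_mem_nil, or_false, not_or,
          not_false_eq_true, List.nodup_nil, and_true]
        exact ⟨⟨f1.ne, hs.ne b6, hs.ne b7, hs.ne b5, h4.ne⟩, ⟨f2.ne, hs.ne b8, hs.ne b9, hpx⟩,
          ⟨f3.ne, hs.ne b10, hqx⟩, ⟨f4.ne, hrx⟩, h5.ne.symm⟩
      refine six_false h hF hnd f1 f2 f3 f4 h5.symm h4.symm ?_
      rcases b14 with (b | b) | b
      · exact Or.inl (ncor_nc hNC b)
      · exact Or.inr (Or.inl (ncor_nc hNC b))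
      · exact Or.inr (Or.inr (Or.inl (ncor_nc hNC b)))
  · simp only [Bool.and_eq_true, List.any_eq_true, List.mem_range, beq_iff_eq] at hr
    obtain ⟨h1, p, hp, h2, q, hq, h3, r, hrN, h4, t, ht, h5, hr⟩ := hr
    rw [h1]
    intro h6
    unfold edgeOK at hr
    simp only [Bool.and_eq_true, Bool.or_eq_true] at hr
    obtain ⟨⟨⟨⟨⟨⟨⟨⟨⟨⟨⟨⟨⟨⟨⟨a1, a2⟩, a3⟩, a4⟩, a5⟩, a6⟩, a7⟩, a8⟩, a9⟩, a10⟩, a11⟩, a12⟩, a13⟩, a14⟩,
      a15⟩, a16⟩ := hr
    have f1 := hf.edge _ _ hi hp a1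
    have f2 := hf.edge _ _ hp hq a2
    have f3 := hf.edge _ _ hq hrN a3
    have f4 := hf.edge _ _ hrN ht a4
    have f5 := hf.edge _ _ ht hj a5
    have hnd : [nm i, nm p, nm q, nm r, nm t, nm j].Nodup := by
      simp only [List.nodup_cons, List.mem_cons, List.not_mem_nil, or_false, not_or,
        not_false_eq_true, List.nodup_nil, and_true]
      exact ⟨⟨f1.ne, hs.ne a6, hs.ne a7, hs.ne a8, hs.ne a9⟩, ⟨f2.ne, hs.ne a10, hs.ne a11,
        hs.ne a12⟩, ⟨f3.ne, hs.ne a13, hs.ne a14⟩, ⟨f4.ne, hs.ne a15⟩, f5.ne⟩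
    refine six_false h hF hnd f1 f2 f3 f4 f5 (SimpleGraph.Adj.symm h6) ?_
    rcases a16 with ((b | b) | b) | b
    · exact Or.inl (ncor_nc hNC b)
    · exact Or.inr (Or.inl (ncor_nc hNC b))
    · exact Or.inr (Or.inr (Or.inl (ncor_nc hNC b)))
    · exact Or.inr (Or.inr (Or.inr (ncor_nc hNC b)))
  · simp only [Bool.and_eq_true, List.any_eq_true, List.mem_range, beq_iff_eq] at hr
    obtain ⟨h1, p, _, _, q, _, _, r, _, _, hr⟩ := hr
    rw [h1]
    unfold sevenOK at hr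
    simp only [Bool.and_eq_true, decide_eq_true_eq] at hr
    obtain ⟨⟨⟨⟨⟨⟨⟨⟨⟨⟨⟨⟨⟨⟨⟨⟨a1, a2⟩, a3⟩, a4⟩, a5⟩, a6⟩, a7⟩, a8⟩, a9⟩, a10⟩, a11⟩, a12⟩, a13⟩, a14⟩,
      a15⟩, a16⟩, a17⟩ := hr
    have n1 : p < c.N := Nat.lt_of_lt_of_le a1 (Nat.le_add_right _ _)
    have n2 : q < c.N := Nat.lt_of_lt_of_le a2 (Nat.le_add_right _ _)
    have n3 : r < c.N := Nat.lt_of_lt_of_le a3 (Nat.le_add_right _ _)
    exact far4 h hF (R := {v | ∃ r, r < c.nc ∧ v = nm r}) ⟨p, a1, rfl⟩ ⟨q, a2, rfl⟩ ⟨r, a3, rfl⟩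
      (hf.edge _ _ hi n1 a4) (hf.edge _ _ n1 n2 a5) (hf.edge _ _ n2 n3 a6) (hf.edge _ _ n3 hj a7)
      (hs.ne a8) (hs.ne a9) (hs.ne a10) (hs.ne a11) (hs.ne a12) (hs.ne a13)
      (nadj_na hf hs hX hi n2 a14) (nadj_na hf hs hX n1 n3 a15) (nadj_na hf hs hX n2 hj a16)
      (ncor_nc hNC a17)

/-- the pairs of `X` are in `X0` or an edge closes a cycle of length 6 with a non-corner -/
def xchk (c : Cfg) (W D X0 X : List (ℕ × ℕ)) (NC : List (ℕ × ℕ × ℕ)) (k : ℕ) : Bool :=
  X.all (fun e => X0.contains e || (decide (e.1 < c.N) && decide (e.2 < c.N) &&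
    (List.range c.N).any (fun p => c.adjE e.1 p &&
      (List.range c.N).any (fun q => c.adjE p q && (List.range c.N).any (fun r => c.adjE q r &&
        (List.range c.N).any (fun t => c.adjE r t &&
          edgeOK c (iter c W k D) NC e.1 e.2 p q r t))))))

theorem xchk_na {c : Cfg} {W D X0 X : List (ℕ × ℕ)} {NC : List (ℕ × ℕ × ℕ)} {k : ℕ} {nm : ℕ → V}
    (h : MinCE G B) (hF : Faces G F)
    (hf : Facts c W G nm) (hs : DS nm (iter c W k D))
    (hX0 : ∀ p ∈ X0, ¬ G.Adj (nm p.1) (nm p.2))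
    (hNC : ∀ t ∈ NC, ¬ Corner F (nm t.1) (nm t.2.1) (nm t.2.2))
    (hr : xchk c W D X0 X NC k = true) : ∀ p ∈ X, ¬ G.Adj (nm p.1) (nm p.2) := by
  intro e he
  unfold xchk at hr
  have hr := List.all_eq_true.1 hr e he
  rw [Bool.or_eq_true, List.contains_iff_mem] at hr
  rcases hr with hr | hr
  · exact hX0 _ hr
  simp only [Bool.and_eq_true, List.any_eq_true, List.mem_range, decide_eq_true_eq] at hr
  obtain ⟨⟨hi, hj⟩, p, hp, h2, q, hq, h3, r, hrN, h4, t, ht, h5, hr⟩ := hr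
  intro h6
  unfold edgeOK at hr
  simp only [Bool.and_eq_true, Bool.or_eq_true] at hr
  obtain ⟨⟨⟨⟨⟨⟨⟨⟨⟨⟨⟨⟨⟨⟨⟨a1, a2⟩, a3⟩, a4⟩, a5⟩, a6⟩, a7⟩, a8⟩, a9⟩, a10⟩, a11⟩, a12⟩, a13⟩, a14⟩,
    a15⟩, a16⟩ := hr
  have f1 := hf.edge _ _ hi hp a1
  have f2 := hf.edge _ _ hp hq a2
  have f3 := hf.edge _ _ hq hrN a3
  have f4 := hf.edge _ _ hrN ht a4
  have f5 := hf.edge _ _ ht hj a5
  have hnd : [nm e.1, nm p, nm q, nm r, nm t, nm e.2].Nodup := by
    simp only [List.nodup_cons, List.mem_cons, List.not_mem_nil, or_false, not_or,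
      not_false_eq_true, List.nodup_nil, and_true]
    exact ⟨⟨f1.ne, hs.ne a6, hs.ne a7, hs.ne a8, hs.ne a9⟩, ⟨f2.ne, hs.ne a10, hs.ne a11,
      hs.ne a12⟩, ⟨f3.ne, hs.ne a13, hs.ne a14⟩, ⟨f4.ne, hs.ne a15⟩, f5.ne⟩
  refine six_false h hF hnd f1 f2 f3 f4 f5 (SimpleGraph.Adj.symm h6) ?_
  rcases a16 with ((b | b) | b) | b
  · exact Or.inl (ncor_nc hNC b)
  · exact Or.inr (Or.inl (ncor_nc hNC b))
  · exact Or.inr (Or.inr (Or.inl (ncor_nc hNC b)))
  · exact Or.inr (Or.inr (Or.inr (ncor_nc hNC b)))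

/-- a reducible small configuration; the pairs of `X0` are assumed to be nonadjacent, the other ones
of `X` are derived -/
theorem cfalseC {c : Cfg} {par : ℕ → ℕ} {W D X X0 : List (ℕ × ℕ)} {NC : List (ℕ × ℕ × ℕ)} {k : ℕ}
    {nm : ℕ → V} (hadm : c.adm par = true) (hchk : lchk c W D X k = true)
    (hech : echkC c W D X NC k = true) (hxc : xchk c W D X0 X NC k = true) (hl : c.ListOK) (h : MinCE G B) (hF : Faces G F)
    (hE : ∀ e ∈ c.E ++ c.Bs, G.Adj (nm e.1) (nm e.2)) (hW : ∀ p ∈ W, WE G (nm p.1) (nm p.2))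
    (hD : ∀ p ∈ D, nm p.1 ≠ nm p.2) (hX0 : ∀ p ∈ X0, ¬ G.Adj (nm p.1) (nm p.2))
    (hNC : ∀ t ∈ NC, ¬ Corner F (nm t.1) (nm t.2.1) (nm t.2.2))
    (hH : ∀ i ∈ hlist c, nm i ∉ B ∧ dg G (nm i) ≤ dmax c i) : False := by
  have hedge : ∀ i j, i < c.N → j < c.N → c.adjE i j = true → G.Adj (nm i) (nm j) := by
    intro i j _ _ hij
    unfold Cfg.adjE at hij
    simp only [Bool.or_eq_true, List.contains_iff_mem] at hij
    rcases hij with ((h1 | h1) | h1) | h1
    · exact hE (i, j) (List.mem_append_left _ h1)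
    · exact (hE (j, i) (List.mem_append_left _ h1)).symm
    · exact hE (i, j) (List.mem_append_right _ h1)
    · exact (hE (j, i) (List.mem_append_right _ h1)).symm
  have hf : Facts c W G nm := ⟨h.good.c4, h.good.c5, hedge, hW⟩
  have hDS : DS nm D := hD
  have hcN : ∀ r, r < c.nc → r < c.N := fun r hr => Nat.lt_of_lt_of_le hr (Nat.le_add_right _ _)
  have hcH : ∀ r, r < c.nc → c.inH r = true := by
    intro r hr
    unfold Cfg.inH
    rw [Bool.or_eq_true]
    exact Or.inl (decide_eq_true hr)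
  have hTN : ∀ t, c.isT t = true → c.nc ≤ t ∧ t < c.N := by
    intro t ht
    unfold Cfg.isT at ht
    rw [Bool.and_eq_true, decide_eq_true_eq, decide_eq_true_eq] at ht
    exact ht
  have hTH : ∀ t, c.isT t = true → c.sm t = true → c.inH t = true := by
    intro t ht hs'
    unfold Cfg.inH
    rw [ht, hs']
    simp
  have hcard : ∀ (p : ℕ → Bool), ((List.range c.N).filter p).length =
      ((Finset.range c.N).filter (fun j => p j = true)).card := by
    intro p
    rw [← List.toFinset_card_of_nodup (List.nodup_range.filter p)]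
    congr 1
    ext a
    simp
  have hdegc : ∀ r, r < c.nc → dg G (nm r) ≤ c.outs r + (nn c r).card := by
    intro r hr
    have h1 := (hH r (List.mem_filter.2 ⟨List.mem_range.2 (hcN r hr), hcH r hr⟩)).2
    unfold dmax at h1
    rw [if_pos hr, hcard] at h1
    exact h1
  have hdegs : ∀ t, c.isT t = true → c.sm t = true → dg G (nm t) ≤ c.outs t + (nh c t).card := by
    intro t ht hs'
    have h1 := (hH t (List.mem_filter.2 ⟨List.mem_range.2 (hTN t ht).2, hTH t ht hs'⟩)).2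
    unfold dmax at h1
    rw [if_neg (Nat.not_lt.2 (hTN t ht).1), hcard] at h1
    have h2 : nh c t = (Finset.range c.N).filter (fun j => (c.adjE t j && c.inH j) = true) := by
      unfold nh
      refine Finset.filter_congr ?_
      intro j _
      rw [Bool.and_eq_true]
    rw [h2]
    exact h1
  -- injectivity
  have hchk' := hchk
  unfold lchk at hchk'
  rw [Bool.and_eq_true, List.all_eq_true, List.all_eq_true] at hchk'
  have hs := DS.iter hf k hDS
  have hX : ∀ p ∈ X, ¬ G.Adj (nm p.1) (nm p.2) := xchk_na h hF hf hs hX0 hNC hxc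
  have hne : ∀ i j, j < i → i < c.N → nm j ≠ nm i := by
    intro i j hji hi
    have h3 := hchk'.1 i (List.mem_range.2 hi)
    rw [List.all_eq_true] at h3
    exact hs.ne (h3 j (List.mem_range.2 hji))
  have hinj : ∀ i j, i < c.N → j < c.N → nm i = nm j → i = j := by
    intro i j hi hj hij
    rcases lt_trichotomy i j with hlt | heq | hlt
    · exact absurd hij (hne j i hlt hj)
    · exact heq
    · exact absurd hij.symm (hne i j hlt hi)
  refine cfg_false hadm hl h (inst hchk hf hDS hX ?_ hdegc hdegs ?_)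
  · intro i hi hiH
    exact (hH i (List.mem_filter.2 ⟨List.mem_range.2 hi, hiH⟩)).1
  · intro i j l _ _ _ hex
    unfold echkC at hech
    rw [List.all_eq_true] at hech
    unfold Cfg.excl at hex
    rw [Bool.or_eq_true, List.contains_iff_mem, List.contains_iff_mem] at hex
    rcases hex with hex | hex
    · have h1 := hech _ hex
      rw [Bool.and_eq_true, Bool.and_eq_true, decide_eq_true_eq, decide_eq_true_eq] at h1
      exact echC_exc h hF hf hs hX hdegc hinj hNC h1.1.1 h1.1.2 h1.2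
    · have h1 := hech _ hex
      rw [Bool.and_eq_true, Bool.and_eq_true, decide_eq_true_eq, decide_eq_true_eq] at h1
      exact fun h' => echC_exc h hF hf hs hX hdegc hinj hNC h1.1.1 h1.1.2 h1.2 (opathSymm h')

end Loc

end Pool.Agent.Lib.SVY
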