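import Pool.Agent.Lib.SVY.CodesA
import Pool.Agent.Lib.SVY.LocC

/-!
# SVY.CodesB: reducible 6-faces with a `P1c` vertex

The fields `f0`, `f1` of `CF`.
-/

set_option autoImplicit false
set_option linter.unusedSectionVars false

namespace Pool.Agent.Lib.SVY

open Finset Pool.Agent.Lib.SVT Pool.Agent.Lib.SVX

variable {V : Type*} [Fintype V] [DecidableEq V] {G : SimpleGraph V} {B : Finset V}
variable {m : ℕ} {F : Fin m → Finset (Sym2 V)}

open CodesAAux

namespace CodesBAux

/-- a triangle neighbour of a ring vertex whose ring edges are weak -/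
theorem pn_tri (h : MinCE G B) {i : Fin m} {c : ZMod 6 → V} (hR : Ring G F i 6 c) {j : ZMod 6}
    (hw : ∀ k, (k = j + 1 ∨ j = k + 1) → WE G (c j) (c k)) {x : V} (hx : TE G (c j) x) :
    Off c x ∧ G.Adj x (c j) ∧ ∀ k, k ≠ j → ¬ G.Adj x (c k) := by
  have hoff : Off c x := by
    intro k hk
    rw [hk] at hx
    exact hx.not_we (hw k (ring_chord h hR hx.1))
  refine ⟨hoff, hx.1.symm, ?_⟩
  intro k hk hadj
  have h1 := L0 h hR hoff (Ne.symm hk) hx.1.symm hadj
  exact (hw k h1).2 ⟨x, hx.1, hadj.symm⟩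

/-- `F12` vertex `v` with triangle `v a b` and weak neighbours `x`, `y`: if `a`, `x` are consecutive
then `b`, `x` are not -/
theorem not_corner (h : MinCE G B) (hF : Faces G F) {v a b x y : V} (hv : F12 G B v)
    (e1 : G.Adj v a) (e2 : G.Adj v b) (e3 : G.Adj a b) (w1 : WE G v x) (w2 : WE G v y)
    (hxy : x ≠ y) {i : Fin m} (h1 : s(v, a) ∈ F i) (h2 : s(v, x) ∈ F i) :
    ¬ Corner F v b x := by
  rintro ⟨k, k1, k2⟩
  obtain ⟨⟨j, j1, j2⟩, -⟩ := F12.opp h hF hv e1 e2 e3 w1 w2 hxy h1 h2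
  have tb : TE G v b := ⟨e2, a, e1, e3.symm⟩
  have hkj : k = j := te_nt_unique h hF tb (we_nt h hF w1 k2) (we_nt h hF w2 j2) k1 j1
  have nbx : b ≠ x := by
    rintro rfl
    exact tb.not_we w1
  rcases face_two hF nbx k1 k2 (hkj ▸ j2) with h3 | h3
  · rw [h3] at w2
    exact tb.not_we w2
  · exact hxy h3.symm

end CodesBAux

open CodesBAux

theorem code_f0 (h : MinCE G B) (hF : Faces G F) : ∀ i (c : ZMod 6 → V), Ring G F i 6 c →
    OneQ G B (c 0) → FF G B (c 1) → FF G B (c 2) →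
    FF G B (c 3) → OneQ G B (c 4) → P1c G B (c 5) → WE G (c 4) (c 5) → WE G (c 5) (c 0) →
    Sm G B (apx G (c 0) (c 1)) → Sm G B (apx G (c 3) (c 4)) → False := by
  intro i c hR k0 k1 k2 k3 k4 k5 w45 w50 hs hs'
  have t0 : TE G (c 0) (c 1) := FF.te' h k1 (hR.cyc.2 0)
  have t1 : TE G (c 1) (c 2) := FF.te h k1 (hR.cyc.2 1)
  have t2 : TE G (c 2) (c 3) := FF.te h k2 (hR.cyc.2 2)
  have t3 : TE G (c 3) (c 4) := FF.te h k3 (hR.cyc.2 3)
  have hte : ∀ j, RD.rF0_te j = true → TE G (c j) (c (j + 1)) := by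
    intro j hj
    rcases z6 j with rfl | rfl | rfl | rfl | rfl | rfl
    · exact t0
    · exact t1
    · exact t2
    · exact t3
    · exact absurd hj (by decide)
    · exact absurd hj (by decide)
  have hd : ∀ j, 3 ≤ dg G (c j) := by
    intro j
    rcases z6 j with rfl | rfl | rfl | rfl | rfl | rfl
    · rw [k0.1.2.1]
    · rw [k1.2.1]; omega
    · rw [k2.2.1]; omega
    · rw [k3.2.1]; omega
    · rw [k4.1.2.1]
    · rw [k5.1.2.1]; omega
  obtain ⟨p, q, hpq, hp, hq, hpq', -⟩ := one_tri h k5.1.2.2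
  have hw : ∀ k, (k = (5 : ZMod 6) + 1 ∨ 5 = k + 1) → WE G (c 5) (c k) := by
    intro k hk
    have hk' : k = 0 ∨ k = 4 := by
      revert hk
      clear * -
      decide +revert
    rcases hk' with rfl | rfl
    · exact w50
    · exact w45.symm
  have tp : TE G (c 5) p := ⟨hp, q, hq, hpq'⟩
  have tq : TE G (c 5) q := ⟨hq, p, hp, hpq'.symm⟩
  have hpn : ∀ (j : ZMod 6) (a : ℕ), Nm.pn j a ∈ RD.rF0_l → (j = 5 ∧ a = 2) ∨ (j = 5 ∧ a = 3) := by
    intro j a hj
    revert hj
    simp [RD.rF0_l]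
  have ho : Occ G c RD.rF0_l (rsem G c (fun _ => c 0) (fun _ a => if a = 2 then p else q)) := by
    refine rsem_occ h hR ?_ ?_ ?_ ?_ ?_
    · intro j hj
      apply hte
      rcases z6 j with rfl | rfl | rfl | rfl | rfl | rfl
      · rfl
      · rfl
      · rfl
      · rfl
      · exact absurd hj (by decide)
      · exact absurd hj (by decide)
    · intro j hj
      exfalso
      revert hj
      simp [RD.rF0_l]
    · intro j hj
      exfalso
      revert hj
      simp [RD.rF0_l]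
    · intro j a hj
      rcases hpn j a hj with ⟨rfl, rfl⟩ | ⟨rfl, rfl⟩
      · exact pn_tri h hR hw tp
      · exact pn_tri h hR hw tq
    · intro j a b ha hb hab
      rcases hpn j a ha with ⟨rfl, rfl⟩ | ⟨rfl, rfl⟩ <;>
      rcases hpn _ b hb with ⟨e, rfl⟩ | ⟨e, rfl⟩
      · rfl
      · exact absurd hab hpq
      · exact absurd hab.symm hpq
      · rfl
  refine ring_code (D := fun a => if a = 0 ∨ a = 4 then 3 else 4) h hF hR hd
    RD.rF0_adm RD.rF0_ok RD.rF0_rchk (by decide) rfl (by decide) ho hte ?_ ?_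
  · intro a b ha hb hab hn
    have key : (List.range 12).all (fun a => (List.range 12).all (fun b =>
        !(RD.rF0.adjE a b) || (RD.rF0_l.getD a (.rg 0)).adj (RD.rF0_l.getD b (.rg 0)) ||
        (decide (a = 10) && decide (b = 11)) || (decide (a = 11) && decide (b = 10)))) = true := by
      clear * -
      decide
    rw [List.all_eq_true] at key
    have key1 := key a (List.mem_range.2 ha)
    rw [List.all_eq_true] at key1
    have key2 := key1 b (List.mem_range.2 hb)
    rw [hab, hn] at key2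
    simp only [Bool.not_true, Bool.false_or, Bool.or_eq_true, Bool.and_eq_true,
      decide_eq_true_eq] at key2
    rcases key2 with ⟨rfl, rfl⟩ | ⟨rfl, rfl⟩
    · exact hpq'
    · exact hpq'.symm
  · intro a ha hiH
    have ha' : a < 12 := ha
    interval_cases a
    · exact ⟨k0.1.1, k0.1.2.1.le⟩
    · exact ⟨k1.1, k1.2.1.le⟩
    · exact ⟨k2.1, k2.2.1.le⟩
    · exact ⟨k3.1, k3.2.1.le⟩
    · exact ⟨k4.1.1, k4.1.2.1.le⟩
    · exact ⟨k5.1.1, k5.1.2.1.le⟩
    · exact sm_deg hs
    · exact absurd hiH (by decide)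
    · exact absurd hiH (by decide)
    · exact sm_deg hs'
    · exact absurd hiH (by decide)
    · exact absurd hiH (by decide)

theorem code_f1 (h : MinCE G B) (hF : Faces G F) : ∀ i (c : ZMod 6 → V), Ring G F i 6 c →
    OneQ G B (c 0) → FF G B (c 1) → FF G B (c 2) →
    FF G B (c 3) → FF G B (c 4) → P1c G B (c 5) → WE G (c 5) (c 0) →
    Sm G B (apx G (c 0) (c 1)) → Sm G B (apx G (c 4) (c 5)) → False := by
  intro i c hR k0 k1 k2 k3 k4 k5 w50 hs hs'
  have t0 : TE G (c 0) (c 1) := FF.te' h k1 (hR.cyc.2 0)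
  have t1 : TE G (c 1) (c 2) := FF.te h k1 (hR.cyc.2 1)
  have t2 : TE G (c 2) (c 3) := FF.te h k2 (hR.cyc.2 2)
  have t3 : TE G (c 3) (c 4) := FF.te h k3 (hR.cyc.2 3)
  have t4 : TE G (c 4) (c 5) := FF.te h k4 (hR.cyc.2 4)
  have hte : ∀ j, RD.rf1_te j = true → TE G (c j) (c (j + 1)) := by
    intro j hj
    rcases z6 j with rfl | rfl | rfl | rfl | rfl | rfl
    · exact t0
    · exact t1
    · exact t2
    · exact t3
    · exact t4
    · exact absurd hj (by decide)
  have hd : ∀ j, 3 ≤ dg G (c j) := by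
    intro j
    rcases z6 j with rfl | rfl | rfl | rfl | rfl | rfl
    · rw [k0.1.2.1]
    · rw [k1.2.1]; omega
    · rw [k2.2.1]; omega
    · rw [k3.2.1]; omega
    · rw [k4.2.1]; omega
    · rw [k5.1.2.1]; omega
  obtain ⟨n, hn0, wn5, on⟩ := p1c_other (w := c 0) h k5
  have pn5 := pn_weak h hR wn5 (j := 5) hn0 (by
    rintro rfl
    exact t4.symm.not_we wn5)
  have hpn : ∀ (j : ZMod 6) (a : ℕ), Nm.pn j a ∈ RD.rf1_l → j = 5 ∧ a = 0 := by
    intro j a hj
    revert hj
    simp [RD.rf1_l]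
  have ho : Occ G c RD.rf1_l (rsem G c (fun _ => c 0) (fun _ _ => n)) := by
    refine rsem_occ h hR ?_ ?_ ?_ ?_ ?_
    · intro j hj
      apply hte
      rcases z6 j with rfl | rfl | rfl | rfl | rfl | rfl
      · rfl
      · rfl
      · rfl
      · rfl
      · rfl
      · exact absurd hj (by decide)
    · intro j hj
      exfalso
      revert hj
      simp [RD.rf1_l]
    · intro j hj
      exfalso
      revert hj
      simp [RD.rf1_l]
    · intro j a hj
      obtain ⟨rfl, rfl⟩ := hpn j a hj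
      exact pn5
    · intro j a b ha hb _
      obtain ⟨rfl, rfl⟩ := hpn j a ha
      obtain ⟨-, rfl⟩ := hpn _ b hb
      rfl
  set sem := rsem G c (fun _ => c 0) (fun _ _ => n) with hsem
  have hdc : dchk RD.rf10 (fun a => if a = 0 ∨ a = 11 then 3 else 4) = true := by decide
  obtain ⟨d1, d2⟩ := dchk_sound hdc
  have hH : ∀ a, a < 12 → RD.rf10.inH a = true → sem (RD.rf1_l.getD a (.rg 0)) ∉ B ∧
      dg G (sem (RD.rf1_l.getD a (.rg 0))) ≤ (if a = 0 ∨ a = 11 then 3 else 4) := by
    intro a ha hiH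
    interval_cases a
    · exact ⟨k0.1.1, k0.1.2.1.le⟩
    · exact ⟨k1.1, k1.2.1.le⟩
    · exact ⟨k2.1, k2.2.1.le⟩
    · exact ⟨k3.1, k3.2.1.le⟩
    · exact ⟨k4.1, k4.2.1.le⟩
    · exact ⟨k5.1.1, k5.1.2.1.le⟩
    · exact sm_deg hs
    · exact absurd hiH (by decide)
    · exact absurd hiH (by decide)
    · exact absurd hiH (by decide)
    · exact sm_deg hs'
    · exact ⟨on.1, on.2.1.le⟩
  have hin0 : Inst RD.rf10 G B (fun a => sem (RD.rf1_l.getD a (.rg 0))) := by
    refine ring_inst h hF hR hd rfl (by decide) RD.rf1_rchk ho hte ?_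
      (fun a ha hiH => (hH a ha hiH).1) ?_ ?_
    · intro a b ha hb hab hn
      have h1 := echkN_sound (cf := RD.rf10) (l := RD.rf1_l) (by decide) ha hb hab
      rw [hn] at h1
      exact absurd h1 (by decide)
    · intro a ha
      have ha' : a < 6 := ha
      refine (hH a (by omega) ?_).2.trans (d1 a ha)
      unfold Cfg.inH
      rw [decide_eq_true ha, Bool.true_or]
    · intro a h1 h2
      have haN : a < 12 := by
        have h3 := h1
        unfold Cfg.isT at h3
        rw [Bool.and_eq_true, decide_eq_true_eq, decide_eq_true_eq] at h3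
        exact h3.2
      refine (hH a haN ?_).2.trans (d2 a h1 h2)
      unfold Cfg.inH
      rw [h1, h2]
      simp
  -- the path of length 3 between the apexes
  obtain ⟨a4, a5⟩ := apx_adj t4
  obtain ⟨b0, b1⟩ := apx_adj t0
  have hnc : ¬ Corner F (c 5) (apx G (c 4) (c 5)) (c 0) := by
    refine not_corner h hF k5.1 (a := c 4) (y := n) t4.1.symm a5 a4 w50 wn5 hn0.symm
      (i := i) (Ring.mem' hR 5) (Ring.mem hR 5)
  have o0 : Off c (apx G (c 0) (c 1)) := apx_off h hR t0
  have o4 : Off c (apx G (c 4) (c 5)) := apx_off h hR t4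
  have hne : apx G (c 0) (c 1) ≠ apx G (c 4) (c 5) := by
    intro he
    have h1 := ho.ax 0 (by decide)
    have h2 := ho.ax 4 (by decide)
    have h3 := occ_inj h hF hR hd ho (x := .ax 0) (y := .ax 4) (by decide) (by decide) he
    exact absurd h3 (by decide)
  have hpath : ¬ OPath G {v | ∃ r, r < RD.rf1.nc ∧ v = sem (RD.rf1_l.getD r (.rg 0))}
      (apx G (c 0) (c 1)) (apx G (c 4) (c 5)) 3 := by
    rintro ⟨x, y, hx, hy, hxb, hya, h1, h2, h3⟩
    have hrg : ∀ j : ZMod 6, c j ∈ {v | ∃ r, r < RD.rf1.nc ∧ v = sem (RD.rf1_l.getD r (.rg 0))} := by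
      intro j
      rcases z6 j with rfl | rfl | rfl | rfl | rfl | rfl
      · exact ⟨0, by decide, rfl⟩
      · exact ⟨1, by decide, rfl⟩
      · exact ⟨2, by decide, rfl⟩
      · exact ⟨3, by decide, rfl⟩
      · exact ⟨4, by decide, rfl⟩
      · exact ⟨5, by decide, rfl⟩
    have hxo : ∀ j, x ≠ c j := fun j he => hx (he ▸ hrg j)
    have hyo : ∀ j, y ≠ c j := fun j he => hy (he ▸ hrg j)
    refine Loc.six_false h hF (a := apx G (c 4) (c 5)) (b := c 5) (c := c 0)
      (d := apx G (c 0) (c 1)) (e := x) (f := y) ?_ a5.symm w50.1 b0 h1 h2 h3 (Or.inl hnc)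
    simp only [List.nodup_cons, List.mem_cons, List.not_mem_nil, or_false, not_or,
      not_false_eq_true, List.nodup_nil, and_true]
    exact ⟨⟨o4 5, o4 0, hne.symm, hxb.symm, h3.ne.symm⟩,
      ⟨w50.1.ne, (o0 5).symm, (hxo 5).symm, (hyo 5).symm⟩,
      ⟨(o0 0).symm, (hxo 0).symm, (hyo 0).symm⟩, ⟨h1.ne, hya.symm⟩, h2.ne⟩
  have hin : Inst RD.rf1 G B (fun a => sem (RD.rf1_l.getD a (.rg 0))) := by
    refine ⟨hin0.inj, hin0.coreB, hin0.edge, hin0.out, hin0.small, ?_⟩
    intro a b l ha hb hab hex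
    have key : ∀ e ∈ RD.rf1.al, e ∈ RD.rf10.al ∨ e = (6, 10, 3) := by
      clear * -
      decide
    unfold Cfg.excl at hex
    rw [Bool.or_eq_true, List.contains_iff_mem, List.contains_iff_mem] at hex
    rcases hex with hex | hex
    · rcases key _ hex with h1 | h1
      · exact hin0.exc a b l ha hb hab (by
          unfold Cfg.excl
          rw [Bool.or_eq_true]
          exact Or.inl (List.contains_iff_mem.2 h1))
      · simp only [Prod.mk.injEq] at h1
        obtain ⟨rfl, rfl, rfl⟩ := h1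
        exact hpath
    · rcases key _ hex with h1 | h1
      · exact hin0.exc a b l ha hb hab (by
          unfold Cfg.excl
          rw [Bool.or_eq_true]
          exact Or.inr (List.contains_iff_mem.2 h1))
      · simp only [Prod.mk.injEq] at h1
        obtain ⟨rfl, rfl, rfl⟩ := h1
        exact fun h' => hpath (Loc.opathSymm h')
  exact cfg_false RD.rf1_adm RD.rf1_ok h hin

end Pool.Agent.Lib.SVY
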