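import Pool.Agent.Lib.SVY.Far

/-!
# SVY.LocB: reducible local configurations

`Loc.cfalse`: a small configuration with all excluded paths checked (`echk`): a path of length 1 by
nonadjacency, of length 2, 3 by a common core neighbour, all lengths by `far` (path `a - p - q - b`
in the core, `(q, p, b)` in the list `NC` of non-corners).
-/

set_option autoImplicit false
set_option linter.unusedSectionVars false

namespace Pool.Agent.Lib.SVY

open Finset Pool.Agent.Lib.SVT Pool.Agent.Lib.SVX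

namespace Loc

/-- the path `i - t.2.1 - t.1 - j` excludes all outside paths from `i` to `j = t.2.2` -/
def farOK (c : Cfg) (W X s : List (ℕ × ℕ)) (i j : ℕ) (t : ℕ × ℕ × ℕ) : Bool :=
  (t.2.2 == j) && decide (t.1 < c.nc) && decide (t.2.1 < c.nc) && c.adjE i t.2.1 &&
  c.adjE t.2.1 t.1 && c.adjE t.1 j && mem2 s i j && mem2 s i t.1 && mem2 s t.2.1 j &&
  nadj c W X s i t.1 && nadj c W X s t.2.1 j &&
  (mem2 W t.1 j || ((c.outs t.1 == 0) && (List.range c.N).all (fun u =>
    !(c.adjE t.1 u) || decide (u < c.nc) || (u == j) || nadj c W X s u j)))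

/-- the check of one excluded path -/
def ech1 (c : Cfg) (W X s : List (ℕ × ℕ)) (NC : List (ℕ × ℕ × ℕ)) (e : ℕ × ℕ × ℕ) : Bool :=
  ((e.2.2 == 1) && nadj c W X s e.1 e.2.1) ||
  ((e.2.2 == 2 || e.2.2 == 3) && mem2 s e.1 e.2.1 &&
    (List.range c.nc).any (fun r => c.adjE e.1 r && c.adjE r e.2.1)) ||
  NC.any (fun t => farOK c W X s e.1 e.2.1 t || farOK c W X s e.2.1 e.1 t)

/-- the check of the excluded paths -/
def echk (c : Cfg) (W D X : List (ℕ × ℕ)) (NC : List (ℕ × ℕ × ℕ)) (k : ℕ) : Bool :=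
  c.al.all (fun e => decide (e.1 < c.N) && decide (e.2.1 < c.N) &&
    ech1 c W X (iter c W k D) NC e)

variable {V : Type*} [Fintype V] [DecidableEq V] {G : SimpleGraph V} {B : Finset V}
variable {m : ℕ} {F : Fin m → Finset (Sym2 V)}

theorem farOK_far {c : Cfg} {W X s : List (ℕ × ℕ)} {nm : ℕ → V} (h : MinCE G B) (hF : Faces G F)
    (hf : Facts c W G nm) (hs : DS nm s) (hX : ∀ p ∈ X, ¬ G.Adj (nm p.1) (nm p.2))
    (hdeg : ∀ r, r < c.nc → dg G (nm r) ≤ c.outs r + (nn c r).card)
    (hinj : ∀ i j, i < c.N → j < c.N → nm i = nm j → i = j)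
    {i j : ℕ} (hi : i < c.N) (hj : j < c.N) {t : ℕ × ℕ × ℕ}
    (hNC : ¬ Corner F (nm t.1) (nm t.2.1) (nm t.2.2)) (hr : farOK c W X s i j t = true) (l : ℕ) :
    ¬ OPath G {v | ∃ r, r < c.nc ∧ v = nm r} (nm i) (nm j) l := by
  unfold farOK at hr
  simp only [Bool.and_eq_true, decide_eq_true_eq, beq_iff_eq] at hr
  obtain ⟨⟨⟨⟨⟨⟨⟨⟨⟨⟨⟨h1, h2⟩, h3⟩, h4⟩, h5⟩, h6⟩, h7⟩, h8⟩, h9⟩, h10⟩, h11⟩, h12⟩ := hr
  have n1 : t.1 < c.N := Nat.lt_of_lt_of_le h2 (Nat.le_add_right _ _)
  have n2 : t.2.1 < c.N := Nat.lt_of_lt_of_le h3 (Nat.le_add_right _ _)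
  rw [h1] at hNC
  refine far h hF (R := {v | ∃ r, r < c.nc ∧ v = nm r}) (p := nm t.2.1) (q := nm t.1)
    ⟨_, h3, rfl⟩ ⟨_, h2, rfl⟩ (hf.edge _ _ hi n2 h4)
    (hf.edge _ _ n2 n1 h5) (hf.edge _ _ n1 hj h6) (hs.ne h7) (hs.ne h8) (hs.ne h9)
    (nadj_na hf hs hX hi n1 h10) (nadj_na hf hs hX n2 hj h11) hNC ?_ l
  intro u hu h13 h14
  rw [Bool.or_eq_true] at h12
  rcases h12 with h12 | h12
  · exact (hf.we h12).2 ⟨u, h13, h14.symm⟩
  · rw [Bool.and_eq_true, beq_iff_eq, List.all_eq_true] at h12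
    obtain ⟨h15, h16⟩ := h12
    -- all neighbours of `nm t.1` are named
    have h17 : ∃ a, a < c.N ∧ c.adjE t.1 a = true ∧ u = nm a := by
      by_contra hno
      have h18 : (nn c t.1).image nm ⊆ (nb G univ (nm t.1)).erase u := by
        intro v hv
        obtain ⟨a, ha, rfl⟩ := Finset.mem_image.1 hv
        obtain ⟨ha1, ha2⟩ := Finset.mem_filter.1 ha
        refine Finset.mem_erase.2 ⟨fun he => hno ⟨a, Finset.mem_range.1 ha1, ha2, he.symm⟩, ?_⟩
        exact mem_nb.2 ⟨mem_univ _, hf.edge _ _ n1 (Finset.mem_range.1 ha1) ha2⟩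
      have h19 : ((nn c t.1).image nm).card = (nn c t.1).card := by
        refine Finset.card_image_of_injOn ?_
        intro a ha b hb hab
        exact hinj a b (Finset.mem_range.1 (Finset.mem_filter.1 (Finset.mem_coe.1 ha)).1)
          (Finset.mem_range.1 (Finset.mem_filter.1 (Finset.mem_coe.1 hb)).1) hab
      have h20 : u ∈ nb G univ (nm t.1) := mem_nb.2 ⟨mem_univ _, h13⟩
      have h21 := Finset.card_le_card h18
      rw [h19, Finset.card_erase_of_mem h20] at h21
      have h22 := hdeg t.1 h2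
      have h23 : 0 < (nb G univ (nm t.1)).card := Finset.card_pos.2 ⟨u, h20⟩
      rw [h15] at h22
      unfold dg at h22
      omega
    obtain ⟨a, ha, hta, rfl⟩ := h17
    have h18 := h16 a (List.mem_range.2 ha)
    simp only [Bool.or_eq_true, Bool.not_eq_true', decide_eq_true_eq, beq_iff_eq] at h18
    rcases h18 with ((h18 | h18) | h18) | h18
    · rw [h18] at hta
      exact absurd hta (by decide)
    · exact hu ⟨a, h18, rfl⟩
    · rw [h18] at h14
      exact h14.ne rfl
    · exact nadj_na hf hs hX ha hj h18 h14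

theorem ech1_exc {c : Cfg} {W X s : List (ℕ × ℕ)} {NC : List (ℕ × ℕ × ℕ)} {nm : ℕ → V}
    (h : MinCE G B) (hF : Faces G F)
    (hf : Facts c W G nm) (hs : DS nm s) (hX : ∀ p ∈ X, ¬ G.Adj (nm p.1) (nm p.2))
    (hdeg : ∀ r, r < c.nc → dg G (nm r) ≤ c.outs r + (nn c r).card)
    (hinj : ∀ i j, i < c.N → j < c.N → nm i = nm j → i = j)
    (hNC : ∀ t ∈ NC, ¬ Corner F (nm t.1) (nm t.2.1) (nm t.2.2))
    {e : ℕ × ℕ × ℕ} (hi : e.1 < c.N) (hj : e.2.1 < c.N) (hr : ech1 c W X s NC e = true) :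
    ¬ OPath G {v | ∃ r, r < c.nc ∧ v = nm r} (nm e.1) (nm e.2.1) e.2.2 := by
  unfold ech1 at hr
  rw [Bool.or_eq_true, Bool.or_eq_true] at hr
  rcases hr with (hr | hr) | hr
  · rw [Bool.and_eq_true, beq_iff_eq] at hr
    rw [hr.1]
    exact nadj_na hf hs hX hi hj hr.2
  · simp only [Bool.and_eq_true, List.any_eq_true, List.mem_range, Bool.or_eq_true,
      beq_iff_eq] at hr
    obtain ⟨⟨h1, h2⟩, r, hrn, h3, h4⟩ := hr
    have n1 : r < c.N := Nat.lt_of_lt_of_le hrn (Nat.le_add_right _ _)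
    have e1 := hf.edge _ _ hi n1 h3
    have e2 := hf.edge _ _ n1 hj h4
    have n2 := hs.ne h2
    rcases h1 with h1 | h1
    · rw [h1]
      rintro ⟨x, hx, h5, h6⟩
      have hrx : nm r ≠ x := fun he => hx ⟨r, hrn, he.symm⟩
      exact hf.c4 _ _ _ _ n2 hrx e1 e2 h6.symm h5.symm
    · rw [h1]
      rintro ⟨x, y, hx, hy, h7, h8, h5, h6, h9⟩
      have hrx : nm r ≠ x := fun he => hx ⟨r, hrn, he.symm⟩
      have hry : nm r ≠ y := fun he => hy ⟨r, hrn, he.symm⟩
      exact hf.c5 _ _ _ _ _ n2 h8.symm hry hrx h7.symm e1 e2 h9.symm h6.symm h5.symm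
  · rw [List.any_eq_true] at hr
    obtain ⟨t, ht, hr⟩ := hr
    rw [Bool.or_eq_true] at hr
    rcases hr with hr | hr
    · exact farOK_far h hF hf hs hX hdeg hinj hi hj (hNC t ht) hr _
    · exact fun h' => farOK_far h hF hf hs hX hdeg hinj hj hi (hNC t ht) hr _ (opathSymm h')

/-- the vertices of the recoloured part -/
def hlist (c : Cfg) : List ℕ := (List.range c.N).filter (fun i => c.inH i)

/-- the degree bound which is needed -/
def dmax (c : Cfg) (i : ℕ) : ℕ :=
  c.outs i + if i < c.nc then ((List.range c.N).filter (fun j => c.adjE i j)).length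
    else ((List.range c.N).filter (fun j => c.adjE i j && c.inH j)).length

/-- a reducible small configuration -/
theorem cfalse {c : Cfg} {par : ℕ → ℕ} {W D X : List (ℕ × ℕ)} {NC : List (ℕ × ℕ × ℕ)} {k : ℕ}
    {nm : ℕ → V} (hadm : c.adm par = true) (hchk : lchk c W D X k = true)
    (hech : echk c W D X NC k = true) (hl : c.ListOK) (h : MinCE G B) (hF : Faces G F)
    (hE : ∀ e ∈ c.E ++ c.Bs, G.Adj (nm e.1) (nm e.2)) (hW : ∀ p ∈ W, WE G (nm p.1) (nm p.2))
    (hD : ∀ p ∈ D, nm p.1 ≠ nm p.2) (hX : ∀ p ∈ X, ¬ G.Adj (nm p.1) (nm p.2))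
    (hNC : ∀ t ∈ NC, ¬ Corner F (nm t.1) (nm t.2.1) (nm t.2.2))
    (hH : ∀ i ∈ hlist c, nm i ∉ B ∧ dg G (nm i) ≤ dmax c i) : False := by
  have hedge : ∀ i j, i < c.N → j < c.N → c.adjE i j = true → G.Adj (nm i) (nm j) := by
    intro i j _ _ hij
    unfold Cfg.adjE at hij
    simp only [Bool.or_eq_true, List.contains_iff_mem] at hij
    rcases hij with ((h1 | h1) | h1) | h1
    · exact hE (i, j) (List.mem_append_left _ h1)
    · exact (hE (j, i) (List.mem_append_left _ h1)).symm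
    · exact hE (i, j) (List.mem_append_right _ h1)
    · exact (hE (j, i) (List.mem_append_right _ h1)).symm
  have hf : Facts c W G nm := ⟨h.good.c4, h.good.c5, hedge, hW⟩
  have hDS : DS nm D := hD
  have hcN : ∀ r, r < c.nc → r < c.N := fun r hr => Nat.lt_of_lt_of_le hr (Nat.le_add_right _ _)
  have hcH : ∀ r, r < c.nc → c.inH r = true := by
    intro r hr
    unfold Cfg.inH
    rw [Bool.or_eq_true]
    exact Or.inl (decide_eq_true hr)
  have hTN : ∀ t, c.isT t = true → c.nc ≤ t ∧ t < c.N := by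
    intro t ht
    unfold Cfg.isT at ht
    rw [Bool.and_eq_true, decide_eq_true_eq, decide_eq_true_eq] at ht
    exact ht
  have hTH : ∀ t, c.isT t = true → c.sm t = true → c.inH t = true := by
    intro t ht hs'
    unfold Cfg.inH
    rw [ht, hs']
    simp
  have hcard : ∀ (p : ℕ → Bool), ((List.range c.N).filter p).length =
      ((Finset.range c.N).filter (fun j => p j = true)).card := by
    intro p
    rw [← List.toFinset_card_of_nodup (List.nodup_range.filter p)]
    congr 1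
    ext a
    simp
  have hdegc : ∀ r, r < c.nc → dg G (nm r) ≤ c.outs r + (nn c r).card := by
    intro r hr
    have h1 := (hH r (List.mem_filter.2 ⟨List.mem_range.2 (hcN r hr), hcH r hr⟩)).2
    unfold dmax at h1
    rw [if_pos hr, hcard] at h1
    exact h1
  have hdegs : ∀ t, c.isT t = true → c.sm t = true → dg G (nm t) ≤ c.outs t + (nh c t).card := by
    intro t ht hs'
    have h1 := (hH t (List.mem_filter.2 ⟨List.mem_range.2 (hTN t ht).2, hTH t ht hs'⟩)).2
    unfold dmax at h1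
    rw [if_neg (Nat.not_lt.2 (hTN t ht).1), hcard] at h1
    have h2 : nh c t = (Finset.range c.N).filter (fun j => (c.adjE t j && c.inH j) = true) := by
      unfold nh
      refine Finset.filter_congr ?_
      intro j _
      rw [Bool.and_eq_true]
    rw [h2]
    exact h1
  -- injectivity
  have hchk' := hchk
  unfold lchk at hchk'
  rw [Bool.and_eq_true, List.all_eq_true, List.all_eq_true] at hchk'
  have hs := DS.iter hf k hDS
  have hne : ∀ i j, j < i → i < c.N → nm j ≠ nm i := by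
    intro i j hji hi
    have h3 := hchk'.1 i (List.mem_range.2 hi)
    rw [List.all_eq_true] at h3
    exact hs.ne (h3 j (List.mem_range.2 hji))
  have hinj : ∀ i j, i < c.N → j < c.N → nm i = nm j → i = j := by
    intro i j hi hj hij
    rcases lt_trichotomy i j with hlt | heq | hlt
    · exact absurd hij (hne j i hlt hj)
    · exact heq
    · exact absurd hij.symm (hne i j hlt hi)
  refine cfg_false hadm hl h (inst hchk hf hDS hX ?_ hdegc hdegs ?_)
  · intro i hi hiH
    exact (hH i (List.mem_filter.2 ⟨List.mem_range.2 hi, hiH⟩)).1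
  · intro i j l _ _ _ hex
    unfold echk at hech
    rw [List.all_eq_true] at hech
    unfold Cfg.excl at hex
    rw [Bool.or_eq_true, List.contains_iff_mem, List.contains_iff_mem] at hex
    rcases hex with hex | hex
    · have h1 := hech _ hex
      rw [Bool.and_eq_true, Bool.and_eq_true, decide_eq_true_eq, decide_eq_true_eq] at h1
      exact ech1_exc h hF hf hs hX hdegc hinj hNC h1.1.1 h1.1.2 h1.2
    · have h1 := hech _ hex
      rw [Bool.and_eq_true, Bool.and_eq_true, decide_eq_true_eq, decide_eq_true_eq] at h1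
      exact fun h' => ech1_exc h hF hf hs hX hdegc hinj hNC h1.1.1 h1.1.2 h1.2 (opathSymm h')

end Loc

end Pool.Agent.Lib.SVY
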