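import Pool.Agent.Lib.SVY.RingN
import Pool.Agent.Lib.SVY.Facts

/-!
# SVY.Bal: the balance of vertices and faces
-/

set_option autoImplicit false
set_option linter.unusedSectionVars false

namespace Pool.Agent.Lib.SVY

open Finset Pool.Agent.Lib.SVT Pool.Agent.Lib.SVX

variable {V : Type*} [Fintype V] [DecidableEq V] {G : SimpleGraph V} {B : Finset V}
variable {m : ℕ} {F : Fin m → Finset (Sym2 V)} {i : Fin m}

/-- what a vertex gives -/
noncomputable def out (G : SimpleGraph V) (B : Finset V) (F : Fin m → Finset (Sym2 V)) (v : V) : ℤ :=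
  ∑ u, CC G B v u + ∑ i, Af G B F v i

/-- what a vertex receives -/
noncomputable def inn (G : SimpleGraph V) (B : Finset V) (F : Fin m → Finset (Sym2 V)) (v : V) : ℤ :=
  ∑ q, CC G B q v + ∑ i, Bf G B F i v

noncomputable def bal (G : SimpleGraph V) (B : Finset V) (F : Fin m → Finset (Sym2 V)) (v : V) : ℤ :=
  4 * qv G v + inn G B F v - out G B F v

noncomputable def fb (G : SimpleGraph V) (B : Finset V) (F : Fin m → Finset (Sym2 V)) (i : Fin m) :
    ℤ :=
  4 * qf F i + ∑ q, Af G B F q i - ∑ v, Bf G B F i v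

theorem sum_bal (G : SimpleGraph V) (B : Finset V) (F : Fin m → Finset (Sym2 V)) :
    ∑ v, bal G B F v + ∑ i, fb G B F i = 4 * (∑ v, qv G v + ∑ i, qf F i) := by
  unfold bal fb inn out
  have h1 : ∑ v, ∑ q, CC G B q v = ∑ v, ∑ u, CC G B v u := Finset.sum_comm
  have h2 : ∑ v, ∑ i, Bf G B F i v = ∑ i, ∑ v, Bf G B F i v := Finset.sum_comm
  have h3 : ∑ v, ∑ i, Af G B F v i = ∑ i, ∑ v, Af G B F v i := Finset.sum_comm
  simp only [Finset.sum_sub_distrib, Finset.sum_add_distrib, ← Finset.mul_sum, h1, h2, h3]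
  ring

theorem C1_nonneg (q u : V) : 0 ≤ C1 G B q u := by
  unfold C1
  split_ifs <;> norm_num

theorem Cd_nonneg (q u : V) : 0 ≤ Cd G B q u := by
  unfold Cd
  positivity

theorem Cb_nonneg (q u : V) : 0 ≤ Cb G B q u := by
  unfold Cb
  split_ifs <;> norm_num

theorem cp_ge (g v y : V) : 2 ≤ cp G B g v y := by
  unfold cp
  split_ifs <;> norm_num

theorem cq_nonneg (y : V) : 0 ≤ cq G B y := by
  unfold cq
  split_ifs <;> norm_num

theorem Ce_nonneg (q u : V) : 0 ≤ Ce G B q u := by
  unfold Ce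
  have h1 := cp_ge (G := G) (B := B) q u (apx G q u)
  have h2 := cq_nonneg (G := G) (B := B) (apx G q u)
  split_ifs
  all_goals first
    | positivity
    | (refine add_nonneg (by linarith) (add_nonneg (Finset.sum_nonneg fun v _ => cq_nonneg _) (by linarith)))
    | (refine add_nonneg (by linarith) (by linarith))
    | linarith
    | (refine add_nonneg le_rfl (add_nonneg (Finset.sum_nonneg fun v _ => cq_nonneg _) (by linarith)))
    | (refine add_nonneg le_rfl le_rfl)

theorem CC_nonneg (q u : V) : 0 ≤ CC G B q u := by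
  unfold CC
  have h1 := C1_nonneg (G := G) (B := B) q u
  have h2 := Cd_nonneg (G := G) (B := B) q u
  have h3 := Cb_nonneg (G := G) (B := B) q u
  have h4 := Ce_nonneg (G := G) (B := B) q u
  linarith

theorem Bf_nonneg (i : Fin m) (v : V) : 0 ≤ Bf G B F i v := by
  unfold Bf
  split_ifs <;> norm_num

theorem inn_nonneg (v : V) : 0 ≤ inn G B F v :=
  add_nonneg (Finset.sum_nonneg fun q _ => CC_nonneg q v)
    (Finset.sum_nonneg fun i _ => Bf_nonneg i v)

end Pool.Agent.Lib.SVY
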