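import Pool.Agent.Lib.SVY.OutA

/-!
# SVY.BalA: the balance of the inner vertices except `OneP` and `P1c`

Plan.  `4 * qv = 8 dg - 4 tt - 24`; `w` the number of weak neighbours, `dg = w + 2 tt` (`card_wn`),
`3 ≤ dg` if `v` is not isolated (`deg_three`; isolated: everything is 0).
`One` (not `OneP`): charge -4, gives 0, the weak neighbour is not `One` and gives 4 (`C1`).
`Thr`: charge 0; not `Star`: no `Dm` weak neighbour (`One`: it would be `Star`; `Star`: `LF.l1`);
`Star`: one `One` neighbour (two: `LF.l1`), no `Star` neighbour (`l1`): gives 4, the two other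
neighbours are not `One` and give 2 each.
`FF`: 0, no weak neighbour.  `Free`: 4, `c1 = 0`, darts 4.  `Npay`: 4, at most 4: exactly one `Dm`
neighbour (not both `One`; a `Star` and a `Dm`: `LF.l2`: `o, s, v, d`).  `F04`: 8, at most two `Dm`
neighbours (`LF.c2`).  `Ex2`: 8, `out_ex2`.  `ExK`: 12, three weak neighbours.  `Big` with degree at
least 5: `8 w + 12 tt - 24 - 4 tt - 4 #Dm` where `#Dm ≤ w`, and `#Dm < w` if `dg = 5` and `tt ≥ 1`
(not `Ex2`, `ExK`), and if `dg = 5`, `tt = 0` (`LF.c3`).
-/

set_option autoImplicit false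
set_option linter.unusedSectionVars false

namespace Pool.Agent.Lib.SVY

open Finset Pool.Agent.Lib.SVT Pool.Agent.Lib.SVX

variable {V : Type*} [Fintype V] [DecidableEq V] {G : SimpleGraph V} {B : Finset V}
variable {m : ℕ} {F : Fin m → Finset (Sym2 V)} {i : Fin m}

namespace BalAAux

open Classical in
/-- the `Dm` weak neighbours -/
noncomputable def dn (G : SimpleGraph V) (B : Finset V) (v : V) : Finset V :=
  univ.filter (fun u => WE G v u ∧ Dm G B u)

lemma mem_dn {v u : V} : u ∈ dn G B v ↔ WE G v u ∧ Dm G B u := by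
  classical
  unfold dn
  rw [mem_filter]
  exact ⟨fun h => h.2, fun h => ⟨mem_univ _, h⟩⟩

lemma c1_dn (v : V) : ∑ u, C1 G B v u ≤ 4 * ((dn G B v).card : ℤ) := c1_le v

lemma dn_sub (v : V) : dn G B v ⊆ wn G v := by
  intro u hu
  rw [mem_wn]
  exact (mem_dn.1 hu).1

lemma dn_le (v : V) : (dn G B v).card ≤ (wn G v).card := card_le_card (dn_sub v)

lemma dn_lt {v u : V} (h1 : WE G v u) (h2 : ¬ Dm G B u) : (dn G B v).card < (wn G v).card := by
  apply card_lt_card
  rw [ssubset_iff_of_subset (dn_sub v)]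
  exact ⟨u, mem_wn.2 h1, fun h3 => h2 (mem_dn.1 h3).2⟩

lemma Dm.inn {u : V} (hu : Dm G B u) : Inn G B 3 u := by
  rcases hu with hu | hu
  · exact ⟨hu.1, hu.2.1.le⟩
  · exact ⟨hu.1.1, hu.1.2.1.le⟩

lemma WE.nadj {v a b : V} (ha : WE G v a) (hb : G.Adj v b) : ¬ G.Adj a b :=
  fun h1 => ha.2 ⟨b, hb, h1⟩

lemma inn_ge (q v : V) : CC G B q v ≤ inn G B F v := by
  unfold inn
  have h1 : CC G B q v ≤ ∑ q, CC G B q v :=
    single_le_sum (f := fun q => CC G B q v) (fun x _ => CC_nonneg x v) (mem_univ q)
  have h2 : 0 ≤ ∑ i, Bf G B F i v := sum_nonneg fun i _ => Bf_nonneg i v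
  linarith

lemma inn_ge2 {q q' : V} (hq : q ≠ q') (v : V) : CC G B q v + CC G B q' v ≤ inn G B F v := by
  unfold inn
  have h1 : ∑ x ∈ ({q, q'} : Finset V), CC G B x v ≤ ∑ q, CC G B q v :=
    sum_le_sum_of_subset_of_nonneg (subset_univ _) (fun x _ _ => CC_nonneg x v)
  rw [sum_pair hq] at h1
  have h2 : 0 ≤ ∑ i, Bf G B F i v := sum_nonneg fun i _ => Bf_nonneg i v
  linarith

lemma CC_ge (q u : V) : C1 G B q u ≤ CC G B q u := by
  unfold CC
  have h2 := Cd_nonneg (G := G) (B := B) q u
  have h3 := Cb_nonneg (G := G) (B := B) q u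
  have h4 := Ce_nonneg (G := G) (B := B) q u
  linarith

lemma not_np_small {v : V} (hv : v ∉ B) (hd : dg G v ≤ 4) (hf : ¬ Free G B v) : ¬ Np G B v := by
  rintro ((h1 | h1) | h1)
  · exact hv h1
  · have := h1.1
    omega
  · exact hf h1

lemma qv_eq {v : V} (hd : dg G v ≠ 0) : qv G v = 2 * (dg G v : ℤ) - (tt G v : ℤ) - 6 := by
  unfold qv
  rw [if_neg hd]

lemma deg3 (h : MinCE G B) {v : V} (hv : v ∉ B) (hd : dg G v ≠ 0) : 3 ≤ dg G v := by
  unfold dg at hd ⊢
  apply deg_three h hv
  obtain ⟨u, hu⟩ := card_ne_zero.1 hd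
  exact ⟨u, (mem_nb.1 hu).2⟩

/-- a `One` vertex which is not `OneP` -/
lemma bal_one (h : MinCE G B) {v : V} (hv : v ∉ B) (hd : dg G v = 3)
    (ht : tt G v = 1) (h1 : ¬ OneP G B v) : 0 ≤ bal G B F v := by
  have hO : One G B v := ⟨hv, hd, ht⟩
  have hout : out G B F v = 0 := by
    rw [out_none hv (not_np_small hv (by omega) (fun hf => by have := hf.1.2.1; omega))
      (fun hf => by have := hf.2.1; omega), c1_one hO]
  obtain ⟨z, hz⟩ := One.exists_weak h hO
  have hzO : ¬ One G B z := fun h2 => h1 ⟨hO, z, hz, h2⟩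
  have hC : C1 G B z v = 4 := by
    unfold C1
    rw [if_pos ⟨hz.symm, hzO⟩, if_pos hO]
  have h3 := CC_ge (G := G) (B := B) z v
  have h4 := inn_ge (G := G) (B := B) (F := F) z v
  have h5 := qv_eq (G := G) (v := v) (by omega)
  unfold bal
  rw [hout, h5, hd, ht]
  push_cast
  linarith

/-- a `Thr` vertex -/
lemma bal_thr (h : MinCE G B) (hL : LF G B F) {v : V} (hv : v ∉ B) (hd : dg G v = 3)
    (ht : tt G v = 0) : 0 ≤ bal G B F v := by
  have hT : Thr G B v := ⟨hv, hd, ht⟩
  have hnO : ¬ One G B v := fun h1 => by have := h1.2.2; omega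
  have hout : out G B F v = ∑ u, C1 G B v u :=
    out_none hv (not_np_small hv (by omega) (fun hf => by have := hf.1.2.1; omega))
      (fun hf => by have := hf.2.1; omega)
  have h5 := qv_eq (G := G) (v := v) (by omega)
  by_cases hS : Star G B v
  · obtain ⟨o, ho, hoO⟩ := hS.2
    have hne : ∀ u, WE G v u → u ≠ o → ¬ Dm G B u := by
      intro u hu huo hD
      exact hL.l1 u v o (Dm.inn hD) ⟨hv, hd.le⟩ ⟨hoO.1, hoO.2.1.le⟩ hu.1.symm ho.1 huo
        (WE.nadj hu ho.1)
    have hcard : (dn G B v).card ≤ 1 := by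
      rw [card_le_one_iff]
      have key : ∀ a, a ∈ dn G B v → a = o := by
        intro a ha
        by_contra hao
        exact hne a (mem_dn.1 ha).1 hao (mem_dn.1 ha).2
      intro a b ha hb
      rw [key a ha, key b hb]
    have hw : (wn G v).card = 3 := by
      have := card_wn h v
      omega
    have h2 : ((wn G v).erase o).card = 2 := by
      rw [card_erase_of_mem (mem_wn.2 ho), hw]
    obtain ⟨a, b, hab, hE⟩ := card_eq_two.1 h2
    have key : ∀ x, x ∈ (wn G v).erase o → 2 ≤ CC G B x v := by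
      intro x hx
      rw [mem_erase, mem_wn] at hx
      have hC : C1 G B x v = 2 := by
        unfold C1
        rw [if_pos ⟨hx.2.symm, fun h6 => hne x hx.2 hx.1 (Or.inl h6)⟩, if_neg hnO, if_pos hS]
      have := CC_ge (G := G) (B := B) x v
      linarith
    have ha := key a (by rw [hE]; simp)
    have hb := key b (by rw [hE]; simp)
    have h3 := inn_ge2 (G := G) (B := B) (F := F) hab v
    have h4 := c1_dn (G := G) (B := B) v
    have h6 : ((dn G B v).card : ℤ) ≤ 1 := by exact_mod_cast hcard
    unfold bal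
    rw [hout, h5, hd, ht]
    push_cast
    linarith
  · have hcard : (dn G B v).card = 0 := by
      rw [card_eq_zero, eq_empty_iff_forall_notMem]
      intro u hu
      obtain ⟨hu1, hu2⟩ := mem_dn.1 hu
      rcases hu2 with hu2 | hu2
      · exact hS ⟨hT, u, hu1, hu2⟩
      · obtain ⟨o, ho, hoO⟩ := hu2.2
        refine hL.l1 v u o ⟨hv, hd.le⟩ ⟨hu2.1.1, hu2.1.2.1.le⟩ ⟨hoO.1, hoO.2.1.le⟩ hu1.1 ho.1 ?_ ?_
        · rintro rfl
          exact hnO hoO
        · intro h6
          exact hu1.2 ⟨o, h6, ho.1⟩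
    have h3 := inn_nonneg (G := G) (B := B) (F := F) v
    have h4 := c1_dn (G := G) (B := B) v
    rw [hcard] at h4
    unfold bal
    rw [hout, h5, hd, ht]
    push_cast at h4 ⊢
    linarith

/-- an `Npay` vertex -/
lemma npay_dn (h : MinCE G B) (hL : LF G B F) {v : V} (hv : F12 G B v) (h2 : ¬ P1c G B v) :
    (dn G B v).card ≤ 1 := by
  have key : ∀ s d, WE G v s → WE G v d → s ≠ d → Star G B s → Dm G B d → False := by
    intro s d hs hd hsd hS hD
    obtain ⟨o, ho, hoO⟩ := hS.2
    refine hL.l2 o s v d ⟨hoO.1, hoO.2.1.le⟩ ⟨hS.1.1, hS.1.2.1.le⟩ ⟨hv.1, hv.2.1.le⟩ (Dm.inn hD)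
      ho.1.symm hs.1.symm hd.1 ?_ hsd ?_ (WE.nadj hs hd.1)
    · rintro rfl
      have h3 := hoO.2.1
      have h4 := hv.2.1
      omega
    · intro h3
      exact hs.2 ⟨o, h3.symm, ho.1⟩
  by_contra hcon
  push Not at hcon
  obtain ⟨a, b, ha, hb, hab⟩ := one_lt_card_iff.1 hcon
  rw [mem_dn] at ha hb
  rcases ha.2 with hA | hA
  · rcases hb.2 with hB' | hB'
    · apply h2
      refine ⟨hv, ?_⟩
      obtain ⟨x, y, hxy, hx, hy, hall⟩ := F12.weak h hv
      have hw : (wn G v).card = 2 := by
        have h3 := card_wn h v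
        have h4 := hv.2.1
        have h5 := hv.2.2
        omega
      have hsub : ({a, b} : Finset V) ⊆ wn G v := by
        intro t ht
        rw [mem_insert, mem_singleton] at ht
        rw [mem_wn]
        rcases ht with rfl | rfl
        · exact ha.1
        · exact hb.1
      have heq := eq_of_subset_of_card_le hsub (by rw [hw, card_pair hab])
      intro u hu
      have h6 : u ∈ ({a, b} : Finset V) := by
        rw [heq]
        exact mem_wn.2 hu
      rw [mem_insert, mem_singleton] at h6
      rcases h6 with rfl | rfl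
      · exact hA
      · exact hB'
    · exact key b a hb.1 ha.1 hab.symm hB' ha.2
  · exact key a b ha.1 hb.1 hab hA hb.2

lemma bal_four (h : MinCE G B) (hF : Faces G F) (hL : LF G B F) {v : V} (hv : v ∉ B)
    (hd : dg G v = 4) (h2 : ¬ P1c G B v) : 0 ≤ bal G B F v := by
  have h3 := inn_nonneg (G := G) (B := B) (F := F) v
  have h4 := c1_dn (G := G) (B := B) v
  have h5 := qv_eq (G := G) (v := v) (by omega)
  have h6 := card_wn h v
  have h7 := dn_le (G := G) (B := B) v
  have hEx : ¬ Ex2 G B v := fun hf => by have := hf.2.1; omega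
  have htt : tt G v = 0 ∨ tt G v = 1 ∨ tt G v = 2 := by omega
  rcases htt with ht | ht | ht
  · -- `F04`
    have hout : out G B F v = ∑ u, C1 G B v u :=
      out_none hv (not_np_small hv (by omega) (fun hf => by have := hf.1.2.2; omega)) hEx
    have hcard : (dn G B v).card ≤ 2 := by
      by_contra hcon
      push Not at hcon
      obtain ⟨a, b, c, ha, hb, hc, hab, hac, hbc⟩ := two_lt_card_iff.1 hcon
      rw [mem_dn] at ha hb hc
      exact hL.c2 v a b c ⟨hv, hd.le⟩ (Dm.inn ha.2) (Dm.inn hb.2) (Dm.inn hc.2) ha.1.1 hb.1.1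
        hc.1.1 hab hac hbc (WE.nadj ha.1 hb.1.1) (WE.nadj ha.1 hc.1.1) (WE.nadj hb.1 hc.1.1)
    have h8 : ((dn G B v).card : ℤ) ≤ 2 := by exact_mod_cast hcard
    unfold bal
    rw [hout, h5, hd, ht]
    push_cast
    linarith
  · by_cases hf : Free G B v
    · have hcard : (dn G B v).card = 0 := by
        rw [card_eq_zero, eq_empty_iff_forall_notMem]
        intro u hu
        exact hf.2 u (mem_dn.1 hu).1 (mem_dn.1 hu).2
      have hout := out_np h hF hv (Or.inr hf)
      rw [hcard] at h4
      unfold bal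
      rw [h5, hd, ht]
      rw [ht] at hout
      push_cast at h4 hout ⊢
      linarith
    · have hout : out G B F v = ∑ u, C1 G B v u :=
        out_none hv (not_np_small hv (by omega) hf) hEx
      have h8 : ((dn G B v).card : ℤ) ≤ 1 := by
        exact_mod_cast npay_dn h hL ⟨hv, hd, ht⟩ h2
      unfold bal
      rw [hout, h5, hd, ht]
      push_cast
      linarith
  · -- `FF`
    have hout : out G B F v = ∑ u, C1 G B v u :=
      out_none hv (not_np_small hv (by omega) (fun hf => by have := hf.1.2.2; omega)) hEx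
    have h8 : (dn G B v).card = 0 := by omega
    rw [h8] at h4
    unfold bal
    rw [hout, h5, hd, ht]
    push_cast at h4 ⊢
    linarith

end BalAAux

open BalAAux

theorem bal_small (h : MinCE G B) (hF : Faces G F) (hL : LF G B F) {v : V} (hv : v ∉ B)
    (hd : dg G v ≤ 4) (h1 : ¬ OneP G B v) (h2 : ¬ P1c G B v) : 0 ≤ bal G B F v := by
  by_cases h0 : dg G v = 0
  · have h3 := inn_nonneg (G := G) (B := B) (F := F) v
    have h4 := c1_dn (G := G) (B := B) v
    have h6 := card_wn h v
    have h7 := dn_le (G := G) (B := B) v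
    have hout : out G B F v = ∑ u, C1 G B v u :=
      out_none hv (not_np_small hv (by omega) (fun hf => by have := hf.1.2.1; omega))
        (fun hf => by have := hf.2.1; omega)
    have h8 : (dn G B v).card = 0 := by omega
    have h9 : qv G v = 0 := by
      unfold qv
      rw [if_pos h0]
    rw [h8] at h4
    unfold bal
    rw [hout, h9]
    push_cast at h4 ⊢
    linarith
  · have h3 := deg3 h hv h0
    have h6 := card_wn h v
    by_cases h4 : dg G v = 4
    · exact bal_four h hF hL hv h4 h2
    · have h5 : dg G v = 3 := by omega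
      by_cases ht : tt G v = 1
      · exact bal_one h hv h5 ht h1
      · exact bal_thr h hL hv h5 (by omega)

theorem bal_large (h : MinCE G B) (hF : Faces G F) (hL : LF G B F) {v : V} (hv : v ∉ B)
    (hd : 5 ≤ dg G v) : 0 ≤ bal G B F v := by
  have h3 := inn_nonneg (G := G) (B := B) (F := F) v
  have h4 := c1_dn (G := G) (B := B) v
  have h5 := qv_eq (G := G) (v := v) (by omega)
  have h6 := card_wn h v
  have h7 := dn_le (G := G) (B := B) v
  by_cases he2 : Ex2 G B v
  · have hout := out_ex2 h hF hL he2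
    unfold bal
    rw [h5, he2.2.1, he2.2.2.1]
    push_cast
    linarith
  by_cases heK : ExK G B v
  · have hout : out G B F v = ∑ u, C1 G B v u := by
      apply out_none hv _ he2
      rintro ((h8 | h8) | h8)
      · exact hv h8
      · exact h8.2 (Or.inr heK)
      · have := h8.1.2.1
        omega
    have hw : (wn G v).card = 3 := by
      have h8 := heK.2.1
      have h9 := heK.2.2.1
      omega
    have h8 : ((dn G B v).card : ℤ) ≤ 3 := by
      rw [hw] at h7
      exact_mod_cast h7
    unfold bal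
    rw [hout, h5, heK.2.1, heK.2.2.1]
    push_cast
    linarith
  have hBig : Big G B v := Or.inr ⟨hd, by
    rintro (h8 | h8)
    · exact he2 h8
    · exact heK h8⟩
  have hout := out_np h hF hv (Or.inl hBig)
  have h6' : ((wn G v).card : ℤ) + 2 * (tt G v : ℤ) = (dg G v : ℤ) := by exact_mod_cast h6
  by_cases hd5 : dg G v = 5
  · have hlt : (dn G B v).card < (wn G v).card := by
      have htt : tt G v = 0 ∨ tt G v = 1 ∨ tt G v = 2 := by omega
      by_contra hcon
      push Not at hcon
      have heq : dn G B v = wn G v := eq_of_subset_of_card_le (dn_sub v) hcon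
      have hall : ∀ u, WE G v u → Dm G B u := by
        intro u hu
        have h8 : u ∈ dn G B v := by
          rw [heq]
          exact mem_wn.2 hu
        exact (mem_dn.1 h8).2
      rcases htt with ht | ht | ht
      · refine hL.c3 v hv hd5 ?_
        intro u hu
        have hwe : WE G v u := by
          rcases te_or_we hu with h8 | h8
          · exfalso
            have h9 := card_tn h v
            rw [ht] at h9
            have h10 : u ∈ tn G v := mem_tn.2 h8
            have h11 : tn G v = ∅ := card_eq_zero.1 (by omega)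
            rw [h11] at h10
            exact notMem_empty _ h10
          · exact h8
        exact ⟨hwe, Dm.inn (hall u hwe)⟩
      · exact heK ⟨hv, hd5, ht, hall⟩
      · exact he2 ⟨hv, hd5, ht, hall⟩
    have hlt' : ((dn G B v).card : ℤ) + 1 ≤ ((wn G v).card : ℤ) := by exact_mod_cast hlt
    have hd5' : (dg G v : ℤ) = 5 := by exact_mod_cast hd5
    unfold bal
    rw [h5]
    linarith
  · have h7' : ((dn G B v).card : ℤ) ≤ ((wn G v).card : ℤ) := by exact_mod_cast h7
    have hd6 : (6 : ℤ) ≤ (dg G v : ℤ) := by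
      have : 6 ≤ dg G v := by omega
      exact_mod_cast this
    unfold bal
    rw [h5]
    linarith

end Pool.Agent.Lib.SVY
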