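import Pool.Agent.Lib.SVX.MinA

/-!
# SVY.Cut2: no two edges separate a part without precoloured vertices

Plan.  As in `MinA.two_conn`/`no_sep`: `G₁` = the edges of `G` outside `Y`, `G₂` = the edges inside
`Y` (use `part`, `good_mono`, `nv_lt`, `bdry_sub`).  Both have smaller `nv`.  Extend `φ₀` to `G₁`
(boundary `B`), colour `G₂` (boundary `∅`, `ext_empty`).  Permute the colours of `G₂`
by `σ : Equiv.Perm (Fin 7)` such that the colours at `y₁` avoid those at `o₁` and the colours at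
`y₂` avoid those at `o₂` (`exists_perm2`, also if `y₁ = y₂`), and combine.
`exists_perm2`: choose 2-subsets `P' ⊆ A₁ᶜ`, `Q' ⊆ A₂ᶜ` with `(P' ∩ Q').card = (P ∩ Q).card` and a
permutation with `P ↦ P'`, `Q ↦ Q'`.
-/

set_option autoImplicit false
set_option linter.unusedSectionVars false

namespace Pool.Agent.Lib.SVY

open Finset Pool.Agent.Lib.SVT Pool.Agent.Lib.SVX

variable {V : Type*} [Fintype V] [DecidableEq V] {G : SimpleGraph V} {B : Finset V}

namespace Cut2Aux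

/-- greedy choice of distinct colours -/
lemma greedy (n : ℕ) (S : Fin n → Finset (Fin 7)) (h : ∀ i, (S i).card + (i : ℕ) < 7) :
    ∃ g : Fin n → Fin 7, Function.Injective g ∧ ∀ i, g i ∉ S i := by
  induction n with
  | zero => exact ⟨fun i => i.elim0, fun i => i.elim0, fun i => i.elim0⟩
  | succ n ih =>
    obtain ⟨g, hg, hgS⟩ := ih (fun i => S i.castSucc) (fun i => by
      have := h i.castSucc
      rw [Fin.val_castSucc] at this
      exact this)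
    have h1 : (S (Fin.last n) ∪ univ.image g).card < 7 := by
      have h2 := card_union_le (S (Fin.last n)) (univ.image g)
      have h3 : (univ.image g).card ≤ n := by
        refine card_image_le.trans ?_
        rw [card_univ, Fintype.card_fin]
      have h4 := h (Fin.last n)
      rw [Fin.val_last] at h4
      omega
    have h2 : ∃ x, x ∉ S (Fin.last n) ∪ univ.image g := by
      by_contra hc
      push Not at hc
      have : S (Fin.last n) ∪ univ.image g = univ := eq_univ_of_forall hc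
      rw [this, card_univ, Fintype.card_fin] at h1
      omega
    obtain ⟨x, hx⟩ := h2
    rw [mem_union, not_or] at hx
    refine ⟨Fin.snoc g x, ?_, ?_⟩
    · intro i j hij
      refine Fin.lastCases ?_ (fun i => ?_) i (motive := fun i => Fin.snoc (α := fun _ => Fin 7) g x i =
        Fin.snoc (α := fun _ => Fin 7) g x j → i = j) hij
      · refine Fin.lastCases ?_ (fun j => ?_) j
        · intro _
          rfl
        · intro he
          rw [Fin.snoc_last, Fin.snoc_castSucc] at he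
          exact absurd (mem_image.2 ⟨j, mem_univ _, he.symm⟩) hx.2
      · refine Fin.lastCases ?_ (fun j => ?_) j
        · intro he
          rw [Fin.snoc_last, Fin.snoc_castSucc] at he
          exact absurd (mem_image.2 ⟨i, mem_univ _, he⟩) hx.2
        · intro he
          rw [Fin.snoc_castSucc, Fin.snoc_castSucc] at he
          rw [hg he]
    · intro i
      refine Fin.lastCases ?_ (fun i => ?_) i
      · rw [Fin.snoc_last]
        exact hx.1
      · rw [Fin.snoc_castSucc]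
        exact hgS i

/-- a permutation avoiding forbidden colours -/
lemma perm_avoid {n : ℕ} {f : Fin n → Fin 7} (hf : Function.Injective f)
    (S : Fin n → Finset (Fin 7)) (h : ∀ i, (S i).card + (i : ℕ) < 7) :
    ∃ σ : Equiv.Perm (Fin 7), ∀ i, σ (f i) ∉ S i := by
  classical
  obtain ⟨g, hg, hgS⟩ := greedy n S h
  let e : {x // x ∈ Set.range f} ≃ {x // x ∈ Set.range g} :=
    (Equiv.ofInjective f hf).symm.trans (Equiv.ofInjective g hg)
  refine ⟨e.extendSubtype, fun i => ?_⟩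
  have h1 : e.extendSubtype (f i) = g i := by
    rw [Equiv.extendSubtype_apply_of_mem e (f i) ⟨i, rfl⟩]
    show ((Equiv.ofInjective g hg) ((Equiv.ofInjective f hf).symm ⟨f i, ⟨i, rfl⟩⟩) : Fin 7) = g i
    rw [Equiv.ofInjective_symm_apply hf i]
    rfl
  rw [h1]
  exact hgS i

end Cut2Aux

theorem exists_perm2 {A₁ A₂ P Q : Finset (Fin 7)} (h1 : A₁.card = 2) (h2 : A₂.card = 2)
    (h3 : P.card = 2) (h4 : Q.card = 2) : ∃ σ : Equiv.Perm (Fin 7),
    Disjoint (P.image σ) A₁ ∧ Disjoint (Q.image σ) A₂ := by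
  have hu : (A₁ ∪ A₂).card ≤ 4 := by
    have := card_union_le A₁ A₂
    omega
  have key : ∀ (p₁ p₂ q₁ q₂ : Fin 7) (σ : Equiv.Perm (Fin 7)), σ p₁ ∉ A₁ → σ p₂ ∉ A₁ →
      σ q₁ ∉ A₂ → σ q₂ ∉ A₂ → Disjoint (({p₁, p₂} : Finset (Fin 7)).image σ) A₁ ∧
        Disjoint (({q₁, q₂} : Finset (Fin 7)).image σ) A₂ := by
    intro p₁ p₂ q₁ q₂ σ k1 k2 k3 k4
    rw [disjoint_left, disjoint_left]
    refine ⟨?_, ?_⟩
    · intro x hx
      rw [mem_image] at hx
      obtain ⟨y, hy, rfl⟩ := hx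
      rw [mem_insert, mem_singleton] at hy
      rcases hy with rfl | rfl
      · exact k1
      · exact k2
    · intro x hx
      rw [mem_image] at hx
      obtain ⟨y, hy, rfl⟩ := hx
      rw [mem_insert, mem_singleton] at hy
      rcases hy with rfl | rfl
      · exact k3
      · exact k4
  -- one common element
  have one : ∀ (c a b : Fin 7), c ≠ a → c ≠ b → a ≠ b → ∃ σ : Equiv.Perm (Fin 7),
      σ c ∉ A₁ ∧ σ c ∉ A₂ ∧ σ a ∉ A₁ ∧ σ b ∉ A₂ := by
    intro c a b hca hcb hab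
    obtain ⟨σ, hσ⟩ := Cut2Aux.perm_avoid (f := ![c, a, b]) (by
      intro i j hij
      fin_cases i <;> fin_cases j <;> simp_all) ![A₁ ∪ A₂, A₁, A₂] (by
      intro i
      fin_cases i
      · show (A₁ ∪ A₂).card + 0 < 7
        omega
      · show A₁.card + 1 < 7
        omega
      · show A₂.card + 2 < 7
        omega)
    have s0 : σ c ∉ A₁ ∪ A₂ := hσ 0
    have s1 : σ a ∉ A₁ := hσ 1
    have s2 : σ b ∉ A₂ := hσ 2
    rw [mem_union, not_or] at s0
    exact ⟨σ, s0.1, s0.2, s1, s2⟩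
  -- two common elements
  have two : ∀ (c a : Fin 7), c ≠ a → ∃ σ : Equiv.Perm (Fin 7),
      σ c ∉ A₁ ∧ σ c ∉ A₂ ∧ σ a ∉ A₁ ∧ σ a ∉ A₂ := by
    intro c a hca
    obtain ⟨σ, hσ⟩ := Cut2Aux.perm_avoid (f := ![c, a]) (by
      intro i j hij
      fin_cases i <;> fin_cases j <;> simp_all) ![A₁ ∪ A₂, A₁ ∪ A₂] (by
      intro i
      fin_cases i
      · show (A₁ ∪ A₂).card + 0 < 7
        omega
      · show (A₁ ∪ A₂).card + 1 < 7
        omega)
    have s0 : σ c ∉ A₁ ∪ A₂ := hσ 0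
    have s1 : σ a ∉ A₁ ∪ A₂ := hσ 1
    rw [mem_union, not_or] at s0 s1
    exact ⟨σ, s0.1, s0.2, s1.1, s1.2⟩
  obtain ⟨p₁, p₂, hp, rfl⟩ := card_eq_two.1 h3
  obtain ⟨q₁, q₂, hq, rfl⟩ := card_eq_two.1 h4
  by_cases e11 : p₁ = q₁
  · subst e11
    by_cases e22 : p₂ = q₂
    · subst e22
      obtain ⟨σ, s1, s2, s3, s4⟩ := two p₁ p₂ hp
      exact ⟨σ, key _ _ _ _ σ s1 s3 s2 s4⟩
    · obtain ⟨σ, s1, s2, s3, s4⟩ := one p₁ p₂ q₂ hp hq e22
      exact ⟨σ, key _ _ _ _ σ s1 s3 s2 s4⟩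
  by_cases e12 : p₁ = q₂
  · subst e12
    by_cases e21 : p₂ = q₁
    · subst e21
      obtain ⟨σ, s1, s2, s3, s4⟩ := two p₁ p₂ hp
      exact ⟨σ, key _ _ _ _ σ s1 s3 s4 s2⟩
    · obtain ⟨σ, s1, s2, s3, s4⟩ := one p₁ p₂ q₁ hp e11 e21
      exact ⟨σ, key _ _ _ _ σ s1 s3 s4 s2⟩
  by_cases e21 : p₂ = q₁
  · subst e21
    obtain ⟨σ, s1, s2, s3, s4⟩ := one p₂ p₁ q₂ (Ne.symm hp) hq e12
    exact ⟨σ, key _ _ _ _ σ s3 s1 s2 s4⟩
  by_cases e22 : p₂ = q₂
  · subst e22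
    obtain ⟨σ, s1, s2, s3, s4⟩ := one p₂ p₁ q₁ (Ne.symm hp) (Ne.symm hq) e11
    exact ⟨σ, key _ _ _ _ σ s3 s1 s4 s2⟩
  obtain ⟨σ, hσ⟩ := Cut2Aux.perm_avoid (f := ![p₁, p₂, q₁, q₂]) (by
    intro i j hij
    fin_cases i <;> fin_cases j <;> simp_all) ![A₁, A₁, A₂, A₂] (by
    intro i
    fin_cases i
    · show A₁.card + 0 < 7
      omega
    · show A₁.card + 1 < 7
      omega
    · show A₂.card + 2 < 7
      omega
    · show A₂.card + 3 < 7
      omega)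
  exact ⟨σ, key _ _ _ _ σ (hσ 0) (hσ 1) (hσ 2) (hσ 3)⟩

theorem cut2 (h : MinCE G B) (Y : Set V) (hYB : ∀ v ∈ B, v ∉ Y)
    (hY : ∃ a ∈ Y, ∃ b, G.Adj a b) (hO : ∃ a, a ∉ Y ∧ ∃ b, G.Adj a b)
    {o₁ y₁ o₂ y₂ : V}
    (hcl : ∀ a b, G.Adj a b → a ∉ Y → b ∈ Y → (a = o₁ ∧ b = y₁) ∨ (a = o₂ ∧ b = y₂)) :
    False := by
  classical
  obtain ⟨a₁, ha₁, b₁, hab₁⟩ := hY
  obtain ⟨a₂, ha₂, b₂, hab₂⟩ := hO
  let G₁ := part G (fun a b => a ∉ Y ∧ b ∉ Y) (fun _ _ hh => ⟨hh.2, hh.1⟩)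
  let G₂ := part G (fun a b => a ∈ Y ∧ b ∈ Y) (fun _ _ hh => ⟨hh.2, hh.1⟩)
  have hle₁ : ∀ a b, G₁.Adj a b → G.Adj a b := part_le
  have hle₂ : ∀ a b, G₂.Adj a b → G.Adj a b := part_le
  have hn₁ : nv G₁ < nv G := nv_lt hle₁ hab₁ (fun u hu => hu.2.1 ha₁)
  have hn₂ : nv G₂ < nv G := nv_lt hle₂ hab₂ (fun u hu => ha₂ hu.2.1)
  have hB₁ : Bdry G₁ B := bdry_sub h.good.bd
    (fun a ha b hb hab => ⟨hab, hYB a ha, hYB b hb⟩)
  have hB₂ : Bdry G₂ ∅ := Or.inl rfl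
  apply h.not_ext
  intro φ₀ hcard hadj
  obtain ⟨φ₁, hφ₁, hag₁⟩ := h.min G₁ B (good_mono hle₁ h.good hB₁) hn₁ φ₀ hcard
    (fun u hu w hw huw => hadj u hu w hw (hle₁ _ _ huw))
  obtain ⟨φ₂, hφ₂⟩ := ext_empty (h.min G₂ ∅ (good_mono hle₂ h.good hB₂) hn₂)
  obtain ⟨σ, hσ₁, hσ₂⟩ := exists_perm2 (hφ₁.1 o₁) (hφ₁.1 o₂) (hφ₂.1 y₁) (hφ₂.1 y₂)
  have hcross : ∀ a b, G.Adj a b → a ∉ Y → b ∈ Y → Disjoint (φ₁ a) ((φ₂ b).image σ) := by
    intro a b hab ha hb
    rcases hcl a b hab ha hb with ⟨rfl, rfl⟩ | ⟨rfl, rfl⟩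
    · exact hσ₁.symm
    · exact hσ₂.symm
  refine ⟨fun x => if x ∈ Y then (φ₂ x).image σ else φ₁ x, ⟨fun x => ?_, fun a b hab => ?_⟩,
    fun x hx => ?_⟩
  · show (if x ∈ Y then (φ₂ x).image σ else φ₁ x).card = 2
    by_cases hx : x ∈ Y
    · rw [if_pos hx, card_image_of_injective _ σ.injective]
      exact hφ₂.1 x
    · rw [if_neg hx]
      exact hφ₁.1 x
  · show Disjoint (if a ∈ Y then (φ₂ a).image σ else φ₁ a) (if b ∈ Y then (φ₂ b).image σ else φ₁ b)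
    by_cases ha : a ∈ Y
    · by_cases hb : b ∈ Y
      · rw [if_pos ha, if_pos hb]
        exact (disjoint_image σ.injective).2 (hφ₂.2 a b ⟨hab, ha, hb⟩)
      · rw [if_pos ha, if_neg hb]
        exact (hcross b a hab.symm hb ha).symm
    · by_cases hb : b ∈ Y
      · rw [if_neg ha, if_pos hb]
        exact hcross a b hab ha hb
      · rw [if_neg ha, if_neg hb]
        exact hφ₁.2 a b ⟨hab, ha, hb⟩
  · show (if x ∈ Y then (φ₂ x).image σ else φ₁ x) = φ₀ x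
    rw [if_neg (hYB x hx)]
    exact hag₁ x hx

end Pool.Agent.Lib.SVY
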