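import Pool.Agent.Lib.SVY.Bal
import Pool.Agent.Lib.SVY.Cut2

/-!
# SVY.BalW: the edges leaving a boundary of length 7

Plan.  `wt`: the weights of the edges `v w` with `v ∈ B`, `w ∉ B`.
`b_seven`.  Suppose the sum is at most 4.  An edge of weight 4 would be the only edge leaving `B`
(case (a)).  Otherwise every `w ∉ B` with a neighbour in `B` is the apex of an edge of `B` and has
exactly two neighbours in `B` (a third one gives weight at least 5), with total weight 4, or 2 if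
`w` is `OneP`: one such `w` (case (a)) or two `OneP` ones (case (b)).
(a) all these edges go to `w` (one apex, or one edge): `two_conn` with `v := w` (or the end
in `B`) and `Y` = the vertices outside `B` other than `w`: contradiction (`w` has degree at least
3 and its neighbours in `B` are at most two); (b) two `OneP` vertices `w₁`, `w₂`, with two
neighbours in `B` each: third neighbours `y₁`, `y₂`; if `w₁`, `w₂` are not adjacent: `cut2` with
`Y` = the vertices outside `B ∪ {w₁, w₂}`; if adjacent (weak edge): the two edges of `B` are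
disjoint and the arcs of `B` between them have lengths with sum 5, so one of them is at most 2:
a cycle of length 4 or 5 (`NoC4`, `NoC5`).
-/

set_option autoImplicit false
set_option linter.unusedSectionVars false

namespace Pool.Agent.Lib.SVY

open Finset Pool.Agent.Lib.SVT Pool.Agent.Lib.SVX

variable {V : Type*} [Fintype V] [DecidableEq V] {G : SimpleGraph V} {B : Finset V}
variable {m : ℕ} {F : Fin m → Finset (Sym2 V)} {i : Fin m}

open Classical in
/-- weights of the edges leaving `B` -/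
noncomputable def wt (G : SimpleGraph V) (B : Finset V) (v w : V) : ℤ :=
  if v ∈ B ∧ w ∉ B ∧ G.Adj v w then
    (if TE G v w ∧ apx G v w ∈ B then (if OneP G B w then 1 else 2) else 4) else 0

namespace BalWAux

/-- the boundary cycle -/
lemma bd7 (h : MinCE G B) (hB : B.card = 7) :
    ∃ c : ZMod 7 → V, IsCyc G 7 c ∧ ∀ v, v ∈ B ↔ ∃ i, c i = v := by
  have hbd := h.good.bd
  rw [bdry_iff] at hbd
  rcases hbd with rfl | ⟨n, hn, c, hc, hcB⟩
  · rw [card_empty] at hB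
    omega
  · have hn0 : NeZero n := ⟨by omega⟩
    have e : B = univ.image c := by
      ext v
      rw [hcB, mem_image]
      exact ⟨fun ⟨i, hi⟩ => ⟨i, mem_univ _, hi⟩, fun ⟨i, _, hi⟩ => ⟨i, hi⟩⟩
    have h7 : n = 7 := by
      rw [e, card_image_of_injective _ hc.1, card_univ, ZMod.card] at hB
      exact hB
    subst h7
    exact ⟨c, hc, hcB⟩

lemma seven_cases : ∀ j k : ZMod 7, j ≠ k → k = j + 1 ∨ j = k + 1 ∨ (k = j + 2 ∨ k = j + 3) ∨
    (j = k + 2 ∨ j = k + 3) := by decide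

lemma seven_three : ∀ j k l : ZMod 7, j ≠ k → j ≠ l → k ≠ l → (k = j + 1 ∨ j = k + 1) →
    (l = j + 1 ∨ j = l + 1) → ¬ (l = k + 1 ∨ k = l + 1) := by decide

lemma seven_pos : ∀ j k : ZMod 7, (k = j ∨ k = j + 1 ∨ k = j + 2 ∨ k = j + 3) ∨
    (j = k ∨ j = k + 1 ∨ j = k + 2 ∨ j = k + 3) := by decide

lemma ne2 (j : ZMod 7) : j ≠ j + 2 := by decide +revert

lemma ne3 (j : ZMod 7) : j ≠ j + 3 := by decide +revert

lemma e11 (j : ZMod 7) : j + 1 + 1 = j + 2 := by decide +revert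

lemma e21 (j : ZMod 7) : j + 2 + 1 = j + 3 := by decide +revert

lemma e12 (j : ZMod 7) : j + 3 = j + 1 + 2 := by decide +revert

variable {c : ZMod 7 → V}

/-- two neighbours on the boundary are consecutive -/
lemma near (h : MinCE G B) (hc : IsCyc G 7 c) {w : V} (hw : ∀ i, c i ≠ w) {j k : ZMod 7}
    (h1 : G.Adj w (c j)) (h2 : G.Adj w (c k)) (hjk : j ≠ k) : k = j + 1 ∨ j = k + 1 := by
  have key : ∀ j k : ZMod 7, G.Adj w (c j) → G.Adj w (c k) → ¬ (k = j + 2 ∨ k = j + 3) := by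
    rintro j k h1 h2 (rfl | rfl)
    · have a1 := hc.2 j
      have a2 := hc.2 (j + 1)
      rw [e11] at a2
      exact h.good.c4 w (c j) (c (j + 1)) (c (j + 2)) (hw _).symm
        (fun e => ne2 j (hc.1 e)) h1 a1 a2 h2.symm
    · have a1 := hc.2 j
      have a2 := hc.2 (j + 1)
      have a3 := hc.2 (j + 2)
      rw [e11] at a2
      rw [e21] at a3
      refine h.good.c5 w (c j) (c (j + 1)) (c (j + 2)) (c (j + 3)) (hw _).symm (hw _).symm
        (fun e => ne2 j (hc.1 e)) (fun e => ne3 j (hc.1 e)) (fun e => ?_) h1 a1 a2 a3 h2.symm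
      have := hc.1 e
      rw [e12] at this
      exact ne2 (j + 1) this
  rcases seven_cases j k hjk with h3 | h3 | h3 | h3
  · exact Or.inl h3
  · exact Or.inr h3
  · exact absurd h3 (key j k h1 h2)
  · exact absurd h3 (key k j h2 h1)

/-- at most two neighbours on the boundary -/
lemma not_three (h : MinCE G B) (hc : IsCyc G 7 c) (hcB : ∀ v, v ∈ B ↔ ∃ i, c i = v) {w : V}
    (hw : w ∉ B) {x y z : V} (hx : x ∈ B) (hy : y ∈ B) (hz : z ∈ B) (h1 : G.Adj w x)
    (h2 : G.Adj w y) (h3 : G.Adj w z) (hxy : x ≠ y) (hxz : x ≠ z) (hyz : y ≠ z) : False := by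
  have hw' : ∀ i, c i ≠ w := by
    rintro i rfl
    exact hw ((hcB _).2 ⟨i, rfl⟩)
  obtain ⟨j, rfl⟩ := (hcB x).1 hx
  obtain ⟨k, rfl⟩ := (hcB y).1 hy
  obtain ⟨l, rfl⟩ := (hcB z).1 hz
  have n1 : j ≠ k := fun e => hxy (by rw [e])
  have n2 : j ≠ l := fun e => hxz (by rw [e])
  have n3 : k ≠ l := fun e => hyz (by rw [e])
  exact seven_three j k l n1 n2 n3 (near h hc hw' h1 h2 n1) (near h hc hw' h1 h3 n2)
    (near h hc hw' h2 h3 n3)

/-- the edges leaving `B` do not all lead to the same vertex -/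
lemma not_single (h : MinCE G B) (hc : IsCyc G 7 c) (hcB : ∀ v, v ∈ B ↔ ∃ i, c i = v) {w : V}
    (hw : w ∉ B) (hall : ∀ a b, G.Adj a b → a ∈ B → b ∈ B ∨ b = w) : False := by
  rcases two_conn h w {x | x ∈ B} hw hall with h1 | h1
  · exact h1 (c 0) ((hcB _).2 ⟨0, rfl⟩) (c (0 + 1)) (hc.2 0)
  · obtain ⟨v, hvB, u, hu⟩ := exists_inner h
    have hvw : v = w := by
      by_contra hne
      exact h1 v hvB hne u hu
    subst hvw
    have h3 := deg_three h hvB ⟨u, hu⟩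
    obtain ⟨x, hx, y, hy, z, hz, hxy, hxz, hyz⟩ := Finset.two_lt_card.1 h3
    have inB : ∀ x, x ∈ nb G univ v → G.Adj v x ∧ x ∈ B := by
      intro x hx
      have hx' := (mem_nb.1 hx).2
      refine ⟨hx', ?_⟩
      by_contra hxB
      exact h1 x hxB hx'.ne' v hx'.symm
    exact not_three h hc hcB hw (inB x hx).2 (inB y hy).2 (inB z hz).2 (inB x hx).1 (inB y hy).1
      (inB z hz).1 hxy hxz hyz

lemma wt_nonneg (v w : V) : 0 ≤ wt G B v w := by
  unfold wt
  split_ifs <;> norm_num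

/-- the total weight of the edges at a vertex outside `B` -/
lemma wt_vertex (h : MinCE G B) (hc : IsCyc G 7 c) (hcB : ∀ v, v ∈ B ↔ ∃ i, c i = v) {w v : V}
    (hw : w ∉ B) (hv : v ∈ B) (hvw : G.Adj v w) :
    4 ≤ ∑ v ∈ B, wt G B v w ∨ (2 ≤ ∑ v ∈ B, wt G B v w ∧ OneP G B w ∧
      ∃ j, G.Adj w (c j) ∧ G.Adj w (c (j + 1)) ∧ ∀ u ∈ B, G.Adj w u → u = c j ∨ u = c (j + 1)) := by
  have hw' : ∀ i, c i ≠ w := by
    rintro i rfl
    exact hw ((hcB _).2 ⟨i, rfl⟩)
  have hmem : ∀ i, c i ∈ B := fun i => (hcB _).2 ⟨i, rfl⟩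
  have hn01 : ∀ j : ZMod 7, j ≠ j + 1 := by decide
  by_cases hu : ∃ u ∈ B, G.Adj w u ∧ u ≠ v
  · -- two neighbours
    obtain ⟨u, huB, hwu, huv⟩ := hu
    obtain ⟨j, hj1, hj2⟩ : ∃ j, G.Adj w (c j) ∧ G.Adj w (c (j + 1)) := by
      obtain ⟨j, rfl⟩ := (hcB v).1 hv
      obtain ⟨k, rfl⟩ := (hcB u).1 huB
      rcases near h hc hw' hvw.symm hwu (fun e => huv (by rw [e])) with h3 | h3
      · subst h3
        exact ⟨j, hvw.symm, hwu⟩
      · subst h3
        exact ⟨k, hwu, hvw.symm⟩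
    have hcj : c j ≠ c (j + 1) := (hc.2 j).ne
    have hall : ∀ u ∈ B, G.Adj w u → u = c j ∨ u = c (j + 1) := by
      intro u huB hwu
      by_contra hcon
      push Not at hcon
      exact not_three h hc hcB hw huB (hmem j) (hmem (j + 1)) hwu hj1 hj2 hcon.1 hcon.2 hcj
    have a1 : apx G (c j) w = c (j + 1) := apx_eq h hj1.symm (hc.2 j) hj2
    have a2 : apx G (c (j + 1)) w = c j := apx_eq h hj2.symm (hc.2 j).symm hj1
    have t1 : TE G (c j) w := ⟨hj1.symm, c (j + 1), hc.2 j, hj2⟩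
    have t2 : TE G (c (j + 1)) w := ⟨hj2.symm, c j, (hc.2 j).symm, hj1⟩
    have hsub : ({c j, c (j + 1)} : Finset V) ⊆ B := by
      intro x hx
      rw [mem_insert, mem_singleton] at hx
      rcases hx with rfl | rfl
      · exact hmem _
      · exact hmem _
    have hsum : wt G B (c j) w + wt G B (c (j + 1)) w ≤ ∑ v ∈ B, wt G B v w := by
      rw [← Finset.sum_pair hcj (f := fun v => wt G B v w)]
      exact sum_le_sum_of_subset_of_nonneg hsub (fun x _ _ => wt_nonneg x w)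
    by_cases hP : OneP G B w
    · right
      refine ⟨?_, hP, j, hj1, hj2, hall⟩
      have w1 : wt G B (c j) w = 1 := by
        unfold wt
        rw [if_pos ⟨hmem _, hw, hj1.symm⟩, if_pos ⟨t1, by rw [a1]; exact hmem _⟩, if_pos hP]
      have w2 : wt G B (c (j + 1)) w = 1 := by
        unfold wt
        rw [if_pos ⟨hmem _, hw, hj2.symm⟩, if_pos ⟨t2, by rw [a2]; exact hmem _⟩, if_pos hP]
      linarith
    · left
      have w1 : wt G B (c j) w = 2 := by
        unfold wt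
        rw [if_pos ⟨hmem _, hw, hj1.symm⟩, if_pos ⟨t1, by rw [a1]; exact hmem _⟩, if_neg hP]
      have w2 : wt G B (c (j + 1)) w = 2 := by
        unfold wt
        rw [if_pos ⟨hmem _, hw, hj2.symm⟩, if_pos ⟨t2, by rw [a2]; exact hmem _⟩, if_neg hP]
      linarith
  · left
    push Not at hu
    have w1 : wt G B v w = 4 := by
      unfold wt
      rw [if_pos ⟨hv, hw, hvw⟩, if_neg]
      rintro ⟨t, ht⟩
      obtain ⟨b1, b2⟩ := apx_adj t
      exact b1.ne' (hu _ ht b2)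
    rw [← w1]
    exact single_le_sum (f := fun v => wt G B v w) (fun x _ => wt_nonneg x w) hv

/-- adjacent vertices outside `B` with two neighbours in `B` each -/
lemma adj_false (h : MinCE G B) (hc : IsCyc G 7 c) {w₁ w₂ : V} (n1 : ∀ i, c i ≠ w₁)
    (n2 : ∀ i, c i ≠ w₂) (hadj : G.Adj w₁ w₂) {j k : ZMod 7} (a1 : G.Adj w₁ (c j))
    (a2 : G.Adj w₁ (c (j + 1))) (b1 : G.Adj w₂ (c k)) (b2 : G.Adj w₂ (c (k + 1))) :
    ¬ (k = j ∨ k = j + 1 ∨ k = j + 2 ∨ k = j + 3) := by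
  rintro (rfl | rfl | rfl | rfl)
  · exact hadj.ne (apex h (hc.2 k) a1.symm a2.symm b1.symm b2.symm)
  · exact h.good.c4 (c j) (c (j + 1)) w₂ w₁ (n2 _) (n1 _) (hc.2 j) b1.symm hadj.symm a1
  · have e2 := hc.2 (j + 1)
    rw [e11] at e2
    exact h.good.c4 (c (j + 1)) (c (j + 2)) w₂ w₁ (n2 _) (n1 _) e2 b1.symm hadj.symm a2
  · have e2 := hc.2 (j + 1)
    have e3 := hc.2 (j + 2)
    rw [e11] at e2
    rw [e21] at e3
    refine h.good.c5 (c (j + 1)) (c (j + 2)) (c (j + 3)) w₂ w₁ (fun e => ?_) (n2 _) (n2 _) (n1 _)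
      (n1 _) e2 e3 b1.symm hadj.symm a2
    have := hc.1 e
    rw [e12] at this
    exact ne2 (j + 1) this

/-- the third neighbour -/
lemma third (hc : IsCyc G 7 c) (hcB : ∀ v, v ∈ B ↔ ∃ i, c i = v) {w : V} (hP : OneP G B w) {j : ZMod 7} (a1 : G.Adj w (c j))
    (a2 : G.Adj w (c (j + 1))) (hall : ∀ u ∈ B, G.Adj w u → u = c j ∨ u = c (j + 1)) :
    ∃ y, y ∉ B ∧ G.Adj w y ∧ ∀ u, u ∉ B → G.Adj w u → u = y := by
  have hd : dg G w = 3 := hP.1.2.1
  have hcj : c j ≠ c (j + 1) := (hc.2 j).ne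
  have hlt : ({c j, c (j + 1)} : Finset V).card < (nb G univ w).card := by
    rw [card_pair hcj]
    unfold dg at hd
    omega
  obtain ⟨y, hy, hy'⟩ := exists_mem_notMem_of_card_lt_card hlt
  rw [mem_insert, mem_singleton, not_or] at hy'
  have hwy := (mem_nb.1 hy).2
  refine ⟨y, ?_, hwy, ?_⟩
  · intro hyB
    rcases hall y hyB hwy with h1 | h1
    · exact hy'.1 h1
    · exact hy'.2 h1
  · intro u huB hwu
    rcases RingNAux.nb3 hd a1 a2 hwy hcj (Ne.symm hy'.1) (Ne.symm hy'.2) hwu with h1 | h1 | h1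
    · exact absurd ((hcB _).2 ⟨j, h1.symm⟩) huB
    · exact absurd ((hcB _).2 ⟨j + 1, h1.symm⟩) huB
    · exact h1

end BalWAux

open BalWAux

theorem b_seven (h : MinCE G B) (hF : Faces G F) (hB : B.card = 7) :
    5 ≤ ∑ v ∈ B, ∑ w, wt G B v w := by
  obtain ⟨c, hc, hcB⟩ := bd7 h hB
  by_contra hlt
  push Not at hlt
  rw [sum_comm] at hlt
  have hTn : ∀ w : V, 0 ≤ ∑ v ∈ B, wt G B v w := fun w => sum_nonneg fun v _ => wt_nonneg v w
  -- two vertices outside `B` with neighbours in `B`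
  obtain ⟨v₀, hv₀, -⟩ := exists_inner h
  obtain ⟨a₁, w₁, hab₁, ha₁, hw₁⟩ : ∃ a w, G.Adj a w ∧ a ∈ B ∧ w ∉ B := by
    by_contra hcon
    push Not at hcon
    exact not_single h hc hcB hv₀ (fun a b hab ha => Or.inl (hcon a b hab ha))
  obtain ⟨a₂, w₂, hab₂, ha₂, hw₂, hne⟩ : ∃ a w, G.Adj a w ∧ a ∈ B ∧ w ∉ B ∧ w ≠ w₁ := by
    by_contra hcon
    push Not at hcon
    exact not_single h hc hcB hw₁ (fun a b hab ha => by
      by_cases hb : b ∈ B
      · exact Or.inl hb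
      · exact Or.inr (hcon a b hab ha hb))
  have hs2 : (∑ v ∈ B, wt G B v w₁) + (∑ v ∈ B, wt G B v w₂) ≤ ∑ w, ∑ v ∈ B, wt G B v w := by
    rw [← Finset.sum_pair (Ne.symm hne) (f := fun w => ∑ v ∈ B, wt G B v w)]
    exact sum_le_sum_of_subset_of_nonneg (subset_univ _) (fun x _ _ => hTn x)
  have hge : ∀ {a w : V}, G.Adj a w → a ∈ B → w ∉ B → 2 ≤ ∑ v ∈ B, wt G B v w := by
    intro a w h1 h2 h3
    rcases wt_vertex h hc hcB h3 h2 h1 with h4 | h4
    · linarith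
    · exact h4.1
  have hg1 := hge hab₁ ha₁ hw₁
  have hg2 := hge hab₂ ha₂ hw₂
  rcases wt_vertex h hc hcB hw₁ ha₁ hab₁ with h4 | ⟨-, hP₁, j, j1, j2, hall₁⟩
  · linarith
  rcases wt_vertex h hc hcB hw₂ ha₂ hab₂ with h4 | ⟨-, hP₂, k, k1, k2, hall₂⟩
  · linarith
  -- no third vertex
  have honly : ∀ a b, G.Adj a b → a ∈ B → b ∉ B → b = w₁ ∨ b = w₂ := by
    intro a b hab ha hb
    by_contra hcon
    push Not at hcon
    have hg3 := hge hab ha hb
    have hs3 : (∑ v ∈ B, wt G B v b) + ((∑ v ∈ B, wt G B v w₁) + (∑ v ∈ B, wt G B v w₂)) ≤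
        ∑ w, ∑ v ∈ B, wt G B v w := by
      rw [← Finset.sum_pair (Ne.symm hne) (f := fun w => ∑ v ∈ B, wt G B v w), ← sum_insert
        (f := fun w => ∑ v ∈ B, wt G B v w) (a := b) (s := {w₁, w₂})]
      · exact sum_le_sum_of_subset_of_nonneg (subset_univ _) (fun x _ _ => hTn x)
      · rw [mem_insert, mem_singleton, not_or]
        exact hcon
    linarith
  have n1 : ∀ i, c i ≠ w₁ := by
    rintro i rfl
    exact hw₁ ((hcB _).2 ⟨i, rfl⟩)
  have n2 : ∀ i, c i ≠ w₂ := by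
    rintro i rfl
    exact hw₂ ((hcB _).2 ⟨i, rfl⟩)
  -- the two vertices are not adjacent
  have hnadj : ¬ G.Adj w₁ w₂ := by
    intro hadj
    rcases seven_pos j k with h5 | h5
    · exact adj_false h hc n1 n2 hadj j1 j2 k1 k2 h5
    · exact adj_false h hc n2 n1 hadj.symm k1 k2 j1 j2 h5
  obtain ⟨y₁, hy₁, hwy₁, hu₁⟩ := third hc hcB hP₁ j1 j2 hall₁
  obtain ⟨y₂, hy₂, hwy₂, hu₂⟩ := third hc hcB hP₂ k1 k2 hall₂
  refine cut2 h {x | x ∉ B ∧ x ≠ w₁ ∧ x ≠ w₂} ?_ ?_ ?_ (o₁ := w₁) (y₁ := y₁) (o₂ := w₂) (y₂ := y₂) ?_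
  · intro v hv hv'
    exact hv'.1 hv
  · refine ⟨y₁, ⟨hy₁, hwy₁.ne', ?_⟩, w₁, hwy₁.symm⟩
    rintro rfl
    exact hnadj hwy₁
  · refine ⟨a₁, ?_, w₁, hab₁⟩
    intro h6
    exact h6.1 ha₁
  · intro a b hab ha hb
    by_cases haB : a ∈ B
    · exfalso
      rcases honly a b hab haB hb.1 with h6 | h6
      · exact hb.2.1 h6
      · exact hb.2.2 h6
    · by_cases ha1 : a = w₁
      · subst ha1
        exact Or.inl ⟨rfl, hu₁ b hb.1 hab⟩
      · by_cases ha2 : a = w₂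
        · subst ha2
          exact Or.inr ⟨rfl, hu₂ b hb.1 hab⟩
        · exact absurd ⟨haB, ha1, ha2⟩ ha

end Pool.Agent.Lib.SVY
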