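import Pool.Agent.Lib.SVY.Dart
import Pool.Agent.Lib.SVY.BalW

/-!
# SVY.BalB: the vertices of the boundary

Plan.  `bal_b`: `4 qv = 8 dg - 4 tt - 24` with `dg = #wn + #tn`, `2 tt = #tn` (`card_wn`, `card_tn`),
`inn ≥ 0`; `v ∈ B` gives at most 4 to a weak neighbour outside `B` (`C1`), 2 for every dart
(`dart_pay`, darts go to `tn \ B`), 1 (`Cb`) to the `OneP` vertices of triangles on an edge of `B`,
no `Ce`, `TT`, `S3`.  With exactly two neighbours in `B` (`bd_face`: `B` is the vertex set of a face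
without chords, `face_deg`) this is
`-8 + 4 #(wn \ B) + 4 #(tn \ B) - 2 #(tn ∩ B) - #Cb`.
`b_sum`.  `B = ∅`: the sum is 0.  `#B = 3`: `tn ∩ B` has two elements and there is no edge of `B`
with an apex outside `B`, `Cb = 0`: at least -12 each.  `#B = 6, 7`: an edge of `B` in a triangle has
its apex outside `B` (no chords), two different edges of `B` at `v` have different apexes; so the
sum is at least `-8 #B` + the sum of the weights of the edges `v w` with `v ∈ B`, `w ∉ B`:
weight 4 if `w` is not the apex of an edge of `B` at `v`, otherwise 2, and 1 if `w` is moreover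
`OneP`.  `#B = 6`: there is at least one such edge (`exists_inner`, `two_conn`).  `#B = 7`: if the sum of
the weights is at least 5: done, `-56 + 5 > -52`.  Otherwise: `b_seven`.
`b_seven` is in SVY/BalW.lean.
-/

set_option autoImplicit false
set_option linter.unusedSectionVars false

namespace Pool.Agent.Lib.SVY

open Finset Pool.Agent.Lib.SVT Pool.Agent.Lib.SVX

variable {V : Type*} [Fintype V] [DecidableEq V] {G : SimpleGraph V} {B : Finset V}
variable {m : ℕ} {F : Fin m → Finset (Sym2 V)} {i : Fin m}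

namespace BalBAux

/-- the boundary is a cycle without chords -/
theorem bd_cyc (h : MinCE G B) (hB : B ≠ ∅) : ∃ (n : ℕ) (_ : NeZero n) (c : ZMod n → V),
    (n = 3 ∨ n = 6 ∨ n = 7) ∧ IsCyc G n c ∧ (∀ v, v ∈ B ↔ ∃ i, c i = v) ∧
    ∀ i j, G.Adj (c i) (c j) → s(c i, c j) ∈ cycEdges c := by
  rcases h.good.bd with h0 | ⟨c, hc, hcB⟩ | ⟨c, hc, hcB⟩ | ⟨c, hc, hcB⟩
  · exact absurd h0 hB
  · exact ⟨3, inferInstance, c, Or.inl rfl, hc, hcB, chord3⟩
  · exact ⟨6, inferInstance, c, Or.inr (Or.inl rfl), hc, hcB, chord6 h.good.c4 h.good.c5 hc⟩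
  · exact ⟨7, inferInstance, c, Or.inr (Or.inr rfl), hc, hcB,
      chord7 h.good.c4 hc (h.chord c hc hcB)⟩

theorem card_bd {n : ℕ} [NeZero n] {c : ZMod n → V} (hc : IsCyc G n c)
    (hcB : ∀ v, v ∈ B ↔ ∃ i, c i = v) : B.card = n := by
  have h1 : B = univ.image c := by
    ext v
    rw [hcB v]
    simp
  rw [h1, card_image_of_injective _ hc.1, card_univ, ZMod.card]

/-- adjacent vertices of the boundary are consecutive -/
theorem adj_bd {n : ℕ} [NeZero n] {c : ZMod n → V} (hc : IsCyc G n c)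
    (hch : ∀ i j, G.Adj (c i) (c j) → s(c i, c j) ∈ cycEdges c) {i j : ZMod n}
    (hij : G.Adj (c i) (c j)) : j = i + 1 ∨ i = j + 1 := by
  obtain ⟨k, hk⟩ := mem_cycEdges.1 (hch i j hij)
  rcases Sym2.eq_iff.1 hk with ⟨h1, h2⟩ | ⟨h1, h2⟩
  · rw [← hc.1 h1, ← hc.1 h2]
    exact Or.inl rfl
  · rw [← hc.1 h1, ← hc.1 h2]
    exact Or.inr rfl

theorem dec_ne {n : ℕ} (hn : n = 3 ∨ n = 6 ∨ n = 7) (i : ZMod n) : i + 1 ≠ i - 1 := by
  rcases hn with rfl | rfl | rfl
  · decide +revert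
  · decide +revert
  · decide +revert

theorem dec_tri {n : ℕ} (hn : n = 6 ∨ n = 7) (i j k : ZMod n) (h1 : j = i + 1 ∨ i = j + 1)
    (h2 : k = i + 1 ∨ i = k + 1) (h3 : k = j + 1 ∨ j = k + 1) : False := by
  rcases hn with rfl | rfl
  · revert i j k
    decide
  · revert i j k
    decide

/-- exactly two neighbours in `B` -/
theorem two_nb (h : MinCE G B) {v : V} (hv : v ∈ B) :
    (wn G v ∩ B).card + (tn G v ∩ B).card = 2 := by
  obtain ⟨n, _, c, hn, hc, hcB, hch⟩ := bd_cyc h (ne_of_mem_of_not_mem' hv (notMem_empty v))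
  obtain ⟨i, rfl⟩ := (hcB v).1 hv
  have h1 : G.Adj (c i) (c (i + 1)) := hc.2 i
  have h2 : G.Adj (c i) (c (i - 1)) := by
    have := hc.2 (i - 1)
    rw [sub_add_cancel] at this
    exact this.symm
  have h3 : (wn G (c i) ∩ B) ∪ (tn G (c i) ∩ B) = {c (i + 1), c (i - 1)} := by
    ext u
    rw [mem_union, mem_inter, mem_inter, mem_wn, mem_tn, mem_insert, mem_singleton]
    constructor
    · rintro (⟨h4, h5⟩ | ⟨h4, h5⟩)
      all_goals
        obtain ⟨j, rfl⟩ := (hcB u).1 h5
        rcases adj_bd hc hch h4.1 with h6 | h6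
        · left
          rw [h6]
        · right
          rw [h6, add_sub_cancel_right]
    · rintro (rfl | rfl)
      · rcases te_or_we h1 with h4 | h4
        · exact Or.inr ⟨h4, (hcB _).2 ⟨_, rfl⟩⟩
        · exact Or.inl ⟨h4, (hcB _).2 ⟨_, rfl⟩⟩
      · rcases te_or_we h2 with h4 | h4
        · exact Or.inr ⟨h4, (hcB _).2 ⟨_, rfl⟩⟩
        · exact Or.inl ⟨h4, (hcB _).2 ⟨_, rfl⟩⟩
  rw [← card_union_of_disjoint, h3, card_pair]
  · exact fun h4 => dec_ne hn i (hc.1 h4)
  · rw [disjoint_left]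
    intro u h4 h5
    exact (mem_tn.1 (mem_inter.1 h5).1).not_we (mem_wn.1 (mem_inter.1 h4).1)

/-- no triangle in `B` -/
theorem no_tri (h : MinCE G B) (hB : B.card ≠ 3) {u v w : V} (hu : u ∈ B) (hv : v ∈ B)
    (hw : w ∈ B) (h1 : G.Adj u v) (h2 : G.Adj u w) (h3 : G.Adj v w) : False := by
  obtain ⟨n, _, c, hn, hc, hcB, hch⟩ := bd_cyc h (ne_of_mem_of_not_mem' hv (notMem_empty v))
  have h4 := card_bd hc hcB
  obtain ⟨i, rfl⟩ := (hcB u).1 hu
  obtain ⟨j, rfl⟩ := (hcB v).1 hv
  obtain ⟨k, rfl⟩ := (hcB w).1 hw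
  exact dec_tri (by omega) i j k (adj_bd hc hch h1) (adj_bd hc hch h2) (adj_bd hc hch h3)

/-- the third vertex of a boundary triangle -/
theorem third (h : MinCE G B) (hB : B.card = 3) {u v : V} (hu : u ∈ B) (hv : v ∈ B)
    (h1 : u ≠ v) : ∃ w ∈ B, G.Adj u w ∧ G.Adj v w := by
  obtain ⟨n, _, c, hn, hc, hcB, hch⟩ := bd_cyc h (ne_of_mem_of_not_mem' hv (notMem_empty v))
  have h4 := card_bd hc hcB
  obtain rfl : n = 3 := by omega
  obtain ⟨i, rfl⟩ := (hcB u).1 hu
  obtain ⟨j, rfl⟩ := (hcB v).1 hv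
  have h5 : i ≠ j := fun h6 => h1 (h6 ▸ rfl)
  have h6 : ∀ i j : ZMod 3, i ≠ j → ∃ k, (k = i + 1 ∨ i = k + 1) ∧ (k = j + 1 ∨ j = k + 1) := by
    clear * -
    decide
  obtain ⟨k, h7, h8⟩ := h6 i j h5
  refine ⟨c k, (hcB _).2 ⟨k, rfl⟩, ?_, ?_⟩
  · rcases h7 with rfl | rfl
    · exact hc.2 i
    · exact (hc.2 k).symm
  · rcases h8 with rfl | rfl
    · exact hc.2 j
    · exact (hc.2 k).symm

theorem sum_C1 (v : V) : ∑ u, C1 G B v u ≤ 4 * ((wn G v \ B).card : ℤ) := by
  have h1 : ∀ u ∈ (univ : Finset V), C1 G B v u ≤ if u ∈ wn G v \ B then 4 else 0 := by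
    intro u _
    unfold C1
    by_cases h2 : WE G v u ∧ ¬ One G B v
    · rw [if_pos h2]
      by_cases h3 : One G B u
      · rw [if_pos h3, if_pos (mem_sdiff.2 ⟨mem_wn.2 h2.1, h3.1⟩)]
      · rw [if_neg h3]
        by_cases h4 : Star G B u
        · rw [if_pos h4, if_pos (mem_sdiff.2 ⟨mem_wn.2 h2.1, h4.1.1⟩)]
          norm_num
        · rw [if_neg h4]
          split_ifs <;> norm_num
    · rw [if_neg h2]
      split_ifs <;> norm_num
  refine (sum_le_sum h1).trans ?_
  rw [← sum_filter, sum_const, filter_mem_eq_inter, univ_inter]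
  rw [nsmul_eq_mul, mul_comm]

end BalBAux

open BalBAux

open Classical in
theorem bal_b (h : MinCE G B) (hF : Faces G F) {v : V} (hv : v ∈ B) :
    -8 + 4 * ((wn G v \ B).card : ℤ) + 4 * ((tn G v \ B).card : ℤ) -
      2 * ((tn G v ∩ B).card : ℤ) -
      ((univ.filter (fun u => OneP G B u ∧ TE G v u ∧ apx G v u ∈ B)).card : ℤ) ≤
        bal G B F v := by
  have hin := inn_nonneg (G := G) (B := B) (F := F) v
  have h2 := two_nb h hv
  have hwn := card_wn h v
  have htn := card_tn h v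
  have hw : (wn G v ∩ B).card + (wn G v \ B).card = (wn G v).card :=
    card_inter_add_card_sdiff _ _
  have ht : (tn G v ∩ B).card + (tn G v \ B).card = (tn G v).card :=
    card_inter_add_card_sdiff _ _
  have hdg : dg G v ≠ 0 := by omega
  have hq : qv G v = 2 * (dg G v : ℤ) - tt G v - 6 := by
    unfold qv
    rw [if_neg hdg]
  have hC1 := sum_C1 (G := G) (B := B) v
  have hCb : ∑ u, Cb G B v u =
      ((univ.filter (fun u => OneP G B u ∧ TE G v u ∧ apx G v u ∈ B)).card : ℤ) := by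
    unfold Cb
    rw [← sum_filter, sum_const, nsmul_eq_mul, mul_one]
    congr 2
    ext u
    simp only [mem_filter, mem_univ, true_and, hv]
  have hCe : ∀ u, Ce G B v u = 0 := by
    intro u
    unfold Ce
    rw [if_neg]
    exact fun h1 => h1.1 hv
  have hD := dart_pay h hF v
  have hDt : (univ.filter (fun a => Dt G B v a)) = tn G v \ B := by
    ext a
    rw [mem_filter, mem_sdiff, mem_tn]
    constructor
    · rintro ⟨-, -, h3, h4⟩
      exact ⟨h3, h4⟩
    · rintro ⟨h3, h4⟩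
      exact ⟨mem_univ _, Or.inl (Or.inl hv), h3, h4⟩
  rw [hDt] at hD
  have hAf : ∑ i, Af G B F v i =
      2 * ∑ i, ((univ.filter (fun a => FD G B v a ∧ Rcv G B F v a i)).card : ℤ) := by
    rw [mul_sum]
    refine sum_congr rfl fun i _ => ?_
    unfold Af
    rw [if_neg (fun h1 => h1.1.1 hv), if_neg (fun h1 => h1.1.1 hv), add_zero, add_zero]
  have hCC : ∑ u, CC G B v u = ∑ u, C1 G B v u + ∑ u, Cd G B v u + ∑ u, Cb G B v u := by
    rw [← sum_add_distrib, ← sum_add_distrib]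
    refine sum_congr rfl fun u _ => ?_
    unfold CC
    rw [hCe, add_zero]
  unfold bal out
  rw [hCC, hCb, hAf, hq]
  have e1 : ((wn G v ∩ B).card : ℤ) + (tn G v ∩ B).card = 2 := by exact_mod_cast h2
  have e2 : ((wn G v).card : ℤ) + 2 * tt G v = dg G v := by exact_mod_cast hwn
  have e3 : ((tn G v).card : ℤ) = 2 * tt G v := by exact_mod_cast htn
  have e4 : ((wn G v ∩ B).card : ℤ) + (wn G v \ B).card = (wn G v).card := by exact_mod_cast hw
  have e5 : ((tn G v ∩ B).card : ℤ) + (tn G v \ B).card = (tn G v).card := by exact_mod_cast ht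
  linarith

namespace BalBAux

open Classical in
theorem sum_wt (h : MinCE G B) (hB : B.card ≠ 3) {v : V} (hv : v ∈ B) :
    ∑ w, wt G B v w ≤ 4 * ((wn G v \ B).card : ℤ) + 4 * ((tn G v \ B).card : ℤ) -
      2 * ((tn G v ∩ B).card : ℤ) -
      ((univ.filter (fun u => OneP G B u ∧ TE G v u ∧ apx G v u ∈ B)).card : ℤ) := by
  -- the apexes
  have h1 : ∀ w, wt G B v w = 4 * (if w ∈ wn G v \ B then 1 else 0) +
      4 * (if w ∈ tn G v \ B then 1 else 0) -
      2 * (if w ∈ (tn G v \ B).filter (fun w => apx G v w ∈ B) then 1 else 0) -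
      (if w ∈ univ.filter (fun u => OneP G B u ∧ TE G v u ∧ apx G v u ∈ B) then 1 else 0) := by
    intro w
    unfold wt
    simp only [mem_sdiff, mem_wn, mem_tn, mem_filter, mem_univ, true_and, hv]
    by_cases h2 : w ∈ B
    · have h3 : ¬ OneP G B w := fun h4 => h4.1.1 h2
      simp [h2, h3]
    · by_cases h3 : TE G v w
      · have h4 : ¬ WE G v w := h3.not_we
        have h5 : G.Adj v w := h3.1
        by_cases h6 : apx G v w ∈ B
        · by_cases h7 : OneP G B w
          · simp [h2, h3, h4, h5, h6, h7]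
          · simp [h2, h3, h4, h5, h6, h7]
        · simp [h2, h3, h4, h5, h6]
      · by_cases h4 : G.Adj v w
        · have h5 : WE G v w := (te_or_we h4).resolve_left h3
          simp [h2, h3, h4, h5]
        · have h5 : ¬ WE G v w := fun h6 => h4 h6.1
          simp [h2, h3, h4, h5]
  have hs : ∀ S : Finset V, ∑ w, (if w ∈ S then (1 : ℤ) else 0) = S.card := by
    intro S
    rw [← sum_filter, sum_const, filter_mem_eq_inter, univ_inter, nsmul_eq_mul, mul_one]
  rw [sum_congr rfl fun w _ => h1 w, sum_sub_distrib, sum_sub_distrib, sum_add_distrib,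
    ← mul_sum, ← mul_sum, ← mul_sum, hs, hs, hs, hs]
  have h2 : (tn G v ∩ B).card ≤ ((tn G v \ B).filter (fun w => apx G v w ∈ B)).card := by
    refine card_le_card_of_injOn (fun u => apx G v u) ?_ ?_
    · intro u hu
      rw [mem_coe, mem_inter, mem_tn] at hu
      rw [mem_coe, mem_filter, mem_sdiff, mem_tn, apx_apx h hu.1]
      refine ⟨⟨(apx_te hu.1).1, fun h3 => ?_⟩, hu.2⟩
      exact no_tri h hB hv hu.2 h3 hu.1.1 (apx_adj hu.1).1 (apx_adj hu.1).2
    · intro u hu u' hu' he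
      rw [mem_coe, mem_inter, mem_tn] at hu hu'
      have h3 := apx_apx h hu.1
      have h4 := apx_apx h hu'.1
      simp only at he
      rw [he, h4] at h3
      exact h3.symm
  have h3 : ((tn G v ∩ B).card : ℤ) ≤
      ((tn G v \ B).filter (fun w => apx G v w ∈ B)).card := by exact_mod_cast h2
  linarith

end BalBAux

theorem b_weights (h : MinCE G B) (hF : Faces G F) (hB : B.card ≠ 3) :
    -8 * (B.card : ℤ) + ∑ v ∈ B, ∑ w, wt G B v w ≤ ∑ v ∈ B, bal G B F v := by
  classical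
  have h1 : -8 * (B.card : ℤ) = ∑ v ∈ B, (-8 : ℤ) := by
    rw [sum_const, nsmul_eq_mul, mul_comm]
  rw [h1, ← sum_add_distrib]
  refine sum_le_sum fun v hv => ?_
  have h2 := sum_wt h hB hv
  have h3 := bal_b h hF hv
  linarith

namespace BalBAux

theorem wt_nonneg (v w : V) : 0 ≤ wt G B v w := by
  unfold wt
  split_ifs <;> norm_num

/-- an edge leaves the boundary -/
theorem leave (h : MinCE G B) (hB : B ≠ ∅) : ∃ v ∈ B, ∃ w, w ∉ B ∧ G.Adj v w := by
  by_contra hcon
  push Not at hcon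
  obtain ⟨n, _, c, hn, hc, hcB, hch⟩ := bd_cyc h hB
  have h0 : c 0 ∈ B := (hcB _).2 ⟨0, rfl⟩
  have h1 : c 1 ∈ B := (hcB _).2 ⟨1, rfl⟩
  have h01 : G.Adj (c 0) (c 1) := by
    have := hc.2 0
    rwa [zero_add] at this
  rcases two_conn h (c 0) {x | x ∉ B} (fun h2 => h2 h0) (by
    intro a b hab ha
    left
    intro hb
    exact hcon b hb a ha hab.symm) with h2 | h2
  · obtain ⟨v, hv, u, hu⟩ := exists_inner h
    exact h2 v hv u hu
  · exact h2 (c 1) (fun h3 => h3 h1) h01.ne' (c 0) h01.symm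

end BalBAux

theorem b_sum (h : MinCE G B) (hF : Faces G F) :
    -48 < ∑ v ∈ B, bal G B F v ∨
    (-52 < ∑ v ∈ B, bal G B F v ∧
      ∃ i₀, (F i₀).card = 7 ∧ ∀ v, v ∈ B ↔ ∃ e ∈ F i₀, v ∈ e) := by
  classical
  by_cases hB : B = ∅
  · left
    rw [hB, sum_empty]
    norm_num
  by_cases h3 : B.card = 3
  · left
    have h4 : ∀ v ∈ B, (-12 : ℤ) ≤ bal G B F v := by
      intro v hv
      have h5 := bal_b h hF hv
      have h6 := two_nb h hv
      have h7 : (univ.filter (fun u => OneP G B u ∧ TE G v u ∧ apx G v u ∈ B)).card = 0 := by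
        rw [card_eq_zero, filter_eq_empty_iff]
        rintro u - ⟨h7, h8, h9⟩
        obtain ⟨w, hw, h10, h11⟩ := third h h3 hv h9 (apx_ne h8).1.symm
        have h12 := apex h (apx_adj h8).1 h10 h11 h8.1 (apx_adj h8).2.symm
        exact h7.1.1 (h12 ▸ hw)
      rw [h7] at h5
      have h8 : ((tn G v ∩ B).card : ℤ) ≤ 2 := by
        have : (tn G v ∩ B).card ≤ 2 := by omega
        exact_mod_cast this
      have h9 : (0 : ℤ) ≤ ((wn G v \ B).card : ℤ) := by positivity
      have h10 : (0 : ℤ) ≤ ((tn G v \ B).card : ℤ) := by positivity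
      push_cast at h5
      linarith
    have h5 := sum_le_sum h4
    rw [sum_const, h3] at h5
    norm_num at h5
    linarith
  have hw := b_weights (F := F) h hF h3
  obtain ⟨n, _, c, hn, hc, hcB, hch⟩ := bd_cyc h hB
  have hn' := card_bd hc hcB
  rcases hn with rfl | rfl | rfl
  · exact absurd hn' h3
  · left
    obtain ⟨v, hv, w, hwB, hvw⟩ := leave h hB
    have h4 : 1 ≤ wt G B v w := by
      unfold wt
      rw [if_pos ⟨hv, hwB, hvw⟩]
      split_ifs <;> norm_num
    have h5 : wt G B v w ≤ ∑ w, wt G B v w :=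
      single_le_sum (f := fun w => wt G B v w) (fun w _ => wt_nonneg v w) (mem_univ w)
    have h6 : ∑ w, wt G B v w ≤ ∑ v ∈ B, ∑ w, wt G B v w :=
      single_le_sum (f := fun v => ∑ w, wt G B v w)
        (fun v _ => sum_nonneg fun w _ => wt_nonneg v w) hv
    rw [hn'] at hw
    push_cast at hw
    linarith
  · right
    have h4 := b_seven h hF hn'
    rw [hn'] at hw
    push_cast at hw
    refine ⟨by linarith, ?_⟩
    obtain ⟨i, hi⟩ := face_main h hF (Or.inr (Or.inr rfl)) hc hch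
      (Or.inl fun v hv => (hcB v).mp hv)
    refine ⟨i, ?_, ?_⟩
    · rw [hi, card_cyc (by omega) hc]
    · intro v
      rw [hcB v, hi]
      constructor
      · rintro ⟨j, rfl⟩
        exact ⟨_, cyc_mem j, Sym2.mem_mk_left _ _⟩
      · rintro ⟨e, he, hv⟩
        obtain ⟨j, rfl⟩ := mem_cycEdges.mp he
        rw [Sym2.mem_iff] at hv
        rcases hv with rfl | rfl
        · exact ⟨j, rfl⟩
        · exact ⟨j + 1, rfl⟩

end Pool.Agent.Lib.SVY
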