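import Pool.Agent.Lib.SVY.ValA

/-!
# SVY.CeA: the payments of exceptional vertices

`cls a b`: the class of a triangle at `g` with the other vertices `a`, `b`.  Plan.
`cls_symm`: the ends `a`, `b` of a triangle edge satisfy `okT` (`l_okT` for the edge `a b` with apex
`g`), so at most one of them is `OneP`, `OneQ`, `P1c`; the definition is symmetric then (finite case
analysis on the types).  `oc_eq`: the pair in the definition of `oc` is `(a, b)` or `(b, a)`
(uniqueness of the second triangle, `two_tri`).  `ce_le`: the terms of `∑ u, Ce g u` with `u` `OneP`: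
`u ∈ {a, b, c, d}`, at most one of `a, b`; the `OneQ` terms: every `OneQ` vertex `v` of a triangle at
`g` has exactly one weak neighbour `u`, which is `P1c`; the `P1c` terms.  `due_sum`: `OneP` vertex
`v` with two `Ex2` vertices `g`, `g'`: by `LF.e20`, `e26`, `e21` the other triangles at `g`, `g'`
have no class 2, 4, 3; the class 1 at `g` and 1 or 5 at `g'` contradict `LF.e24`; so the sum of the
`due` is at most 2 (`due` = 2 for class 1, 1 for class 5, 0 for 0, 6).
-/

set_option autoImplicit false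
set_option linter.unusedSectionVars false

namespace Pool.Agent.Lib.SVY

open Finset Pool.Agent.Lib.SVT Pool.Agent.Lib.SVX

variable {V : Type*} [Fintype V] [DecidableEq V] {G : SimpleGraph V} {B : Finset V}
variable {m : ℕ} {F : Fin m → Finset (Sym2 V)} {i : Fin m}

/-- the class of a triangle at `g`, with the other vertices `a`, `b` -/
noncomputable def cls (G : SimpleGraph V) (B : Finset V) (a b : V) : ℕ :=
  ctp (ty G B a) (ty G B b).ecls

open Classical in
/-- the payment of `g` to the triangle `g a b` -/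
noncomputable def pt (G : SimpleGraph V) (B : Finset V) (g a b : V) : ℤ :=
  if OneP G B a then cp G B g a b
  else if OneP G B b then cp G B g b a
  else if OneQ G B a ∨ P1c G B a then cq G B b
  else if OneQ G B b ∨ P1c G B b then cq G B a
  else 0

namespace CeAAux

open ValAAux

/-- finite case analysis -/
theorem ctp_symm : ∀ u v : Ty, ∀ x : Ed, okT u v x = true → ctp u v.ecls = ctp v u.ecls := by
  intro u v x
  cases u <;> cases v <;> cases x <;> decide

/-- special members of a triangle -/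
def Spc (G : SimpleGraph V) (B : Finset V) (v : V) : Prop :=
  OneP G B v ∨ OneQ G B v ∨ P1c G B v

theorem spc_ty (h : MinCE G B) {v : V} (hv : Spc G B v) :
    ty G B v = .a ∨ ty G B v = .b ∨ ty G B v = .p := by
  rcases hv with h1 | h1 | h1
  · exact Or.inl (ty_a.2 h1)
  · exact Or.inr (Or.inl ((ty_b h).2 h1))
  · exact Or.inr (Or.inr ((ty_p h).2 h1))

/-- at most one of the ends is special -/
theorem excl (h : MinCE G B) (hL : LF G B F) {a b : V} (hab : TE G a b) (ha : Spc G B a)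
    (hb : Spc G B b) : False := by
  have hb' := spc_ty h hb
  rcases ha with h1 | h1 | h1
  · have h2 := ma_of h hL h1 hab
    rcases hb' with h3 | h3 | h3 <;> rw [h3] at h2 <;> exact absurd h2 (by decide)
  · have h2 := mb_of h hL h1 hab
    rcases hb' with h3 | h3 | h3 <;> rw [h3] at h2 <;> exact absurd h2 (by decide)
  · have h2 := pc_of h hL h1 hab
    rcases hb' with h3 | h3 | h3 <;> rw [h3] at h2 <;> exact absurd h2 (by decide)

theorem not_pq (h : MinCE G B) {a : V} (h1 : OneP G B a) : ¬ OneQ G B a := by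
  intro h2
  have e1 := ty_a.2 h1
  have e2 := (ty_b h).2 h2
  rw [e1] at e2
  exact absurd e2 (by decide)

theorem not_pc (h : MinCE G B) {a : V} (h1 : OneP G B a) : ¬ P1c G B a := by
  intro h2
  have e1 := ty_a.2 h1
  have e2 := (ty_p h).2 h2
  rw [e1] at e2
  exact absurd e2 (by decide)

theorem not_qc (h : MinCE G B) {a : V} (h1 : OneQ G B a) : ¬ P1c G B a := by
  intro h2
  have e1 := (ty_b h).2 h1
  have e2 := (ty_p h).2 h2
  rw [e1] at e2
  exact absurd e2 (by decide)

/-- the triangle neighbours of an `Ex2` vertex -/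
theorem tn4 (h : MinCE G B) {g a b c d : V}
    (hg : Ex2 G B g) (e1 : G.Adj g a) (e2 : G.Adj g b) (e3 : G.Adj a b) (e4 : G.Adj g c)
    (e5 : G.Adj g d) (e6 : G.Adj c d) (n1 : a ≠ c) (n2 : a ≠ d) (n3 : b ≠ c) (n4 : b ≠ d) :
    tn G g = {a, b, c, d} := by
  have hc : (tn G g).card = 4 := by
    rw [card_tn h g, hg.2.2.1]
  have hs : ({a, b, c, d} : Finset V) ⊆ tn G g := by
    intro x hx
    simp only [mem_insert, mem_singleton] at hx
    rw [mem_tn]
    rcases hx with rfl | rfl | rfl | rfl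
    · exact ⟨e1, b, e2, e3⟩
    · exact ⟨e2, a, e1, e3.symm⟩
    · exact ⟨e4, d, e5, e6⟩
    · exact ⟨e5, c, e4, e6.symm⟩
  have hc4 : ({a, b, c, d} : Finset V).card = 4 := by
    rw [card_insert_of_notMem, card_insert_of_notMem, card_insert_of_notMem, card_singleton]
    · rw [mem_singleton]
      exact e6.ne
    · simp only [mem_insert, mem_singleton, not_or]
      exact ⟨n3, n4⟩
    · simp only [mem_insert, mem_singleton, not_or]
      exact ⟨e3.ne, n1, n2⟩
  exact (eq_of_subset_of_card_le hs (by rw [hc, hc4])).symm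

theorem cq_nonneg (y : V) : 0 ≤ cq G B y := by
  unfold cq
  split_ifs <;> norm_num

open Classical in
/-- the payment of `g` for the vertex `u` of a triangle -/
noncomputable def hh (G : SimpleGraph V) (B : Finset V) (g u : V) : ℤ :=
  (if OneP G B u then cp G B g u (apx G g u) else 0) +
    (if OneQ G B u then cq G B (apx G g u) else 0) +
    (if P1c G B u then cq G B (apx G g u) else 0)

theorem hh_pt (h : MinCE G B) (hL : LF G B F) {g a b : V} (e1 : G.Adj g a) (e2 : G.Adj g b)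
    (e3 : G.Adj a b) : hh G B g a + hh G B g b = pt G B g a b := by
  have ha : apx G g a = b := apx_eq h e1 e2 e3
  have hb : apx G g b = a := apx_eq h e2 e1 e3.symm
  have hab : TE G a b := ⟨e3, g, e1.symm, e2.symm⟩
  have hx := fun p q => excl h hL hab p q
  unfold hh pt
  rw [ha, hb]
  by_cases a1 : OneP G B a
  · have k1 : ¬ OneP G B b := fun k => hx (Or.inl a1) (Or.inl k)
    have k2 : ¬ OneQ G B b := fun k => hx (Or.inl a1) (Or.inr (Or.inl k))
    have k3 : ¬ P1c G B b := fun k => hx (Or.inl a1) (Or.inr (Or.inr k))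
    simp [a1, k1, k2, k3, not_pq h a1, not_pc h a1]
  · by_cases b1 : OneP G B b
    · have k2 : ¬ OneQ G B a := fun k => hx (Or.inr (Or.inl k)) (Or.inl b1)
      have k3 : ¬ P1c G B a := fun k => hx (Or.inr (Or.inr k)) (Or.inl b1)
      simp [a1, b1, k2, k3, not_pq h b1, not_pc h b1]
    · by_cases a2 : OneQ G B a
      · have k2 : ¬ OneQ G B b := fun k => hx (Or.inr (Or.inl a2)) (Or.inr (Or.inl k))
        have k3 : ¬ P1c G B b := fun k => hx (Or.inr (Or.inl a2)) (Or.inr (Or.inr k))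
        simp [a1, b1, a2, k2, k3, not_qc h a2]
      · by_cases a3 : P1c G B a
        · have k2 : ¬ OneQ G B b := fun k => hx (Or.inr (Or.inr a3)) (Or.inr (Or.inl k))
          have k3 : ¬ P1c G B b := fun k => hx (Or.inr (Or.inr a3)) (Or.inr (Or.inr k))
          simp [a1, b1, a2, a3, k2, k3]
        · by_cases b2 : OneQ G B b
          · simp [a1, b1, a2, a3, b2, not_qc h b2]
          · by_cases b3 : P1c G B b <;> simp [a1, b1, a2, a3, b2, b3]

open Classical in
/-- the pairs `v`, `u` with `v` a `OneQ` vertex -/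
theorem sum_q (h : MinCE G B) (g : V) :
    ∑ u, (if P1c G B u then ∑ v ∈ univ.filter (fun v => TE G g v ∧ OneQ G B v ∧ WE G v u),
      cq G B (apx G g v) else 0) ≤ ∑ v ∈ tn G g, if OneQ G B v then cq G B (apx G g v) else 0 := by
  have h1 : ∀ u, (if P1c G B u then
      ∑ v ∈ univ.filter (fun v => TE G g v ∧ OneQ G B v ∧ WE G v u), cq G B (apx G g v) else 0) =
      ∑ v ∈ tn G g, (if OneQ G B v ∧ WE G v u ∧ P1c G B u then cq G B (apx G g v) else 0) := by
    intro u
    by_cases hu : P1c G B u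
    · rw [if_pos hu, ← sum_filter]
      refine sum_congr ?_ (fun _ _ => rfl)
      ext v
      simp only [mem_filter, mem_univ, true_and, mem_tn, hu, and_true]
    · rw [if_neg hu]
      symm
      refine sum_eq_zero (fun v _ => ?_)
      rw [if_neg (fun k => hu k.2.2)]
  rw [sum_congr rfl (fun u _ => h1 u), sum_comm]
  refine sum_le_sum (fun v _ => ?_)
  by_cases hv : OneQ G B v
  · rw [if_pos hv]
    obtain ⟨hv1, z, hz, hz1⟩ := id hv
    rw [sum_eq_single z]
    · split_ifs
      · exact le_refl _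
      · exact cq_nonneg _
    · intro u _ hu
      rw [if_neg]
      rintro ⟨-, k, -⟩
      exact hu (One.wn_unique h hv1 k hz)
    · intro k
      exact absurd (mem_univ _) k
  · rw [if_neg hv]
    refine le_of_eq (sum_eq_zero (fun u _ => ?_))
    rw [if_neg (fun k => hv k.1)]

theorem ce_sum (h : MinCE G B) {g : V} (hg : Ex2 G B g) :
    ∑ u, Ce G B g u ≤ ∑ u ∈ tn G g, hh G B g u := by
  classical
  have h1 : ∀ u, Ce G B g u = (if TE G g u then
      (if OneP G B u then cp G B g u (apx G g u) else 0) else 0) +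
      (if P1c G B u then ∑ v ∈ univ.filter (fun v => TE G g v ∧ OneQ G B v ∧ WE G v u),
      cq G B (apx G g v) else 0) +
      (if TE G g u then (if P1c G B u then cq G B (apx G g u) else 0) else 0) := by
    intro u
    unfold Ce
    rw [if_pos hg]
    by_cases k1 : TE G g u <;> by_cases k2 : OneP G B u <;> by_cases k3 : P1c G B u <;>
      simp [k1, k2, k3] <;> ring
  have h2 : ∀ f : V → ℤ, ∑ u, (if TE G g u then f u else 0) = ∑ u ∈ tn G g, f u := by
    intro f
    rw [← sum_filter]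
    refine sum_congr ?_ (fun _ _ => rfl)
    ext v
    simp only [mem_filter, mem_univ, true_and, mem_tn]
  rw [sum_congr rfl (fun u _ => h1 u), sum_add_distrib, sum_add_distrib, h2, h2]
  have h3 := sum_q (G := G) (B := B) h g
  unfold hh
  rw [sum_add_distrib, sum_add_distrib]
  linarith

/-- the two triangles at an `Ex2` vertex -/
theorem two (h : MinCE G B) {g v a b : V} (hg : Ex2 G B g)
    (e1 : G.Adj g a) (e2 : G.Adj g b) (e3 : G.Adj a b) (hv : TE G g v) (h1 : v ≠ a)
    (h2 : v ≠ b) {p q : V} (hp : G.Adj g p) (hq : G.Adj g q) (hpq : G.Adj p q) (h3 : p ≠ v)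
    (h4 : q ≠ v) : (p = a ∧ q = b) ∨ (p = b ∧ q = a) := by
  obtain ⟨hv0, w, hw1, hw2⟩ := hv
  have wa : a ≠ w := by
    rintro rfl
    exact h2 (apex h e1 hv0 hw2.symm e2 e3)
  have wb : b ≠ w := by
    rintro rfl
    exact h1 (apex h e2 hv0 hw2.symm e1 e3.symm)
  have ht := tn4 h hg e1 e2 e3 hv0 hw1 hw2 h1.symm wa h2.symm wb
  have hp1 : p ∈ tn G g := mem_tn.2 ⟨hp, q, hq, hpq⟩
  have hq1 : q ∈ tn G g := mem_tn.2 ⟨hq, p, hp, hpq.symm⟩
  have hpw : p ≠ w := by
    rintro rfl
    exact h4 (apex h hp hq hpq hv0 hw2.symm)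
  have hqw : q ≠ w := by
    rintro rfl
    exact h3 (apex h hq hp hpq.symm hv0 hw2.symm)
  rw [ht] at hp1 hq1
  simp only [mem_insert, mem_singleton] at hp1 hq1
  have hne := hpq.ne
  rcases hp1 with k | k | k | k
  · rcases hq1 with l | l | l | l
    · exact absurd (k.trans l.symm) hne
    · exact Or.inl ⟨k, l⟩
    · exact absurd l h4
    · exact absurd l hqw
  · rcases hq1 with l | l | l | l
    · exact Or.inr ⟨k, l⟩
    · exact absurd (k.trans l.symm) hne
    · exact absurd l h4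
    · exact absurd l hqw
  · exact absurd k h3
  · exact absurd k hpw

end CeAAux

open CeAAux

theorem cls_symm (h : MinCE G B) (hF : Faces G F) (hL : LF G B F) {a b : V} (hab : TE G a b) :
    cls G B a b = cls G B b a := by
  exact ctp_symm _ _ _ (l_okT h hF hL hab)

/-- the class of the triangle on a ring edge -/
theorem cls_ed (h : MinCE G B) {g a b : V} (e1 : G.Adj g a) (e2 : G.Adj g b) (e3 : G.Adj a b) :
    ctp (ty G B a) (ed G B g a) = cls G B a b := by
  rw [ed_te ⟨e1, b, e2, e3⟩, apx_eq h e1 e2 e3]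
  rfl

theorem oc_eq (h : MinCE G B) (hF : Faces G F) (hL : LF G B F) {g v a b : V} (hg : Ex2 G B g)
    (e1 : G.Adj g a) (e2 : G.Adj g b) (e3 : G.Adj a b) (hv : TE G g v) (h1 : v ≠ a)
    (h2 : v ≠ b) : oc G B g v = cls G B a b := by
  classical
  have hex : ∃ q : V × V, G.Adj g q.1 ∧ G.Adj g q.2 ∧ G.Adj q.1 q.2 ∧ q.1 ≠ v ∧ q.2 ≠ v :=
    ⟨(a, b), e1, e2, e3, h1.symm, h2.symm⟩
  have h3 : oc G B g v = cls G B hex.choose.1 hex.choose.2 := by
    unfold oc
    rw [dif_pos hex]
    rfl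
  obtain ⟨k1, k2, k3, k4, k5⟩ := hex.choose_spec
  rw [h3]
  rcases two h hg e1 e2 e3 hv h1 h2 k1 k2 k3 k4 k5 with ⟨l1, l2⟩ | ⟨l1, l2⟩
  · rw [l1, l2]
  · rw [l1, l2]
    exact cls_symm h hF hL ⟨e3.symm, g, e2.symm, e1.symm⟩

theorem ce_le (h : MinCE G B) (hF : Faces G F) (hL : LF G B F) {g a b c d : V}
    (hg : Ex2 G B g) (e1 : G.Adj g a) (e2 : G.Adj g b) (e3 : G.Adj a b) (e4 : G.Adj g c)
    (e5 : G.Adj g d) (e6 : G.Adj c d) (n1 : a ≠ c) (n2 : a ≠ d) (n3 : b ≠ c) (n4 : b ≠ d) :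
    ∑ u, Ce G B g u ≤ pt G B g a b + pt G B g c d := by
  refine (ce_sum h hg).trans (le_of_eq ?_)
  rw [tn4 h hg e1 e2 e3 e4 e5 e6 n1 n2 n3 n4, sum_insert, sum_insert, sum_insert, sum_singleton,
    ← hh_pt h hL e1 e2 e3, ← hh_pt h hL e4 e5 e6]
  · ring
  · rw [mem_singleton]
    exact e6.ne
  · simp only [mem_insert, mem_singleton, not_or]
    exact ⟨n3, n4⟩
  · simp only [mem_insert, mem_singleton, not_or]
    exact ⟨e3.ne, n1, n2⟩

namespace CeAAux

open ValAAux

theorem ex2_not_np {g : V} (hg : Ex2 G B g) : ¬ Np G B g := by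
  intro h1
  have h2 := np_iff.2 h1
  rw [ty_G.2 hg] at h2
  exact absurd h2 (by decide)

theorem sm_ty {v : V} (hv : (ty G B v).sm = true) : Sm G B v := sm_iff.1 hv

/-- the other triangle at an `Ex2` vertex -/
theorem other (h : MinCE G B) {g v w : V} (hg : Ex2 G B g) (e1 : G.Adj g v) (e2 : G.Adj g w)
    (e3 : G.Adj v w) : ∃ a b, G.Adj g a ∧ G.Adj g b ∧ G.Adj a b ∧ a ≠ v ∧ a ≠ w ∧ b ≠ v ∧ b ≠ w ∧
      ¬ G.Adj a v ∧ ¬ G.Adj a w ∧ ¬ G.Adj b v ∧ ¬ G.Adj b w := by
  obtain ⟨p, q, r, s, k1, k2, k3, k4, k5, k6, p1, p2, p3, p4, p5, p6, m1, m2, m3, m4, hx⟩ :=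
    two_tri h hg.2.2.1
  rcases hx v ⟨e1, w, e2, e3⟩ with rfl | rfl | rfl | rfl
  · have hw : w = q := apex h e1 e2 e3 p2 p3
    subst hw
    exact ⟨r, s, p4, p5, p6, k3.symm, k5.symm, k4.symm, k6.symm, fun t => m1 t.symm,
      fun t => m3 t.symm, fun t => m2 t.symm, fun t => m4 t.symm⟩
  · have hw : w = p := apex h e1 e2 e3 p1 p3.symm
    subst hw
    exact ⟨r, s, p4, p5, p6, k5.symm, k3.symm, k6.symm, k4.symm, fun t => m3 t.symm,
      fun t => m1 t.symm, fun t => m4 t.symm, fun t => m2 t.symm⟩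
  · have hw : w = s := apex h e1 e2 e3 p5 p6
    subst hw
    exact ⟨p, q, p1, p2, p3, k3, k4, k5, k6, m1, m2, m3, m4⟩
  · have hw : w = r := apex h e1 e2 e3 p4 p6.symm
    subst hw
    exact ⟨p, q, p1, p2, p3, k4, k3, k6, k5, m2, m1, m4, m3⟩

/-- the kinds of the other triangle -/
def Kind (G : SimpleGraph V) (B : Finset V) (g v w : V) (t : ℕ) : Prop :=
  due t = 0 ∨
  (due t = 2 ∧ ∃ v', TE G g v' ∧ v' ≠ v ∧ v' ≠ w ∧ ¬ G.Adj v' w ∧ OneP G B v' ∧
    Np G B (apx G g v')) ∨
  (due t = 1 ∧ ∃ v', TE G g v' ∧ v' ≠ v ∧ v' ≠ w ∧ ¬ G.Adj v' w ∧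
    (OneQ G B v' ∨ P1c G B v') ∧ Ex2 G B (apx G g v'))

theorem kind1 (h : MinCE G B) (hL : LF G B F) {g v w a b : V}
    (hg : Ex2 G B g) (hv : OneP G B v) (hw : Ex2 G B w) (e1 : G.Adj g v) (e2 : G.Adj g w)
    (e3 : G.Adj v w) (f1 : G.Adj g a) (f2 : G.Adj g b) (f3 : G.Adj a b) (n1 : a ≠ v)
    (n2 : a ≠ w) (m1 : ¬ G.Adj a v) (m2 : ¬ G.Adj a w) (ha : Spc G B a) :
    Kind G B g v w (cls G B a b) := by
  have hab : apx G g a = b := apx_eq h f1 f2 f3
  have hvw : apx G g v = w := apx_eq h e1 e2 e3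
  have ta : TE G g a := ⟨f1, b, f2, f3⟩
  have tv : TE G g v := ⟨e1, w, e2, e3⟩
  have tab : TE G a b := ⟨f3, g, f1.symm, f2.symm⟩
  have q4 : (OneQ G B a ∨ P1c G B a) → Sm G B b → False := fun k1 k2 =>
    hL.e26 g v a hg tv ta n1.symm (fun t => m1 t.symm) hv (hvw.symm ▸ hw) k1 (hab.symm ▸ k2)
  have q5 : (OneQ G B a ∨ P1c G B a) → Ex2 G B b → cls G B a b = 5 →
      Kind G B g v w (cls G B a b) := by
    intro k1 k2 k3
    refine Or.inr (Or.inr ⟨?_, a, ta, n1, n2, m2, k1, hab.symm ▸ k2⟩)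
    rw [k3]
    decide
  have z6 : cls G B a b = 6 → Kind G B g v w (cls G B a b) := by
    intro k
    refine Or.inl ?_
    rw [k]
    decide
  rcases ha with h1 | h1 | h1
  · have k0 := ty_a.2 h1
    have k1 : cls G B a b = ctp .a (ty G B b).ecls := by
      unfold cls
      rw [k0]
    have h2 := ma_of h hL h1 tab
    have np : Np G B b → cls G B a b = 1 → Kind G B g v w (cls G B a b) := by
      intro k2 k3
      refine Or.inr (Or.inl ⟨?_, a, ta, n1, n2, m2, h1, hab.symm ▸ k2⟩)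
      rw [k3]
      decide
    cases e : ty G B b <;> rw [e] at h2 k1 <;> try exact absurd h2 (by decide)
    case X => exact np (Or.inl (ty_X.1 e)) (k1.trans (by decide))
    case f => exact np (Or.inr (ty_f.1 e)) (k1.trans (by decide))
    case F =>
      refine (hL.e20 g a v hg ta tv n1 m1 h1 (hab.symm ▸ sm_ty ?_) hv).elim
      rw [e]
      decide
    case G =>
      exact (hL.e21 g a v hg ta tv n1 m1 h1 (hab.symm ▸ ty_G.1 e) hv (hvw.symm ▸ hw)).elim
  · have k0 := (ty_b h).2 h1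
    have k1 : cls G B a b = ctp .b (ty G B b).ecls := by
      unfold cls
      rw [k0]
    have h2 := mb_of h hL h1 tab
    cases e : ty G B b <;> rw [e] at h2 k1 <;> try exact absurd h2 (by decide)
    case X => exact z6 (k1.trans (by decide))
    case f => exact z6 (k1.trans (by decide))
    case F =>
      refine (q4 (Or.inl h1) (sm_ty ?_)).elim
      rw [e]
      decide
    case G => exact q5 (Or.inl h1) (ty_G.1 e) (k1.trans (by decide))
  · have k0 := (ty_p h).2 h1
    have k1 : cls G B a b = ctp .p (ty G B b).ecls := by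
      unfold cls
      rw [k0]
    have h2 := pc_of h hL h1 tab
    have sm : (ty G B b).sm = true → False := fun k => q4 (Or.inr h1) (sm_ty k)
    cases e : ty G B b <;> rw [e] at h2 k1 sm <;> try exact absurd h2 (by decide)
    case X => exact z6 (k1.trans (by decide))
    case f => exact z6 (k1.trans (by decide))
    case F => exact (sm (by decide)).elim
    case N => exact (sm (by decide)).elim
    case E => exact (sm (by decide)).elim
    case G => exact q5 (Or.inr h1) (ty_G.1 e) (k1.trans (by decide))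
    case K =>
      have k2 : apx G a b = g := apx_eq h f3 f1.symm f2.symm
      exact (hL.a19 a b h1 (ty_K.1 e) tab (k2.symm ▸ ex2_not_np hg)).elim

theorem ctp_zero : ∀ u v : Ty, u ≠ .a → u ≠ .b → u ≠ .p → v ≠ .a → v ≠ .b → v ≠ .p →
    ctp u v.ecls = 0 := by
  intro u v
  cases u <;> cases v <;> decide

theorem kind (h : MinCE G B) (hF : Faces G F) (hL : LF G B F) {g v w : V}
    (hg : Ex2 G B g) (hv : OneP G B v) (hw : Ex2 G B w) (e1 : G.Adj g v) (e2 : G.Adj g w)
    (e3 : G.Adj v w) : Kind G B g v w (oc G B g v) := by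
  obtain ⟨a, b, f1, f2, f3, n1, n2, n3, n4, m1, m2, m3, m4⟩ := other h hg e1 e2 e3
  rw [oc_eq h hF hL hg f1 f2 f3 ⟨e1, w, e2, e3⟩ n1.symm n3.symm]
  by_cases ha : Spc G B a
  · exact kind1 h hL hg hv hw e1 e2 e3 f1 f2 f3 n1 n2 m1 m2 ha
  · by_cases hb : Spc G B b
    · rw [cls_symm h hF hL ⟨f3, g, f1.symm, f2.symm⟩]
      exact kind1 h hL hg hv hw e1 e2 e3 f2 f1 f3.symm n3 n4 m3 m4 hb
    · refine Or.inl ?_
      have k : cls G B a b = 0 :=
        ctp_zero _ _ (fun t => ha (Or.inl (ty_a.1 t)))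
          (fun t => ha (Or.inr (Or.inl ((ty_b h).1 t))))
          (fun t => ha (Or.inr (Or.inr ((ty_p h).1 t)))) (fun t => hb (Or.inl (ty_a.1 t)))
          (fun t => hb (Or.inr (Or.inl ((ty_b h).1 t))))
          (fun t => hb (Or.inr (Or.inr ((ty_p h).1 t))))
      rw [k]
      decide

end CeAAux

theorem due_sum (h : MinCE G B) (hF : Faces G F) (hL : LF G B F) {g g' v : V}
    (hg : Ex2 G B g) (hg' : Ex2 G B g') (hv : OneP G B v) (e1 : G.Adj v g) (e2 : G.Adj v g')
    (e3 : G.Adj g g') : due (oc G B g v) + due (oc G B g' v) ≤ 2 := by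
  have k1 := kind h hF hL hg hv hg' e1.symm e3 e2
  have k2 := kind h hF hL hg' hv hg e2.symm e3.symm e1
  rcases k1 with k1 | ⟨k1, x, x1, x2, x3, x4, x5, x6⟩ | ⟨k1, x, x1, x2, x3, x4, x5, x6⟩
  · rcases k2 with k2 | ⟨k2, -⟩ | ⟨k2, -⟩ <;> omega
  · rcases k2 with k2 | ⟨k2, y, y1, y2, y3, y4, y5, y6⟩ | ⟨k2, y, y1, y2, y3, y4, y5, y6⟩
    · omega
    · exact (hL.e24 g g' v x y hg hg' hv e3 e1 e2 x1 x2 x3 x4 x5 x6 y1 y2 y3 y4
        (Or.inl ⟨y5, y6⟩)).elim
    · exact (hL.e24 g g' v x y hg hg' hv e3 e1 e2 x1 x2 x3 x4 x5 x6 y1 y2 y3 y4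
        (Or.inr ⟨y5, y6⟩)).elim
  · rcases k2 with k2 | ⟨k2, y, y1, y2, y3, y4, y5, y6⟩ | ⟨k2, y, y1, y2, y3, y4, y5, y6⟩
    · omega
    · exact (hL.e24 g' g v y x hg' hg hv e3.symm e2 e1 y1 y2 y3 y4 y5 y6 x1 x2 x3 x4
        (Or.inr ⟨x5, x6⟩)).elim
    · omega

end Pool.Agent.Lib.SVY
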