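import Pool.Agent.Lib.SVY.Bal
import Pool.Agent.Lib.SVY.CeA

/-!
# SVY.BalP: pairs of `OneP` vertices

Plan.  `tin_ge`: `v` is `OneP` in the triangle `v x y`.  Both small: `NV` on the face which is not a
triangle on `x y` gives 2 (`te_nt`).  `x` paying: the dart `x → v` pays `v` (`apx x v = y` is not
`OneP`: `LF.l1`), if `y ∉ B` also the dart `x → y` (its apex is `v`); if `y ∈ B` then `y` is paying,
and if both are in `B` then `Cb` gives 1 twice: `x` paying and `y` small: 4; both paying: 8, or 8, or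
4 + 2; `x` `Ex2` and `y` small: `cp = 4` (`x` is not `ExK`: `LF.pk`); `x` `Ex2` and `y` paying: 2 + 4;
both `Ex2`: the two payments are 3 + 3 or 2 + 4 by `due_sum` (`due (oc x v) + due (oc y v) ≤ 2`).
Members are `≠` and different terms of the sums over `q` are `q = x`, `q = y`.
`nw_ge`: the two faces at the edge `v z`: one has the edges `v x`, `z p`, the other one `v y`, `z q`
for a suitable naming (`One.faces`).
`bal_pair`: `v`, `z` give nothing (`out_none`-type argument: not `Np`, not `Ex2`, `∉ B`, `C1 = 0`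
because `One`), the charges are -4 each; `Tin v + Tin z + NW` is at least 8.
`sum_pair`: pair the vertices with their weak neighbours.
-/

set_option autoImplicit false
set_option linter.unusedSectionVars false

namespace Pool.Agent.Lib.SVY

open Finset Pool.Agent.Lib.SVT Pool.Agent.Lib.SVX

variable {V : Type*} [Fintype V] [DecidableEq V] {G : SimpleGraph V} {B : Finset V}
variable {m : ℕ} {F : Fin m → Finset (Sym2 V)} {i : Fin m}

open Classical in
/-- what a `OneP` vertex receives from its triangle -/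
noncomputable def Tin (G : SimpleGraph V) (B : Finset V) (F : Fin m → Finset (Sym2 V)) (v : V) : ℤ :=
  ∑ q, (Cd G B q v + Cb G B q v + Ce G B q v) + ∑ i, (if NV G B F i v then 2 else 0)

namespace BalPAux

/-- a neighbour in the triangle of a `OneP` vertex is not `OneP`, not `ExK` -/
theorem not_oneP (hL : LF G B F) {v x y : V} (hv : OneP G B v)
    (e1 : G.Adj v x) (e2 : G.Adj v y) (e3 : G.Adj x y) : ¬ OneP G B x := by
  intro hx
  obtain ⟨hv1, z, hz, hz1⟩ := hv
  have h1 : ¬ G.Adj x z := fun h => hz.2 ⟨x, e1, h.symm⟩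
  have h2 : x ≠ z := by
    rintro rfl
    exact hz.2 ⟨y, e2, e3⟩
  exact hL.l1 x v z ⟨hx.1.1, by rw [hx.1.2.1]⟩ ⟨hv1.1, by rw [hv1.2.1]⟩
    ⟨hz1.1, by rw [hz1.2.1]⟩ e1.symm hz.1 h2 h1

theorem ex2_of (hL : LF G B F) {v x y : V} (hv : OneP G B v)
    (e1 : G.Adj v x) (e2 : G.Adj v y) (e3 : G.Adj x y) (hx : Exc G B x) : Ex2 G B x := by
  rcases hx with hx | hx
  · exact hx
  · exact absurd (hL.pk v x hv hx ⟨e1, y, e2, e3⟩) id

/-- payments of a paying member, the other member is not in `B` -/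
theorem cd4 (h : MinCE G B) (hL : LF G B F) {v x y : V} (hv : OneP G B v)
    (e1 : G.Adj v x) (e2 : G.Adj v y) (e3 : G.Adj x y) (hx : Np G B x) (hy : y ∉ B) :
    4 ≤ Cd G B x v := by
  classical
  unfold Cd
  have hvy : v ≠ y := G.ne_of_adj e2
  have h1 : ({v, y} : Finset V) ⊆
      univ.filter (fun a => Dt G B x a ∧ rcp G B x a v) := by
    intro a ha
    rw [mem_insert, mem_singleton] at ha
    rw [mem_filter]
    refine ⟨mem_univ _, ?_⟩
    rcases ha with rfl | rfl
    · refine ⟨⟨hx, ⟨e1.symm, y, e3, e2⟩, hv.1.1⟩, Or.inr (Or.inl ⟨?_, hv, rfl⟩)⟩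
      rw [apx_eq h e1.symm e3 e2]
      exact not_oneP hL hv e2 e1 e3.symm
    · refine ⟨⟨hx, ⟨e3, v, e1.symm, e2.symm⟩, hy⟩, Or.inl ?_⟩
      rw [apx_eq h e3 e1.symm e2.symm]
      exact ⟨hv, rfl⟩
  have h2 := card_le_card h1
  rw [card_pair hvy] at h2
  have h3 : (2 : ℤ) ≤ ((univ.filter (fun a => Dt G B x a ∧ rcp G B x a v)).card : ℤ) := by
    exact_mod_cast h2
  linarith

/-- payments of a paying member -/
theorem cd2 (h : MinCE G B) (hL : LF G B F) {v x y : V} (hv : OneP G B v)
    (e1 : G.Adj v x) (e2 : G.Adj v y) (e3 : G.Adj x y) (hx : Np G B x) :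
    2 ≤ Cd G B x v := by
  classical
  unfold Cd
  have h1 : ({v} : Finset V) ⊆
      univ.filter (fun a => Dt G B x a ∧ rcp G B x a v) := by
    intro a ha
    rw [mem_singleton] at ha
    rw [mem_filter]
    refine ⟨mem_univ _, ?_⟩
    subst ha
    refine ⟨⟨hx, ⟨e1.symm, y, e3, e2⟩, hv.1.1⟩, Or.inr (Or.inl ⟨?_, hv, rfl⟩)⟩
    rw [apx_eq h e1.symm e3 e2]
    exact not_oneP hL hv e2 e1 e3.symm
  have h2 := card_le_card h1
  rw [card_singleton] at h2
  have h3 : (1 : ℤ) ≤ ((univ.filter (fun a => Dt G B x a ∧ rcp G B x a v)).card : ℤ) := by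
    exact_mod_cast h2
  linarith

theorem cb1 (h : MinCE G B) {v x y : V} (hv : OneP G B v)
    (e1 : G.Adj v x) (e2 : G.Adj v y) (e3 : G.Adj x y) (hx : x ∈ B) (hy : y ∈ B) :
    1 ≤ Cb G B x v := by
  unfold Cb
  rw [if_pos]
  refine ⟨hx, hv, ⟨e1.symm, y, e3, e2⟩, ?_⟩
  rw [apx_eq h e1.symm e3 e2]
  exact hy

theorem ce_cp (h : MinCE G B) {v x y : V} (hv : OneP G B v)
    (e1 : G.Adj v x) (e2 : G.Adj v y) (e3 : G.Adj x y) (hx : Ex2 G B x) :
    cp G B x v y ≤ Ce G B x v := by
  classical
  have hP : ¬ P1c G B v := fun hp => by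
    have h1 := hp.1.2.1
    have h2 := hv.1.2.1
    omega
  unfold Ce
  rw [if_pos hx, if_neg hP, if_pos ⟨hv, e1.symm, y, e3, e2⟩, apx_eq h e1.symm e3 e2]
  linarith

/-- the two members give at least this -/
theorem pair_le (v : V) {x y : V} (hxy : x ≠ y) :
    (Cd G B x v + Cb G B x v + Ce G B x v) + (Cd G B y v + Cb G B y v + Ce G B y v) ≤
      ∑ q, (Cd G B q v + Cb G B q v + Ce G B q v) := by
  classical
  have h1 : ∑ q ∈ ({x, y} : Finset V), (Cd G B q v + Cb G B q v + Ce G B q v) ≤
      ∑ q, (Cd G B q v + Cb G B q v + Ce G B q v) := by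
    refine sum_le_sum_of_subset_of_nonneg (subset_univ _) fun q _ _ => ?_
    have h2 := Cd_nonneg (G := G) (B := B) q v
    have h3 := Cb_nonneg (G := G) (B := B) q v
    have h4 := Ce_nonneg (G := G) (B := B) q v
    linarith
  rwa [sum_pair hxy] at h1

theorem not_B_sm {x : V} (hx : Sm G B x) : x ∉ B := fun h => hx.1 (Or.inl (Or.inl h))

theorem not_B_ex {x : V} (hx : Ex2 G B x) : x ∉ B := hx.1

end BalPAux

open BalPAux

open Classical in
theorem tin_ge (h : MinCE G B) (hF : Faces G F) (hL : LF G B F) {v x y : V} (hv : OneP G B v)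
    (e1 : G.Adj v x) (e2 : G.Adj v y) (e3 : G.Adj x y) :
    2 + (if Sm G B x then 0 else 2) + (if Sm G B y then 0 else 2) ≤ Tin G B F v := by
  have hxy : x ≠ y := G.ne_of_adj e3
  unfold Tin
  have hNV : 0 ≤ ∑ i, (if NV G B F i v then (2 : ℤ) else 0) :=
    sum_nonneg fun i _ => by split_ifs <;> norm_num
  have hp := pair_le (G := G) (B := B) v hxy
  have a1 := Cd_nonneg (G := G) (B := B) x v
  have a2 := Cd_nonneg (G := G) (B := B) y v
  have a3 := Cb_nonneg (G := G) (B := B) x v
  have a4 := Cb_nonneg (G := G) (B := B) y v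
  have a5 := Ce_nonneg (G := G) (B := B) x v
  have a6 := Ce_nonneg (G := G) (B := B) y v
  by_cases sx : Sm G B x
  · by_cases sy : Sm G B y
    · -- both small
      rw [if_pos sx, if_pos sy]
      obtain ⟨i, hi, hi2⟩ := te_nt h hF (a := x) (b := y) ⟨e3, v, e1.symm, e2.symm⟩
      have h1 : (2 : ℤ) ≤ ∑ i, (if NV G B F i v then (2 : ℤ) else 0) := by
        have h2 : (if NV G B F i v then (2 : ℤ) else 0) ≤
            ∑ i, (if NV G B F i v then (2 : ℤ) else 0) :=
          single_le_sum (f := fun i => if NV G B F i v then (2 : ℤ) else 0)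
            (fun i _ => by split_ifs <;> norm_num) (mem_univ i)
        rw [if_pos] at h2
        · exact h2
        · refine ⟨hv, hi, x, ⟨e1, y, e2, e3⟩, sx, ?_, ?_⟩
          · rw [apx_eq h e1 e2 e3]
            exact sy
          · rw [apx_eq h e1 e2 e3]
            exact hi2
      linarith
    · rw [if_pos sx, if_neg sy]
      by_cases ny : Np G B y
      · have h1 := cd4 h hL hv e2 e1 e3.symm ny (not_B_sm sx)
        linarith
      · have ey : Exc G B y := by
          by_contra h1
          exact sy ⟨ny, h1⟩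
        have ey2 := ex2_of hL hv e2 e1 e3.symm ey
        have h1 := ce_cp h hv e2 e1 e3.symm ey2
        have h2 : cp G B y v x = 4 := by
          unfold cp
          rw [if_neg sx.1, if_neg sx.2]
        linarith
  · by_cases sy : Sm G B y
    · rw [if_neg sx, if_pos sy]
      by_cases nx : Np G B x
      · have h1 := cd4 h hL hv e1 e2 e3 nx (not_B_sm sy)
        linarith
      · have ex : Exc G B x := by
          by_contra h1
          exact sx ⟨nx, h1⟩
        have ex2 := ex2_of hL hv e1 e2 e3 ex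
        have h1 := ce_cp h hv e1 e2 e3 ex2
        have h2 : cp G B x v y = 4 := by
          unfold cp
          rw [if_neg sy.1, if_neg sy.2]
        linarith
    · rw [if_neg sx, if_neg sy]
      by_cases nx : Np G B x
      · by_cases ny : Np G B y
        · by_cases bx : x ∈ B
          · by_cases byy : y ∈ B
            · have h1 := cd2 h hL hv e1 e2 e3 nx
              have h2 := cd2 h hL hv e2 e1 e3.symm ny
              have h3 := cb1 h hv e1 e2 e3 bx byy
              have h4 := cb1 h hv e2 e1 e3.symm byy bx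
              linarith
            · have h1 := cd4 h hL hv e1 e2 e3 nx byy
              have h2 := cd2 h hL hv e2 e1 e3.symm ny
              linarith
          · have h1 := cd2 h hL hv e1 e2 e3 nx
            have h2 := cd4 h hL hv e2 e1 e3.symm ny bx
            linarith
        · have ey : Exc G B y := by
            by_contra h1
            exact sy ⟨ny, h1⟩
          have ey2 := ex2_of hL hv e2 e1 e3.symm ey
          have h1 := ce_cp h hv e2 e1 e3.symm ey2
          have h2 := cp_ge (G := G) (B := B) y v x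
          have h3 := cd4 h hL hv e1 e2 e3 nx (not_B_ex ey2)
          linarith
      · have ex : Exc G B x := by
          by_contra h1
          exact sx ⟨nx, h1⟩
        have ex2 := ex2_of hL hv e1 e2 e3 ex
        have h1 := ce_cp h hv e1 e2 e3 ex2
        by_cases ny : Np G B y
        · have h2 := cp_ge (G := G) (B := B) x v y
          have h3 := cd4 h hL hv e2 e1 e3.symm ny (not_B_ex ex2)
          linarith
        · have ey : Exc G B y := by
            by_contra h1
            exact sy ⟨ny, h1⟩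
          have ey2 := ex2_of hL hv e2 e1 e3.symm ey
          have h2 := ce_cp h hv e2 e1 e3.symm ey2
          have h3 := due_sum h hF hL ex2 ey2 hv e1 e2 e3
          have h4 : 6 ≤ cp G B x v y + cp G B y v x := by
            unfold cp
            rw [if_neg nx, if_neg ny, if_pos ex, if_pos ey]
            by_cases d1 : 2 ≤ due (oc G B x v)
            · by_cases d2 : 2 ≤ due (oc G B y v)
              · omega
              · rw [if_pos d1, if_neg d2, if_pos d1]
                norm_num
            · by_cases d2 : 2 ≤ due (oc G B y v)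
              · rw [if_neg d1, if_pos d2, if_pos d2]
                norm_num
              · rw [if_neg d1, if_neg d2, if_neg d2, if_neg d1]
                norm_num
          linarith

open Classical in
theorem nw_ge (h : MinCE G B) (hF : Faces G F) {v z x y : V} (hv : OneP G B v) (hz : WE G v z)
    (hz1 : One G B z) (e1 : G.Adj v x) (e2 : G.Adj v y) (e3 : G.Adj x y) :
    ∃ p q, G.Adj z p ∧ G.Adj z q ∧ G.Adj p q ∧
      (if Sm G B x ∧ Sm G B p ∧ ¬ (Exc G B y ∧ Exc G B q) then 1 else 0) +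
      (if Sm G B y ∧ Sm G B q ∧ ¬ (Exc G B x ∧ Exc G B p) then 1 else 0) ≤
        ∑ i, (if NW G B F i v then (1 : ℤ) else 0) ∧
      (if Sm G B x ∧ Sm G B p ∧ ¬ (Exc G B y ∧ Exc G B q) then 1 else 0) +
      (if Sm G B y ∧ Sm G B q ∧ ¬ (Exc G B x ∧ Exc G B p) then 1 else 0) ≤
        ∑ i, (if NW G B F i z then (1 : ℤ) else 0) := by
  have hxy : x ≠ y := G.ne_of_adj e3
  have hzv := hz.symm
  have hzP : OneP G B z := ⟨hz1, v, hzv, hv.1⟩
  obtain ⟨p, q, hpq, f1, f2, f3, -⟩ := one_tri h hz1.2.2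
  obtain ⟨⟨j1, a1, a2⟩, ⟨j2, a3, a4⟩⟩ := One.faces h hF hv.1 e1 e2 e3 hz
  obtain ⟨⟨k1, b1, b2⟩, ⟨k2, b3, b4⟩⟩ := One.faces h hF hz1 f1 f2 f3 hzv
  have hxz : x ≠ z := by
    rintro rfl
    exact hz.2 ⟨y, e2, e3⟩
  have hyz : y ≠ z := by
    rintro rfl
    exact hz.2 ⟨x, e1, e3.symm⟩
  have hpv : p ≠ v := by
    rintro rfl
    exact hzv.2 ⟨q, f2, f3⟩
  have hqv : q ≠ v := by
    rintro rfl
    exact hzv.2 ⟨p, f1, f3.symm⟩
  have hj : j1 ≠ j2 := by
    rintro rfl
    rcases face_two hF hxy a1 a3 a2 with h1 | h1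
    · exact hxz h1.symm
    · exact hyz h1.symm
  have hk : k1 ≠ k2 := by
    rintro rfl
    rcases face_two hF hpq b1 b3 b2 with h1 | h1
    · exact hpv h1.symm
    · exact hqv h1.symm
  rw [Sym2.eq_swap] at b2 b4
  obtain ⟨k, hk1, hk2, hk3⟩ := RingNAux.second hF a2
  have hj2 : j2 = k := by
    rcases hk3 j2 a4 with h1 | h1
    · exact absurd h1.symm hj
    · exact h1
  subst hj2
  -- the main step
  have main : ∀ p q, G.Adj z p → G.Adj z q → G.Adj p q → s(z, p) ∈ F j1 → s(z, q) ∈ F j2 →
      (if Sm G B x ∧ Sm G B p ∧ ¬ (Exc G B y ∧ Exc G B q) then 1 else 0) +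
      (if Sm G B y ∧ Sm G B q ∧ ¬ (Exc G B x ∧ Exc G B p) then 1 else 0) ≤
        ∑ i, (if NW G B F i v then (1 : ℤ) else 0) ∧
      (if Sm G B x ∧ Sm G B p ∧ ¬ (Exc G B y ∧ Exc G B q) then 1 else 0) +
      (if Sm G B y ∧ Sm G B q ∧ ¬ (Exc G B x ∧ Exc G B p) then 1 else 0) ≤
        ∑ i, (if NW G B F i z then (1 : ℤ) else 0) := by
    intro p q f1 f2 f3 c1 c2
    have ax : apx G v x = y := apx_eq h e1 e2 e3
    have ay : apx G v y = x := apx_eq h e2 e1 e3.symm
    have ap : apx G z p = q := apx_eq h f1 f2 f3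
    have aq : apx G z q = p := apx_eq h f2 f1 f3.symm
    have sub : ∀ w : V, (if NW G B F j1 w then (1 : ℤ) else 0) +
        (if NW G B F j2 w then (1 : ℤ) else 0) ≤
          ∑ i, (if NW G B F i w then (1 : ℤ) else 0) := by
      intro w
      have h1 : ∑ i ∈ ({j1, j2} : Finset (Fin m)), (if NW G B F i w then (1 : ℤ) else 0) ≤
          ∑ i, (if NW G B F i w then (1 : ℤ) else 0) := by
        refine sum_le_sum_of_subset_of_nonneg (subset_univ _) fun i _ _ => ?_
        split_ifs <;> norm_num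
      rwa [sum_pair hj] at h1
    have v1 : (Sm G B x ∧ Sm G B p ∧ ¬ (Exc G B y ∧ Exc G B q)) → NW G B F j1 v := by
      rintro ⟨g1, g2, g3⟩
      exact ⟨hv, z, x, p, hz, hz1, ⟨e1, y, e2, e3⟩, ⟨f1, q, f2, f3⟩, a2, a1, c1, g1, g2, by
        rw [ax, ap]; exact g3⟩
    have v2 : (Sm G B y ∧ Sm G B q ∧ ¬ (Exc G B x ∧ Exc G B p)) → NW G B F j2 v := by
      rintro ⟨g1, g2, g3⟩
      exact ⟨hv, z, y, q, hz, hz1, ⟨e2, x, e1, e3.symm⟩, ⟨f2, p, f1, f3.symm⟩, a4, a3, c2, g1,
        g2, by rw [ay, aq]; exact g3⟩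
    have w1 : (Sm G B x ∧ Sm G B p ∧ ¬ (Exc G B y ∧ Exc G B q)) → NW G B F j1 z := by
      rintro ⟨g1, g2, g3⟩
      refine ⟨hzP, v, p, x, hzv, hv.1, ⟨f1, q, f2, f3⟩, ⟨e1, y, e2, e3⟩, ?_, c1, a1, g2, g1, ?_⟩
      · rw [Sym2.eq_swap]
        exact a2
      · rw [ax, ap]
        exact fun g => g3 ⟨g.2, g.1⟩
    have w2 : (Sm G B y ∧ Sm G B q ∧ ¬ (Exc G B x ∧ Exc G B p)) → NW G B F j2 z := by
      rintro ⟨g1, g2, g3⟩
      refine ⟨hzP, v, q, y, hzv, hv.1, ⟨f2, p, f1, f3.symm⟩, ⟨e2, x, e1, e3.symm⟩, ?_, c2, a3,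
        g2, g1, ?_⟩
      · rw [Sym2.eq_swap]
        exact a4
      · rw [ay, aq]
        exact fun g => g3 ⟨g.2, g.1⟩
    have le1 : ∀ (P Q : Prop) [Decidable P] [Decidable Q], (P → Q) →
        (if P then (1 : ℤ) else 0) ≤ (if Q then (1 : ℤ) else 0) := by
      intro P Q _ _ hPQ
      by_cases hP : P
      · rw [if_pos hP, if_pos (hPQ hP)]
      · rw [if_neg hP]
        split_ifs <;> norm_num
    exact ⟨(add_le_add (le1 _ _ v1) (le1 _ _ v2)).trans (sub v),
      (add_le_add (le1 _ _ w1) (le1 _ _ w2)).trans (sub z)⟩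
  rcases hk3 k1 b2 with h1 | h1
  · subst h1
    rcases hk3 k2 b4 with h2 | h2
    · exact absurd h2.symm hk
    · subst h2
      exact ⟨p, q, f1, f2, f3, main p q f1 f2 f3 b1 b3⟩
  · subst h1
    rcases hk3 k2 b4 with h2 | h2
    · subst h2
      exact ⟨q, p, f2, f1, f3.symm, main q p f2 f1 f3.symm b3 b1⟩
    · exact absurd h2.symm hk

namespace BalPAux

theorem oneP_not_np {v : V} (hv : One G B v) : ¬ Np G B v := by
  rintro ((h1 | h1) | h1)
  · exact hv.1 h1
  · have := hv.2.1
    have := h1.1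
    omega
  · have := hv.2.1
    have := h1.1.2.1
    omega

theorem oneP_not_ex2 {v : V} (hv : One G B v) : ¬ Ex2 G B v := by
  intro h1
  have := hv.2.1
  have := h1.2.1
  omega

theorem out_zero {v : V} (hv : One G B v) : out G B F v = 0 := by
  classical
  have n1 := oneP_not_np hv
  have n2 := oneP_not_ex2 hv
  unfold out
  have h1 : ∀ u, CC G B v u = 0 := by
    intro u
    unfold CC
    have c1 : C1 G B v u = 0 := by
      unfold C1
      rw [if_neg]
      exact fun hh => hh.2 hv
    have c2 : Cd G B v u = 0 := by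
      unfold Cd
      have : (univ.filter (fun a => Dt G B v a ∧ rcp G B v a u)) = ∅ := by
        rw [filter_eq_empty_iff]
        intro a _ hh
        exact n1 hh.1.1
      rw [this]
      simp
    have c3 : Cb G B v u = 0 := by
      unfold Cb
      rw [if_neg]
      exact fun hh => hv.1 hh.1
    have c4 : Ce G B v u = 0 := by
      unfold Ce
      rw [if_neg n2]
    rw [c1, c2, c3, c4]
    rfl
  have h2 : ∀ i, Af G B F v i = 0 := by
    intro i
    unfold Af
    have c1 : (univ.filter (fun a => FD G B v a ∧ Rcv G B F v a i)) = ∅ := by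
      rw [filter_eq_empty_iff]
      intro a _ hh
      exact n1 hh.1.1.1
    rw [c1, if_neg (fun hh => n2 hh.1), if_neg (fun hh => n2 hh.1)]
    simp
  rw [sum_eq_zero (fun u _ => h1 u), sum_eq_zero (fun i _ => h2 i)]
  rfl

open Classical in
theorem inn_ge (v : V) :
    Tin G B F v + ∑ i, (if NW G B F i v then (1 : ℤ) else 0) ≤ inn G B F v := by
  unfold Tin inn
  have h1 : ∑ q, (Cd G B q v + Cb G B q v + Ce G B q v) ≤ ∑ q, CC G B q v := by
    refine sum_le_sum fun q _ => ?_
    unfold CC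
    have := C1_nonneg (G := G) (B := B) q v
    linarith
  have h2 : ∑ i, (if NV G B F i v then (2 : ℤ) else 0) +
      ∑ i, (if NW G B F i v then (1 : ℤ) else 0) ≤ ∑ i, Bf G B F i v := by
    rw [← sum_add_distrib]
    refine sum_le_sum fun i _ => ?_
    unfold Bf
    have : (0 : ℤ) ≤ (if N1 G B F i v then 2 else 0) := by split_ifs <;> norm_num
    linarith
  linarith

theorem qv_one {v : V} (hv : One G B v) : qv G v = -1 := by
  unfold qv
  rw [hv.2.1, hv.2.2]
  norm_num

end BalPAux

theorem bal_pair (h : MinCE G B) (hF : Faces G F) (hL : LF G B F) {v z : V} (hv : OneP G B v)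
    (hz : WE G v z) (hz1 : One G B z) : 0 ≤ bal G B F v + bal G B F z := by
  classical
  have hzP : OneP G B z := ⟨hz1, v, hz.symm, hv.1⟩
  obtain ⟨x, y, hxy, e1, e2, e3, -⟩ := one_tri h hv.1.2.2
  obtain ⟨p, q, f1, f2, f3, g1, g2⟩ := nw_ge h hF hv hz hz1 e1 e2 e3
  have t1 := tin_ge h hF hL hv e1 e2 e3
  have t2 := tin_ge h hF hL hzP f1 f2 f3
  have i1 := inn_ge (G := G) (B := B) (F := F) v
  have i2 := inn_ge (G := G) (B := B) (F := F) z
  unfold bal
  rw [out_zero hv.1, out_zero hz1, qv_one hv.1, qv_one hz1]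
  have key : (8 : ℤ) ≤ (2 + (if Sm G B x then 0 else 2) + (if Sm G B y then 0 else 2)) +
      (2 + (if Sm G B p then 0 else 2) + (if Sm G B q then 0 else 2)) +
      2 * ((if Sm G B x ∧ Sm G B p ∧ ¬ (Exc G B y ∧ Exc G B q) then 1 else 0) +
      (if Sm G B y ∧ Sm G B q ∧ ¬ (Exc G B x ∧ Exc G B p) then 1 else 0)) := by
    by_cases sx : Sm G B x
    · by_cases sy : Sm G B y
      · by_cases sp : Sm G B p
        · by_cases sq : Sm G B q
          · rw [if_pos (⟨sx, sp, fun hh => sy.2 hh.1⟩ : Sm G B x ∧ Sm G B p ∧ _),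
              if_pos (⟨sy, sq, fun hh => sx.2 hh.1⟩ : Sm G B y ∧ Sm G B q ∧ _)]
            simp only [sx, sy, sp, sq, if_true]
            norm_num
          · rw [if_pos (⟨sx, sp, fun hh => sy.2 hh.1⟩ : Sm G B x ∧ Sm G B p ∧ _)]
            simp only [sx, sy, sp, sq, if_true, if_false, false_and, and_false]
            norm_num
        · by_cases sq : Sm G B q
          · rw [if_pos (⟨sy, sq, fun hh => sx.2 hh.1⟩ : Sm G B y ∧ Sm G B q ∧ _)]
            simp only [sx, sy, sp, sq, if_true, if_false, false_and, and_false]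
            norm_num
          · simp only [sx, sy, sp, sq, if_true, if_false, false_and, and_false]
            norm_num
      · by_cases sp : Sm G B p
        · by_cases sq : Sm G B q
          · rw [if_pos (⟨sx, sp, fun hh => sq.2 hh.2⟩ : Sm G B x ∧ Sm G B p ∧ _)]
            simp only [sx, sy, sp, sq, if_true, if_false, false_and, and_false]
            norm_num
          · simp only [sx, sy, sp, sq, if_true, if_false, false_and, and_false]
            split_ifs <;> norm_num
        · simp only [sx, sy, sp, if_true, if_false, false_and, and_false]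
          split_ifs <;> norm_num
    · by_cases sy : Sm G B y
      · by_cases sq : Sm G B q
        · by_cases sp : Sm G B p
          · rw [if_pos (⟨sy, sq, fun hh => sp.2 hh.2⟩ : Sm G B y ∧ Sm G B q ∧ _)]
            simp only [sx, sy, sp, sq, if_true, if_false, false_and, and_false]
            norm_num
          · simp only [sx, sy, sp, sq, if_true, if_false, false_and, and_false]
            split_ifs <;> norm_num
        · simp only [sx, sy, sq, if_true, if_false, false_and, and_false]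
          split_ifs <;> norm_num
      · simp only [sx, sy, if_false, false_and]
        split_ifs <;> norm_num
  linarith

open Classical in
theorem sum_pair (h : MinCE G B) (hF : Faces G F) (hL : LF G B F) :
    0 ≤ ∑ v ∈ univ.filter (fun v => OneP G B v), bal G B F v := by
  have hex : ∀ v, ∃ z, OneP G B v → WE G v z ∧ OneP G B z := by
    intro v
    by_cases hv : OneP G B v
    · obtain ⟨z, hz, hz1⟩ := hv.2
      exact ⟨z, fun _ => ⟨hz, hz1, v, hz.symm, hv.1⟩⟩
    · exact ⟨v, fun hh => absurd hh hv⟩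
  choose σ hσ using hex
  have hinv : ∀ v, OneP G B v → σ (σ v) = v := by
    intro v hv
    have h1 := hσ v hv
    have h2 := hσ (σ v) h1.2
    exact One.wn_unique h h1.2.1 h2.1 h1.1.symm
  have h1 : ∑ v ∈ univ.filter (fun v => OneP G B v), bal G B F v =
      ∑ v ∈ univ.filter (fun v => OneP G B v), bal G B F (σ v) := by
    refine sum_nbij' σ σ ?_ ?_ ?_ ?_ ?_
    · intro v hv
      rw [mem_filter] at hv ⊢
      exact ⟨mem_univ _, (hσ v hv.2).2⟩
    · intro v hv
      rw [mem_filter] at hv ⊢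
      exact ⟨mem_univ _, (hσ v hv.2).2⟩
    · intro v hv
      rw [mem_filter] at hv
      exact hinv v hv.2
    · intro v hv
      rw [mem_filter] at hv
      exact hinv v hv.2
    · intro v hv
      rw [mem_filter] at hv
      rw [hinv v hv.2]
  have h2 : 0 ≤ ∑ v ∈ univ.filter (fun v => OneP G B v), (bal G B F v + bal G B F (σ v)) := by
    refine sum_nonneg fun v hv => ?_
    rw [mem_filter] at hv
    obtain ⟨h3, h4⟩ := hσ v hv.2
    exact bal_pair h hF hL hv.2 h3 h4.1
  rw [sum_add_distrib, ← h1] at h2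
  linarith

end Pool.Agent.Lib.SVY
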