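import Pool.Agent.Lib.SVY.Bal
import Pool.Agent.Lib.SVY.CeA

/-!
# SVY.BalQ: `P1c` vertices

Plan.  `z` is `P1c` with weak neighbours `v`, `v'` (`OneQ`) in triangles `v x y`, `v' x' y'`, and in the
triangle `z a b`.  The charge is 4 and `z` gives 4 + 4 (not `Np`, not `Ex2`, `∉ B`).  Every one of
the three triangles which has a member which is not small gives at least 2:
`v x y`: `x` paying: the dart `x → v` pays `z` (`apx x v = y` is not `OneP` by `LF.l1`, `v` is not
`OneP`); `x` exceptional: `Ex2` by `LF.qk`, pays `cq y`: 2 if `y` is small, 1 if `y` is exceptional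
(then `y` also pays 1).  `z a b`: `a` paying: the dart `a → z` pays `z` (`b` is not `OneP`: `LF.l2` /
`l_okT`; `z` is not `OneP`, `OneQ`); `a` exceptional: if `b` is small then `a` is `Ex2` (`LF.a19`) and
pays 2; both exceptional: both `Ex2` (`LF.a19`), 1 + 1.
Two of the triangles with small members only: the face at `z` between them (`F12.faces` at `z`: the
face with `v`, `v'`, the face with `a`, `v` and the face with `b`, `v'` for a suitable naming) has
`N1` and gives 2; `mok z i v`: the face has an edge `v x` after `z v` (`face_next`), `x` and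
`apx v x` are small.  Different pairs of triangles: different faces.  With `s` the number of
triangles with small members only: `2 (3 - s) + 2 * (s choose 2) ≥ 4`.
-/

set_option autoImplicit false
set_option linter.unusedSectionVars false

namespace Pool.Agent.Lib.SVY

open Finset Pool.Agent.Lib.SVT Pool.Agent.Lib.SVX

variable {V : Type*} [Fintype V] [DecidableEq V] {G : SimpleGraph V} {B : Finset V}
variable {m : ℕ} {F : Fin m → Finset (Sym2 V)} {i : Fin m}

namespace BalQAux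

theorem not_one {z : V} (hz : P1c G B z) : ¬ One G B z := by
  intro h1
  have h2 := hz.1.2.1
  have h3 := h1.2.1
  omega

theorem not_np (h : MinCE G B) {z : V} (hz : P1c G B z) : ¬ Np G B z := by
  rintro ((h1 | h1) | h1)
  · exact hz.1.1 h1
  · have h2 := hz.1.2.1
    have h3 := h1.1
    omega
  · obtain ⟨a, b, -, w1, -, -⟩ := F12.weak h hz.1
    exact h1.2 a w1 (Or.inl (hz.2 a w1))

theorem not_ex2 {z : V} (hz : P1c G B z) : ¬ Ex2 G B z := by
  intro h1
  have h2 := hz.1.2.1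
  have h3 := h1.2.1
  omega

theorem qv_p {z : V} (hz : P1c G B z) : qv G z = 1 := by
  unfold qv
  rw [hz.1.2.1, hz.1.2.2]
  norm_num

theorem inn3 {v : V} (hv : One G B v) : Inn G B 3 v := ⟨hv.1, by rw [hv.2.1]⟩

/-- a `OneP` vertex is not in a triangle with a vertex of degree 3 -/
theorem not_oneP (hL : LF G B F) {v x : V} (hv : Inn G B 3 v) (e : TE G v x) :
    ¬ OneP G B x := by
  rintro ⟨hx1, w, hw, hw1⟩
  have n1 : w ≠ v := by
    rintro rfl
    exact e.symm.not_we hw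
  have n2 : ¬ G.Adj w v := fun h' => hw.2 ⟨v, e.1.symm, h'⟩
  exact hL.l1 w x v (inn3 hw1) (inn3 hx1) hv hw.1.symm e.1.symm n1 n2

/-- a `P1c` vertex is not in a triangle with a vertex of degree 3 -/
theorem own_not_one (h : MinCE G B) (hL : LF G B F) {z b : V} (hz : P1c G B z)
    (e : TE G z b) : ¬ One G B b := by
  intro hb
  obtain ⟨p, q, hpq, w1, w2, -⟩ := F12.weak h hz.1
  have n1 : p ≠ b := by
    rintro rfl
    exact e.not_we w1
  have n2 : q ≠ b := by
    rintro rfl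
    exact e.not_we w2
  exact hL.c2 z p q b ⟨hz.1.1, by rw [hz.1.2.1]⟩ (inn3 (hz.2 p w1)) (inn3 (hz.2 q w2)) (inn3 hb)
    w1.1 w2.1 e.1 hpq n1 n2 (fun h' => w1.2 ⟨q, w2.1, h'⟩) (fun h' => w1.2 ⟨b, e.1, h'⟩)
    (fun h' => w2.2 ⟨b, e.1, h'⟩)

theorem dart_side (h : MinCE G B) (hL : LF G B F) {z v x y : V} (hz : P1c G B z)
    (hv : WE G z v) (e1 : G.Adj v x) (e2 : G.Adj v y) (e3 : G.Adj x y) (hx : Np G B x) :
    Dt G B x v ∧ rcp G B x v z := by
  have hv1 := hz.2 v hv
  have hQ : OneQ G B v := ⟨hv1, z, hv.symm, hz⟩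
  refine ⟨⟨hx, ⟨e1.symm, y, e3, e2⟩, hv1.1⟩, Or.inr (Or.inr (Or.inl ⟨?_, ?_, hQ, hv.symm, hz⟩))⟩
  · rw [apx_eq h e1.symm e3 e2]
    exact not_oneP hL (inn3 hv1) ⟨e2, x, e1, e3.symm⟩
  · rintro ⟨-, w, hw, hw1⟩
    have h1 := One.wn_unique h hv1 hw hv.symm
    exact not_one hz (h1 ▸ hw1)

theorem dart_own (h : MinCE G B) (hL : LF G B F) {z a b : V} (hz : P1c G B z)
    (e1 : G.Adj z a) (e2 : G.Adj z b) (e3 : G.Adj a b) (ha : Np G B a) :
    Dt G B a z ∧ rcp G B a z z := by
  refine ⟨⟨ha, ⟨e1.symm, b, e3, e2⟩, hz.1.1⟩, Or.inr (Or.inr (Or.inr ⟨?_, ?_, ?_, hz, rfl⟩))⟩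
  · rw [apx_eq h e1.symm e3 e2]
    exact fun hb => own_not_one h hL hz ⟨e2, a, e1, e3.symm⟩ hb.1
  · exact fun h1 => not_one hz h1.1
  · exact fun h1 => not_one hz h1.1

theorem two_of_mem {S T : Finset V} {f : V → ℤ} (hf : ∀ g, 0 ≤ f g) {x : V} (hx : x ∈ S) :
    2 ≤ 2 * (S.card : ℤ) + ∑ g ∈ T, f g := by
  have h1 : 0 < S.card := card_pos.2 ⟨x, hx⟩
  have h2 : (1 : ℤ) ≤ (S.card : ℤ) := by exact_mod_cast h1
  have h3 : 0 ≤ ∑ g ∈ T, f g := sum_nonneg fun g _ => hf g
  linarith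

open Classical in
theorem core (h : MinCE G B) {u x y : V} (e1 : G.Adj u x) (e2 : G.Adj u y) (e3 : G.Adj x y)
    (hs : ¬ (Sm G B x ∧ Sm G B y)) {S : Finset V} (k1 : Np G B x → x ∈ S)
    (k2 : Np G B y → y ∈ S) (k3 : Exc G B x → ¬ Np G B y → Ex2 G B x)
    (k4 : Exc G B y → ¬ Np G B x → Ex2 G B y) :
    2 ≤ 2 * (S.card : ℤ) +
      ∑ g ∈ univ.filter (fun g => Ex2 G B g ∧ TE G g u), cq G B (apx G g u) := by
  by_cases nx : Np G B x
  · exact two_of_mem (fun g => cq_nonneg _) (k1 nx)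
  by_cases ny : Np G B y
  · exact two_of_mem (fun g => cq_nonneg _) (k2 ny)
  have hS : (0 : ℤ) ≤ (S.card : ℤ) := by positivity
  have mx : Ex2 G B x → x ∈ univ.filter (fun g => Ex2 G B g ∧ TE G g u) :=
    fun hx => mem_filter.2 ⟨mem_univ _, hx, e1.symm, y, e3, e2⟩
  have my : Ex2 G B y → y ∈ univ.filter (fun g => Ex2 G B g ∧ TE G g u) :=
    fun hy => mem_filter.2 ⟨mem_univ _, hy, e2.symm, x, e3.symm, e1⟩
  have ax : apx G x u = y := apx_eq h e1.symm e3 e2
  have ay : apx G y u = x := apx_eq h e2.symm e3.symm e1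
  by_cases ex : Exc G B x
  · by_cases ey : Exc G B y
    · have h1 : ({x, y} : Finset V) ⊆ univ.filter (fun g => Ex2 G B g ∧ TE G g u) := by
        intro t ht
        rw [mem_insert, mem_singleton] at ht
        rcases ht with rfl | rfl
        · exact mx (k3 ex ny)
        · exact my (k4 ey nx)
      have h2 : ∑ g ∈ ({x, y} : Finset V), cq G B (apx G g u) ≤
          ∑ g ∈ univ.filter (fun g => Ex2 G B g ∧ TE G g u), cq G B (apx G g u) :=
        sum_le_sum_of_subset_of_nonneg h1 fun g _ _ => cq_nonneg _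
      rw [sum_pair e3.ne, ax, ay] at h2
      have c1 : cq G B y = 1 := by
        unfold cq
        rw [if_neg ny, if_pos ey]
      have c2 : cq G B x = 1 := by
        unfold cq
        rw [if_neg nx, if_pos ex]
      linarith
    · have h2 : cq G B (apx G x u) ≤
          ∑ g ∈ univ.filter (fun g => Ex2 G B g ∧ TE G g u), cq G B (apx G g u) :=
        single_le_sum (f := fun g => cq G B (apx G g u)) (fun g _ => cq_nonneg _)
          (mx (k3 ex ny))
      rw [ax] at h2
      have c1 : cq G B y = 2 := by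
        unfold cq
        rw [if_neg ny, if_neg ey]
      linarith
  · have ey : Exc G B y := by
      by_contra ey
      exact hs ⟨⟨nx, ex⟩, ⟨ny, ey⟩⟩
    have h2 : cq G B (apx G y u) ≤
        ∑ g ∈ univ.filter (fun g => Ex2 G B g ∧ TE G g u), cq G B (apx G g u) :=
      single_le_sum (f := fun g => cq G B (apx G g u)) (fun g _ => cq_nonneg _)
        (my (k4 ey nx))
    rw [ay] at h2
    have c1 : cq G B x = 2 := by
      unfold cq
      rw [if_neg nx, if_neg ex]
    linarith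

end BalQAux

open BalQAux

open Classical in
/-- a weak neighbour gives 2 if its triangle has a member which is not small -/
theorem q_side (h : MinCE G B) (hF : Faces G F) (hL : LF G B F) {z v x y : V} (hz : P1c G B z)
    (hv : WE G z v) (e1 : G.Adj v x) (e2 : G.Adj v y) (e3 : G.Adj x y)
    (hs : ¬ (Sm G B x ∧ Sm G B y)) :
    2 ≤ 2 * ((univ.filter (fun q => Dt G B q v ∧ rcp G B q v z)).card : ℤ) +
      ∑ g ∈ univ.filter (fun g => Ex2 G B g ∧ TE G g v), cq G B (apx G g v) := by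
  have hv1 := hz.2 v hv
  have hQ : OneQ G B v := ⟨hv1, z, hv.symm, hz⟩
  refine core h e1 e2 e3 hs ?_ ?_ ?_ ?_
  · intro hx
    exact mem_filter.2 ⟨mem_univ _, dart_side h hL hz hv e1 e2 e3 hx⟩
  · intro hy
    exact mem_filter.2 ⟨mem_univ _, dart_side h hL hz hv e2 e1 e3.symm hy⟩
  · rintro (hx | hx) -
    · exact hx
    · exact absurd (hL.qk v x hQ hx ⟨e1, y, e2, e3⟩) id
  · rintro (hy | hy) -
    · exact hy
    · exact absurd (hL.qk v y hQ hy ⟨e2, x, e1, e3.symm⟩) id

open Classical in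
/-- the own triangle -/
theorem q_own (h : MinCE G B) (hF : Faces G F) (hL : LF G B F) {z a b : V} (hz : P1c G B z)
    (e1 : G.Adj z a) (e2 : G.Adj z b) (e3 : G.Adj a b) (hs : ¬ (Sm G B a ∧ Sm G B b)) :
    2 ≤ 2 * ((univ.filter (fun q => Dt G B q z ∧ rcp G B q z z)).card : ℤ) +
      ∑ g ∈ univ.filter (fun g => Ex2 G B g ∧ TE G g z), cq G B (apx G g z) := by
  refine core h e1 e2 e3 hs ?_ ?_ ?_ ?_
  · intro hx
    exact mem_filter.2 ⟨mem_univ _, dart_own h hL hz e1 e2 e3 hx⟩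
  · intro hy
    exact mem_filter.2 ⟨mem_univ _, dart_own h hL hz e2 e1 e3.symm hy⟩
  · rintro (hx | hx) ny
    · exact hx
    · refine absurd (hL.a19 z a hz hx ⟨e1, b, e2, e3⟩ ?_) id
      rw [apx_eq h e1 e2 e3]
      exact ny
  · rintro (hy | hy) nx
    · exact hy
    · refine absurd (hL.a19 z b hz hy ⟨e2, a, e1, e3.symm⟩ ?_) id
      rw [apx_eq h e2 e1 e3.symm]
      exact nx

open Classical in
/-- the pairs of triangles with small members only -/
theorem q_faces (h : MinCE G B) (hF : Faces G F) {z v v' x y x' y' a b : V} (hz : P1c G B z)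
    (hvv : v ≠ v') (hv : WE G z v) (hv' : WE G z v') (e1 : G.Adj v x) (e2 : G.Adj v y)
    (e3 : G.Adj x y) (e4 : G.Adj v' x') (e5 : G.Adj v' y') (e6 : G.Adj x' y') (e7 : G.Adj z a)
    (e8 : G.Adj z b) (e9 : G.Adj a b) :
    (if (Sm G B x ∧ Sm G B y) ∧ (Sm G B x' ∧ Sm G B y') then 2 else 0) +
      (if (Sm G B x ∧ Sm G B y) ∧ (Sm G B a ∧ Sm G B b) then 2 else 0) +
      (if (Sm G B x' ∧ Sm G B y') ∧ (Sm G B a ∧ Sm G B b) then 2 else 0) ≤
        ∑ i, (if N1 G B F i z then (2 : ℤ) else 0) := by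
  obtain ⟨p, q, hpq, w1, w2, hw, ⟨j1, a1, a2⟩, ⟨j2, b1, b2⟩, ⟨j3, c1, c2⟩⟩ :=
    F12.faces h hF hz.1 e7 e8 e9
  have ta : TE G z a := ⟨e7, b, e8, e9⟩
  have tb : TE G z b := ⟨e8, a, e7, e9.symm⟩
  have nap : a ≠ p := by
    rintro rfl
    exact ta.not_we w1
  have naq : a ≠ q := by
    rintro rfl
    exact ta.not_we w2
  have nbp : b ≠ p := by
    rintro rfl
    exact tb.not_we w1
  have nbq : b ≠ q := by
    rintro rfl
    exact tb.not_we w2
  have d12 : j1 ≠ j2 := by
    rintro rfl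
    rcases face_two hF nap a1 a2 b1 with h1 | h1
    · exact e9.ne h1.symm
    · exact nbp h1
  have d13 : j1 ≠ j3 := by
    rintro rfl
    rcases face_two hF nap a1 a2 c2 with h1 | h1
    · exact naq h1.symm
    · exact hpq h1.symm
  have d23 : j2 ≠ j3 := by
    rintro rfl
    rcases face_two hF nbq b1 b2 c1 with h1 | h1
    · exact nbp h1.symm
    · exact hpq h1
  -- the sum
  have hsum : (if N1 G B F j3 z then (2 : ℤ) else 0) + (if N1 G B F j1 z then (2 : ℤ) else 0) +
      (if N1 G B F j2 z then (2 : ℤ) else 0) ≤ ∑ i, (if N1 G B F i z then (2 : ℤ) else 0) := by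
    have h1 : ∑ i ∈ ({j3, j1, j2} : Finset (Fin m)), (if N1 G B F i z then (2 : ℤ) else 0) ≤
        ∑ i, (if N1 G B F i z then (2 : ℤ) else 0) := by
      refine sum_le_sum_of_subset_of_nonneg (subset_univ _) fun i _ _ => ?_
      split_ifs <;> norm_num
    rw [sum_insert, sum_pair d12] at h1
    · linarith
    · rw [mem_insert, mem_singleton, not_or]
      exact ⟨d13.symm, d23.symm⟩
  -- the sides
  have mw : ∀ {j : Fin m} {u s t : V}, WE G z u → G.Adj u s → G.Adj u t → G.Adj s t →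
      s(z, u) ∈ F j → Sm G B s ∧ Sm G B t → mok G B F z j u := by
    intro j u s t hu f1 f2 f3 hj hst
    have hu1 := hz.2 u hu
    left
    rw [Sym2.eq_swap] at hj
    obtain ⟨r, hr, hr1, hr2⟩ := face_next hF hj
    have nsz : s ≠ z := by
      rintro rfl
      exact hu.2 ⟨t, f3, f2⟩
    have ntz : t ≠ z := by
      rintro rfl
      exact hu.2 ⟨s, f3.symm, f1⟩
    rcases RingNAux.nb3 hu1.2.1 f1 f2 hu.1.symm f3.ne nsz ntz hr2 with h1 | h1 | h1
    · subst h1
      refine ⟨hu, r, ⟨f1, t, f2, f3⟩, hr1, hst.1, ?_⟩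
      rw [apx_eq h f1 f2 f3]
      exact hst.2
    · subst h1
      refine ⟨hu, r, ⟨f2, s, f1, f3.symm⟩, hr1, hst.2, ?_⟩
      rw [apx_eq h f2 f1 f3.symm]
      exact hst.1
    · exact absurd h1 hr
  have ma : ∀ {j : Fin m}, Sm G B a ∧ Sm G B b → mok G B F z j a := by
    intro j hab
    right
    refine ⟨ta, hab.1, ?_⟩
    rw [apx_eq h e7 e8 e9]
    exact hab.2
  have mb : ∀ {j : Fin m}, Sm G B a ∧ Sm G B b → mok G B F z j b := by
    intro j hab
    right
    refine ⟨tb, hab.2, ?_⟩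
    rw [apx_eq h e8 e7 e9.symm]
    exact hab.1
  have main : ∀ s t s' t' : V, G.Adj p s → G.Adj p t → G.Adj s t → G.Adj q s' → G.Adj q t' →
      G.Adj s' t' →
      ((Sm G B s ∧ Sm G B t) ∧ (Sm G B s' ∧ Sm G B t') → N1 G B F j3 z) ∧
      ((Sm G B s ∧ Sm G B t) ∧ (Sm G B a ∧ Sm G B b) → N1 G B F j1 z) ∧
      ((Sm G B s' ∧ Sm G B t') ∧ (Sm G B a ∧ Sm G B b) → N1 G B F j2 z) := by
    intro s t s' t' f1 f2 f3 f4 f5 f6
    refine ⟨?_, ?_, ?_⟩
    · rintro ⟨h1, h2⟩
      exact ⟨hz, we_nt h hF w1 c1, p, q, hpq, c1, c2, mw w1 f1 f2 f3 c1 h1,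
        mw w2 f4 f5 f6 c2 h2⟩
    · rintro ⟨h1, h2⟩
      exact ⟨hz, we_nt h hF w1 a2, a, p, nap, a1, a2, ma h2, mw w1 f1 f2 f3 a2 h1⟩
    · rintro ⟨h1, h2⟩
      exact ⟨hz, we_nt h hF w2 b2, b, q, nbq, b1, b2, mb h2, mw w2 f4 f5 f6 b2 h1⟩
  have le2 : ∀ (P Q : Prop) [Decidable P] [Decidable Q], (P → Q) →
      (if P then (2 : ℤ) else 0) ≤ (if Q then (2 : ℤ) else 0) := by
    intro P Q _ _ hPQ
    by_cases hP : P
    · rw [if_pos hP, if_pos (hPQ hP)]
    · rw [if_neg hP]
      split_ifs <;> norm_num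
  rcases hw v hv with hvp | hvq
  · rcases hw v' hv' with hvp' | hvq'
    · exact absurd (hvp.trans hvp'.symm) hvv
    · subst hvp
      subst hvq'
      obtain ⟨g1, g2, g3⟩ := main x y x' y' e1 e2 e3 e4 e5 e6
      exact (add_le_add (add_le_add (le2 _ _ g1) (le2 _ _ g2)) (le2 _ _ g3)).trans hsum
  · rcases hw v' hv' with hvp' | hvq'
    · subst hvq
      subst hvp'
      obtain ⟨g1, g2, g3⟩ := main x' y' x y e4 e5 e6 e1 e2 e3
      have g1' : (Sm G B x ∧ Sm G B y) ∧ (Sm G B x' ∧ Sm G B y') → N1 G B F j3 z :=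
        fun hh => g1 ⟨hh.2, hh.1⟩
      have k1 := le2 _ _ g1'
      have k2 := le2 _ _ g2
      have k3 := le2 _ _ g3
      linarith
    · exact absurd (hvq.trans hvq'.symm) hvv

namespace BalQAux

open Classical in
theorem out_le (h : MinCE G B) {z : V} (hz : P1c G B z) : out G B F z ≤ 8 := by
  have n1 := not_np h hz
  have n2 := not_ex2 hz
  obtain ⟨p, q, hpq, w1, w2, hw⟩ := F12.weak h hz.1
  have h1 : ∀ u, CC G B z u ≤ (if u = p then (4 : ℤ) else 0) + (if u = q then 4 else 0) := by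
    intro u
    unfold CC
    have c2 : Cd G B z u = 0 := by
      unfold Cd
      have c5 : (univ.filter (fun a => Dt G B z a ∧ rcp G B z a u)) = ∅ := by
        rw [filter_eq_empty_iff]
        intro a _ hh
        exact n1 hh.1.1
      rw [c5]
      simp
    have c3 : Cb G B z u = 0 := by
      unfold Cb
      rw [if_neg]
      exact fun hh => hz.1.1 hh.1
    have c4 : Ce G B z u = 0 := by
      unfold Ce
      rw [if_neg n2]
    rw [c2, c3, c4]
    unfold C1
    by_cases hu : WE G z u ∧ ¬ One G B z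
    · rw [if_pos hu, if_pos (hz.2 u hu.1)]
      rcases hw u hu.1 with e | e
      · rw [if_pos e]
        split_ifs <;> norm_num
      · rw [if_pos e]
        split_ifs <;> norm_num
    · rw [if_neg hu]
      split_ifs <;> norm_num
  have h2 : ∀ i, Af G B F z i = 0 := by
    intro i
    unfold Af
    have c1 : (univ.filter (fun a => FD G B z a ∧ Rcv G B F z a i)) = ∅ := by
      rw [filter_eq_empty_iff]
      intro a _ hh
      exact n1 hh.1.1.1
    rw [c1, if_neg (fun hh => n2 hh.1), if_neg (fun hh => n2 hh.1)]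
    simp
  unfold out
  rw [sum_eq_zero (fun i _ => h2 i)]
  have h3 := sum_le_sum (s := (univ : Finset V)) fun u _ => h1 u
  rw [sum_add_distrib, sum_ite_eq', sum_ite_eq', if_pos (mem_univ _), if_pos (mem_univ _)] at h3
  linarith

open Classical in
/-- darts -/
theorem cd_ge {z p q : V} (n1 : p ≠ q) (n2 : p ≠ z) (n3 : q ≠ z) :
    2 * ((univ.filter (fun x => Dt G B x p ∧ rcp G B x p z)).card : ℤ) +
      2 * ((univ.filter (fun x => Dt G B x q ∧ rcp G B x q z)).card : ℤ) +
      2 * ((univ.filter (fun x => Dt G B x z ∧ rcp G B x z z)).card : ℤ) ≤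
        ∑ x, Cd G B x z := by
  have e1 : ∑ x, Cd G B x z =
      ∑ a, 2 * ((univ.filter (fun x => Dt G B x a ∧ rcp G B x a z)).card : ℤ) := by
    have e2 : ∀ x, Cd G B x z = ∑ a, (if Dt G B x a ∧ rcp G B x a z then (2 : ℤ) else 0) := by
      intro x
      unfold Cd
      rw [card_filter]
      push_cast
      rw [mul_sum]
      refine sum_congr rfl fun a _ => ?_
      split_ifs <;> norm_num
    have e3 : ∀ a, 2 * ((univ.filter (fun x => Dt G B x a ∧ rcp G B x a z)).card : ℤ) =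
        ∑ x, (if Dt G B x a ∧ rcp G B x a z then (2 : ℤ) else 0) := by
      intro a
      rw [card_filter]
      push_cast
      rw [mul_sum]
      refine sum_congr rfl fun x _ => ?_
      split_ifs <;> norm_num
    rw [sum_congr rfl fun x _ => e2 x, sum_congr rfl fun a _ => e3 a, sum_comm]
  have h1 : ∑ a ∈ ({p, q, z} : Finset V),
      2 * ((univ.filter (fun x => Dt G B x a ∧ rcp G B x a z)).card : ℤ) ≤
      ∑ a, 2 * ((univ.filter (fun x => Dt G B x a ∧ rcp G B x a z)).card : ℤ) :=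
    sum_le_sum_of_subset_of_nonneg (subset_univ _) fun a _ _ => by positivity
  rw [sum_insert, sum_pair n3] at h1
  · rw [e1]
    linarith
  · rw [mem_insert, mem_singleton, not_or]
    exact ⟨n1, n2⟩

open Classical in
/-- exceptional vertices -/
theorem ce_ge {z p q : V} (hz : P1c G B z) (w1 : WE G z p) (w2 : WE G z q) (n1 : p ≠ q) :
    (∑ g ∈ univ.filter (fun g => Ex2 G B g ∧ TE G g p), cq G B (apx G g p)) +
      (∑ g ∈ univ.filter (fun g => Ex2 G B g ∧ TE G g q), cq G B (apx G g q)) +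
      (∑ g ∈ univ.filter (fun g => Ex2 G B g ∧ TE G g z), cq G B (apx G g z)) ≤
        ∑ g, Ce G B g z := by
  have hp : OneQ G B p := ⟨hz.2 p w1, z, w1.symm, hz⟩
  have hq : OneQ G B q := ⟨hz.2 q w2, z, w2.symm, hz⟩
  rw [sum_filter, sum_filter, sum_filter, ← sum_add_distrib, ← sum_add_distrib]
  refine sum_le_sum fun g _ => ?_
  unfold Ce
  by_cases hg : Ex2 G B g
  · rw [if_pos hg, if_neg (fun hh : OneP G B z ∧ TE G g z => not_one hz hh.1.1), if_pos hz,
      zero_add]
    have h2 : (if Ex2 G B g ∧ TE G g z then cq G B (apx G g z) else 0) =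
        (if TE G g z then cq G B (apx G g z) else 0) := by
      by_cases h3 : TE G g z
      · rw [if_pos ⟨hg, h3⟩, if_pos h3]
      · rw [if_neg (fun hh => h3 hh.2), if_neg h3]
    rw [h2]
    refine add_le_add ?_ le_rfl
    rw [sum_filter]
    have h4 : ∑ v ∈ ({p, q} : Finset V),
        (if TE G g v ∧ OneQ G B v ∧ WE G v z then cq G B (apx G g v) else 0) ≤
        ∑ v, (if TE G g v ∧ OneQ G B v ∧ WE G v z then cq G B (apx G g v) else 0) := by
      refine sum_le_sum_of_subset_of_nonneg (subset_univ _) fun v _ _ => ?_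
      split_ifs
      · exact cq_nonneg _
      · exact le_rfl
    rw [sum_pair n1] at h4
    have h5 : ∀ u, OneQ G B u → WE G z u →
        (if Ex2 G B g ∧ TE G g u then cq G B (apx G g u) else 0) =
        (if TE G g u ∧ OneQ G B u ∧ WE G u z then cq G B (apx G g u) else 0) := by
      intro u hu hw
      by_cases h3 : TE G g u
      · rw [if_pos ⟨hg, h3⟩, if_pos ⟨h3, hu, hw.symm⟩]
      · rw [if_neg (fun hh => h3 hh.2), if_neg (fun hh => h3 hh.1)]
    rw [h5 p hp w1, h5 q hq w2]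
    exact h4
  · rw [if_neg hg, if_neg (fun hh => hg hh.1), if_neg (fun hh => hg hh.1),
      if_neg (fun hh => hg hh.1)]
    norm_num

open Classical in
theorem in_ge {z p q : V} (hz : P1c G B z) (w1 : WE G z p) (w2 : WE G z q) (n1 : p ≠ q) :
    (2 * ((univ.filter (fun x => Dt G B x p ∧ rcp G B x p z)).card : ℤ) +
      ∑ g ∈ univ.filter (fun g => Ex2 G B g ∧ TE G g p), cq G B (apx G g p)) +
    (2 * ((univ.filter (fun x => Dt G B x q ∧ rcp G B x q z)).card : ℤ) +
      ∑ g ∈ univ.filter (fun g => Ex2 G B g ∧ TE G g q), cq G B (apx G g q)) +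
    (2 * ((univ.filter (fun x => Dt G B x z ∧ rcp G B x z z)).card : ℤ) +
      ∑ g ∈ univ.filter (fun g => Ex2 G B g ∧ TE G g z), cq G B (apx G g z)) +
    ∑ i, (if N1 G B F i z then (2 : ℤ) else 0) ≤ inn G B F z := by
  have h1 := cd_ge (G := G) (B := B) n1 w1.1.ne' w2.1.ne'
  have h2 := ce_ge hz w1 w2 n1
  have h3 : ∑ x, Cd G B x z + ∑ x, Ce G B x z ≤ ∑ x, CC G B x z := by
    rw [← sum_add_distrib]
    refine sum_le_sum fun x _ => ?_
    unfold CC
    have a1 := C1_nonneg (G := G) (B := B) x z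
    have a2 := Cb_nonneg (G := G) (B := B) x z
    linarith
  have h4 : ∑ i, (if N1 G B F i z then (2 : ℤ) else 0) ≤ ∑ i, Bf G B F i z := by
    refine sum_le_sum fun i _ => ?_
    unfold Bf
    have a1 : (0 : ℤ) ≤ (if NV G B F i z then 2 else 0) := by split_ifs <;> norm_num
    have a2 : (0 : ℤ) ≤ (if NW G B F i z then 1 else 0) := by split_ifs <;> norm_num
    linarith
  unfold inn
  linarith

theorem x_nonneg {S T : Finset V} {f : V → ℤ} (hf : ∀ g, 0 ≤ f g) :
    0 ≤ 2 * (S.card : ℤ) + ∑ g ∈ T, f g := by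
  have h3 : 0 ≤ ∑ g ∈ T, f g := sum_nonneg fun g _ => hf g
  positivity

end BalQAux

theorem bal_q (h : MinCE G B) (hF : Faces G F) (hL : LF G B F) {z : V} (hz : P1c G B z) :
    0 ≤ bal G B F z := by
  classical
  obtain ⟨p, q, hpq, w1, w2, -⟩ := F12.weak h hz.1
  obtain ⟨x, y, -, e1, e2, e3, -⟩ := one_tri h (hz.2 p w1).2.2
  obtain ⟨x', y', -, e4, e5, e6, -⟩ := one_tri h (hz.2 q w2).2.2
  obtain ⟨a, b, -, e7, e8, e9, -⟩ := one_tri h hz.1.2.2
  have ho := out_le (F := F) h hz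
  have hi := in_ge (F := F) hz w1 w2 hpq
  have hf := q_faces h hF hz hpq w1 w2 e1 e2 e3 e4 e5 e6 e7 e8 e9
  have s1 := q_side h hF hL hz w1 e1 e2 e3
  have s2 := q_side h hF hL hz w2 e4 e5 e6
  have s3 := q_own h hF hL hz e7 e8 e9
  have t1 := x_nonneg (S := univ.filter (fun x => Dt G B x p ∧ rcp G B x p z))
    (T := univ.filter (fun g => Ex2 G B g ∧ TE G g p)) (f := fun g => cq G B (apx G g p))
    fun g => cq_nonneg _
  have t2 := x_nonneg (S := univ.filter (fun x => Dt G B x q ∧ rcp G B x q z))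
    (T := univ.filter (fun g => Ex2 G B g ∧ TE G g q)) (f := fun g => cq G B (apx G g q))
    fun g => cq_nonneg _
  have t3 := x_nonneg (S := univ.filter (fun x => Dt G B x z ∧ rcp G B x z z))
    (T := univ.filter (fun g => Ex2 G B g ∧ TE G g z)) (f := fun g => cq G B (apx G g z))
    fun g => cq_nonneg _
  unfold bal
  rw [qv_p hz]
  by_cases c1 : Sm G B x ∧ Sm G B y
  · by_cases c2 : Sm G B x' ∧ Sm G B y'
    · by_cases c3 : Sm G B a ∧ Sm G B b
      · rw [if_pos ⟨c1, c2⟩, if_pos ⟨c1, c3⟩, if_pos ⟨c2, c3⟩] at hf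
        linarith
      · have s3' := s3 c3
        rw [if_pos ⟨c1, c2⟩, if_neg (fun hh => c3 hh.2), if_neg (fun hh => c3 hh.2)] at hf
        linarith
    · have s2' := s2 c2
      by_cases c3 : Sm G B a ∧ Sm G B b
      · rw [if_neg (fun hh => c2 hh.2), if_pos ⟨c1, c3⟩, if_neg (fun hh => c2 hh.1)] at hf
        linarith
      · have s3' := s3 c3
        rw [if_neg (fun hh => c2 hh.2), if_neg (fun hh => c3 hh.2),
          if_neg (fun hh => c2 hh.1)] at hf
        linarith
  · have s1' := s1 c1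
    by_cases c2 : Sm G B x' ∧ Sm G B y'
    · by_cases c3 : Sm G B a ∧ Sm G B b
      · rw [if_neg (fun hh => c1 hh.1), if_neg (fun hh => c1 hh.1), if_pos ⟨c2, c3⟩] at hf
        linarith
      · have s3' := s3 c3
        rw [if_neg (fun hh => c1 hh.1), if_neg (fun hh => c1 hh.1),
          if_neg (fun hh => c3 hh.2)] at hf
        linarith
    · have s2' := s2 c2
      rw [if_neg (fun hh => c1 hh.1), if_neg (fun hh => c1 hh.1),
        if_neg (fun hh => c2 hh.1)] at hf
      linarith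

end Pool.Agent.Lib.SVY
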