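import Pool.Agent.Lib.SVY.Rule

/-!
# SVY.Word: words of faces (definitions)

The word of a ring `c : ZMod n → V`: `k j = ty (c j)`, `e j = ed (c j) (c (j+1))`.
`Valid`: the local restrictions, `dem`: the demands, `sup`: the supply (used for `n = 6`).
A window at `j` in direction `+`: the other side `x a o a'` = `e (j-1)`, `k (j-1)`, `e (j-2)`,
`k (j-2)`, the side `y b u b'` = `e j`, `k (j+1)`, `e (j+1)`, `k (j+2)`; direction `-`: reversed.
-/

set_option autoImplicit false
set_option linter.unusedSectionVars false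

namespace Pool.Agent.Lib.SVY

namespace Ty

def isX : Ty → Bool
  | .X => true
  | _ => false

def isa : Ty → Bool
  | .a => true
  | _ => false

def isb : Ty → Bool
  | .b => true
  | _ => false

def isp : Ty → Bool
  | .p => true
  | _ => false

def isF : Ty → Bool
  | .F => true
  | _ => false

def isf : Ty → Bool
  | .f => true
  | _ => false

def isN : Ty → Bool
  | .N => true
  | _ => false

def isG : Ty → Bool
  | .G => true
  | _ => false

def isK : Ty → Bool
  | .K => true
  | _ => false

def iss : Ty → Bool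
  | .s => true
  | _ => false

/-- degree 3, one triangle -/
def one : Ty → Bool
  | .a => true
  | .b => true
  | .c => true
  | _ => false

/-- possible neighbours of a `OneP` vertex in its triangle -/
def ma : Ty → Bool
  | .X => true
  | .f => true
  | .F => true
  | .G => true
  | _ => false

/-- possible neighbours of a `OneQ` vertex in its triangle -/
def mb : Ty → Bool
  | .X => true
  | .f => true
  | .F => true
  | .G => true
  | _ => false

end Ty

namespace Ed

def isW : Ed → Bool
  | .W => true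
  | _ => false

def isV : Ed → Bool
  | .V => true
  | _ => false

def isQ : Ed → Bool
  | .Q => true
  | _ => false

def isC : Ed → Bool
  | .C => true
  | _ => false

def isT : Ed → Bool
  | .T => true
  | _ => false

def isZ : Ed → Bool
  | .Z => true
  | _ => false

/-- the apex is small -/
def sl : Ed → Bool
  | .S => true
  | .V => true
  | .Q => true
  | .C => true
  | _ => false

end Ed

/-- corners -/
def okC (t : Ty) (x y : Ed) : Bool :=
  match t with
  | .X => true
  | .a => x.isW != y.isW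
  | .b => x.isW != y.isW
  | .c => x.isW != y.isW
  | .z => x.isW && y.isW
  | .s => x.isW && y.isW
  | .E => x.isW && y.isW
  | .F => !x.isW && !y.isW
  | .G => !(x.isW && y.isW)
  | _ => x.isW || y.isW

/-- weak edges, one direction -/
def okW1 (u v : Ty) : Bool :=
  match u with
  | .a => v.isa
  | .b => v.isp
  | .p => v.isb
  | .c => !(v.one || v.isp || v.isf || (match v with | .z => true | _ => false))
  | .G => (match v with | .c => true | .s => true | _ => false)
  | .K => (match v with | .c => true | .s => true | _ => false)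
  | .f => !v.dm
  | .s => !(v.isa || v.isb || v.iss || (match v with | .z => true | _ => false))
  | .z => !v.dm
  | _ => !(v.isa || v.isb)

def okW (u v : Ty) : Bool := okW1 u v && okW1 v u

/-- triangle edges, one direction -/
def okT1 (u v : Ty) (x : Ed) : Bool :=
  (!u.isa || v.ma) && (!u.isb || v.mb) && (!x.isV || u.ma) && (!x.isQ || u.mb) &&
    !(x.isC && (u.t3 || u.isp)) && !(u.isp && (v.t3 || v.isp))

def okT (u v : Ty) (x : Ed) : Bool := okT1 u v x && okT1 v u x

/-- an edge of a ring -/
def okE (u v : Ty) (x : Ed) : Bool := if x.isW then okW u v else okT u v x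

/-- the triangle on the side `y b` contains a `OneP` vertex besides the centre -/
def mem (y : Ed) (b : Ty) : Bool := y.isV || (!y.isW && b.isa)

def xt (y : Ed) (b : Ty) : Bool := y.isQ || (!y.isW && b.isb)

def xps (y : Ed) (b : Ty) : Bool := if y.isQ then b.sm else y.sl

def att (y : Ed) (b : Ty) : Bool := y.isC || (!y.isW && b.isp)

def aps (y : Ed) (b : Ty) : Bool := if y.isC then b.sm else y.sl

/-- facts about the centre `c`, the side `y b` and the edge `x` on the other side -/
def r1e (x : Ed) (c : Ty) (y : Ed) (b : Ty) : Bool :=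
  !((c.isF || c.isf) && mem y b && (x.isV || x.isQ)) &&
  !(c.isF && ((mem y b && x.isC) || (xt y b && (x.isV || x.isQ)) || (xt y b && xps y b && x.isC) ||
    (att y b && aps y b && (x.isV || x.isQ || x.isC)))) &&
  !(c.isN && att y b && aps y b)

/-- the class of a triangle at an `Ex2` vertex -/
def cty (y : Ed) (b : Ty) : ℕ := if y.isW then 0 else ctp b y

/-- exceptional vertex with two triangles of classes `s`, `t` -/
def okG (s t : ℕ) : Bool :=
  match s with
  | 2 => (match t with | 1 => false | 2 => false | 3 => false | 4 => false | _ => true)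
  | 3 => (match t with | 3 => false | 4 => false | _ => true)
  | _ => true

/-- a vertex of degree 3 with small partner on the side `y b` -/
def os (y : Ed) (b : Ty) : Bool := (b.one && y.sl) || ((y.isV || y.isQ) && b.sm)

/-- `Ex2` vertex with two triangles -/
def okG2 (a : Ty) (x y : Ed) (b : Ty) : Bool :=
  okG (cty y b) (cty x a) && !(os y b && (os x a || (att x a && aps x a)))

/-- facts about the centre `c` and both neighbours `a`, `b` on the ring -/
def r1v (a : Ty) (x : Ed) (c : Ty) (y : Ed) (b : Ty) : Bool :=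
  !((c.isF || c.isf) && mem y b && a.t3) &&
  !(c.isF && ((mem y b && a.isp) || (xt y b && a.t3) || (xt y b && xps y b && a.isp) ||
    (att y b && aps y b && (a.isp || a.one)))) &&
  !(c.isG && !x.isW && !y.isW && !okG2 a x y b) &&
  !(a.t3 && c.t3 && b.t3)

/-- second neighbour facts: `c`, `b` are `F`, `y = V` -/
def r2 (x : Ed) (a : Ty) (o : Ed) (a' : Ty) : Bool :=
  match a with
  | .F => !(o.isV || o.isC || a'.one || a'.isp)
  | .N => !o.isW || x.isT
  | .p => false
  | .K => false
  | _ => true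

def r2f (c : Ty) (x : Ed) (a : Ty) (o : Ed) (a' : Ty) (y : Ed) (b : Ty) : Bool :=
  !(y.isV && c.isF && b.isF) || r2 x a o a'

/-- `b` is `OneP`, `c`, `a` are `F`, the next edge is not `V` -/
def sbf (c : Ty) (a : Ty) (o : Ed) (y : Ed) (b : Ty) : Bool :=
  !(c.isF && !y.isW && b.isa && a.isF && o.isV)

section Words

variable {n : ℕ}

/-- the restrictions for words -/
structure Valid (k : ZMod n → Ty) (e : ZMod n → Ed) : Prop where
  c : ∀ j, okC (k j) (e (j - 1)) (e j) = true
  g : ∀ j, okE (k j) (k (j + 1)) (e j) = true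
  e1 : ∀ j, r1e (e (j - 1)) (k j) (e j) (k (j + 1)) = true
  e2 : ∀ j, r1e (e j) (k j) (e (j - 1)) (k (j - 1)) = true
  v1 : ∀ j, r1v (k (j - 1)) (e (j - 1)) (k j) (e j) (k (j + 1)) = true
  v2 : ∀ j, r1v (k (j + 1)) (e j) (k j) (e (j - 1)) (k (j - 1)) = true
  f1 : ∀ j, r2f (k j) (e (j - 1)) (k (j - 1)) (e (j - 2)) (k (j - 2)) (e j) (k (j + 1)) = true
  f2 : ∀ j, r2f (k j) (e j) (k (j + 1)) (e (j + 1)) (k (j + 2)) (e (j - 1)) (k (j - 1)) = true
  s1 : ∀ j, sbf (k j) (k (j - 1)) (e (j - 2)) (e j) (k (j + 1)) = true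
  s2 : ∀ j, sbf (k j) (k (j + 1)) (e (j + 1)) (e (j - 1)) (k (j - 1)) = true

/-- a side of a `P1` centre -/
def mk (y : Ed) (b : Ty) (u : Ed) (b' : Ty) : Bool :=
  if y.isW then b'.sm && u.sl else b.sm && y.sl

/-- demand of the edge with ends `c`, `b` -/
def dV (c : Ty) (y : Ed) (b : Ty) : Bool := y.isV && c.sm && b.sm

def dW (x : Ed) (a : Ty) (c : Ty) (y : Ed) (b : Ty) (u : Ed) (b' : Ty) : Bool :=
  y.isW && c.isa && b.isa && a.sm && b'.sm && !(x.isZ && u.isZ)

def dP (x : Ed) (a : Ty) (o : Ed) (a' : Ty) (c : Ty) (y : Ed) (b : Ty) (u : Ed) (b' : Ty) : Bool :=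
  c.isp && mk x a o a' && mk y b u b'

/-- the demand at `j` -/
def demj (x : Ed) (a : Ty) (o : Ed) (a' : Ty) (c : Ty) (y : Ed) (b : Ty) (u : Ed) (b' : Ty) : ℕ :=
  (if dV c y b then 2 else 0) + (if dW x a c y b u b' then 2 else 0) +
    (if dP x a o a' c y b u b' then 2 else 0)

/-- payment of an `Ex2` vertex to a triangle of class `t`, the other one has class `s`;
`g`: the triangle is on a V-edge of the ring whose other end is `Ex2`, with other class `r` -/
def pay (t s : ℕ) (g : Bool) (r : ℕ) : ℕ :=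
  match t with
  | 1 => 2
  | 2 => 4
  | 3 => if 2 ≤ due s then 2 else if g then (if 2 ≤ due r then 4 else 3) else 4 - due s
  | 4 => 2
  | 5 => 1
  | _ => 0

/-- payment at `c` to the triangle on the side `y b` -/
def paj (x : Ed) (a : Ty) (y : Ed) (b : Ty) (u : Ed) (b' : Ty) : ℕ :=
  pay (cty y b) (cty x a) (y.isV && b.isG && !u.isW) (cty u b')

/-- a dart of a paying vertex `c` on the face (`b` of type `X` may be in `B`) -/
def sX (c : Ty) (y : Ed) (b : Ty) (_ : Ed) (b' : Ty) : Bool :=
  c.np && !y.isW && !y.isV && !b.isX && !b.isa && !b.isb && !b.isp &&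
    !(b.isF && (b'.np || b'.ex)) && !b.isN

/-- rerouting at `F` -/
def sF (x : Ed) (c : Ty) (y : Ed) (b : Ty) : Bool :=
  c.isF && y.isT && (x.isT || x.isZ) && !b.isa

/-- rerouting at `N` -/
def sN (x : Ed) (a : Ty) (o : Ed) (_ : Ty) (c : Ty) (y : Ed) (b : Ty) : Bool :=
  c.isF && y.isV && b.isF && x.isT && a.isN && o.isW

/-- third unit -/
def sS (c : Ty) (y : Ed) (b : Ty) (b' : Ty) : Bool := c.isG && y.isW && b.iss && !b'.one

/-- the supply of the centre `c` on the side `y b` -/
def supd (x : Ed) (a : Ty) (o : Ed) (a' : Ty) (c : Ty) (y : Ed) (b : Ty) (u : Ed) (b' : Ty) : ℕ :=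
  (if sX c y b u b' then 2 else 0) + (if sF x c y b then 2 else 0) +
    (if sN x a o a' c y b then 2 else 0) + (if sS c y b b' then 2 else 0)

/-- the supply of an `Ex2` vertex at its T-T-corner -/
def supG (x : Ed) (a : Ty) (o : Ed) (a' : Ty) (c : Ty) (y : Ed) (b : Ty) (u : Ed) (b' : Ty) : ℕ :=
  if c.isG && !x.isW && !y.isW then 4 - (paj x a y b u b' + paj y b x a o a') else 0

/-- the demand of a word -/
def dem [NeZero n] (k : ZMod n → Ty) (e : ZMod n → Ed) : ℕ :=
  ∑ j, demj (e (j - 1)) (k (j - 1)) (e (j - 2)) (k (j - 2)) (k j) (e j) (k (j + 1)) (e (j + 1))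
    (k (j + 2))

/-- the supply of a word -/
def sup [NeZero n] (k : ZMod n → Ty) (e : ZMod n → Ed) : ℕ :=
  ∑ j, (supd (e (j - 1)) (k (j - 1)) (e (j - 2)) (k (j - 2)) (k j) (e j) (k (j + 1)) (e (j + 1))
      (k (j + 2)) +
    supd (e j) (k (j + 1)) (e (j + 1)) (k (j + 2)) (k j) (e (j - 1)) (k (j - 1)) (e (j - 2))
      (k (j - 2)) +
    supG (e (j - 1)) (k (j - 1)) (e (j - 2)) (k (j - 2)) (k j) (e j) (k (j + 1)) (e (j + 1))
      (k (j + 2)))

end Words

/-! ### codes -/

/-- the deficient 6-faces, in one position -/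
def code1 (k0 : Ty) (e0 : Ed) (k1 : Ty) (e1 : Ed) (k2 : Ty) (e2 : Ed) (k3 : Ty) (e3 : Ed)
    (k4 : Ty) (e4 : Ed) (k5 : Ty) (e5 : Ed) : Bool :=
  -- first vertex `OneP`
  (k0.isa && e0.isW && k1.isa && !e1.isW && !e2.isW && !e4.isW && !e5.isW &&
    ((k2.isF && k3.isF && k4.isF && k5.isF && !e3.isW && (e2.sl || e2.isZ || (e1.sl && e5.sl))) ||
     (k2.isF && k3.isN && e3.isW && k4.isN && k5.isF) ||
     (k2.isG && k3.isF && e3.isV && k4.isF && k5.isG))) ||
  -- `33GFFG TWTVTW`
  (k0.one && !e0.isW && k1.one && e1.isW && k2.isG && !e2.isW && k3.isF && e3.isV && k4.isF &&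
    !e4.isW && k5.isG && e5.isW) ||
  -- `3FFFFG TTTVTW`
  (k0.one && !e0.isW && k1.isF && !e1.isW && k2.isF && !e2.isW && k3.isF && e3.isV && k4.isF &&
    !e4.isW && k5.isG && e5.isW && !(e0.isT && e1.isT && e2.isT)) ||
  -- first vertex `OneQ`, last vertex `P1c`
  (k0.isb && e0.sl && k1.isF && k5.isp && e5.isW && !e1.isW &&
    ((k2.isF && !e2.isW && k3.isF && e3.sl && k4.isb && e4.isW) ||
     (k2.isF && !e2.isW && k3.isF && !e3.isW && k4.isF && e4.sl) ||
     (k2.isF && e2.isV && k3.isG && !e3.isW && k4.isF && e4.sl) ||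
     (k2.isG && e2.isV && k3.isF && !e3.isW && k4.isF && e4.sl) ||
     (k2.isN && e2.isW && k3.isN && !e3.isW && k4.isF && e4.sl))) ||
  -- no vertex of degree 3
  (k0.isF && k1.isF && !e0.isW && !e2.isW && !e4.isW &&
    ((k2.isF && k3.isF && k4.isF && k5.isF && e5.isV && !e1.isW && !e3.isW &&
        (e1.sl || e2.sl || e2.isZ)) ||
     (k2.isF && k3.isF && k4.isF && k5.isF && e5.isV && !e1.isW && e2.isV && !e3.isW) ||
     (k2.isF && k3.isF && k4.isF && k5.isG && e5.isV && !e1.isW && e3.isV) ||
     (k2.isG && k3.isF && k4.isF && k5.isG && e1.isV && e3.isV && e5.isV))) ||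
  (k0.isF && k1.isF && k2.isF && k3.isF && k4.isF && k5.isG && !e0.isW && !e1.isW && e2.isV &&
    !e3.isW && !e4.isW && e5.isV) ||
  (k0.isF && k1.isF && k2.isF && k3.isF && k4.isN && k5.isN && !e0.isW && e1.isV && !e2.isW &&
    !e3.isW && e4.isW && !e5.isW)

end Pool.Agent.Lib.SVY
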