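import Pool.Agent.Lib.SVY.RingN
import Pool.Agent.Lib.SVY.Facts
import Pool.Agent.Lib.SVY.Word

/-!
# SVY.Wd: the word of a ring (definition)
-/

set_option autoImplicit false
set_option linter.unusedSectionVars false

namespace Pool.Agent.Lib.SVY

open Finset Pool.Agent.Lib.SVT Pool.Agent.Lib.SVX

variable {V : Type*} [Fintype V] [DecidableEq V] {G : SimpleGraph V} {B : Finset V}
variable {m : ℕ} {F : Fin m → Finset (Sym2 V)} {i : Fin m}

/-- the types of the vertices of a ring -/
noncomputable def wk (G : SimpleGraph V) (B : Finset V) {n : ℕ} (c : ZMod n → V) : ZMod n → Ty :=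
  fun j => ty G B (c j)

/-- the types of the edges of a ring -/
noncomputable def we (G : SimpleGraph V) (B : Finset V) {n : ℕ} (c : ZMod n → V) : ZMod n → Ed :=
  fun j => ed G B (c j) (c (j + 1))

end Pool.Agent.Lib.SVY
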