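import Pool.Agent.Lib.SVY.CeA
import Pool.Agent.Lib.SVY.Wd

/-!
# SVY.CeB: exceptional vertices pay at most 4; their supply

Plan.  `pt_val`: case analysis on the class; in class 3 (`OneP` vertex `v`, partner `y`, which is
`Ex2` by `LF.pk`): `cp g v y` with `due (oc g v)`, `due (oc y v)`.  `ce_four`: the classes `s`, `t`
of the two triangles: 2 with 1, 2, 3: `LF.e20`; 2 with 4 or 5: `LF.e22` (`OneQ`), `LF.e23` (`P1c`;
the partner is small or `Ex2`, not `ExK` by `LF.a19`); 3 with `s`: the payment is 2 if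
`2 ≤ due s`, otherwise at most `4 - due s` by `due_sum`; 4, 5, 6: at most 2.
`supG_le`: `c j` is `Ex2` and its two ring edges are triangle edges; `ce_le` for these two triangles
(`b = apx`), and `paj` is an upper bound for each payment: `pt_val`, `oc_eq`, `cls_ed`; if the edge
`c j, c (j+1)` is a V-edge whose other end is `Ex2` with triangle edges then `v` is the apex and
`oc y v` is the class `cty u b'`; otherwise `due_sum`.
-/

set_option autoImplicit false
set_option linter.unusedSectionVars false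

namespace Pool.Agent.Lib.SVY

open Finset Pool.Agent.Lib.SVT Pool.Agent.Lib.SVX

variable {V : Type*} [Fintype V] [DecidableEq V] {G : SimpleGraph V} {B : Finset V}
variable {m : ℕ} {F : Fin m → Finset (Sym2 V)} {i : Fin m}

namespace CeBAux

/-- payment to a `OneP` vertex with a partner of type `y` -/
def cpT (y : Ty) (S R : ℕ) : ℤ :=
  if y.np then 2 else if y.ex then (if 2 ≤ S then 2 else if 2 ≤ R then 4 else 3) else 4

def cqT (y : Ty) : ℤ := if y.np then 0 else if y.ex then 1 else 2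

def ptT (ta tb : Ty) (S R1 R2 : ℕ) : ℤ :=
  if ta = .a then cpT tb S R1
  else if tb = .a then cpT ta S R2
  else if ta = .b ∨ ta = .p then cqT tb
  else if tb = .b ∨ tb = .p then cqT ta
  else 0

def payT (t S R : ℕ) : ℤ :=
  match t with
  | 1 => 2
  | 2 => 4
  | 3 => if 2 ≤ S then 2 else if 2 ≤ R then 4 else 3
  | 4 => 2
  | 5 => 1
  | _ => 0

theorem ptT_le (ta tb : Ty) (S R1 R2 : ℕ) (hok : okT ta tb .Z = true) :
    ptT ta tb S R1 R2 ≤ payT (ctp ta tb.ecls) S (if ta = .a then R1 else R2) := by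
  cases ta <;> cases tb <;>
    first
      | exact absurd hok (by decide)
      | (simp only [ptT, cpT, cqT, ctp, payT, Ty.ecls, Ty.np, Ty.ex]; simp)

theorem ctp_le (ta tb : Ty) : ctp ta tb.ecls ≤ 6 := by
  cases ta <;> cases tb <;> decide

theorem ctp3 (ta tb : Ty) (hok : okT ta tb .Z = true) (h3 : ctp ta tb.ecls = 3) :
    (ta = .a ∧ tb = .G) ∨ (tb = .a ∧ ta = .G) := by
  revert hok h3
  cases ta <;> cases tb <;> decide

theorem ctp2 (ta tb : Ty) (h2 : ctp ta tb.ecls = 2) :
    (ta = .a ∧ tb.sm = true) ∨ (tb = .a ∧ ta.sm = true) := by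
  revert h2
  cases ta <;> cases tb <;> decide

theorem ctp123 (ta tb : Ty) (h1 : ctp ta tb.ecls = 1 ∨ ctp ta tb.ecls = 2 ∨ ctp ta tb.ecls = 3) :
    ta = .a ∨ tb = .a := by
  revert h1
  cases ta <;> cases tb <;> decide

theorem ctp45 (ta tb : Ty) (h1 : ctp ta tb.ecls = 4 ∨ ctp ta tb.ecls = 5) :
    ta = .b ∨ tb = .b ∨ (ta = .p ∧ (tb.sm = true ∨ tb.ex = true)) ∨
      (tb = .p ∧ (ta.sm = true ∨ ta.ex = true)) := by
  revert h1
  cases ta <;> cases tb <;> decide

end CeBAux

open CeBAux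

theorem pt_eq (h : MinCE G B) (hF : Faces G F) (hL : LF G B F) {g a b c d : V} (hg : Ex2 G B g)
    (e1 : G.Adj g a) (e2 : G.Adj g b) (e3 : G.Adj a b) (e4 : G.Adj g c) (e5 : G.Adj g d)
    (e6 : G.Adj c d) (n1 : a ≠ c) (n2 : a ≠ d) (n3 : b ≠ c) (n4 : b ≠ d) :
    pt G B g a b = ptT (ty G B a) (ty G B b) (due (cls G B c d)) (due (oc G B b a))
      (due (oc G B a b)) := by
  have o1 : oc G B g a = cls G B c d := oc_eq h hF hL hg e4 e5 e6 ⟨e1, b, e2, e3⟩ n1 n2
  have o2 : oc G B g b = cls G B c d := oc_eq h hF hL hg e4 e5 e6 ⟨e2, a, e1, e3.symm⟩ n3 n4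
  unfold pt cp cq ptT cpT cqT
  rw [o1, o2]
  classical
  simp only [ty_a, ty_b h, ty_p h, np_iff, ex_iff]

theorem pt_val (h : MinCE G B) (hF : Faces G F) (hL : LF G B F) {g a b c d : V} (hg : Ex2 G B g)
    (e1 : G.Adj g a) (e2 : G.Adj g b) (e3 : G.Adj a b) (e4 : G.Adj g c) (e5 : G.Adj g d)
    (e6 : G.Adj c d) (n1 : a ≠ c) (n2 : a ≠ d) (n3 : b ≠ c) (n4 : b ≠ d) :
    ∃ R : ℕ, pt G B g a b ≤ payT (cls G B a b) (due (cls G B c d)) R ∧
      (cls G B a b = 3 → due (cls G B c d) + R ≤ 2) ∧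
      (OneP G B b → R = due (oc G B a b)) := by
  have hok : okT (ty G B a) (ty G B b) .Z = true := by
    have h1 := l_okT h hF hL (a := a) (b := b) ⟨e3, g, e1.symm, e2.symm⟩
    have h2 : ed G B a b = .Z := by
      rw [ed_Z ⟨e3, g, e1.symm, e2.symm⟩, apx_eq h e3 e1.symm e2.symm]
      exact Or.inl hg
    rw [h2] at h1
    exact h1
  refine ⟨if ty G B a = .a then due (oc G B b a) else due (oc G B a b), ?_, ?_, ?_⟩
  · rw [pt_eq h hF hL hg e1 e2 e3 e4 e5 e6 n1 n2 n3 n4]
    exact ptT_le _ _ _ _ _ hok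
  · intro h3
    rcases ctp3 _ _ hok h3 with ⟨h4, h5⟩ | ⟨h4, h5⟩
    · rw [if_pos h4]
      rw [ty_a] at h4
      rw [ty_G] at h5
      have h6 := due_sum h hF hL hg h5 h4 e1.symm e3 e2
      rw [oc_eq h hF hL hg e4 e5 e6 ⟨e1, b, e2, e3⟩ n1 n2] at h6
      exact h6
    · rw [if_neg (by rw [h5]; decide)]
      rw [ty_a] at h4
      rw [ty_G] at h5
      have h6 := due_sum h hF hL hg h5 h4 e2.symm e3.symm e1
      rw [oc_eq h hF hL hg e4 e5 e6 ⟨e2, a, e1, e3.symm⟩ n3 n4] at h6
      exact h6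
  · intro h3
    rw [if_neg]
    intro h4
    rw [← ty_a] at h3
    rw [h3, h4] at hok
    exact absurd hok (by decide)

theorem ce_four (h : MinCE G B) (hF : Faces G F) (hL : LF G B F) {g : V} (hg : Ex2 G B g) :
    ∑ u, Ce G B g u ≤ 4 := by
  obtain ⟨a, b, c, d, -, -, n1, n2, n3, n4, e1, e2, e3, e4, e5, e6, m1, m2, m3, m4, -⟩ :=
    two_tri h hg.2.2.1
  have h1 := ce_le h hF hL hg e1 e2 e3 e4 e5 e6 n1 n2 n3 n4
  obtain ⟨R1, p1, q1, -⟩ := pt_val h hF hL hg e1 e2 e3 e4 e5 e6 n1 n2 n3 n4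
  obtain ⟨R2, p2, q2, -⟩ := pt_val h hF hL hg e4 e5 e6 e1 e2 e3 n1.symm n3.symm n2.symm n4.symm
  have t1 : TE G g a := ⟨e1, b, e2, e3⟩
  have t2 : TE G g b := ⟨e2, a, e1, e3.symm⟩
  have t3 : TE G g c := ⟨e4, d, e5, e6⟩
  have t4 : TE G g d := ⟨e5, c, e4, e6.symm⟩
  have x1 : apx G g a = b := apx_eq h e1 e2 e3
  have x2 : apx G g b = a := apx_eq h e2 e1 e3.symm
  have x3 : apx G g c = d := apx_eq h e4 e5 e6
  have x4 : apx G g d = c := apx_eq h e5 e4 e6.symm
  -- class 2 excludes the classes 1, ..., 5 of the other triangle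
  have key : ∀ a b c d : V, G.Adj g a → G.Adj g b → G.Adj a b → G.Adj g c → G.Adj g d →
      G.Adj c d → a ≠ c → a ≠ d → b ≠ c → b ≠ d → ¬ G.Adj a c → ¬ G.Adj a d → ¬ G.Adj b c →
      ¬ G.Adj b d → cls G B a b = 2 → cls G B c d = 0 ∨ cls G B c d = 6 := by
    clear h1 p1 q1 p2 q2 t1 t2 t3 t4 x1 x2 x3 x4 n1 n2 n3 n4 e1 e2 e3 e4 e5 e6 m1 m2 m3 m4
    intro a b c d e1 e2 e3 e4 e5 e6 n1 n2 n3 n4 m1 m2 m3 m4 hc
    -- the `OneP` vertex `v`
    obtain ⟨v, hv, hvs, tv, vc, vd, kc, kd⟩ : ∃ v, OneP G B v ∧ Sm G B (apx G g v) ∧ TE G g v ∧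
        v ≠ c ∧ v ≠ d ∧ ¬ G.Adj v c ∧ ¬ G.Adj v d := by
      rcases ctp2 _ _ hc with ⟨h4, h5⟩ | ⟨h4, h5⟩
      · rw [ty_a] at h4
        rw [sm_iff] at h5
        exact ⟨a, h4, by rw [apx_eq h e1 e2 e3]; exact h5, ⟨e1, b, e2, e3⟩, n1, n2, m1, m2⟩
      · rw [ty_a] at h4
        rw [sm_iff] at h5
        exact ⟨b, h4, by rw [apx_eq h e2 e1 e3.symm]; exact h5, ⟨e2, a, e1, e3.symm⟩, n3, n4, m3,
          m4⟩
    have tc : TE G g c := ⟨e4, d, e5, e6⟩
    have td : TE G g d := ⟨e5, c, e4, e6.symm⟩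
    have h6 := ctp_le (ty G B c) (ty G B d)
    change cls G B c d ≤ 6 at h6
    by_cases h7 : cls G B c d = 1 ∨ cls G B c d = 2 ∨ cls G B c d = 3
    · exfalso
      rcases ctp123 _ _ h7 with h8 | h8
      · rw [ty_a] at h8
        exact hL.e20 g v c hg tv tc vc kc hv hvs h8
      · rw [ty_a] at h8
        exact hL.e20 g v d hg tv td vd kd hv hvs h8
    · by_cases h9 : cls G B c d = 4 ∨ cls G B c d = 5
      · exfalso
        have gnp : ¬ Np G B g := by
          rw [← np_iff, ty_G.2 hg]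
          decide
        -- a `P1c` vertex `z` with partner `y`
        have pz : ∀ z y : V, G.Adj g z → G.Adj g y → G.Adj z y → v ≠ z → ¬ G.Adj v z →
            P1c G B z → ((ty G B y).sm = true ∨ (ty G B y).ex = true) → False := by
          intro z y g1 g2 g3 v1 v2 hz hy
          refine hL.e23 g v z hg tv ⟨g1, y, g2, g3⟩ v1 v2 hv hvs hz ?_
          rw [apx_eq h g1 g2 g3]
          rcases hy with hy | hy
          · rw [sm_iff] at hy
            exact Or.inl hy
          · rw [ex_iff] at hy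
            rcases hy with hy | hy
            · exact Or.inr hy
            · exfalso
              refine hL.a19 z y hz hy ⟨g3, g, g1.symm, g2.symm⟩ ?_
              rw [apx_eq h g3 g1.symm g2.symm]
              exact gnp
        rcases ctp45 _ _ h9 with h8 | h8 | ⟨h8, h10⟩ | ⟨h8, h10⟩
        · rw [ty_b h] at h8
          exact hL.e22 g v c hg tv tc vc kc hv hvs h8
        · rw [ty_b h] at h8
          exact hL.e22 g v d hg tv td vd kd hv hvs h8
        · rw [ty_p h] at h8
          exact pz c d e4 e5 e6 vc kc h8 h10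
        · rw [ty_p h] at h8
          exact pz d c e5 e4 e6.symm vd kd h8 h10
      · omega
  have k1 := key a b c d e1 e2 e3 e4 e5 e6 n1 n2 n3 n4 m1 m2 m3 m4
  have k2 := key c d a b e4 e5 e6 e1 e2 e3 n1.symm n3.symm n2.symm n4.symm
    (fun x => m1 x.symm) (fun x => m3 x.symm) (fun x => m2 x.symm) (fun x => m4 x.symm)
  have l1 : cls G B a b ≤ 6 := ctp_le _ _
  have l2 : cls G B c d ≤ 6 := ctp_le _ _
  generalize cls G B a b = t at *
  generalize cls G B c d = s at *
  have h2 : payT t (due s) R1 + payT s (due t) R2 ≤ 4 := by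
    clear h1 p1 p2 key
    interval_cases t <;> interval_cases s <;> simp [payT, due] at * <;> split_ifs <;> omega
  linarith

theorem ce_nonneg (h : MinCE G B) (hF : Faces G F) (hL : LF G B F) {g u : V} :
    0 ≤ Ce G B g u := by
  have c1 : ∀ v y : V, 0 ≤ cp G B g v y := by
    intro v y
    unfold cp
    split_ifs <;> norm_num
  have c2 : ∀ y : V, 0 ≤ cq G B y := by
    intro y
    unfold cq
    split_ifs <;> norm_num
  classical
  have c3 : 0 ≤ ∑ v ∈ univ.filter (fun v => TE G g v ∧ OneQ G B v ∧ WE G v u),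
      cq G B (apx G g v) := sum_nonneg (fun v _ => c2 _)
  unfold Ce
  split_ifs
  all_goals
    first
      | exact le_refl _
      | (have h3 := c1 u (apx G g u)
         have h4 := c2 (apx G g u)
         have h5 := c3
         linarith)

/-- one side of the T-T-corner -/
theorem side_le (h : MinCE G B) (hF : Faces G F) (hL : LF G B F) {g a b c d a2 : V}
    (hg : Ex2 G B g) (e1 : G.Adj g a) (e2 : G.Adj g b) (e3 : G.Adj a b) (e4 : G.Adj g c)
    (e5 : G.Adj g d) (e6 : G.Adj c d) (n1 : a ≠ c) (n2 : a ≠ d) (n3 : b ≠ c) (n4 : b ≠ d)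
    (e7 : G.Adj a a2) (n5 : a2 ≠ g) (n6 : Ex2 G B a → ¬ G.Adj g a2) :
    pt G B g a b ≤ (pay (cls G B a b) (cls G B c d)
      ((ed G B g a).isV && (ty G B a).isG && !(ed G B a a2).isW)
      (cty (ed G B a a2) (ty G B a2)) : ℤ) := by
  obtain ⟨R, p1, q1, r1⟩ := pt_val h hF hL hg e1 e2 e3 e4 e5 e6 n1 n2 n3 n4
  refine p1.trans ?_
  by_cases h3 : cls G B a b = 3
  · have q2 := q1 h3
    rw [h3]
    by_cases h4 : 2 ≤ due (cls G B c d)
    · simp only [payT, pay]
      rw [if_pos h4, if_pos h4]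
      norm_num
    · by_cases h5 : ((ed G B g a).isV && (ty G B a).isG && !(ed G B a a2).isW) = true
      · have h5' := h5
        rw [Bool.and_eq_true, Bool.and_eq_true, Bool.not_eq_true'] at h5'
        obtain ⟨⟨h6, h7⟩, h8⟩ := h5'
        have tga : TE G g a := ⟨e1, b, e2, e3⟩
        have hb : OneP G B b := by
          have h9 : ed G B g a = .V := by
            cases hx : ed G B g a <;> rw [hx] at h6 <;> first | rfl | exact absurd h6 (by decide)
          rw [ed_V tga, apx_eq h e1 e2 e3] at h9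
          exact h9
        have ha : Ex2 G B a := by
          rw [← ty_G]
          cases hx : ty G B a <;> rw [hx] at h7 <;> first | rfl | exact absurd h7 (by decide)
        have ht : TE G a a2 := by
          rcases te_or_we e7 with h9 | h9
          · exact h9
          · exfalso
            rw [ed_W.2 h9] at h8
            exact absurd h8 (by decide)
        obtain ⟨w1, w2⟩ := apx_adj ht
        have nb : b ≠ a2 := by
          rintro rfl
          exact n6 ha e2
        have nw : b ≠ apx G a a2 := by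
          intro h9
          have h10 : apx G a b = a2 := apx_eq h e3 e7 (by rw [h9]; exact w2.symm)
          have h11 : apx G a b = g := apx_eq h e3 e1.symm e2.symm
          exact n5 (h10.symm.trans h11)
        have o1 : oc G B a b = cty (ed G B a a2) (ty G B a2) := by
          rw [oc_eq h hF hL ha e7 w1 w2 ⟨e3, g, e1.symm, e2.symm⟩ nb nw,
            ← cls_ed h e7 w1 w2]
          unfold cty
          rw [h8]
          rfl
        have r2 := r1 hb
        rw [o1] at r2
        simp only [payT, pay]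
        rw [if_neg h4, if_neg h4, h5, if_pos rfl, r2]
        split_ifs <;> norm_num
      · rw [Bool.not_eq_true] at h5
        simp only [payT, pay]
        rw [if_neg h4, if_neg h4, h5, if_neg Bool.false_ne_true]
        generalize due (cls G B c d) = s at *
        split_ifs <;> omega
  · have l1 : cls G B a b ≤ 6 := ctp_le _ _
    generalize cls G B a b = t at *
    clear q1 p1
    interval_cases t <;> simp [payT, pay] at *

theorem supG_le (h : MinCE G B) (hF : Faces G F) (hL : LF G B F) {n : ℕ} [NeZero n]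
    {c : ZMod n → V} (hn : 6 ≤ n) (hR : Ring G F i n c) (j : ZMod n) (hg : Ex2 G B (c j))
    (h1 : TE G (c j) (c (j - 1))) (h2 : TE G (c j) (c (j + 1))) :
    (supG (we G B c (j - 1)) (wk G B c (j - 1)) (we G B c (j - 2)) (wk G B c (j - 2))
      (wk G B c j) (we G B c j) (wk G B c (j + 1)) (we G B c (j + 1)) (wk G B c (j + 2)) : ℤ) ≤
      4 - ∑ u, Ce G B (c j) u := by
  have h4 := ce_four h hF hL hg
  have hd : 3 ≤ dg G (c j) := by
    rw [hg.2.1]
    norm_num
  obtain ⟨e2, e3⟩ := apx_adj h2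
  obtain ⟨e5, e6⟩ := apx_adj h1
  have e1 := h2.1
  have e4 := h1.1
  have n1 : c (j + 1) ≠ c (j - 1) := (Ring.ne hn hR j).symm
  have ns := Ring.short h hF hn hR hd
  have n2 : c (j + 1) ≠ apx G (c j) (c (j - 1)) := by
    intro h5
    rw [← h5] at e6
    exact ns e6
  have n3 : apx G (c j) (c (j + 1)) ≠ c (j - 1) := by
    intro h5
    rw [h5] at e3
    exact ns e3.symm
  have n4 : apx G (c j) (c (j + 1)) ≠ apx G (c j) (c (j - 1)) := by
    intro h5
    have h6 : apx G (c j) (apx G (c j) (c (j + 1))) = c (j + 1) := apx_apx h h2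
    have h7 : apx G (c j) (apx G (c j) (c (j - 1))) = c (j - 1) := apx_apx h h1
    rw [h5, h7] at h6
    exact n1 h6.symm
  have s1 := ce_le h hF hL hg e1 e2 e3 e4 e5 e6 n1 n2 n3 n4
  have a1 : G.Adj (c (j + 1)) (c (j + 2)) := by
    have h5 := Ring.adj hR (j + 1)
    rwa [show j + 1 + 1 = j + 2 by ring] at h5
  have a2 : G.Adj (c (j - 1)) (c (j - 2)) := by
    have h5 := Ring.adj' hR (j - 1)
    rwa [show j - 1 - 1 = j - 2 by ring] at h5
  have m1 : c (j + 2) ≠ c j := by
    have h5 := Ring.ne hn hR (j + 1)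
    rw [show j + 1 + 1 = j + 2 by ring, show j + 1 - 1 = j by ring] at h5
    exact h5.symm
  have m2 : c (j - 2) ≠ c j := by
    have h5 := Ring.ne hn hR (j - 1)
    rw [show j - 1 - 1 = j - 2 by ring, show j - 1 + 1 = j by ring] at h5
    exact h5
  have m3 : Ex2 G B (c (j + 1)) → ¬ G.Adj (c j) (c (j + 2)) := by
    intro h6
    have h5 := Ring.short h hF hn hR (j := j + 1) (by rw [h6.2.1]; norm_num)
    rwa [show j + 1 + 1 = j + 2 by ring, show j + 1 - 1 = j by ring] at h5
  have m4 : Ex2 G B (c (j - 1)) → ¬ G.Adj (c j) (c (j - 2)) := by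
    intro h6 h7
    have h5 := Ring.short h hF hn hR (j := j - 1) (by rw [h6.2.1]; norm_num)
    rw [show j - 1 - 1 = j - 2 by ring, show j - 1 + 1 = j by ring] at h5
    exact h5 h7.symm
  have p1 := side_le h hF hL hg e1 e2 e3 e4 e5 e6 n1 n2 n3 n4 a1 m1 m3
  have p2 := side_le h hF hL hg e4 e5 e6 e1 e2 e3 n1.symm n3.symm n2.symm n4.symm a2 m2 m4
  rw [← cls_ed h e1 e2 e3, ← cls_ed h e4 e5 e6] at p1 p2
  have w0 : (ed G B (c j) (c (j + 1))).isW = false := by
    cases hx : ed G B (c j) (c (j + 1)) <;> first | rfl | skip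
    rw [ed_W] at hx
    exact absurd hx h2.not_we
  have w1 : (ed G B (c j) (c (j - 1))).isW = false := by
    cases hx : ed G B (c j) (c (j - 1)) <;> first | rfl | skip
    rw [ed_W] at hx
    exact absurd hx h1.not_we
  have x1 : we G B c (j - 1) = ed G B (c j) (c (j - 1)) := by
    unfold we
    rw [sub_add_cancel]
    exact ed_symm h e4.symm
  have x2 : we G B c (j - 2) = ed G B (c (j - 1)) (c (j - 2)) := by
    unfold we
    rw [show j - 2 + 1 = j - 1 by ring]
    exact ed_symm h a2.symm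
  have x3 : we G B c (j + 1) = ed G B (c (j + 1)) (c (j + 2)) := by
    unfold we
    rw [show j + 1 + 1 = j + 2 by ring]
  have x4 : we G B c j = ed G B (c j) (c (j + 1)) := rfl
  have c1 : cty (ed G B (c j) (c (j + 1))) (ty G B (c (j + 1))) =
      ctp (ty G B (c (j + 1))) (ed G B (c j) (c (j + 1))) := by
    unfold cty
    rw [w0]
    rfl
  have c2 : cty (ed G B (c j) (c (j - 1))) (ty G B (c (j - 1))) =
      ctp (ty G B (c (j - 1))) (ed G B (c j) (c (j - 1))) := by
    unfold cty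
    rw [w1]
    rfl
  unfold supG paj
  rw [x1, x2, x3, x4]
  simp only [wk]
  rw [c1, c2]
  split_ifs with h5
  · generalize pay (ctp (ty G B (c (j + 1))) (ed G B (c j) (c (j + 1))))
      (ctp (ty G B (c (j - 1))) (ed G B (c j) (c (j - 1))))
      ((ed G B (c j) (c (j + 1))).isV && (ty G B (c (j + 1))).isG &&
        !(ed G B (c (j + 1)) (c (j + 2))).isW)
      (cty (ed G B (c (j + 1)) (c (j + 2))) (ty G B (c (j + 2)))) = P at *
    generalize pay (ctp (ty G B (c (j - 1))) (ed G B (c j) (c (j - 1))))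
      (ctp (ty G B (c (j + 1))) (ed G B (c j) (c (j + 1))))
      ((ed G B (c j) (c (j - 1))).isV && (ty G B (c (j - 1))).isG &&
        !(ed G B (c (j - 1)) (c (j - 2))).isW)
      (cty (ed G B (c (j - 1)) (c (j - 2))) (ty G B (c (j - 2)))) = Q at *
    generalize ∑ u, Ce G B (c j) u = S at *
    generalize pt G B (c j) (c (j + 1)) (apx G (c j) (c (j + 1))) = T1 at *
    generalize pt G B (c j) (c (j - 1)) (apx G (c j) (c (j - 1))) = T2 at *
    omega
  · push_cast
    linarith

end Pool.Agent.Lib.SVY
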