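import Pool.Agent.Lib.SVY.Wd

/-!
# SVY.DemA: the demands of a face are the demands of its word

Plan.  `Bf i v` has three terms.  `NV i v`: the edge `x, apx v x` of the face is a ring edge
`c j, c (j+1)` (`Ring.edge`) with apex `v` (`apx_eq`), so `we j = V` and both ends are small: `dV` at
`j`; `v = apx (c j) (c (j+1))` is determined by `j`.  `NW i v`: `v` and `z` are the ends of a ring
edge, which is weak, both are `OneP` (`One` with weak neighbour `One`), `x` and `p` are the next ring
vertices: `dW` at this edge; every edge counts twice, once for each end.  `N1 i z`: `z = c j`, `u`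
and `w` are `c (j+1)`, `c (j-1)`; `mok` gives `mk` (if `WE z u` then `y` is the next ring vertex,
because `TE u y`).  Write the sums over `v` as sums over `j` (`Finset.sum_le_sum`,
`Finset.card_le_card_of_injOn` or similar).
-/

set_option autoImplicit false
set_option linter.unusedSectionVars false

namespace Pool.Agent.Lib.SVY

open Finset Pool.Agent.Lib.SVT Pool.Agent.Lib.SVX

variable {V : Type*} [Fintype V] [DecidableEq V] {G : SimpleGraph V} {B : Finset V}
variable {m : ℕ} {F : Fin m → Finset (Sym2 V)} {i : Fin m}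

private theorem sum_if {α : Type*} [Fintype α] (P : α → Prop) [DecidablePred P] (t : ℤ) :
    ∑ v, (if P v then t else 0) = t * ((univ.filter P).card : ℤ) := by
  rw [← Finset.sum_filter, Finset.sum_const, nsmul_eq_mul, mul_comm]

/-- the V-edges -/
private theorem nv_mem (h : MinCE G B) {n : ℕ} [NeZero n] {c : ZMod n → V}
    (hR : Ring G F i n c) {v : V} (hv : NV G B F i v) :
    ∃ j, dV (wk G B c j) (we G B c j) (wk G B c (j + 1)) = true ∧ apx G (c j) (c (j + 1)) = v := by
  obtain ⟨h1, -, x, hx, sx, sy, hf⟩ := hv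
  obtain ⟨a1, a2⟩ := apx_adj hx
  -- a1 : G.Adj v y, a2 : G.Adj x y
  have key : ∀ j, s(c j, c (j + 1)) = s(x, apx G v x) →
      dV (wk G B c j) (we G B c j) (wk G B c (j + 1)) = true ∧ apx G (c j) (c (j + 1)) = v := by
    intro j hj
    have hc : G.Adj (c j) (c (j + 1)) ∧ G.Adj (c j) v ∧ G.Adj (c (j + 1)) v ∧ Sm G B (c j) ∧
        Sm G B (c (j + 1)) := by
      rcases Sym2.eq_iff.mp hj with ⟨e1, e2⟩ | ⟨e1, e2⟩
      · rw [e1, e2]
        exact ⟨a2, hx.1.symm, a1.symm, sx, sy⟩
      · rw [e1, e2]
        exact ⟨a2.symm, a1.symm, hx.1.symm, sy, sx⟩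
    obtain ⟨b1, b2, b3, b4, b5⟩ := hc
    have hap : apx G (c j) (c (j + 1)) = v := apx_eq h b1 b2 b3
    refine ⟨?_, hap⟩
    have hte : TE G (c j) (c (j + 1)) := ⟨b1, v, b2, b3⟩
    have he : we G B c j = .V := by
      unfold we
      rw [ed_V hte, hap]
      exact h1
    have k1 : (wk G B c j).sm = true := sm_iff.mpr b4
    have k2 : (wk G B c (j + 1)).sm = true := sm_iff.mpr b5
    rw [dV, he, k1, k2]
    rfl
  obtain ⟨j, e1, e2 | e2⟩ := hR.edge hf
  · exact ⟨j, key j (by rw [← e2, ← e1])⟩
  · refine ⟨j - 1, key (j - 1) ?_⟩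
    rw [sub_add_cancel, ← e2, ← e1, Sym2.eq_swap]

/-- the pairs of `OneP` vertices -/
private theorem nw_mem (h : MinCE G B) {n : ℕ} [NeZero n] {c : ZMod n → V} (hn : 6 ≤ n)
    (hR : Ring G F i n c) {v : V} (hv : NW G B F i v) :
    ∃ j, dW (we G B c (j - 1)) (wk G B c (j - 1)) (wk G B c j) (we G B c j) (wk G B c (j + 1))
      (we G B c (j + 1)) (wk G B c (j + 2)) = true ∧ (v = c j ∨ v = c (j + 1)) := by
  obtain ⟨h1, z, x, p, wz, oz, tx, tp, fz, fx, fp, sx, sp, hex⟩ := hv
  have hz : OneP G B z := ⟨oz, v, wz.symm, h1.1⟩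
  have key : ∀ j, ∀ v z x p : V, OneP G B v → OneP G B z → WE G v z → TE G v x → TE G z p →
      Sm G B x → Sm G B p → ¬ (Exc G B (apx G v x) ∧ Exc G B (apx G z p)) →
      v = c j → z = c (j + 1) → x = c (j - 1) → p = c (j + 2) →
      dW (we G B c (j - 1)) (wk G B c (j - 1)) (wk G B c j) (we G B c j) (wk G B c (j + 1))
      (we G B c (j + 1)) (wk G B c (j + 2)) = true := by
    intro j v z x p hv hz wz tx tp sx sp hex ev ez ex ep
    have k1 : (we G B c j).isW = true := by
      have : we G B c j = .W := by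
        unfold we
        rw [ed_W, ← ev, ← ez]
        exact wz
      rw [this]
      rfl
    have k2 : (wk G B c j).isa = true := by
      have : wk G B c j = .a := by
        unfold wk
        rw [ty_a, ← ev]
        exact hv
      rw [this]
      rfl
    have k3 : (wk G B c (j + 1)).isa = true := by
      have : wk G B c (j + 1) = .a := by
        unfold wk
        rw [ty_a, ← ez]
        exact hz
      rw [this]
      rfl
    have k4 : (wk G B c (j - 1)).sm = true := sm_iff.mpr (by rw [← ex]; exact sx)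
    have k5 : (wk G B c (j + 2)).sm = true := sm_iff.mpr (by rw [← ep]; exact sp)
    have k6 : ((we G B c (j - 1)).isZ && (we G B c (j + 1)).isZ) = false := by
      by_contra hc
      rw [Bool.not_eq_false, Bool.and_eq_true] at hc
      obtain ⟨c1, c2⟩ := hc
      have d1 : we G B c (j - 1) = .Z := by
        revert c1
        cases we G B c (j - 1) <;> simp [Ed.isZ]
      have d2 : we G B c (j + 1) = .Z := by
        revert c2
        cases we G B c (j + 1) <;> simp [Ed.isZ]
      apply hex
      unfold we at d1 d2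
      rw [sub_add_cancel, ← ev, ← ex, ed_Z tx.symm, ← apx_symm h tx] at d1
      rw [show j + 1 + 1 = j + 2 by ring, ← ez, ← ep, ed_Z tp] at d2
      exact ⟨d1, d2⟩
    rw [dW, k1, k2, k3, k4, k5, k6]
    rfl
  obtain ⟨j, ev, ez⟩ := hR.edge fz
  have n3 : 3 ≤ n := by omega
  have xz : x ≠ z := fun hh => tx.not_we (hh ▸ wz)
  have pv : p ≠ v := fun hh => tp.not_we (hh ▸ wz.symm)
  have gx := hR.next n3 (ev ▸ fx : s(c j, x) ∈ F i)
  rcases ez with ez | ez
  · have gp := hR.next n3 (ez ▸ fp : s(c (j + 1), p) ∈ F i)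
    refine ⟨j, key j v z x p h1 hz wz tx tp sx sp hex ev ez ?_ ?_, Or.inl ev⟩
    · rcases gx with gx | gx
      · exact absurd (gx.trans ez.symm) xz
      · exact gx
    · rcases gp with gp | gp
      · rw [gp, add_assoc, one_add_one_eq_two]
      · rw [add_sub_cancel_right] at gp
        exact absurd (gp.trans ev.symm) pv
  · have gp := hR.next n3 (ez ▸ fp : s(c (j - 1), p) ∈ F i)
    refine ⟨j - 1, key (j - 1) z v p x hz h1 wz.symm tp tx sp sx (fun hh => hex ⟨hh.2, hh.1⟩) ez
      (by rw [sub_add_cancel]; exact ev) ?_ ?_, Or.inr (by rw [sub_add_cancel]; exact ev)⟩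
    · rcases gp with gp | gp
      · rw [sub_add_cancel] at gp
        exact absurd (gp.trans ev.symm) pv
      · exact gp
    · rcases gx with gx | gx
      · rw [gx]
        congr 1
        ring
      · exact absurd (gx.trans ez.symm) xz

/-- the members on one side -/
private theorem mk_of_mok (h : MinCE G B) {u z y' : V} {x : Ed}
    (hx : x = ed G B u y' ∨ x = ed G B y' u)
    (hy : ∀ y, s(u, y) ∈ F i → y = y' ∨ y = z) (hm : mok G B F z i u) :
    mk (ed G B z u) (ty G B u) x (ty G B y') = true := by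
  rcases hm with ⟨w, y, ty', fy, s1, s2⟩ | ⟨t, s1, s2⟩
  · have e : ed G B z u = .W := ed_W.mpr w
    have hyy : y = y' := by
      rcases hy y fy with hh | hh
      · exact hh
      · exact absurd w.symm (hh ▸ ty' : TE G u z).not_we
    subst hyy
    have k1 : (ty G B y).sm = true := sm_iff.mpr s1
    have hxe : x = ed G B u y := by
      rcases hx with hx | hx
      · exact hx
      · rw [hx]
        exact ed_symm h ty'.1.symm
    have k2 : x.sl = true := by
      rw [hxe]
      rcases (ed_sm ty').mp s2 with hh | hh | hh | hh <;> rw [hh] <;> rfl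
    rw [mk, e, k1, k2]
    rfl
  · have e : (ed G B z u).isW = false := by
      rcases (ed_sm t).mp s2 with hh | hh | hh | hh <;> rw [hh] <;> rfl
    have k1 : (ty G B u).sm = true := sm_iff.mpr s1
    have k2 : (ed G B z u).sl = true := by
      rcases (ed_sm t).mp s2 with hh | hh | hh | hh <;> rw [hh] <;> rfl
    rw [mk, e, k1, k2]
    rfl

/-- the `P1c` centres -/
private theorem n1_mem (h : MinCE G B) {n : ℕ} [NeZero n] {c : ZMod n → V} (hn : 6 ≤ n)
    (hR : Ring G F i n c) {v : V} (hv : N1 G B F i v) :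
    ∃ j, dP (we G B c (j - 1)) (wk G B c (j - 1)) (we G B c (j - 2)) (wk G B c (j - 2))
      (wk G B c j) (we G B c j) (wk G B c (j + 1)) (we G B c (j + 1)) (wk G B c (j + 2)) = true ∧
      c j = v := by
  obtain ⟨h1, -, u, w, huw, fu, fw, mu, mw⟩ := hv
  have n3 : 3 ≤ n := by omega
  obtain ⟨j, ev, -⟩ := hR.edge fu
  refine ⟨j, ?_, ev.symm⟩
  have gu := hR.next n3 (ev ▸ fu : s(c j, u) ∈ F i)
  have gw := hR.next n3 (ev ▸ fw : s(c j, w) ∈ F i)
  have hb : mok G B F (c j) i (c (j + 1)) ∧ mok G B F (c j) i (c (j - 1)) := by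
    rw [← ev]
    rcases gu with gu | gu <;> rcases gw with gw | gw
    · exact absurd (gu.trans gw.symm) huw
    · rw [← gu, ← gw]
      exact ⟨mu, mw⟩
    · rw [← gu, ← gw]
      exact ⟨mw, mu⟩
    · exact absurd (gu.trans gw.symm) huw
  have k0 : (wk G B c j).isp = true := by
    have : wk G B c j = .p := by
      unfold wk
      rw [ty_p h, ← ev]
      exact h1
    rw [this]
    rfl
  have k1 : mk (we G B c j) (wk G B c (j + 1)) (we G B c (j + 1)) (wk G B c (j + 2)) = true := by
    unfold we wk
    refine mk_of_mok h (Or.inl ?_) ?_ hb.1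
    · rw [add_assoc, one_add_one_eq_two]
    · intro y hy
      rcases hR.next n3 hy with hh | hh
      · left
        rw [hh, add_assoc, one_add_one_eq_two]
      · right
        rw [hh, add_sub_cancel_right]
  have k2 : mk (we G B c (j - 1)) (wk G B c (j - 1)) (we G B c (j - 2)) (wk G B c (j - 2))
      = true := by
    have e1 : we G B c (j - 1) = ed G B (c j) (c (j - 1)) := by
      unfold we
      rw [sub_add_cancel]
      exact (ed_symm h (hR.adj' j)).symm
    rw [e1]
    unfold we wk
    refine mk_of_mok h (Or.inr ?_) ?_ hb.2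
    · rw [show j - 2 + 1 = j - 1 by ring]
    · intro y hy
      rcases hR.next n3 hy with hh | hh
      · right
        rw [hh, sub_add_cancel]
      · left
        rw [hh]
        congr 1
        ring
  rw [dP, k0, k1, k2]
  rfl

theorem bf_le (h : MinCE G B) (hF : Faces G F) {n : ℕ} [NeZero n] {c : ZMod n → V} (hn : 6 ≤ n)
    (hR : Ring G F i n c) :
    ∑ v, Bf G B F i v ≤ (dem (wk G B c) (we G B c) : ℤ) := by
  classical
  have hl : ∑ v, Bf G B F i v = 2 * ((univ.filter (NV G B F i)).card : ℤ) +
      1 * ((univ.filter (NW G B F i)).card : ℤ) + 2 * ((univ.filter (N1 G B F i)).card : ℤ) := by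
    unfold Bf
    rw [Finset.sum_add_distrib, Finset.sum_add_distrib, sum_if, sum_if, sum_if]
  have hr : (dem (wk G B c) (we G B c) : ℤ) =
      2 * ((univ.filter (fun j : ZMod n =>
        dV (wk G B c j) (we G B c j) (wk G B c (j + 1)) = true)).card : ℤ) +
      2 * ((univ.filter (fun j : ZMod n =>
        dW (we G B c (j - 1)) (wk G B c (j - 1)) (wk G B c j) (we G B c j) (wk G B c (j + 1))
      (we G B c (j + 1)) (wk G B c (j + 2)) = true)).card : ℤ) +
      2 * ((univ.filter (fun j : ZMod n =>
        dP (we G B c (j - 1)) (wk G B c (j - 1)) (we G B c (j - 2)) (wk G B c (j - 2))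
      (wk G B c j) (we G B c j) (wk G B c (j + 1)) (we G B c (j + 1)) (wk G B c (j + 2))
        = true)).card : ℤ) := by
    unfold dem demj
    push_cast
    rw [Finset.sum_add_distrib, Finset.sum_add_distrib, sum_if, sum_if, sum_if]
  rw [hl, hr]
  have a1 : (univ.filter (NV G B F i)).card ≤ (univ.filter (fun j : ZMod n =>
        dV (wk G B c j) (we G B c j) (wk G B c (j + 1)) = true)).card := by
    refine le_trans (Finset.card_le_card ?_) (Finset.card_image_le
      (f := fun j : ZMod n => apx G (c j) (c (j + 1))))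
    intro v hv
    obtain ⟨j, h1, h2⟩ := nv_mem h hR (Finset.mem_filter.mp hv).2
    exact Finset.mem_image.mpr ⟨j, Finset.mem_filter.mpr ⟨Finset.mem_univ _, h1⟩, h2⟩
  have a2 : (univ.filter (NW G B F i)).card ≤ 2 * (univ.filter (fun j : ZMod n =>
        dW (we G B c (j - 1)) (wk G B c (j - 1)) (wk G B c j) (we G B c j) (wk G B c (j + 1))
      (we G B c (j + 1)) (wk G B c (j + 2)) = true)).card := by
    have a3 : univ.filter (NW G B F i) ⊆
        (univ.filter (fun j : ZMod n =>
        dW (we G B c (j - 1)) (wk G B c (j - 1)) (wk G B c j) (we G B c j) (wk G B c (j + 1))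
      (we G B c (j + 1)) (wk G B c (j + 2)) = true)).image c ∪
        (univ.filter (fun j : ZMod n =>
        dW (we G B c (j - 1)) (wk G B c (j - 1)) (wk G B c j) (we G B c j) (wk G B c (j + 1))
      (we G B c (j + 1)) (wk G B c (j + 2)) = true)).image (fun j => c (j + 1)) := by
      intro v hv
      obtain ⟨j, h1, h2⟩ := nw_mem h hn hR (Finset.mem_filter.mp hv).2
      rw [Finset.mem_union]
      rcases h2 with h2 | h2
      · exact Or.inl (Finset.mem_image.mpr
          ⟨j, Finset.mem_filter.mpr ⟨Finset.mem_univ _, h1⟩, h2.symm⟩)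
      · exact Or.inr (Finset.mem_image.mpr
          ⟨j, Finset.mem_filter.mpr ⟨Finset.mem_univ _, h1⟩, h2.symm⟩)
    refine le_trans (Finset.card_le_card a3) (le_trans (Finset.card_union_le _ _) ?_)
    rw [two_mul]
    exact Nat.add_le_add Finset.card_image_le Finset.card_image_le
  have a4 : (univ.filter (N1 G B F i)).card ≤ (univ.filter (fun j : ZMod n =>
        dP (we G B c (j - 1)) (wk G B c (j - 1)) (we G B c (j - 2)) (wk G B c (j - 2))
      (wk G B c j) (we G B c j) (wk G B c (j + 1)) (we G B c (j + 1)) (wk G B c (j + 2))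
        = true)).card := by
    refine le_trans (Finset.card_le_card ?_) (Finset.card_image_le (f := c))
    intro v hv
    obtain ⟨j, h1, h2⟩ := n1_mem h hn hR (Finset.mem_filter.mp hv).2
    exact Finset.mem_image.mpr ⟨j, Finset.mem_filter.mpr ⟨Finset.mem_univ _, h1⟩, h2⟩
  zify at a1 a2 a4
  linarith

end Pool.Agent.Lib.SVY
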