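import Pool.Agent.Lib.SVY.SupA
import Pool.Agent.Lib.SVY.CeB

/-!
# SVY.SupB: the supply of a face of length 6

Plan.  `∑ q, Af q i` = twice the free darts (`free_ge`) + the terms of the `Ex2` vertices with a
T-T-corner on `i` (all of them are ring vertices, the terms are nonnegative by `ce_four`; `supG_le`)
+ the `S3` terms (`sS` at `j`, direction + or -, at most one of them because the weak neighbour of
an `Ex2` vertex is unique, implies `S3 (c j) i`).
-/

set_option autoImplicit false
set_option linter.unusedSectionVars false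

namespace Pool.Agent.Lib.SVY

open Finset Pool.Agent.Lib.SVT Pool.Agent.Lib.SVX

variable {V : Type*} [Fintype V] [DecidableEq V] {G : SimpleGraph V} {B : Finset V}
variable {m : ℕ} {F : Fin m → Finset (Sym2 V)} {i : Fin m}

namespace SupBAux

theorem one_iff (h : MinCE G B) {v : V} : (ty G B v).one = true ↔ One G B v := by
  constructor
  · intro h1
    have h2 : ty G B v = .a ∨ ty G B v = .b ∨ ty G B v = .c := by
      revert h1
      cases ty G B v <;> simp [Ty.one]
    rcases h2 with h2 | h2 | h2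
    · exact (ty_a.1 h2).1
    · exact ((ty_b h).1 h2).1
    · exact (ty_c.1 h2).1
  · intro h1
    by_cases h2 : OneP G B v
    · rw [ty_a.2 h2]
      rfl
    by_cases h3 : OneQ G B v
    · rw [(ty_b h).2 h3]
      rfl
    rw [ty_c.2 ⟨h1, h2, h3⟩]
    rfl

theorem isG_iff {v : V} : (ty G B v).isG = true ↔ Ex2 G B v := by
  rw [← ty_G]
  cases ty G B v <;> simp [Ty.isG]

theorem iss_iff {v : V} : (ty G B v).iss = true ↔ Star G B v := by
  rw [← ty_s]
  cases ty G B v <;> simp [Ty.iss]

theorem isW_iff {a b : V} : (ed G B a b).isW = true ↔ WE G a b := by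
  rw [← ed_W (B := B)]
  cases ed G B a b <;> simp [Ed.isW]

theorem sum_inj {f : V → ℤ} (hf : ∀ q, 0 ≤ f q) {c : ZMod 6 → V} (hc : Function.Injective c) :
    ∑ j, f (c j) ≤ ∑ q, f q := by
  rw [← sum_image (f := f) (s := univ) (g := c) (fun x _ y _ hxy => hc hxy)]
  exact sum_le_sum_of_subset_of_nonneg (subset_univ _) (fun q _ _ => hf q)

open Classical in
/-- the term of the T-T-corner -/
noncomputable def tG (G : SimpleGraph V) (B : Finset V) (F : Fin m → Finset (Sym2 V)) (i : Fin m)
    (q : V) : ℤ := if Ex2 G B q ∧ TT G F q i then 4 - ∑ u, Ce G B q u else 0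

open Classical in
/-- the third unit -/
noncomputable def tS (G : SimpleGraph V) (B : Finset V) (F : Fin m → Finset (Sym2 V)) (i : Fin m)
    (q : V) : ℤ := if S3 G B F q i then 2 else 0

theorem tG_nonneg (h : MinCE G B) (hF : Faces G F) (hL : LF G B F) (q : V) :
    0 ≤ tG G B F i q := by
  unfold tG
  split_ifs with h1
  · have := ce_four h hF hL h1.1
    omega
  · exact le_rfl

theorem tS_nonneg (q : V) : 0 ≤ tS G B F i q := by
  unfold tS
  split_ifs
  · norm_num
  · exact le_rfl

theorem nat_ite {p : Prop} [Decidable p] : (if p then 2 else 0 : ℕ) = 2 * (if p then 1 else 0) := by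
  split_ifs <;> rfl

/-- the `S3` units at `j` -/
def nS (k : ZMod 6 → Ty) (e : ZMod 6 → Ed) (j : ZMod 6) : ℕ :=
  (if sS (k j) (e j) (k (j + 1)) (k (j + 2)) then 2 else 0) +
    (if sS (k j) (e (j - 1)) (k (j - 1)) (k (j - 2)) then 2 else 0)

/-- the supply of the T-T-corner at `j` -/
def nG (k : ZMod 6 → Ty) (e : ZMod 6 → Ed) (j : ZMod 6) : ℕ :=
  supG (e (j - 1)) (k (j - 1)) (e (j - 2)) (k (j - 2)) (k j) (e j) (k (j + 1)) (e (j + 1))
      (k (j + 2))

theorem sup_eq (k : ZMod 6 → Ty) (e : ZMod 6 → Ed) :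
    sup k e = 2 * nfree k e + (∑ j, nG k e j + ∑ j, nS k e j) := by
  unfold sup nfree
  rw [mul_sum, ← sum_add_distrib, ← sum_add_distrib]
  refine sum_congr rfl (fun j _ => ?_)
  unfold supd nS nG
  simp only [nat_ite]
  ring

end SupBAux

open SupBAux

theorem af_ge (h : MinCE G B) (hF : Faces G F) (hL : LF G B F) {c : ZMod 6 → V}
    (hR : Ring G F i 6 c) :
    (sup (wk G B c) (we G B c) : ℤ) ≤ ∑ q, Af G B F q i := by
  classical
  have h1 := free_ge h hF hL hR
  have e2 : ∑ q, Af G B F q i =
      2 * ((∑ q, (univ.filter (fun a => FD G B q a ∧ Rcv G B F q a i)).card : ℕ) : ℤ) +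
        (∑ q, tG G B F i q + ∑ q, tS G B F i q) := by
    rw [Nat.cast_sum, mul_sum, ← sum_add_distrib, ← sum_add_distrib]
    refine sum_congr rfl (fun q _ => ?_)
    unfold Af tG tS
    rw [add_assoc]
  have hj1 : ∀ j : ZMod 6, c (j - 1 + 1) = c j := fun j => by rw [sub_add_cancel]
  have hW1 : ∀ j : ZMod 6, (we G B c (j - 1)).isW = true ↔ WE G (c j) (c (j - 1)) := by
    intro j
    unfold we
    rw [isW_iff, hj1]
    exact ⟨WE.symm, WE.symm⟩
  have hW0 : ∀ j : ZMod 6, (we G B c j).isW = true ↔ WE G (c j) (c (j + 1)) := by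
    intro j
    unfold we
    rw [isW_iff]
  have h2 : ∑ j, ((nG (wk G B c) (we G B c) j : ℕ) : ℤ) ≤ ∑ q, tG G B F i q := by
    refine le_trans (sum_le_sum (fun j _ => ?_)) (sum_inj (tG_nonneg h hF hL) hR.cyc.1)
    by_cases hc : ((wk G B c j).isG && !(we G B c (j - 1)).isW && !(we G B c j).isW) = true
    · have hc' := hc
      rw [Bool.and_eq_true, Bool.and_eq_true, Bool.not_eq_true', Bool.not_eq_true'] at hc'
      obtain ⟨⟨hc1, hc2⟩, hc3⟩ := hc'
      have hg : Ex2 G B (c j) := isG_iff.1 hc1
      have t1 : TE G (c j) (c (j - 1)) := by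
        rcases te_or_we (Ring.adj' hR j) with h3 | h3
        · exact h3
        · rw [(hW1 j).2 h3] at hc2
          exact absurd hc2 (by decide)
      have t2 : TE G (c j) (c (j + 1)) := by
        rcases te_or_we (Ring.adj hR j) with h3 | h3
        · exact h3
        · rw [(hW0 j).2 h3] at hc3
          exact absurd hc3 (by decide)
      have hTT : TT G F (c j) i := ⟨Ring.nt hR (by norm_num), c (j - 1), c (j + 1),
        Ring.ne (by norm_num) hR j, t1, t2, Ring.mem' hR j, Ring.mem hR j⟩
      have h4 := supG_le h hF hL (le_refl 6) hR j hg t1 t2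
      unfold tG
      rw [if_pos ⟨hg, hTT⟩]
      exact h4
    · have h5 : nG (wk G B c) (we G B c) j = 0 := by
        unfold nG supG
        rw [if_neg hc]
      rw [h5]
      exact tG_nonneg h hF hL (c j)
  have hS : ∀ (j : ZMod 6) (n u : V), (u ≠ c j) → WE G (c j) n → s(c j, n) ∈ F i → s(n, u) ∈ F i →
      Ex2 G B (c j) → Star G B n → ¬ One G B u → S3 G B F (c j) i := by
    intro j n u hu hw m1 m2 hg hs ho
    exact ⟨hg, Ring.nt hR (by norm_num), n, u, hw, hs, m1, hu, m2, ho⟩
  have h3 : ∑ j, ((nS (wk G B c) (we G B c) j : ℕ) : ℤ) ≤ ∑ q, tS G B F i q := by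
    refine le_trans (sum_le_sum (fun j _ => ?_)) (sum_inj tS_nonneg hR.cyc.1)
    have hp : sS (wk G B c j) (we G B c j) (wk G B c (j + 1)) (wk G B c (j + 2)) = true →
        WE G (c j) (c (j + 1)) ∧ S3 G B F (c j) i ∧ Ex2 G B (c j) := by
      intro hs
      unfold sS at hs
      rw [Bool.and_eq_true, Bool.and_eq_true, Bool.and_eq_true, Bool.not_eq_true'] at hs
      obtain ⟨⟨⟨q1, q2⟩, q3⟩, q4⟩ := hs
      have hg : Ex2 G B (c j) := isG_iff.1 q1
      have hw := (hW0 j).1 q2
      have hst : Star G B (c (j + 1)) := iss_iff.1 q3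
      have ho : ¬ One G B (c (j + 2)) := by
        intro h6
        have h7 := (one_iff h).2 h6
        unfold wk at q4
        rw [h7] at q4
        exact absurd q4 (by decide)
      have hm := Ring.mem hR (j + 1)
      have e4 : j + 1 + 1 = j + 2 := by ring
      rw [e4] at hm
      have hne : c (j + 2) ≠ c j := by
        have h8 := Ring.ne (by norm_num) hR (j + 1)
        rw [add_sub_cancel_right, e4] at h8
        exact h8.symm
      exact ⟨hw, hS j _ _ hne hw (Ring.mem hR j) hm hg hst ho, hg⟩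
    have hq : sS (wk G B c j) (we G B c (j - 1)) (wk G B c (j - 1)) (wk G B c (j - 2)) = true →
        WE G (c j) (c (j - 1)) ∧ S3 G B F (c j) i ∧ Ex2 G B (c j) := by
      intro hs
      unfold sS at hs
      rw [Bool.and_eq_true, Bool.and_eq_true, Bool.and_eq_true, Bool.not_eq_true'] at hs
      obtain ⟨⟨⟨q1, q2⟩, q3⟩, q4⟩ := hs
      have hg : Ex2 G B (c j) := isG_iff.1 q1
      have hw := (hW1 j).1 q2
      have hst : Star G B (c (j - 1)) := iss_iff.1 q3
      have ho : ¬ One G B (c (j - 2)) := by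
        intro h6
        have h7 := (one_iff h).2 h6
        unfold wk at q4
        rw [h7] at q4
        exact absurd q4 (by decide)
      have hm := Ring.mem' hR (j - 1)
      have e4 : j - 1 - 1 = j - 2 := by ring
      rw [e4] at hm
      have hne : c (j - 2) ≠ c j := by
        have h8 := Ring.ne (by norm_num) hR (j - 1)
        rw [sub_add_cancel, e4] at h8
        exact h8
      exact ⟨hw, hS j _ _ hne hw (Ring.mem' hR j) hm hg hst ho, hg⟩
    unfold nS tS
    by_cases p1 : sS (wk G B c j) (we G B c j) (wk G B c (j + 1)) (wk G B c (j + 2)) = true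
    · obtain ⟨a1, a2, a3⟩ := hp p1
      have p2 : ¬ sS (wk G B c j) (we G B c (j - 1)) (wk G B c (j - 1)) (wk G B c (j - 2)) =
          true := by
        intro p2
        obtain ⟨b1, -, -⟩ := hq p2
        exact Ring.ne (by norm_num) hR j (Ex2.wn_unique h a3 b1 a1)
      rw [if_pos p1, if_neg p2, if_pos a2]
      norm_num
    · rw [if_neg p1]
      by_cases p2 : sS (wk G B c j) (we G B c (j - 1)) (wk G B c (j - 1)) (wk G B c (j - 2)) =
          true
      · obtain ⟨-, b2, -⟩ := hq p2
        rw [if_pos p2, if_pos b2]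
        norm_num
      · rw [if_neg p2]
        split_ifs <;> norm_num
  rw [sup_eq, e2]
  push_cast at h2 h3 ⊢
  have h1' : (nfree (wk G B c) (we G B c) : ℤ) ≤
      ((∑ q, (univ.filter (fun a => FD G B q a ∧ Rcv G B F q a i)).card : ℕ) : ℤ) := by
    exact_mod_cast h1
  push_cast at h1'
  linarith

theorem af_nonneg (h : MinCE G B) (hF : Faces G F) (hL : LF G B F) (q : V) (i : Fin m) :
    0 ≤ Af G B F q i := by
  classical
  have h1 := tG_nonneg (i := i) h hF hL q
  have h2 := tS_nonneg (G := G) (B := B) (F := F) (i := i) q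
  unfold tG at h1
  unfold tS at h2
  unfold Af
  have h3 : (0 : ℤ) ≤ 2 * ((univ.filter (fun a => FD G B q a ∧ Rcv G B F q a i)).card : ℤ) := by
    positivity
  linarith

end Pool.Agent.Lib.SVY
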