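import Pool.Agent.Lib.SVY.ValA

/-!
# SVY.ValB: restrictions for a vertex and its two edges on a face

The vertex `v` (centre), the edge `v b` (side `y b` of `r1e`, `r1v`) and the edge `v a` on the other
side.  Plan.  By `nt_short`, `a` and `b` are not adjacent (if `3 ≤ dg G v`); a `Free` or `Npay`
vertex has at most one of the two edges in a triangle.
`mem`, `xt`, `att`: the triangle on `v b` contains besides `v` a vertex `p` (`b` or the apex) which is
`OneP`, `OneQ`, `P1c`; `xps`, `aps`: its partner is small.  Every excluded case contradicts a field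
of `LF`: `mem` and a vertex of degree 3 on the other side: `l2`; `mem` and `P1c`: `m5`; `xt` and
degree 3: `l3`; `xt`, `xps` and `P1c`: `q16`; `att`, `aps`: `a18f`, `a18n`; `a, v, b` of degree 3:
`l1`; `Ex2` with classes `okG s t = false`: `e20` (2; 1,2,3), `e22`, `e23` (2; 4), `e21` (3; 3),
`e26` (3; 4); in class 3 the exceptional partner is `Ex2` by `pk`.  A vertex `p` of the triangle on
`v b` and a vertex `w` of the triangle on `v a` are different and not adjacent (uniqueness of the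
apex).
-/

set_option autoImplicit false
set_option linter.unusedSectionVars false

namespace Pool.Agent.Lib.SVY

open Finset Pool.Agent.Lib.SVT Pool.Agent.Lib.SVX

variable {V : Type*} [Fintype V] [DecidableEq V] {G : SimpleGraph V} {B : Finset V}
variable {m : ℕ} {F : Fin m → Finset (Sym2 V)} {i : Fin m}

namespace ValBAux

/-- `v`, `p`, `q` is the triangle on the edge `v b` -/
structure Sd (G : SimpleGraph V) (v b p q : V) : Prop where
  vp : G.Adj v p
  vq : G.Adj v q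
  pq : G.Adj p q
  o : b = p ∨ b = q

lemma Sd.te {v b p q : V} (s : Sd G v b p q) : TE G v p := ⟨s.vp, q, s.vq, s.pq⟩

lemma Sd.apx {v b p q : V} (h : MinCE G B) (s : Sd G v b p q) : apx G p v = q :=
  apx_eq h s.vp.symm s.pq s.vq

lemma sd1 {v b : V} (h : TE G v b) : Sd G v b b (SVY.apx G v b) :=
  ⟨h.1, (apx_adj h).1, (apx_adj h).2, Or.inl rfl⟩

lemma sd2 {v b : V} (h : TE G v b) : Sd G v b (SVY.apx G v b) b :=
  ⟨(apx_adj h).1, h.1, (apx_adj h).2.symm, Or.inr rfl⟩

lemma Sd.out {v a b p q : V} (s : Sd G v b p q) (hab : a ≠ b) (hn : ¬ G.Adj a b) :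
    a ≠ p ∧ a ≠ q := by
  rcases s.o with rfl | rfl
  · refine ⟨hab, ?_⟩
    rintro rfl
    exact hn s.pq.symm
  · refine ⟨?_, hab⟩
    rintro rfl
    exact hn s.pq

lemma Sd.far1 {v a b p q : V} (h : MinCE G B) (s : Sd G v b p q) (hab : a ≠ b)
    (hn : ¬ G.Adj a b) (hva : G.Adj v a) : p ≠ a ∧ ¬ G.Adj p a := by
  obtain ⟨h1, h2⟩ := s.out hab hn
  refine ⟨h1.symm, fun h3 => h2 ?_⟩
  exact apex h s.vp hva h3 s.vq s.pq

lemma Sd.far2 {v a b p q x y : V} (h : MinCE G B) (s : Sd G v b p q) (s' : Sd G v a x y)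
    (hab : a ≠ b) (hn : ¬ G.Adj a b) : p ≠ x ∧ ¬ G.Adj p x := by
  obtain ⟨h1, h2⟩ := s.out hab hn
  have h3 : p ≠ x := by
    rintro rfl
    have h4 : y = q := apex h s.vp s'.vq s'.pq s.vq s.pq
    rcases s'.o with h5 | h5
    · exact h1 h5
    · exact h2 (h5.trans h4)
  refine ⟨h3, fun h4 => ?_⟩
  have h5 : x = q := apex h s.vp s'.vp h4 s.vq s.pq
  subst h5
  have h6 : y = p := apex h s'.vp s'.vq s'.pq s.vp s.pq.symm
  rcases s'.o with h7 | h7
  · exact h2 h7
  · exact h1 (h7.trans h6)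

lemma we_ne {p z v : V} (h1 : WE G p z) (h2 : TE G p v) : z ≠ v := by
  rintro rfl
  exact h2.not_we h1

lemma we_far {p z v : V} (h1 : WE G p z) (h2 : G.Adj p v) : ¬ G.Adj z v :=
  fun h3 => h1.2 ⟨v, h2, h3⟩

lemma One.inn {v : V} (h : One G B v) : Inn G B 3 v := ⟨h.1, h.2.1.le⟩

lemma F12.inn {v : V} (h : F12 G B v) : Inn G B 4 v := ⟨h.1, h.2.1.le⟩

lemma FF.inn {v : V} (h : FF G B v) : Inn G B 4 v := ⟨h.1, h.2.1.le⟩

lemma k2 (hL : LF G B F) {v p x : V} (hp : OneP G B p) (hv : Inn G B 4 v) (hx : Inn G B 3 x)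
    (hvp : TE G v p) (hvx : G.Adj v x) (h1 : p ≠ x ∧ ¬ G.Adj p x) : False := by
  obtain ⟨h2, z, h3, h4⟩ := hp
  exact hL.l2 z p v x (One.inn h4) (One.inn h2) hv hx h3.1.symm hvp.1.symm hvx
    (we_ne h3 hvp.symm) h1.1 (we_far h3 hvp.1.symm) h1.2

lemma k3 (h : MinCE G B) (hL : LF G B F) {v p x : V} (hp : OneQ G B p) (hv : Inn G B 4 v)
    (hx : Inn G B 3 x) (hvp : TE G v p) (hvx : G.Adj v x) (h1 : p ≠ x ∧ ¬ G.Adj p x) :
    False := by
  obtain ⟨h2, z, h3, h4⟩ := hp
  obtain ⟨a, b, hab, wa, wb, hc⟩ := F12.weak h h4.1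
  have h5 : ∃ w, w ≠ p ∧ WE G z w := by
    by_cases h6 : a = p
    · exact ⟨b, fun h7 => hab (h6.trans h7.symm), wb⟩
    · exact ⟨a, h6, wa⟩
  obtain ⟨w, h6, h7⟩ := h5
  exact hL.l3 w z p v x (One.inn (h4.2 w h7)) (F12.inn h4.1) (One.inn h2) hv hx h7.1.symm
    h3.1.symm hvp.1.symm hvx h6 (we_ne h3 hvp.symm) h1.1
    (fun h8 => h7.2 ⟨p, h3.1.symm, h8⟩) (we_far h3 hvp.1.symm) h1.2

/-! ### the meaning of the Boolean conditions -/

lemma isV_iff {x : Ed} : x.isV = true ↔ x = .V := by cases x <;> decide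
lemma isQ_iff {x : Ed} : x.isQ = true ↔ x = .Q := by cases x <;> decide
lemma isC_iff {x : Ed} : x.isC = true ↔ x = .C := by cases x <;> decide
lemma isW_iff {x : Ed} : x.isW = true ↔ x = .W := by cases x <;> decide
lemma isa_iff {x : Ty} : x.isa = true ↔ x = .a := by cases x <;> decide
lemma isb_iff {x : Ty} : x.isb = true ↔ x = .b := by cases x <;> decide
lemma isp_iff {x : Ty} : x.isp = true ↔ x = .p := by cases x <;> decide
lemma isF_iff {x : Ty} : x.isF = true ↔ x = .F := by cases x <;> decide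
lemma isf_iff {x : Ty} : x.isf = true ↔ x = .f := by cases x <;> decide
lemma isN_iff {x : Ty} : x.isN = true ↔ x = .N := by cases x <;> decide
lemma one_iff {x : Ty} : x.one = true ↔ x = .a ∨ x = .b ∨ x = .c := by cases x <;> decide
lemma sl_iff {x : Ed} : x.sl = true ↔ x = .S ∨ x = .V ∨ x = .Q ∨ x = .C := by
  cases x <;> decide

lemma te_of {a b : V} (hab : G.Adj a b) (hne : ed G B a b ≠ .W) : TE G a b := by
  rcases te_or_we hab with h1 | h1
  · exact h1
  · exact absurd (ed_W.2 h1) hne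

lemma ty_one (h : MinCE G B) {v : V} (hv : (ty G B v).one = true) : One G B v := by
  rcases one_iff.1 hv with h1 | h1 | h1
  · exact (ty_a.1 h1).1
  · exact ((ty_b h).1 h1).1
  · exact (ty_c.1 h1).1

lemma mem_sd {v b : V} (hvb : G.Adj v b) (hm : mem (ed G B v b) (ty G B b) = true) :
    ∃ p q, Sd G v b p q ∧ OneP G B p := by
  unfold mem at hm
  rw [Bool.or_eq_true, Bool.and_eq_true, isV_iff, isa_iff] at hm
  rcases hm with h1 | ⟨h1, h2⟩
  · have h2 : TE G v b := te_of hvb (by rw [h1]; decide)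
    exact ⟨_, _, sd2 h2, (ed_V h2).1 h1⟩
  · have h3 : TE G v b := te_of hvb (by
      intro h4
      rw [h4] at h1
      exact absurd h1 (by decide))
    exact ⟨_, _, sd1 h3, ty_a.1 h2⟩

lemma xt_sd (h : MinCE G B) {v b : V} (hvb : G.Adj v b)
    (hm : xt (ed G B v b) (ty G B b) = true) : ∃ p q, Sd G v b p q ∧ OneQ G B p := by
  unfold xt at hm
  rw [Bool.or_eq_true, Bool.and_eq_true, isQ_iff, isb_iff] at hm
  rcases hm with h1 | ⟨h1, h2⟩
  · have h2 : TE G v b := te_of hvb (by rw [h1]; decide)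
    exact ⟨_, _, sd2 h2, (ed_Q h h2).1 h1⟩
  · have h3 : TE G v b := te_of hvb (by
      intro h4
      rw [h4] at h1
      exact absurd h1 (by decide))
    exact ⟨_, _, sd1 h3, (ty_b h).1 h2⟩

lemma xps_sd (h : MinCE G B) {v b : V} (hvb : G.Adj v b)
    (hm : xt (ed G B v b) (ty G B b) = true) (hs : xps (ed G B v b) (ty G B b) = true) :
    ∃ p q, Sd G v b p q ∧ OneQ G B p ∧ Sm G B q := by
  unfold xt at hm
  unfold xps at hs
  rw [Bool.or_eq_true, Bool.and_eq_true, isQ_iff, isb_iff] at hm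
  by_cases h1 : ed G B v b = .Q
  · have h2 : TE G v b := te_of hvb (by rw [h1]; decide)
    rw [if_pos (isQ_iff.2 h1)] at hs
    exact ⟨_, _, sd2 h2, (ed_Q h h2).1 h1, sm_iff.1 hs⟩
  · rcases hm with h2 | ⟨h2, h3⟩
    · exact absurd h2 h1
    · have h4 : TE G v b := te_of hvb (by
        intro h4
        rw [h4] at h2
        exact absurd h2 (by decide))
      rw [if_neg (fun h5 => h1 (isQ_iff.1 h5))] at hs
      exact ⟨_, _, sd1 h4, (ty_b h).1 h3, (ed_sm h4).2 (sl_iff.1 hs)⟩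

lemma aps_sd (h : MinCE G B) {v b : V} (hvb : G.Adj v b)
    (hm : att (ed G B v b) (ty G B b) = true) (hs : aps (ed G B v b) (ty G B b) = true) :
    ∃ p q, Sd G v b p q ∧ P1c G B p ∧ Sm G B q := by
  unfold att at hm
  unfold aps at hs
  rw [Bool.or_eq_true, Bool.and_eq_true, isC_iff, isp_iff] at hm
  by_cases h1 : ed G B v b = .C
  · have h2 : TE G v b := te_of hvb (by rw [h1]; decide)
    rw [if_pos (isC_iff.2 h1)] at hs
    exact ⟨_, _, sd2 h2, (ed_C h h2).1 h1, sm_iff.1 hs⟩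
  · rcases hm with h2 | ⟨h2, h3⟩
    · exact absurd h2 h1
    · have h4 : TE G v b := te_of hvb (by
        intro h4
        rw [h4] at h2
        exact absurd h2 (by decide))
      rw [if_neg (fun h5 => h1 (isC_iff.1 h5))] at hs
      exact ⟨_, _, sd1 h4, (ty_p h).1 h3, (ed_sm h4).2 (sl_iff.1 hs)⟩

/-- the other side is an edge whose apex is `OneP`, `OneQ` or `P1c` -/
lemma isV_sd {v a : V} (hva : G.Adj v a) (hx : (ed G B v a).isV = true) :
    Sd G v a (apx G v a) a ∧ OneP G B (apx G v a) := by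
  rw [isV_iff] at hx
  have h2 : TE G v a := te_of hva (by rw [hx]; decide)
  exact ⟨sd2 h2, (ed_V h2).1 hx⟩

lemma isQ_sd (h : MinCE G B) {v a : V} (hva : G.Adj v a) (hx : (ed G B v a).isQ = true) :
    Sd G v a (apx G v a) a ∧ OneQ G B (apx G v a) := by
  rw [isQ_iff] at hx
  have h2 : TE G v a := te_of hva (by rw [hx]; decide)
  exact ⟨sd2 h2, (ed_Q h h2).1 hx⟩

lemma isC_sd (h : MinCE G B) {v a : V} (hva : G.Adj v a) (hx : (ed G B v a).isC = true) :
    Sd G v a (apx G v a) a ∧ P1c G B (apx G v a) := by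
  rw [isC_iff] at hx
  have h2 : TE G v a := te_of hva (by rw [hx]; decide)
  exact ⟨sd2 h2, (ed_C h h2).1 hx⟩

lemma adj_of (hF : Faces G F) {v a : V} (h1 : s(v, a) ∈ F i) : G.Adj v a := by
  have h2 := hF.sub i _ h1
  rwa [SimpleGraph.mem_edgeSet] at h2

lemma FF.te (h : MinCE G B) {v a : V} (hv : FF G B v) (ha : G.Adj v a) : TE G v a := by
  rcases te_or_we ha with h1 | h1
  · exact h1
  · exact absurd h1 (FF.no_weak h hv)

/-- `F12`: one of two edges of a face which is not a triangle is weak -/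
lemma F12.one_we (h : MinCE G B) {v a b : V} (hv : F12 G B v) (hab : a ≠ b)
    (hn : ¬ G.Adj a b) (ha : TE G v a) (hb : TE G v b) : False := by
  obtain ⟨x, y, hxy, e1, e2, e3, h4⟩ := one_tri h hv.2.2
  rcases h4 a ha with rfl | rfl
  · rcases h4 b hb with rfl | rfl
    · exact hab rfl
    · exact hn e3
  · rcases h4 b hb with rfl | rfl
    · exact hn e3.symm
    · exact hab rfl

end ValBAux

open ValBAux

theorem l_r1e (h : MinCE G B) (hF : Faces G F) (hL : LF G B F) {v a b : V} (hi : Nt F i)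
    (hab : a ≠ b) (h1 : s(v, a) ∈ F i) (h2 : s(v, b) ∈ F i) :
    r1e (ed G B v a) (ty G B v) (ed G B v b) (ty G B b) = true := by
  have hva := adj_of hF h1
  have hvb := adj_of hF h2
  by_contra hcon
  unfold r1e at hcon
  rw [Bool.and_eq_true, Bool.and_eq_true, Bool.not_eq_true', Bool.not_eq_true',
    Bool.not_eq_true'] at hcon
  have hc : (((((ty G B v).isF || (ty G B v).isf) && mem (ed G B v b) (ty G B b)) &&
      ((ed G B v a).isV || (ed G B v a).isQ)) = true) ∨
      (((ty G B v).isF && ((mem (ed G B v b) (ty G B b) && (ed G B v a).isC) ||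
        (xt (ed G B v b) (ty G B b) && ((ed G B v a).isV || (ed G B v a).isQ)) ||
        (xt (ed G B v b) (ty G B b) && xps (ed G B v b) (ty G B b) && (ed G B v a).isC) ||
        (att (ed G B v b) (ty G B b) && aps (ed G B v b) (ty G B b) &&
          ((ed G B v a).isV || (ed G B v a).isQ || (ed G B v a).isC)))) = true) ∨
      (((ty G B v).isN && att (ed G B v b) (ty G B b) && aps (ed G B v b) (ty G B b)) = true) := by
    by_contra hc
    push Not at hc
    exact hcon ⟨⟨Bool.eq_false_iff.2 hc.1, Bool.eq_false_iff.2 hc.2.1⟩,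
      Bool.eq_false_iff.2 hc.2.2⟩
  have hsh : 3 ≤ dg G v → ¬ G.Adj a b := fun hd => nt_short h hF hi hd hab h1 h2
  rcases hc with hc | hc | hc
  · rw [Bool.and_eq_true, Bool.and_eq_true, Bool.or_eq_true, Bool.or_eq_true, isF_iff,
      isf_iff, ty_F, ty_f] at hc
    obtain ⟨⟨hc1, hc2⟩, hc3⟩ := hc
    obtain ⟨p, q, s, hp⟩ := mem_sd hvb hc2
    have hw : Sd G v a (apx G v a) a ∧ One G B (apx G v a) := by
      rcases hc3 with hc3 | hc3
      · exact ⟨(isV_sd hva hc3).1, (isV_sd hva hc3).2.1⟩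
      · exact ⟨(isQ_sd h hva hc3).1, (isQ_sd h hva hc3).2.1⟩
    rcases hc1 with hc1 | hc1
    · have hn := hsh (by have := hc1.2.1; omega)
      exact k2 hL hp (FF.inn hc1) (One.inn hw.2) s.te hw.1.vp (s.far2 h hw.1 hab hn)
    · have hn := hsh (by have := hc1.1.2.1; omega)
      exact k2 hL hp (F12.inn hc1.1) (One.inn hw.2) s.te hw.1.vp (s.far2 h hw.1 hab hn)
  · rw [Bool.and_eq_true, isF_iff, ty_F] at hc
    obtain ⟨hv, hc⟩ := hc
    have hn := hsh (by have := hv.2.1; omega)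
    rw [Bool.or_eq_true, Bool.or_eq_true, Bool.or_eq_true] at hc
    rcases hc with ((hc | hc) | hc) | hc
    · rw [Bool.and_eq_true] at hc
      obtain ⟨p, q, s, hp⟩ := mem_sd hvb hc.1
      obtain ⟨s', hw⟩ := isC_sd h hva hc.2
      exact hL.m5 p v _ hp hv hw s.te.symm s'.te (s.far2 h s' hab hn).2
    · rw [Bool.and_eq_true, Bool.or_eq_true] at hc
      obtain ⟨p, q, s, hp⟩ := xt_sd h hvb hc.1
      have hw : Sd G v a (apx G v a) a ∧ One G B (apx G v a) := by
        rcases hc.2 with hc3 | hc3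
        · exact ⟨(isV_sd hva hc3).1, (isV_sd hva hc3).2.1⟩
        · exact ⟨(isQ_sd h hva hc3).1, (isQ_sd h hva hc3).2.1⟩
      exact k3 h hL hp (FF.inn hv) (One.inn hw.2) s.te hw.1.vp (s.far2 h hw.1 hab hn)
    · rw [Bool.and_eq_true, Bool.and_eq_true] at hc
      obtain ⟨p, q, s, hp, hq⟩ := xps_sd h hvb hc.1.1 hc.1.2
      obtain ⟨s', hw⟩ := isC_sd h hva hc.2
      exact hL.q16 p v _ hp hv hw s.te.symm s'.te (s.far2 h s' hab hn).2
        (by rw [s.apx h]; exact hq)
    · rw [Bool.and_eq_true, Bool.and_eq_true, Bool.or_eq_true, Bool.or_eq_true] at hc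
      obtain ⟨p, q, s, hp, hq⟩ := aps_sd h hvb hc.1.1 hc.1.2
      have hw : Sd G v a (apx G v a) a ∧ (One G B (apx G v a) ∨ P1c G B (apx G v a)) := by
        rcases hc.2 with (hc3 | hc3) | hc3
        · exact ⟨(isV_sd hva hc3).1, Or.inl (isV_sd hva hc3).2.1⟩
        · exact ⟨(isQ_sd h hva hc3).1, Or.inl (isQ_sd h hva hc3).2.1⟩
        · exact ⟨(isC_sd h hva hc3).1, Or.inr (isC_sd h hva hc3).2⟩
      have hfar := s.far2 h hw.1 hab hn
      exact hL.a18f p v _ hp hv s.te.symm (by rw [s.apx h]; exact hq) hw.1.te hfar.1.symm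
        hfar.2 hw.2
  · rw [Bool.and_eq_true, Bool.and_eq_true, isN_iff, ty_N] at hc
    obtain ⟨p, q, s, hp, hq⟩ := aps_sd h hvb hc.1.2 hc.2
    exact hL.a18n p v hp hc.1.1 s.te.symm (by rw [s.apx h]; exact hq)

/-- the part of `r1v` for `F`, `f` and degree 3 -/
theorem l_r1v_a (h : MinCE G B) (hF : Faces G F) (hL : LF G B F) {v a b : V} (hi : Nt F i)
    (hab : a ≠ b) (h1 : s(v, a) ∈ F i) (h2 : s(v, b) ∈ F i) :
    (!(((ty G B v).isF || (ty G B v).isf) && mem (ed G B v b) (ty G B b) && (ty G B a).t3) &&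
      !((ty G B v).isF && ((mem (ed G B v b) (ty G B b) && (ty G B a).isp) ||
        (xt (ed G B v b) (ty G B b) && (ty G B a).t3) ||
        (xt (ed G B v b) (ty G B b) && xps (ed G B v b) (ty G B b) && (ty G B a).isp) ||
        (att (ed G B v b) (ty G B b) && aps (ed G B v b) (ty G B b) &&
          ((ty G B a).isp || (ty G B a).one)))) &&
      !((ty G B a).t3 && (ty G B v).t3 && (ty G B b).t3)) = true := by
  have hva := adj_of hF h1
  have hvb := adj_of hF h2
  have t3 : ∀ {x : V}, (∃ u, G.Adj x u) → (ty G B x).t3 = true → Inn G B 3 x := by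
    intro x hx hx3
    obtain ⟨q1, q2⟩ := (t3_iff h hx).1 hx3
    exact ⟨q1, q2.le⟩
  by_contra hcon
  rw [Bool.and_eq_true, Bool.and_eq_true, Bool.not_eq_true', Bool.not_eq_true',
    Bool.not_eq_true'] at hcon
  have hc : ((((ty G B v).isF || (ty G B v).isf) && mem (ed G B v b) (ty G B b) &&
        (ty G B a).t3) = true) ∨
      (((ty G B v).isF && ((mem (ed G B v b) (ty G B b) && (ty G B a).isp) ||
        (xt (ed G B v b) (ty G B b) && (ty G B a).t3) ||
        (xt (ed G B v b) (ty G B b) && xps (ed G B v b) (ty G B b) && (ty G B a).isp) ||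
        (att (ed G B v b) (ty G B b) && aps (ed G B v b) (ty G B b) &&
          ((ty G B a).isp || (ty G B a).one)))) = true) ∨
      (((ty G B a).t3 && (ty G B v).t3 && (ty G B b).t3) = true) := by
    by_contra hc
    push Not at hc
    exact hcon ⟨⟨Bool.eq_false_iff.2 hc.1, Bool.eq_false_iff.2 hc.2.1⟩,
      Bool.eq_false_iff.2 hc.2.2⟩
  have hsh : 3 ≤ dg G v → ¬ G.Adj a b := fun hd => nt_short h hF hi hd hab h1 h2
  rcases hc with hc | hc | hc
  · rw [Bool.and_eq_true, Bool.and_eq_true, Bool.or_eq_true, isF_iff, isf_iff, ty_F, ty_f] at hc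
    obtain ⟨⟨hc1, hc2⟩, hc3⟩ := hc
    obtain ⟨p, q, s, hp⟩ := mem_sd hvb hc2
    have ha := t3 ⟨v, hva.symm⟩ hc3
    rcases hc1 with hc1 | hc1
    · have hn := hsh (by have := hc1.2.1; omega)
      exact k2 hL hp (FF.inn hc1) ha s.te hva (s.far1 h hab hn hva)
    · have hn := hsh (by have := hc1.1.2.1; omega)
      exact k2 hL hp (F12.inn hc1.1) ha s.te hva (s.far1 h hab hn hva)
  · rw [Bool.and_eq_true, isF_iff, ty_F] at hc
    obtain ⟨hv, hc⟩ := hc
    have hn := hsh (by have := hv.2.1; omega)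
    have hta : TE G v a := FF.te h hv hva
    rw [Bool.or_eq_true, Bool.or_eq_true, Bool.or_eq_true] at hc
    rcases hc with ((hc | hc) | hc) | hc
    · rw [Bool.and_eq_true, isp_iff, ty_p h] at hc
      obtain ⟨p, q, s, hp⟩ := mem_sd hvb hc.1
      exact hL.m5 p v a hp hv hc.2 s.te.symm hta (s.far1 h hab hn hva).2
    · rw [Bool.and_eq_true] at hc
      obtain ⟨p, q, s, hp⟩ := xt_sd h hvb hc.1
      exact k3 h hL hp (FF.inn hv) (t3 ⟨v, hva.symm⟩ hc.2) s.te hva (s.far1 h hab hn hva)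
    · rw [Bool.and_eq_true, Bool.and_eq_true, isp_iff, ty_p h] at hc
      obtain ⟨p, q, s, hp, hq⟩ := xps_sd h hvb hc.1.1 hc.1.2
      exact hL.q16 p v a hp hv hc.2 s.te.symm hta (s.far1 h hab hn hva).2
        (by rw [s.apx h]; exact hq)
    · rw [Bool.and_eq_true, Bool.and_eq_true, Bool.or_eq_true, isp_iff, ty_p h] at hc
      obtain ⟨p, q, s, hp, hq⟩ := aps_sd h hvb hc.1.1 hc.1.2
      have hfar := s.far1 h hab hn hva
      refine hL.a18f p v a hp hv s.te.symm (by rw [s.apx h]; exact hq) hta hfar.1.symm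
        hfar.2 ?_
      rcases hc.2 with h3 | h3
      · exact Or.inr h3
      · exact Or.inl (ty_one h h3)
  · rw [Bool.and_eq_true, Bool.and_eq_true] at hc
    obtain ⟨⟨ha, hv⟩, hb⟩ := hc
    obtain ⟨q1, q2⟩ := (t3_iff h ⟨a, hva⟩).1 hv
    have hn := hsh (by omega)
    exact hL.l1 a v b (t3 ⟨v, hva.symm⟩ ha) ⟨q1, q2.le⟩ (t3 ⟨v, hvb.symm⟩ hb) hva.symm hvb
      hab hn

end Pool.Agent.Lib.SVY
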