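import Pool.Agent.Lib.SVY.ValA
import Pool.Agent.Lib.SVY.ValB

/-!
# SVY.ValC: exceptional vertices with two triangles; second neighbours

`l_r1v_g`: see the plan of SVY/ValB.lean.  `l_r2f`: `LF.s5`, `s7`, `s8`, `s9`, `s9p`, `s10`,
`s12` with `x = b`, `y = v`, `A = a`, `u = a'` (`VE`); `l_sbf`: `LF.sb` with `o = b`, `x = v`,
`y = a`, `u = a'`.
-/

set_option autoImplicit false
set_option linter.unusedSectionVars false

namespace Pool.Agent.Lib.SVY

open Finset Pool.Agent.Lib.SVT Pool.Agent.Lib.SVX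

variable {V : Type*} [Fintype V] [DecidableEq V] {G : SimpleGraph V} {B : Finset V}
variable {m : ℕ} {F : Fin m → Finset (Sym2 V)} {i : Fin m}

namespace ValCAux

open ValBAux

lemma ctp1 {y : Ty} {x : Ed} (hx : x ≠ .W) (h : ctp y x = 1) :
    (x = .V ∧ y.np = true) ∨ (y = .a ∧ x = .T) := by
  revert h hx
  cases y <;> cases x <;> simp [ctp, Ty.np, Ty.ex]

lemma ctp2 {y : Ty} {x : Ed} (hx : x ≠ .W) (h : ctp y x = 2) :
    (x = .V ∧ y.sm = true) ∨ (y = .a ∧ x.sl = true) := by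
  revert h hx
  cases y <;> cases x <;> simp [ctp, Ty.np, Ty.ex, Ty.sm, Ed.sl]

lemma ctp3 {y : Ty} {x : Ed} (hx : x ≠ .W) (h : ctp y x = 3) :
    (x = .V ∧ y.ex = true) ∨ (y = .a ∧ x = .Z) := by
  revert h hx
  cases y <;> cases x <;> simp [ctp, Ty.np, Ty.ex]

lemma ctp4 {y : Ty} {x : Ed} (hx : x ≠ .W) (h : ctp y x = 4) :
    ((x = .Q ∨ x = .C) ∧ y.sm = true) ∨ ((y = .b ∨ y = .p) ∧ x.sl = true) := by
  revert h hx
  cases y <;> cases x <;> simp [ctp, Ty.np, Ty.ex, Ty.sm, Ed.sl]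

lemma okG_false {s t : ℕ} (h : okG s t = false) :
    (s = 2 ∧ (t = 1 ∨ t = 2 ∨ t = 3 ∨ t = 4)) ∨ (s = 3 ∧ (t = 3 ∨ t = 4)) := by
  unfold okG at h
  split at h
  · split at h <;> simp_all
  · split at h <;> simp_all
  · simp at h

lemma ne_W {v b : V} (hb : TE G v b) : ed G B v b ≠ .W := fun h => hb.not_we (ed_W.1 h)

lemma sd_p {v b : V} (hb : TE G v b) (s : ctp (ty G B b) (ed G B v b) = 1 ∨
    ctp (ty G B b) (ed G B v b) = 2 ∨ ctp (ty G B b) (ed G B v b) = 3) :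
    ∃ p q, Sd G v b p q ∧ OneP G B p := by
  have hW := ne_W (B := B) hb
  have h1 : ed G B v b = .V ∨ ty G B b = .a := by
    rcases s with s | s | s
    · rcases ctp1 hW s with h | h
      · exact Or.inl h.1
      · exact Or.inr h.1
    · rcases ctp2 hW s with h | h
      · exact Or.inl h.1
      · exact Or.inr h.1
    · rcases ctp3 hW s with h | h
      · exact Or.inl h.1
      · exact Or.inr h.1
  rcases h1 with h1 | h1
  · exact ⟨_, _, sd2 hb, (ed_V hb).1 h1⟩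
  · exact ⟨_, _, sd1 hb, ty_a.1 h1⟩

lemma sd_2 {v b : V} (hb : TE G v b) (s : ctp (ty G B b) (ed G B v b) = 2) :
    ∃ p q, Sd G v b p q ∧ OneP G B p ∧ Sm G B q := by
  rcases ctp2 (ne_W hb) s with ⟨h1, h2⟩ | ⟨h1, h2⟩
  · exact ⟨_, _, sd2 hb, (ed_V hb).1 h1, sm_iff.1 h2⟩
  · exact ⟨_, _, sd1 hb, ty_a.1 h1, (ed_sm hb).2 (sl_iff.1 h2)⟩

lemma sd_3 (hL : LF G B F) {v b : V} (hb : TE G v b)
    (s : ctp (ty G B b) (ed G B v b) = 3) :
    ∃ p q, Sd G v b p q ∧ OneP G B p ∧ Ex2 G B q := by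
  have key : ∃ p q, Sd G v b p q ∧ OneP G B p ∧ Exc G B q := by
    rcases ctp3 (ne_W hb) s with ⟨h1, h2⟩ | ⟨h1, h2⟩
    · exact ⟨_, _, sd2 hb, (ed_V hb).1 h1, ex_iff.1 h2⟩
    · exact ⟨_, _, sd1 hb, ty_a.1 h1, (ed_Z hb).1 h2⟩
  obtain ⟨p, q, h1, h2, h3⟩ := key
  refine ⟨p, q, h1, h2, ?_⟩
  rcases h3 with h3 | h3
  · exact h3
  · exact absurd (hL.pk p q h2 h3 ⟨h1.pq, v, h1.vp.symm, h1.vq.symm⟩) (fun h => h)

lemma sd_4 (h : MinCE G B) {v b : V} (hb : TE G v b)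
    (s : ctp (ty G B b) (ed G B v b) = 4) :
    ∃ p q, Sd G v b p q ∧ (OneQ G B p ∨ P1c G B p) ∧ Sm G B q := by
  rcases ctp4 (ne_W hb) s with ⟨h1, h2⟩ | ⟨h1, h2⟩
  · refine ⟨_, _, sd2 hb, ?_, sm_iff.1 h2⟩
    rcases h1 with h1 | h1
    · exact Or.inl ((ed_Q h hb).1 h1)
    · exact Or.inr ((ed_C h hb).1 h1)
  · refine ⟨_, _, sd1 hb, ?_, (ed_sm hb).2 (sl_iff.1 h2)⟩
    rcases h1 with h1 | h1
    · exact Or.inl ((ty_b h).1 h1)
    · exact Or.inr ((ty_p h).1 h1)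

lemma Sd.apx' {v b p q : V} (h : MinCE G B) (s : Sd G v b p q) : apx G v p = q :=
  apx_eq h s.vp s.vq s.pq

end ValCAux

open ValBAux ValCAux

theorem l_r1v_g (h : MinCE G B) (hF : Faces G F) (hL : LF G B F) {v a b : V} (hi : Nt F i)
    (hab : a ≠ b) (h1 : s(v, a) ∈ F i) (h2 : s(v, b) ∈ F i) (hv : Ex2 G B v) (ha : TE G v a)
    (hb : TE G v b) :
    okG (ctp (ty G B b) (ed G B v b)) (ctp (ty G B a) (ed G B v a)) = true := by
  have hn : ¬ G.Adj a b := nt_short h hF hi (by have := hv.2.1; omega) hab h1 h2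
  by_contra hc
  rw [Bool.not_eq_true] at hc
  rcases okG_false hc with ⟨s, t⟩ | ⟨s, t⟩
  · obtain ⟨p, q, s1, s2, s3⟩ := sd_2 hb s
    have hq : Sm G B (apx G v p) := by rw [ValCAux.Sd.apx' h s1]; exact s3
    by_cases t4 : ctp (ty G B a) (ed G B v a) = 4
    · obtain ⟨x, y, s', t2, t3⟩ := sd_4 h ha t4
      have hf := s1.far2 h s' hab hn
      rcases t2 with t2 | t2
      · exact hL.e22 v p x hv s1.te s'.te hf.1 hf.2 s2 hq t2
      · exact hL.e23 v p x hv s1.te s'.te hf.1 hf.2 s2 hq t2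
          (Or.inl (by rw [ValCAux.Sd.apx' h s']; exact t3))
    · have t' : ctp (ty G B a) (ed G B v a) = 1 ∨ ctp (ty G B a) (ed G B v a) = 2 ∨
          ctp (ty G B a) (ed G B v a) = 3 := by tauto
      obtain ⟨x, y, s', t2⟩ := sd_p ha t'
      have hf := s1.far2 h s' hab hn
      exact hL.e20 v p x hv s1.te s'.te hf.1 hf.2 s2 hq t2
  · obtain ⟨p, q, s1, s2, s3⟩ := sd_3 hL hb s
    have hq : Ex2 G B (apx G v p) := by rw [ValCAux.Sd.apx' h s1]; exact s3
    rcases t with t | t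
    · obtain ⟨x, y, s', t2, t3⟩ := sd_3 hL ha t
      have hf := s1.far2 h s' hab hn
      exact hL.e21 v p x hv s1.te s'.te hf.1 hf.2 s2 hq t2
        (by rw [ValCAux.Sd.apx' h s']; exact t3)
    · obtain ⟨x, y, s', t2, t3⟩ := sd_4 h ha t
      have hf := s1.far2 h s' hab hn
      exact hL.e26 v p x hv s1.te s'.te hf.1 hf.2 s2 hq t2
        (by rw [ValCAux.Sd.apx' h s']; exact t3)

theorem l_r2f (h : MinCE G B) (hF : Faces G F) (hL : LF G B F) {v a b a' : V} (hi : Nt F i)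
    (hab : a ≠ b) (haa : a' ≠ v) (h1 : s(v, a) ∈ F i) (h2 : s(v, b) ∈ F i)
    (h3 : s(a, a') ∈ F i) :
    r2f (ty G B v) (ed G B v a) (ty G B a) (ed G B a a') (ty G B a') (ed G B v b)
      (ty G B b) = true := by
  have hva := adj_of hF h1
  have hvb := adj_of hF h2
  have haa' := adj_of hF h3
  unfold r2f
  rw [Bool.or_eq_true, Bool.not_eq_true']
  by_cases hc : (((ed G B v b).isV && (ty G B v).isF) && (ty G B b).isF) = true
  swap
  · left
    exact Bool.eq_false_iff.2 hc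
  right
  rw [Bool.and_eq_true, Bool.and_eq_true, isV_iff, isF_iff, isF_iff, ty_F, ty_F] at hc
  obtain ⟨⟨c1, c2⟩, c3⟩ := hc
  have hte : TE G v b := te_of hvb (by rw [c1]; decide)
  have hvE : VE G B F i b v a :=
    ⟨hi, by rw [Sym2.eq_swap]; exact h2, h1, hab, c3, c2, by
      rw [← apx_symm h hte]
      exact (ed_V hte).1 c1⟩
  have htva : TE G v a := FF.te h c2 hva
  unfold r2
  split
  · rename_i hF'
    have fa : FF G B a := ty_F.1 hF'
    have taa : TE G a a' := FF.te h fa haa'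
    rw [Bool.not_eq_true', ← Bool.not_eq_true]
    intro hc
    rw [Bool.or_eq_true, Bool.or_eq_true, Bool.or_eq_true, isV_iff,
      isC_iff, isp_iff] at hc
    rcases hc with ((hc | hc) | hc) | hc
    · exact hL.s5 i b v a a' hvE fa h3 haa ((ed_V taa).1 hc)
    · exact hL.s9 i b v a a' hvE fa h3 haa (Or.inr ((ed_C h taa).1 hc))
    · exact hL.s8 i b v a a' hvE fa h3 haa (ty_one h hc)
    · exact hL.s9 i b v a a' hvE fa h3 haa (Or.inl ((ty_p h).1 hc))
  · rename_i hN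
    have na : Npay G B a := ty_N.1 hN
    by_cases ho : ed G B a a' = .W
    · have h6 : Np G B (apx G v a) := by
        by_contra h7
        exact hL.s10 i b v a a' hvE na h3 haa h7
      have h7 : ed G B v a = .T := (ed_T htva).2 h6
      rw [h7]
      simp [Ed.isT]
    · have h5 : (ed G B a a').isW = false := by
        rw [← Bool.not_eq_true, isW_iff]
        exact ho
      rw [h5]
      simp
  · rename_i hp
    exact absurd (hL.s9p i b v a hvE ((ty_p h).1 hp)) (fun h => h)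
  · rename_i hK
    exact absurd (hL.s12 i b v a hvE (ty_K.1 hK)) (fun h => h)
  · rfl

theorem l_sbf (h : MinCE G B) (hF : Faces G F) (hL : LF G B F) {v a b a' : V} (hi : Nt F i)
    (hab : a ≠ b) (haa : a' ≠ v) (h1 : s(v, a) ∈ F i) (h2 : s(v, b) ∈ F i)
    (h3 : s(a, a') ∈ F i) :
    sbf (ty G B v) (ty G B a) (ed G B a a') (ed G B v b) (ty G B b) = true := by
  have hvb := adj_of hF h2
  have haa' := adj_of hF h3
  unfold sbf
  rw [Bool.not_eq_true', ← Bool.not_eq_true]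
  intro hc
  rw [Bool.and_eq_true, Bool.and_eq_true, Bool.and_eq_true, Bool.and_eq_true, Bool.not_eq_true',
    ← Bool.not_eq_true, isW_iff, isF_iff, isF_iff, isa_iff, isV_iff, ty_F, ty_F, ty_a] at hc
  obtain ⟨⟨⟨⟨c1, c2⟩, c3⟩, c4⟩, c5⟩ := hc
  have hte : TE G v b := te_of hvb c2
  have taa : TE G a a' := FF.te h c4 haa'
  exact hL.sb i b v a a' hi c3 c1 c4 (by rw [Sym2.eq_swap]; exact h2) h1 h3 hab.symm haa.symm
    hte.symm taa ((ed_V taa).1 c5)

end Pool.Agent.Lib.SVY
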