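import Pool.Agent.Lib.SVY.ValA
import Pool.Agent.Lib.SVY.ValB

/-!
# SVY.ValH: exceptional vertices, a `One` vertex with small partner

Plan.  `os y b`: the triangle on `v b` contains a `One` vertex with a small third vertex; `os x a`: so
does the triangle on `v a`: `LF.lss`; `att x a && aps x a`: it contains a `P1c`
vertex with small third vertex: `LF.lgc`.  The triangles are different by `nt_short`.
-/

set_option autoImplicit false
set_option linter.unusedSectionVars false

namespace Pool.Agent.Lib.SVY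

open Finset Pool.Agent.Lib.SVT Pool.Agent.Lib.SVX

variable {V : Type*} [Fintype V] [DecidableEq V] {G : SimpleGraph V} {B : Finset V}
variable {m : ℕ} {F : Fin m → Finset (Sym2 V)} {i : Fin m}

open ValBAux in
theorem l_r1v_h (h : MinCE G B) (hF : Faces G F) (hL : LF G B F) {v a b : V} (hi : Nt F i)
    (hab : a ≠ b) (h1 : s(v, a) ∈ F i) (h2 : s(v, b) ∈ F i) (hv : Ex2 G B v) (ha : TE G v a)
    (hb : TE G v b) :
    (os (ed G B v b) (ty G B b) && (os (ed G B v a) (ty G B a) ||
      (att (ed G B v a) (ty G B a) && aps (ed G B v a) (ty G B a)))) = false := by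
  have hn : ¬ G.Adj a b := nt_short h hF hi (by have := hv.2.1; omega) hab h1 h2
  rw [← Bool.not_eq_true]
  intro hc
  rw [Bool.and_eq_true, Bool.or_eq_true, Bool.and_eq_true] at hc
  obtain ⟨ho, hx⟩ := hc
  -- the `One` vertex `p` with small partner `q`
  have key : ∀ {b : V}, TE G v b → os (ed G B v b) (ty G B b) = true →
      ∃ p q, Sd G v b p q ∧ One G B p ∧ Sm G B q := by
    intro b hb ho
    unfold os at ho
    rw [Bool.or_eq_true, Bool.and_eq_true, Bool.and_eq_true, Bool.or_eq_true, isV_iff,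
      isQ_iff] at ho
    rcases ho with ⟨h3, h4⟩ | ⟨h3, h4⟩
    · exact ⟨_, _, sd1 hb, ty_one h h3, (ed_sm hb).2 (sl_iff.1 h4)⟩
    · refine ⟨_, _, sd2 hb, ?_, sm_iff.1 h4⟩
      rcases h3 with h3 | h3
      · exact ((ed_V hb).1 h3).1
      · exact ((ed_Q h hb).1 h3).1
  obtain ⟨p, q, s1, s2, s3⟩ := key hb ho
  have hq : apx G v p = q := apx_eq h s1.vp s1.vq s1.pq
  rcases hx with hx | ⟨hx1, hx2⟩
  · obtain ⟨x, y, s', t2, t3⟩ := key ha hx
    have hf := s1.far2 h s' hab hn
    exact hL.lss v p x hv s1.te s'.te hf.1 hf.2 s2 (by rw [hq]; exact s3) t2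
      (by rw [apx_eq h s'.vp s'.vq s'.pq]; exact t3)
  · obtain ⟨x, y, s', t2, t3⟩ := aps_sd h ha.1 hx1 hx2
    have hf := s1.far2 h s' hab hn
    exact hL.lgc v p x hv s1.te s'.te hf.1 hf.2 s2 (by rw [hq]; exact s3) t2
      (by rw [apx_eq h s'.vp s'.vq s'.pq]; exact t3)

end Pool.Agent.Lib.SVY
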