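import Pool.Agent.Lib.SVY.ValB
import Pool.Agent.Lib.SVY.ValC
import Pool.Agent.Lib.SVY.ValH
import Pool.Agent.Lib.SVY.Wd

/-!
# SVY.ValD: the word of a ring is valid

Plan.  The lemmas of SVY/ValA, ValB, ValC at `v = c j`, `a = c (j-1)`, `b = c (j+1)` and with
`a`, `b` exchanged; `ed_symm`; `Ring.mem`, `Ring.mem'`, `Ring.ne`.
-/

set_option autoImplicit false
set_option linter.unusedSectionVars false

namespace Pool.Agent.Lib.SVY

open Finset Pool.Agent.Lib.SVT Pool.Agent.Lib.SVX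

variable {V : Type*} [Fintype V] [DecidableEq V] {G : SimpleGraph V} {B : Finset V}
variable {m : ℕ} {F : Fin m → Finset (Sym2 V)} {i : Fin m}

variable {n : ℕ} [NeZero n] {c : ZMod n → V}

namespace ValDAux

open ValBAux

lemma isG_iff {x : Ty} : x.isG = true ↔ x = .G := by cases x <;> decide

theorem r1v_full (h : MinCE G B) (hF : Faces G F) (hL : LF G B F) {v a b : V} (hi : Nt F i)
    (hab : a ≠ b) (h1 : s(v, a) ∈ F i) (h2 : s(v, b) ∈ F i) :
    r1v (ty G B a) (ed G B v a) (ty G B v) (ed G B v b) (ty G B b) = true := by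
  have hA := l_r1v_a h hF hL hi hab h1 h2
  rw [Bool.and_eq_true, Bool.and_eq_true] at hA
  unfold r1v
  rw [Bool.and_eq_true, Bool.and_eq_true, Bool.and_eq_true]
  refine ⟨⟨⟨hA.1.1, hA.1.2⟩, ?_⟩, hA.2⟩
  rw [Bool.not_eq_true', ← Bool.not_eq_true]
  intro hc
  rw [Bool.and_eq_true, Bool.and_eq_true, Bool.and_eq_true, isG_iff, ty_G, Bool.not_eq_true',
    Bool.not_eq_true', Bool.not_eq_true'] at hc
  obtain ⟨⟨⟨c1, c2⟩, c3⟩, c4⟩ := hc
  have ha : TE G v a := te_of (adj_of hF h1) (fun h5 => by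
    rw [h5] at c2
    exact absurd c2 (by decide))
  have hb : TE G v b := te_of (adj_of hF h2) (fun h5 => by
    rw [h5] at c3
    exact absurd c3 (by decide))
  have h5 := l_r1v_g h hF hL hi hab h1 h2 c1 ha hb
  have h6 := l_r1v_h h hF hL hi hab h1 h2 c1 ha hb
  unfold okG2 cty at c4
  rw [c2, c3, h6] at c4
  simp only [Bool.false_eq_true, if_false] at c4
  rw [h5] at c4
  exact absurd c4 (by decide)

end ValDAux

open ValBAux ValDAux

theorem ring_valid (h : MinCE G B) (hF : Faces G F) (hL : LF G B F) (hn : 6 ≤ n)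
    (hR : Ring G F i n c) : Valid (wk G B c) (we G B c) := by
  have hi : Nt F i := Ring.nt hR (by omega)
  have e1 : ∀ j : ZMod n, we G B c (j - 1) = ed G B (c j) (c (j - 1)) := by
    intro j
    unfold we
    rw [sub_add_cancel]
    exact ed_symm h (Ring.adj' hR j).symm
  have e2 : ∀ j : ZMod n, we G B c (j - 2) = ed G B (c (j - 1)) (c (j - 2)) := by
    intro j
    have h1 := e1 (j - 1)
    have h2 : j - 1 - 1 = j - 2 := by ring
    rw [h2] at h1
    exact h1
  have e3 : ∀ j : ZMod n, we G B c (j + 1) = ed G B (c (j + 1)) (c (j + 2)) := by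
    intro j
    unfold we
    have h2 : j + 1 + 1 = j + 2 := by ring
    rw [h2]
  have m2 : ∀ j : ZMod n, s(c (j - 1), c (j - 2)) ∈ F i := by
    intro j
    have h1 := Ring.mem' hR (j - 1)
    have h2 : j - 1 - 1 = j - 2 := by ring
    rw [h2] at h1
    exact h1
  have m3 : ∀ j : ZMod n, s(c (j + 1), c (j + 2)) ∈ F i := by
    intro j
    have h1 := Ring.mem hR (j + 1)
    have h2 : j + 1 + 1 = j + 2 := by ring
    rw [h2] at h1
    exact h1
  have n2 : ∀ j : ZMod n, c (j - 2) ≠ c j := by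
    intro j
    have h1 := Ring.ne hn hR (j - 1)
    have h2 : j - 1 - 1 = j - 2 := by ring
    rw [h2, sub_add_cancel] at h1
    exact h1
  have n3 : ∀ j : ZMod n, c (j + 2) ≠ c j := by
    intro j
    have h1 := Ring.ne hn hR (j + 1)
    have h2 : j + 1 + 1 = j + 2 := by ring
    rw [h2, add_sub_cancel_right] at h1
    exact h1.symm
  refine ⟨?_, ?_, ?_, ?_, ?_, ?_, ?_, ?_, ?_, ?_⟩
  · intro j
    rw [e1 j]
    exact l_okC h hF hi (Ring.ne hn hR j) (Ring.mem' hR j) (Ring.mem hR j)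
  · intro j
    exact l_okE h hF hL (Ring.adj hR j)
  · intro j
    rw [e1 j]
    exact l_r1e h hF hL hi (Ring.ne hn hR j) (Ring.mem' hR j) (Ring.mem hR j)
  · intro j
    rw [e1 j]
    exact l_r1e h hF hL hi (Ring.ne hn hR j).symm (Ring.mem hR j) (Ring.mem' hR j)
  · intro j
    rw [e1 j]
    exact r1v_full h hF hL hi (Ring.ne hn hR j) (Ring.mem' hR j) (Ring.mem hR j)
  · intro j
    rw [e1 j]
    exact r1v_full h hF hL hi (Ring.ne hn hR j).symm (Ring.mem hR j) (Ring.mem' hR j)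
  · intro j
    rw [e1 j, e2 j]
    exact l_r2f h hF hL hi (Ring.ne hn hR j) (n2 j) (Ring.mem' hR j) (Ring.mem hR j) (m2 j)
  · intro j
    rw [e1 j, e3 j]
    exact l_r2f h hF hL hi (Ring.ne hn hR j).symm (n3 j) (Ring.mem hR j) (Ring.mem' hR j) (m3 j)
  · intro j
    rw [e2 j]
    exact l_sbf h hF hL hi (Ring.ne hn hR j) (n2 j) (Ring.mem' hR j) (Ring.mem hR j) (m2 j)
  · intro j
    rw [e1 j, e3 j]
    exact l_sbf h hF hL hi (Ring.ne hn hR j).symm (n3 j) (Ring.mem hR j) (Ring.mem' hR j) (m3 j)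

end Pool.Agent.Lib.SVY
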