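import Pool.Agent.Lib.SVY.WordX
import Pool.Agent.Lib.SVY.ValD
import Pool.Agent.Lib.SVY.DemA
import Pool.Agent.Lib.SVY.SupB
import Pool.Agent.Lib.SVY.Bal

/-!
# SVY.FaceB: the balance of the faces

Plan.  Faces of size 3: `Af ≥ 0` (`af_nonneg`), `Bf = 0` (`NV`, `N1` need `Nt`, `NW`: a weak edge is on
no triangle face, `we_nt`).  Other faces: `6 ≤ (F i).card = n` (`face_size`), ring `c` (`exists_ring`,
`NeZero`).  `n ≥ 7`: `bf_le`, `dem_le`, `ring_valid`, `af_nonneg`: `dem ≤ 2n/3 ≤ 4 (n - 6)`.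
`n = 6`: if negative then `sup < dem` (`af_ge`, `bf_le`), `word6` gives `code1` at some `j`; rotate or
reflect the ring (`Ring.rot`, `Ring.refl`) and apply `hC`.
`fb_seven`: all vertices of the face are in `B`: no demand; `4 qf = 4`.
-/

set_option autoImplicit false
set_option linter.unusedSectionVars false

namespace Pool.Agent.Lib.SVY

open Finset Pool.Agent.Lib.SVT Pool.Agent.Lib.SVX

variable {V : Type*} [Fintype V] [DecidableEq V] {G : SimpleGraph V} {B : Finset V}
variable {m : ℕ} {F : Fin m → Finset (Sym2 V)} {i : Fin m}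

/-- the codes are impossible -/
def NoCode (G : SimpleGraph V) (B : Finset V) (F : Fin m → Finset (Sym2 V)) : Prop :=
  ∀ (i : Fin m) (c : ZMod 6 → V), Ring G F i 6 c →
    code1 (ty G B (c 0)) (ed G B (c 0) (c 1)) (ty G B (c 1)) (ed G B (c 1) (c 2))
      (ty G B (c 2)) (ed G B (c 2) (c 3)) (ty G B (c 3)) (ed G B (c 3) (c 4))
      (ty G B (c 4)) (ed G B (c 4) (c 5)) (ty G B (c 5)) (ed G B (c 5) (c 0)) = false

namespace FaceBAux

theorem bf_zero (h1 : ∀ v, ¬ NV G B F i v) (h2 : ∀ v, ¬ NW G B F i v)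
    (h3 : ∀ v, ¬ N1 G B F i v) : ∑ v, Bf G B F i v = 0 := by
  refine Finset.sum_eq_zero fun v _ => ?_
  unfold Bf
  rw [if_neg (h1 v), if_neg (h2 v), if_neg (h3 v)]
  norm_num

theorem af_sum (h : MinCE G B) (hF : Faces G F) (hL : LF G B F) (i : Fin m) :
    0 ≤ ∑ q, Af G B F q i :=
  Finset.sum_nonneg fun q _ => af_nonneg h hF hL q i

theorem rot6 (hC : NoCode G B F) {c : ZMod 6 → V} (hR : Ring G F i 6 c) (j : ZMod 6) :
    code1 (wk G B c j) (we G B c j) (wk G B c (j + 1)) (we G B c (j + 1)) (wk G B c (j + 2))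
      (we G B c (j + 2)) (wk G B c (j + 3)) (we G B c (j + 3)) (wk G B c (j + 4))
      (we G B c (j + 4)) (wk G B c (j + 5)) (we G B c (j + 5)) = false := by
  have h1 := hC i _ (Ring.rot hR j)
  have e1 : j + 1 + 1 = j + 2 := by ring
  have e2 : j + 2 + 1 = j + 3 := by ring
  have e3 : j + 3 + 1 = j + 4 := by ring
  have e4 : j + 4 + 1 = j + 5 := by ring
  have e5 : j + 5 + 1 = j := by
    clear * -
    decide +revert
  simp only [add_zero] at h1
  unfold wk we
  rw [e1, e2, e3, e4, e5]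
  exact h1

theorem refl6 (h : MinCE G B) (hC : NoCode G B F) {c : ZMod 6 → V} (hR : Ring G F i 6 c)
    (j : ZMod 6) :
    code1 (wk G B c j) (we G B c (j - 1)) (wk G B c (j - 1)) (we G B c (j - 2))
      (wk G B c (j - 2)) (we G B c (j - 3)) (wk G B c (j - 3)) (we G B c (j - 4))
      (wk G B c (j - 4)) (we G B c (j - 5)) (wk G B c (j - 5)) (we G B c (j - 6)) = false := by
  have h1 := hC i _ (Ring.refl hR j)
  have w : ∀ l l' : ZMod 6, l + 1 = l' → we G B c l = ed G B (c l') (c l) := by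
    intro l l' hl
    subst hl
    unfold we
    exact ed_symm h (Ring.adj hR l)
  have e6 : j - 6 = j := by
    clear * -
    decide +revert
  simp only [sub_zero] at h1
  rw [w (j - 1) j (by ring), w (j - 2) (j - 1) (by ring), w (j - 3) (j - 2) (by ring),
    w (j - 4) (j - 3) (by ring), w (j - 5) (j - 4) (by ring), w (j - 6) (j - 5) (by ring), e6]
  unfold wk
  exact h1

theorem big_of_face {i₀ : Fin m} (hB : ∀ v, v ∈ B ↔ ∃ e ∈ F i₀, v ∈ e) {a b : V}
    (hab : s(a, b) ∈ F i₀) : a ∈ B :=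
  (hB a).2 ⟨_, hab, Sym2.mem_mk_left a b⟩

end FaceBAux

open FaceBAux

theorem fb_nonneg (h : MinCE G B) (hF : Faces G F) (hL : LF G B F) (hC : NoCode G B F)
    (i : Fin m) : 0 ≤ fb G B F i := by
  have hA := af_sum h hF hL i
  unfold fb
  rcases face_size h hF i with h3 | h6
  · have hB0 : ∑ v, Bf G B F i v = 0 := by
      refine bf_zero ?_ ?_ ?_
      · rintro v ⟨-, h4, -⟩
        exact h4 h3
      · rintro v ⟨-, z, x, p, h4, -, -, -, h5, -⟩
        exact we_nt h hF h4 h5 h3
      · rintro v ⟨-, h4, -⟩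
        exact h4 h3
    have hq : qf F i = 0 := by
      unfold qf
      rw [if_pos h3]
    rw [hB0, hq]
    linarith
  · have hq : qf F i = ((F i).card : ℤ) - 6 := by
      unfold qf
      rw [if_neg (by omega)]
    rcases Nat.lt_or_ge (F i).card 7 with h7 | h7
    · have hc6 : (F i).card = 6 := by omega
      obtain ⟨c, hR⟩ := exists_ring hF i 6 hc6
      have hv := ring_valid h hF hL (le_refl 6) hR
      have h8 := bf_le h hF (le_refl 6) hR
      have h9 := af_ge h hF hL hR
      by_contra hneg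
      have hlt : sup (wk G B c) (we G B c) < dem (wk G B c) (we G B c) := by
        have h10 : (sup (wk G B c) (we G B c) : ℤ) < (dem (wk G B c) (we G B c) : ℤ) := by
          rw [hq, hc6] at hneg
          push_cast at hneg
          linarith
        exact_mod_cast h10
      obtain ⟨j, h11 | h11⟩ := word6 hv hlt
      · rw [rot6 hC hR j] at h11
        exact Bool.false_ne_true h11
      · rw [refl6 h hC hR j] at h11
        exact Bool.false_ne_true h11
    · have : NeZero (F i).card := ⟨by omega⟩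
      obtain ⟨c, hR⟩ := exists_ring hF i (F i).card rfl
      have hv := ring_valid h hF hL h6 hR
      have h8 := bf_le h hF h6 hR
      have h9 := dem_le h6 hv
      rw [hq]
      have h10 : (3 : ℤ) * (dem (wk G B c) (we G B c) : ℤ) ≤ 2 * ((F i).card : ℤ) := by
        exact_mod_cast h9
      have h12 : (7 : ℤ) ≤ ((F i).card : ℤ) := by exact_mod_cast h7
      have h11 : (dem (wk G B c) (we G B c) : ℤ) ≤ 4 * (((F i).card : ℤ) - 6) := by omega
      linarith

theorem fb_seven (h : MinCE G B) (hF : Faces G F) (hL : LF G B F) {i₀ : Fin m}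
    (h7 : (F i₀).card = 7) (hB : ∀ v, v ∈ B ↔ ∃ e ∈ F i₀, v ∈ e) : 4 ≤ fb G B F i₀ := by
  have hA := af_sum h hF hL i₀
  have hB0 : ∑ v, Bf G B F i₀ v = 0 := by
    refine bf_zero ?_ ?_ ?_
    · rintro v ⟨-, -, x, -, hx, -, h5⟩
      exact hx.1 (Or.inl (Or.inl (big_of_face hB h5)))
    · rintro v ⟨⟨⟨hv, -⟩, -⟩, z, x, p, -, -, -, -, h5, -⟩
      exact hv (big_of_face hB h5)
    · rintro v ⟨⟨⟨hv, -⟩, -⟩, -, u, w, -, h5, -⟩
      exact hv (big_of_face hB h5)
  have hq : qf F i₀ = 1 := by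
    unfold qf
    rw [if_neg (by omega), h7]
    norm_num
  unfold fb
  rw [hB0, hq]
  linarith

end Pool.Agent.Lib.SVY
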