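import Pool.Agent.Lib.SVY.CodesS
import Pool.Agent.Lib.SVY.FaceB

/-!
# SVY.CodeT: translation of `code1`

By contradiction: unfold `code1` (a disjunction of conjunctions of tests on the types);
`isa = true` iff the type is `.a`, etc.; SVY/Spec.lean translates the types into the classes; an
edge which is not `.W` is a triangle edge (`te_or_we`, `ed_W`); every disjunct is a field of `CF`
(`e2.sl` etc.: `ed_sm`; `isZ`: `ed_Z`; `isV`: `ed_V`).  For the disjuncts in which all vertices are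
`FF`: `∀ j : ZMod 6` by cases.
-/

set_option autoImplicit false
set_option linter.unusedSectionVars false

namespace Pool.Agent.Lib.SVY

open Finset Pool.Agent.Lib.SVT Pool.Agent.Lib.SVX

variable {V : Type*} [Fintype V] [DecidableEq V] {G : SimpleGraph V} {B : Finset V}
variable {m : ℕ} {F : Fin m → Finset (Sym2 V)}

namespace CodeTAux

theorem isa_iff {t : Ty} : t.isa = true ↔ t = .a := by cases t <;> simp [Ty.isa]
theorem isb_iff {t : Ty} : t.isb = true ↔ t = .b := by cases t <;> simp [Ty.isb]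
theorem isp_iff {t : Ty} : t.isp = true ↔ t = .p := by cases t <;> simp [Ty.isp]
theorem isF_iff {t : Ty} : t.isF = true ↔ t = .F := by cases t <;> simp [Ty.isF]
theorem isN_iff {t : Ty} : t.isN = true ↔ t = .N := by cases t <;> simp [Ty.isN]
theorem isG_iff {t : Ty} : t.isG = true ↔ t = .G := by cases t <;> simp [Ty.isG]
theorem one_iff {t : Ty} : t.one = true ↔ t = .a ∨ t = .b ∨ t = .c := by
  cases t <;> simp [Ty.one]
theorem isW_iff {x : Ed} : x.isW = true ↔ x = .W := by cases x <;> simp [Ed.isW]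
theorem isV_iff {x : Ed} : x.isV = true ↔ x = .V := by cases x <;> simp [Ed.isV]
theorem isZ_iff {x : Ed} : x.isZ = true ↔ x = .Z := by cases x <;> simp [Ed.isZ]
theorem sl_iff {x : Ed} : x.sl = true ↔ x = .S ∨ x = .V ∨ x = .Q ∨ x = .C := by
  cases x <;> simp [Ed.sl]

theorem lA {v : V} (h : (ty G B v).isa = true) : OneP G B v := ty_a.1 (isa_iff.1 h)
theorem lB (hm : MinCE G B) {v : V} (h : (ty G B v).isb = true) : OneQ G B v :=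
  (ty_b hm).1 (isb_iff.1 h)
theorem lP (hm : MinCE G B) {v : V} (h : (ty G B v).isp = true) : P1c G B v :=
  (ty_p hm).1 (isp_iff.1 h)
theorem lF {v : V} (h : (ty G B v).isF = true) : FF G B v := ty_F.1 (isF_iff.1 h)
theorem lN {v : V} (h : (ty G B v).isN = true) : Npay G B v := ty_N.1 (isN_iff.1 h)
theorem lG {v : V} (h : (ty G B v).isG = true) : Ex2 G B v := ty_G.1 (isG_iff.1 h)
theorem l1 (hm : MinCE G B) {v : V} (h : (ty G B v).one = true) : One G B v := by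
  rcases one_iff.1 h with h | h | h
  · exact (ty_a.1 h).1
  · exact ((ty_b hm).1 h).1
  · exact (ty_c.1 h).1

theorem lW {a b : V} (h : (ed G B a b).isW = true) : WE G a b := ed_W.1 (isW_iff.1 h)

theorem te_of {a b : V} (hab : G.Adj a b) (h : ed G B a b ≠ .W) : TE G a b := by
  rcases te_or_we hab with h1 | h1
  · exact h1
  · exact absurd (ed_W.2 h1) h

theorem lT {a b : V} (hab : G.Adj a b) (h : (ed G B a b).isW = false) : TE G a b := by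
  refine te_of (B := B) hab ?_
  intro h1
  rw [h1] at h
  exact Bool.noConfusion h

theorem lV {a b : V} (hab : G.Adj a b) (h : (ed G B a b).isV = true) :
    OneP G B (apx G a b) := by
  rw [isV_iff] at h
  exact (ed_V (te_of (B := B) hab (by rw [h]; intro h1; cases h1))).1 h

theorem lZ {a b : V} (hab : G.Adj a b) (h : (ed G B a b).isZ = true) :
    Exc G B (apx G a b) := by
  rw [isZ_iff] at h
  exact (ed_Z (te_of (B := B) hab (by rw [h]; intro h1; cases h1))).1 h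

theorem lnT {a b : V} (hab : G.Adj a b) (hw : (ed G B a b).isW = false)
    (h : (ed G B a b).isT = false) : ¬ Np G B (apx G a b) := by
  intro hn
  rw [(ed_T (lT hab hw)).2 hn] at h
  exact Bool.noConfusion h

theorem lS {a b : V} (hab : G.Adj a b) (h : (ed G B a b).sl = true) :
    Sm G B (apx G a b) := by
  rw [sl_iff] at h
  refine (ed_sm (te_of (B := B) hab ?_)).2 h
  rcases h with h | h | h | h <;> rw [h] <;> intro h1 <;> cases h1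

theorem all6 {p : ZMod 6 → Prop} (h0 : p 0) (h1 : p 1) (h2 : p 2) (h3 : p 3) (h4 : p 4)
    (h5 : p 5) : ∀ j, p j := by
  intro j
  fin_cases j
  · exact h0
  · exact h1
  · exact h2
  · exact h3
  · exact h4
  · exact h5

end CodeTAux

open CodeTAux

theorem noCode_of (h : MinCE G B) (hC : CF G B F) : NoCode G B F := by
  intro i c hR
  by_contra hne
  rw [Bool.not_eq_false] at hne
  have a0 : G.Adj (c 0) (c 1) := Ring.adj hR 0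
  have a1 : G.Adj (c 1) (c 2) := Ring.adj hR 1
  have a2 : G.Adj (c 2) (c 3) := Ring.adj hR 2
  have a3 : G.Adj (c 3) (c 4) := Ring.adj hR 3
  have a4 : G.Adj (c 4) (c 5) := Ring.adj hR 4
  have a5 : G.Adj (c 5) (c 0) := Ring.adj hR 5
  unfold code1 at hne
  simp only [Bool.or_eq_true, Bool.and_eq_true, Bool.not_eq_true'] at hne
  rcases hne with (((((hne | hne) | hne) | hne) | hne) | hne) | hne
  · obtain ⟨⟨⟨⟨⟨⟨⟨k0, e0⟩, k1⟩, e1⟩, e2⟩, e4⟩, e5⟩, hne⟩ := hne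
    rcases hne with (hne | hne) | hne
    · obtain ⟨⟨⟨⟨⟨k2, k3⟩, k4⟩, k5⟩, e3⟩, hne⟩ := hne
      rcases hne with (hne | hne) | hne
      · exact hC.a1 i c hR (lA k0) (lA k1) (lW e0) (lF k2) (lF k3) (lF k4) (lF k5) (lS a2 hne)
      · exact hC.a3 i c hR (lA k0) (lA k1) (lW e0) (lF k2) (lF k3) (lF k4) (lF k5) (lZ a2 hne)
      · exact hC.a2 i c hR (lA k0) (lA k1) (lW e0) (lF k2) (lF k3) (lF k4) (lF k5) (lS a1 hne.1)
          (lS a5 hne.2)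
    · obtain ⟨⟨⟨⟨k2, k3⟩, e3⟩, k4⟩, k5⟩ := hne
      exact hC.fnnf i c hR (lA k0) (lA k1) (lW e0) (lF k2) (lN k3) (lN k4) (lF k5) (lW e3)
    · obtain ⟨⟨⟨⟨k2, k3⟩, e3⟩, k4⟩, k5⟩ := hne
      exact hC.gffg i c hR (lA k0) (lA k1) (lW e0) (lG k2) (lF k3) (lF k4) (lG k5) (lT a1 e1)
        (lT a2 e2) (lT a4 e4) (lT a5 e5) (lV a3 e3)
  · obtain ⟨⟨⟨⟨⟨⟨⟨⟨⟨⟨⟨k0, e0⟩, k1⟩, e1⟩, k2⟩, e2⟩, k3⟩, e3⟩, k4⟩, e4⟩, k5⟩, e5⟩ := hne
    exact hC.xffx i c hR (l1 h k0) (l1 h k1) (lT a0 e0) (lW e1) (lG k2) (lT a2 e2) (lF k3)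
      (lF k4) (lT a4 e4) (lG k5) (lW e5) (lV a3 e3)
  · obtain ⟨⟨⟨⟨⟨⟨⟨⟨⟨⟨⟨⟨k0, e0⟩, k1⟩, e1⟩, k2⟩, e2⟩, k3⟩, e3⟩, k4⟩, e4⟩, k5⟩, e5⟩, eT⟩ := hne
    refine hC.ffffx i c hR (l1 h k0) (lF k1) (lF k2) (lF k3) (lF k4) (lT a4 e4) (lG k5) (lW e5)
      (lV a3 e3) ?_
    rw [Bool.and_eq_false_iff, Bool.and_eq_false_iff] at eT
    rcases eT with (eT | eT) | eT
    · exact Or.inl (lnT a0 e0 eT)
    · exact Or.inr (Or.inl (lnT a1 e1 eT))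
    · exact Or.inr (Or.inr (lnT a2 e2 eT))
  · obtain ⟨⟨⟨⟨⟨⟨k0, e0⟩, k1⟩, k5⟩, e5⟩, e1⟩, hne⟩ := hne
    rcases hne with (((hne | hne) | hne) | hne) | hne
    · obtain ⟨⟨⟨⟨⟨k2, e2⟩, k3⟩, e3⟩, k4⟩, e4⟩ := hne
      exact hC.f0 i c hR (lB h k0) (lF k1) (lF k2) (lF k3) (lB h k4) (lP h k5) (lW e4) (lW e5)
        (lS a0 e0) (lS a3 e3)
    · obtain ⟨⟨⟨⟨⟨k2, e2⟩, k3⟩, e3⟩, k4⟩, e4⟩ := hne
      exact hC.f1 i c hR (lB h k0) (lF k1) (lF k2) (lF k3) (lF k4) (lP h k5) (lW e5)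
        (lS a0 e0) (lS a4 e4)
    · obtain ⟨⟨⟨⟨⟨k2, e2⟩, k3⟩, e3⟩, k4⟩, e4⟩ := hne
      exact hC.ffgfp i c hR (lB h k0) (lF k1) (lF k2) (lG k3) (lF k4) (lP h k5) (lW e5)
        (lV a2 e2) (lT a3 e3) (lS a0 e0) (lS a4 e4)
    · obtain ⟨⟨⟨⟨⟨k2, e2⟩, k3⟩, e3⟩, k4⟩, e4⟩ := hne
      exact hC.fgffp i c hR (lB h k0) (lF k1) (lG k2) (lF k3) (lF k4) (lP h k5) (lW e5)
        (lV a2 e2) (lT a1 e1) (lS a0 e0) (lS a4 e4)
    · obtain ⟨⟨⟨⟨⟨k2, e2⟩, k3⟩, e3⟩, k4⟩, e4⟩ := hne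
      exact hC.fnnfp i c hR (lB h k0) (lF k1) (lN k2) (lN k3) (lW e2) (lF k4) (lP h k5) (lW e5)
        (lS a0 e0) (lS a4 e4)
  · obtain ⟨⟨⟨⟨⟨k0, k1⟩, e0⟩, e2⟩, e4⟩, hne⟩ := hne
    rcases hne with ((hne | hne) | hne) | hne
    · obtain ⟨⟨⟨⟨⟨⟨⟨k2, k3⟩, k4⟩, k5⟩, e5⟩, e1⟩, e3⟩, hne⟩ := hne
      have hall : ∀ j, FF G B (c j) :=
        all6 (lF k0) (lF k1) (lF k2) (lF k3) (lF k4) (lF k5)
      rcases hne with (hne | hne) | hne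
      · exact hC.f1a i c hR hall (lV a5 e5) (lS a1 hne)
      · exact hC.f1b i c hR hall (lV a5 e5) (lS a2 hne)
      · exact hC.f1c i c hR hall (lV a5 e5) (lZ a2 hne)
    · obtain ⟨⟨⟨⟨⟨⟨⟨k2, k3⟩, k4⟩, k5⟩, e5⟩, e1⟩, e2'⟩, e3⟩ := hne
      have hall : ∀ j, FF G B (c j) :=
        all6 (lF k0) (lF k1) (lF k2) (lF k3) (lF k4) (lF k5)
      exact hC.vv i c hR hall (lV a5 e5) (lV a2 e2')
    · obtain ⟨⟨⟨⟨⟨⟨k2, k3⟩, k4⟩, k5⟩, e5⟩, e1⟩, e3⟩ := hne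
      exact hC.g1 i c hR (lF k0) (lF k1) (lF k2) (lF k3) (lF k4) (lG k5) (lV a5 e5) (lV a3 e3)
        (lT a4 e4)
    · obtain ⟨⟨⟨⟨⟨⟨k2, k3⟩, k4⟩, k5⟩, e1⟩, e3⟩, e5⟩ := hne
      exact hC.g2 i c hR (lF k0) (lF k1) (lG k2) (lF k3) (lF k4) (lG k5) (lV a1 e1) (lV a3 e3)
        (lV a5 e5) (lT a2 e2) (lT a4 e4)
  · obtain ⟨⟨⟨⟨⟨⟨⟨⟨⟨⟨⟨k0, k1⟩, k2⟩, k3⟩, k4⟩, k5⟩, e0⟩, e1⟩, e2⟩, e3⟩, e4⟩, e5⟩ := hne
    exact hC.g3 i c hR (lF k0) (lF k1) (lF k2) (lF k3) (lF k4) (lG k5) (lV a5 e5) (lV a2 e2)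
      (lT a4 e4)
  · obtain ⟨⟨⟨⟨⟨⟨⟨⟨⟨⟨⟨k0, k1⟩, k2⟩, k3⟩, k4⟩, k5⟩, e0⟩, e1⟩, e2⟩, e3⟩, e4⟩, e5⟩ := hne
    exact hC.f3 i c hR (lF k0) (lF k1) (lF k2) (lF k3) (lN k4) (lN k5) (lV a1 e1) (lW e4)

end Pool.Agent.Lib.SVY
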