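import Pool.Agent.Lib.SVY.NamesB

/-!
# SVY.RedData: ring configurations with their names

Generated.  Format of the configurations as in SVX.Gad; `x_l` the names, `x_te` the triangle edges of
the ring, `x_rchk` the check against the names.  Deletions (`rD..`): all vertices which are not fixed
are in the core.
-/

set_option autoImplicit false
set_option maxRecDepth 100000

namespace Pool.Agent.Lib.SVY.RD

open Pool.Agent.Lib.SVX

/-- A1 F33FFF TWTTTT 222223 ; names: 0=f0 1=f1 2=f2 3=f3 4=f4 5=f5 6=l0 7=l2 8=l3 9=l4 10=l5 -/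
def rA1 : Cfg where
  nc := 6
  nt := 5
  E := [(0, 1), (0, 6), (0, 5), (0, 10), (1, 6), (1, 2), (2, 3), (2, 7), (3, 7), (3, 4), (3, 8), (4, 8), (4, 5), (4, 9), (5, 9), (5, 10)]
  Bs := []
  outs := fun i => if i == 10 then 2 else 0
  sm := fun i => i == 10
  keep := [0, 5]
  pi := fun i => if i = 3 then 7 else if i = 4 then 7 else i
  NE := [(6, 0), (7, 9), (7, 5), (9, 5), (10, 0), (10, 5), (0, 5)]
  al := [(6, 7, 1), (6, 7, 2), (6, 9, 1), (6, 9, 2), (6, 10, 1), (6, 10, 2), (6, 10, 3), (7, 9, 1), (7, 9, 2), (7, 9, 3), (7, 9, 4), (7, 10, 1), (7, 10, 2), (7, 10, 3), (9, 10, 1), (9, 10, 2), (9, 10, 3)]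

def rA1P (i : ℕ) : ℕ := if i = 3 then 7 else if i = 4 then 3 else i

theorem rA1_adm : rA1.adm rA1P = true := by decide

/-- the names -/
def rA1_l : List Nm := [.rg 0, .rg 1, .rg 2, .rg 3, .rg 4, .rg 5, .ax 0, .ax 2, .ax 3, .ax 4, .ax 5]

/-- the triangle edges of the ring -/
def rA1_te (j : ZMod 6) : Bool := ([0, 2, 3, 4, 5] : List (ZMod 6)).contains j

theorem rA1_rchk : rchk rA1 rA1_l rA1_te = true := by decide

/-- A2 F33FFF TWTTTT 323222 ; names: 0=f0 1=f1 2=f2 3=f3 4=f4 5=f5 6=l0 7=l2 8=l3 9=l4 10=l5 -/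
def rA2 : Cfg where
  nc := 6
  nt := 5
  E := [(0, 1), (0, 6), (0, 5), (0, 10), (1, 6), (1, 2), (2, 3), (2, 7), (3, 7), (3, 4), (3, 8), (4, 8), (4, 5), (4, 9), (5, 9), (5, 10)]
  Bs := []
  outs := fun i => if i == 6 || i == 7 then 2 else 0
  sm := fun i => i == 6 || i == 7
  keep := [0]
  pi := fun i => if i = 4 then 8 else if i = 5 then 8 else i
  NE := [(6, 0), (8, 10), (8, 0), (10, 0)]
  al := [(6, 8, 1), (6, 8, 2), (6, 8, 3), (6, 10, 1), (6, 10, 2), (6, 10, 3), (8, 10, 1), (8, 10, 2), (8, 10, 3), (8, 10, 4)]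

def rA2P (i : ℕ) : ℕ := if i = 4 then 8 else if i = 5 then 4 else i

theorem rA2_adm : rA2.adm rA2P = true := by decide

/-- the names -/
def rA2_l : List Nm := [.rg 0, .rg 1, .rg 2, .rg 3, .rg 4, .rg 5, .ax 0, .ax 2, .ax 3, .ax 4, .ax 5]

/-- the triangle edges of the ring -/
def rA2_te (j : ZMod 6) : Bool := ([0, 2, 3, 4, 5] : List (ZMod 6)).contains j

theorem rA2_rchk : rchk rA2 rA2_l rA2_te = true := by decide

/-- F1l1 FFFFFF TTTTTQ 232222 ; names: 0=f0 1=f1 2=f2 3=f3 4=f4 5=f5 6=v5 7=l0 8=l1 9=l2 10=l3 11=l4 12=o5 -/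
def rF1a : Cfg where
  nc := 7
  nt := 6
  E := [(0, 1), (0, 7), (0, 5), (0, 6), (1, 7), (1, 2), (1, 8), (2, 8), (2, 3), (2, 9), (3, 9), (3, 4), (3, 10), (4, 10), (4, 5), (4, 11), (5, 11), (5, 6), (6, 12)]
  Bs := []
  outs := fun i => if i == 8 || i == 12 then 2 else 0
  sm := fun i => i == 8 || i == 12
  keep := []
  pi := fun i => if i = 0 then 7 else if i = 1 then 7 else if i = 2 then 9 else if i = 3 then 11 else if i = 4 then 11 else if i = 5 then 11 else if i = 6 then 7 else i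
  NE := [(7, 9), (7, 11), (9, 11)]
  al := [(7, 9, 1), (7, 9, 2), (7, 9, 3), (7, 9, 4), (7, 11, 1), (7, 11, 2), (7, 11, 3), (7, 11, 4), (9, 11, 1), (9, 11, 2), (9, 11, 3), (9, 11, 4)]

def rF1aP (i : ℕ) : ℕ := if i = 0 then 7 else if i = 1 then 7 else if i = 2 then 9 else if i = 3 then 4 else if i = 4 then 11 else if i = 5 then 11 else if i = 6 then 0 else i

theorem rF1a_adm : rF1a.adm rF1aP = true := by decide

/-- the names -/
def rF1a_l : List Nm := [.rg 0, .rg 1, .rg 2, .rg 3, .rg 4, .rg 5, .ax 5, .ax 0, .ax 1, .ax 2, .ax 3, .ax 4, .sc 5]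

/-- the triangle edges of the ring -/
def rF1a_te (j : ZMod 6) : Bool := ([0, 1, 2, 3, 4, 5] : List (ZMod 6)).contains j

theorem rF1a_rchk : rchk rF1a rF1a_l rF1a_te = true := by decide

/-- F1l2 FFFFFF TTTTTQ 223222 ; names: 0=f0 1=f1 2=f2 3=f3 4=f4 5=f5 6=v5 7=l0 8=l1 9=l2 10=l3 11=l4 12=o5 -/
def rF1b : Cfg where
  nc := 7
  nt := 6
  E := [(0, 1), (0, 7), (0, 5), (0, 6), (1, 7), (1, 2), (1, 8), (2, 8), (2, 3), (2, 9), (3, 9), (3, 4), (3, 10), (4, 10), (4, 5), (4, 11), (5, 11), (5, 6), (6, 12)]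
  Bs := []
  outs := fun i => if i == 9 || i == 12 then 2 else 0
  sm := fun i => i == 9 || i == 12
  keep := [1]
  pi := fun i => if i = 0 then 11 else if i = 2 then 10 else if i = 3 then 10 else if i = 4 then 10 else if i = 5 then 11 else i
  NE := [(7, 11), (7, 1), (8, 10), (8, 1), (10, 1), (11, 1)]
  al := [(7, 8, 1), (7, 8, 2), (7, 8, 3), (7, 10, 1), (7, 10, 2), (7, 10, 3), (7, 11, 1), (7, 11, 2), (7, 11, 3), (7, 11, 4), (8, 10, 1), (8, 10, 2), (8, 10, 3), (8, 10, 4), (8, 11, 1), (8, 11, 2), (8, 11, 3), (10, 11, 1), (10, 11, 2), (10, 11, 3)]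

def rF1bP (i : ℕ) : ℕ := if i = 0 then 5 else if i = 2 then 3 else if i = 3 then 10 else if i = 4 then 10 else if i = 5 then 11 else i

theorem rF1b_adm : rF1b.adm rF1bP = true := by decide

/-- the names -/
def rF1b_l : List Nm := [.rg 0, .rg 1, .rg 2, .rg 3, .rg 4, .rg 5, .ax 5, .ax 0, .ax 1, .ax 2, .ax 3, .ax 4, .sc 5]

/-- the triangle edges of the ring -/
def rF1b_te (j : ZMod 6) : Bool := ([0, 1, 2, 3, 4, 5] : List (ZMod 6)).contains j

theorem rF1b_rchk : rchk rF1b rF1b_l rF1b_te = true := by decide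

/-- f1 3FFFFA TTTTTW 322232 ; names: 0=f0 1=f1 2=f2 3=f3 4=f4 5=f5 6=l0 7=l1 8=l2 9=l3 10=l4 11=n5 -/
def rf1 : Cfg where
  nc := 6
  nt := 6
  E := [(0, 1), (0, 6), (0, 5), (1, 6), (1, 2), (1, 7), (2, 7), (2, 3), (2, 8), (3, 8), (3, 4), (3, 9), (4, 9), (4, 5), (4, 10), (5, 10), (5, 11)]
  Bs := []
  outs := fun i => if i == 6 || i == 10 || i == 11 then 2 else 0
  sm := fun i => i == 6 || i == 10 || i == 11
  keep := [4]
  pi := fun i => if i = 0 then 6 else if i = 2 then 7 else if i = 3 then 7 else if i = 5 then 4 else i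
  NE := [(6, 4), (7, 9), (7, 4), (9, 4), (10, 4)]
  al := [(6, 7, 1), (6, 7, 2), (6, 7, 3), (6, 9, 1), (6, 9, 2), (6, 9, 3), (6, 10, 2), (6, 10, 3), (7, 9, 1), (7, 9, 2), (7, 9, 3), (7, 9, 4), (7, 10, 1), (7, 10, 2), (7, 10, 3), (9, 10, 1), (9, 10, 2), (9, 10, 3)]

def rf1P (i : ℕ) : ℕ := if i = 0 then 6 else if i = 2 then 7 else if i = 3 then 2 else if i = 5 then 4 else i

theorem rf1_adm : rf1.adm rf1P = true := by decide

/-- the names -/
def rf1_l : List Nm := [.rg 0, .rg 1, .rg 2, .rg 3, .rg 4, .rg 5, .ax 0, .ax 1, .ax 2, .ax 3, .ax 4, .pn 5 0]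

/-- the triangle edges of the ring -/
def rf1_te (j : ZMod 6) : Bool := ([0, 1, 2, 3, 4] : List (ZMod 6)).contains j

/-- without the exclusions [(6, 10, 3)] -/
def rf10 : Cfg := { rf1 with al := [(6, 7, 1), (6, 7, 2), (6, 7, 3), (6, 9, 1), (6, 9, 2), (6, 9, 3), (6, 10, 2), (7, 9, 1), (7, 9, 2), (7, 9, 3), (7, 9, 4), (7, 10, 1), (7, 10, 2), (7, 10, 3), (9, 10, 1), (9, 10, 2), (9, 10, 3)] }

theorem rf1_rchk : rchk rf10 rf1_l rf1_te = true := by decide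

/-- F2a 3FFFFB TTTQTW 222222 ; names: 0=f0 1=f1 2=f2 3=f3 4=f4 5=f5 6=v3 7=l0 8=l1 9=l2 10=o3 11=l4 12=r5 -/
def rF2a : Cfg where
  nc := 7
  nt := 6
  E := [(0, 1), (0, 7), (0, 5), (1, 7), (1, 2), (1, 8), (2, 8), (2, 3), (2, 9), (3, 9), (3, 4), (3, 6), (4, 6), (4, 5), (4, 11), (5, 11), (5, 12), (6, 10)]
  Bs := []
  outs := fun i => if i == 10 then 2 else 0
  sm := fun i => i == 10
  keep := []
  pi := fun i => if i = 0 then 7 else if i = 1 then 7 else if i = 2 then 7 else if i = 3 then 9 else if i = 4 then 9 else if i = 5 then 9 else i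
  NE := [(7, 9)]
  al := [(7, 9, 1), (7, 9, 2), (7, 9, 3), (7, 9, 4)]

def rF2aP (i : ℕ) : ℕ := if i = 0 then 7 else if i = 1 then 7 else if i = 2 then 1 else if i = 3 then 9 else if i = 4 then 3 else if i = 5 then 4 else i

theorem rF2a_adm : rF2a.adm rF2aP = true := by decide

/-- the names -/
def rF2a_l : List Nm := [.rg 0, .rg 1, .rg 2, .rg 3, .rg 4, .rg 5, .ax 3, .ax 0, .ax 1, .ax 2, .sc 3, .ax 4, .pn 5 1]

/-- the triangle edges of the ring -/
def rF2a_te (j : ZMod 6) : Bool := ([0, 1, 2, 3, 4] : List (ZMod 6)).contains j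

theorem rF2a_rchk : rchk rF2a rF2a_l rF2a_te = true := by decide

/-- F2b 3FFFFB TTQTTW 222222 ; names: 0=f0 1=f1 2=f2 3=f3 4=f4 5=f5 6=v2 7=l0 8=l1 9=o2 10=l3 11=l4 12=r5 -/
def rF2b : Cfg where
  nc := 7
  nt := 6
  E := [(0, 1), (0, 7), (0, 5), (1, 7), (1, 2), (1, 8), (2, 8), (2, 3), (2, 6), (3, 6), (3, 4), (3, 10), (4, 10), (4, 5), (4, 11), (5, 11), (5, 12), (6, 9)]
  Bs := []
  outs := fun i => if i == 9 then 2 else 0
  sm := fun i => i == 9
  keep := []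
  pi := fun i => if i = 3 then 12 else if i = 4 then 12 else if i = 5 then 12 else i
  NE := [(10, 12)]
  al := [(10, 12, 1), (10, 12, 2), (10, 12, 3), (10, 12, 4)]

def rF2bP (i : ℕ) : ℕ := if i = 3 then 4 else if i = 4 then 5 else if i = 5 then 12 else i

theorem rF2b_adm : rF2b.adm rF2bP = true := by decide

/-- the names -/
def rF2b_l : List Nm := [.rg 0, .rg 1, .rg 2, .rg 3, .rg 4, .rg 5, .ax 2, .ax 0, .ax 1, .sc 2, .ax 3, .ax 4, .pn 5 1]

/-- the triangle edges of the ring -/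
def rF2b_te (j : ZMod 6) : Bool := ([0, 1, 2, 3, 4] : List (ZMod 6)).contains j

theorem rF2b_rchk : rchk rF2b rF2b_l rF2b_te = true := by decide

/-- F3 FFFFAA TQTTWT 222222 ; names: 0=f0 1=f1 2=f2 3=f3 4=f4 5=f5 6=v1 7=l0 8=o1 9=l2 10=l3 11=n4 12=n5 13=l5 -/
def rF3 : Cfg where
  nc := 7
  nt := 7
  E := [(0, 1), (0, 7), (0, 5), (0, 13), (1, 7), (1, 2), (1, 6), (2, 6), (2, 3), (2, 9), (3, 9), (3, 4), (3, 10), (4, 10), (4, 11), (4, 5), (5, 12), (5, 13), (6, 8)]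
  Bs := []
  outs := fun i => if i == 8 || i == 11 || i == 12 then 2 else 0
  sm := fun i => i == 8 || i == 11 || i == 12
  keep := []
  pi := fun i => if i = 0 then 12 else if i = 5 then 12 else i
  NE := [(7, 12)]
  al := [(7, 12, 1), (7, 12, 2), (7, 12, 3), (7, 12, 4)]

def rF3P (i : ℕ) : ℕ := if i = 0 then 5 else if i = 5 then 12 else i

theorem rF3_adm : rF3.adm rF3P = true := by decide

/-- the names -/
def rF3_l : List Nm := [.rg 0, .rg 1, .rg 2, .rg 3, .rg 4, .rg 5, .ax 1, .ax 0, .sc 1, .ax 2, .ax 3, .pn 4 0, .pn 5 0, .ax 5]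

/-- the triangle edges of the ring -/
def rF3_te (j : ZMod 6) : Bool := ([0, 1, 2, 3, 5] : List (ZMod 6)).contains j

theorem rF3_rchk : rchk rF3 rF3_l rF3_te = true := by decide

/-- F0 3FFF3E TTTTWW 322322 ; names: 0=f0 1=f1 2=f2 3=f3 4=f4 5=f5 6=l0 7=l1 8=l2 9=l3 10=p5 11=q5 -/
def rF0 : Cfg where
  nc := 6
  nt := 6
  E := [(0, 1), (0, 6), (0, 5), (1, 6), (1, 2), (1, 7), (2, 7), (2, 3), (2, 8), (3, 8), (3, 4), (3, 9), (4, 9), (4, 5), (5, 10), (5, 11)]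
  Bs := [(10, 11)]
  outs := fun i => if i == 6 || i == 9 then 2 else 0
  sm := fun i => i == 6 || i == 9
  keep := [1]
  pi := fun i => if i = 0 then 6 else if i = 2 then 9 else if i = 3 then 9 else i
  NE := [(6, 1), (7, 9), (7, 1), (9, 1)]
  al := [(6, 7, 1), (6, 7, 2), (6, 7, 3), (6, 9, 1), (6, 9, 2), (6, 9, 3), (7, 9, 1), (7, 9, 2), (7, 9, 3), (7, 9, 4)]

def rF0P (i : ℕ) : ℕ := if i = 0 then 6 else if i = 2 then 3 else if i = 3 then 9 else i

theorem rF0_adm : rF0.adm rF0P = true := by decide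

/-- the names -/
def rF0_l : List Nm := [.rg 0, .rg 1, .rg 2, .rg 3, .rg 4, .rg 5, .ax 0, .ax 1, .ax 2, .ax 3, .pn 5 2, .pn 5 3]

/-- the triangle edges of the ring -/
def rF0_te (j : ZMod 6) : Bool := ([0, 1, 2, 3] : List (ZMod 6)).contains j

theorem rF0_rchk : rchk rF0 rF0_l rF0_te = true := by decide

/-- 33FNNF WTTWTT, pure deletion ; names: 0=f0 1=f1 2=f2 3=f3 4=f4 5=f5 6=n3 7=n4 8=l1 9=l2 10=l4 11=l5 -/
def rD1 : Cfg where
  nc := 8
  nt := 4
  E := [(0, 1), (0, 5), (0, 11), (1, 2), (1, 8), (2, 3), (2, 8), (2, 9), (3, 4), (3, 6), (3, 9), (4, 5), (4, 7), (4, 10), (5, 10), (5, 11)]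
  Bs := []
  outs := fun i => if i == 6 || i == 7 then 2 else 0
  sm := fun _ => false
  keep := []
  pi := fun i => i
  NE := []
  al := []

def rD1P (i : ℕ) : ℕ := i

theorem rD1_adm : rD1.adm rD1P = true := by decide

/-- the names -/
def rD1_l : List Nm := [.rg 0, .rg 1, .rg 2, .rg 3, .rg 4, .rg 5, .pn 3 0, .pn 4 0, .ax 1, .ax 2, .ax 4, .ax 5]

/-- the triangle edges of the ring -/
def rD1_te (j : ZMod 6) : Bool := ([1, 2, 4, 5] : List (ZMod 6)).contains j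

theorem rD1_rchk : rchk rD1 rD1_l rD1_te = true := by decide

/-- 33nFFn (T|W)WTVTW, pure deletion ; names: 0=f0 1=f1 2=f2 3=f3 4=f4 5=f5 6=v3 7=z3 8=l2 9=l4 -/
def rD2 : Cfg where
  nc := 8
  nt := 2
  E := [(0, 1), (0, 5), (1, 2), (2, 3), (2, 8), (3, 4), (3, 6), (3, 8), (4, 5), (4, 6), (4, 9), (5, 9), (6, 7)]
  Bs := []
  outs := fun i => if i == 0 || i == 1 || i == 2 || i == 5 then 1 else if i == 7 then 2 else 0
  sm := fun _ => false
  keep := []
  pi := fun i => i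
  NE := []
  al := []

def rD2P (i : ℕ) : ℕ := i

theorem rD2_adm : rD2.adm rD2P = true := by decide

/-- the names -/
def rD2_l : List Nm := [.rg 0, .rg 1, .rg 2, .rg 3, .rg 4, .rg 5, .ax 3, .sc 3, .ax 2, .ax 4]

/-- the triangle edges of the ring -/
def rD2_te (j : ZMod 6) : Bool := ([2, 3, 4] : List (ZMod 6)).contains j

theorem rD2_rchk : rchk rD2 rD2_l rD2_te = true := by decide

/-- 3FNNFp STWTSW, pure deletion ; names: 0=f0 1=f1 2=f2 3=f3 4=f4 5=f5 6=s0 7=s4 8=n2 9=n3 10=n5 11=l1 12=l3 -/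
def rD3 : Cfg where
  nc := 11
  nt := 2
  E := [(0, 1), (0, 5), (0, 6), (1, 2), (1, 6), (1, 11), (2, 3), (2, 8), (2, 11), (3, 4), (3, 9), (3, 12), (4, 5), (4, 7), (4, 12), (5, 7), (5, 10)]
  Bs := []
  outs := fun i => if i == 6 || i == 7 || i == 8 || i == 9 || i == 10 then 2 else 0
  sm := fun _ => false
  keep := []
  pi := fun i => i
  NE := []
  al := []

def rD3P (i : ℕ) : ℕ := i

theorem rD3_adm : rD3.adm rD3P = true := by decide

/-- the names -/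
def rD3_l : List Nm := [.rg 0, .rg 1, .rg 2, .rg 3, .rg 4, .rg 5, .ax 0, .ax 4, .pn 2 0, .pn 3 0, .pn 5 0, .ax 1, .ax 3]

/-- the triangle edges of the ring -/
def rD3_te (j : ZMod 6) : Bool := ([0, 1, 3, 4] : List (ZMod 6)).contains j

theorem rD3_rchk : rchk rD3 rD3_l rD3_te = true := by decide

/-- FFFFFF TTVTTV, pure deletion ; names: 0=f0 1=f1 2=f2 3=f3 4=f4 5=f5 6=v2 7=z2 8=v5 9=z5 10=l0 11=l1 12=l3 13=l4 -/
def rD4 : Cfg where
  nc := 10
  nt := 4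
  E := [(0, 1), (0, 5), (0, 8), (0, 10), (1, 2), (1, 10), (1, 11), (2, 3), (2, 6), (2, 11), (3, 4), (3, 6), (3, 12), (4, 5), (4, 12), (4, 13), (5, 8), (5, 13), (6, 7), (8, 9)]
  Bs := []
  outs := fun i => if i == 7 || i == 9 then 2 else 0
  sm := fun _ => false
  keep := []
  pi := fun i => i
  NE := []
  al := []

def rD4P (i : ℕ) : ℕ := i

theorem rD4_adm : rD4.adm rD4P = true := by decide

/-- the names -/
def rD4_l : List Nm := [.rg 0, .rg 1, .rg 2, .rg 3, .rg 4, .rg 5, .ax 2, .sc 2, .ax 5, .sc 5, .ax 0, .ax 1, .ax 3, .ax 4]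

/-- the triangle edges of the ring -/
def rD4_te (j : ZMod 6) : Bool := ([0, 1, 2, 3, 4, 5] : List (ZMod 6)).contains j

theorem rD4_rchk : rchk rD4 rD4_l rD4_te = true := by decide

/-- 33FFFF WTTVTT, pure deletion ; names: 0=f0 1=f1 2=f2 3=f3 4=f4 5=f5 6=v3 7=z3 8=l1 9=l2 10=l4 11=l5 -/
def rD5 : Cfg where
  nc := 8
  nt := 4
  E := [(0, 1), (0, 5), (0, 11), (1, 2), (1, 8), (2, 3), (2, 8), (2, 9), (3, 4), (3, 6), (3, 9), (4, 5), (4, 6), (4, 10), (5, 10), (5, 11), (6, 7)]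
  Bs := []
  outs := fun i => if i == 7 then 2 else 0
  sm := fun _ => false
  keep := []
  pi := fun i => i
  NE := []
  al := []

def rD5P (i : ℕ) : ℕ := i

theorem rD5_adm : rD5.adm rD5P = true := by decide

/-- the names -/
def rD5_l : List Nm := [.rg 0, .rg 1, .rg 2, .rg 3, .rg 4, .rg 5, .ax 3, .sc 3, .ax 1, .ax 2, .ax 4, .ax 5]

/-- the triangle edges of the ring -/
def rD5_te (j : ZMod 6) : Bool := ([1, 2, 3, 4, 5] : List (ZMod 6)).contains j

theorem rD5_rchk : rchk rD5 rD5_l rD5_te = true := by decide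

end Pool.Agent.Lib.SVY.RD
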