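import Pool.Agent.Lib.SVX.ChkD
import Pool.Agent.Lib.SVY.RedData

/-!
# SVY.RedOk1: `ListOK` of the configurations (kernel check)
-/

set_option autoImplicit false
set_option maxRecDepth 100000

namespace Pool.Agent.Lib.SVY.RD

open Pool.Agent.Lib.SVX

/-- all checks, one after the other -/
theorem redok1_seq :
    (rA1.ListOK) ∧
    (rA2.ListOK) ∧
    (rF1a.ListOK) ∧
    (rF1b.ListOK) ∧
    (rf1.ListOK) ∧
    (rF2a.ListOK) ∧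
    (rF2b.ListOK) ∧
    (rF0.ListOK) :=
  ⟨(Chk.ringD_cfg
  (l := [.ed 1 2, .par 2 7 [], .tr 2 3 ⟨7, true, [], []⟩, .par 2 8 [], .tr 3 4 ⟨8, true, [], []⟩, .par 2 9 [7], .tr 4 5 ⟨9, true, [], []⟩, .par 3 10 [], .tr 5 0 ⟨10, true, [], []⟩])
  (r := [.par 2 6 [], .tr 1 0 ⟨6, true, [], []⟩])
  (nodes := [(6, 2, []), (7, 2, []), (9, 2, [7]), (5, 0, [7, 9]), (0, 0, [5, 6]), (10, 1, [0, 5])])
  (u0 := 1) (by decide +kernel)),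
  (Chk.ringD_cfg
  (l := [.ed 1 2, .par 3 7 [], .tr 2 3 ⟨7, true, [], []⟩, .par 2 8 [], .tr 3 4 ⟨8, true, [], []⟩, .par 2 9 [], .tr 4 5 ⟨9, true, [], []⟩, .par 2 10 [8], .tr 5 0 ⟨10, true, [], []⟩])
  (r := [.par 3 6 [], .tr 1 0 ⟨6, true, [], []⟩])
  (nodes := [(8, 2, []), (10, 2, [8]), (0, 0, [8, 10]), (6, 1, [0])])
  (u0 := 1) (by decide +kernel)),
  (Chk.ringD_cfg
  (l := [.par 2 9 [], .tr 2 3 ⟨9, true, [], []⟩, .par 2 10 [], .tr 3 4 ⟨10, true, [], []⟩, .par 2 11 [9], .tr 4 5 ⟨11, true, [], []⟩, .par 3 12 [], .tr 5 0 ⟨6, false, [], [(12, true, [])]⟩, .par 2 7 [9, 11], .tr 0 1 ⟨7, true, [], []⟩])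
  (r := [.par 3 8 [], .tr 2 1 ⟨8, true, [], []⟩])
  (nodes := [(7, 2, []), (9, 2, [7]), (11, 2, [7, 9])])
  (u0 := 2) (by decide +kernel)),
  (Chk.ringD_cfg
  (l := [.par 2 7 [], .tr 0 1 ⟨7, true, [], []⟩, .par 2 8 [], .tr 1 2 ⟨8, true, [], []⟩, .par 3 9 [], .tr 2 3 ⟨9, true, [], []⟩, .par 2 10 [8], .tr 3 4 ⟨10, true, [], []⟩, .par 2 11 [7], .tr 4 5 ⟨11, true, [], []⟩])
  (r := [.par 3 12 [], .tr 0 5 ⟨6, false, [], [(12, true, [])]⟩])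
  (nodes := [(7, 2, []), (11, 2, [7]), (8, 2, []), (10, 2, [8]), (1, 3, [7, 8, 10, 11])])
  (u0 := 0) (by decide +kernel)),
  (Chk.ringD_cfg
  (l := [.par 2 7 [], .tr 1 2 ⟨7, true, [], []⟩, .par 2 8 [], .tr 2 3 ⟨8, true, [], []⟩, .par 2 9 [7], .tr 3 4 ⟨9, true, [], []⟩, .par 3 10 [], .tr 4 5 ⟨10, true, [], []⟩, .par 3 11 [], .vf ⟨5, false, [], [(11, true, [])]⟩])
  (r := [.par 3 6 [], .tr 1 0 ⟨6, true, [], []⟩, .ed 0 5])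
  (nodes := [(7, 2, []), (9, 2, [7]), (4, 0, [7, 9]), (10, 1, [4]), (6, 1, [4])])
  (u0 := 1) (by decide +kernel)),
  (Chk.ringD_cfg
  (l := [.par 3 10 [], .tr 4 3 ⟨6, false, [], [(10, true, [])]⟩, .par 2 9 [], .tr 3 2 ⟨9, true, [], []⟩, .par 2 8 [], .tr 2 1 ⟨8, true, [], []⟩, .par 2 7 [9], .tr 1 0 ⟨7, true, [], []⟩, .ed 0 5])
  (r := [.par 2 11 [], .tr 4 5 ⟨11, true, [], []⟩, .par 2 12 [], .vf ⟨5, false, [12], []⟩])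
  (nodes := [(7, 2, []), (9, 2, [7])])
  (u0 := 4) (by decide +kernel)),
  (Chk.ringD_cfg
  (l := [.par 2 8 [], .tr 1 2 ⟨8, true, [], []⟩, .par 3 9 [], .tr 2 3 ⟨6, false, [], [(9, true, [])]⟩, .par 2 10 [], .tr 3 4 ⟨10, true, [], []⟩, .par 2 11 [], .tr 4 5 ⟨11, true, [], []⟩, .par 2 12 [10], .vf ⟨5, false, [12], []⟩])
  (r := [.par 2 7 [], .tr 1 0 ⟨7, true, [], []⟩, .ed 0 5])
  (nodes := [(10, 2, []), (12, 2, [10])])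
  (u0 := 1) (by decide +kernel)),
  (Chk.ringD_cfg
  (l := [.par 2 7 [], .tr 1 2 ⟨7, true, [], []⟩, .par 2 8 [], .tr 2 3 ⟨8, true, [], []⟩, .par 3 9 [], .tr 3 4 ⟨9, true, [], []⟩, .ed 4 5, .par 2 10 [], .par 2 11 [10], .vf ⟨5, false, [10, 11], []⟩])
  (r := [.par 3 6 [], .tr 1 0 ⟨6, true, [], []⟩, .ed 0 5])
  (nodes := [(7, 2, []), (10, 2, []), (11, 2, [10]), (9, 1, [7]), (1, 0, [7, 9]), (6, 1, [1])])
  (u0 := 1) (by decide +kernel))⟩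

theorem rA1_ok : rA1.ListOK := redok1_seq.1

theorem rA2_ok : rA2.ListOK := redok1_seq.2.1

theorem rF1a_ok : rF1a.ListOK := redok1_seq.2.2.1

theorem rF1b_ok : rF1b.ListOK := redok1_seq.2.2.2.1

theorem rf1_ok : rf1.ListOK := redok1_seq.2.2.2.2.1

theorem rF2a_ok : rF2a.ListOK := redok1_seq.2.2.2.2.2.1

theorem rF2b_ok : rF2b.ListOK := redok1_seq.2.2.2.2.2.2.1

theorem rF0_ok : rF0.ListOK := redok1_seq.2.2.2.2.2.2.2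

end Pool.Agent.Lib.SVY.RD
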