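import Pool.Agent.Lib.SVX.ChkD
import Pool.Agent.Lib.SVY.RedData

/-!
# SVY.RedOk2: `ListOK` of the configurations (kernel check)
-/

set_option autoImplicit false
set_option maxRecDepth 100000

namespace Pool.Agent.Lib.SVY.RD

open Pool.Agent.Lib.SVX

/-- all checks, one after the other -/
theorem redok2_seq :
    (rD1.ListOK) ∧
    (rD2.ListOK) ∧
    (rD4.ListOK) ∧
    (rD5.ListOK) ∧
    (rF3.ListOK) :=
  ⟨(Chk.ringD_cfg
  (l := [.par 2 8 [], .tr 2 1 ⟨8, true, [], []⟩, .ed 1 0, .par 2 11 [], .tr 0 5 ⟨11, true, [], []⟩, .par 2 10 [], .tr 5 4 ⟨10, true, [], []⟩, .par 3 7 [], .vf ⟨4, false, [], [(7, true, [])]⟩, .ed 4 3])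
  (r := [.par 2 9 [], .tr 2 3 ⟨9, true, [], []⟩, .par 3 6 [], .vf ⟨3, false, [], [(6, true, [])]⟩])
  (nodes := [])
  (u0 := 2) (by decide +kernel)),
  (Chk.ringD_cfg
  (l := [.ed 0 5, .par 5 5 [], .vf ⟨5, true, [], []⟩, .par 2 9 [], .tr 5 4 ⟨9, true, [], []⟩, .par 3 7 [], .tr 4 3 ⟨6, false, [], [(7, true, [])]⟩, .par 2 8 [], .tr 3 2 ⟨8, true, [], []⟩, .par 5 2 [], .vf ⟨2, true, [], []⟩])
  (r := [.par 5 0 [], .vf ⟨0, true, [], []⟩, .ed 0 1, .par 5 1 [], .vf ⟨1, true, [], []⟩, .ed 1 2])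
  (nodes := [])
  (u0 := 0) (by decide +kernel)),
  (Chk.ringD_cfg
  (l := [.par 3 9 [], .tr 0 5 ⟨8, false, [], [(9, true, [])]⟩, .par 2 13 [], .tr 5 4 ⟨13, true, [], []⟩, .par 2 12 [], .tr 4 3 ⟨12, true, [], []⟩, .par 3 7 [], .tr 3 2 ⟨6, false, [], [(7, true, [])]⟩])
  (r := [.par 2 10 [], .tr 0 1 ⟨10, true, [], []⟩, .par 2 11 [], .tr 1 2 ⟨11, true, [], []⟩])
  (nodes := [])
  (u0 := 0) (by decide +kernel)),
  (Chk.ringD_cfg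
  (l := [.par 2 9 [], .tr 3 2 ⟨9, true, [], []⟩, .par 2 8 [], .tr 2 1 ⟨8, true, [], []⟩, .ed 1 0, .par 2 11 [], .tr 0 5 ⟨11, true, [], []⟩, .par 2 10 [], .tr 5 4 ⟨10, true, [], []⟩])
  (r := [.par 3 7 [], .tr 3 4 ⟨6, false, [], [(7, true, [])]⟩])
  (nodes := [])
  (u0 := 3) (by decide +kernel)),
  (Chk.ringD_cfg
  (l := [.par 3 8 [], .tr 1 2 ⟨6, false, [], [(8, true, [])]⟩, .par 2 9 [], .tr 2 3 ⟨9, true, [], []⟩, .par 2 10 [], .tr 3 4 ⟨10, true, [], []⟩, .par 3 11 [], .vf ⟨4, false, [], [(11, true, [])]⟩, .ed 4 5, .par 3 12 [], .vf ⟨5, false, [], [(12, true, [])]⟩])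
  (r := [.par 2 7 [], .tr 1 0 ⟨7, true, [], []⟩, .par 2 13 [], .tr 0 5 ⟨13, true, [], []⟩])
  (nodes := [(7, 2, []), (12, 1, [7])])
  (u0 := 1) (by decide +kernel))⟩

theorem rD1_ok : rD1.ListOK := redok2_seq.1

theorem rD2_ok : rD2.ListOK := redok2_seq.2.1

theorem rD4_ok : rD4.ListOK := redok2_seq.2.2.1

theorem rD5_ok : rD5.ListOK := redok2_seq.2.2.2.1

theorem rF3_ok : rF3.ListOK := redok2_seq.2.2.2.2

end Pool.Agent.Lib.SVY.RD
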