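import Pool.Agent.Lib.SVY.Spec

/-!
# SVY.RingN: faces as rings of arbitrary length, corners

Plan.  `cyc_mem`, `card_cyc`, `face_edges`, `other_edge`, `corner_unique`, `corners`, `te_faces`,
`we_faces`, `face_tri` (SVX/Short, SVX/Link, SVY/Tri).  `ring_short`: if `c (j-1)` and `c (j+1)` are
adjacent then the edges `c (j-1) c j` and `c j c (j+1)` lie in the same triangle, whose face and
`F i` are the two faces of both edges, so `corner_unique`/`corners` give degree 2 of `c j`.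
-/

set_option autoImplicit false
set_option linter.unusedSectionVars false

namespace Pool.Agent.Lib.SVY

open Finset Pool.Agent.Lib.SVT Pool.Agent.Lib.SVX

variable {V : Type*} [Fintype V] [DecidableEq V] {G : SimpleGraph V} {B : Finset V}
variable {m : ℕ} {F : Fin m → Finset (Sym2 V)} {i : Fin m} {n : ℕ} [NeZero n] {c : ZMod n → V}

/-! ### faces and corners -/

/-- the face which is not a triangle on a triangle edge -/
theorem te_nt (h : MinCE G B) (hF : Faces G F) {a b : V} (hab : TE G a b) :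
    ∃ i, Nt F i ∧ s(a, b) ∈ F i := by
  obtain ⟨h1, w, h2, h3⟩ := hab
  obtain ⟨i, j, -, -, hj, h6, -⟩ := te_faces h hF h1 h2 h3
  refine ⟨j, ?_, hj⟩
  intro h4
  omega

theorem te_nt_unique (h : MinCE G B) (hF : Faces G F) {a b : V} (hab : TE G a b) {i j : Fin m}
    (hi : Nt F i) (hj : Nt F j) (h1 : s(a, b) ∈ F i) (h2 : s(a, b) ∈ F j) : i = j := by
  obtain ⟨h3, w, h4, h5⟩ := hab
  obtain ⟨p, q, hpq, hp, hq, h6, hall⟩ := te_faces h hF h3 h4 h5
  have hp3 : (F p).card = 3 := by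
    have h7 : (F p).card ≤ 3 := by
      rw [hp]
      exact card_le_three
    rcases face_size h hF p with h8 | h8
    · exact h8
    · omega
  rcases (hall i).1 h1 with h7 | h7
  · exact absurd (h7 ▸ hp3) hi
  · rcases (hall j).1 h2 with h8 | h8
    · exact absurd (h8 ▸ hp3) hj
    · rw [h7, h8]

theorem we_nt (h : MinCE G B) (hF : Faces G F) {a b : V} (hab : WE G a b) {i : Fin m}
    (hi : s(a, b) ∈ F i) : Nt F i := by
  intro h3
  have := we_faces h hF hab hi
  omega

/-- two edges of a face at `v`, no third one -/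
theorem face_two (hF : Faces G F) {i : Fin m} {v a b x : V} (hab : a ≠ b) (h1 : s(v, a) ∈ F i)
    (h2 : s(v, b) ∈ F i) (h3 : s(v, x) ∈ F i) : x = a ∨ x = b :=
  LinkAux.face_edges hF hab h1 h2 h3

/-- two edges of a face which is not a triangle do not lie in the same triangle -/
theorem nt_short (h : MinCE G B) (hF : Faces G F) {i : Fin m} (hi : Nt F i) {v a b : V}
    (hd : 3 ≤ dg G v) (hab : a ≠ b) (h1 : s(v, a) ∈ F i) (h2 : s(v, b) ∈ F i) : ¬ G.Adj a b := by
  intro h3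
  have hva : G.Adj v a := (SimpleGraph.mem_edgeSet G).1 (hF.sub i _ h1)
  have hvb : G.Adj v b := (SimpleGraph.mem_edgeSet G).1 (hF.sub i _ h2)
  obtain ⟨k, hk⟩ := cyc3 h hF hva h3 hvb.symm
  have hk1 : s(v, a) ∈ F k := by
    rw [hk]
    simp
  have hk2 : s(v, b) ∈ F k := by
    rw [hk, Sym2.eq_swap (a := v) (b := b)]
    simp
  have hik : i = k := corner_unique hF (two_conn h) hab hd h1 h2 hk1 hk2
  have h7 : (F i).card ≤ 3 := by
    rw [hik, hk]
    exact card_le_three
  rcases face_size h hF i with h8 | h8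
  · exact hi h8
  · omega

/-- an edge has a second edge at its end on the face -/
theorem face_next (hF : Faces G F) {i : Fin m} {v a : V} (h1 : s(v, a) ∈ F i) :
    ∃ b, b ≠ a ∧ s(v, b) ∈ F i ∧ G.Adj v b := by
  obtain ⟨b, h2, h3, h4⟩ := LinkAux.other_edge hF h1
  exact ⟨b, h2, h4, h3⟩

/-- different faces have different corners -/
theorem corner_face (h : MinCE G B) (hF : Faces G F) {i j : Fin m} {v a b : V}
    (hd : 3 ≤ dg G v) (hab : a ≠ b) (h1 : s(v, a) ∈ F i) (h2 : s(v, b) ∈ F i)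
    (h3 : s(v, a) ∈ F j) (h4 : s(v, b) ∈ F j) : i = j :=
  corner_unique hF (two_conn h) hab hd h1 h2 h3 h4

namespace RingNAux

/-- the neighbours of a vertex of degree 3 -/
theorem nb3 {v a b c : V} (hd : dg G v = 3) (e1 : G.Adj v a) (e2 : G.Adj v b) (e3 : G.Adj v c)
    (n1 : a ≠ b) (n2 : a ≠ c) (n3 : b ≠ c) {u : V} (hu : G.Adj v u) : u = a ∨ u = b ∨ u = c := by
  have h7 : ({a, b, c} : Finset V) ⊆ nb G univ v := by
    intro x hx
    rw [mem_insert, mem_insert, mem_singleton] at hx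
    rw [mem_nb]
    rcases hx with rfl | rfl | rfl
    · exact ⟨mem_univ _, e1⟩
    · exact ⟨mem_univ _, e2⟩
    · exact ⟨mem_univ _, e3⟩
  have h8 : ({a, b, c} : Finset V).card = 3 := card_eq_three.2 ⟨_, _, _, n1, n2, n3, rfl⟩
  have h9 := eq_of_subset_of_card_le h7 (by unfold dg at hd; omega)
  have h10 : u ∈ nb G univ v := mem_nb.2 ⟨mem_univ _, hu⟩
  rw [← h9, mem_insert, mem_insert, mem_singleton] at h10
  exact h10

/-- the neighbours of a vertex of degree 4 -/
theorem nb4 {v a b c d : V} (hd : dg G v = 4) (e1 : G.Adj v a) (e2 : G.Adj v b) (e3 : G.Adj v c)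
    (e4 : G.Adj v d) (n1 : a ≠ b) (n2 : a ≠ c) (n3 : a ≠ d) (n4 : b ≠ c) (n5 : b ≠ d) (n6 : c ≠ d)
    {u : V} (hu : G.Adj v u) : u = a ∨ u = b ∨ u = c ∨ u = d := by
  have h7 : ({a, b, c, d} : Finset V) ⊆ nb G univ v := by
    intro x hx
    rw [mem_insert, mem_insert, mem_insert, mem_singleton] at hx
    rw [mem_nb]
    rcases hx with rfl | rfl | rfl | rfl
    · exact ⟨mem_univ _, e1⟩
    · exact ⟨mem_univ _, e2⟩
    · exact ⟨mem_univ _, e3⟩
    · exact ⟨mem_univ _, e4⟩
  have h8 : ({a, b, c, d} : Finset V).card = 4 := by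
    rw [card_insert_of_notMem, card_insert_of_notMem, card_insert_of_notMem, card_singleton]
    · rw [mem_singleton]
      exact n6
    · rw [mem_insert, mem_singleton, not_or]
      exact ⟨n4, n5⟩
    · rw [mem_insert, mem_insert, mem_singleton, not_or, not_or]
      exact ⟨n1, n2, n3⟩
  have h9 := eq_of_subset_of_card_le h7 (by unfold dg at hd; omega)
  have h10 : u ∈ nb G univ v := mem_nb.2 ⟨mem_univ _, hu⟩
  rw [← h9, mem_insert, mem_insert, mem_insert, mem_singleton] at h10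
  exact h10

/-- the second face at an edge -/
theorem second (hF : Faces G F) {i : Fin m} {v x : V} (hi : s(v, x) ∈ F i) :
    ∃ k, k ≠ i ∧ s(v, x) ∈ F k ∧ ∀ l, s(v, x) ∈ F l → l = i ∨ l = k := by
  obtain ⟨p, q, hpq, hall⟩ := LinkAux.two_faces hF (hF.sub i _ hi)
  rcases (hall i).1 hi with h1 | h1
  · exact ⟨q, by rw [h1]; exact hpq.symm, (hall q).2 (Or.inr rfl), fun l hl => by
      rw [h1]; exact (hall l).1 hl⟩
  · exact ⟨p, by rw [h1]; exact hpq, (hall p).2 (Or.inl rfl), fun l hl => by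
      rw [h1]; exact ((hall l).1 hl).symm⟩

end RingNAux

open RingNAux

/-! ### the four faces at a vertex -/

/-- `FF`: the two faces at the corners between the triangles `v a b` and `v c d`: if one of them
has the edges `v a`, `v c` then the other one has the edges `v b`, `v d` -/
theorem FF.opp (h : MinCE G B) (hF : Faces G F) {v a b c d : V} (hv : FF G B v)
    (e1 : G.Adj v a) (e2 : G.Adj v b) (e3 : G.Adj a b) (e4 : G.Adj v c) (e5 : G.Adj v d)
    (e6 : G.Adj c d) (n1 : a ≠ c) (n2 : a ≠ d) (n3 : b ≠ c) (n4 : b ≠ d) {i : Fin m}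
    (hi : Nt F i) (h1 : s(v, a) ∈ F i) (h2 : s(v, c) ∈ F i) :
    ∃ j, Nt F j ∧ j ≠ i ∧ s(v, b) ∈ F j ∧ s(v, d) ∈ F j := by
  obtain ⟨hvB, hd, ht⟩ := hv
  have hne : s(v, b) ∉ F i := by
    intro h3
    rcases face_two hF n1 h1 h2 h3 with h4 | h4
    · exact e3.ne h4.symm
    · exact n3 h4
  obtain ⟨j, hj, hbj⟩ := te_nt h hF (a := v) (b := b) ⟨e2, a, e1, e3.symm⟩
  have hji : j ≠ i := by
    rintro rfl
    exact hne hbj
  obtain ⟨x, hxb, hx, hvx⟩ := face_next hF hbj
  rcases nb4 hd e1 e2 e4 e5 e3.ne n1 n2 n3 n4 e6.ne hvx with h5 | h5 | h5 | h5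
  · subst h5
    exact absurd e3.symm (nt_short h hF hj (by omega) hxb.symm hbj hx)
  · exact absurd h5 hxb
  · subst h5
    exact absurd (te_nt_unique h hF (a := v) (b := x) ⟨e4, d, e5, e6⟩ hj hi hx h2) hji
  · subst h5
    exact ⟨j, hj, hji, hbj, hx⟩

/-- `F12` with triangle `v a b` and weak neighbours `x`, `y`: if a face has the edges `v a`,
`v x` then there are faces with `v b`, `v y` and with `v x`, `v y` -/
theorem F12.opp (h : MinCE G B) (hF : Faces G F) {v a b x y : V} (hv : F12 G B v)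
    (e1 : G.Adj v a) (e2 : G.Adj v b) (e3 : G.Adj a b) (w1 : WE G v x) (w2 : WE G v y)
    (hxy : x ≠ y) {i : Fin m} (h1 : s(v, a) ∈ F i) (h2 : s(v, x) ∈ F i) :
    (∃ j, s(v, b) ∈ F j ∧ s(v, y) ∈ F j) ∧ ∃ j, s(v, x) ∈ F j ∧ s(v, y) ∈ F j := by
  obtain ⟨hvB, hd, ht⟩ := hv
  have ta : TE G v a := ⟨e1, b, e2, e3⟩
  have tb : TE G v b := ⟨e2, a, e1, e3.symm⟩
  have nax : a ≠ x := by
    rintro rfl
    exact ta.not_we w1
  have nay : a ≠ y := by
    rintro rfl
    exact ta.not_we w2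
  have nbx : b ≠ x := by
    rintro rfl
    exact tb.not_we w1
  have nby : b ≠ y := by
    rintro rfl
    exact tb.not_we w2
  have nbs : ∀ u, G.Adj v u → u = a ∨ u = b ∨ u = x ∨ u = y := fun u hu =>
    nb4 hd e1 e2 w1.1 w2.1 e3.ne nax nay nbx nby hxy hu
  have hi : Nt F i := we_nt h hF w1 h2
  have hyi : s(v, y) ∉ F i := by
    intro h3
    rcases face_two hF nax h1 h2 h3 with h4 | h4
    · exact nay h4.symm
    · exact hxy h4.symm
  have hbi : s(v, b) ∉ F i := by
    intro h3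
    rcases face_two hF nax h1 h2 h3 with h4 | h4
    · exact e3.ne h4.symm
    · exact nbx h4
  obtain ⟨j, hj, hbj⟩ := te_nt h hF tb
  have hji : j ≠ i := by
    rintro rfl
    exact hbi hbj
  have key1 : s(v, y) ∈ F j := by
    obtain ⟨z, hzb, hz, hvz⟩ := face_next hF hbj
    rcases nbs z hvz with h5 | h5 | h5 | h5
    · subst h5
      exact absurd e3.symm (nt_short h hF hj (by omega) hzb.symm hbj hz)
    · exact absurd h5 hzb
    · exfalso
      subst h5
      have hyj : s(v, y) ∉ F j := by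
        intro h3
        rcases face_two hF hzb.symm hbj hz h3 with h4 | h4
        · exact nby h4.symm
        · exact hxy h4.symm
      obtain ⟨k, hk⟩ := exists_face hF w2.1
      obtain ⟨t, hty, ht', hvt⟩ := face_next hF hk
      have hkN : Nt F k := we_nt h hF w2 hk
      rcases nbs t hvt with h6 | h6 | h6 | h6
      · subst h6
        have : k = i := te_nt_unique h hF ta hkN hi ht' h1
        exact hyi (this ▸ hk)
      · subst h6
        have : k = j := te_nt_unique h hF tb hkN hj ht' hbj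
        exact hyj (this ▸ hk)
      · subst h6
        obtain ⟨l, hli, hl, hall⟩ := second hF h2
        have hjl : j = l := (hall j hz).resolve_left hji
        rcases hall k ht' with h7 | h7
        · exact hyi (h7 ▸ hk)
        · exact hyj (hjl ▸ h7 ▸ hk)
      · exact hty h6
    · subst h5
      exact hz
  refine ⟨⟨j, hbj, key1⟩, ?_⟩
  obtain ⟨k, hki, hk, -⟩ := second hF h2
  obtain ⟨z, hzx, hz, hvz⟩ := face_next hF hk
  have hkN : Nt F k := we_nt h hF w1 hk
  rcases nbs z hvz with h5 | h5 | h5 | h5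
  · subst h5
    exact absurd (te_nt_unique h hF ta hkN hi hz h1) hki
  · exfalso
    subst h5
    have hkj : k = j := te_nt_unique h hF tb hkN hj hz hbj
    rcases face_two hF nby hbj key1 (hkj ▸ hk) with h4 | h4
    · exact nbx h4.symm
    · exact hxy h4
  · exact absurd h5 hzx
  · subst h5
    exact ⟨k, hk, hz⟩

/-- `F12`: the weak neighbours can be named such that there are faces with `v a`, `v x`, with
`v b`, `v y` and with `v x`, `v y` -/
theorem F12.faces (h : MinCE G B) (hF : Faces G F) {v a b : V} (hv : F12 G B v)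
    (e1 : G.Adj v a) (e2 : G.Adj v b) (e3 : G.Adj a b) : ∃ x y, x ≠ y ∧ WE G v x ∧ WE G v y ∧
    (∀ c, WE G v c → c = x ∨ c = y) ∧ (∃ j, s(v, a) ∈ F j ∧ s(v, x) ∈ F j) ∧
    (∃ j, s(v, b) ∈ F j ∧ s(v, y) ∈ F j) ∧ ∃ j, s(v, x) ∈ F j ∧ s(v, y) ∈ F j := by
  obtain ⟨x, y, hxy, w1, w2, hw⟩ := F12.weak h hv
  have ta : TE G v a := ⟨e1, b, e2, e3⟩
  have tb : TE G v b := ⟨e2, a, e1, e3.symm⟩
  have nax : a ≠ x := by
    rintro rfl
    exact ta.not_we w1
  have nay : a ≠ y := by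
    rintro rfl
    exact ta.not_we w2
  have nbx : b ≠ x := by
    rintro rfl
    exact tb.not_we w1
  have nby : b ≠ y := by
    rintro rfl
    exact tb.not_we w2
  obtain ⟨i, hi, hai⟩ := te_nt h hF ta
  obtain ⟨z, hza, hz, hvz⟩ := face_next hF hai
  rcases nb4 hv.2.1 e1 e2 w1.1 w2.1 e3.ne nax nay nbx nby hxy hvz with h5 | h5 | h5 | h5
  · exact absurd h5 hza
  · subst h5
    exact absurd e3 (nt_short h hF hi (by have := hv.2.1; omega) hza.symm hai hz)
  · subst h5
    exact ⟨z, y, hxy, w1, w2, hw, ⟨i, hai, hz⟩, F12.opp h hF hv e1 e2 e3 w1 w2 hxy hai hz⟩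
  · subst h5
    exact ⟨z, x, hxy.symm, w2, w1, fun c hc => (hw c hc).symm, ⟨i, hai, hz⟩,
      F12.opp h hF hv e1 e2 e3 w2 w1 hxy.symm hai hz⟩

/-- `One` with triangle `v a b` and weak neighbour `z`: faces with `v a`, `v z` and with `v b`,
`v z` -/
theorem One.faces (h : MinCE G B) (hF : Faces G F) {v a b z : V} (hv : One G B v)
    (e1 : G.Adj v a) (e2 : G.Adj v b) (e3 : G.Adj a b) (w : WE G v z) :
    (∃ j, s(v, a) ∈ F j ∧ s(v, z) ∈ F j) ∧ ∃ j, s(v, b) ∈ F j ∧ s(v, z) ∈ F j := by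
  obtain ⟨hvB, hd, ht⟩ := hv
  have key : ∀ a b : V, G.Adj v a → G.Adj v b → G.Adj a b →
      ∃ j, s(v, a) ∈ F j ∧ s(v, z) ∈ F j := by
    intro a b e1 e2 e3
    have ta : TE G v a := ⟨e1, b, e2, e3⟩
    have tb : TE G v b := ⟨e2, a, e1, e3.symm⟩
    have naz : a ≠ z := by
      rintro rfl
      exact ta.not_we w
    have nbz : b ≠ z := by
      rintro rfl
      exact tb.not_we w
    obtain ⟨i, hi, hai⟩ := te_nt h hF ta
    obtain ⟨x, hxa, hx, hvx⟩ := face_next hF hai
    rcases nb3 hd e1 e2 w.1 e3.ne naz nbz hvx with h5 | h5 | h5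
    · exact absurd h5 hxa
    · subst h5
      exact absurd e3 (nt_short h hF hi (by omega) hxa.symm hai hx)
    · subst h5
      exact ⟨i, hai, hx⟩
  exact ⟨key a b e1 e2 e3, key b a e2 e1 e3.symm⟩

/-- `Ex2`: exactly one face has a T-T-corner -/
theorem Ex2.tt (h : MinCE G B) (hF : Faces G F) {g : V} (hg : Ex2 G B g) :
    ∃ i, TT G F g i ∧ ∀ j, TT G F g j → j = i := by
  obtain ⟨hgB, hd, ht, -⟩ := hg
  have c1 := card_wn h g
  have c2 := card_tn h g
  rw [ht] at c1 c2
  rw [hd] at c1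
  obtain ⟨n, hn⟩ := card_eq_one.1 (show (wn G g).card = 1 by omega)
  have hnw : WE G g n := by
    rw [← mem_wn, hn]
    exact mem_singleton_self n
  have huniq : ∀ u, WE G g u → u = n := by
    intro u hu
    rw [← mem_wn, hn, mem_singleton] at hu
    exact hu
  obtain ⟨i1, h1⟩ := exists_face hF hnw.1
  obtain ⟨i2, h12, h2, hall⟩ := second hF h1
  obtain ⟨y1, hy1n, hy1, hgy1⟩ := face_next hF h1
  obtain ⟨y2, hy2n, hy2, hgy2⟩ := face_next hF h2
  have hy12 : y1 ≠ y2 := by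
    rintro rfl
    exact h12 (corner_face h hF (by omega) hy2n.symm h2 hy2 h1 hy1)
  have ty1 : TE G g y1 := by
    rcases te_or_we hgy1 with h3 | h3
    · exact h3
    · exact absurd (huniq _ h3) hy1n
  have ty2 : TE G g y2 := by
    rcases te_or_we hgy2 with h3 | h3
    · exact h3
    · exact absurd (huniq _ h3) hy2n
  have hN1 : Nt F i1 := we_nt h hF hnw h1
  have hN2 : Nt F i2 := we_nt h hF hnw h2
  -- a face with a triangle edge different from `y1`, `y2` is different from `i1`, `i2`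
  have key1 : ∀ x, TE G g x → x ≠ y1 → s(g, x) ∉ F i1 := by
    intro x hx hne hmem
    rcases face_two hF hy1n.symm h1 hy1 hmem with h4 | h4
    · subst h4
      exact hx.not_we hnw
    · exact hne h4
  have key2 : ∀ x, TE G g x → x ≠ y2 → s(g, x) ∉ F i2 := by
    intro x hx hne hmem
    rcases face_two hF hy2n.symm h2 hy2 hmem with h4 | h4
    · subst h4
      exact hx.not_we hnw
    · exact hne h4
  have hsub : ({y1, y2} : Finset V) ⊆ tn G g := by
    intro x hx
    rw [mem_insert, mem_singleton] at hx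
    rcases hx with rfl | rfl
    · exact mem_tn.2 ty1
    · exact mem_tn.2 ty2
  have hcard : (tn G g \ {y1, y2}).card = 2 := by
    rw [card_sdiff_of_subset hsub, card_pair hy12, c2]
  obtain ⟨p, q, hpq, hPQ⟩ := card_eq_two.1 hcard
  have hmem : ∀ x, (TE G g x ∧ x ≠ y1 ∧ x ≠ y2) ↔ x = p ∨ x = q := by
    intro x
    have h3 : x ∈ tn G g \ {y1, y2} ↔ x ∈ ({p, q} : Finset V) := by rw [hPQ]
    rw [mem_sdiff, mem_tn, mem_insert, mem_singleton, mem_insert, mem_singleton, not_or] at h3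
    exact h3
  obtain ⟨tp, hp1, hp2⟩ := (hmem p).2 (Or.inl rfl)
  obtain ⟨tq, hq1, hq2⟩ := (hmem q).2 (Or.inr rfl)
  obtain ⟨j, hj, hpj⟩ := te_nt h hF tp
  have hj1 : j ≠ i1 := by
    rintro rfl
    exact key1 p tp hp1 hpj
  have hj2 : j ≠ i2 := by
    rintro rfl
    exact key2 p tp hp2 hpj
  obtain ⟨r, hrp, hr, hgr⟩ := face_next hF hpj
  have tr : TE G g r := by
    rcases te_or_we hgr with h3 | h3
    · exact h3
    · exfalso
      have h4 := huniq r h3
      subst h4
      rcases hall j hr with h5 | h5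
      · exact hj1 h5
      · exact hj2 h5
  have hr1 : r ≠ y1 := by
    rintro rfl
    exact hj1 (te_nt_unique h hF tr hj hN1 hr hy1)
  have hr2 : r ≠ y2 := by
    rintro rfl
    exact hj2 (te_nt_unique h hF tr hj hN2 hr hy2)
  have hrq : r = q := ((hmem r).1 ⟨tr, hr1, hr2⟩).resolve_left hrp
  subst hrq
  refine ⟨j, ⟨hj, p, r, hpq, tp, tr, hpj, hr⟩, ?_⟩
  rintro k ⟨hk, b, c, hbc, tb, tc, hb, hc⟩
  have hb1 : b ≠ y1 := by
    rintro rfl
    have hki : k = i1 := te_nt_unique h hF tb hk hN1 hb hy1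
    exact key1 c tc hbc.symm (hki ▸ hc)
  have hb2 : b ≠ y2 := by
    rintro rfl
    have hki : k = i2 := te_nt_unique h hF tb hk hN2 hb hy2
    exact key2 c tc hbc.symm (hki ▸ hc)
  rcases (hmem b).1 ⟨tb, hb1, hb2⟩ with h5 | h5
  · subst h5
    exact te_nt_unique h hF tb hk hj hb hpj
  · subst h5
    exact te_nt_unique h hF tb hk hj hb hr

/-! ### rings -/

theorem Ring.mem (hR : Ring G F i n c) (j : ZMod n) : s(c j, c (j + 1)) ∈ F i := by
  rw [hR.eq]
  exact cyc_mem j

theorem Ring.mem' (hR : Ring G F i n c) (j : ZMod n) : s(c j, c (j - 1)) ∈ F i := by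
  have h1 := cyc_mem' (c := c) (j - 1)
  rw [sub_add_cancel] at h1
  rw [hR.eq]
  exact h1

theorem Ring.adj (hR : Ring G F i n c) (j : ZMod n) : G.Adj (c j) (c (j + 1)) :=
  hR.cyc.2 j

theorem Ring.adj' (hR : Ring G F i n c) (j : ZMod n) : G.Adj (c j) (c (j - 1)) := by
  have h1 := hR.cyc.2 (j - 1)
  rw [sub_add_cancel] at h1
  exact h1.symm

theorem Ring.card (hR : Ring G F i n c) (hn : 3 ≤ n) : (F i).card = n := by
  rw [hR.eq]
  exact card_cyc hn hR.cyc

theorem Ring.nt (hR : Ring G F i n c) (hn : 4 ≤ n) : Nt F i := by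
  intro h3
  have h4 := Ring.card hR (by omega)
  omega

/-- the edges of the face are ring edges -/
theorem Ring.edge (hR : Ring G F i n c) {a b : V} (hab : s(a, b) ∈ F i) :
    ∃ j, a = c j ∧ (b = c (j + 1) ∨ b = c (j - 1)) := by
  rw [hR.eq] at hab
  obtain ⟨l, hl⟩ := mem_cycEdges.1 hab
  rcases Sym2.eq_iff.1 hl with ⟨h1, h2⟩ | ⟨h1, h2⟩
  · exact ⟨l, h1.symm, Or.inl h2.symm⟩
  · exact ⟨l + 1, h2.symm, Or.inr (by rw [add_sub_cancel_right]; exact h1.symm)⟩

theorem Ring.next (hn : 3 ≤ n) (hR : Ring G F i n c) {j : ZMod n} {b : V}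
    (hab : s(c j, b) ∈ F i) : b = c (j + 1) ∨ b = c (j - 1) := by
  obtain ⟨k, h1, h2⟩ := Ring.edge hR hab
  rw [hR.cyc.1 h1]
  exact h2

theorem Ring.ne (hn : 6 ≤ n) (hR : Ring G F i n c) (j : ZMod n) : c (j - 1) ≠ c (j + 1) := by
  intro h1
  have h2 := hR.cyc.1 h1
  have e3 : (2 : ZMod n) = 0 := by
    have h3 : (j + 1) - (j - 1) = 0 := by rw [h2, sub_self]
    calc (2 : ZMod n) = (j + 1) - (j - 1) := by ring
      _ = 0 := h3
  have e4 : ((2 : ℕ) : ZMod n) = 0 := by exact_mod_cast e3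
  rw [ZMod.natCast_eq_zero_iff] at e4
  have := Nat.le_of_dvd (by norm_num) e4
  omega

theorem Ring.short (h : MinCE G B) (hF : Faces G F) (hn : 6 ≤ n) (hR : Ring G F i n c)
    {j : ZMod n} (hd : 3 ≤ dg G (c j)) : ¬ G.Adj (c (j - 1)) (c (j + 1)) :=
  nt_short h hF (Ring.nt hR (by omega)) hd (Ring.ne hn hR j) (Ring.mem' hR j) (Ring.mem hR j)

/-- rotation -/
theorem Ring.rot (hR : Ring G F i n c) (j : ZMod n) : Ring G F i n (fun t => c (j + t)) := by
  refine ⟨⟨fun x y hxy => add_left_cancel (hR.cyc.1 hxy), fun t => ?_⟩, ?_⟩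
  · show G.Adj (c (j + t)) (c (j + (t + 1)))
    rw [← add_assoc]
    exact hR.cyc.2 (j + t)
  · rw [hR.eq]
    ext e
    rw [mem_cycEdges, mem_cycEdges]
    constructor
    · rintro ⟨l, rfl⟩
      refine ⟨l - j, ?_⟩
      show s(c (j + (l - j)), c (j + (l - j + 1))) = s(c l, c (l + 1))
      rw [← add_assoc, add_sub_cancel]
    · rintro ⟨l, rfl⟩
      refine ⟨j + l, ?_⟩
      show s(c (j + l), c (j + l + 1)) = s(c (j + l), c (j + (l + 1)))
      rw [add_assoc]

/-- reflection -/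
theorem Ring.refl (hR : Ring G F i n c) (j : ZMod n) : Ring G F i n (fun t => c (j - t)) := by
  refine ⟨⟨fun x y hxy => sub_right_injective (hR.cyc.1 hxy), fun t => ?_⟩, ?_⟩
  · show G.Adj (c (j - t)) (c (j - (t + 1)))
    rw [← sub_sub]
    exact Ring.adj' hR (j - t)
  · rw [hR.eq]
    ext e
    rw [mem_cycEdges, mem_cycEdges]
    constructor
    · rintro ⟨l, rfl⟩
      refine ⟨j - l - 1, ?_⟩
      show s(c (j - (j - l - 1)), c (j - (j - l - 1 + 1))) = s(c l, c (l + 1))
      have e1 : j - (j - l - 1) = l + 1 := by ring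
      have e2 : j - (j - l - 1 + 1) = l := by ring
      rw [e1, e2, Sym2.eq_swap]
    · rintro ⟨l, rfl⟩
      refine ⟨j - l - 1, ?_⟩
      show s(c (j - l - 1), c (j - l - 1 + 1)) = s(c (j - l), c (j - (l + 1)))
      have e1 : j - l - 1 + 1 = j - l := by ring
      have e2 : j - (l + 1) = j - l - 1 := by ring
      rw [e1, e2, Sym2.eq_swap]

end Pool.Agent.Lib.SVY
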