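import Pool.Agent.Lib.SVY.RingC
import Pool.Agent.Lib.SVY.RingN
import Pool.Agent.Lib.SVY.RedOk1
import Pool.Agent.Lib.SVY.RedOk2

/-!
# SVY.CodesA: reducible 6-faces

The fields `a1`, `a2`, `f1a`, `f1b`, `vv`, `fnnf`, `f3`, `f0` of `CF`.
-/

set_option autoImplicit false
set_option linter.unusedSectionVars false

namespace Pool.Agent.Lib.SVY

open Finset Pool.Agent.Lib.SVT Pool.Agent.Lib.SVX

variable {V : Type*} [Fintype V] [DecidableEq V] {G : SimpleGraph V} {B : Finset V}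
variable {m : ℕ} {F : Fin m → Finset (Sym2 V)}

namespace CodesAAux

theorem z6 (j : ZMod 6) : j = 0 ∨ j = 1 ∨ j = 2 ∨ j = 3 ∨ j = 4 ∨ j = 5 := by
  decide +revert

theorem dm_deg {v : V} (hv : Dm G B v) : v ∉ B ∧ dg G v = 3 := by
  rcases hv with h | h
  · exact ⟨h.1, h.2.1⟩
  · exact ⟨h.1.1, h.1.2.1⟩

theorem sm_deg {v : V} (hv : Sm G B v) : v ∉ B ∧ dg G v ≤ 4 := by
  have h1 : ¬ Big G B v := fun h => hv.1 (Or.inl h)
  unfold Big at h1
  push Not at h1
  refine ⟨h1.1, ?_⟩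
  by_contra hc
  exact hv.2 (h1.2 (by omega))

theorem npay_ndm {v : V} (hv : Npay G B v) : ¬ Dm G B v := by
  intro h1
  have h2 := (dm_deg h1).2
  rw [hv.1.2.1] at h2
  omega

/-- the second weak neighbour of an `Npay` vertex -/
theorem npay_other {v w : V} (hv : Npay G B v) (hnd : ¬ Dm G B w) :
    ∃ x, x ≠ w ∧ WE G v x ∧ Dm G B x := by
  have h1 := hv.2.2
  unfold Free at h1
  push Not at h1
  obtain ⟨x, h2, h3⟩ := h1 hv.1
  refine ⟨x, ?_, h2, h3⟩
  rintro rfl
  exact hnd h3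

/-- the second weak neighbour of a `P1c` vertex -/
theorem p1c_other (h : MinCE G B) {v w : V} (hv : P1c G B v) :
    ∃ x, x ≠ w ∧ WE G v x ∧ One G B x := by
  obtain ⟨a, b, hab, ha, hb, -⟩ := F12.weak h hv.1
  by_cases e : a = w
  · exact ⟨b, by rw [← e]; exact hab.symm, hb, hv.2 b hb⟩
  · exact ⟨a, e, ha, hv.2 a ha⟩

end CodesAAux

open CodesAAux

theorem code_a1r (h : MinCE G B) (hF : Faces G F) {i : Fin m} {c : ZMod 6 → V}
    (hR : Ring G F i 6 c) (k1 : OneP G B (c 1)) (k2 : OneP G B (c 2)) (k0 : FF G B (c 0))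
    (k3 : FF G B (c 3)) (k4 : FF G B (c 4)) (k5 : FF G B (c 5))
    (hs : Sm G B (apx G (c 5) (c 0))) : False := by
  have t0 : TE G (c 0) (c 1) := FF.te h k0 (hR.cyc.2 0)
  have t2 : TE G (c 2) (c 3) := FF.te' h k3 (hR.cyc.2 2)
  have t3 : TE G (c 3) (c 4) := FF.te h k3 (hR.cyc.2 3)
  have t4 : TE G (c 4) (c 5) := FF.te h k4 (hR.cyc.2 4)
  have t5 : TE G (c 5) (c 0) := FF.te h k5 (hR.cyc.2 5)
  have hte : ∀ j, RD.rA1_te j = true → TE G (c j) (c (j + 1)) := by
    intro j hj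
    rcases z6 j with rfl | rfl | rfl | rfl | rfl | rfl
    · exact t0
    · exact absurd hj (by decide)
    · exact t2
    · exact t3
    · exact t4
    · exact t5
  have hd : ∀ j, 3 ≤ dg G (c j) := by
    intro j
    rcases z6 j with rfl | rfl | rfl | rfl | rfl | rfl
    · rw [k0.2.1]; omega
    · rw [k1.1.2.1]
    · rw [k2.1.2.1]
    · rw [k3.2.1]; omega
    · rw [k4.2.1]; omega
    · rw [k5.2.1]; omega
  have ho : Occ G c RD.rA1_l (rsem G c (fun _ => c 0) (fun _ _ => c 0)) := by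
    refine rsem_occ h hR ?_ ?_ ?_ ?_ ?_
    · intro j hj
      apply hte
      rcases z6 j with rfl | rfl | rfl | rfl | rfl | rfl
      · rfl
      · exact absurd hj (by decide)
      all_goals rfl
    · intro j hj
      exfalso
      revert hj
      simp [RD.rA1_l]
    · intro j hj
      exfalso
      revert hj
      simp [RD.rA1_l]
    · intro j a hj
      exfalso
      revert hj
      simp [RD.rA1_l]
    · intro j a b hj
      exfalso
      revert hj
      simp [RD.rA1_l]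
  refine ring_code (D := fun a => if a = 1 ∨ a = 2 then 3 else 4) h hF hR hd RD.rA1_adm
    RD.rA1_ok RD.rA1_rchk (by decide) rfl (by decide) ho hte ?_ ?_
  · intro a b ha hb hab hn
    have h1 := echkN_sound (cf := RD.rA1) (l := RD.rA1_l) (by decide) ha hb hab
    rw [hn] at h1
    exact absurd h1 (by decide)
  · intro a ha hiH
    have ha' : a < 11 := ha
    interval_cases a
    · exact ⟨k0.1, k0.2.1.le⟩
    · exact ⟨k1.1.1, k1.1.2.1.le⟩
    · exact ⟨k2.1.1, k2.1.2.1.le⟩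
    · exact ⟨k3.1, k3.2.1.le⟩
    · exact ⟨k4.1, k4.2.1.le⟩
    · exact ⟨k5.1, k5.2.1.le⟩
    · exact absurd hiH (by decide)
    · exact absurd hiH (by decide)
    · exact absurd hiH (by decide)
    · exact absurd hiH (by decide)
    · exact sm_deg hs

theorem code_a1 (h : MinCE G B) (hF : Faces G F) : ∀ i (c : ZMod 6 → V), Ring G F i 6 c →
    OneP G B (c 0) → OneP G B (c 1) →
    WE G (c 0) (c 1) → FF G B (c 2) → FF G B (c 3) → FF G B (c 4) → FF G B (c 5) →
    Sm G B (apx G (c 2) (c 3)) → False := by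
  intro i c hR k0 k1 _ k2 k3 k4 k5 hs
  have t2 : TE G (c 2) (c 3) := FF.te h k2 (hR.cyc.2 2)
  rw [apx_symm h t2] at hs
  exact code_a1r h hF (c := fun t => c (2 - t)) (Ring.refl hR 2) k1 k0 k2 k5 k4 k3 hs

theorem code_a2r (h : MinCE G B) (hF : Faces G F) {i : Fin m} {c : ZMod 6 → V}
    (hR : Ring G F i 6 c) (k1 : OneP G B (c 1)) (k2 : OneP G B (c 2)) (k0 : FF G B (c 0))
    (k3 : FF G B (c 3)) (k4 : FF G B (c 4)) (k5 : FF G B (c 5))
    (hs : Sm G B (apx G (c 0) (c 1))) (hs' : Sm G B (apx G (c 2) (c 3))) : False := by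
  have t0 : TE G (c 0) (c 1) := FF.te h k0 (hR.cyc.2 0)
  have t2 : TE G (c 2) (c 3) := FF.te' h k3 (hR.cyc.2 2)
  have t3 : TE G (c 3) (c 4) := FF.te h k3 (hR.cyc.2 3)
  have t4 : TE G (c 4) (c 5) := FF.te h k4 (hR.cyc.2 4)
  have t5 : TE G (c 5) (c 0) := FF.te h k5 (hR.cyc.2 5)
  have hte : ∀ j, RD.rA2_te j = true → TE G (c j) (c (j + 1)) := by
    intro j hj
    rcases z6 j with rfl | rfl | rfl | rfl | rfl | rfl
    · exact t0
    · exact absurd hj (by decide)
    · exact t2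
    · exact t3
    · exact t4
    · exact t5
  have hd : ∀ j, 3 ≤ dg G (c j) := by
    intro j
    rcases z6 j with rfl | rfl | rfl | rfl | rfl | rfl
    · rw [k0.2.1]; omega
    · rw [k1.1.2.1]
    · rw [k2.1.2.1]
    · rw [k3.2.1]; omega
    · rw [k4.2.1]; omega
    · rw [k5.2.1]; omega
  have ho : Occ G c RD.rA2_l (rsem G c (fun _ => c 0) (fun _ _ => c 0)) := by
    refine rsem_occ h hR ?_ ?_ ?_ ?_ ?_
    · intro j hj
      apply hte
      rcases z6 j with rfl | rfl | rfl | rfl | rfl | rfl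
      · rfl
      · exact absurd hj (by decide)
      all_goals rfl
    · intro j hj
      exfalso
      revert hj
      simp [RD.rA2_l]
    · intro j hj
      exfalso
      revert hj
      simp [RD.rA2_l]
    · intro j a hj
      exfalso
      revert hj
      simp [RD.rA2_l]
    · intro j a b hj
      exfalso
      revert hj
      simp [RD.rA2_l]
  refine ring_code (D := fun a => if a = 1 ∨ a = 2 then 3 else 4) h hF hR hd RD.rA2_adm
    RD.rA2_ok RD.rA2_rchk (by decide) rfl (by decide) ho hte ?_ ?_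
  · intro a b ha hb hab hn
    have h1 := echkN_sound (cf := RD.rA2) (l := RD.rA2_l) (by decide) ha hb hab
    rw [hn] at h1
    exact absurd h1 (by decide)
  · intro a ha hiH
    have ha' : a < 11 := ha
    interval_cases a
    · exact ⟨k0.1, k0.2.1.le⟩
    · exact ⟨k1.1.1, k1.1.2.1.le⟩
    · exact ⟨k2.1.1, k2.1.2.1.le⟩
    · exact ⟨k3.1, k3.2.1.le⟩
    · exact ⟨k4.1, k4.2.1.le⟩
    · exact ⟨k5.1, k5.2.1.le⟩
    · exact sm_deg hs
    · exact sm_deg hs'
    · exact absurd hiH (by decide)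
    · exact absurd hiH (by decide)
    · exact absurd hiH (by decide)

theorem code_a2 (h : MinCE G B) (hF : Faces G F) : ∀ i (c : ZMod 6 → V), Ring G F i 6 c →
    OneP G B (c 0) → OneP G B (c 1) →
    WE G (c 0) (c 1) → FF G B (c 2) → FF G B (c 3) → FF G B (c 4) → FF G B (c 5) →
    Sm G B (apx G (c 1) (c 2)) → Sm G B (apx G (c 5) (c 0)) → False := by
  intro i c hR k0 k1 _ k2 k3 k4 k5 hs hs'
  exact code_a2r h hF (c := fun t => c (5 + t)) (Ring.rot hR 5) k0 k1 k5 k2 k3 k4 hs' hs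

/-- the names with one pendant path -/
theorem f1_occ (h : MinCE G B) {i : Fin m} {c : ZMod 6 → V} (hR : Ring G F i 6 c)
    (hk : ∀ j, FF G B (c j)) {z : V} (hz : WE G (apx G (c 5) (c 0)) z) {l : List Nm}
    (hl : l = [.rg 0, .rg 1, .rg 2, .rg 3, .rg 4, .rg 5, .ax 5, .ax 0, .ax 1, .ax 2, .ax 3,
      .ax 4, .sc 5]) : Occ G c l (rsem G c (fun _ => z) (fun _ _ => c 0)) := by
  have ht : ∀ j, TE G (c j) (c (j + 1)) := fun j => FF.te h (hk j) (hR.cyc.2 j)
  subst hl
  refine rsem_occ h hR (fun j _ => ht j) ?_ ?_ ?_ ?_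
  · intro j hj
    have e : j = 5 := by
      revert hj
      simp
    subst e
    exact ⟨by decide, hz⟩
  · intro j _ _
    have h1 := ht (j + 1)
    have e : j + 1 + 1 = j + 2 := by ring
    rwa [e] at h1
  · intro j a hj
    exfalso
    revert hj
    simp
  · intro j a b hj
    exfalso
    revert hj
    simp

theorem code_f1a (h : MinCE G B) (hF : Faces G F) : ∀ i (c : ZMod 6 → V), Ring G F i 6 c →
    (∀ j, FF G B (c j)) →
    OneP G B (apx G (c 5) (c 0)) → Sm G B (apx G (c 1) (c 2)) → False := by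
  intro i c hR hk hv hs
  have ht : ∀ j, TE G (c j) (c (j + 1)) := fun j => FF.te h (hk j) (hR.cyc.2 j)
  obtain ⟨z, hz, hz1⟩ := hv.2
  have hd : ∀ j, 3 ≤ dg G (c j) := by
    intro j
    rw [(hk j).2.1]
    omega
  refine ring_code (D := fun a => if a ≤ 5 then 4 else if a = 8 then 4 else 3) h hF hR hd
    RD.rF1a_adm RD.rF1a_ok RD.rF1a_rchk (by decide) rfl (by decide)
    (f1_occ h hR hk hz rfl) (fun j _ => ht j) ?_ ?_
  · intro a b ha hb hab hn
    have h1 := echkN_sound (cf := RD.rF1a) (l := RD.rF1a_l) (by decide) ha hb hab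
    rw [hn] at h1
    exact absurd h1 (by decide)
  · intro a ha hiH
    have ha' : a < 13 := ha
    interval_cases a
    · exact ⟨(hk 0).1, (hk 0).2.1.le⟩
    · exact ⟨(hk 1).1, (hk 1).2.1.le⟩
    · exact ⟨(hk 2).1, (hk 2).2.1.le⟩
    · exact ⟨(hk 3).1, (hk 3).2.1.le⟩
    · exact ⟨(hk 4).1, (hk 4).2.1.le⟩
    · exact ⟨(hk 5).1, (hk 5).2.1.le⟩
    · exact ⟨hv.1.1, hv.1.2.1.le⟩
    · exact absurd hiH (by decide)
    · exact sm_deg hs
    · exact absurd hiH (by decide)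
    · exact absurd hiH (by decide)
    · exact absurd hiH (by decide)
    · exact ⟨hz1.1, hz1.2.1.le⟩

theorem code_f1b (h : MinCE G B) (hF : Faces G F) : ∀ i (c : ZMod 6 → V), Ring G F i 6 c →
    (∀ j, FF G B (c j)) →
    OneP G B (apx G (c 5) (c 0)) → Sm G B (apx G (c 2) (c 3)) → False := by
  intro i c hR hk hv hs
  have ht : ∀ j, TE G (c j) (c (j + 1)) := fun j => FF.te h (hk j) (hR.cyc.2 j)
  obtain ⟨z, hz, hz1⟩ := hv.2
  have hd : ∀ j, 3 ≤ dg G (c j) := by
    intro j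
    rw [(hk j).2.1]
    omega
  refine ring_code (D := fun a => if a ≤ 5 then 4 else if a = 9 then 4 else 3) h hF hR hd
    RD.rF1b_adm RD.rF1b_ok RD.rF1b_rchk (by decide) rfl (by decide)
    (f1_occ h hR hk hz rfl) (fun j _ => ht j) ?_ ?_
  · intro a b ha hb hab hn
    have h1 := echkN_sound (cf := RD.rF1b) (l := RD.rF1b_l) (by decide) ha hb hab
    rw [hn] at h1
    exact absurd h1 (by decide)
  · intro a ha hiH
    have ha' : a < 13 := ha
    interval_cases a
    · exact ⟨(hk 0).1, (hk 0).2.1.le⟩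
    · exact ⟨(hk 1).1, (hk 1).2.1.le⟩
    · exact ⟨(hk 2).1, (hk 2).2.1.le⟩
    · exact ⟨(hk 3).1, (hk 3).2.1.le⟩
    · exact ⟨(hk 4).1, (hk 4).2.1.le⟩
    · exact ⟨(hk 5).1, (hk 5).2.1.le⟩
    · exact ⟨hv.1.1, hv.1.2.1.le⟩
    · exact absurd hiH (by decide)
    · exact absurd hiH (by decide)
    · exact sm_deg hs
    · exact absurd hiH (by decide)
    · exact absurd hiH (by decide)
    · exact ⟨hz1.1, hz1.2.1.le⟩

theorem code_vv (h : MinCE G B) (hF : Faces G F) : ∀ i (c : ZMod 6 → V), Ring G F i 6 c →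
    (∀ j, FF G B (c j)) →
    OneP G B (apx G (c 5) (c 0)) → OneP G B (apx G (c 2) (c 3)) → False := by
  intro i c hR hk hv hv'
  have ht : ∀ j, TE G (c j) (c (j + 1)) := fun j => FF.te h (hk j) (hR.cyc.2 j)
  obtain ⟨z, hz, hz1⟩ := hv.2
  obtain ⟨z', hz', hz1'⟩ := hv'.2
  have hd : ∀ j, 3 ≤ dg G (c j) := by
    intro j
    rw [(hk j).2.1]
    omega
  have ho : Occ G c RD.rD4_l (rsem G c (fun j => if j = 5 then z else z') (fun _ _ => c 0)) := by
    refine rsem_occ h hR (fun j _ => ht j) ?_ ?_ ?_ ?_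
    · intro j hj
      have e : j = 2 ∨ j = 5 := by
        revert hj
        simp [RD.rD4_l]
      rcases e with rfl | rfl
      · exact ⟨by decide, hz'⟩
      · exact ⟨by decide, hz⟩
    · intro j _ _
      have h1 := ht (j + 1)
      have e : j + 1 + 1 = j + 2 := by ring
      rwa [e] at h1
    · intro j a hj
      exfalso
      revert hj
      simp [RD.rD4_l]
    · intro j a b hj
      exfalso
      revert hj
      simp [RD.rD4_l]
  refine ring_code (D := fun a => if a ≤ 5 then 4 else 3) h hF hR hd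
    RD.rD4_adm RD.rD4_ok RD.rD4_rchk (by decide) rfl (by decide) ho (fun j _ => ht j) ?_ ?_
  · intro a b ha hb hab hn
    have h1 := echkN_sound (cf := RD.rD4) (l := RD.rD4_l) (by decide) ha hb hab
    rw [hn] at h1
    exact absurd h1 (by decide)
  · intro a ha hiH
    have ha' : a < 14 := ha
    interval_cases a
    · exact ⟨(hk 0).1, (hk 0).2.1.le⟩
    · exact ⟨(hk 1).1, (hk 1).2.1.le⟩
    · exact ⟨(hk 2).1, (hk 2).2.1.le⟩
    · exact ⟨(hk 3).1, (hk 3).2.1.le⟩
    · exact ⟨(hk 4).1, (hk 4).2.1.le⟩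
    · exact ⟨(hk 5).1, (hk 5).2.1.le⟩
    · exact ⟨hv'.1.1, hv'.1.2.1.le⟩
    · exact ⟨hz1'.1, hz1'.2.1.le⟩
    · exact ⟨hv.1.1, hv.1.2.1.le⟩
    · exact ⟨hz1.1, hz1.2.1.le⟩
    all_goals exact absurd hiH (by decide)

theorem code_fnnf (h : MinCE G B) (hF : Faces G F) : ∀ i (c : ZMod 6 → V), Ring G F i 6 c →
    OneP G B (c 0) → OneP G B (c 1) →
    WE G (c 0) (c 1) → FF G B (c 2) → Npay G B (c 3) → Npay G B (c 4) → FF G B (c 5) →
    WE G (c 3) (c 4) → False := by
  intro i c hR k0 k1 _ k2 k3 k4 k5 w34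
  have t1 : TE G (c 1) (c 2) := FF.te' h k2 (hR.cyc.2 1)
  have t2 : TE G (c 2) (c 3) := FF.te h k2 (hR.cyc.2 2)
  have t4 : TE G (c 4) (c 5) := FF.te' h k5 (hR.cyc.2 4)
  have t5 : TE G (c 5) (c 0) := FF.te h k5 (hR.cyc.2 5)
  have hte : ∀ j, RD.rD1_te j = true → TE G (c j) (c (j + 1)) := by
    intro j hj
    rcases z6 j with rfl | rfl | rfl | rfl | rfl | rfl
    · exact absurd hj (by decide)
    · exact t1
    · exact t2
    · exact absurd hj (by decide)
    · exact t4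
    · exact t5
  have hd : ∀ j, 3 ≤ dg G (c j) := by
    intro j
    rcases z6 j with rfl | rfl | rfl | rfl | rfl | rfl
    · rw [k0.1.2.1]
    · rw [k1.1.2.1]
    · rw [k2.2.1]; omega
    · rw [k3.1.2.1]; omega
    · rw [k4.1.2.1]; omega
    · rw [k5.2.1]; omega
  obtain ⟨x3, hx3, w3, d3⟩ := npay_other k3 (npay_ndm k4)
  obtain ⟨x4, hx4, w4, d4⟩ := npay_other k4 (npay_ndm k3)
  have p3 := pn_weak h hR w3 (j := 3) hx3 (by
    rintro rfl
    exact t2.symm.not_we w3)
  have p4 := pn_weak h hR w4 (j := 4) (by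
    rintro rfl
    exact t4.not_we w4) hx4
  have hpn : ∀ (j : ZMod 6) (a : ℕ), Nm.pn j a ∈ RD.rD1_l → (j = 3 ∧ a = 0) ∨ (j = 4 ∧ a = 0) := by
    intro j a hj
    revert hj
    simp [RD.rD1_l]
  have ho : Occ G c RD.rD1_l (rsem G c (fun _ => c 0) (fun j _ => if j = 3 then x3 else x4)) := by
    refine rsem_occ h hR ?_ ?_ ?_ ?_ ?_
    · intro j hj
      apply hte
      rcases z6 j with rfl | rfl | rfl | rfl | rfl | rfl
      · exact absurd hj (by decide)
      · rfl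
      · rfl
      · exact absurd hj (by decide)
      · rfl
      · rfl
    · intro j hj
      exfalso
      revert hj
      simp [RD.rD1_l]
    · intro j hj
      exfalso
      revert hj
      simp [RD.rD1_l]
    · intro j a hj
      rcases hpn j a hj with ⟨rfl, rfl⟩ | ⟨rfl, rfl⟩
      · exact p3
      · exact p4
    · intro j a b ha hb _
      rcases hpn j a ha with ⟨rfl, rfl⟩ | ⟨rfl, rfl⟩ <;>
      rcases hpn _ b hb with ⟨e, rfl⟩ | ⟨e, rfl⟩ <;> rfl
  refine ring_code (D := fun a => if a ≤ 1 then 3 else if a ≤ 5 then 4 else 3) h hF hR hd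
    RD.rD1_adm RD.rD1_ok RD.rD1_rchk (by decide) rfl (by decide) ho hte ?_ ?_
  · intro a b ha hb hab hn
    have h1 := echkN_sound (cf := RD.rD1) (l := RD.rD1_l) (by decide) ha hb hab
    rw [hn] at h1
    exact absurd h1 (by decide)
  · intro a ha hiH
    have ha' : a < 12 := ha
    interval_cases a
    · exact ⟨k0.1.1, k0.1.2.1.le⟩
    · exact ⟨k1.1.1, k1.1.2.1.le⟩
    · exact ⟨k2.1, k2.2.1.le⟩
    · exact ⟨k3.1.1, k3.1.2.1.le⟩
    · exact ⟨k4.1.1, k4.1.2.1.le⟩
    · exact ⟨k5.1, k5.2.1.le⟩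
    · exact ⟨(dm_deg d3).1, (dm_deg d3).2.le⟩
    · exact ⟨(dm_deg d4).1, (dm_deg d4).2.le⟩
    all_goals exact absurd hiH (by decide)

theorem code_f3 (h : MinCE G B) (hF : Faces G F) : ∀ i (c : ZMod 6 → V), Ring G F i 6 c →
    FF G B (c 0) → FF G B (c 1) → FF G B (c 2) →
    FF G B (c 3) → Npay G B (c 4) → Npay G B (c 5) → OneP G B (apx G (c 1) (c 2)) →
    WE G (c 4) (c 5) → False := by
  intro i c hR k0 k1 k2 k3 k4 k5 hv w45
  have t0 : TE G (c 0) (c 1) := FF.te h k0 (hR.cyc.2 0)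
  have t1 : TE G (c 1) (c 2) := FF.te h k1 (hR.cyc.2 1)
  have t2 : TE G (c 2) (c 3) := FF.te h k2 (hR.cyc.2 2)
  have t3 : TE G (c 3) (c 4) := FF.te h k3 (hR.cyc.2 3)
  have t5 : TE G (c 5) (c 0) := FF.te' h k0 (hR.cyc.2 5)
  have hte : ∀ j, RD.rF3_te j = true → TE G (c j) (c (j + 1)) := by
    intro j hj
    rcases z6 j with rfl | rfl | rfl | rfl | rfl | rfl
    · exact t0
    · exact t1
    · exact t2
    · exact t3
    · exact absurd hj (by decide)
    · exact t5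
  have hd : ∀ j, 3 ≤ dg G (c j) := by
    intro j
    rcases z6 j with rfl | rfl | rfl | rfl | rfl | rfl
    · rw [k0.2.1]; omega
    · rw [k1.2.1]; omega
    · rw [k2.2.1]; omega
    · rw [k3.2.1]; omega
    · rw [k4.1.2.1]; omega
    · rw [k5.1.2.1]; omega
  obtain ⟨z, hz, hz1⟩ := hv.2
  obtain ⟨x4, hx4, w4, d4⟩ := npay_other k4 (npay_ndm k5)
  obtain ⟨x5, hx5, w5, d5⟩ := npay_other k5 (npay_ndm k4)
  have p4 := pn_weak h hR w4 (j := 4) hx4 (by
    rintro rfl
    exact t3.symm.not_we w4)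
  have p5 := pn_weak h hR w5 (j := 5) (by
    rintro rfl
    exact t5.not_we w5) hx5
  have hpn : ∀ (j : ZMod 6) (a : ℕ), Nm.pn j a ∈ RD.rF3_l → (j = 4 ∧ a = 0) ∨ (j = 5 ∧ a = 0) := by
    intro j a hj
    revert hj
    simp [RD.rF3_l]
  have hscm : ∀ (j : ZMod 6), Nm.sc j ∈ RD.rF3_l → j = 1 := by
    intro j hj
    revert hj
    simp [RD.rF3_l]
  have ho : Occ G c RD.rF3_l (rsem G c (fun _ => z) (fun j _ => if j = 4 then x4 else x5)) := by
    refine rsem_occ h hR ?_ ?_ ?_ ?_ ?_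
    · intro j hj
      apply hte
      rcases z6 j with rfl | rfl | rfl | rfl | rfl | rfl
      · rfl
      · rfl
      · rfl
      · rfl
      · exact absurd hj (by decide)
      · rfl
    · intro j hj
      have e := hscm j hj
      subst e
      exact ⟨by decide, hz⟩
    · intro j hj hj'
      have e := hscm j hj
      have e' := hscm _ hj'
      subst e
      exact absurd e' (by decide)
    · intro j a hj
      rcases hpn j a hj with ⟨rfl, rfl⟩ | ⟨rfl, rfl⟩
      · exact p4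
      · exact p5
    · intro j a b ha hb _
      rcases hpn j a ha with ⟨rfl, rfl⟩ | ⟨rfl, rfl⟩ <;>
      rcases hpn _ b hb with ⟨e, rfl⟩ | ⟨e, rfl⟩ <;> rfl
  refine ring_code (D := fun a => if a ≤ 5 then 4 else 3) h hF hR hd
    RD.rF3_adm RD.rF3_ok RD.rF3_rchk (by decide) rfl (by decide) ho hte ?_ ?_
  · intro a b ha hb hab hn
    have h1 := echkN_sound (cf := RD.rF3) (l := RD.rF3_l) (by decide) ha hb hab
    rw [hn] at h1
    exact absurd h1 (by decide)
  · intro a ha hiH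
    have ha' : a < 14 := ha
    interval_cases a
    · exact ⟨k0.1, k0.2.1.le⟩
    · exact ⟨k1.1, k1.2.1.le⟩
    · exact ⟨k2.1, k2.2.1.le⟩
    · exact ⟨k3.1, k3.2.1.le⟩
    · exact ⟨k4.1.1, k4.1.2.1.le⟩
    · exact ⟨k5.1.1, k5.1.2.1.le⟩
    · exact ⟨hv.1.1, hv.1.2.1.le⟩
    · exact absurd hiH (by decide)
    · exact ⟨hz1.1, hz1.2.1.le⟩
    · exact absurd hiH (by decide)
    · exact absurd hiH (by decide)
    · exact ⟨(dm_deg d4).1, (dm_deg d4).2.le⟩
    · exact ⟨(dm_deg d5).1, (dm_deg d5).2.le⟩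
    · exact absurd hiH (by decide)

end Pool.Agent.Lib.SVY
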