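import Pool.Agent.Lib.SVY.CodesB
import Pool.Agent.Lib.SVY.LocThmA

/-!
# SVY.CodesC: reducible 6-faces from local configurations

The field `ffgfp` of `CF`.
-/

set_option autoImplicit false
set_option linter.unusedSectionVars false

namespace Pool.Agent.Lib.SVY

open Finset Pool.Agent.Lib.SVT Pool.Agent.Lib.SVX

variable {V : Type*} [Fintype V] [DecidableEq V] {G : SimpleGraph V} {B : Finset V}
variable {m : ℕ} {F : Fin m → Finset (Sym2 V)}

open CodesAAux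

/-- triangles `v a b`, `v c d`: if `a`, `c` are consecutive then `a`, `d` are not -/
theorem tri_not_corner (h : MinCE G B) (hF : Faces G F) {v a b c d : V} (hd : 3 ≤ dg G v)
    (e1 : G.Adj v a) (e2 : G.Adj v b) (e3 : G.Adj a b) (e4 : G.Adj v c) (e5 : G.Adj v d)
    (e6 : G.Adj c d) (n1 : a ≠ c) (n2 : a ≠ d) (n4 : b ≠ d) {i : Fin m}
    (hi : Nt F i) (h1 : s(v, a) ∈ F i) (h2 : s(v, c) ∈ F i) : ¬ Corner F v a d := by
  rintro ⟨k, k1, k2⟩
  have ta : TE G v a := ⟨e1, b, e2, e3⟩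
  have hk : Nt F k := by
    intro h3
    obtain ⟨w, -, h4, h5, h6⟩ := face_tri hF h3 k1
    rw [h6] at k2
    simp only [mem_insert, mem_singleton, Sym2.eq_iff] at k2
    have had : G.Adj a d := by
      rcases k2 with (⟨-, q⟩ | ⟨q, -⟩) | (⟨q, -⟩ | ⟨q, q'⟩) | (⟨q, q'⟩ | ⟨-, q⟩)
      · exact absurd q.symm n2
      · exact absurd q e1.ne
      · exact absurd q e1.ne
      · rw [q] at h4
        exact absurd rfl h4.ne
      · rw [q] at h4
        exact absurd rfl h4.ne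
      · rw [q]
        exact h5
    exact n4 (apex h e1 e2 e3 e5 had)
  have hki := te_nt_unique h hF ta hk hi k1 h1
  rcases face_two hF n1 h1 h2 (hki ▸ k2) with h3 | h3
  · exact n2 h3.symm
  · exact e6.ne h3.symm

theorem code_ffgfp (h : MinCE G B) (hF : Faces G F) : ∀ i (c : ZMod 6 → V), Ring G F i 6 c →
    OneQ G B (c 0) → FF G B (c 1) →
    FF G B (c 2) → Ex2 G B (c 3) → FF G B (c 4) → P1c G B (c 5) → WE G (c 5) (c 0) →
    OneP G B (apx G (c 2) (c 3)) → TE G (c 3) (c 4) → Sm G B (apx G (c 0) (c 1)) →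
    Sm G B (apx G (c 4) (c 5)) → False := by
  intro i c hR k0 k1 k2 k3 _ k5 w50 hv _ hs _
  have t0 : TE G (c 0) (c 1) := FF.te' h k1 (hR.cyc.2 0)
  have t1 : TE G (c 1) (c 2) := FF.te h k1 (hR.cyc.2 1)
  have t2 : TE G (c 2) (c 3) := FF.te h k2 (hR.cyc.2 2)
  obtain ⟨z, hz, hz1⟩ := hv.2
  obtain ⟨s0, s1⟩ := apx_adj t0
  obtain ⟨l1, l2⟩ := apx_adj t1
  obtain ⟨v2, v3⟩ := apx_adj t2
  have o0 := apx_off h hR t0
  have o1 := apx_off h hR t1
  have o2 := apx_off h hR t2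
  have hne : apx G (c 0) (c 1) ≠ apx G (c 1) (c 2) := by
    intro he
    have h1 : G.Adj (apx G (c 1) (c 2)) (c 0) := by
      rw [← he]
      exact s0.symm
    have h2 := NamesAAux.ax_only h hR (x := apx G (c 1) (c 2)) (j := 1) (k := 0) o1 l1.symm
      l2.symm h1
    exact absurd h2 (by decide)
  have hc : ∀ {a b : ZMod 6}, a ≠ b → c a ≠ c b := fun hab => RingAAux.cne hR hab
  refine LC.gG1_false h hF (a := c 0) (y := c 1) (x := c 2) (v := apx G (c 2) (c 3)) (b := c 5)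
    (s := apx G (c 0) (c 1)) (l := apx G (c 1) (c 2)) (t := c 3) (z := z)
    t0.1 s0 s1 t1.1 l1 l2 v2 t2.1 v3.symm w50.symm hz (hc (by decide)) (o1 0).symm
    (hc (by decide)) (o2 1).symm ?_ k0.1.1 k1.1 k2.1 hv.1.1 (sm_deg hs).1 hz1.1 k0.1.2.1.le
    k1.2.1.le k2.2.1.le hv.1.2.1.le (sm_deg hs).2 hz1.2.1.le
  refine tri_not_corner h hF (v := c 1) (a := c 0) (b := apx G (c 0) (c 1)) (c := c 2)
    (d := apx G (c 1) (c 2)) (by rw [k1.2.1]; omega) t0.1.symm s1 s0 t1.1 l1 l2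
    (hc (by decide)) (o1 0).symm hne (i := i) (Ring.nt hR (by norm_num))
    (Ring.mem' hR 1) (Ring.mem hR 1)

end Pool.Agent.Lib.SVY
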