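import Pool.Agent.Lib.SVX.ChkD
import Pool.Agent.Lib.SVY.RedData

/-!
# SVY.RedOk3: `ListOK` of the configurations (kernel check)
-/

set_option autoImplicit false
set_option maxRecDepth 100000

namespace Pool.Agent.Lib.SVY.RD

open Pool.Agent.Lib.SVX

/-- left strip of `rD3` -/
def rD3_sl : List Chk.St := [.ed 0 5, .par 3 10 [], .vf ⟨5, false, [], [(10, true, [])]⟩, .par 3 7 [], .tr 5 4 ⟨7, true, [], []⟩, .par 2 12 [], .tr 4 3 ⟨12, true, [], []⟩, .par 3 9 [], .vf ⟨3, false, [], [(9, true, [])]⟩, .ed 3 2, .par 3 8 [], .vf ⟨2, false, [], [(8, true, [])]⟩]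

/-- right strip of `rD3` -/
def rD3_sr : List Chk.St := [.tr 0 1 ⟨6, true, [], []⟩, .par 2 11 [], .tr 1 2 ⟨11, true, [], []⟩]

/-- nodes of `rD3` -/
def rD3_sn : List (ℕ × ℕ × List ℕ) := []

/-- all checks, one after the other -/
theorem redok3_seq :
    (Chk.ringP rD3_sl 6 rD3_sr rD3_sn [7, 11, 13, 14, 19, 21, 22] = true) ∧
    (Chk.ringP rD3_sl 6 rD3_sr rD3_sn [25, 26, 28, 35, 37, 38, 41] = true) ∧
    (Chk.ringP rD3_sl 6 rD3_sr rD3_sn [42, 44, 49, 50, 52, 56, 67] = true) ∧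
    (Chk.ringP rD3_sl 6 rD3_sr rD3_sn [69, 70, 73, 74, 76, 81, 82] = true) ∧
    (Chk.ringP rD3_sl 6 rD3_sr rD3_sn [84, 88, 97, 98, 100, 104, 112] = true) :=
  ⟨(by decide +kernel),
  (by decide +kernel),
  (by decide +kernel),
  (by decide +kernel),
  (by decide +kernel)⟩

theorem rD3_p0 : Chk.ringP rD3_sl 6 rD3_sr rD3_sn [7, 11, 13, 14, 19, 21, 22] = true := redok3_seq.1

theorem rD3_p1 : Chk.ringP rD3_sl 6 rD3_sr rD3_sn [25, 26, 28, 35, 37, 38, 41] = true := redok3_seq.2.1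

theorem rD3_p2 : Chk.ringP rD3_sl 6 rD3_sr rD3_sn [42, 44, 49, 50, 52, 56, 67] = true := redok3_seq.2.2.1

theorem rD3_p3 : Chk.ringP rD3_sl 6 rD3_sr rD3_sn [69, 70, 73, 74, 76, 81, 82] = true := redok3_seq.2.2.2.1

theorem rD3_p4 : Chk.ringP rD3_sl 6 rD3_sr rD3_sn [84, 88, 97, 98, 100, 104, 112] = true := redok3_seq.2.2.2.2

theorem rD3_ok : rD3.ListOK := Chk.ringP_cfg (u0 := 0) (s := 3) (dis := [])
  (by decide +kernel) (by decide +kernel)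
  (Chk.AllP_cons rD3_p0 (Chk.AllP_cons rD3_p1 (Chk.AllP_cons rD3_p2 (Chk.AllP_cons rD3_p3 (Chk.AllP_cons rD3_p4 Chk.AllP_nil)))))

end Pool.Agent.Lib.SVY.RD
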