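import Pool.Agent.Lib.SVY.RedData

/-!
# SVY.RedData2: ring configurations with their names (exceptional vertices)

Generated.  Format as in SVY.RedData.
-/

set_option autoImplicit false
set_option maxRecDepth 100000

namespace Pool.Agent.Lib.SVY.RD

open Pool.Agent.Lib.SVX

/-- 33GFFG WTTVTT ; names: 0=f0 1=f1 2=f2 3=f3 4=f4 5=f5 6=v3 7=z3 8=n2 9=n5 10=l1 11=l2 12=l4 13=l5 -/
def rG3 : Cfg where
  nc := 7
  nt := 7
  E := [(0, 1), (0, 5), (0, 13), (1, 2), (1, 10), (2, 3), (2, 8), (2, 10), (2, 11), (3, 4), (3, 6), (3, 11), (4, 5), (4, 6), (4, 12), (5, 9), (5, 12), (5, 13), (6, 7)]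
  Bs := []
  outs := fun i => if i == 7 || i == 8 || i == 9 then 2 else 0
  sm := fun i => i == 7 || i == 8 || i == 9
  keep := [2, 5]
  pi := fun i => if i = 3 then 11 else if i = 4 then 12 else i
  NE := [(10, 2), (8, 2), (11, 2), (11, 12), (12, 5), (9, 5), (13, 5)]
  al := [(8, 10, 2), (8, 10, 3), (8, 11, 2), (8, 11, 3), (8, 12, 1), (8, 12, 2), (9, 11, 1), (9, 11, 2), (9, 12, 2), (9, 12, 3), (9, 13, 2), (9, 13, 3), (10, 11, 2), (10, 11, 3), (10, 12, 1), (10, 12, 2), (11, 12, 1), (11, 12, 2), (11, 12, 3), (11, 12, 4), (11, 13, 1), (11, 13, 2), (12, 13, 2), (12, 13, 3)]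

def rG3P (i : ℕ) : ℕ := if i = 3 then 11 else if i = 4 then 12 else i

theorem rG3_adm : rG3.adm rG3P = true := by decide

/-- the names -/
def rG3_l : List Nm := [.rg 0, .rg 1, .rg 2, .rg 3, .rg 4, .rg 5, .ax 3, .sc 3, .pn 2 0, .pn 5 0, .ax 1, .ax 2, .ax 4, .ax 5]

/-- the triangle edges of the ring -/
def rG3_te (j : ZMod 6) : Bool := ([1, 2, 3, 4, 5] : List (ZMod 6)).contains j

theorem rG3_rchk : rchk rG3 rG3_l rG3_te = true := by decide

/-- 3FGFFp TTVTTW, new edge l1-l3 ; names: 0=f0 1=f1 2=f2 3=f3 4=f4 5=f5 6=v2 7=z2 8=n2 9=n5 10=l0 11=l1 12=l3 13=l4 -/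
def rG9 : Cfg where
  nc := 7
  nt := 7
  E := [(0, 1), (0, 5), (0, 10), (1, 2), (1, 10), (1, 11), (2, 3), (2, 6), (2, 8), (2, 11), (3, 4), (3, 6), (3, 12), (4, 5), (4, 12), (4, 13), (5, 9), (5, 13), (6, 7)]
  Bs := []
  outs := fun i => if i == 7 || i == 8 || i == 9 then 2 else 0
  sm := fun i => i == 7 || i == 8 || i == 9
  keep := []
  pi := fun i => if i = 2 then 11 else if i = 3 then 12 else i
  NE := [(11, 12)]
  al := [(11, 12, 1), (11, 12, 2), (11, 12, 3), (11, 12, 4)]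

def rG9P (i : ℕ) : ℕ := if i = 2 then 11 else if i = 3 then 12 else i

theorem rG9_adm : rG9.adm rG9P = true := by decide

/-- the names -/
def rG9_l : List Nm := [.rg 0, .rg 1, .rg 2, .rg 3, .rg 4, .rg 5, .ax 2, .sc 2, .pn 2 0, .pn 5 0, .ax 0, .ax 1, .ax 3, .ax 4]

/-- the triangle edges of the ring -/
def rG9_te (j : ZMod 6) : Bool := ([0, 1, 2, 3, 4] : List (ZMod 6)).contains j

theorem rG9_rchk : rchk rG9 rG9_l rG9_te = true := by decide

/-- FFFFFG TTTVTV, new edge l0-l2 ; names: 0=f0 1=f1 2=f2 3=f3 4=f4 5=f5 6=v3 7=v5 8=z3 9=z5 10=n5 11=l0 12=l1 13=l2 14=l4 -/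
def rG13 : Cfg where
  nc := 8
  nt := 7
  E := [(0, 1), (0, 5), (0, 7), (0, 11), (1, 2), (1, 11), (1, 12), (2, 3), (2, 12), (2, 13), (3, 4), (3, 6), (3, 13), (4, 5), (4, 6), (4, 14), (5, 7), (5, 10), (5, 14), (6, 8), (7, 9)]
  Bs := []
  outs := fun i => if i == 8 || i == 9 || i == 10 then 2 else 0
  sm := fun i => i == 8 || i == 9 || i == 10
  keep := []
  pi := fun i => if i = 1 then 11 else if i = 2 then 13 else i
  NE := [(11, 13)]
  al := [(11, 13, 1), (11, 13, 2), (11, 13, 3), (11, 13, 4)]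

def rG13P (i : ℕ) : ℕ := if i = 1 then 11 else if i = 2 then 13 else i

theorem rG13_adm : rG13.adm rG13P = true := by decide

/-- the names -/
def rG13_l : List Nm := [.rg 0, .rg 1, .rg 2, .rg 3, .rg 4, .rg 5, .ax 3, .ax 5, .sc 3, .sc 5, .pn 5 0, .ax 0, .ax 1, .ax 2, .ax 4]

/-- the triangle edges of the ring -/
def rG13_te (j : ZMod 6) : Bool := ([0, 1, 2, 3, 4, 5] : List (ZMod 6)).contains j

theorem rG13_rchk : rchk rG13 rG13_l rG13_te = true := by decide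

/-- FFFFFG TTVTTV, pure deletion ; names: 0=f0 1=f1 2=f2 3=f3 4=f4 5=f5 6=v2 7=v5 8=n5 9=z2 10=z5 11=l0 12=l1 13=l3 14=l4 -/
def rG14 : Cfg where
  nc := 11
  nt := 4
  E := [(0, 1), (0, 5), (0, 7), (0, 11), (1, 2), (1, 11), (1, 12), (2, 3), (2, 6), (2, 12), (3, 4), (3, 6), (3, 13), (4, 5), (4, 13), (4, 14), (5, 7), (5, 8), (5, 14), (6, 9), (7, 10)]
  Bs := []
  outs := fun i => if i == 8 || i == 9 || i == 10 then 2 else 0
  sm := fun _ => false
  keep := []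
  pi := fun i => i
  NE := []
  al := []

def rG14P (i : ℕ) : ℕ := i

theorem rG14_adm : rG14.adm rG14P = true := by decide

/-- the names -/
def rG14_l : List Nm := [.rg 0, .rg 1, .rg 2, .rg 3, .rg 4, .rg 5, .ax 2, .ax 5, .pn 5 0, .sc 2, .sc 5, .ax 0, .ax 1, .ax 3, .ax 4]

/-- the triangle edges of the ring -/
def rG14_te (j : ZMod 6) : Bool := ([0, 1, 2, 3, 4, 5] : List (ZMod 6)).contains j

theorem rG14_rchk : rchk rG14 rG14_l rG14_te = true := by decide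

/-- FFGFFG TVTVTV, pure deletion ; names: 0=f0 1=f1 2=f2 3=f3 4=f4 5=f5 6=v1 7=v3 8=v5 9=n2 10=n5 11=z1 12=z3 13=z5 14=l0 15=l2 16=l4 -/
def rG16 : Cfg where
  nc := 14
  nt := 3
  E := [(0, 1), (0, 5), (0, 8), (0, 14), (1, 2), (1, 6), (1, 14), (2, 3), (2, 6), (2, 9), (2, 15), (3, 4), (3, 7), (3, 15), (4, 5), (4, 7), (4, 16), (5, 8), (5, 10), (5, 16), (6, 11), (7, 12), (8, 13)]
  Bs := []
  outs := fun i => if i == 9 || i == 10 || i == 11 || i == 12 || i == 13 then 2 else 0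
  sm := fun _ => false
  keep := []
  pi := fun i => i
  NE := []
  al := []

def rG16P (i : ℕ) : ℕ := i

theorem rG16_adm : rG16.adm rG16P = true := by decide

/-- the names -/
def rG16_l : List Nm := [.rg 0, .rg 1, .rg 2, .rg 3, .rg 4, .rg 5, .ax 1, .ax 3, .ax 5, .pn 2 0, .pn 5 0, .sc 1, .sc 3, .sc 5, .ax 0, .ax 2, .ax 4]

/-- the triangle edges of the ring -/
def rG16_te (j : ZMod 6) : Bool := ([0, 1, 2, 3, 4, 5] : List (ZMod 6)).contains j

theorem rG16_rchk : rchk rG16 rG16_l rG16_te = true := by decide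

/-- the names in the position of SVY.CodesS -/
def rA1_m : List Nm := [.rg 2, .rg 1, .rg 0, .rg 5, .rg 4, .rg 3, .ax 1, .ax 5, .ax 4, .ax 3, .ax 2]

/-- the triangle edges of the ring -/
def rA1_tm (j : ZMod 6) : Bool := ([1, 2, 3, 4, 5] : List (ZMod 6)).contains j

theorem rA1_rchm : rchk rA1 rA1_m rA1_tm = true := by decide

/-- the names in the position of SVY.CodesS -/
def rA2_m : List Nm := [.rg 2, .rg 1, .rg 0, .rg 5, .rg 4, .rg 3, .ax 1, .ax 5, .ax 4, .ax 3, .ax 2]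

/-- the triangle edges of the ring -/
def rA2_tm (j : ZMod 6) : Bool := ([1, 2, 3, 4, 5] : List (ZMod 6)).contains j

theorem rA2_rchm : rchk rA2 rA2_m rA2_tm = true := by decide

end Pool.Agent.Lib.SVY.RD
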