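import Pool.Agent.Lib.SVY.CodesB
import Pool.Agent.Lib.SVY.RedOk3
import Pool.Agent.Lib.SVY.RedOk4

/-!
# SVY.CodesD: reducible 6-faces

The fields `fnnfp`, `fgffp`, `g3` of `CF`.
-/

set_option autoImplicit false
set_option linter.unusedSectionVars false

namespace Pool.Agent.Lib.SVY

open Finset Pool.Agent.Lib.SVT Pool.Agent.Lib.SVX

variable {V : Type*} [Fintype V] [DecidableEq V] {G : SimpleGraph V} {B : Finset V}
variable {m : ℕ} {F : Fin m → Finset (Sym2 V)}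

open CodesAAux CodesBAux

theorem ex2_weak (h : MinCE G B) {v : V} (hv : Ex2 G B v) : ∃ x, WE G v x := by
  have h1 := card_wn h v
  rw [hv.2.1, hv.2.2.1] at h1
  have h2 : (wn G v).Nonempty := by
    rw [← Finset.card_pos]
    omega
  obtain ⟨x, hx⟩ := h2
  exact ⟨x, mem_wn.1 hx⟩

theorem code_fnnfp (h : MinCE G B) (hF : Faces G F) : ∀ i (c : ZMod 6 → V), Ring G F i 6 c →
    OneQ G B (c 0) → FF G B (c 1) →
    Npay G B (c 2) → Npay G B (c 3) → WE G (c 2) (c 3) → FF G B (c 4) → P1c G B (c 5) →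
    WE G (c 5) (c 0) → Sm G B (apx G (c 0) (c 1)) → Sm G B (apx G (c 4) (c 5)) → False := by
  intro i c hR k0 k1 k2 k3 w23 k4 k5 w50 hs hs'
  have t0 : TE G (c 0) (c 1) := FF.te' h k1 (hR.cyc.2 0)
  have t1 : TE G (c 1) (c 2) := FF.te h k1 (hR.cyc.2 1)
  have t3 : TE G (c 3) (c 4) := FF.te' h k4 (hR.cyc.2 3)
  have t4 : TE G (c 4) (c 5) := FF.te h k4 (hR.cyc.2 4)
  have hte : ∀ j, RD.rD3_te j = true → TE G (c j) (c (j + 1)) := by
    intro j hj
    rcases z6 j with rfl | rfl | rfl | rfl | rfl | rfl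
    · exact t0
    · exact t1
    · exact absurd hj (by decide)
    · exact t3
    · exact t4
    · exact absurd hj (by decide)
  have hd : ∀ j, 3 ≤ dg G (c j) := by
    intro j
    rcases z6 j with rfl | rfl | rfl | rfl | rfl | rfl
    · rw [k0.1.2.1]
    · rw [k1.2.1]; omega
    · rw [k2.1.2.1]; omega
    · rw [k3.1.2.1]; omega
    · rw [k4.2.1]; omega
    · rw [k5.1.2.1]; omega
  obtain ⟨x2, hx2, w2, d2⟩ := npay_other k2 (npay_ndm k3)
  obtain ⟨x3, hx3, w3, d3⟩ := npay_other k3 (npay_ndm k2)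
  obtain ⟨x5, hx5, w5, o5⟩ := p1c_other (w := c 0) h k5
  have p2 := pn_weak h hR w2 (j := 2) hx2 (by
    rintro rfl
    exact t1.symm.not_we w2)
  have p3 := pn_weak h hR w3 (j := 3) (by
    rintro rfl
    exact t3.not_we w3) hx3
  have p5 := pn_weak h hR w5 (j := 5) hx5 (by
    rintro rfl
    exact t4.symm.not_we w5)
  have hpn : ∀ (j : ZMod 6) (a : ℕ), Nm.pn j a ∈ RD.rD3_l → (j = 2 ∧ a = 0) ∨ (j = 3 ∧ a = 0) ∨ (j = 5 ∧ a = 0) := by
    intro j a hj
    revert hj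
    simp [RD.rD3_l]
  have ho : Occ G c RD.rD3_l (rsem G c (fun _ => c 0) (fun j _ => if j = 2 then x2 else if j = 3 then x3 else x5)) := by
    refine rsem_occ h hR ?_ ?_ ?_ ?_ ?_
    · intro j hj
      apply hte
      rcases z6 j with rfl | rfl | rfl | rfl | rfl | rfl
      · rfl
      · rfl
      · exact absurd hj (by decide)
      · rfl
      · rfl
      · exact absurd hj (by decide)
    · intro j hj
      exfalso
      revert hj
      simp [RD.rD3_l]
    · intro j hj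
      exfalso
      revert hj
      simp [RD.rD3_l]
    · intro j a hj
      rcases hpn j a hj with ⟨rfl, rfl⟩ | ⟨rfl, rfl⟩ | ⟨rfl, rfl⟩
      · exact p2
      · exact p3
      · exact p5
    · intro j a b ha hb _
      rcases hpn j a ha with ⟨rfl, rfl⟩ | ⟨rfl, rfl⟩ | ⟨rfl, rfl⟩ <;>
      rcases hpn _ b hb with ⟨e, rfl⟩ | ⟨e, rfl⟩ | ⟨e, rfl⟩ <;> rfl
  refine ring_code (D := fun a => ([3, 4, 4, 4, 4, 4, 4, 4, 3, 3, 3, 0, 0] : List ℕ).getD a 0) h hF hR hd
    RD.rD3_adm RD.rD3_ok RD.rD3_rchk (by decide) rfl (by decide) ho hte ?_ ?_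
  · intro a b ha hb hab hn
    have h1 := echkN_sound (cf := RD.rD3) (l := RD.rD3_l) (by decide) ha hb hab
    rw [hn] at h1
    exact absurd h1 (by decide)
  · intro a ha hiH
    have ha' : a < 13 := ha
    interval_cases a
    · exact ⟨k0.1.1, k0.1.2.1.le⟩
    · exact ⟨k1.1, k1.2.1.le⟩
    · exact ⟨k2.1.1, k2.1.2.1.le⟩
    · exact ⟨k3.1.1, k3.1.2.1.le⟩
    · exact ⟨k4.1, k4.2.1.le⟩
    · exact ⟨k5.1.1, k5.1.2.1.le⟩
    · exact sm_deg hs
    · exact sm_deg hs'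
    · exact ⟨(dm_deg d2).1, (dm_deg d2).2.le⟩
    · exact ⟨(dm_deg d3).1, (dm_deg d3).2.le⟩
    · exact ⟨o5.1, o5.2.1.le⟩
    · exact absurd hiH (by decide)
    · exact absurd hiH (by decide)

theorem code_fgffp (h : MinCE G B) (hF : Faces G F) : ∀ i (c : ZMod 6 → V), Ring G F i 6 c →
    OneQ G B (c 0) → FF G B (c 1) →
    Ex2 G B (c 2) → FF G B (c 3) → FF G B (c 4) → P1c G B (c 5) → WE G (c 5) (c 0) →
    OneP G B (apx G (c 2) (c 3)) → TE G (c 1) (c 2) → Sm G B (apx G (c 0) (c 1)) →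
    Sm G B (apx G (c 4) (c 5)) → False := by
  intro i c hR k0 k1 k2 k3 k4 k5 w50 hv t1 _ _
  have t0 : TE G (c 0) (c 1) := FF.te' h k1 (hR.cyc.2 0)
  have t1 : TE G (c 1) (c 2) := t1
  have t2 : TE G (c 2) (c 3) := FF.te' h k3 (hR.cyc.2 2)
  have t3 : TE G (c 3) (c 4) := FF.te h k3 (hR.cyc.2 3)
  have t4 : TE G (c 4) (c 5) := FF.te h k4 (hR.cyc.2 4)
  have hte : ∀ j, RD.rG9_te j = true → TE G (c j) (c (j + 1)) := by
    intro j hj
    rcases z6 j with rfl | rfl | rfl | rfl | rfl | rfl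
    · exact t0
    · exact t1
    · exact t2
    · exact t3
    · exact t4
    · exact absurd hj (by decide)
  have hd : ∀ j, 3 ≤ dg G (c j) := by
    intro j
    rcases z6 j with rfl | rfl | rfl | rfl | rfl | rfl
    · rw [k0.1.2.1]
    · rw [k1.2.1]; omega
    · rw [k2.2.1]; omega
    · rw [k3.2.1]; omega
    · rw [k4.2.1]; omega
    · rw [k5.1.2.1]; omega
  obtain ⟨z, hz, hz1⟩ := hv.2
  obtain ⟨x2, w2⟩ := ex2_weak h k2
  have d2 := k2.2.2.2 x2 w2
  obtain ⟨x5, hx5, w5, o5⟩ := p1c_other (w := c 0) h k5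
  have p2 := pn_weak h hR w2 (j := 2) (by
    rintro rfl
    exact t2.not_we w2) (by
    rintro rfl
    exact t1.symm.not_we w2)
  have p5 := pn_weak h hR w5 (j := 5) hx5 (by
    rintro rfl
    exact t4.symm.not_we w5)
  have hpn : ∀ (j : ZMod 6) (a : ℕ), Nm.pn j a ∈ RD.rG9_l → (j = 2 ∧ a = 0) ∨ (j = 5 ∧ a = 0) := by
    intro j a hj
    revert hj
    simp [RD.rG9_l]
  have hscm : ∀ (j : ZMod 6), Nm.sc j ∈ RD.rG9_l → j = 2 := by
    intro j hj
    revert hj
    simp [RD.rG9_l]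
  have ho : Occ G c RD.rG9_l (rsem G c (fun _ => z) (fun j _ => if j = 2 then x2 else x5)) := by
    refine rsem_occ h hR ?_ ?_ ?_ ?_ ?_
    · intro j hj
      apply hte
      rcases z6 j with rfl | rfl | rfl | rfl | rfl | rfl
      · rfl
      · rfl
      · rfl
      · rfl
      · rfl
      · exact absurd hj (by decide)
    · intro j hj
      have e := hscm j hj
      subst e
      exact ⟨by decide, hz⟩
    · intro j hj hj'
      have e1 := hscm j hj
      have e2 := hscm _ hj'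
      subst e1
      exact absurd e2 (by decide)
    · intro j a hj
      rcases hpn j a hj with ⟨rfl, rfl⟩ | ⟨rfl, rfl⟩
      · exact p2
      · exact p5
    · intro j a b ha hb _
      rcases hpn j a ha with ⟨rfl, rfl⟩ | ⟨rfl, rfl⟩ <;>
      rcases hpn _ b hb with ⟨e, rfl⟩ | ⟨e, rfl⟩ <;> rfl
  refine ring_code (D := fun a => ([3, 4, 5, 4, 4, 4, 3, 3, 3, 3, 0, 0, 0, 0] : List ℕ).getD a 0) h hF hR hd
    RD.rG9_adm RD.rG9_ok RD.rG9_rchk (by decide) rfl (by decide) ho hte ?_ ?_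
  · intro a b ha hb hab hn
    have h1 := echkN_sound (cf := RD.rG9) (l := RD.rG9_l) (by decide) ha hb hab
    rw [hn] at h1
    exact absurd h1 (by decide)
  · intro a ha hiH
    have ha' : a < 14 := ha
    interval_cases a
    · exact ⟨k0.1.1, k0.1.2.1.le⟩
    · exact ⟨k1.1, k1.2.1.le⟩
    · exact ⟨k2.1, k2.2.1.le⟩
    · exact ⟨k3.1, k3.2.1.le⟩
    · exact ⟨k4.1, k4.2.1.le⟩
    · exact ⟨k5.1.1, k5.1.2.1.le⟩
    · exact ⟨hv.1.1, hv.1.2.1.le⟩
    · exact ⟨hz1.1, hz1.2.1.le⟩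
    · exact ⟨(dm_deg d2).1, (dm_deg d2).2.le⟩
    · exact ⟨o5.1, o5.2.1.le⟩
    · exact absurd hiH (by decide)
    · exact absurd hiH (by decide)
    · exact absurd hiH (by decide)
    · exact absurd hiH (by decide)

theorem code_g3 (h : MinCE G B) (hF : Faces G F) : ∀ i (c : ZMod 6 → V), Ring G F i 6 c →
    FF G B (c 0) → FF G B (c 1) → FF G B (c 2) →
    FF G B (c 3) → FF G B (c 4) → Ex2 G B (c 5) → OneP G B (apx G (c 5) (c 0)) →
    OneP G B (apx G (c 2) (c 3)) → TE G (c 4) (c 5) → False := by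
  intro i c hR k0 k1 k2 k3 k4 k5 hv hv' t4
  have t0 : TE G (c 0) (c 1) := FF.te h k0 (hR.cyc.2 0)
  have t1 : TE G (c 1) (c 2) := FF.te h k1 (hR.cyc.2 1)
  have t2 : TE G (c 2) (c 3) := FF.te h k2 (hR.cyc.2 2)
  have t3 : TE G (c 3) (c 4) := FF.te h k3 (hR.cyc.2 3)
  have t4 : TE G (c 4) (c 5) := t4
  have t5 : TE G (c 5) (c 0) := FF.te' h k0 (hR.cyc.2 5)
  have hte : ∀ j, RD.rG14_te j = true → TE G (c j) (c (j + 1)) := by
    intro j hj
    rcases z6 j with rfl | rfl | rfl | rfl | rfl | rfl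
    · exact t0
    · exact t1
    · exact t2
    · exact t3
    · exact t4
    · exact t5
  have hd : ∀ j, 3 ≤ dg G (c j) := by
    intro j
    rcases z6 j with rfl | rfl | rfl | rfl | rfl | rfl
    · rw [k0.2.1]; omega
    · rw [k1.2.1]; omega
    · rw [k2.2.1]; omega
    · rw [k3.2.1]; omega
    · rw [k4.2.1]; omega
    · rw [k5.2.1]; omega
  obtain ⟨z, hz, hz1⟩ := hv.2
  obtain ⟨z', hz', hz1'⟩ := hv'.2
  obtain ⟨x5, w5⟩ := ex2_weak h k5
  have d5 := k5.2.2.2 x5 w5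
  have p5 := pn_weak h hR w5 (j := 5) (by
    rintro rfl
    exact t5.not_we w5) (by
    rintro rfl
    exact t4.symm.not_we w5)
  have hpn : ∀ (j : ZMod 6) (a : ℕ), Nm.pn j a ∈ RD.rG14_l → (j = 5 ∧ a = 0) := by
    intro j a hj
    revert hj
    simp [RD.rG14_l]
  have hscm : ∀ (j : ZMod 6), Nm.sc j ∈ RD.rG14_l → j = 2 ∨ j = 5 := by
    intro j hj
    revert hj
    simp [RD.rG14_l]
  have ho : Occ G c RD.rG14_l (rsem G c (fun j => if j = 5 then z else z') (fun _ _ => x5)) := by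
    refine rsem_occ h hR ?_ ?_ ?_ ?_ ?_
    · intro j hj
      apply hte
      rcases z6 j with rfl | rfl | rfl | rfl | rfl | rfl
      · rfl
      · rfl
      · rfl
      · rfl
      · rfl
      · rfl
    · intro j hj
      rcases hscm j hj with rfl | rfl
      · exact ⟨by decide, hz'⟩
      · exact ⟨by decide, hz⟩
    · intro j hj hj'
      have e1 := hscm j hj
      have e2 := hscm _ hj'
      rcases e1 with rfl | rfl
      · exact absurd e2 (by decide)
      · exact absurd e2 (by decide)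
    · intro j a hj
      obtain ⟨rfl, rfl⟩ := hpn j a hj
      exact p5
    · intro j a b ha hb _
      obtain ⟨rfl, rfl⟩ := hpn j a ha
      obtain ⟨-, rfl⟩ := hpn _ b hb
      rfl
  refine ring_code (D := fun a => ([4, 4, 4, 4, 4, 5, 3, 3, 3, 3, 3, 0, 0, 0, 0] : List ℕ).getD a 0) h hF hR hd
    RD.rG14_adm RD.rG14_ok RD.rG14_rchk (by decide) rfl (by decide) ho hte ?_ ?_
  · intro a b ha hb hab hn
    have h1 := echkN_sound (cf := RD.rG14) (l := RD.rG14_l) (by decide) ha hb hab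
    rw [hn] at h1
    exact absurd h1 (by decide)
  · intro a ha hiH
    have ha' : a < 15 := ha
    interval_cases a
    · exact ⟨k0.1, k0.2.1.le⟩
    · exact ⟨k1.1, k1.2.1.le⟩
    · exact ⟨k2.1, k2.2.1.le⟩
    · exact ⟨k3.1, k3.2.1.le⟩
    · exact ⟨k4.1, k4.2.1.le⟩
    · exact ⟨k5.1, k5.2.1.le⟩
    · exact ⟨hv'.1.1, hv'.1.2.1.le⟩
    · exact ⟨hv.1.1, hv.1.2.1.le⟩
    · exact ⟨(dm_deg d5).1, (dm_deg d5).2.le⟩
    · exact ⟨hz1'.1, hz1'.2.1.le⟩
    · exact ⟨hz1.1, hz1.2.1.le⟩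
    · exact absurd hiH (by decide)
    · exact absurd hiH (by decide)
    · exact absurd hiH (by decide)
    · exact absurd hiH (by decide)

end Pool.Agent.Lib.SVY
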