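import Pool.Agent.Lib.SVX.ChkD
import Pool.Agent.Lib.SVY.RedData2

/-!
# SVY.RedOk5: `ListOK` of the configurations (kernel check)
-/

set_option autoImplicit false
set_option maxRecDepth 100000

namespace Pool.Agent.Lib.SVY.RD

open Pool.Agent.Lib.SVX

theorem rG13_ok : rG13.ListOK := Chk.ringD_cfg
  (l := [.par 2 13 [], .tr 3 2 ⟨13, true, [], []⟩, .par 2 12 [], .tr 2 1 ⟨12, true, [], []⟩, .par 2 11 [13], .tr 1 0 ⟨11, true, [], []⟩, .par 3 9 [], .tr 0 5 ⟨7, false, [], [(9, true, [])]⟩, .par 3 10 [], .vf ⟨5, false, [], [(10, true, [])]⟩])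
  (r := [.par 3 8 [], .tr 3 4 ⟨6, false, [], [(8, true, [])]⟩, .par 2 14 [], .tr 4 5 ⟨14, true, [], []⟩])
  (nodes := [(11, 2, []), (13, 2, [11])])
  (u0 := 3) (by decide +kernel)

end Pool.Agent.Lib.SVY.RD
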