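import Pool.Agent.Lib.SVY.CodesD
import Pool.Agent.Lib.SVY.RedOk5

/-!
# SVY.CodesE: reducible 6-faces

The fields `g1` of `CF`.
-/

set_option autoImplicit false
set_option linter.unusedSectionVars false

namespace Pool.Agent.Lib.SVY

open Finset Pool.Agent.Lib.SVT Pool.Agent.Lib.SVX

variable {V : Type*} [Fintype V] [DecidableEq V] {G : SimpleGraph V} {B : Finset V}
variable {m : ℕ} {F : Fin m → Finset (Sym2 V)}

open CodesAAux CodesBAux

theorem code_g1 (h : MinCE G B) (hF : Faces G F) : ∀ i (c : ZMod 6 → V), Ring G F i 6 c →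
    FF G B (c 0) → FF G B (c 1) → FF G B (c 2) →
    FF G B (c 3) → FF G B (c 4) → Ex2 G B (c 5) → OneP G B (apx G (c 5) (c 0)) →
    OneP G B (apx G (c 3) (c 4)) → TE G (c 4) (c 5) → False := by
  intro i c hR k0 k1 k2 k3 k4 k5 hv hv' t4
  have t0 : TE G (c 0) (c 1) := FF.te h k0 (hR.cyc.2 0)
  have t1 : TE G (c 1) (c 2) := FF.te h k1 (hR.cyc.2 1)
  have t2 : TE G (c 2) (c 3) := FF.te h k2 (hR.cyc.2 2)
  have t3 : TE G (c 3) (c 4) := FF.te h k3 (hR.cyc.2 3)
  have t4 : TE G (c 4) (c 5) := t4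
  have t5 : TE G (c 5) (c 0) := FF.te' h k0 (hR.cyc.2 5)
  have hte : ∀ j, RD.rG13_te j = true → TE G (c j) (c (j + 1)) := by
    intro j hj
    rcases z6 j with rfl | rfl | rfl | rfl | rfl | rfl
    · exact t0
    · exact t1
    · exact t2
    · exact t3
    · exact t4
    · exact t5
  have hd : ∀ j, 3 ≤ dg G (c j) := by
    intro j
    rcases z6 j with rfl | rfl | rfl | rfl | rfl | rfl
    · rw [k0.2.1]; omega
    · rw [k1.2.1]; omega
    · rw [k2.2.1]; omega
    · rw [k3.2.1]; omega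
    · rw [k4.2.1]; omega
    · rw [k5.2.1]; omega
  obtain ⟨z, hz, hz1⟩ := hv.2
  obtain ⟨z', hz', hz1'⟩ := hv'.2
  obtain ⟨x5, w5⟩ := ex2_weak h k5
  have d5 := k5.2.2.2 x5 w5
  have p5 := pn_weak h hR w5 (j := 5) (by
    rintro rfl
    exact t5.not_we w5) (by
    rintro rfl
    exact t4.symm.not_we w5)
  have hpn : ∀ (j : ZMod 6) (a : ℕ), Nm.pn j a ∈ RD.rG13_l → (j = 5 ∧ a = 0) := by
    intro j a hj
    revert hj
    simp [RD.rG13_l]
  have hscm : ∀ (j : ZMod 6), Nm.sc j ∈ RD.rG13_l → j = 3 ∨ j = 5 := by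
    intro j hj
    revert hj
    simp [RD.rG13_l]
  have ho : Occ G c RD.rG13_l (rsem G c (fun j => if j = 5 then z else z') (fun _ _ => x5)) := by
    refine rsem_occ h hR ?_ ?_ ?_ ?_ ?_
    · intro j hj
      apply hte
      rcases z6 j with rfl | rfl | rfl | rfl | rfl | rfl
      · rfl
      · rfl
      · rfl
      · rfl
      · rfl
      · rfl
    · intro j hj
      rcases hscm j hj with rfl | rfl
      · exact ⟨by decide, hz'⟩
      · exact ⟨by decide, hz⟩
    · intro j hj hj'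
      have e1 := hscm j hj
      have e2 := hscm _ hj'
      rcases e1 with rfl | rfl
      · exact t4
      · exact absurd e2 (by decide)
    · intro j a hj
      obtain ⟨rfl, rfl⟩ := hpn j a hj
      exact p5
    · intro j a b ha hb _
      obtain ⟨rfl, rfl⟩ := hpn j a ha
      obtain ⟨-, rfl⟩ := hpn _ b hb
      rfl
  refine ring_code (D := fun a => ([4, 4, 4, 4, 4, 5, 3, 3, 3, 3, 3, 0, 0, 0, 0] : List ℕ).getD a 0) h hF hR hd
    RD.rG13_adm RD.rG13_ok RD.rG13_rchk (by decide) rfl (by decide) ho hte ?_ ?_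
  · intro a b ha hb hab hn
    have h1 := echkN_sound (cf := RD.rG13) (l := RD.rG13_l) (by decide) ha hb hab
    rw [hn] at h1
    exact absurd h1 (by decide)
  · intro a ha hiH
    have ha' : a < 15 := ha
    interval_cases a
    · exact ⟨k0.1, k0.2.1.le⟩
    · exact ⟨k1.1, k1.2.1.le⟩
    · exact ⟨k2.1, k2.2.1.le⟩
    · exact ⟨k3.1, k3.2.1.le⟩
    · exact ⟨k4.1, k4.2.1.le⟩
    · exact ⟨k5.1, k5.2.1.le⟩
    · exact ⟨hv'.1.1, hv'.1.2.1.le⟩
    · exact ⟨hv.1.1, hv.1.2.1.le⟩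
    · exact ⟨hz1'.1, hz1'.2.1.le⟩
    · exact ⟨hz1.1, hz1.2.1.le⟩
    · exact ⟨(dm_deg d5).1, (dm_deg d5).2.le⟩
    · exact absurd hiH (by decide)
    · exact absurd hiH (by decide)
    · exact absurd hiH (by decide)
    · exact absurd hiH (by decide)

end Pool.Agent.Lib.SVY
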