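import Pool.Agent.Lib.SVY.RingF

/-!
# SVY.FlexData: ring configurations with a flexible apex (data)

Format as in SVY.RedData.  `x_fchk`: the check for the flexible terminal.
-/

set_option autoImplicit false
set_option maxRecDepth 100000

namespace Pool.Agent.Lib.SVY.RD

open Pool.Agent.Lib.SVX

/-- A with flexible apex of `c 2, c 3`: 33FFFF WTZTTT -/
def rA3 : Cfg where
  nc := 6
  nt := 5
  E := [(0, 1), (1, 2), (2, 3), (3, 4), (4, 5), (5, 0), (1, 6), (2, 6), (2, 7), (3, 7), (3, 8), (4, 8), (4, 9), (5, 9), (5, 10), (0, 10)]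
  Bs := []
  outs := fun _ => 0
  sm := fun _ => false
  keep := [2, 3]
  pi := fun i => if i = 4 then 10 else if i = 5 then 10 else i
  NE := [(7, 2), (7, 3), (10, 8), (2, 3), (6, 2), (10, 3), (8, 3)]
  al := [(6, 7, 1), (6, 7, 2), (6, 7, 3), (6, 8, 1), (6, 8, 2), (6, 10, 1), (6, 10, 2), (7, 8, 1), (7, 8, 2), (7, 8, 3), (7, 10, 1), (7, 10, 2), (7, 10, 3), (8, 10, 1), (8, 10, 2), (8, 10, 3), (8, 10, 4)]

def rA3P (i : ℕ) : ℕ := if i = 4 then 5 else if i = 5 then 10 else i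

theorem rA3_adm : rA3.adm rA3P = true := by decide

/-- the names -/
def rA3_l : List Nm := [.rg 0, .rg 1, .rg 2, .rg 3, .rg 4, .rg 5, .ax 1, .ax 2, .ax 3, .ax 4, .ax 5]

/-- the triangle edges of the ring -/
def rA3_te (j : ZMod 6) : Bool := ([1, 2, 3, 4, 5] : List (ZMod 6)).contains j

theorem rA3_rchk : rchk rA3 rA3_l rA3_te = true := by decide

theorem rA3_fchk : fchk rA3 rA3_l rA3_te 7 2 = true := by decide

/-- the flexible terminal -/
def rA3_fl (i : ℕ) : Bool := i == 7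

/-- F1 with flexible apex of `c 2, c 3`: FFFFFF TTZTTV -/
def rF1c : Cfg where
  nc := 7
  nt := 6
  E := [(0, 1), (1, 2), (2, 3), (3, 4), (4, 5), (5, 0), (0, 7), (1, 7), (1, 8), (2, 8), (2, 9), (3, 9), (3, 10), (4, 10), (4, 11), (5, 11), (0, 6), (5, 6), (6, 12)]
  Bs := []
  outs := fun i => if i == 12 then 2 else 0
  sm := fun i => i == 12
  keep := [1]
  pi := fun i => if i = 0 then 11 else if i = 2 then 10 else if i = 3 then 10 else if i = 5 then 11 else i
  NE := [(7, 11), (7, 1), (8, 10), (8, 1), (10, 1), (11, 1)]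
  al := [(7, 8, 1), (7, 8, 2), (7, 8, 3), (7, 10, 1), (7, 10, 2), (7, 10, 3), (7, 11, 1), (7, 11, 2), (7, 11, 3), (7, 11, 4), (8, 10, 1), (8, 10, 2), (8, 10, 3), (8, 10, 4), (8, 11, 1), (8, 11, 2), (8, 11, 3), (10, 11, 1), (10, 11, 2), (10, 11, 3)]

def rF1cP (i : ℕ) : ℕ := if i = 0 then 5 else if i = 2 then 3 else if i = 3 then 10 else if i = 5 then 11 else i

theorem rF1c_adm : rF1c.adm rF1cP = true := by decide

/-- the names -/
def rF1c_l : List Nm := [.rg 0, .rg 1, .rg 2, .rg 3, .rg 4, .rg 5, .ax 5, .ax 0, .ax 1, .ax 2, .ax 3, .ax 4, .sc 5]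

/-- the triangle edges of the ring -/
def rF1c_te (j : ZMod 6) : Bool := ([0, 1, 2, 3, 4, 5] : List (ZMod 6)).contains j

theorem rF1c_rchk : rchk rF1c rF1c_l rF1c_te = true := by decide

theorem rF1c_fchk : fchk rF1c rF1c_l rF1c_te 9 2 = true := by decide

/-- the flexible terminal -/
def rF1c_fl (i : ℕ) : Bool := i == 9

end Pool.Agent.Lib.SVY.RD
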