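import Pool.Agent.Lib.SVX.ChkF
import Pool.Agent.Lib.SVY.FlexData

/-!
# SVY.FlexOk: `ListOK` of the configurations (kernel check)
-/

set_option autoImplicit false
set_option maxRecDepth 100000

namespace Pool.Agent.Lib.SVY.RD

open Pool.Agent.Lib.SVX

/-- all checks, one after the other -/
theorem flexok_seq :
    (rA3.ListOKF rA3_fl) ∧
    (rF1c.ListOKF rF1c_fl) :=
  ⟨(Chk.ringD_cfgF
  (l := [.par 2 10 [], .tr 5 0 ⟨10, true, [], []⟩, .ed 0 1, .par 2 6 [], .tr 1 2 ⟨6, true, [], []⟩, .par 2 7 [], .pw 18 7, .tx 2 3 7 18])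
  (r := [.par 2 9 [], .tr 5 4 ⟨9, true, [], []⟩, .par 2 8 [], .tr 4 3 ⟨8, true, [], []⟩])
  (nodes := [(7, 2, []), (10, 2, []), (8, 2, [10]), (6, 2, []), (3, 0, [7, 8, 10]), (2, 3, [3, 6, 7])])
  (u0 := 5) (by decide +kernel)),
  (Chk.ringD_cfgF
  (l := [.par 3 12 [], .tr 0 5 ⟨6, false, [], [(12, true, [])]⟩, .par 2 11 [], .tr 5 4 ⟨11, true, [], []⟩, .par 2 10 [], .tr 4 3 ⟨10, true, [], []⟩, .par 2 9 [], .pw 22 9, .tx 3 2 9 22])
  (r := [.par 2 7 [], .tr 0 1 ⟨7, true, [], []⟩, .par 2 8 [], .tr 1 2 ⟨8, true, [], []⟩])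
  (nodes := [(7, 2, []), (11, 2, [7]), (8, 2, []), (10, 2, [8]), (1, 3, [7, 8, 10, 11])])
  (u0 := 0) (by decide +kernel))⟩

theorem rA3_okF : rA3.ListOKF rA3_fl := flexok_seq.1

theorem rF1c_okF : rF1c.ListOKF rF1c_fl := flexok_seq.2

end Pool.Agent.Lib.SVY.RD
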