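import Pool.Agent.Lib.SVY.RingC
import Pool.Agent.Lib.SVY.FlexOk

/-!
# SVY.CodesF: the reducible 6-faces with an exceptional apex

The fields `a3` and `f1c` of `CF`.
-/

set_option autoImplicit false
set_option linter.unusedSectionVars false

namespace Pool.Agent.Lib.SVY

open Finset Pool.Agent.Lib.SVT Pool.Agent.Lib.SVX

variable {V : Type*} [Fintype V] [DecidableEq V] {G : SimpleGraph V} {B : Finset V}
variable {m : ℕ} {F : Fin m → Finset (Sym2 V)}

namespace CodesFAux

theorem z6 (j : ZMod 6) : j = 0 ∨ j = 1 ∨ j = 2 ∨ j = 3 ∨ j = 4 ∨ j = 5 := by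
  decide +revert

end CodesFAux

open CodesFAux

theorem code_a3 (h : MinCE G B) (hF : Faces G F) : ∀ i (c : ZMod 6 → V), Ring G F i 6 c →
    OneP G B (c 0) → OneP G B (c 1) →
    WE G (c 0) (c 1) → FF G B (c 2) → FF G B (c 3) → FF G B (c 4) → FF G B (c 5) →
    Exc G B (apx G (c 2) (c 3)) → False := by
  intro i c hR k0 k1 _ k2 k3 k4 k5 hexc
  have t1 : TE G (c 1) (c 2) := FF.te' h k2 (hR.cyc.2 1)
  have t2 : TE G (c 2) (c 3) := FF.te h k2 (hR.cyc.2 2)
  have t3 : TE G (c 3) (c 4) := FF.te h k3 (hR.cyc.2 3)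
  have t4 : TE G (c 4) (c 5) := FF.te h k4 (hR.cyc.2 4)
  have t5 : TE G (c 5) (c 0) := FF.te h k5 (hR.cyc.2 5)
  have hte : ∀ j, RD.rA3_te j = true → TE G (c j) (c (j + 1)) := by
    intro j hj
    rcases z6 j with rfl | rfl | rfl | rfl | rfl | rfl
    · exact absurd hj (by decide)
    · exact t1
    · exact t2
    · exact t3
    · exact t4
    · exact t5
  have hd : ∀ j, 3 ≤ dg G (c j) := by
    intro j
    rcases z6 j with rfl | rfl | rfl | rfl | rfl | rfl
    · rw [k0.1.2.1]
    · rw [k1.1.2.1]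
    · rw [k2.2.1]; omega
    · rw [k3.2.1]; omega
    · rw [k4.2.1]; omega
    · rw [k5.2.1]; omega
  have ho : Occ G c RD.rA3_l (rsem G c (fun _ => c 0) (fun _ _ => c 0)) := by
    refine rsem_occ h hR ?_ ?_ ?_ ?_ ?_
    · intro j hj
      apply hte
      rcases z6 j with rfl | rfl | rfl | rfl | rfl | rfl
      · exact absurd hj (by decide)
      all_goals rfl
    · intro j hj
      exfalso
      revert hj
      simp [RD.rA3_l]
    · intro j hj
      exfalso
      revert hj
      simp [RD.rA3_l]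
    · intro j a hj
      exfalso
      revert hj
      simp [RD.rA3_l]
    · intro j a b hj
      exfalso
      revert hj
      simp [RD.rA3_l]
  refine ring_codeF (D := fun a => if a ≤ 1 then 3 else 4) h hF hR hd RD.rA3_adm
    (t := 7) (j := 2) RD.rA3_okF RD.rA3_rchk RD.rA3_fchk (by decide) rfl (by decide) ho hte ?_ ?_ hexc
  · intro a b ha hb hab hn
    have h1 := echkN_sound (cf := RD.rA3) (l := RD.rA3_l) (by decide) ha hb hab
    rw [hn] at h1
    exact absurd h1 (by decide)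
  · intro a ha hiH
    have ha' : a < 11 := ha
    interval_cases a
    · exact ⟨k0.1.1, k0.1.2.1.le⟩
    · exact ⟨k1.1.1, k1.1.2.1.le⟩
    · exact ⟨k2.1, k2.2.1.le⟩
    · exact ⟨k3.1, k3.2.1.le⟩
    · exact ⟨k4.1, k4.2.1.le⟩
    · exact ⟨k5.1, k5.2.1.le⟩
    all_goals exact absurd hiH (by decide)

theorem code_f1c (h : MinCE G B) (hF : Faces G F) : ∀ i (c : ZMod 6 → V), Ring G F i 6 c →
    (∀ j, FF G B (c j)) →
    OneP G B (apx G (c 5) (c 0)) → Exc G B (apx G (c 2) (c 3)) → False := by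
  intro i c hR hk hv hexc
  have ht : ∀ j, TE G (c j) (c (j + 1)) := fun j => FF.te h (hk j) (hR.cyc.2 j)
  obtain ⟨z, hz, hz1⟩ := hv.2
  have hd : ∀ j, 3 ≤ dg G (c j) := by
    intro j
    rw [(hk j).2.1]
    omega
  have ho : Occ G c RD.rF1c_l (rsem G c (fun _ => z) (fun _ _ => c 0)) := by
    refine rsem_occ h hR (fun j _ => ht j) ?_ ?_ ?_ ?_
    · intro j hj
      have e : j = 5 := by
        revert hj
        simp [RD.rF1c_l]
      subst e
      exact ⟨by decide, hz⟩
    · intro j _ _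
      have h1 := ht (j + 1)
      have e : j + 1 + 1 = j + 2 := by ring
      rwa [e] at h1
    · intro j a hj
      exfalso
      revert hj
      simp [RD.rF1c_l]
    · intro j a b hj
      exfalso
      revert hj
      simp [RD.rF1c_l]
  refine ring_codeF (D := fun a => if a ≤ 5 then 4 else 3) h hF hR hd RD.rF1c_adm
    (t := 9) (j := 2) RD.rF1c_okF RD.rF1c_rchk RD.rF1c_fchk (by decide) rfl (by decide) ho
    (fun j _ => ht j) ?_ ?_ hexc
  · intro a b ha hb hab hn
    have h1 := echkN_sound (cf := RD.rF1c) (l := RD.rF1c_l) (by decide) ha hb hab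
    rw [hn] at h1
    exact absurd h1 (by decide)
  · intro a ha hiH
    have ha' : a < 13 := ha
    interval_cases a
    · exact ⟨(hk 0).1, (hk 0).2.1.le⟩
    · exact ⟨(hk 1).1, (hk 1).2.1.le⟩
    · exact ⟨(hk 2).1, (hk 2).2.1.le⟩
    · exact ⟨(hk 3).1, (hk 3).2.1.le⟩
    · exact ⟨(hk 4).1, (hk 4).2.1.le⟩
    · exact ⟨(hk 5).1, (hk 5).2.1.le⟩
    · exact ⟨hv.1.1, hv.1.2.1.le⟩
    · exact absurd hiH (by decide)
    · exact absurd hiH (by decide)
    · exact absurd hiH (by decide)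
    · exact absurd hiH (by decide)
    · exact absurd hiH (by decide)
    · exact ⟨hz1.1, hz1.2.1.le⟩

end Pool.Agent.Lib.SVY
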