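import Pool.Agent.Lib.SVY.RedData

/-!
# SVY.RedData3: FFGFFG TVTVTV (data)
-/

set_option autoImplicit false
set_option maxRecDepth 100000

namespace Pool.Agent.Lib.SVY.RD

open Pool.Agent.Lib.SVX

/-- FFGFFG TVTVTV, new edges l0-l2, l0-l4, l2-l4 -/
def rG2 : Cfg where
  nc := 9
  nt := 8
  E := [(0, 1), (0, 5), (0, 8), (0, 14), (1, 2), (1, 6), (1, 14), (2, 3), (2, 6), (2, 12), (2, 15), (3, 4), (3, 7), (3, 15), (4, 5), (4, 7), (4, 16), (5, 8), (5, 13), (5, 16), (6, 9), (7, 10), (8, 11)]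
  Bs := []
  outs := fun i => if i == 9 || i == 10 || i == 11 || i == 12 || i == 13 then 2 else 0
  sm := fun i => i == 9 || i == 10 || i == 11 || i == 12 || i == 13
  keep := []
  pi := fun i => if i = 0 then 14 else if i = 1 then 14 else if i = 2 then 15 else if i = 3 then 15 else if i = 4 then 16 else if i = 5 then 16 else i
  NE := [(14, 15), (14, 16), (15, 16)]
  al := [(14, 15, 1), (14, 15, 2), (14, 15, 3), (14, 15, 4), (14, 16, 1), (14, 16, 2), (14, 16, 3), (14, 16, 4), (15, 16, 1), (15, 16, 2), (15, 16, 3), (15, 16, 4)]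

def rG2P (i : ℕ) : ℕ := if i = 0 then 14 else if i = 1 then 14 else if i = 2 then 15 else if i = 3 then 15 else if i = 4 then 16 else if i = 5 then 16 else i

theorem rG2_adm : rG2.adm rG2P = true := by decide

/-- the names -/
def rG2_l : List Nm := [.rg 0, .rg 1, .rg 2, .rg 3, .rg 4, .rg 5, .ax 1, .ax 3, .ax 5, .sc 1, .sc 3, .sc 5, .pn 2 0, .pn 5 0, .ax 0, .ax 2, .ax 4]

/-- the triangle edges of the ring -/
def rG2_te (j : ZMod 6) : Bool := ([0, 1, 2, 3, 4, 5] : List (ZMod 6)).contains j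

theorem rG2_rchk : rchk rG2 rG2_l rG2_te = true := by decide

end Pool.Agent.Lib.SVY.RD
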