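import Pool.Agent.Lib.SVX.ChkD
import Pool.Agent.Lib.SVY.RedData3

/-!
# SVY.RedOk6: `ListOK` of the configurations (kernel check)
-/

set_option autoImplicit false
set_option maxRecDepth 100000

namespace Pool.Agent.Lib.SVY.RD

open Pool.Agent.Lib.SVX

/-- left strip of `rG2` -/
def rG2_sl : List Chk.St := [.par 2 14 [], .tr 0 1 ⟨14, true, [], []⟩, .par 3 9 [], .tr 1 2 ⟨6, false, [], [(9, true, [])]⟩, .par 3 12 [], .vf ⟨2, false, [], [(12, true, [])]⟩, .par 2 15 [14], .tr 2 3 ⟨15, true, [], []⟩, .par 3 10 [], .tr 3 4 ⟨7, false, [], [(10, true, [])]⟩, .par 2 16 [14, 15], .tr 4 5 ⟨16, true, [], []⟩]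

/-- right strip of `rG2` -/
def rG2_sr : List Chk.St := [.tr 0 5 ⟨8, false, [], [(11, true, [])]⟩, .par 3 13 [], .vf ⟨5, false, [], [(13, true, [])]⟩]

/-- nodes of `rG2` -/
def rG2_sn : List (ℕ × ℕ × List ℕ) := [(14, 2, []), (15, 2, [14]), (16, 2, [14, 15])]

/-- all checks, one after the other -/
theorem redok6_seq :
    (Chk.ringP rG2_sl 11 rG2_sr rG2_sn [7, 11, 13, 14, 19] = true) ∧
    (Chk.ringP rG2_sl 11 rG2_sr rG2_sn [21, 22, 25, 26, 28] = true) ∧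
    (Chk.ringP rG2_sl 11 rG2_sr rG2_sn [35, 37, 38, 41, 42] = true) ∧
    (Chk.ringP rG2_sl 11 rG2_sr rG2_sn [44, 49, 50, 52, 56] = true) ∧
    (Chk.ringP rG2_sl 11 rG2_sr rG2_sn [67, 69, 70, 73, 74] = true) ∧
    (Chk.ringP rG2_sl 11 rG2_sr rG2_sn [76, 81, 82, 84, 88] = true) ∧
    (Chk.ringP rG2_sl 11 rG2_sr rG2_sn [97, 98, 100, 104, 112] = true) :=
  ⟨(by decide +kernel),
  (by decide +kernel),
  (by decide +kernel),
  (by decide +kernel),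
  (by decide +kernel),
  (by decide +kernel),
  (by decide +kernel)⟩

theorem rG2_p0 : Chk.ringP rG2_sl 11 rG2_sr rG2_sn [7, 11, 13, 14, 19] = true := redok6_seq.1

theorem rG2_p1 : Chk.ringP rG2_sl 11 rG2_sr rG2_sn [21, 22, 25, 26, 28] = true := redok6_seq.2.1

theorem rG2_p2 : Chk.ringP rG2_sl 11 rG2_sr rG2_sn [35, 37, 38, 41, 42] = true := redok6_seq.2.2.1

theorem rG2_p3 : Chk.ringP rG2_sl 11 rG2_sr rG2_sn [44, 49, 50, 52, 56] = true := redok6_seq.2.2.2.1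

theorem rG2_p4 : Chk.ringP rG2_sl 11 rG2_sr rG2_sn [67, 69, 70, 73, 74] = true := redok6_seq.2.2.2.2.1

theorem rG2_p5 : Chk.ringP rG2_sl 11 rG2_sr rG2_sn [76, 81, 82, 84, 88] = true := redok6_seq.2.2.2.2.2.1

theorem rG2_p6 : Chk.ringP rG2_sl 11 rG2_sr rG2_sn [97, 98, 100, 104, 112] = true := redok6_seq.2.2.2.2.2.2

theorem rG2_ok : rG2.ListOK := Chk.ringP_cfg (u0 := 0) (s := 3) (dis := [])
  (by decide +kernel) (by decide +kernel)
  (Chk.AllP_cons rG2_p0 (Chk.AllP_cons rG2_p1 (Chk.AllP_cons rG2_p2 (Chk.AllP_cons rG2_p3 (Chk.AllP_cons rG2_p4 (Chk.AllP_cons rG2_p5 (Chk.AllP_cons rG2_p6 Chk.AllP_nil)))))))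

end Pool.Agent.Lib.SVY.RD
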