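import Pool.Agent.Lib.SVY.CodesD
import Pool.Agent.Lib.SVY.RedOk6

/-!
# SVY.CodesG: reducible 6-faces

The field `g2` of `CF`.
-/

set_option autoImplicit false
set_option linter.unusedSectionVars false

namespace Pool.Agent.Lib.SVY

open Finset Pool.Agent.Lib.SVT Pool.Agent.Lib.SVX

variable {V : Type*} [Fintype V] [DecidableEq V] {G : SimpleGraph V} {B : Finset V}
variable {m : ℕ} {F : Fin m → Finset (Sym2 V)}

open CodesAAux CodesBAux

theorem code_g2 (h : MinCE G B) (hF : Faces G F) : ∀ i (c : ZMod 6 → V), Ring G F i 6 c →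
    FF G B (c 0) → FF G B (c 1) → Ex2 G B (c 2) →
    FF G B (c 3) → FF G B (c 4) → Ex2 G B (c 5) → OneP G B (apx G (c 1) (c 2)) →
    OneP G B (apx G (c 3) (c 4)) → OneP G B (apx G (c 5) (c 0)) → TE G (c 2) (c 3) →
    TE G (c 4) (c 5) → False := by
  intro i c hR k0 k1 k2 k3 k4 k5 hv1 hv3 hv5 t2 t4
  have t0 : TE G (c 0) (c 1) := FF.te h k0 (hR.cyc.2 0)
  have t1 : TE G (c 1) (c 2) := FF.te h k1 (hR.cyc.2 1)
  have t2 : TE G (c 2) (c 3) := t2
  have t3 : TE G (c 3) (c 4) := FF.te h k3 (hR.cyc.2 3)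
  have t4 : TE G (c 4) (c 5) := t4
  have t5 : TE G (c 5) (c 0) := FF.te' h k0 (hR.cyc.2 5)
  have hte : ∀ j, RD.rG2_te j = true → TE G (c j) (c (j + 1)) := by
    intro j hj
    rcases z6 j with rfl | rfl | rfl | rfl | rfl | rfl
    · exact t0
    · exact t1
    · exact t2
    · exact t3
    · exact t4
    · exact t5
  have hd : ∀ j, 3 ≤ dg G (c j) := by
    intro j
    rcases z6 j with rfl | rfl | rfl | rfl | rfl | rfl
    · rw [k0.2.1]; omega
    · rw [k1.2.1]; omega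
    · rw [k2.2.1]; omega
    · rw [k3.2.1]; omega
    · rw [k4.2.1]; omega
    · rw [k5.2.1]; omega
  obtain ⟨z1, hz1, oz1⟩ := hv1.2
  obtain ⟨z3, hz3, oz3⟩ := hv3.2
  obtain ⟨z5, hz5, oz5⟩ := hv5.2
  obtain ⟨x2, w2⟩ := ex2_weak h k2
  have d2 := k2.2.2.2 x2 w2
  obtain ⟨x5, w5⟩ := ex2_weak h k5
  have d5 := k5.2.2.2 x5 w5
  have p2 := pn_weak h hR w2 (j := 2) (by
    rintro rfl
    exact t2.not_we w2) (by
    rintro rfl
    exact t1.symm.not_we w2)
  have p5 := pn_weak h hR w5 (j := 5) (by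
    rintro rfl
    exact t5.not_we w5) (by
    rintro rfl
    exact t4.symm.not_we w5)
  have hpn : ∀ (j : ZMod 6) (a : ℕ), Nm.pn j a ∈ RD.rG2_l → (j = 2 ∧ a = 0) ∨ (j = 5 ∧ a = 0) := by
    intro j a hj
    revert hj
    simp [RD.rG2_l]
  have hscm : ∀ (j : ZMod 6), Nm.sc j ∈ RD.rG2_l → j = 1 ∨ j = 3 ∨ j = 5 := by
    intro j hj
    revert hj
    simp [RD.rG2_l]
  have ho : Occ G c RD.rG2_l (rsem G c (fun j => if j = 1 then z1 else if j = 3 then z3 else z5) (fun j _ => if j = 2 then x2 else x5)) := by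
    refine rsem_occ h hR ?_ ?_ ?_ ?_ ?_
    · intro j hj
      apply hte
      rcases z6 j with rfl | rfl | rfl | rfl | rfl | rfl
      · rfl
      · rfl
      · rfl
      · rfl
      · rfl
      · rfl
    · intro j hj
      rcases hscm j hj with rfl | rfl | rfl
      · exact ⟨by decide, hz1⟩
      · exact ⟨by decide, hz3⟩
      · exact ⟨by decide, hz5⟩
    · intro j hj hj'
      have e1 := hscm j hj
      have e2 := hscm _ hj'
      rcases e1 with rfl | rfl | rfl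
      · exact t2
      · exact t4
      · exact t0
    · intro j a hj
      rcases hpn j a hj with ⟨rfl, rfl⟩ | ⟨rfl, rfl⟩
      · exact p2
      · exact p5
    · intro j a b ha hb _
      rcases hpn j a ha with ⟨rfl, rfl⟩ | ⟨rfl, rfl⟩ <;>
      rcases hpn _ b hb with ⟨e, rfl⟩ | ⟨e, rfl⟩ <;> rfl
  refine ring_code (D := fun a => ([4, 4, 5, 4, 4, 5, 3, 3, 3, 3, 3, 3, 3, 3, 0, 0, 0] : List ℕ).getD a 0) h hF hR hd
    RD.rG2_adm RD.rG2_ok RD.rG2_rchk (by decide) rfl (by decide) ho hte ?_ ?_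
  · intro a b ha hb hab hn
    have h1 := echkN_sound (cf := RD.rG2) (l := RD.rG2_l) (by decide) ha hb hab
    rw [hn] at h1
    exact absurd h1 (by decide)
  · intro a ha hiH
    have ha' : a < 17 := ha
    interval_cases a
    · exact ⟨k0.1, k0.2.1.le⟩
    · exact ⟨k1.1, k1.2.1.le⟩
    · exact ⟨k2.1, k2.2.1.le⟩
    · exact ⟨k3.1, k3.2.1.le⟩
    · exact ⟨k4.1, k4.2.1.le⟩
    · exact ⟨k5.1, k5.2.1.le⟩
    · exact ⟨hv1.1.1, hv1.1.2.1.le⟩
    · exact ⟨hv3.1.1, hv3.1.2.1.le⟩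
    · exact ⟨hv5.1.1, hv5.1.2.1.le⟩
    · exact ⟨oz1.1, oz1.2.1.le⟩
    · exact ⟨oz3.1, oz3.2.1.le⟩
    · exact ⟨oz5.1, oz5.2.1.le⟩
    · exact ⟨(dm_deg d2).1, (dm_deg d2).2.le⟩
    · exact ⟨(dm_deg d5).1, (dm_deg d5).2.le⟩
    · exact absurd hiH (by decide)
    · exact absurd hiH (by decide)
    · exact absurd hiH (by decide)

end Pool.Agent.Lib.SVY
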