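import Pool.Agent.Lib.SVY.RingU

/-!
# SVY.FlexData2: 3FFFFX TTTVTW (data)

`c 5` is a fixed terminal; one of the apexes of the first three ring edges is flexible.
-/

set_option autoImplicit false
set_option maxRecDepth 100000

namespace Pool.Agent.Lib.SVY.RD

open Pool.Agent.Lib.SVX

/-- 3FFFFX TTTVTW, `c 5` fixed: new edges c5-l1, c5-l2, l2-l4 -/
def rX5 : Cfg where
  nc := 6
  nt := 6
  E := [(0, 1), (1, 2), (2, 3), (3, 4), (4, 7), (0, 7), (0, 8), (1, 8), (1, 9), (2, 9), (2, 10), (3, 10), (3, 5), (4, 5), (4, 11), (5, 6)]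
  Bs := [(7, 11)]
  outs := fun i => if i == 6 then 2 else 0
  sm := fun i => i == 6
  keep := []
  pi := fun i => if i = 0 then 7 else if i = 1 then 7 else if i = 3 then 10 else if i = 4 then 10 else i
  NE := [(7, 9), (7, 10), (10, 11)]
  al := [(7, 9, 1), (7, 9, 2), (7, 9, 3), (7, 9, 4), (7, 10, 1), (7, 10, 2), (7, 10, 3), (7, 10, 4), (7, 11, 2), (7, 11, 3), (9, 10, 1), (9, 10, 2), (9, 10, 3), (9, 11, 1), (9, 11, 2), (10, 11, 1), (10, 11, 2), (10, 11, 3), (10, 11, 4)]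

def rX5P (i : ℕ) : ℕ := if i = 0 then 7 else if i = 1 then 0 else if i = 3 then 10 else if i = 4 then 3 else i

theorem rX5_adm : rX5.adm rX5P = true := by decide

/-- the names -/
def rX5_l : List Nm := [.rg 0, .rg 1, .rg 2, .rg 3, .rg 4, .ax 3, .sc 3, .rg 5, .ax 0, .ax 1, .ax 2, .ax 4]

/-- the triangle edges of the ring -/
def rX5_te (j : ZMod 6) : Bool := ([0, 1, 2, 3, 4] : List (ZMod 6)).contains j

theorem rX5_rchk : rchkU rX5 rX5_l rX5_te 5 = true := by decide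

theorem rX5_fchk0 : fchk rX5 rX5_l rX5_te 8 0 = true := by decide

theorem rX5_fchk2 : fchk rX5 rX5_l rX5_te 10 2 = true := by decide

/-- 3FFFFX TTTVTW, `c 5` fixed: new edges c5-l2, l0-l2 -/
def rX6 : Cfg where
  nc := 6
  nt := 6
  E := [(0, 1), (1, 2), (2, 3), (3, 4), (4, 7), (0, 7), (0, 8), (1, 8), (1, 9), (2, 9), (2, 10), (3, 10), (3, 5), (4, 5), (4, 11), (5, 6)]
  Bs := [(7, 11)]
  outs := fun i => if i == 6 then 2 else 0
  sm := fun i => i == 6
  keep := []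
  pi := fun i => if i = 0 then 7 else if i = 1 then 10 else if i = 2 then 10 else i
  NE := [(7, 10), (8, 10)]
  al := [(7, 8, 2), (7, 8, 3), (7, 10, 1), (7, 10, 2), (7, 10, 3), (7, 10, 4), (8, 10, 1), (8, 10, 2), (8, 10, 3), (8, 10, 4)]

def rX6P (i : ℕ) : ℕ := if i = 0 then 7 else if i = 1 then 2 else if i = 2 then 10 else i

theorem rX6_adm : rX6.adm rX6P = true := by decide

/-- the names -/
def rX6_l : List Nm := [.rg 0, .rg 1, .rg 2, .rg 3, .rg 4, .ax 3, .sc 3, .rg 5, .ax 0, .ax 1, .ax 2, .ax 4]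

/-- the triangle edges of the ring -/
def rX6_te (j : ZMod 6) : Bool := ([0, 1, 2, 3, 4] : List (ZMod 6)).contains j

theorem rX6_rchk : rchkU rX6 rX6_l rX6_te 5 = true := by decide

theorem rX6_fchk1 : fchk rX6 rX6_l rX6_te 9 1 = true := by decide

end Pool.Agent.Lib.SVY.RD
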