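import Pool.Agent.Lib.SVX.ChkF
import Pool.Agent.Lib.SVY.FlexData2

/-!
# SVY.FlexOk2: `ListOK` of the configurations (kernel check)
-/

set_option autoImplicit false
set_option maxRecDepth 100000

namespace Pool.Agent.Lib.SVY.RD

open Pool.Agent.Lib.SVX

/-- all checks, one after the other -/
theorem flexok2_seq :
    (rX5.ListOKF (fun i => i == 8)) ∧
    (rX6.ListOKF (fun i => i == 9)) ∧
    (rX5.ListOKF (fun i => i == 10)) :=
  ⟨(Chk.ringD_cfgF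
  (l := [.ed 0 7, .par 2 7 [], .vf ⟨7, true, [], []⟩, .ed 7 4, .par 2 11 [7], .vf ⟨4, false, [11], []⟩, .par 3 6 [], .tr 4 3 ⟨5, false, [], [(6, true, [])]⟩, .par 2 10 [7, 11], .tr 3 2 ⟨10, true, [], []⟩, .par 2 9 [7], .tr 2 1 ⟨9, true, [], []⟩])
  (r := [.par 2 8 [], .pw 20 8, .tx 0 1 8 20])
  (nodes := [(7, 2, []), (9, 2, [7]), (10, 2, [7]), (11, 2, [7, 10])])
  (u0 := 0) (by decide +kernel)),
  (Chk.ringD_cfgF
  (l := [.par 2 10 [], .tr 3 2 ⟨10, true, [], []⟩, .par 2 9 [], .pw 21 9, .tx 2 1 9 21, .par 2 8 [10], .tr 1 0 ⟨8, true, [], []⟩, .ed 0 7, .par 2 7 [10], .vf ⟨7, true, [], []⟩, .ed 7 4, .par 2 11 [7], .vf ⟨4, false, [11], []⟩])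
  (r := [.par 3 6 [], .tr 3 4 ⟨5, false, [], [(6, true, [])]⟩])
  (nodes := [(7, 2, []), (10, 2, [7]), (8, 2, [10]), (11, 2, [7])])
  (u0 := 3) (by decide +kernel)),
  (Chk.ringD_cfgF
  (l := [.par 2 10 [], .pw 22 10, .tx 3 2 10 22, .par 2 9 [], .tr 2 1 ⟨9, true, [], []⟩, .par 2 8 [], .tr 1 0 ⟨8, true, [], []⟩, .ed 0 7, .par 2 7 [9, 10], .vf ⟨7, true, [], []⟩, .ed 7 4, .par 2 11 [7, 10], .vf ⟨4, false, [11], []⟩])
  (r := [.par 3 6 [], .tr 3 4 ⟨5, false, [], [(6, true, [])]⟩])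
  (nodes := [(7, 2, []), (9, 2, [7]), (10, 2, [7]), (11, 2, [7, 10])])
  (u0 := 3) (by decide +kernel))⟩

theorem rX5_okF0 : rX5.ListOKF (fun i => i == 8) := flexok2_seq.1

theorem rX6_okF1 : rX6.ListOKF (fun i => i == 9) := flexok2_seq.2.1

theorem rX5_okF2 : rX5.ListOKF (fun i => i == 10) := flexok2_seq.2.2

end Pool.Agent.Lib.SVY.RD
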