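import Pool.Agent.Lib.SVY.CodesB
import Pool.Agent.Lib.SVY.FlexOk2

/-!
# SVY.CodesH: the reducible 6-face 3FFFFG TTTVTW

The field `ffffx` of `CF`.
-/

set_option autoImplicit false
set_option linter.unusedSectionVars false

namespace Pool.Agent.Lib.SVY

open Finset Pool.Agent.Lib.SVT Pool.Agent.Lib.SVX

variable {V : Type*} [Fintype V] [DecidableEq V] {G : SimpleGraph V} {B : Finset V}
variable {m : ℕ} {F : Fin m → Finset (Sym2 V)}

namespace CodesHAux

theorem z6 (j : ZMod 6) : j = 0 ∨ j = 1 ∨ j = 2 ∨ j = 3 ∨ j = 4 ∨ j = 5 := by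
  decide +revert

end CodesHAux

open CodesHAux

/-- the common part of the three cases -/
theorem ffffx_aux (h : MinCE G B) (hF : Faces G F) {i : Fin m} {c : ZMod 6 → V}
    (hR : Ring G F i 6 c) (k0 : One G B (c 0)) (k1 : FF G B (c 1)) (k2 : FF G B (c 2))
    (k3 : FF G B (c 3)) (k4 : FF G B (c 4)) (t4 : TE G (c 4) (c 5)) (k5 : Ex2 G B (c 5))
    (hv : OneP G B (apx G (c 3) (c 4))) {cf : Cfg} {par : ℕ → ℕ} {t : ℕ} {j : ZMod 6}
    (hadm : cf.adm par = true) (hlist : cf.ListOKF (fun i => i == t))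
    (hchk : rchkU cf RD.rX5_l RD.rX5_te 5 = true)
    (hf : fchk cf RD.rX5_l RD.rX5_te t j = true) (hN : cf.N = 12)
    (he : echkN cf RD.rX5_l = true)
    (hdc : dchk cf (fun a => if a = 0 ∨ a = 5 ∨ a = 6 then 3 else 4) = true)
    (hiH : ∀ a, a < 12 → cf.inH a = true → a ≤ 6)
    (hnp : ¬ Np G B (apx G (c j) (c (j + 1)))) : False := by
  have t0 : TE G (c 0) (c 1) := FF.te' h k1 (hR.cyc.2 0)
  have t1 : TE G (c 1) (c 2) := FF.te h k1 (hR.cyc.2 1)
  have t2 : TE G (c 2) (c 3) := FF.te h k2 (hR.cyc.2 2)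
  have t3 : TE G (c 3) (c 4) := FF.te h k3 (hR.cyc.2 3)
  have hte : ∀ j, RD.rX5_te j = true → TE G (c j) (c (j + 1)) := by
    intro j hj
    rcases z6 j with rfl | rfl | rfl | rfl | rfl | rfl
    · exact t0
    · exact t1
    · exact t2
    · exact t3
    · exact t4
    · exact absurd hj (by decide)
  have hd : ∀ j, 3 ≤ dg G (c j) := by
    intro j
    rcases z6 j with rfl | rfl | rfl | rfl | rfl | rfl
    · rw [k0.2.1]
    · rw [k1.2.1]; omega
    · rw [k2.2.1]; omega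
    · rw [k3.2.1]; omega
    · rw [k4.2.1]; omega
    · rw [k5.2.1]; omega
  obtain ⟨z, hz, hz1⟩ := hv.2
  have ho : Occ G c RD.rX5_l (rsem G c (fun _ => z) (fun _ _ => c 0)) := by
    refine rsem_occ h hR ?_ ?_ ?_ ?_ ?_
    · intro j hj
      apply hte
      rcases z6 j with rfl | rfl | rfl | rfl | rfl | rfl
      · rfl
      · rfl
      · rfl
      · rfl
      · rfl
      · exact absurd hj (by decide)
    · intro j hj
      have e : j = 3 := by
        revert hj
        simp [RD.rX5_l]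
      subst e
      exact ⟨by decide, hz⟩
    · intro j hj hj'
      have e : j = 3 := by
        revert hj
        simp [RD.rX5_l]
      subst e
      exfalso
      revert hj'
      decide
    · intro j a hj
      exfalso
      revert hj
      simp [RD.rX5_l]
    · intro j a b hj
      exfalso
      revert hj
      simp [RD.rX5_l]
  set sem := rsem G c (fun _ => z) (fun _ _ => c 0) with hsem
  obtain ⟨d1, d2⟩ := dchk_sound hdc
  have hH : ∀ a, a < 12 → cf.inH a = true → sem (RD.rX5_l.getD a (.rg 0)) ∉ B ∧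
      dg G (sem (RD.rX5_l.getD a (.rg 0))) ≤ (if a = 0 ∨ a = 5 ∨ a = 6 then 3 else 4) := by
    intro a ha hi
    have h6 := hiH a ha hi
    interval_cases a
    · exact ⟨k0.1, k0.2.1.le⟩
    · exact ⟨k1.1, k1.2.1.le⟩
    · exact ⟨k2.1, k2.2.1.le⟩
    · exact ⟨k3.1, k3.2.1.le⟩
    · exact ⟨k4.1, k4.2.1.le⟩
    · exact ⟨hv.1.1, hv.1.2.1.le⟩
    · exact ⟨hz1.1, hz1.2.1.le⟩
  have hNc : ∀ r, r < cf.nc → r < cf.N := fun r hr => Nat.lt_of_lt_of_le hr (Nat.le_add_right _ _)
  have hHc : ∀ r, r < cf.nc → cf.inH r = true := by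
    intro r hr
    unfold Cfg.inH
    rw [decide_eq_true hr, Bool.true_or]
  have hTN : ∀ t, cf.isT t = true → t < cf.N := by
    intro t ht
    unfold Cfg.isT at ht
    rw [Bool.and_eq_true, decide_eq_true_eq, decide_eq_true_eq] at ht
    exact ht.2
  have hTH : ∀ t, cf.isT t = true → cf.sm t = true → cf.inH t = true := by
    intro t h1 h2
    unfold Cfg.inH
    rw [h1, h2]
    simp
  have hin := ring_instU (u := 5) h hF hR hd (cf := cf) (l := RD.rX5_l) (te := RD.rX5_te)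
    (sem := sem) (by rw [hN]; rfl) (by decide) hchk ho hte
    (fun a b ha hb hab hn => by
      have h1 := echkN_sound (cf := cf) (l := RD.rX5_l) he ha hb hab
      rw [hn] at h1
      exact absurd h1 (by decide))
    (fun a ha hi => (hH a (hN ▸ ha) hi).1)
    (fun a ha => (hH a (hN ▸ hNc a ha) (hHc a ha)).2.trans (d1 a ha))
    (fun a h1 h2 => (hH a (hN ▸ hTN a h1) (hTH a h1 h2)).2.trans (d2 a h1 h2))
  exact ring_falseG h hF hR hd hadm hlist hf (by rw [hN]; rfl) ho hte hin hnp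

theorem code_ffffx (h : MinCE G B) (hF : Faces G F) : ∀ i (c : ZMod 6 → V), Ring G F i 6 c →
    One G B (c 0) → FF G B (c 1) →
    FF G B (c 2) → FF G B (c 3) → FF G B (c 4) → TE G (c 4) (c 5) → Ex2 G B (c 5) →
    WE G (c 5) (c 0) → OneP G B (apx G (c 3) (c 4)) →
    (¬ Np G B (apx G (c 0) (c 1)) ∨ ¬ Np G B (apx G (c 1) (c 2)) ∨
      ¬ Np G B (apx G (c 2) (c 3))) → False := by
  intro i c hR k0 k1 k2 k3 k4 t4 k5 _ hv hnp
  rcases hnp with hnp | hnp | hnp
  · exact ffffx_aux (j := 0) h hF hR k0 k1 k2 k3 k4 t4 k5 hv RD.rX5_adm RD.rX5_okF0 RD.rX5_rchk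
      RD.rX5_fchk0 rfl (by decide) (by decide) (by decide) hnp
  · exact ffffx_aux (j := 1) h hF hR k0 k1 k2 k3 k4 t4 k5 hv RD.rX6_adm RD.rX6_okF1 RD.rX6_rchk
      RD.rX6_fchk1 rfl (by decide) (by decide) (by decide) hnp
  · exact ffffx_aux (j := 2) h hF hR k0 k1 k2 k3 k4 t4 k5 hv RD.rX5_adm RD.rX5_okF2 RD.rX5_rchk
      RD.rX5_fchk2 rfl (by decide) (by decide) (by decide) hnp

end Pool.Agent.Lib.SVY
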