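import Pool.Agent.Lib.SVW.ChkN
import Pool.Agent.Lib.SVY.RedData2

/-!
# SVY.RedOk7: `ListOK` of the configurations (kernel check)
-/

set_option autoImplicit false
set_option maxRecDepth 100000

namespace Pool.Agent.Lib.SVY.RD

open Pool.Agent.Lib.SVX

/-- left strip of `rG3` -/
def rG3_sl : List Chk.St := [.par 3 8 [], .vf ⟨2, false, [], [(8, true, [])]⟩, .par 2 11 [], .tr 2 3 ⟨11, true, [], []⟩, .par 3 7 [], .tr 3 4 ⟨6, false, [], [(7, true, [])]⟩, .par 2 12 [11], .tr 4 5 ⟨12, true, [], []⟩, .par 3 9 [], .vf ⟨5, false, [], [(9, true, [])]⟩]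

/-- right strip of `rG3` -/
def rG3_sr : List Chk.St := [.tr 2 1 ⟨10, true, [], []⟩, .ed 1 0, .par 2 13 [], .tr 0 5 ⟨13, true, [], []⟩]

/-- nodes of `rG3` -/
def rG3_sn : List (ℕ × ℕ × List ℕ) := [(10, 2, []), (11, 2, []), (12, 2, [11]), (13, 2, []), (8, 1, []), (2, 3, [8, 10, 11]), (5, 0, [12, 13]), (9, 1, [5])]

/-- all checks, one after the other -/
theorem redok7_seq :
    (Chk.ringPM rG3_sl 10 rG3_sr rG3_sn 0 0 [3, 5] = true) ∧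
    (Chk.ringPM rG3_sl 10 rG3_sr rG3_sn 0 0 [6, 9] = true) ∧
    (Chk.ringPM rG3_sl 10 rG3_sr rG3_sn 0 0 [10, 12] = true) ∧
    (Chk.ringPM rG3_sl 10 rG3_sr rG3_sn 0 0 [17, 18] = true) ∧
    (Chk.ringPM rG3_sl 10 rG3_sr rG3_sn 0 0 [20, 24] = true) ∧
    (Chk.ringPM rG3_sl 10 rG3_sr rG3_sn 0 0 [33, 34] = true) ∧
    (Chk.ringPM rG3_sl 10 rG3_sr rG3_sn 0 0 [36, 40] = true) ∧
    (Chk.ringPM rG3_sl 10 rG3_sr rG3_sn 0 0 [48, 65] = true) ∧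
    (Chk.ringPM rG3_sl 10 rG3_sr rG3_sn 0 0 [66, 68] = true) ∧
    (Chk.ringPM rG3_sl 10 rG3_sr rG3_sn 0 0 [72, 80] = true) ∧
    (Chk.ringPM rG3_sl 10 rG3_sr rG3_sn 2 0 [96] = true) ∧
    (Chk.ringPM rG3_sl 10 rG3_sr rG3_sn 2 1 [96] = true) ∧
    (Chk.ringPM rG3_sl 10 rG3_sr rG3_sn 2 2 [96] = true) :=
  ⟨(by decide +kernel),
  (by decide +kernel),
  (by decide +kernel),
  (by decide +kernel),
  (by decide +kernel),
  (by decide +kernel),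
  (by decide +kernel),
  (by decide +kernel),
  (by decide +kernel),
  (by decide +kernel),
  (by decide +kernel),
  (by decide +kernel),
  (by decide +kernel)⟩

theorem rG3_p0 : Chk.ringPM rG3_sl 10 rG3_sr rG3_sn 0 0 [3, 5] = true := redok7_seq.1

theorem rG3_p1 : Chk.ringPM rG3_sl 10 rG3_sr rG3_sn 0 0 [6, 9] = true := redok7_seq.2.1

theorem rG3_p2 : Chk.ringPM rG3_sl 10 rG3_sr rG3_sn 0 0 [10, 12] = true := redok7_seq.2.2.1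

theorem rG3_p3 : Chk.ringPM rG3_sl 10 rG3_sr rG3_sn 0 0 [17, 18] = true := redok7_seq.2.2.2.1

theorem rG3_p4 : Chk.ringPM rG3_sl 10 rG3_sr rG3_sn 0 0 [20, 24] = true := redok7_seq.2.2.2.2.1

theorem rG3_p5 : Chk.ringPM rG3_sl 10 rG3_sr rG3_sn 0 0 [33, 34] = true := redok7_seq.2.2.2.2.2.1

theorem rG3_p6 : Chk.ringPM rG3_sl 10 rG3_sr rG3_sn 0 0 [36, 40] = true := redok7_seq.2.2.2.2.2.2.1

theorem rG3_p7 : Chk.ringPM rG3_sl 10 rG3_sr rG3_sn 0 0 [48, 65] = true := redok7_seq.2.2.2.2.2.2.2.1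

theorem rG3_p8 : Chk.ringPM rG3_sl 10 rG3_sr rG3_sn 0 0 [66, 68] = true := redok7_seq.2.2.2.2.2.2.2.2.1

theorem rG3_p9 : Chk.ringPM rG3_sl 10 rG3_sr rG3_sn 0 0 [72, 80] = true := redok7_seq.2.2.2.2.2.2.2.2.2.1

theorem rG3_p10_0 : Chk.ringPM rG3_sl 10 rG3_sr rG3_sn 2 0 [96] = true := redok7_seq.2.2.2.2.2.2.2.2.2.2.1

theorem rG3_p10_1 : Chk.ringPM rG3_sl 10 rG3_sr rG3_sn 2 1 [96] = true := redok7_seq.2.2.2.2.2.2.2.2.2.2.2.1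

theorem rG3_p10_2 : Chk.ringPM rG3_sl 10 rG3_sr rG3_sn 2 2 [96] = true := redok7_seq.2.2.2.2.2.2.2.2.2.2.2.2

theorem rG3_ok : rG3.ListOK := Chk.ringPM_cfg (u0 := 2) (s := 2) (dis := [])
  (oss := [([3, 5], 0), ([6, 9], 0), ([10, 12], 0), ([17, 18], 0), ([20, 24], 0), ([33, 34], 0), ([36, 40], 0), ([48, 65], 0), ([66, 68], 0), ([72, 80], 0), ([96], 2)])
  (by decide +kernel) (by decide +kernel)
  (Chk.AllM_cons (Chk.AllJ_zero rG3_p0)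
    (Chk.AllM_cons (Chk.AllJ_zero rG3_p1)
    (Chk.AllM_cons (Chk.AllJ_zero rG3_p2)
    (Chk.AllM_cons (Chk.AllJ_zero rG3_p3)
    (Chk.AllM_cons (Chk.AllJ_zero rG3_p4)
    (Chk.AllM_cons (Chk.AllJ_zero rG3_p5)
    (Chk.AllM_cons (Chk.AllJ_zero rG3_p6)
    (Chk.AllM_cons (Chk.AllJ_zero rG3_p7)
    (Chk.AllM_cons (Chk.AllJ_zero rG3_p8)
    (Chk.AllM_cons (Chk.AllJ_zero rG3_p9)
    (Chk.AllM_cons (Chk.AllJ_succ (Chk.AllJ_succ (Chk.AllJ_zero rG3_p10_0) rG3_p10_1) rG3_p10_2)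
    Chk.AllM_nil)))))))))))

end Pool.Agent.Lib.SVY.RD
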