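import Pool.Agent.Lib.SVY.RingN
import Pool.Agent.Lib.SVY.Facts

/-!
# SVY.CodesS: the reducible 6-faces

A structure which collects the statements (`code1` of SVY/Word.lean, kind by kind).
-/

set_option autoImplicit false
set_option linter.unusedSectionVars false

namespace Pool.Agent.Lib.SVY

open Finset Pool.Agent.Lib.SVT Pool.Agent.Lib.SVX

variable {V : Type*} [Fintype V] [DecidableEq V]

structure CF (G : SimpleGraph V) (B : Finset V) {m : ℕ} (F : Fin m → Finset (Sym2 V)) : Prop where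
  /-- A, apex of the edge 2,3 small -/
  a1 : ∀ i (c : ZMod 6 → V), Ring G F i 6 c → OneP G B (c 0) → OneP G B (c 1) →
    WE G (c 0) (c 1) → FF G B (c 2) → FF G B (c 3) → FF G B (c 4) → FF G B (c 5) →
    Sm G B (apx G (c 2) (c 3)) → False
  /-- A, apexes of the edges 1,2 and 5,0 small -/
  a2 : ∀ i (c : ZMod 6 → V), Ring G F i 6 c → OneP G B (c 0) → OneP G B (c 1) →
    WE G (c 0) (c 1) → FF G B (c 2) → FF G B (c 3) → FF G B (c 4) → FF G B (c 5) →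
    Sm G B (apx G (c 1) (c 2)) → Sm G B (apx G (c 5) (c 0)) → False
  /-- A, apex of the edge 2,3 exceptional -/
  a3 : ∀ i (c : ZMod 6 → V), Ring G F i 6 c → OneP G B (c 0) → OneP G B (c 1) →
    WE G (c 0) (c 1) → FF G B (c 2) → FF G B (c 3) → FF G B (c 4) → FF G B (c 5) →
    Exc G B (apx G (c 2) (c 3)) → False
  /-- 33FNNF -/
  fnnf : ∀ i (c : ZMod 6 → V), Ring G F i 6 c → OneP G B (c 0) → OneP G B (c 1) →
    WE G (c 0) (c 1) → FF G B (c 2) → Npay G B (c 3) → Npay G B (c 4) → FF G B (c 5) →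
    WE G (c 3) (c 4) → False
  /-- 33GFFG WTTVTT -/
  gffg : ∀ i (c : ZMod 6 → V), Ring G F i 6 c → OneP G B (c 0) → OneP G B (c 1) →
    WE G (c 0) (c 1) → Ex2 G B (c 2) → FF G B (c 3) → FF G B (c 4) → Ex2 G B (c 5) →
    TE G (c 1) (c 2) → TE G (c 2) (c 3) → TE G (c 4) (c 5) → TE G (c 5) (c 0) →
    OneP G B (apx G (c 3) (c 4)) → False
  /-- 33GFFG TWTVTW -/
  xffx : ∀ i (c : ZMod 6 → V), Ring G F i 6 c → One G B (c 0) → One G B (c 1) →
    TE G (c 0) (c 1) → WE G (c 1) (c 2) → Ex2 G B (c 2) → TE G (c 2) (c 3) → FF G B (c 3) →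
    FF G B (c 4) → TE G (c 4) (c 5) → Ex2 G B (c 5) → WE G (c 5) (c 0) →
    OneP G B (apx G (c 3) (c 4)) → False
  /-- 3FFFFG TTTVTW -/
  ffffx : ∀ i (c : ZMod 6 → V), Ring G F i 6 c → One G B (c 0) → FF G B (c 1) →
    FF G B (c 2) → FF G B (c 3) → FF G B (c 4) → TE G (c 4) (c 5) → Ex2 G B (c 5) →
    WE G (c 5) (c 0) → OneP G B (apx G (c 3) (c 4)) →
    (¬ Np G B (apx G (c 0) (c 1)) ∨ ¬ Np G B (apx G (c 1) (c 2)) ∨
      ¬ Np G B (apx G (c 2) (c 3))) → False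
  /-- 3FFF3P STTSWW -/
  f0 : ∀ i (c : ZMod 6 → V), Ring G F i 6 c → OneQ G B (c 0) → FF G B (c 1) → FF G B (c 2) →
    FF G B (c 3) → OneQ G B (c 4) → P1c G B (c 5) → WE G (c 4) (c 5) → WE G (c 5) (c 0) →
    Sm G B (apx G (c 0) (c 1)) → Sm G B (apx G (c 3) (c 4)) → False
  /-- 3FFFFp STTTSW -/
  f1 : ∀ i (c : ZMod 6 → V), Ring G F i 6 c → OneQ G B (c 0) → FF G B (c 1) → FF G B (c 2) →
    FF G B (c 3) → FF G B (c 4) → P1c G B (c 5) → WE G (c 5) (c 0) →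
    Sm G B (apx G (c 0) (c 1)) → Sm G B (apx G (c 4) (c 5)) → False
  /-- 3FFGFp STVTSW -/
  ffgfp : ∀ i (c : ZMod 6 → V), Ring G F i 6 c → OneQ G B (c 0) → FF G B (c 1) →
    FF G B (c 2) → Ex2 G B (c 3) → FF G B (c 4) → P1c G B (c 5) → WE G (c 5) (c 0) →
    OneP G B (apx G (c 2) (c 3)) → TE G (c 3) (c 4) → Sm G B (apx G (c 0) (c 1)) →
    Sm G B (apx G (c 4) (c 5)) → False
  /-- 3FGFFp STVTSW -/
  fgffp : ∀ i (c : ZMod 6 → V), Ring G F i 6 c → OneQ G B (c 0) → FF G B (c 1) →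
    Ex2 G B (c 2) → FF G B (c 3) → FF G B (c 4) → P1c G B (c 5) → WE G (c 5) (c 0) →
    OneP G B (apx G (c 2) (c 3)) → TE G (c 1) (c 2) → Sm G B (apx G (c 0) (c 1)) →
    Sm G B (apx G (c 4) (c 5)) → False
  /-- 3FNNFp STWTSW -/
  fnnfp : ∀ i (c : ZMod 6 → V), Ring G F i 6 c → OneQ G B (c 0) → FF G B (c 1) →
    Npay G B (c 2) → Npay G B (c 3) → WE G (c 2) (c 3) → FF G B (c 4) → P1c G B (c 5) →
    WE G (c 5) (c 0) → Sm G B (apx G (c 0) (c 1)) → Sm G B (apx G (c 4) (c 5)) → False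
  /-- F1, apex of the edge 1,2 small -/
  f1a : ∀ i (c : ZMod 6 → V), Ring G F i 6 c → (∀ j, FF G B (c j)) →
    OneP G B (apx G (c 5) (c 0)) → Sm G B (apx G (c 1) (c 2)) → False
  /-- F1, apex of the edge 2,3 small -/
  f1b : ∀ i (c : ZMod 6 → V), Ring G F i 6 c → (∀ j, FF G B (c j)) →
    OneP G B (apx G (c 5) (c 0)) → Sm G B (apx G (c 2) (c 3)) → False
  /-- F1, apex of the edge 2,3 exceptional -/
  f1c : ∀ i (c : ZMod 6 → V), Ring G F i 6 c → (∀ j, FF G B (c j)) →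
    OneP G B (apx G (c 5) (c 0)) → Exc G B (apx G (c 2) (c 3)) → False
  /-- FFFFFF TTVTTV -/
  vv : ∀ i (c : ZMod 6 → V), Ring G F i 6 c → (∀ j, FF G B (c j)) →
    OneP G B (apx G (c 5) (c 0)) → OneP G B (apx G (c 2) (c 3)) → False
  /-- FFFFFG TTTVTV -/
  g1 : ∀ i (c : ZMod 6 → V), Ring G F i 6 c → FF G B (c 0) → FF G B (c 1) → FF G B (c 2) →
    FF G B (c 3) → FF G B (c 4) → Ex2 G B (c 5) → OneP G B (apx G (c 5) (c 0)) →
    OneP G B (apx G (c 3) (c 4)) → TE G (c 4) (c 5) → False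
  /-- FFGFFG TVTVTV -/
  g2 : ∀ i (c : ZMod 6 → V), Ring G F i 6 c → FF G B (c 0) → FF G B (c 1) → Ex2 G B (c 2) →
    FF G B (c 3) → FF G B (c 4) → Ex2 G B (c 5) → OneP G B (apx G (c 1) (c 2)) →
    OneP G B (apx G (c 3) (c 4)) → OneP G B (apx G (c 5) (c 0)) → TE G (c 2) (c 3) →
    TE G (c 4) (c 5) → False
  /-- FFFFFG TTVTTV -/
  g3 : ∀ i (c : ZMod 6 → V), Ring G F i 6 c → FF G B (c 0) → FF G B (c 1) → FF G B (c 2) →
    FF G B (c 3) → FF G B (c 4) → Ex2 G B (c 5) → OneP G B (apx G (c 5) (c 0)) →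
    OneP G B (apx G (c 2) (c 3)) → TE G (c 4) (c 5) → False
  /-- FFFFNN TVTTWT -/
  f3 : ∀ i (c : ZMod 6 → V), Ring G F i 6 c → FF G B (c 0) → FF G B (c 1) → FF G B (c 2) →
    FF G B (c 3) → Npay G B (c 4) → Npay G B (c 5) → OneP G B (apx G (c 1) (c 2)) →
    WE G (c 4) (c 5) → False

end Pool.Agent.Lib.SVY
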