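import Pool.Agent.Lib.SVY.LfD
import Pool.Agent.Lib.SVY.CodesS

/-!
# SVY.CodesX: the 6-face 33XFFX TWTVTW

The new edges `c 2 - c 5`, `l2 - c 5` are parallel to paths along the face; `far3` excludes the
short paths.
-/

set_option autoImplicit false
set_option linter.unusedSectionVars false

namespace Pool.Agent.Lib.SVY

open Finset Pool.Agent.Lib.SVT Pool.Agent.Lib.SVX

variable {V : Type*} [Fintype V] [DecidableEq V] {G : SimpleGraph V} {B : Finset V}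
variable {m : ℕ} {F : Fin m → Finset (Sym2 V)}

/-- `a - p - q - b` is a path; every face through its edges (or the edges of a shorter path) has a
further vertex in `R`: there is no path of length at most 4 from `a` to `b` outside `R` -/
theorem far3 (h : MinCE G B) (hF : Faces G F) {a p q b : V} {R : Set V} (hp : p ∈ R) (hq : q ∈ R)
    (e1 : G.Adj a p) (e2 : G.Adj p q) (e3 : G.Adj q b) (hab : a ≠ b) (haq : a ≠ q) (hpb : p ≠ b)
    (naq : ¬ G.Adj a q) (npb : ¬ G.Adj p b)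
    (hnc : ∀ i, s(p, a) ∈ F i → s(p, q) ∈ F i → s(q, b) ∈ F i →
      ∃ t t', s(t, t') ∈ F i ∧ t ∈ R ∧ t ≠ a ∧ t ≠ p ∧ t ≠ q ∧ t ≠ b)
    (hu : ∀ u, u ∉ R → G.Adj q u → G.Adj u b → ∀ i, s(p, a) ∈ F i → s(p, q) ∈ F i →
      s(q, u) ∈ F i → ∃ t t', s(t, t') ∈ F i ∧ t ∈ R ∧ t ≠ a ∧ t ≠ p ∧ t ≠ q ∧ t ≠ b)
    (hu' : ∀ u, u ∉ R → G.Adj p u → G.Adj u a → ∀ i, s(p, u) ∈ F i → s(p, q) ∈ F i →
      s(q, b) ∈ F i → ∃ t t', s(t, t') ∈ F i ∧ t ∈ R ∧ t ≠ a ∧ t ≠ p ∧ t ≠ q ∧ t ≠ b)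
    (l : ℕ) : ¬ OPath G R a b l := by
  -- a 6-cycle
  have six : ∀ {x1 x2 x3 x4 x5 x6 : V}, [x1, x2, x3, x4, x5, x6].Nodup → G.Adj x1 x2 →
      G.Adj x2 x3 → G.Adj x3 x4 → G.Adj x4 x5 → G.Adj x5 x6 → G.Adj x6 x1 →
      (∀ y ∈ [x1, x2, x3, x4, x5, x6], y ∉ R ∨ y = a ∨ y = p ∨ y = q ∨ y = b) →
      (∀ i, s(x2, x1) ∈ F i → s(x2, x3) ∈ F i → s(x3, x4) ∈ F i →
        ∃ t t', s(t, t') ∈ F i ∧ t ∈ R ∧ t ≠ a ∧ t ≠ p ∧ t ≠ q ∧ t ≠ b) → False := by
    intro x1 x2 x3 x4 x5 x6 hnd g1 g2 g3 g4 g5 g6 hall hex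
    obtain ⟨i, hi⟩ := cyc6 h hF hnd g1 g2 g3 g4 g5 g6
    obtain ⟨t, t', ht, htR, t1, t2, t3, t4⟩ := hex i (by rw [hi, Sym2.eq_swap]; simp)
      (by rw [hi]; simp) (by rw [hi]; simp)
    have htm : t ∈ [x1, x2, x3, x4, x5, x6] := by
      rw [hi] at ht
      simp only [mem_insert, mem_singleton, Sym2.eq_iff] at ht
      simp only [List.mem_cons, List.not_mem_nil, or_false]
      rcases ht with (h7 | h7) | (h7 | h7) | (h7 | h7) | (h7 | h7) | (h7 | h7) | (h7 | h7) <;>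
        tauto
    rcases hall t htm with h8 | h8 | h8 | h8 | h8
    · exact h8 htR
    · exact t1 h8
    · exact t2 h8
    · exact t3 h8
    · exact t4 h8
  have key : ∀ {x y : V}, x ∉ R → y ∉ R → x ≠ b → y ≠ a → G.Adj a x → G.Adj x y → G.Adj y b →
      False := by
    intro x y hx hy h1 h2 h3 h4 h5
    have hpx : p ≠ x := fun he => hx (he ▸ hp)
    have hpy : p ≠ y := fun he => hy (he ▸ hp)
    have hqx : q ≠ x := fun he => hx (he ▸ hq)
    have hqy : q ≠ y := fun he => hy (he ▸ hq)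
    have hnd : [a, p, q, b, y, x].Nodup := by
      simp only [List.nodup_cons, List.mem_cons, List.not_mem_nil, or_false, not_or,
        not_false_eq_true, List.nodup_nil, and_true]
      exact ⟨⟨e1.ne, haq, hab, h2.symm, h3.ne⟩, ⟨e2.ne, hpb, hpy, hpx⟩, ⟨e3.ne, hqy, hqx⟩,
        ⟨h5.ne.symm, h1.symm⟩, h4.ne.symm⟩
    refine six hnd e1 e2 e3 h5.symm h4.symm h3.symm ?_ (fun i k1 k2 k3 => hnc i k1 k2 k3)
    simp only [List.forall_mem_cons]
    exact ⟨by tauto, by tauto, by tauto, by tauto, Or.inl hy, Or.inl hx, by simp⟩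
  match l with
  | 0 => exact fun h => h
  | 1 => exact fun h1 => h.good.c4 a p q b haq hpb e1 e2 e3 (SimpleGraph.Adj.symm h1)
  | 2 =>
    rintro ⟨x, hx, h1, h2⟩
    have hpx : p ≠ x := fun he => hx (he ▸ hp)
    have hqx : q ≠ x := fun he => hx (he ▸ hq)
    exact h.good.c5 a p q b x haq hab hpb hpx hqx e1 e2 e3 h2.symm h1.symm
  | 3 =>
    rintro ⟨x, y, hx, hy, h1, h2, h3, h4, h5⟩
    exact key hx hy h1 h2 h3 h4 h5
  | 4 =>
    rintro ⟨x, y, z, hx, hy, hz, h1, h2, h3, h4, h5, h6, h7, h8, h9⟩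
    have hpx : p ≠ x := fun he => hx (he ▸ hp)
    have hpy : p ≠ y := fun he => hy (he ▸ hp)
    have hpz : p ≠ z := fun he => hz (he ▸ hp)
    have hqx : q ≠ x := fun he => hx (he ▸ hq)
    have hqy : q ≠ y := fun he => hy (he ▸ hq)
    have hqz : q ≠ z := fun he => hz (he ▸ hq)
    have hnd : [a, p, q, b, z, y, x].Nodup := by
      simp only [List.nodup_cons, List.mem_cons, List.not_mem_nil, or_false, not_or,
        not_false_eq_true, List.nodup_nil, and_true]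
      exact ⟨⟨e1.ne, haq, hab, h4.symm, h2.symm, h6.ne⟩, ⟨e2.ne, hpb, hpz, hpy, hpx⟩,
        ⟨e3.ne, hqz, hqy, hqx⟩, ⟨h9.ne.symm, h3.symm, h1.symm⟩, ⟨h8.ne.symm, h5.symm⟩, h7.ne.symm⟩
    rcases cyc7 h hF hnd e1 e2 e3 h9.symm h8.symm h7.symm h6.symm with
      ⟨i, hi⟩ | h10 | h10 | h10 | h10 | h10 | h10 | h10
    · obtain ⟨t, t', ht, htR, t1, t2, t3, t4⟩ := hnc i (by rw [hi, Sym2.eq_swap]; simp)
        (by rw [hi]; simp) (by rw [hi]; simp)
      have t5 : t ≠ x := fun he => hx (he ▸ htR)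
      have t6 : t ≠ y := fun he => hy (he ▸ htR)
      have t7 : t ≠ z := fun he => hz (he ▸ htR)
      rw [hi] at ht
      simp only [mem_insert, mem_singleton, Sym2.eq_iff] at ht
      rcases ht with (h7 | h7) | (h7 | h7) | (h7 | h7) | (h7 | h7) | (h7 | h7) | (h7 | h7) |
        (h7 | h7) <;> tauto
    · exact naq h10
    · exact npb h10
    · -- the chord `q z`
      have hnd' : [a, p, q, z, y, x].Nodup := by
        simp only [List.nodup_cons, List.mem_cons, List.not_mem_nil, or_false, not_or,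
          not_false_eq_true, List.nodup_nil, and_true]
        exact ⟨⟨e1.ne, haq, h4.symm, h2.symm, h6.ne⟩, ⟨e2.ne, hpz, hpy, hpx⟩,
          ⟨hqz, hqy, hqx⟩, ⟨h8.ne.symm, h5.symm⟩, h7.ne.symm⟩
      refine six hnd' e1 e2 h10 h8.symm h7.symm h6.symm ?_ (fun i k1 k2 k3 => hu z hz h10 h9 i k1 k2 k3)
      simp only [List.forall_mem_cons]
      exact ⟨by tauto, by tauto, by tauto, Or.inl hz, Or.inl hy, Or.inl hx, by simp⟩
    · exact key hx hy h1 h2 h6 h7 h10.symm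
    · exact key hx hz h1 h4 h6 h10.symm h9
    · exact key hy hz h3 h4 h10.symm h8 h9
    · -- the chord `x p`
      have hnd' : [x, p, q, b, z, y].Nodup := by
        simp only [List.nodup_cons, List.mem_cons, List.not_mem_nil, or_false, not_or,
          not_false_eq_true, List.nodup_nil, and_true]
        exact ⟨⟨hpx.symm, hqx.symm, h1, h5, h7.ne⟩, ⟨e2.ne, hpb, hpz, hpy⟩,
          ⟨e3.ne, hqz, hqy⟩, ⟨h9.ne.symm, h3.symm⟩, h8.ne.symm⟩
      refine six hnd' h10 e2 e3 h9.symm h8.symm h7.symm ?_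
        (fun i k1 k2 k3 => hu' x hx h10.symm h6.symm i k1 k2 k3)
      simp only [List.forall_mem_cons]
      exact ⟨Or.inl hx, by tauto, by tauto, by tauto, Or.inl hz, Or.inl hy, by simp⟩
  | _ + 5 => exact fun h => h

theorem xffx_false (h : MinCE G B) (hF : Faces G F) : ∀ i (c : ZMod 6 → V), Ring G F i 6 c →
    One G B (c 0) → One G B (c 1) → TE G (c 0) (c 1) → WE G (c 1) (c 2) → TE G (c 2) (c 3) →
    FF G B (c 3) → FF G B (c 4) → TE G (c 4) (c 5) → WE G (c 5) (c 0) →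
    OneP G B (apx G (c 3) (c 4)) → False := by
  intro i c hR o0 o1 t01 w12 t23 f3 f4 t45 w50 hv
  have hi : Nt F i := Ring.nt hR (by norm_num)
  have inj := hR.cyc.1
  have hne : ∀ a b : ZMod 6, a ≠ b → c a ≠ c b := fun a b hab he => hab (inj he)
  have m1 : ∀ j, s(c j, c (j + 1)) ∈ F i := fun j => Ring.mem hR j
  have m2 : ∀ j, s(c j, c (j - 1)) ∈ F i := fun j => Ring.mem' hR j
  have k34 : s(c 3, c 4) ∈ F i := m1 3
  have k32 : s(c 3, c 2) ∈ F i := m2 3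
  have k43 : s(c 4, c 3) ∈ F i := m2 4
  have k45 : s(c 4, c 5) ∈ F i := m1 4
  have k01 : s(c 0, c 1) ∈ F i := m1 0
  obtain ⟨v, l2, D⟩ := FF.fd h hF f3 hi k34 k32 (hne 4 2 (by decide))
  obtain ⟨v', l4, E⟩ := FF.fd h hF f4 hi k43 k45 (hne 3 5 (by decide))
  have e1 : v' = v := E.hw.symm.trans D.hw'
  subst e1
  rw [D.hw] at hv
  obtain ⟨z, wz, hz⟩ := hv.2
  obtain ⟨s1, s2⟩ := apx_adj t01
  have n02 : ¬ G.Adj (c 0) (c 2) := fun h1 => w12.2 ⟨c 0, t01.1.symm, h1.symm⟩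
  have c0l2 : c 0 ≠ l2 := by
    rintro he
    exact n02 (he ▸ D.ul.symm)
  have d3 : 3 ≤ dg G (c 3) := by rw [f3.2.1]; norm_num
  have d4 : 3 ≤ dg G (c 4) := by rw [f4.2.1]; norm_num
  -- a face with the corner at `c 3` or `c 4` is the ring
  have r3 : ∀ j, s(c 3, c 2) ∈ F j → s(c 3, c 4) ∈ F j → j = i := fun j h1 h2 =>
    corner_face h hF d3 (hne 2 4 (by decide)) h1 h2 k32 k34
  have r4 : ∀ j, s(c 4, c 5) ∈ F j → s(c 4, c 3) ∈ F j → j = i := fun j h1 h2 =>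
    corner_face h hF d4 (hne 5 3 (by decide)) h1 h2 k45 k43
  have hlist : ∀ r : Fin 5, (![c 0, c 1, c 3, c 4, v'] r) ∈
      ({ω | ∃ r, r < 5 ∧ ω = [c 0, c 1, c 3, c 4, v', c 2, c 5, apx G (c 0) (c 1), l2, l4,
        z].getD r (c 0)} : Set V) := by
    intro r
    refine ⟨r.1, r.2, ?_⟩
    fin_cases r <;> rfl
  set R : Set V := {ω | ∃ r, r < 5 ∧ ω = [c 0, c 1, c 3, c 4, v', c 2, c 5, apx G (c 0) (c 1), l2,
    l4, z].getD r (c 0)} with hRdef
  have hR0 : c 0 ∈ R := hlist 0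
  have hR3 : c 3 ∈ R := hlist 2
  have hR4 : c 4 ∈ R := hlist 3
  have hex1 : ∀ l, ¬ OPath G R (c 2) (c 5) l := by
    intro l
    refine far3 h hF hR3 hR4 t23.1 D.ay E.au (hne 2 5 (by decide)) (hne 2 4 (by decide))
      (hne 3 5 (by decide)) (fun h1 => D.nyu h1.symm) E.nyu ?_ ?_ ?_ l
    · intro j h1 h2 _
      have hj := r3 j h1 h2
      subst hj
      exact ⟨c 0, c 1, k01, hR0, hne 0 2 (by decide), hne 0 3 (by decide), hne 0 4 (by decide),
        hne 0 5 (by decide)⟩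
    · intro u huR _ hub j h1 h2 h3
      have hj := r3 j h1 h2
      subst hj
      rcases face_two hF (hne 3 5 (by decide)) k43 k45 h3 with h4 | h4
      · exact absurd (h4 ▸ hR3) huR
      · exact absurd h4 hub.ne
    · intro u huR _ hub j h1 h2 h3
      have hj := r4 j h3 (by rw [Sym2.eq_swap]; exact h2)
      subst hj
      rcases face_two hF (hne 2 4 (by decide)) k32 k34 h1 with h4 | h4
      · exact absurd h4 hub.ne
      · exact absurd (h4 ▸ hR4) huR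
  have hex2 : ∀ l, ¬ OPath G R (c 5) l2 l := by
    intro l
    have c5l2 : c 5 ≠ l2 := by
      rintro he
      have h1 : G.Adj (c 3) (c 5) := he ▸ D.al
      exact E.nyu h1
    refine far3 h hF hR4 hR3 E.au.symm E.ay D.al c5l2 (hne 5 3 (by decide)) D.yl
      (fun h1 => E.nyu h1.symm) D.nyl ?_ ?_ ?_ l
    · intro j h1 h2 h3
      have hj := r4 j h1 h2
      subst hj
      rcases face_two hF (hne 2 4 (by decide)) k32 k34 h3 with h4 | h4
      · exact absurd h4.symm D.ul.ne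
      · exact absurd h4.symm D.yl
    · intro u huR _ hub j h1 h2 h3
      have hj := r4 j h1 h2
      subst hj
      exact ⟨c 0, c 1, k01, hR0, hne 0 5 (by decide), hne 0 4 (by decide), hne 0 3 (by decide),
        c0l2⟩
    · intro u huR hpu hua j h1 h2 h3
      have h4 : u = l4 := apex h E.au hpu hua.symm E.al E.ul
      subst h4
      exact absurd ⟨j, h2, h1⟩ E.c1
  exact LC.gX4_false h hF t01.1 s1 s2 t23.1 D.al D.ay D.aw E.aw E.al E.au D.ul E.ul w12 w50.symm wz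
    (hex1 3) (hex1 4) (hex2 3) (hex2 4) o0.inn o1.inn f3.inn f4.inn hv.inn hz.inn

/-- 33GFFG TWTVTW -/
theorem xffx_field (h : MinCE G B) (hF : Faces G F) : ∀ i (c : ZMod 6 → V), Ring G F i 6 c →
    One G B (c 0) → One G B (c 1) →
    TE G (c 0) (c 1) → WE G (c 1) (c 2) → Ex2 G B (c 2) → TE G (c 2) (c 3) → FF G B (c 3) →
    FF G B (c 4) → TE G (c 4) (c 5) → Ex2 G B (c 5) → WE G (c 5) (c 0) →
    OneP G B (apx G (c 3) (c 4)) → False :=
  fun i c hR o0 o1 t01 w12 _ t23 f3 f4 t45 _ w50 hv =>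
    xffx_false h hF i c hR o0 o1 t01 w12 t23 f3 f4 t45 w50 hv

end Pool.Agent.Lib.SVY
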