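import Pool.Agent.Lib.SVY.CodesA
import Pool.Agent.Lib.SVY.CodesB
import Pool.Agent.Lib.SVY.CodesC
import Pool.Agent.Lib.SVY.CodesD
import Pool.Agent.Lib.SVY.CodesE
import Pool.Agent.Lib.SVY.CodesF
import Pool.Agent.Lib.SVY.CodesG
import Pool.Agent.Lib.SVY.CodesH
import Pool.Agent.Lib.SVY.CodesI
import Pool.Agent.Lib.SVY.CodesX
import Pool.Agent.Lib.SVY.CodesS

/-!
# SVY.CodesP: no reducible 6-face occurs in a minimal counterexample

`cf`: the structure `CF` of SVY.CodesS holds in every minimal counterexample.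
-/

set_option autoImplicit false

namespace Pool.Agent.Lib.SVY

open Finset Pool.Agent.Lib.SVT Pool.Agent.Lib.SVX

variable {V : Type*} [Fintype V] [DecidableEq V] {G : SimpleGraph V} {B : Finset V}
variable {m : ℕ} {F : Fin m → Finset (Sym2 V)}

/-- the reducible 6-faces do not occur in a minimal counterexample -/
theorem cf (h : MinCE G B) (hF : Faces G F) : CF G B F where
  a1 := code_a1 h hF
  a2 := code_a2 h hF
  a3 := code_a3 h hF
  fnnf := code_fnnf h hF
  gffg := code_gffg h hF
  xffx := xffx_field h hF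
  ffffx := code_ffffx h hF
  f0 := code_f0 h hF
  f1 := code_f1 h hF
  ffgfp := code_ffgfp h hF
  fgffp := code_fgffp h hF
  fnnfp := code_fnnfp h hF
  f1a := code_f1a h hF
  f1b := code_f1b h hF
  f1c := code_f1c h hF
  vv := code_vv h hF
  g1 := code_g1 h hF
  g2 := code_g2 h hF
  g3 := code_g3 h hF
  f3 := code_f3 h hF

end Pool.Agent.Lib.SVY
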