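import Pool.Agent.Lib.SVY.Bal

/-!
# SVY.Dart: every dart pays once

Plan.  For a dart `q → a` (`Dt q a`): if `rcp q a u` then `u` is unique (four exclusive cases; in the
third case `u` is the weak neighbour of the `One` vertex `a`) and `FD q a` fails; if `FD q a` then
`Rcv q a i` for at most one face `i`: `RF`: `a` is `FF`, `i₀` is the only face which is not a
triangle on `q a` (`te_nt_unique`), and `i` is the other face which is not a triangle at `a`
(`FF` has exactly two such faces: every edge at `a` is a triangle edge; `FF.opp`, `te_nt_unique`);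
`RN`: `i` is the face which is not a triangle on the edge `apx q a, a`; the third case:
`te_nt_unique`.  Hence the sum is at most `2 * #{a | Dt q a}` (exchange the sums).
-/

set_option autoImplicit false
set_option linter.unusedSectionVars false

namespace Pool.Agent.Lib.SVY

open Finset Pool.Agent.Lib.SVT Pool.Agent.Lib.SVX

variable {V : Type*} [Fintype V] [DecidableEq V] {G : SimpleGraph V} {B : Finset V}
variable {m : ℕ} {F : Fin m → Finset (Sym2 V)} {i : Fin m}

namespace DartAux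

lemma adj_of (hF : Faces G F) {i : Fin m} {v a : V} (h1 : s(v, a) ∈ F i) : G.Adj v a := by
  have h2 := hF.sub i _ h1
  rwa [SimpleGraph.mem_edgeSet] at h2

lemma ff_te (h : MinCE G B) {v a : V} (hv : FF G B v) (ha : G.Adj v a) : TE G v a := by
  rcases te_or_we ha with h1 | h1
  · exact h1
  · exact absurd h1 (FF.no_weak h hv)

/-- the two triangles at an `FF` vertex, named by two neighbours which are not adjacent -/
lemma ff_split (h : MinCE G B) {v q b : V} (hv : FF G B v) (hq : G.Adj v q) (hb : G.Adj v b)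
    (hne : b ≠ q) (hn : ¬ G.Adj q b) : ∃ w y, G.Adj v w ∧ G.Adj q w ∧ G.Adj v y ∧ G.Adj b y ∧
      q ≠ b ∧ q ≠ y ∧ w ≠ b ∧ w ≠ y ∧ ∀ x, G.Adj v x → x = q ∨ x = w ∨ x = b ∨ x = y := by
  obtain ⟨p1, p2, p3, p4, n1, n2, n3, n4, n5, n6, e1, e2, e3, e4, e5, e6, -, -, -, -, hall⟩ :=
    two_tri h hv.2.2
  have hall' : ∀ x, G.Adj v x → x = p1 ∨ x = p2 ∨ x = p3 ∨ x = p4 :=
    fun x hx => hall x (ff_te h hv hx)
  rcases hall' q hq with rfl | rfl | rfl | rfl
  · rcases hall' b hb with rfl | rfl | rfl | rfl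
    · exact absurd rfl hne
    · exact absurd e3 hn
    · exact ⟨p2, p4, e2, e3, e5, e6, n3, n4, n5, n6, hall'⟩
    · refine ⟨p2, p3, e2, e3, e4, e6.symm, n4, n3, n6, n5, fun x hx => ?_⟩
      rcases hall' x hx with k | k | k | k
      · exact Or.inl k
      · exact Or.inr (Or.inl k)
      · exact Or.inr (Or.inr (Or.inr k))
      · exact Or.inr (Or.inr (Or.inl k))
  · rcases hall' b hb with rfl | rfl | rfl | rfl
    · exact absurd e3.symm hn
    · exact absurd rfl hne
    · refine ⟨p1, p4, e1, e3.symm, e5, e6, n5, n6, n3, n4, fun x hx => ?_⟩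
      rcases hall' x hx with k | k | k | k
      · exact Or.inr (Or.inl k)
      · exact Or.inl k
      · exact Or.inr (Or.inr (Or.inl k))
      · exact Or.inr (Or.inr (Or.inr k))
    · refine ⟨p1, p3, e1, e3.symm, e4, e6.symm, n6, n5, n4, n3, fun x hx => ?_⟩
      rcases hall' x hx with k | k | k | k
      · exact Or.inr (Or.inl k)
      · exact Or.inl k
      · exact Or.inr (Or.inr (Or.inr k))
      · exact Or.inr (Or.inr (Or.inl k))
  · rcases hall' b hb with rfl | rfl | rfl | rfl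
    · refine ⟨p4, p2, e5, e6, e2, e3, n3.symm, n5.symm, n4.symm, n6.symm, fun x hx => ?_⟩
      rcases hall' x hx with k | k | k | k
      · exact Or.inr (Or.inr (Or.inl k))
      · exact Or.inr (Or.inr (Or.inr k))
      · exact Or.inl k
      · exact Or.inr (Or.inl k)
    · refine ⟨p4, p1, e5, e6, e1, e3.symm, n5.symm, n3.symm, n6.symm, n4.symm, fun x hx => ?_⟩
      rcases hall' x hx with k | k | k | k
      · exact Or.inr (Or.inr (Or.inr k))
      · exact Or.inr (Or.inr (Or.inl k))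
      · exact Or.inl k
      · exact Or.inr (Or.inl k)
    · exact absurd rfl hne
    · exact absurd e6 hn
  · rcases hall' b hb with rfl | rfl | rfl | rfl
    · refine ⟨p3, p2, e4, e6.symm, e2, e3, n4.symm, n6.symm, n3.symm, n5.symm, fun x hx => ?_⟩
      rcases hall' x hx with k | k | k | k
      · exact Or.inr (Or.inr (Or.inl k))
      · exact Or.inr (Or.inr (Or.inr k))
      · exact Or.inr (Or.inl k)
      · exact Or.inl k
    · refine ⟨p3, p1, e4, e6.symm, e1, e3.symm, n6.symm, n4.symm, n5.symm, n3.symm,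
        fun x hx => ?_⟩
      rcases hall' x hx with k | k | k | k
      · exact Or.inr (Or.inr (Or.inr k))
      · exact Or.inr (Or.inr (Or.inl k))
      · exact Or.inr (Or.inl k)
      · exact Or.inl k
    · exact absurd e6.symm hn
    · exact absurd rfl hne

/-- an `FF` vertex has exactly one further face which is not a triangle -/
lemma ff_face (h : MinCE G B) (hF : Faces G F) {v q b : V} (hv : FF G B v) {i₀ : Fin m}
    (hi₀ : Nt F i₀) (h1 : s(v, q) ∈ F i₀) (h2 : s(v, b) ∈ F i₀) (hne : b ≠ q) :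
    ∃ j', ∀ i, Nt F i → i ≠ i₀ → (∃ c, s(v, c) ∈ F i) → i = j' := by
  have hq := adj_of hF h1
  have hb := adj_of hF h2
  have hn : ¬ G.Adj q b := nt_short h hF hi₀ (by have := hv.2.1; omega) hne.symm h1 h2
  obtain ⟨w, y, w1, w2, y1, y2, k1, k2, k3, k4, hall⟩ := ff_split h hv hq hb hne hn
  obtain ⟨j', g1, g2, g3, g4⟩ := FF.opp h hF hv hq w1 w2 hb y1 y2 k1 k2 k3 k4 hi₀ h1 h2
  refine ⟨j', ?_⟩
  rintro i hi hii ⟨c, hc⟩
  rcases hall c (adj_of hF hc) with rfl | rfl | rfl | rfl
  · exact absurd (te_nt_unique h hF (ff_te h hv hq) hi hi₀ hc h1) hii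
  · exact te_nt_unique h hF (ff_te h hv w1) hi g1 hc g3
  · exact absurd (te_nt_unique h hF (ff_te h hv hb) hi hi₀ hc h2) hii
  · exact te_nt_unique h hF (ff_te h hv y1) hi g1 hc g4

end DartAux

open DartAux

theorem rcp_unique (h : MinCE G B) {q a u u' : V} (h1 : rcp G B q a u) (h2 : rcp G B q a u') :
    u = u' := by
  rcases h1 with ⟨p1, p2⟩ | ⟨p1, p2, p3⟩ | ⟨p1, p2, p3, p4, p5⟩ | ⟨p1, p2, p3, p4, p5⟩ <;>
  rcases h2 with ⟨q1, q2⟩ | ⟨q1, q2, q3⟩ | ⟨q1, q2, q3, q4, q5⟩ | ⟨q1, q2, q3, q4, q5⟩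
  all_goals first
    | exact absurd p1 q1
    | exact absurd q1 p1
    | exact absurd p2 q2
    | exact absurd q2 p2
    | exact absurd p3 q3
    | exact absurd q3 p3
    | exact p2.trans q2.symm
    | exact p3.trans q3.symm
    | exact p5.trans q5.symm
    | exact One.wn_unique h p3.1 p4 q4

theorem Rcv_unique (h : MinCE G B) (hF : Faces G F) {q a : V} {i j : Fin m} (hd : FD G B q a)
    (h1 : Rcv G B F q a i) (h2 : Rcv G B F q a j) : i = j := by
  have hte : TE G q a := hd.1.2.1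
  rcases h1 with ⟨-, a1⟩ | ⟨n1, -, a1⟩ | ⟨n1, n2, a1, a2⟩
  · rcases h2 with ⟨-, b1⟩ | ⟨n1, -, b1⟩ | ⟨n1, n2, b1, b2⟩
    · obtain ⟨hv, i₀, b, c1, c2, c3, c4, c5, c6, c7, c8⟩ := a1
      obtain ⟨-, j₀, b', d1, d2, d3, d4, d5, d6, d7, d8⟩ := b1
      have hij : i₀ = j₀ := te_nt_unique h hF hte c1 d1 c2 d2
      subst hij
      have c2' : s(a, q) ∈ F i₀ := by rw [Sym2.eq_swap]; exact c2
      obtain ⟨j', hj'⟩ := ff_face h hF hv c1 c2' c3 c4
      exact (hj' i c6 c7 c8).trans (hj' j d6 d7 d8).symm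
    · exact absurd ⟨i, a1⟩ n1
    · exact absurd ⟨i, a1⟩ n1
  · rcases h2 with ⟨-, b1⟩ | ⟨n1', -, b1⟩ | ⟨n1', n2, b1, b2⟩
    · exact absurd ⟨j, b1⟩ n1
    · obtain ⟨-, x, u, -, -, -, -, -, c1, -, c2, -⟩ := a1
      obtain ⟨-, x', u', -, -, -, -, -, d1, -, d2, -⟩ := b1
      have h3 : TE G (apx G q a) a := ⟨(apx_adj hte).2.symm, q, (apx_adj hte).1.symm, hte.1.symm⟩
      exact te_nt_unique h hF h3 c1 d1 c2 d2
    · exact absurd ⟨i, a1⟩ n2
  · rcases h2 with ⟨-, b1⟩ | ⟨n1', -, b1⟩ | ⟨n1', n2', b1, b2⟩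
    · exact absurd ⟨j, b1⟩ n1
    · exact absurd ⟨j, b1⟩ n2
    · exact te_nt_unique h hF hte a1 b1 a2 b2

open Classical in
theorem dart_pay (h : MinCE G B) (hF : Faces G F) (q : V) :
    ∑ u, Cd G B q u + 2 * ∑ i, ((univ.filter (fun a => FD G B q a ∧ Rcv G B F q a i)).card : ℤ) ≤
      2 * ((univ.filter (fun a => Dt G B q a)).card : ℤ) := by
  have e1 : ∑ u, Cd G B q u =
      2 * ∑ a, ∑ u, (if Dt G B q a ∧ rcp G B q a u then (1 : ℤ) else 0) := by
    rw [Finset.sum_comm, Finset.mul_sum]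
    refine Finset.sum_congr rfl fun u _ => ?_
    unfold Cd
    rw [Finset.card_filter]
    push_cast
    rfl
  have e2 : ∑ i, ((univ.filter (fun a => FD G B q a ∧ Rcv G B F q a i)).card : ℤ) =
      ∑ a, ∑ i, (if FD G B q a ∧ Rcv G B F q a i then (1 : ℤ) else 0) := by
    rw [Finset.sum_comm]
    refine Finset.sum_congr rfl fun i _ => ?_
    rw [Finset.card_filter]
    push_cast
    rfl
  have e3 : ((univ.filter (fun a => Dt G B q a)).card : ℤ) =
      ∑ a, (if Dt G B q a then (1 : ℤ) else 0) := by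
    rw [Finset.card_filter]
    push_cast
    rfl
  rw [e1, e2, e3, ← mul_add, ← Finset.sum_add_distrib]
  refine mul_le_mul_of_nonneg_left (Finset.sum_le_sum fun a _ => ?_) (by norm_num)
  by_cases hD : Dt G B q a
  · rw [if_pos hD]
    by_cases hr : ∃ u, rcp G B q a u
    · obtain ⟨u, hu⟩ := hr
      have h1 : ∑ u', (if Dt G B q a ∧ rcp G B q a u' then (1 : ℤ) else 0) = 1 := by
        rw [Finset.sum_eq_single u]
        · rw [if_pos ⟨hD, hu⟩]
        · intro u' _ hne
          rw [if_neg (fun h3 => hne (rcp_unique h h3.2 hu))]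
        · intro h3
          exact absurd (mem_univ u) h3
      have hfd : ¬ FD G B q a := by
        rintro ⟨-, f1, f2, f3, f4⟩
        rcases hu with h3 | h3 | h3 | h3
        · exact f1 h3.1
        · exact f2 h3.2.1
        · exact f3 h3.2.2.1
        · exact f4 h3.2.2.2.1
      have h2 : ∑ i, (if FD G B q a ∧ Rcv G B F q a i then (1 : ℤ) else 0) = 0 :=
        Finset.sum_eq_zero fun i _ => if_neg (fun h3 => hfd h3.1)
      rw [h1, h2]
      norm_num
    · have h1 : ∑ u', (if Dt G B q a ∧ rcp G B q a u' then (1 : ℤ) else 0) = 0 :=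
        Finset.sum_eq_zero fun u _ => if_neg (fun h3 => hr ⟨u, h3.2⟩)
      rw [h1, zero_add]
      by_cases hi : ∃ i, FD G B q a ∧ Rcv G B F q a i
      · obtain ⟨i, hi1, hi2⟩ := hi
        rw [Finset.sum_eq_single i]
        · rw [if_pos ⟨hi1, hi2⟩]
        · intro j _ hne
          rw [if_neg (fun h3 => hne (Rcv_unique h hF hi1 h3.2 hi2))]
        · intro h3
          exact absurd (mem_univ i) h3
      · rw [Finset.sum_eq_zero fun i _ => if_neg (fun h3 => hi ⟨i, h3⟩)]
        norm_num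
  · rw [if_neg hD]
    have h1 : ∑ u', (if Dt G B q a ∧ rcp G B q a u' then (1 : ℤ) else 0) = 0 :=
      Finset.sum_eq_zero fun u _ => if_neg (fun h3 => hD h3.1)
    have h2 : ∑ i, (if FD G B q a ∧ Rcv G B F q a i then (1 : ℤ) else 0) = 0 :=
      Finset.sum_eq_zero fun i _ => if_neg (fun h3 => hD h3.1.1)
    rw [h1, h2]
    norm_num

end Pool.Agent.Lib.SVY
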