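import Pool.Agent.Lib.SVY.Del
import Pool.Agent.Lib.SVX.Cyc67

/-!
# SVY: (7:2)-colourings of planar graphs without 4-, 5-cycles: definitions

The setting: `h : MinCE G B` (a minimal counterexample to the extension theorem), `hF : Faces G F`
(the faces `F i`, `i : Fin m`, as edge sets).  `dg` degree, `tt` number of triangles at a vertex,
`TE`/`WE` edges in a triangle / in no triangle (weak edges), `wn`/`tn` the weak / triangle
neighbours.  `Ring G F i n c`: the face `F i` is the cycle `c : ZMod n → V`.
-/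

set_option autoImplicit false
set_option linter.unusedSectionVars false

namespace Pool.Agent.Lib.SVY

open Finset Pool.Agent.Lib.SVT Pool.Agent.Lib.SVX

variable {V : Type*} [Fintype V] [DecidableEq V]

/-- the degree -/
noncomputable def dg (G : SimpleGraph V) (v : V) : ℕ := (nb G univ v).card

/-- the number of triangles at `v` -/
noncomputable def tt (G : SimpleGraph V) (v : V) : ℕ := (tr G univ v).card

/-- an edge of a triangle -/
def TE (G : SimpleGraph V) (a b : V) : Prop := G.Adj a b ∧ ∃ w, G.Adj a w ∧ G.Adj b w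

/-- an edge in no triangle (weak edge) -/
def WE (G : SimpleGraph V) (a b : V) : Prop := G.Adj a b ∧ ¬ ∃ w, G.Adj a w ∧ G.Adj b w

/-- the weak neighbours -/
noncomputable def wn (G : SimpleGraph V) (v : V) : Finset V := by
  classical exact univ.filter (fun u => WE G v u)

/-- the neighbours on triangle edges -/
noncomputable def tn (G : SimpleGraph V) (v : V) : Finset V := by
  classical exact univ.filter (fun u => TE G v u)

lemma mem_wn {G : SimpleGraph V} {v u : V} : u ∈ wn G v ↔ WE G v u := by
  classical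
  unfold wn
  rw [mem_filter]
  exact ⟨fun h => h.2, fun h => ⟨mem_univ _, h⟩⟩

lemma mem_tn {G : SimpleGraph V} {v u : V} : u ∈ tn G v ↔ TE G v u := by
  classical
  unfold tn
  rw [mem_filter]
  exact ⟨fun h => h.2, fun h => ⟨mem_univ _, h⟩⟩

lemma TE.symm {G : SimpleGraph V} {a b : V} (h : TE G a b) : TE G b a := by
  obtain ⟨h1, w, h2, h3⟩ := h
  exact ⟨h1.symm, w, h3, h2⟩

lemma WE.symm {G : SimpleGraph V} {a b : V} (h : WE G a b) : WE G b a := by
  refine ⟨h.1.symm, ?_⟩
  rintro ⟨w, h2, h3⟩
  exact h.2 ⟨w, h3, h2⟩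

lemma te_or_we {G : SimpleGraph V} {a b : V} (h : G.Adj a b) : TE G a b ∨ WE G a b := by
  by_cases h1 : ∃ w, G.Adj a w ∧ G.Adj b w
  · exact Or.inl ⟨h, h1⟩
  · exact Or.inr ⟨h, h1⟩

lemma TE.not_we {G : SimpleGraph V} {a b : V} (h : TE G a b) : ¬ WE G a b := fun h' => h'.2 h.2

/-- the face `F i` is the cycle `c` -/
structure Ring (G : SimpleGraph V) {m : ℕ} (F : Fin m → Finset (Sym2 V)) (i : Fin m) (n : ℕ)
    [NeZero n] (c : ZMod n → V) : Prop where
  cyc : IsCyc G n c
  eq : F i = cycEdges c

/-- `x` is not on the ring -/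
def Off {n : ℕ} (c : ZMod n → V) (x : V) : Prop := ∀ j, x ≠ c j

end Pool.Agent.Lib.SVY
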