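import Pool.Agent.Lib.SVX.CfgD

/-!
# SVY.Del: occurrences of configurations by degrees and induced adjacency

`inst_of`: an occurrence from: injectivity, edges, degrees, no further edges between recoloured
vertices.  `pat_false`: a pure deletion (no terminals, no new edges) of an induced pattern.
-/

set_option autoImplicit false
set_option linter.unusedSectionVars false

namespace Pool.Agent.Lib.SVY

open Finset Pool.Agent.Lib.SVT Pool.Agent.Lib.SVX

variable {V : Type*} [Fintype V] [DecidableEq V] {G : SimpleGraph V} {B : Finset V}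

/-- the named neighbours of `i` -/
def nn (c : Cfg) (i : ℕ) : Finset ℕ := (Finset.range c.N).filter (fun j => c.adjE i j = true)

/-- the recoloured named neighbours of `i` -/
def nh (c : Cfg) (i : ℕ) : Finset ℕ :=
  (Finset.range c.N).filter (fun j => c.adjE i j = true ∧ c.inH j = true)

/-- an occurrence from degree bounds -/
theorem inst_of {c : Cfg} {nm : ℕ → V}
    (hinj : ∀ i j, i < c.N → j < c.N → nm i = nm j → i = j)
    (hB : ∀ r, r < c.nc → nm r ∉ B)
    (hedge : ∀ i j, i < c.N → j < c.N → c.adjE i j = true → G.Adj (nm i) (nm j))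
    (hdeg : ∀ r, r < c.nc → (nb G univ (nm r)).card ≤ c.outs r + (nn c r).card)
    (hind : ∀ r j, r < c.nc → j < c.N → c.inH j = true → G.Adj (nm r) (nm j) → c.adjE r j = true)
    (hsm : ∀ t, c.isT t = true → c.sm t = true → nm t ∉ B ∧
      (nb G univ (nm t)).card ≤ c.outs t + (nh c t).card ∧
      ∀ j, j < c.N → c.inH j = true → G.Adj (nm t) (nm j) → c.adjE t j = true)
    (hexc : ∀ i j l, c.isT i = true → c.isT j = true → i ≠ j → c.excl i j l = true →
      ¬ OPath G {v | ∃ r, r < c.nc ∧ v = nm r} (nm i) (nm j) l) :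
    Inst c G B nm := by
  classical
  have hN : ∀ r, r < c.nc → r < c.N := fun r hr => Nat.lt_of_lt_of_le hr (Nat.le_add_right _ _)
  refine ⟨hinj, hB, hedge, ?_, ?_, hexc⟩
  · intro r hr
    refine ⟨nb G univ (nm r) \ (nn c r).image nm, ?_, ?_, ?_⟩
    · have h1 : (nn c r).image nm ⊆ nb G univ (nm r) := by
        intro v hv
        obtain ⟨j, hj, rfl⟩ := Finset.mem_image.1 hv
        obtain ⟨hj1, hj2⟩ := Finset.mem_filter.1 hj
        exact mem_nb.2 ⟨mem_univ _, hedge r j (hN r hr) (Finset.mem_range.1 hj1) hj2⟩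
      have h2 : ((nn c r).image nm).card = (nn c r).card := by
        refine Finset.card_image_of_injOn ?_
        intro i hi j hj hij
        exact hinj i j (Finset.mem_range.1 (Finset.mem_filter.1 (Finset.mem_coe.1 hi)).1)
          (Finset.mem_range.1 (Finset.mem_filter.1 (Finset.mem_coe.1 hj)).1) hij
      rw [Finset.card_sdiff_of_subset h1, h2]
      have := hdeg r hr
      omega
    · intro v hv
      by_cases hv' : v ∈ (nn c r).image nm
      · right
        obtain ⟨j, hj, rfl⟩ := Finset.mem_image.1 hv'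
        obtain ⟨hj1, hj2⟩ := Finset.mem_filter.1 hj
        exact ⟨j, Finset.mem_range.1 hj1, hj2, rfl⟩
      · left
        exact Finset.mem_sdiff.2 ⟨mem_nb.2 ⟨mem_univ _, hv⟩, hv'⟩
    · intro j hj hjH hmem
      obtain ⟨h1, h2⟩ := Finset.mem_sdiff.1 hmem
      exact h2 (Finset.mem_image.2 ⟨j, Finset.mem_filter.2 ⟨Finset.mem_range.2 hj,
        hind r j hr hj hjH (mem_nb.1 h1).2⟩, rfl⟩)
  · intro t ht hs
    obtain ⟨h1, h2, h3⟩ := hsm t ht hs
    have htN : t < c.N := by
      unfold Cfg.isT at ht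
      rw [Bool.and_eq_true, decide_eq_true_eq, decide_eq_true_eq] at ht
      exact ht.2
    refine ⟨h1, nb G univ (nm t) \ (nh c t).image nm, ?_, ?_, ?_⟩
    · have h4 : (nh c t).image nm ⊆ nb G univ (nm t) := by
        intro v hv
        obtain ⟨j, hj, rfl⟩ := Finset.mem_image.1 hv
        obtain ⟨hj1, hj2⟩ := Finset.mem_filter.1 hj
        exact mem_nb.2 ⟨mem_univ _, hedge t j htN (Finset.mem_range.1 hj1) hj2.1⟩
      have h5 : ((nh c t).image nm).card = (nh c t).card := by
        refine Finset.card_image_of_injOn ?_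
        intro i hi j hj hij
        exact hinj i j (Finset.mem_range.1 (Finset.mem_filter.1 (Finset.mem_coe.1 hi)).1)
          (Finset.mem_range.1 (Finset.mem_filter.1 (Finset.mem_coe.1 hj)).1) hij
      rw [Finset.card_sdiff_of_subset h4, h5]
      omega
    · intro v hv
      by_cases hv' : v ∈ (nh c t).image nm
      · right
        obtain ⟨j, hj, rfl⟩ := Finset.mem_image.1 hv'
        obtain ⟨hj1, hj2⟩ := Finset.mem_filter.1 hj
        exact ⟨j, Finset.mem_range.1 hj1, hj2.2, hj2.1, rfl⟩
      · left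
        exact Finset.mem_sdiff.2 ⟨mem_nb.2 ⟨mem_univ _, hv⟩, hv'⟩
    · intro j hj hjH hmem
      obtain ⟨h4, h5⟩ := Finset.mem_sdiff.1 hmem
      exact h5 (Finset.mem_image.2 ⟨j, Finset.mem_filter.2 ⟨Finset.mem_range.2 hj,
        h3 j hj hjH (mem_nb.1 h4).2, hjH⟩, rfl⟩)

/-- a pattern: no terminals, no new edges -/
def pat (n : ℕ) (E : List (ℕ × ℕ)) (o : ℕ → ℕ) : Cfg where
  nc := n
  nt := 0
  E := E
  Bs := []
  outs := o
  sm := fun _ => false
  keep := []
  pi := id
  NE := []
  al := []

/-- deletion of an induced pattern -/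
theorem pat_false {n : ℕ} {E : List (ℕ × ℕ)} {o : ℕ → ℕ} {nm : ℕ → V}
    (hadm : (pat n E o).adm id = true) (hl : (pat n E o).ListOK) (h : MinCE G B)
    (hinj : ∀ i j, i < n → j < n → nm i = nm j → i = j)
    (hB : ∀ r, r < n → nm r ∉ B)
    (hadj : ∀ i j, i < n → j < n → (G.Adj (nm i) (nm j) ↔ (pat n E o).adjE i j = true))
    (hdeg : ∀ r, r < n → (nb G univ (nm r)).card ≤ o r + (nn (pat n E o) r).card) : False := by
  have hT : ∀ t, ¬ (pat n E o).isT t = true := by
    intro t ht
    unfold Cfg.isT at ht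
    rw [Bool.and_eq_true, decide_eq_true_eq, decide_eq_true_eq] at ht
    exact absurd (lt_of_le_of_lt ht.1 ht.2) (lt_irrefl _)
  refine cfg_false hadm hl h (inst_of hinj hB (fun i j hi hj hij => (hadj i j hi hj).2 hij) hdeg
    (fun r j hr hj _ hrj => (hadj r j hr hj).1 hrj) (fun t ht => absurd ht (hT t))
    (fun i j l hi => absurd hi (hT i)))

end Pool.Agent.Lib.SVY
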