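import Pool.Agent.Lib.SVY.Tri
import Pool.Agent.Lib.SVT.Rank
import Pool.Agent.Lib.SVT.Count

/-!
# SVY.Euler: Euler's formula

Plan.  `|E| + 2 ≤ nv + m`: apply `SVT.card_le_family` (file SVT/Rank.lean) with `S` = all edges of
`G` (`edg G univ`), `W` = the non-isolated vertices and the family of all faces but one: the sum of
all faces is 0 mod 2 (`Faces.two`), so the dual property (`Faces.dual`) still holds without one of
them (`m ≥ 1` because there is an edge, `exists_edge`).  Every edge is in exactly two faces:
`∑ i, (F i).card = 2 |E|`; `∑ v, dg G v = 2 |E|` and `∑ v, tt G v = 3 (tris G univ).card`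
(SVT/Count.lean: `sum_nb`, `sum_tr`).  By `face_size` every face has 3 or at least 6 edges; the
number of faces with 3 edges is at most the number of triangles (a face of size 3 is a triangle
(`face_tri`), two different indices give different triangles: `te_faces`).  `qv G v = 0` if `v` is
isolated.
-/

set_option autoImplicit false
set_option linter.unusedSectionVars false

namespace Pool.Agent.Lib.SVY

open Finset Pool.Agent.Lib.SVT Pool.Agent.Lib.SVX

variable {V : Type*} [Fintype V] [DecidableEq V] {G : SimpleGraph V} {B : Finset V}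
variable {m : ℕ} {F : Fin m → Finset (Sym2 V)}

/-- the charge of a vertex -/
noncomputable def qv (G : SimpleGraph V) (v : V) : ℤ :=
  if dg G v = 0 then 0 else 2 * (dg G v : ℤ) - (tt G v : ℤ) - 6

/-- the charge of a face -/
def qf (F : Fin m → Finset (Sym2 V)) (i : Fin m) : ℤ :=
  if (F i).card = 3 then 0 else ((F i).card : ℤ) - 6

lemma mem_edg_univ {e : Sym2 V} : e ∈ edg G univ ↔ e ∈ G.edgeSet := by
  rw [mem_edg]
  exact ⟨fun h => h.1, fun h => ⟨h, fun v _ => mem_univ v⟩⟩

/-- the sum over the faces is a sum over the edges -/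
lemma sum_faces {M : Type*} [AddCommMonoid M] (hF : Faces G F) (c : Sym2 V → M) :
    ∑ i, ∑ e ∈ F i, c e = ∑ e ∈ edg G univ, 2 • c e := by
  classical
  have h1 : ∀ i, ∑ e ∈ F i, c e = ∑ e ∈ edg G univ, if e ∈ F i then c e else 0 := by
    intro i
    rw [← Finset.sum_filter]
    refine Finset.sum_congr ?_ fun _ _ => rfl
    ext e
    rw [mem_filter, mem_edg_univ]
    exact ⟨fun h => ⟨hF.sub i e h, h⟩, fun h => h.2⟩
  rw [Finset.sum_congr rfl fun i _ => h1 i, Finset.sum_comm]
  refine Finset.sum_congr rfl fun e he => ?_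
  rw [← Finset.sum_filter, Finset.sum_const, hF.two e (mem_edg_univ.1 he)]

lemma sum_size (hF : Faces G F) : ∑ i, (F i).card = 2 * (edg G univ).card := by
  have h := sum_faces hF (fun _ => (1 : ℕ))
  simp only [Finset.sum_const, smul_eq_mul, mul_one] at h
  rw [h, mul_comm]

/-- the face of size 3 is the edge set of a triangle -/
lemma face_edg (hF : Faces G F) {i : Fin m} (hi : (F i).card = 3) :
    F i ∈ (tris G univ).image (edg G) := by
  classical
  obtain ⟨e, he⟩ := hF.ne i
  induction e with | _ a b
  obtain ⟨w, hab, haw, hbw, hE⟩ := face_tri hF hi he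
  have hT : ({a, b, w} : Finset V) ∈ tris G univ := by
    refine mem_tris.2 ⟨fun x _ => mem_univ x, ?_, ?_⟩
    · exact Finset.card_eq_three.2 ⟨a, b, w, hab.ne, haw.ne, hbw.ne, rfl⟩
    · intro u hu v hv huv
      simp only [mem_insert, mem_singleton] at hu hv
      rcases hu with rfl | rfl | rfl <;> rcases hv with rfl | rfl | rfl <;>
        first
          | exact absurd rfl huv
          | assumption
          | exact SimpleGraph.Adj.symm (by assumption)
  refine mem_image.2 ⟨{a, b, w}, hT, ?_⟩
  symm
  refine Finset.eq_of_subset_of_card_le ?_ ?_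
  · rw [hE]
    intro x hx
    simp only [mem_insert, mem_singleton] at hx
    rcases hx with rfl | rfl | rfl
    · exact mem_edg'.2 ⟨hab, by simp, by simp⟩
    · exact mem_edg'.2 ⟨hbw, by simp, by simp⟩
    · exact mem_edg'.2 ⟨haw.symm, by simp, by simp⟩
  · rw [card_edg_tri hT, hi]

lemma small_inj (h : MinCE G B) (hF : Faces G F) {i j : Fin m} (hi : (F i).card = 3)
    (hj : (F j).card = 3) (hij : F i = F j) : i = j := by
  obtain ⟨e, he⟩ := hF.ne i
  induction e with | _ a b
  obtain ⟨w, hab, haw, hbw, hE⟩ := face_tri hF hi he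
  obtain ⟨i', j', _, _, _, h6, hk⟩ := te_faces h hF hab haw hbw
  have h1 := (hk i).1 he
  have h2 := (hk j).1 (hij ▸ he)
  have h3 : i ≠ j' := by
    rintro rfl
    omega
  have h4 : j ≠ j' := by
    rintro rfl
    omega
  rcases h1 with h1 | h1
  · rcases h2 with h2 | h2
    · rw [h1, h2]
    · exact absurd h2 h4
  · exact absurd h1 h3

/-- the number of faces of size 3 -/
lemma small_le (h : MinCE G B) (hF : Faces G F) :
    (univ.filter (fun i => (F i).card = 3)).card ≤ (tris G univ).card := by
  classical
  have h1 : (univ.filter (fun i => (F i).card = 3)).card =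
      ((univ.filter (fun i => (F i).card = 3)).image F).card := by
    refine (Finset.card_image_of_injOn ?_).symm
    intro i hi j hj hij
    simp only [coe_filter, mem_univ, true_and, Set.mem_ofPred_eq] at hi hj
    exact small_inj h hF hi hj hij
  rw [h1]
  refine (Finset.card_le_card ?_).trans (Finset.card_image_le (s := tris G univ) (f := edg G))
  intro A hA
  obtain ⟨i, hi, rfl⟩ := mem_image.1 hA
  exact face_edg hF (mem_filter.1 hi).2

/-- Euler's formula as an inequality -/
lemma euler_ineq (h : MinCE G B) (hF : Faces G F) :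
    (edg G univ).card + 2 ≤ nv G + m := by
  classical
  obtain ⟨a, b, hab⟩ := exists_edge h
  obtain ⟨i0, _⟩ := exists_face hF hab
  have hm : 1 ≤ m := by
    have := i0.isLt
    omega
  let W : Finset V := univ.filter (fun v => ∃ u, G.Adj v u)
  have hW : W.Nonempty := ⟨a, mem_filter.2 ⟨mem_univ _, b, hab⟩⟩
  have hnv : nv G = W.card := by
    unfold nv
    exact congrArg Finset.card (by ext v; simp [W])
  have key := card_le_family (S := edg G univ) (W := W) hW
    (by
      intro a b hab
      have h1 := (mem_edg'.1 hab).1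
      exact ⟨h1.ne, mem_filter.2 ⟨mem_univ _, b, h1⟩, mem_filter.2 ⟨mem_univ _, a, h1.symm⟩⟩)
    (𝓕 := (univ.erase i0).image F)
    (by
      intro A hA
      obtain ⟨i, _, rfl⟩ := mem_image.1 hA
      intro e he
      exact mem_edg_univ.2 (hF.sub i e he))
    (by
      intro c hc
      have h1 : ∀ i, i ≠ i0 → ∑ e ∈ F i, c e = 0 := fun i hi =>
        hc (F i) (mem_image_of_mem _ (mem_erase.2 ⟨hi, mem_univ _⟩))
      have h2 : ∑ e ∈ F i0, c e = 0 := by
        have h3 := sum_faces hF c
        rw [← Finset.add_sum_erase univ _ (mem_univ i0),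
          Finset.sum_eq_zero (s := univ.erase i0) (fun i hi => h1 i (mem_erase.1 hi).1),
          add_zero] at h3
        rw [h3]
        refine Finset.sum_eq_zero fun e _ => ?_
        rw [two_smul]
        exact CharTwo.add_self_eq_zero _
      obtain ⟨y, hy⟩ := hF.dual c (fun i => by
        by_cases hi : i = i0
        · rw [hi]; exact h2
        · exact h1 i hi)
      exact ⟨y, fun a b hab => hy a b (mem_edg'.1 hab).1⟩)
  have h5 : ((univ.erase i0).image F).card ≤ m - 1 := by
    refine Finset.card_image_le.trans ?_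
    rw [Finset.card_erase_of_mem (mem_univ _), Finset.card_univ, Fintype.card_fin]
  omega

lemma sum_qv (G : SimpleGraph V) :
    ∑ v, qv G v = 4 * ((edg G univ).card : ℤ) - 3 * ((tris G univ).card : ℤ) - 6 * (nv G : ℤ) := by
  classical
  have e1 : (∑ v : V, (dg G v : ℤ)) = 2 * ((edg G univ).card : ℤ) := by
    have := sum_nb G (univ : Finset V)
    unfold dg
    exact_mod_cast this
  have e2 : (∑ v : V, (tt G v : ℤ)) = 3 * ((tris G univ).card : ℤ) := by
    have := sum_tr G (univ : Finset V)
    unfold tt
    exact_mod_cast this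
  have e3 : (nv G : ℤ) = ∑ v : V, if dg G v = 0 then (0 : ℤ) else 1 := by
    unfold nv
    rw [Finset.card_filter]
    push_cast
    refine Finset.sum_congr rfl fun v _ => ?_
    have h0 : dg G v = 0 ↔ ¬ ∃ u, G.Adj v u := by
      unfold dg
      rw [Finset.card_eq_zero, Finset.eq_empty_iff_forall_notMem]
      constructor
      · rintro h ⟨u, hu⟩
        exact h u (mem_nb.2 ⟨mem_univ _, hu⟩)
      · intro h u hu
        exact h ⟨u, (mem_nb.1 hu).2⟩
    by_cases hv : ∃ u, G.Adj v u
    · rw [if_pos hv, if_neg (fun hh => (h0.1 hh) hv)]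
    · rw [if_neg hv, if_pos (h0.2 hv)]
  have e4 : ∀ v : V, qv G v = 2 * (dg G v : ℤ) - (tt G v : ℤ) -
      6 * (if dg G v = 0 then (0 : ℤ) else 1) := by
    intro v
    unfold qv
    split_ifs with hv
    · have ht : tt G v = 0 := by
        unfold tt
        rw [Finset.card_eq_zero, Finset.eq_empty_iff_forall_notMem]
        intro T hT
        obtain ⟨h1, h2⟩ := mem_tr.1 hT
        obtain ⟨_, h4, h5⟩ := mem_tris.1 h1
        obtain ⟨u, hu, huv⟩ := Finset.exists_mem_ne (by omega : 1 < T.card) v
        have h6 : u ∈ nb G univ v := mem_nb.2 ⟨mem_univ _, h5 v h2 u hu huv.symm⟩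
        unfold dg at hv
        rw [Finset.card_eq_zero] at hv
        rw [hv] at h6
        exact absurd h6 (Finset.notMem_empty u)
      rw [hv, ht]
      simp
    · ring
  rw [Finset.sum_congr rfl fun v _ => e4 v, Finset.sum_sub_distrib, Finset.sum_sub_distrib,
    ← Finset.mul_sum, ← Finset.mul_sum, e1, e2, ← e3]
  ring

lemma sum_qf (hF : Faces G F) :
    ∑ i, qf F i = 2 * ((edg G univ).card : ℤ) - 6 * (m : ℤ) +
      3 * ((univ.filter (fun i => (F i).card = 3)).card : ℤ) := by
  classical
  have e1 : (∑ i, ((F i).card : ℤ)) = 2 * ((edg G univ).card : ℤ) := by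
    exact_mod_cast sum_size hF
  have e2 : ∀ i, qf F i = ((F i).card : ℤ) - 6 + 3 * (if (F i).card = 3 then (1 : ℤ) else 0) := by
    intro i
    unfold qf
    split_ifs with hi
    · rw [hi]; norm_num
    · ring
  rw [Finset.sum_congr rfl fun i _ => e2 i, Finset.sum_add_distrib, Finset.sum_sub_distrib, e1,
    ← Finset.mul_sum, Finset.card_filter]
  simp only [Finset.sum_const, Finset.card_univ, Fintype.card_fin, nsmul_eq_mul]
  push_cast
  ring

theorem euler (h : MinCE G B) (hF : Faces G F) :
    ∑ v, qv G v + ∑ i, qf F i ≤ -12 := by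
  rw [sum_qv, sum_qf hF]
  have h1 : ((edg G univ).card : ℤ) + 2 ≤ (nv G : ℤ) + (m : ℤ) := by
    exact_mod_cast euler_ineq h hF
  have h2 : ((univ.filter (fun i => (F i).card = 3)).card : ℤ) ≤ ((tris G univ).card : ℤ) := by
    exact_mod_cast small_le h hF
  linarith

end Pool.Agent.Lib.SVY
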