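import Pool.Agent.Lib.SVY.Loc

/-!
# SVY.Far: no short path outside a configuration

`a - p - q - b` is a path whose edges `p q`, `q b` are not consecutive at `q`, and no vertex outside
`R` is adjacent to `q` and `b`: there is no path of length at most 4 from `a` to `b` outside `R`.
-/

set_option autoImplicit false
set_option linter.unusedSectionVars false

namespace Pool.Agent.Lib.SVY

open Finset Pool.Agent.Lib.SVT Pool.Agent.Lib.SVX

variable {V : Type*} [Fintype V] [DecidableEq V] {G : SimpleGraph V} {B : Finset V}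
variable {m : ℕ} {F : Fin m → Finset (Sym2 V)}

theorem Loc.opathSymm {G : SimpleGraph V} {R : Set V} {a b : V} {l : ℕ} (h : OPath G R a b l) :
    OPath G R b a l := by
  match l, h with
  | 0, h => exact h.elim
  | 1, h => exact SimpleGraph.Adj.symm h
  | 2, ⟨x, hx, h1, h2⟩ => exact ⟨x, hx, h2.symm, h1.symm⟩
  | 3, ⟨x, y, hx, hy, h1, h2, h3, h4, h5⟩ => exact ⟨y, x, hy, hx, h2, h1, h5.symm, h4.symm, h3.symm⟩
  | 4, ⟨x, y, z, hx, hy, hz, h1, h2, h3, h4, h5, h6, h7, h8, h9⟩ =>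
    exact ⟨z, y, x, hz, hy, hx, h4, h3, h2, h1, h5.symm, h9.symm, h8.symm, h7.symm, h6.symm⟩
  | _ + 5, h => exact h.elim

theorem far (h : MinCE G B) (hF : Faces G F) {a p q b : V} {R : Set V} (hp : p ∈ R) (hq : q ∈ R)
    (e1 : G.Adj a p) (e2 : G.Adj p q) (e3 : G.Adj q b) (hab : a ≠ b) (haq : a ≠ q) (hpb : p ≠ b)
    (naq : ¬ G.Adj a q) (npb : ¬ G.Adj p b) (hnc : ¬ Corner F q p b)
    (hu : ∀ u, u ∉ R → G.Adj q u → ¬ G.Adj u b) (l : ℕ) : ¬ OPath G R a b l := by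
  have key : ∀ {x y : V}, x ∉ R → y ∉ R → x ≠ b → y ≠ a → G.Adj a x → G.Adj x y → G.Adj y b →
      False := by
    intro x y hx hy h1 h2 h3 h4 h5
    have hpx : p ≠ x := fun he => hx (he ▸ hp)
    have hpy : p ≠ y := fun he => hy (he ▸ hp)
    have hqx : q ≠ x := fun he => hx (he ▸ hq)
    have hqy : q ≠ y := fun he => hy (he ▸ hq)
    have hnd : [a, p, q, b, y, x].Nodup := by
      simp only [List.nodup_cons, List.mem_cons, List.not_mem_nil, or_false, not_or,
        not_false_eq_true, List.nodup_nil, and_true]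
      exact ⟨⟨e1.ne, haq, hab, h2.symm, h3.ne⟩, ⟨e2.ne, hpb, hpy, hpx⟩, ⟨e3.ne, hqy, hqx⟩,
        ⟨h5.ne.symm, h1.symm⟩, h4.ne.symm⟩
    obtain ⟨i, hi⟩ := cyc6 h hF hnd e1 e2 e3 h5.symm h4.symm h3.symm
    refine hnc ⟨i, ?_, ?_⟩
    · rw [hi, Sym2.eq_swap]
      simp
    · rw [hi]
      simp
  match l with
  | 0 => exact fun h => h
  | 1 => exact fun h1 => h.good.c4 a p q b haq hpb e1 e2 e3 (SimpleGraph.Adj.symm h1)
  | 2 =>
    rintro ⟨x, hx, h1, h2⟩
    have hpx : p ≠ x := fun he => hx (he ▸ hp)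
    have hqx : q ≠ x := fun he => hx (he ▸ hq)
    exact h.good.c5 a p q b x haq hab hpb hpx hqx e1 e2 e3 h2.symm h1.symm
  | 3 =>
    rintro ⟨x, y, hx, hy, h1, h2, h3, h4, h5⟩
    exact key hx hy h1 h2 h3 h4 h5
  | 4 =>
    rintro ⟨x, y, z, hx, hy, hz, h1, h2, h3, h4, h5, h6, h7, h8, h9⟩
    have hpx : p ≠ x := fun he => hx (he ▸ hp)
    have hpy : p ≠ y := fun he => hy (he ▸ hp)
    have hpz : p ≠ z := fun he => hz (he ▸ hp)
    have hqx : q ≠ x := fun he => hx (he ▸ hq)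
    have hqy : q ≠ y := fun he => hy (he ▸ hq)
    have hqz : q ≠ z := fun he => hz (he ▸ hq)
    have hnd : [a, p, q, b, z, y, x].Nodup := by
      simp only [List.nodup_cons, List.mem_cons, List.not_mem_nil, or_false, not_or,
        not_false_eq_true, List.nodup_nil, and_true]
      exact ⟨⟨e1.ne, haq, hab, h4.symm, h2.symm, h6.ne⟩, ⟨e2.ne, hpb, hpz, hpy, hpx⟩,
        ⟨e3.ne, hqz, hqy, hqx⟩, ⟨h9.ne.symm, h3.symm, h1.symm⟩, ⟨h8.ne.symm, h5.symm⟩, h7.ne.symm⟩
    rcases cyc7 h hF hnd e1 e2 e3 h9.symm h8.symm h7.symm h6.symm with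
      ⟨i, hi⟩ | h10 | h10 | h10 | h10 | h10 | h10 | h10
    · refine hnc ⟨i, ?_, ?_⟩
      · rw [hi, Sym2.eq_swap]
        simp
      · rw [hi]
        simp
    · exact naq h10
    · exact npb h10
    · exact hu z hz h10 h9
    · exact key hx hy h1 h2 h6 h7 h10.symm
    · exact key hx hz h1 h4 h6 h10.symm h9
    · exact key hy hz h3 h4 h10.symm h8 h9
    · -- the chord `x p`: the cycle `p q b z y x` is a face
      have hnd' : [p, q, b, z, y, x].Nodup := by
        simp only [List.nodup_cons, List.mem_cons, List.not_mem_nil, or_false, not_or,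
          not_false_eq_true, List.nodup_nil, and_true]
        exact ⟨⟨e2.ne, hpb, hpz, hpy, hpx⟩,
          ⟨e3.ne, hqz, hqy, hqx⟩, ⟨h9.ne.symm, h3.symm, h1.symm⟩, ⟨h8.ne.symm, h5.symm⟩, h7.ne.symm⟩
      obtain ⟨i, hi⟩ := cyc6 h hF hnd' e2 e3 h9.symm h8.symm h7.symm h10
      refine hnc ⟨i, ?_, ?_⟩
      · rw [hi, Sym2.eq_swap]
        simp
      · rw [hi]
        simp
  | _ + 5 => exact fun h => h

end Pool.Agent.Lib.SVY
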