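import Pool.Agent.Lib.SVY.Euler

/-!
# SVY.Rule: the discharging rule (definitions)

Charges are multiplied by 4 (`∑ 4 qv + ∑ 4 qf ≤ -48`).  Classes of vertices:
`One` (degree 3, one triangle), `Thr` (degree 3, no triangle), `OneP`: a `One` with a weak
neighbour `One`; `Star`: a `Thr` with a neighbour `One`; `Dm` = `One` or `Star` (must be paid by
its weak neighbours); `FF` (degree 4, two triangles), `F04` (degree 4, no triangle), `F12`
(degree 4, one triangle): `P1c` (both weak neighbours `One`), `Free` (no weak neighbour `Dm`),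
`Npay` (the others); `Ex2` (degree 5, two triangles, the weak neighbour is `Dm`), `ExK` (degree 5,
one triangle, the weak neighbours are `Dm`), `Np`: the paying vertices.

Transfers:
* `C1 q u`: 4 to a weak neighbour `One` (not from a `One`), 2 to a weak neighbour `Star`.
* a paying vertex `q` gives 2 for every dart `q → a` (`TE q a`, `a ∉ B`): to the apex if it is
  `OneP`, to `a` if `a` is `OneP` or `P1c`, to the weak neighbour of `a` if `a` is `OneQ` (`rcp`);
  otherwise (`FD`) to a face (`Rcv`).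
* `Cb`: 1 to a `OneP` vertex on an edge of `B`.
* `Ce`: `Ex2` vertices to `OneP` and `P1c` vertices; the rest of 4 goes to the face of the
  T-T-corner (`TT`), and 2 to a face with `S3`.
* a face gives 2 (`NV`), 1 (`NW`) to a `OneP` vertex and 2 (`N1`) to a `P1c` vertex.
-/

set_option autoImplicit false
set_option linter.unusedSectionVars false

namespace Pool.Agent.Lib.SVY

open Finset Pool.Agent.Lib.SVT Pool.Agent.Lib.SVX

variable {V : Type*} [Fintype V] [DecidableEq V]

section Cls

variable (G : SimpleGraph V) (B : Finset V)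

def One (v : V) : Prop := v ∉ B ∧ dg G v = 3 ∧ tt G v = 1

def Thr (v : V) : Prop := v ∉ B ∧ dg G v = 3 ∧ tt G v = 0

def OneP (v : V) : Prop := One G B v ∧ ∃ z, WE G v z ∧ One G B z

def Star (v : V) : Prop := Thr G B v ∧ ∃ z, WE G v z ∧ One G B z

def Dm (v : V) : Prop := One G B v ∨ Star G B v

def FF (v : V) : Prop := v ∉ B ∧ dg G v = 4 ∧ tt G v = 2

def F12 (v : V) : Prop := v ∉ B ∧ dg G v = 4 ∧ tt G v = 1

def F04 (v : V) : Prop := v ∉ B ∧ dg G v = 4 ∧ tt G v = 0

def P1c (v : V) : Prop := F12 G B v ∧ ∀ u, WE G v u → One G B u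

def OneQ (v : V) : Prop := One G B v ∧ ∃ z, WE G v z ∧ P1c G B z

def Free (v : V) : Prop := F12 G B v ∧ ∀ u, WE G v u → ¬ Dm G B u

def Npay (v : V) : Prop := F12 G B v ∧ ¬ P1c G B v ∧ ¬ Free G B v

def Ex2 (v : V) : Prop := v ∉ B ∧ dg G v = 5 ∧ tt G v = 2 ∧ ∀ u, WE G v u → Dm G B u

def ExK (v : V) : Prop := v ∉ B ∧ dg G v = 5 ∧ tt G v = 1 ∧ ∀ u, WE G v u → Dm G B u

def Exc (v : V) : Prop := Ex2 G B v ∨ ExK G B v

def Big (v : V) : Prop := v ∈ B ∨ (5 ≤ dg G v ∧ ¬ Exc G B v)

/-- paying vertices -/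
def Np (v : V) : Prop := Big G B v ∨ Free G B v

/-- small vertices -/
def Sm (v : V) : Prop := ¬ Np G B v ∧ ¬ Exc G B v

/-- types of vertices -/
inductive Ty
  | X | f | F | N | p | E | G | K | a | b | c | z | s
deriving DecidableEq

/-- types of edges: `W` weak edge, otherwise the class of the third vertex -/
inductive Ed
  | W | T | Z | S | V | Q | C
deriving DecidableEq

namespace Ty

def np : Ty → Bool
  | .X => true
  | .f => true
  | _ => false

def ex : Ty → Bool
  | .G => true
  | .K => true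
  | _ => false

def sm (t : Ty) : Bool := !t.np && !t.ex

def dm : Ty → Bool
  | .a => true
  | .b => true
  | .c => true
  | .s => true
  | _ => false

def t3 : Ty → Bool
  | .z => true
  | t => t.dm

/-- the class of an apex -/
def ecls : Ty → Ed
  | .X => .T
  | .f => .T
  | .G => .Z
  | .K => .Z
  | .a => .V
  | .b => .Q
  | .p => .C
  | _ => .S

end Ty

open Classical in
noncomputable def ty (v : V) : Ty  :=
    if Big G B v then .X
    else if Free G B v then .f
    else if FF G B v then .F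
    else if P1c G B v then .p
    else if F12 G B v then .N
    else if F04 G B v then .E
    else if Ex2 G B v then .G
    else if ExK G B v then .K
    else if OneP G B v then .a
    else if OneQ G B v then .b
    else if One G B v then .c
    else if Star G B v then .s
    else .z

open Classical in
/-- the third vertex of the triangle on an edge -/
noncomputable def apx (a b : V) : V :=
  if h : ∃ w, G.Adj a w ∧ G.Adj b w then h.choose else a

open Classical in
noncomputable def ed (a b : V) : Ed :=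
  if WE G a b then .W else (ty G B (apx G a b)).ecls

end Cls

/-- the class of a triangle at a vertex `g`, the other vertices have type `y` and class `x`:
1, 2, 3: one of them is `OneP` and the other one is paying, small, exceptional; 4, 5, 6: one of them
is `OneQ` or `P1c` and the other one is small, exceptional, paying -/
def ctp (y : Ty) (x : Ed) : ℕ :=
  if x = .V then (if y.np then 1 else if y.ex then 3 else 2)
  else if y = .a then (if x = .T then 1 else if x = .Z then 3 else 2)
  else if x = .Q ∨ x = .C then (if y.np then 6 else if y.ex then 5 else 4)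
  else if y = .b ∨ y = .p then (if x = .T then 6 else if x = .Z then 5 else 4)
  else 0

/-- what an `Ex2` vertex owes at most to a triangle of class `t` -/
def due (t : ℕ) : ℕ :=
  if t = 2 then 4 else if t = 5 then 1 else if t = 1 ∨ t = 3 ∨ t = 4 then 2 else 0

section Tr

variable (G : SimpleGraph V) (B : Finset V) {m : ℕ} (F : Fin m → Finset (Sym2 V))

/-- not a triangle -/
def Nt (i : Fin m) : Prop := (F i).card ≠ 3

open Classical in
/-- the class of the triangle at `g` which does not contain `v` -/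
noncomputable def oc (g v : V) : ℕ  :=
    if h : ∃ q : V × V, G.Adj g q.1 ∧ G.Adj g q.2 ∧ G.Adj q.1 q.2 ∧ q.1 ≠ v ∧ q.2 ≠ v then
      ctp (ty G B h.choose.1) (ty G B h.choose.2).ecls else 0

/-- the face `i` has a corner with two triangle edges at `g` -/
def TT (g : V) (i : Fin m) : Prop :=
  Nt F i ∧ ∃ b c, b ≠ c ∧ TE G g b ∧ TE G g c ∧ s(g, b) ∈ F i ∧ s(g, c) ∈ F i

open Classical in
/-- the payment of an `Ex2` vertex `g` to a `OneP` vertex `v` in a triangle with `y` -/
noncomputable def cp (g v y : V) : ℤ :=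
  if Np G B y then 2
  else if Exc G B y then
    (if 2 ≤ due (oc G B g v) then 2 else if 2 ≤ due (oc G B y v) then 4 else 3)
  else 4

open Classical in
/-- the payment of an `Ex2` vertex to a `P1c` vertex, the other member is `y` -/
noncomputable def cq (y : V) : ℤ :=
  if Np G B y then 0 else if Exc G B y then 1 else 2

/-- darts of paying vertices -/
def Dt (q a : V) : Prop := Np G B q ∧ TE G q a ∧ a ∉ B

/-- the dart `q → a` is paid to the vertex `u` -/
def rcp (q a u : V) : Prop :=
  (OneP G B (apx G q a) ∧ u = apx G q a) ∨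
  (¬ OneP G B (apx G q a) ∧ OneP G B a ∧ u = a) ∨
  (¬ OneP G B (apx G q a) ∧ ¬ OneP G B a ∧ OneQ G B a ∧ WE G a u ∧ P1c G B u) ∨
  (¬ OneP G B (apx G q a) ∧ ¬ OneP G B a ∧ ¬ OneQ G B a ∧ P1c G B a ∧ u = a)

/-- free darts -/
def FD (q a : V) : Prop :=
  Dt G B q a ∧ ¬ OneP G B (apx G q a) ∧ ¬ OneP G B a ∧ ¬ OneQ G B a ∧ ¬ P1c G B a

/-- rerouting at an `FF` vertex -/
def RF (q a : V) (i : Fin m) : Prop :=
  FF G B a ∧ ∃ i₀ b, Nt F i₀ ∧ s(q, a) ∈ F i₀ ∧ s(a, b) ∈ F i₀ ∧ b ≠ q ∧
    (Np G B b ∨ Exc G B b) ∧ Nt F i ∧ i ≠ i₀ ∧ ∃ c, s(a, c) ∈ F i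

/-- rerouting at an `Npay` vertex -/
def RN (q a : V) (i : Fin m) : Prop :=
  Npay G B a ∧ ∃ x u, FF G B (apx G q a) ∧ FF G B x ∧ x ≠ a ∧ TE G x (apx G q a) ∧
    OneP G B (apx G x (apx G q a)) ∧ Nt F i ∧ s(x, apx G q a) ∈ F i ∧ s(apx G q a, a) ∈ F i ∧
    s(a, u) ∈ F i ∧ WE G a u

/-- the face which receives the free dart `q → a` -/
def Rcv (q a : V) (i : Fin m) : Prop :=
  ((∃ j, RF G B F q a j) ∧ RF G B F q a i) ∨
  (¬ (∃ j, RF G B F q a j) ∧ (∃ j, RN G B F q a j) ∧ RN G B F q a i) ∨
  (¬ (∃ j, RF G B F q a j) ∧ ¬ (∃ j, RN G B F q a j) ∧ Nt F i ∧ s(q, a) ∈ F i)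

/-- the third unit of an `Ex2` vertex with a `Star` neighbour -/
def S3 (g : V) (i : Fin m) : Prop :=
  Ex2 G B g ∧ Nt F i ∧ ∃ n u, WE G g n ∧ Star G B n ∧ s(g, n) ∈ F i ∧ u ≠ g ∧ s(n, u) ∈ F i ∧
    ¬ One G B u

open Classical in
noncomputable def C1 (q u : V) : ℤ  :=
    if WE G q u ∧ ¬ One G B q then (if One G B u then 4 else if Star G B u then 2 else 0) else 0

open Classical in
noncomputable def Cd (q u : V) : ℤ :=
  2 * ((univ.filter (fun a => Dt G B q a ∧ rcp G B q a u)).card : ℤ)

open Classical in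
noncomputable def Cb (x u : V) : ℤ  :=
    if x ∈ B ∧ OneP G B u ∧ TE G x u ∧ apx G x u ∈ B then 1 else 0

open Classical in
noncomputable def Ce (g u : V) : ℤ :=
  if Ex2 G B g then
    (if OneP G B u ∧ TE G g u then cp G B g u (apx G g u) else 0) +
    (if P1c G B u then
      ∑ v ∈ univ.filter (fun v => TE G g v ∧ OneQ G B v ∧ WE G v u), cq G B (apx G g v) +
      (if TE G g u then cq G B (apx G g u) else 0) else 0)
  else 0

/-- vertex to vertex -/
noncomputable def CC (q u : V) : ℤ :=
  C1 G B q u + Cd G B q u + Cb G B q u + Ce G B q u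

open Classical in
/-- vertex to face -/
noncomputable def Af (q : V) (i : Fin m) : ℤ  :=
    2 * ((univ.filter (fun a => FD G B q a ∧ Rcv G B F q a i)).card : ℤ) +
    (if Ex2 G B q ∧ TT G F q i then 4 - ∑ u, Ce G B q u else 0) +
    (if S3 G B F q i then 2 else 0)

/-- a V-edge with small ends -/
def NV (i : Fin m) (v : V) : Prop :=
  OneP G B v ∧ Nt F i ∧ ∃ x, TE G v x ∧ Sm G B x ∧ Sm G B (apx G v x) ∧ s(x, apx G v x) ∈ F i

/-- a `OneP` pair with small members on the face -/
def NW (i : Fin m) (v : V) : Prop :=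
  OneP G B v ∧ ∃ z x p, WE G v z ∧ One G B z ∧ TE G v x ∧ TE G z p ∧ s(v, z) ∈ F i ∧
    s(v, x) ∈ F i ∧ s(z, p) ∈ F i ∧ Sm G B x ∧ Sm G B p ∧
    ¬ (Exc G B (apx G v x) ∧ Exc G B (apx G z p))

/-- the members on the side of `u` of the centre `z` are small -/
def mok (z : V) (i : Fin m) (u : V) : Prop :=
  (WE G z u ∧ ∃ y, TE G u y ∧ s(u, y) ∈ F i ∧ Sm G B y ∧ Sm G B (apx G u y)) ∨
  (TE G z u ∧ Sm G B u ∧ Sm G B (apx G z u))

def N1 (i : Fin m) (z : V) : Prop :=
  P1c G B z ∧ Nt F i ∧ ∃ u w, u ≠ w ∧ s(z, u) ∈ F i ∧ s(z, w) ∈ F i ∧ mok G B F z i u ∧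
    mok G B F z i w

open Classical in
/-- face to vertex -/
noncomputable def Bf (i : Fin m) (v : V) : ℤ  :=
    (if NV G B F i v then 2 else 0) + (if NW G B F i v then 1 else 0) +
      (if N1 G B F i v then 2 else 0)

end Tr

end Pool.Agent.Lib.SVY
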