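import Pool.Agent.Lib.SVX.CfgG
import Pool.Agent.Lib.SVY.Flex

/-!
# SVY.FlexG: vertices which are not paying are flexible

`exc_flexC`, `sm_flexC`, `np_flexC`: the statement of SVY.Flex with the set of changed vertices,
also for small vertices.
-/

set_option autoImplicit false
set_option linter.unusedSectionVars false

namespace Pool.Agent.Lib.SVY

open Finset Pool.Agent.Lib.SVT Pool.Agent.Lib.SVX

variable {V : Type*} [Fintype V] [DecidableEq V] {G : SimpleGraph V} {B : Finset V}

open FlexAux in
theorem exc_flexC (h : MinCE G B) {R H : Set V} (hRH : ∀ v ∈ R, v ∈ H) {g : V}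
    (hg : Exc G B g) (hgH : g ∉ H)
    (htri : ∃ a b, a ∈ H ∧ b ∈ H ∧ G.Adj g a ∧ G.Adj g b ∧ G.Adj a b)
    (hsep : ∀ n, WE G g n → n ∉ H ∧ ∀ w ∈ H, ¬ G.Adj w n) : FlexC G B R H {v | v = g ∨ WE G g v} g := by
  classical
  have hgB : g ∉ B := by
    rcases hg with hg | hg
    · exact hg.1
    · exact hg.1
  have hgR : g ∉ R := fun hr => hgH (hRH g hr)
  have hdm : ∀ n, WE G g n → Dm G B n := by
    rcases hg with hg | hg
    · exact hg.2.2.2
    · exact hg.2.2.2
  refine ⟨Or.inl rfl, ?_, ?_, ?_⟩
  · rintro v (rfl | hv)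
    · exact hgB
    · exact (hdm v hv).deg.1
  · rintro v (rfl | hv) hvg w hw hwv
    · exact hvg rfl
    · exact (hsep v hv).2 w hw hwv
  intro φ hφ hprop
  have hprop' : ∀ u v, u ∉ H → v ∉ H → G.Adj u v → Disjoint (φ u) (φ v) := fun u v hu hv =>
    hprop u v (fun hr => hu (hRH u hr)) (fun hr => hv (hRH v hr))
  -- the other neighbours of a weak neighbour
  have hnb : ∀ n, WE G g n → ∀ m, G.Adj n m → m ∉ H := fun n hn m hm hmH =>
    (hsep n hn).2 m hmH hm.symm
  have hT : ∀ n, ∃ T : Finset (Fin 7), WE G g n → T.card = 3 ∧ ¬ φ g ⊆ T ∧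
      ∀ m, G.Adj n m → m ≠ g → Disjoint T (φ m) := by
    intro n
    by_cases hn : WE G g n
    · set O := (nb G univ n).erase g with hO
      have hgn : g ∈ nb G univ n := mem_nb.2 ⟨mem_univ _, hn.1.symm⟩
      have hOc : O.card ≤ 2 := by
        rw [hO, card_erase_of_mem hgn]
        have h1 := (hdm n hn).deg.2
        unfold dg at h1
        omega
      have hL : 3 ≤ ((O.biUnion φ)ᶜ).card := by
        have h1 := CfgDAux.compl_card hφ hOc
        omega
      have hsub : φ n ⊆ (O.biUnion φ)ᶜ := by
        intro x hx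
        rw [mem_compl, mem_biUnion]
        rintro ⟨v, hv, hxv⟩
        rw [hO, mem_erase, mem_nb] at hv
        exact disjoint_left.1 (hprop' n v (hsep n hn).1 (hnb n hn v hv.2.2) hv.2.2) hx hxv
      obtain ⟨T, hT1, hT2, hT3⟩ := Finset.exists_subsuperset_card_eq hsub
        (by rw [hφ n]; omega) hL
      refine ⟨T, fun _ => ⟨hT3, ?_, ?_⟩⟩
      · intro hc
        have h1 : φ g ∪ φ n ⊆ T := union_subset hc hT1
        have h2 := card_le_card h1
        rw [card_union_of_disjoint (hprop' g n hgH (hsep n hn).1 hn.1), hφ, hφ, hT3] at h2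
        omega
      · intro m hm hmg
        rw [disjoint_left]
        intro x hx hxm
        have h1 := hT2 hx
        rw [mem_compl, mem_biUnion] at h1
        exact h1 ⟨m, by rw [hO, mem_erase, mem_nb]; exact ⟨hmg, mem_univ _, hm⟩, hxm⟩
    · exact ⟨∅, fun h1 => absurd h1 hn⟩
  choose T hT using hT
  -- the triangle neighbours outside `H`
  set U := (tn G g).filter (fun u => u ∉ H) with hU
  obtain ⟨a, b, haH, hbH, hga, hgb, hab⟩ := htri
  have hUc : U.card + 2 ≤ 2 * tt G g := by
    rw [← card_tn h g]
    have h1 : U ∪ {a, b} ⊆ tn G g := by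
      intro x hx
      rw [mem_union, mem_insert, mem_singleton] at hx
      rcases hx with hx | rfl | rfl
      · exact (mem_filter.1 hx).1
      · exact mem_tn.2 ⟨hga, b, hgb, hab⟩
      · exact mem_tn.2 ⟨hgb, a, hga, hab.symm⟩
    have h2 := card_le_card h1
    rw [card_union_of_disjoint, card_pair hab.ne] at h2
    · exact h2
    · rw [disjoint_left]
      intro x hx hx'
      rw [mem_insert, mem_singleton] at hx'
      rcases hx' with rfl | rfl
      · exact (mem_filter.1 hx).2 haH
      · exact (mem_filter.1 hx).2 hbH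
  have hcase : ((wn G g).card = 1 ∧ U.card ≤ 2) ∨ ((wn G g).card = 3 ∧ U.card = 0) := by
    have h1 := card_wn h g
    rcases hg with hg | hg
    · rw [hg.2.1, hg.2.2.1] at h1
      rw [hg.2.2.1] at hUc
      omega
    · rw [hg.2.1, hg.2.2.1] at h1
      rw [hg.2.2.1] at hUc
      omega
  obtain ⟨s, x, hs, hx, hxU, hW⟩ := choose_pair hφ (W := wn G g) (U := U) (T := T) (g := g)
    (fun n hn => ⟨(hT n (mem_wn.1 hn)).1, (hT n (mem_wn.1 hn)).2.1⟩) hcase
  have hsx : s ≠ x := by
    rintro rfl
    exact hx hs
  -- the new colours of the weak neighbours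
  have hP : ∀ n, ∃ P : Finset (Fin 7), WE G g n → P.card = 2 ∧ P ⊆ T n ∧ Disjoint P {s, x} := by
    intro n
    by_cases hn : WE G g n
    · have h1 : 2 ≤ (T n \ {s, x}).card := by
        have h2 := (hT n hn).1
        have h3 : (T n ∩ {s, x}).card ≤ 1 := by
          rcases hW n (mem_wn.2 hn) with h4 | h4
          · refine (card_le_card (t := {x}) ?_).trans (by simp)
            intro y hy
            rw [mem_inter, mem_insert, mem_singleton] at hy
            rcases hy with ⟨h5, rfl | rfl⟩
            · exact absurd h5 h4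
            · exact mem_singleton_self _
          · refine (card_le_card (t := {s}) ?_).trans (by simp)
            intro y hy
            rw [mem_inter, mem_insert, mem_singleton] at hy
            rcases hy with ⟨h5, rfl | rfl⟩
            · exact mem_singleton_self _
            · exact absurd h5 h4
        have h5 := card_sdiff_add_card_inter (T n) {s, x}
        omega
      obtain ⟨P, hP1, hP2⟩ := Finset.exists_subset_card_eq h1
      refine ⟨P, fun _ => ⟨hP2, fun y hy => (mem_sdiff.1 (hP1 hy)).1, ?_⟩⟩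
      rw [disjoint_left]
      intro y hy hy'
      exact (mem_sdiff.1 (hP1 hy)).2 hy'
    · exact ⟨∅, fun h1 => absurd h1 hn⟩
  choose P hP using hP
  have hng : ¬ WE G g g := fun hc => hc.1.ne rfl
  refine ⟨fun v => if v = g then {s, x} else if WE G g v then P v else φ v, ?_, ?_, ?_, ?_⟩
  · intro v
    by_cases e1 : v = g
    · simp only [if_pos e1]
      exact card_pair hsx
    · simp only [if_neg e1]
      by_cases e2 : WE G g v
      · simp only [if_pos e2]
        exact (hP v e2).1
      · simp only [if_neg e2]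
        exact hφ v
  · show (φ g ∩ (if g = g then {s, x} else if WE G g g then P g else φ g)).card = 1
    rw [if_pos rfl, Finset.card_eq_one]
    refine ⟨s, ?_⟩
    ext y
    rw [mem_inter, mem_insert, mem_singleton, mem_singleton]
    constructor
    · rintro ⟨h1, rfl | rfl⟩
      · rfl
      · exact absurd h1 hx
    · rintro rfl
      exact ⟨hs, Or.inl rfl⟩
  · -- `g` against its neighbours
    have hgv : ∀ v, v ∉ H → G.Adj g v →
        Disjoint ({s, x} : Finset (Fin 7)) (if WE G g v then P v else φ v) := by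
      intro v hv hadj
      by_cases e : WE G g v
      · rw [if_pos e]
        exact (hP v e).2.2.symm
      · rw [if_neg e]
        have h1 : TE G g v := (te_or_we hadj).resolve_right e
        have h2 : v ∈ U := mem_filter.2 ⟨mem_tn.2 h1, hv⟩
        rw [disjoint_left]
        intro y hy hyv
        rw [mem_insert, mem_singleton] at hy
        rcases hy with rfl | rfl
        · exact disjoint_left.1 (hprop' g v hgH hv hadj) hs hyv
        · exact hxU (mem_biUnion.2 ⟨v, h2, hyv⟩)
    -- a weak neighbour against its other neighbours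
    have hnv : ∀ n v, WE G g n → v ≠ g → G.Adj n v →
        Disjoint (P n) (if WE G g v then P v else φ v) := by
      intro n v hn hvg hadj
      have e : ¬ WE G g v := fun e => hn.2 ⟨v, e.1, hadj⟩
      rw [if_neg e]
      exact disjoint_of_subset_left (hP n hn).2.1 ((hT n hn).2.2 v hadj hvg)
    intro u v hu hv huv
    by_cases e1 : u = g
    · subst e1
      have e2 : v ≠ u := huv.ne.symm
      simp only [if_true, if_neg e2]
      exact hgv v hv huv
    · by_cases e2 : v = g
      · subst e2
        simp only [if_true, if_neg e1]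
        exact (hgv u hu huv.symm).symm
      · simp only [if_neg e1, if_neg e2]
        by_cases e3 : WE G g u
        · rw [if_pos e3]
          exact hnv u v e3 e2 huv
        · by_cases e4 : WE G g v
          · rw [if_pos e4]
            have := hnv v u e4 e1 huv.symm
            exact this.symm
          · rw [if_neg e3, if_neg e4]
            exact hprop' u v hu hv huv
  · intro v hv
    have e1 : v ≠ g := fun e => hv (Or.inl e)
    have e2 : ¬ WE G g v := fun e => hv (Or.inr e)
    simp only [if_neg e1, if_neg e2]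

theorem Sm.deg {v : V} (hv : Sm G B v) : v ∉ B ∧ dg G v ≤ 4 := by
  have h1 : ¬ Big G B v := fun h => hv.1 (Or.inl h)
  unfold Big at h1
  push Not at h1
  refine ⟨h1.1, ?_⟩
  by_contra hc
  exact hv.2 (h1.2 (by omega))

open FlexAux in
theorem sm_flexC {R H : Set V} (hRH : ∀ v ∈ R, v ∈ H) {g : V}
    (hgB : g ∉ B) (hdeg : dg G g ≤ 4) (hgH : g ∉ H)
    (htri : ∃ a b, a ∈ H ∧ b ∈ H ∧ G.Adj g a ∧ G.Adj g b ∧ a ≠ b) :
    FlexC G B R H {v | v = g} g := by
  classical
  refine ⟨rfl, ?_, ?_, ?_⟩
  · rintro v rfl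
    exact hgB
  · rintro v rfl hvg w hw hwv
    exact hvg rfl
  intro φ hφ hprop
  obtain ⟨a, b, haH, hbH, hga, hgb, hab⟩ := htri
  set U := (nb G univ g) \ {a, b} with hU
  have hUc : U.card ≤ 2 := by
    have h1 : ({a, b} : Finset V) ⊆ nb G univ g := by
      intro x hx
      rw [mem_insert, mem_singleton] at hx
      rcases hx with rfl | rfl
      · exact mem_nb.2 ⟨mem_univ _, hga⟩
      · exact mem_nb.2 ⟨mem_univ _, hgb⟩
    rw [hU, card_sdiff_of_subset h1, card_pair hab]
    unfold dg at hdeg
    omega
  have h3 : (φ g ∪ U.biUnion φ).card ≤ 6 := by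
    have h4 := Finset.card_union_le (φ g) (U.biUnion φ)
    have h5 := CfgDAux.union_card hφ U
    rw [hφ g] at h4
    omega
  obtain ⟨x, hx⟩ := miss h3
  rw [mem_union, not_or] at hx
  obtain ⟨s, s', hss, hgs⟩ := pick (hφ g)
  have hs : s ∈ φ g := by rw [hgs]; simp
  have hsx : s ≠ x := by
    rintro rfl
    exact hx.1 hs
  have hprop' : ∀ u v, u ∉ H → v ∉ H → G.Adj u v → Disjoint (φ u) (φ v) := fun u v hu hv =>
    hprop u v (fun hr => hu (hRH u hr)) (fun hr => hv (hRH v hr))
  refine ⟨fun v => if v = g then {s, x} else φ v, ?_, ?_, ?_, ?_⟩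
  · intro v
    by_cases e1 : v = g
    · simp only [if_pos e1]
      exact card_pair hsx
    · simp only [if_neg e1]
      exact hφ v
  · show (φ g ∩ (if g = g then {s, x} else φ g)).card = 1
    rw [if_pos rfl, Finset.card_eq_one]
    refine ⟨s, ?_⟩
    ext y
    rw [mem_inter, mem_insert, mem_singleton, mem_singleton]
    constructor
    · rintro ⟨h1, rfl | rfl⟩
      · rfl
      · exact absurd h1 hx.1
    · rintro rfl
      exact ⟨hs, Or.inl rfl⟩
  · have hgv : ∀ v, v ∉ H → G.Adj g v → Disjoint ({s, x} : Finset (Fin 7)) (φ v) := by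
      intro v hv hadj
      have h2 : v ∈ U := by
        rw [hU, mem_sdiff, mem_nb, mem_insert, mem_singleton]
        refine ⟨⟨mem_univ _, hadj⟩, ?_⟩
        rintro (rfl | rfl)
        · exact hv haH
        · exact hv hbH
      rw [disjoint_left]
      intro y hy hyv
      rw [mem_insert, mem_singleton] at hy
      rcases hy with rfl | rfl
      · exact disjoint_left.1 (hprop' g v hgH hv hadj) hs hyv
      · exact hx.2 (mem_biUnion.2 ⟨v, h2, hyv⟩)
    intro u v hu hv huv
    by_cases e1 : u = g
    · subst e1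
      have e2 : v ≠ u := huv.ne.symm
      simp only [if_true, if_neg e2]
      exact hgv v hv huv
    · by_cases e2 : v = g
      · subst e2
        simp only [if_true, if_neg e1]
        exact (hgv u hu huv.symm).symm
      · simp only [if_neg e1, if_neg e2]
        exact hprop' u v hu hv huv
  · intro v hv
    have e1 : v ≠ g := hv
    simp only [if_neg e1]

/-- the changed vertices -/
def chg (G : SimpleGraph V) (B : Finset V) (g : V) : Set V :=
  {v | v = g ∨ (Exc G B g ∧ WE G g v)}

theorem np_flexC (h : MinCE G B) {R H : Set V} (hRH : ∀ v ∈ R, v ∈ H) {g : V}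
    (hg : ¬ Np G B g) (hgH : g ∉ H)
    (htri : ∃ a b, a ∈ H ∧ b ∈ H ∧ G.Adj g a ∧ G.Adj g b ∧ G.Adj a b)
    (hsep : ∀ n, WE G g n → n ∉ H ∧ ∀ w ∈ H, ¬ G.Adj w n) : FlexC G B R H (chg G B g) g := by
  by_cases hx : Exc G B g
  · have h1 : chg G B g = {v | v = g ∨ WE G g v} := by
      ext v
      unfold chg
      simp only [Set.mem_ofPred_eq]
      tauto
    rw [h1]
    exact exc_flexC h hRH hx hgH htri hsep
  · have h1 : chg G B g = {v | v = g} := by
      ext v
      unfold chg
      simp only [Set.mem_ofPred_eq]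
      tauto
    rw [h1]
    have h2 : Sm G B g := ⟨hg, hx⟩
    obtain ⟨a, b, haH, hbH, hga, hgb, hab⟩ := htri
    exact sm_flexC hRH h2.deg.1 h2.deg.2 hgH ⟨a, b, haH, hbH, hga, hgb, hab.ne⟩

end Pool.Agent.Lib.SVY
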