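import Pool.Agent.Lib.SVU.Four

/-!
# SVY.Four: planar graphs without 4-, 5-cycles are 4-colourable (3-degenerate)

Plan.  As SVU/Four.lean, SVU/Count6.lean (`exists_fam`) and `SVT.charge_neg` (SVT/Count.lean), but
simpler.  For nonempty `W` take `𝓕` from `ML.min_family` for `edg G W` (`ML.mono`).  Every member is a
nonempty minimal even set (a circuit) of edges of `G`: it has 3 elements and is a triangle
(`edg G T`, `T ∈ tris G W`), or at least 6 elements (no 4- or 5-cycle; see the circuit lemmas of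
SVT/Circ.lean, SVT/Cyc.lean, SVU/Cyc6.lean).  Members with 3 elements: at most `(tris G W).card`.  So
`6 |𝓕| ≤ ∑ |F| + 3 |tris| ≤ 2 |S| + 3 |tris|` (`S = edg G W`, every edge at most twice:
`sum_card_le`), and `|S| + 1 ≤ |W| + |𝓕|` (`card_le_family`), hence
`4 |S| - 3 |tris| - 6 |W| ≤ -6`.  `∑_v |nb v| = 2 |S|` (`sum_nb`), `∑_v |tr v| = 3 |tris|`
(`sum_tr`): some `v ∈ W` has `2 |nb v| - |tr v| - 6 < 0`, and `2 |tr v| ≤ |nb v|` (`fr_card`), so
`|nb v| ≤ 3`.  Induction as in SVU/Four.lean.
-/

set_option autoImplicit false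
set_option linter.unusedSectionVars false

namespace Pool.Agent.Lib.SVY

open Finset Pool.Agent.Lib.SVT

variable {V : Type*} [Fintype V] [DecidableEq V] {G : SimpleGraph V}

namespace FourAux

theorem circuit45 {W : Finset V} (h4 : NoC4 G) (h5 : NoC5 G) {F : Finset (Sym2 V)}
    (hF : F ⊆ edg G W) (he : Ev F) (hne : F.Nonempty)
    (hmin : ∀ F', F' ⊆ F → Ev F' → F'.Nonempty → F' = F) :
    6 ≤ F.card ∨ ∃ T ∈ tris G W, F = edg G T := by
  classical
  have hl : ∀ e ∈ F, ¬ e.IsDiag := fun e h => G.not_isDiag_of_mem_edgeSet (mem_edg.1 (hF h)).1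
  obtain ⟨v, c, hcyc⟩ := CircAux.exists_cycle hl he hne
  have hsub : c.edges.toFinset ⊆ F := by
    intro e h
    have h1 := c.edges_subset_edgeSet (List.mem_toFinset.1 h)
    rw [SimpleGraph.edgeSet_fromEdgeSet] at h1
    exact_mod_cast h1.1
  have hnd := hcyc.isTrail.edges_nodup
  have hev : Ev c.edges.toFinset := by
    intro x
    have h1 := (hcyc.isTrail.even_countP_edges_iff x).2 (fun h => absurd rfl h)
    have h2 : (c.edges.toFinset.filter (fun e => x ∈ e)).card =
        c.edges.countP (fun e => x ∈ e) := by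
      have h3 : c.edges.toFinset.filter (fun e => x ∈ e) =
          (c.edges.filter (fun e => decide (x ∈ e))).toFinset := by
        ext e
        simp
      rw [h3, List.toFinset_card_of_nodup (hnd.filter _), List.countP_eq_length_filter]
    rw [h2]
    exact h1
  have h3 := hcyc.three_le_length
  have hne' : c.edges.toFinset.Nonempty := by
    rw [← card_pos, List.toFinset_card_of_nodup hnd, SimpleGraph.Walk.length_edges]
    omega
  have hFc := hmin _ hsub hev hne'
  have hcard : F.card = c.length := by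
    have := congrArg Finset.card hFc
    rw [List.toFinset_card_of_nodup hnd, SimpleGraph.Walk.length_edges] at this
    exact this.symm
  rcases Nat.lt_or_ge F.card 6 with h7 | h7
  swap
  · exact Or.inl h7
  have hadj : ∀ x y, s(x, y) ∈ c.edges → G.Adj x y := fun x y h =>
    (mem_edg'.1 (hF (hsub (List.mem_toFinset.2 h)))).1
  by_cases hlen4 : c.length = 4
  · exfalso
    match c, hlen4 with
    | .cons (v := b) hvb (.cons (v := d) hbd (.cons (v := f) hdf (.cons hfv .nil))), _ =>
      simp only [SimpleGraph.Walk.edges_cons, SimpleGraph.Walk.edges_nil] at hnd hadj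
      have k1 : v ≠ d := by
        rintro rfl
        rw [Sym2.eq_swap] at hnd
        simp at hnd
      have k2 : b ≠ f := by
        rintro rfl
        rw [List.nodup_cons, List.nodup_cons] at hnd
        exact hnd.2.1 (by rw [Sym2.eq_swap]; simp)
      exact h4 v b d f k1 k2 (hadj _ _ (by simp)) (hadj _ _ (by simp)) (hadj _ _ (by simp))
        (hadj _ _ (by simp))
  by_cases hlen5 : c.length = 5
  · exfalso
    match c, hlen5 with
    | .cons (v := b) hvb (.cons (v := d) hbd (.cons (v := f) hdf (.cons (v := g) hfg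
        (.cons hgv .nil)))), _ =>
      simp only [SimpleGraph.Walk.edges_cons, SimpleGraph.Walk.edges_nil] at hnd hadj
      have k1 : v ≠ d := by
        rintro rfl
        rw [Sym2.eq_swap] at hnd
        simp at hnd
      have k2 : v ≠ f := by
        rintro rfl
        rw [List.nodup_cons, List.nodup_cons, List.nodup_cons, List.nodup_cons] at hnd
        exact hnd.2.2.2.1 (by rw [Sym2.eq_swap]; simp)
      have k3 : b ≠ f := by
        rintro rfl
        rw [List.nodup_cons, List.nodup_cons] at hnd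
        exact hnd.2.1 (by rw [Sym2.eq_swap]; simp)
      have k4 : b ≠ g := by
        rintro rfl
        rw [List.nodup_cons] at hnd
        exact hnd.1 (by rw [Sym2.eq_swap]; simp)
      have k5 : d ≠ g := by
        rintro rfl
        rw [List.nodup_cons, List.nodup_cons, List.nodup_cons] at hnd
        exact hnd.2.2.1 (by rw [Sym2.eq_swap]; simp)
      exact h5 v b d f g k1 k2 k3 k4 k5 (hadj _ _ (by simp)) (hadj _ _ (by simp))
        (hadj _ _ (by simp)) (hadj _ _ (by simp)) (hadj _ _ (by simp))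
  right
  have hlen : c.length = 3 := by omega
  match c, hlen with
  | .cons (v := b) hvb (.cons (v := d) hbd (.cons hdv .nil)), _ =>
    simp only [SimpleGraph.Walk.edges_cons, SimpleGraph.Walk.edges_nil, List.toFinset_cons,
      List.toFinset_nil] at hFc
    have hF' : F = {s(v, b), s(b, d), s(d, v)} := hFc.symm
    have e1 := mem_edg'.1 (hF (by rw [hF']; simp : s(v, b) ∈ F))
    have e2 := mem_edg'.1 (hF (by rw [hF']; simp : s(b, d) ∈ F))
    have e3 := mem_edg'.1 (hF (by rw [hF']; simp : s(d, v) ∈ F))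
    refine ⟨{v, b, d}, ?_, ?_⟩
    · rw [mem_tris]
      refine ⟨?_, ?_, ?_⟩
      · intro x hx
        simp only [mem_insert, mem_singleton] at hx
        rcases hx with rfl | rfl | rfl
        · exact e1.2.1
        · exact e1.2.2
        · exact e2.2.2
      · rw [card_eq_three]
        exact ⟨v, b, d, e1.1.ne, e3.1.ne.symm, e2.1.ne, rfl⟩
      · intro x hx y hy hxy
        simp only [mem_insert, mem_singleton] at hx hy
        rcases hx with rfl | rfl | rfl <;> rcases hy with rfl | rfl | rfl
        · exact absurd rfl hxy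
        · exact e1.1
        · exact e3.1.symm
        · exact e1.1.symm
        · exact absurd rfl hxy
        · exact e2.1
        · exact e3.1
        · exact e2.1.symm
        · exact absurd rfl hxy
    · rw [CircAux.edg_three e1.1 e2.1 e3.1]
      exact hF'

theorem charge_neg (hML : ML (edg G univ)) (h4 : NoC4 G) (h5 : NoC5 G) {W : Finset V}
    (hW : W.Nonempty) :
    ∑ v ∈ W, (2 * ((nb G W v).card : ℤ) - ((tr G W v).card : ℤ) - 6) < 0 := by
  classical
  have hsub : edg G W ⊆ edg G univ := by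
    intro e he
    rw [mem_edg] at he ⊢
    exact ⟨he.1, fun v _ => mem_univ v⟩
  obtain ⟨𝓕, h1, h2, h3⟩ := (hML.mono hsub).min_family
  have hS : ∀ a b, s(a, b) ∈ edg G W → a ≠ b ∧ a ∈ W ∧ b ∈ W := by
    intro a b h
    rw [mem_edg'] at h
    exact ⟨h.1.ne, h.2⟩
  have k4 := card_le_family hW hS (fun F hF => (h1 F hF).1) h3
  have k5 := sum_card_le (fun F hF => (h1 F hF).1) h2
  have h6 : ∀ F ∈ 𝓕, 6 ≤ F.card + if F ∈ (tris G W).image (edg G) then 3 else 0 := by
    intro F hF
    obtain ⟨c1, c2, c3, c4⟩ := h1 F hF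
    rcases circuit45 h4 h5 c1 c2 c3 c4 with h | ⟨T, hT, rfl⟩
    · omega
    · rw [if_pos (mem_image_of_mem _ hT), card_edg_tri hT]
  have h7 := Finset.sum_le_sum h6
  rw [Finset.sum_const, smul_eq_mul, Finset.sum_add_distrib, ← Finset.sum_filter,
    Finset.sum_const, smul_eq_mul] at h7
  have h8 : (𝓕.filter (fun F => F ∈ (tris G W).image (edg G))).card ≤ (tris G W).card := by
    refine (Finset.card_le_card ?_).trans (Finset.card_image_le (s := tris G W) (f := edg G))
    intro F hF
    exact (mem_filter.1 hF).2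
  have h9 : ∑ v ∈ W, (2 * ((nb G W v).card : ℤ) - ((tr G W v).card : ℤ) - 6) =
      2 * (2 * ((edg G W).card : ℤ)) - 3 * ((tris G W).card : ℤ) - 6 * (W.card : ℤ) := by
    have e1 : (∑ v ∈ W, ((nb G W v).card : ℤ)) = 2 * ((edg G W).card : ℤ) := by
      exact_mod_cast sum_nb G W
    have e2 : (∑ v ∈ W, ((tr G W v).card : ℤ)) = 3 * ((tris G W).card : ℤ) := by
      exact_mod_cast sum_tr G W
    rw [Finset.sum_sub_distrib, Finset.sum_sub_distrib, ← Finset.mul_sum, e1, e2,
      Finset.sum_const, nsmul_eq_mul]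
    ring
  rw [h9]
  omega

end FourAux

theorem low_deg (hML : ML (edg G univ)) (h4 : NoC4 G) (h5 : NoC5 G) {W : Finset V}
    (hW : W.Nonempty) : ∃ v ∈ W, (nb G W v).card ≤ 3 := by
  obtain ⟨v, hv, hneg⟩ : ∃ v ∈ W, 2 * ((nb G W v).card : ℤ) - ((tr G W v).card : ℤ) - 6 < 0 := by
    by_contra hcon
    push Not at hcon
    exact absurd (Finset.sum_nonneg hcon) (not_le.2 (FourAux.charge_neg hML h4 h5 hW))
  refine ⟨v, hv, ?_⟩
  have h2 := fr_card h4 hv
  omega

namespace FourAux

theorem col (hML : ML (edg G univ)) (h4 : NoC4 G) (h5 : NoC5 G) (k : ℕ) :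
    ∀ W : Finset V, W.card = k →
      ∃ ψ : V → Fin 4, ∀ u ∈ W, ∀ v ∈ W, G.Adj u v → ψ u ≠ ψ v := by
  classical
  induction k with
  | zero =>
    intro W hW
    refine ⟨fun _ => 0, fun u hu => ?_⟩
    rw [card_eq_zero] at hW
    rw [hW] at hu
    exact absurd hu (notMem_empty u)
  | succ k ih =>
    intro W hW
    obtain ⟨v, hv, hd⟩ := low_deg hML h4 h5 (W := W) (card_pos.1 (by omega))
    obtain ⟨ψ, hψ⟩ := ih (W.erase v) (by rw [card_erase_of_mem hv, hW]; rfl)
    obtain ⟨c, hcc⟩ : ∃ c : Fin 4, c ∉ (nb G W v).image ψ := by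
      by_contra hcon
      push Not at hcon
      have h1 : (univ : Finset (Fin 4)) ⊆ (nb G W v).image ψ := fun c _ => hcon c
      have h2 := card_le_card h1
      have h3 : ((nb G W v).image ψ).card ≤ (nb G W v).card := card_image_le
      rw [card_univ, Fintype.card_fin] at h2
      omega
    have key : ∀ u ∈ W, G.Adj v u → c ≠ ψ u := by
      rintro u hu huv rfl
      exact hcc (mem_image.2 ⟨u, mem_nb.2 ⟨hu, huv⟩, rfl⟩)
    refine ⟨fun x => if x = v then c else ψ x, fun a ha b hb hab => ?_⟩
    beta_reduce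
    by_cases ha' : a = v
    · have hb' : b ≠ v := by
        rintro rfl
        exact hab.ne ha'
      rw [if_pos ha', if_neg hb']
      rw [ha'] at hab
      exact key b hb hab
    · by_cases hb' : b = v
      · rw [if_neg ha', if_pos hb']
        rw [hb'] at hab
        exact (key a ha hab.symm).symm
      · rw [if_neg ha', if_neg hb']
        exact hψ a (mem_erase.2 ⟨ha', ha⟩) b (mem_erase.2 ⟨hb', hb⟩) hab

end FourAux

theorem four_col (hML : ML (edg G univ)) (h4 : NoC4 G) (h5 : NoC5 G) :
    ∃ ψ : V → Fin 4, ∀ u v, G.Adj u v → ψ u ≠ ψ v := by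
  obtain ⟨ψ, hψ⟩ := FourAux.col hML h4 h5 _ univ rfl
  exact ⟨ψ, fun u v h => hψ u (mem_univ u) v (mem_univ v) h⟩

end Pool.Agent.Lib.SVY
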