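import Pool.Agent.Lib.SVY.BalA
import Pool.Agent.Lib.SVY.BalP
import Pool.Agent.Lib.SVY.BalQ
import Pool.Agent.Lib.SVY.BalB
import Pool.Agent.Lib.SVY.FaceB

/-!
# SVY.Glob: the discharging

Plan.  `sum_bal` and `euler`: the sum of all balances is at most -48.  The vertices outside `B`:
`OneP` (`sum_pair`), `P1c` (`bal_q`), the others (`bal_small`, `bal_large`); the faces: `fb_nonneg`,
`fb_seven`; `b_sum`.
-/

set_option autoImplicit false
set_option linter.unusedSectionVars false

namespace Pool.Agent.Lib.SVY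

open Finset Pool.Agent.Lib.SVT Pool.Agent.Lib.SVX

variable {V : Type*} [Fintype V] [DecidableEq V] {G : SimpleGraph V} {B : Finset V}
variable {m : ℕ} {F : Fin m → Finset (Sym2 V)} {i : Fin m}

namespace GlobAux

/-- the vertices outside `B` -/
theorem outside_nonneg (h : MinCE G B) (hF : Faces G F) (hL : LF G B F) :
    0 ≤ ∑ v ∈ Bᶜ, bal G B F v := by
  classical
  rw [← Finset.sum_filter_add_sum_filter_not Bᶜ (fun v => OneP G B v)]
  have h1 : Bᶜ.filter (fun v => OneP G B v) = univ.filter (fun v => OneP G B v) := by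
    ext v
    simp only [mem_filter, mem_compl, mem_univ, true_and]
    exact ⟨fun hv => hv.2, fun hv => ⟨hv.1.1, hv⟩⟩
  have h2 : 0 ≤ ∑ v ∈ Bᶜ.filter (fun v => OneP G B v), bal G B F v := by
    rw [h1]
    have h3 := sum_pair h hF hL
    convert h3 using 2
  have h4 : 0 ≤ ∑ v ∈ Bᶜ.filter (fun v => ¬ OneP G B v), bal G B F v := by
    refine Finset.sum_nonneg fun v hv => ?_
    rw [mem_filter, mem_compl] at hv
    by_cases hq : P1c G B v
    · exact bal_q h hF hL hq
    · by_cases hd : dg G v ≤ 4
      · exact bal_small h hF hL hv.1 hd hv.2 hq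
      · exact bal_large h hF hL hv.1 (by omega)
  linarith

end GlobAux

open GlobAux

theorem no_minCE (h : MinCE G B) (hF : Faces G F) (hL : LF G B F) (hC : NoCode G B F) :
    False := by
  classical
  have hE := euler h hF
  have hS := sum_bal G B F
  have h1 : ∑ v, bal G B F v = ∑ v ∈ B, bal G B F v + ∑ v ∈ Bᶜ, bal G B F v :=
    (Finset.sum_add_sum_compl B _).symm
  have h2 := outside_nonneg h hF hL
  have h3 : 0 ≤ ∑ i, fb G B F i := Finset.sum_nonneg fun i _ => fb_nonneg h hF hL hC i
  rcases b_sum h hF with hb | ⟨hb, i₀, h7, hB⟩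
  · linarith
  · have h4 := fb_seven h hF hL h7 hB
    have h5 : fb G B F i₀ ≤ ∑ i, fb G B F i :=
      Finset.single_le_sum (f := fun i => fb G B F i) (fun i _ => fb_nonneg h hF hL hC i)
        (mem_univ i₀)
    linarith

end Pool.Agent.Lib.SVY
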