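import Pool.Agent.Lib.SVY.Spec
import Pool.Agent.Lib.SVY.Facts
import Pool.Agent.Lib.SVY.RingN

/-!
# SVY.LfA: auxiliary lemmas for the local facts
-/

set_option autoImplicit false
set_option linter.unusedSectionVars false

namespace Pool.Agent.Lib.SVY

open Finset Pool.Agent.Lib.SVT Pool.Agent.Lib.SVX

variable {V : Type*} [Fintype V] [DecidableEq V] {G : SimpleGraph V} {B : Finset V}
variable {m : ℕ} {F : Fin m → Finset (Sym2 V)}

/-! ### corners -/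

/-- `w` is not next to `x` at `y`: the edge `y x` lies in the triangle `y x v` and in the face `i`
with the other edge `y p` -/
theorem not_corner (h : MinCE G B) (hF : Faces G F) {i : Fin m} {x y v p w : V} (hi : Nt F i)
    (exy : G.Adj y x) (exv : G.Adj x v) (eyv : G.Adj y v) (h1 : s(y, x) ∈ F i)
    (h2 : s(y, p) ∈ F i) (hpx : p ≠ x) (w1 : w ≠ x) (w2 : w ≠ v) (w3 : w ≠ p) :
    ¬ Corner F y x w := by
  rintro ⟨j, k1, k2⟩
  by_cases hj : Nt F j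
  · have e1 : i = j := te_nt_unique h hF ⟨exy, v, eyv, exv⟩ hi hj h1 k1
    subst e1
    rcases face_two hF hpx.symm h1 h2 k2 with h3 | h3
    · exact w1 h3
    · exact w3 h3
  · have hj3 : (F j).card = 3 := by
      by_contra h3
      exact hj h3
    obtain ⟨v', -, h4, h5, h6⟩ := face_tri hF hj3 k1
    have h7 : v' = v := apex h exy h4 h5 eyv exv
    subst h7
    rw [h6] at k2
    rw [mem_insert, mem_insert, mem_singleton] at k2
    rcases k2 with h8 | h8 | h8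
    · rcases Sym2.eq_iff.1 h8 with ⟨-, h9⟩ | ⟨h9, h10⟩
      · exact w1 h9
      · exact exy.ne h9
    · rcases Sym2.eq_iff.1 h8 with ⟨h9, -⟩ | ⟨h9, -⟩
      · exact exy.ne h9
      · exact eyv.ne h9
    · rcases Sym2.eq_iff.1 h8 with ⟨h9, -⟩ | ⟨-, h10⟩
      · exact eyv.ne h9
      · exact w2 h10

/-- the same for an edge of two faces -/
theorem not_corner2 (hF : Faces G F) {i j : Fin m} {x y p q w : V} (hij : i ≠ j)
    (h1 : s(y, x) ∈ F i) (h2 : s(y, p) ∈ F i) (h3 : s(y, x) ∈ F j) (h4 : s(y, q) ∈ F j)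
    (hp : p ≠ x) (hq : q ≠ x) (w1 : w ≠ x) (w2 : w ≠ p) (w3 : w ≠ q) : ¬ Corner F y x w := by
  rintro ⟨k, k1, k2⟩
  obtain ⟨a, b, hab, hall⟩ := LinkAux.two_faces hF (hF.sub i _ h1)
  have hk : k = i ∨ k = j := by
    have a1 := (hall i).1 h1
    have a2 := (hall j).1 h3
    have a3 := (hall k).1 k1
    rcases a1 with a1 | a1 <;> rcases a2 with a2 | a2 <;> rcases a3 with a3 | a3 <;>
      first
      | exact absurd (a1.trans a2.symm) hij
      | exact Or.inl (a3.trans a1.symm)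
      | exact Or.inr (a3.trans a2.symm)
  rcases hk with rfl | rfl
  · rcases face_two hF hp.symm h1 h2 k2 with h5 | h5
    · exact w1 h5
    · exact w2 h5
  · rcases face_two hF hq.symm h3 h4 k2 with h5 | h5
    · exact w1 h5
    · exact w3 h5

theorem corner_symm {v a b : V} (h : Corner F v a b) : Corner F v b a := by
  obtain ⟨i, h1, h2⟩ := h
  exact ⟨i, h2, h1⟩

/-! ### degrees -/

theorem Inn.mono {k l : ℕ} {v : V} (hv : Inn G B k v) (hkl : k ≤ l) : Inn G B l v :=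
  ⟨hv.1, hv.2.trans hkl⟩

theorem One.inn {v : V} (hv : One G B v) : Inn G B 3 v := ⟨hv.1, hv.2.1.le⟩

theorem OneP.inn {v : V} (hv : OneP G B v) : Inn G B 3 v := hv.1.inn

theorem Dm.inn {v : V} (hv : Dm G B v) : Inn G B 3 v := by
  rcases hv with h1 | h1
  · exact h1.inn
  · exact ⟨h1.1.1, h1.1.2.1.le⟩

theorem FF.inn {v : V} (hv : FF G B v) : Inn G B 4 v := ⟨hv.1, hv.2.1.le⟩

theorem F12.inn {v : V} (hv : F12 G B v) : Inn G B 4 v := ⟨hv.1, hv.2.1.le⟩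

theorem P1c.inn {v : V} (hv : P1c G B v) : Inn G B 4 v := hv.1.inn

theorem Npay.inn {v : V} (hv : Npay G B v) : Inn G B 4 v := hv.1.inn

theorem Ex2.inn {v : V} (hv : Ex2 G B v) : Inn G B 5 v := ⟨hv.1, hv.2.1.le⟩

theorem ExK.inn {v : V} (hv : ExK G B v) : Inn G B 5 v := ⟨hv.1, hv.2.1.le⟩

/-- a small vertex on a triangle edge has degree at most 4 -/
theorem Sm.inn (h : MinCE G B) {v a : V} (hv : Sm G B v) (ha : TE G v a) : Inn G B 4 v := by
  rcases sm_te h hv ha with h1 | h1 | h1 | h1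
  · exact h1.inn
  · exact h1.inn
  · exact h1.inn
  · exact h1.inn.mono (by omega)

/-! ### neighbours -/

theorem tt_pos (h : MinCE G B) {v a : V} (ha : TE G v a) : 0 < tt G v := by
  have h1 := card_tn h v
  have h2 : 0 < (tn G v).card := card_pos.2 ⟨a, mem_tn.2 ha⟩
  omega

/-- the other triangle at a vertex with two triangles -/
theorem other_tri (h : MinCE G B) {v a b : V} (ht : tt G v = 2) (e1 : G.Adj v a) (e2 : G.Adj v b)
    (e3 : G.Adj a b) : ∃ c d, c ≠ d ∧ G.Adj v c ∧ G.Adj v d ∧ G.Adj c d ∧ a ≠ c ∧ a ≠ d ∧ b ≠ c ∧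
      b ≠ d ∧ ¬ G.Adj a c ∧ ¬ G.Adj a d ∧ ¬ G.Adj b c ∧ ¬ G.Adj b d ∧
      ∀ x, TE G v x → x = a ∨ x = b ∨ x = c ∨ x = d := by
  obtain ⟨p, q, r, s, n1, n2, n3, n4, n5, n6, q1, q2, q3, q4, q5, q6, m1, m2, m3, m4, hall⟩ :=
    two_tri h ht
  have ta : TE G v a := ⟨e1, b, e2, e3⟩
  have tb : TE G v b := ⟨e2, a, e1, e3.symm⟩
  rcases hall a ta with rfl | rfl | rfl | rfl <;> rcases hall b tb with rfl | rfl | rfl | rfl
  · exact absurd rfl e3.ne
  · exact ⟨r, s, n2, q4, q5, q6, n3, n4, n5, n6, m1, m2, m3, m4, hall⟩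
  · exact absurd e3 m1
  · exact absurd e3 m2
  · exact ⟨r, s, n2, q4, q5, q6, n5, n6, n3, n4, m3, m4, m1, m2, fun x hx => by
      rcases hall x hx with h1 | h1 | h1 | h1 <;> tauto⟩
  · exact absurd rfl e3.ne
  · exact absurd e3 m3
  · exact absurd e3 m4
  · exact absurd e3.symm m1
  · exact absurd e3.symm m3
  · exact absurd rfl e3.ne
  · exact ⟨p, q, n1, q1, q2, q3, n3.symm, n5.symm, n4.symm, n6.symm, fun h1 => m1 h1.symm,
      fun h1 => m3 h1.symm, fun h1 => m2 h1.symm, fun h1 => m4 h1.symm, fun x hx => by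
      rcases hall x hx with h1 | h1 | h1 | h1 <;> tauto⟩
  · exact absurd e3.symm m2
  · exact absurd e3.symm m4
  · exact ⟨p, q, n1, q1, q2, q3, n4.symm, n6.symm, n3.symm, n5.symm, fun h1 => m2 h1.symm,
      fun h1 => m4 h1.symm, fun h1 => m1 h1.symm, fun h1 => m3 h1.symm, fun x hx => by
      rcases hall x hx with h1 | h1 | h1 | h1 <;> tauto⟩
  · exact absurd rfl e3.ne

/-- the other triangle at an `FF` vertex -/
theorem FF.other (h : MinCE G B) {v a b : V} (hv : FF G B v) (e1 : G.Adj v a) (e2 : G.Adj v b)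
    (e3 : G.Adj a b) : ∃ c d, c ≠ d ∧ G.Adj v c ∧ G.Adj v d ∧ G.Adj c d ∧ a ≠ c ∧ a ≠ d ∧ b ≠ c ∧
      b ≠ d ∧ ¬ G.Adj a c ∧ ¬ G.Adj a d ∧ ¬ G.Adj b c ∧ ¬ G.Adj b d ∧
      ∀ x, G.Adj v x → x = a ∨ x = b ∨ x = c ∨ x = d := by
  obtain ⟨c, d, n0, q1, q2, q3, n1, n2, n3, n4, m1, m2, m3, m4, hall⟩ :=
    other_tri h hv.2.2 e1 e2 e3
  refine ⟨c, d, n0, q1, q2, q3, n1, n2, n3, n4, m1, m2, m3, m4, fun x hx => ?_⟩
  rcases te_or_we hx with h1 | h1
  · exact hall x h1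
  · exact absurd h1 (FF.no_weak h hv)

theorem FF.te (h : MinCE G B) {v a : V} (hv : FF G B v) (ha : G.Adj v a) : TE G v a := by
  rcases te_or_we ha with h1 | h1
  · exact h1
  · exact absurd h1 (FF.no_weak h hv)

/-- the weak neighbour of an `Ex2` vertex -/
theorem Ex2.weak (h : MinCE G B) {v : V} (hv : Ex2 G B v) : ∃ a, WE G v a ∧ Dm G B a := by
  obtain ⟨-, hd, ht, hw⟩ := hv
  have h1 := card_wn h v
  obtain ⟨a, h2⟩ := card_eq_one.1 (show (wn G v).card = 1 by omega)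
  have ha : WE G v a := mem_wn.1 (by rw [h2]; simp)
  exact ⟨a, ha, hw a ha⟩

/-! ### a face at an `FF` vertex -/

/-- the face has the edges `A y`, `A u`; triangles `A y w`, `A u l` -/
structure FDt (G : SimpleGraph V) {m : ℕ} (F : Fin m → Finset (Sym2 V)) (A y u w l : V) : Prop where
  ay : G.Adj A y
  au : G.Adj A u
  aw : G.Adj A w
  al : G.Adj A l
  yw : G.Adj y w
  ul : G.Adj u l
  yu : y ≠ u
  yl : y ≠ l
  wu : w ≠ u
  wl : w ≠ l
  nyu : ¬ G.Adj y u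
  nyl : ¬ G.Adj y l
  nwu : ¬ G.Adj w u
  nwl : ¬ G.Adj w l
  hw : apx G A y = w
  hw' : apx G y A = w
  hl : apx G A u = l
  hl' : apx G u A = l
  c1 : ¬ Corner F A y l
  c2 : ¬ Corner F A u w
  c3 : ¬ Corner F A l y
  c4 : ¬ Corner F A w u

theorem FF.fd (h : MinCE G B) (hF : Faces G F) {i : Fin m} {A y u : V} (hA : FF G B A)
    (hi : Nt F i) (h1 : s(A, y) ∈ F i) (h2 : s(A, u) ∈ F i) (hyu : y ≠ u) :
    ∃ w l, FDt G F A y u w l := by
  have ay : G.Adj A y := (SimpleGraph.mem_edgeSet G).1 (hF.sub i _ h1)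
  have au : G.Adj A u := (SimpleGraph.mem_edgeSet G).1 (hF.sub i _ h2)
  have nyu : ¬ G.Adj y u := nt_short h hF hi (by rw [hA.2.1]; norm_num) hyu h1 h2
  obtain ⟨-, w, aw, yw⟩ := FF.te h hA ay
  obtain ⟨c, d, n0, q1, q2, q3, n1, n2, n3, n4, m1, m2, m3, m4, hall⟩ := FF.other h hA ay aw yw
  have key : ∃ l, G.Adj A l ∧ G.Adj u l ∧ y ≠ l ∧ w ≠ u ∧ w ≠ l ∧ ¬ G.Adj y l ∧ ¬ G.Adj w u ∧
      ¬ G.Adj w l := by
    rcases hall u au with rfl | rfl | rfl | rfl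
    · exact absurd rfl hyu
    · exact absurd yw nyu
    · exact ⟨d, q2, q3, n2, n3, n4, m2, m3, m4⟩
    · exact ⟨c, q1, q3.symm, n1, n4, n3, m1, m4, m3⟩
  obtain ⟨l, al, ul, yl, wu, wl, nyl, nwu, nwl⟩ := key
  have c1 : ¬ Corner F A y l := not_corner h hF hi ay yw aw h1 h2 hyu.symm yl.symm wl.symm
    ul.ne.symm
  have c2 : ¬ Corner F A u w := not_corner h hF hi au ul al h2 h1 hyu wu wl yw.ne.symm
  exact ⟨w, l, ay, au, aw, al, yw, ul, hyu, yl, wu, wl, nyu, nyl, nwu, nwl, apx_eq h ay aw yw,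
    apx_eq h ay.symm yw aw, apx_eq h au al ul, apx_eq h au.symm ul al, c1, c2,
    fun hc => c1 (corner_symm hc), fun hc => c2 (corner_symm hc)⟩

/-- the three weak neighbours of an `ExK` vertex -/
theorem ExK.weak (h : MinCE G B) {v : V} (hv : ExK G B v) : ∃ a b c, a ≠ b ∧ a ≠ c ∧ b ≠ c ∧
    WE G v a ∧ WE G v b ∧ WE G v c ∧ Dm G B a ∧ Dm G B b ∧ Dm G B c ∧
    ∀ d, WE G v d → d = a ∨ d = b ∨ d = c := by
  obtain ⟨-, hd, ht, hw⟩ := hv
  have h1 := card_wn h v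
  obtain ⟨a, b, c, n1, n2, n3, h2⟩ := card_eq_three.1 (show (wn G v).card = 3 by omega)
  have ha : WE G v a := mem_wn.1 (by rw [h2]; simp)
  have hb : WE G v b := mem_wn.1 (by rw [h2]; simp)
  have hc : WE G v c := mem_wn.1 (by rw [h2]; simp)
  refine ⟨a, b, c, n1, n2, n3, ha, hb, hc, hw a ha, hw b hb, hw c hc, fun d hd => ?_⟩
  have h3 := mem_wn.2 hd
  rw [h2] at h3
  simpa using h3

/-- the weak neighbours of a `P1c` vertex, the first one is next to `a` -/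
theorem P1c.faces (h : MinCE G B) (hF : Faces G F) {v a b : V} (hv : P1c G B v)
    (e1 : G.Adj v a) (e2 : G.Adj v b) (e3 : G.Adj a b) : ∃ x y, x ≠ y ∧ WE G v x ∧ WE G v y ∧
      One G B x ∧ One G B y ∧ ¬ Corner F v a y ∧ ¬ Corner F v b x := by
  obtain ⟨x, y, hxy, w1, w2, -, ⟨j, j1, j2⟩, ⟨k, k1, k2⟩, -⟩ := F12.faces h hF hv.1 e1 e2 e3
  have ta : TE G v a := ⟨e1, b, e2, e3⟩
  have tb : TE G v b := ⟨e2, a, e1, e3.symm⟩
  have x1 : x ≠ a := fun e => ta.not_we (e ▸ w1)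
  have x2 : x ≠ b := fun e => tb.not_we (e ▸ w1)
  have y1 : y ≠ a := fun e => ta.not_we (e ▸ w2)
  have y2 : y ≠ b := fun e => tb.not_we (e ▸ w2)
  refine ⟨x, y, hxy, w1, w2, hv.2 x w1, hv.2 y w2, ?_, ?_⟩
  · exact not_corner h hF (we_nt h hF w1 j2) e1 e3 e2 j1 j2 x1 y1 y2 hxy.symm
  · exact not_corner h hF (we_nt h hF w2 k2) e2 e3.symm e1 k1 k2 y2 x2 x1 hxy

/-- a `OneP` vertex and its weak neighbour -/
theorem OneP.nb {v : V} (hv : OneP G B v) : ∃ z, WE G v z ∧ One G B z := hv.2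

end Pool.Agent.Lib.SVY
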