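import Pool.Agent.Lib.SVY.Defs

/-!
# SVY.Loc: occurrences of small configurations

`W`: the edges of the configuration known to be weak (in no triangle), `D`: pairs of names assumed to
be distinct.  `lchk`: all other distinctness and nonadjacency statements of an occurrence follow
because there is no cycle of length 4 or 5.
-/

set_option autoImplicit false
set_option linter.unusedSectionVars false

namespace Pool.Agent.Lib.SVY

open Finset Pool.Agent.Lib.SVT Pool.Agent.Lib.SVX

namespace Loc

/-- symmetric membership -/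
def mem2 (s : List (ℕ × ℕ)) (i j : ℕ) : Bool := s.contains (i, j) || s.contains (j, i)

/-- `i`, `j` are distinct names of distinct vertices: an edge, or the equality gives a triangle over a
weak edge or a cycle of length 4 or 5; `s`: known distinct pairs -/
def ruleD (c : Cfg) (W s : List (ℕ × ℕ)) (i j : ℕ) : Bool :=
  c.adjE i j ||
  (List.range c.N).any (fun a => c.adjE i a && (List.range c.N).any (fun b => c.adjE a b &&
    ((c.adjE b j && (mem2 W i a || mem2 W a b || mem2 W b j)) ||
      (mem2 s i b && (List.range c.N).any (fun d => c.adjE b d && mem2 s a d &&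
        (c.adjE d j || (mem2 s i d && (List.range c.N).any (fun e => c.adjE d e && c.adjE e j &&
          mem2 s a e && mem2 s b e))))))))

/-- the adjacency of `i`, `j` gives a triangle over a weak edge or a cycle of length 4 or 5 -/
def ruleN (c : Cfg) (W s : List (ℕ × ℕ)) (i j : ℕ) : Bool :=
  (List.range c.N).any (fun a => c.adjE i a && ((c.adjE a j && (mem2 W i a || mem2 W a j)) ||
    (mem2 s a j && (List.range c.N).any (fun b => c.adjE a b && mem2 s i b &&
      (c.adjE b j || (mem2 s b j && (List.range c.N).any (fun d => c.adjE b d && c.adjE d j &&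
        mem2 s i d && mem2 s a d)))))))

/-- one round -/
def step (c : Cfg) (W s : List (ℕ × ℕ)) : List (ℕ × ℕ) :=
  s ++ ((List.range c.N).flatMap (fun i => ((List.range i).map (fun j => (j, i))))).filter
    (fun p => !(mem2 s p.1 p.2) && ruleD c W s p.1 p.2)

/-- all the distinct pairs found in `k` rounds -/
def iter (c : Cfg) (W : List (ℕ × ℕ)) : ℕ → List (ℕ × ℕ) → List (ℕ × ℕ)
  | 0, s => s
  | k + 1, s => iter c W k (step c W s)

/-- nonadjacent pairs: assumed (`X`) or derived -/
def nadj (c : Cfg) (W X s : List (ℕ × ℕ)) (i j : ℕ) : Bool :=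
  mem2 X i j || ruleN c W s i j || ruleN c W s j i

/-- the check; `X`: pairs assumed to be nonadjacent -/
def lchk (c : Cfg) (W D X : List (ℕ × ℕ)) (k : ℕ) : Bool :=
  ((List.range c.N).all (fun i => (List.range i).all (fun j => mem2 (iter c W k D) j i))) &&
  ((List.range c.N).all (fun i => (List.range c.N).all (fun j =>
    !(c.inH i && c.inH j) || decide (i = j) || c.adjE i j || nadj c W X (iter c W k D) i j)))

variable {V : Type*} [Fintype V] [DecidableEq V] {G : SimpleGraph V} {B : Finset V}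

theorem adjE_symm {c : Cfg} {i j : ℕ} (h : c.adjE i j = true) : c.adjE j i = true := by
  unfold Cfg.adjE at h ⊢
  simp only [Bool.or_eq_true] at h ⊢
  tauto

/-- meaning of a list of distinct pairs -/
def DS (nm : ℕ → V) (s : List (ℕ × ℕ)) : Prop := ∀ p ∈ s, nm p.1 ≠ nm p.2

theorem DS.ne {nm : ℕ → V} {s : List (ℕ × ℕ)} (h : DS nm s) {i j : ℕ} (hij : mem2 s i j = true) :
    nm i ≠ nm j := by
  unfold mem2 at hij
  rw [Bool.or_eq_true, List.contains_iff_mem, List.contains_iff_mem] at hij
  rcases hij with h1 | h1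
  · exact h _ h1
  · exact (h _ h1).symm

/-- the known facts -/
structure Facts (c : Cfg) (W : List (ℕ × ℕ)) (G : SimpleGraph V) (nm : ℕ → V) : Prop where
  c4 : NoC4 G
  c5 : NoC5 G
  edge : ∀ i j, i < c.N → j < c.N → c.adjE i j = true → G.Adj (nm i) (nm j)
  weak : ∀ p ∈ W, WE G (nm p.1) (nm p.2)

theorem Facts.we {c : Cfg} {W : List (ℕ × ℕ)} {nm : ℕ → V} (h : Facts c W G nm) {i j : ℕ}
    (hij : mem2 W i j = true) : WE G (nm i) (nm j) := by
  unfold mem2 at hij
  rw [Bool.or_eq_true, List.contains_iff_mem, List.contains_iff_mem] at hij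
  rcases hij with h1 | h1
  · exact h.weak _ h1
  · exact (h.weak _ h1).symm

theorem ruleD_ne {c : Cfg} {W s : List (ℕ × ℕ)} {nm : ℕ → V} (h : Facts c W G nm) (hs : DS nm s)
    {i j : ℕ} (hi : i < c.N) (hj : j < c.N) (hr : ruleD c W s i j = true) : nm i ≠ nm j := by
  intro he
  unfold ruleD at hr
  simp only [Bool.or_eq_true, List.any_eq_true, Bool.and_eq_true, List.mem_range] at hr
  rcases hr with h1 | ⟨a, ha, hia, b, hb, hab, h1⟩
  · exact (h.edge i j hi hj h1).ne he
  · have e1 := h.edge i a hi ha hia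
    have e2 := h.edge a b ha hb hab
    rcases h1 with ⟨hbj, h1⟩ | ⟨hib, d, hd, ⟨hbd, had⟩, h1⟩
    · have e3 := h.edge b j hb hj hbj
      rw [← he] at e3
      rcases h1 with (h2 | h2) | h2
      · exact (h.we h2).2 ⟨nm b, e3.symm, e2⟩
      · exact (h.we h2).2 ⟨nm i, e1.symm, e3⟩
      · have h3 := h.we h2
        rw [← he] at h3
        exact h3.2 ⟨nm a, e2.symm, e1⟩
    · have e3 := h.edge b d hb hd hbd
      have n1 := hs.ne hib
      have n2 := hs.ne had
      rcases h1 with h1 | ⟨hid, e, he', ⟨⟨hde, hej⟩, hae⟩, hbe⟩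
      · have e4 := h.edge d j hd hj h1
        rw [← he] at e4
        exact h.c4 _ _ _ _ n1 n2 e1 e2 e3 e4
      · have e4 := h.edge d e hd he' hde
        have e5 := h.edge e j he' hj hej
        rw [← he] at e5
        exact h.c5 _ _ _ _ _ n1 (hs.ne hid) n2 (hs.ne hae) (hs.ne hbe) e1 e2 e3 e4 e5

theorem ruleN_na {c : Cfg} {W s : List (ℕ × ℕ)} {nm : ℕ → V} (h : Facts c W G nm) (hs : DS nm s)
    {i j : ℕ} (hi : i < c.N) (hj : j < c.N) (hr : ruleN c W s i j = true) :
    ¬ G.Adj (nm i) (nm j) := by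
  intro he
  unfold ruleN at hr
  simp only [Bool.or_eq_true, List.any_eq_true, Bool.and_eq_true, List.mem_range] at hr
  obtain ⟨a, ha, hia, h1⟩ := hr
  have e1 := h.edge i a hi ha hia
  rcases h1 with ⟨haj, h1⟩ | ⟨haj, b, hb, ⟨hab, hib⟩, h1⟩
  · have e2 := h.edge a j ha hj haj
    rcases h1 with h2 | h2
    · exact (h.we h2).2 ⟨nm j, he, e2⟩
    · exact (h.we h2).2 ⟨nm i, e1.symm, he.symm⟩
  · have e2 := h.edge a b ha hb hab
    have n1 := hs.ne haj
    have n2 := hs.ne hib
    rcases h1 with h1 | ⟨hbj, d, hd, ⟨⟨hbd, hdj⟩, hid⟩, had⟩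
    · have e3 := h.edge b j hb hj h1
      exact h.c4 _ _ _ _ n2 n1 e1 e2 e3 he.symm
    · have e3 := h.edge b d hb hd hbd
      have e4 := h.edge d j hd hj hdj
      exact h.c5 _ _ _ _ _ n2 (hs.ne hid) (hs.ne had) n1 (hs.ne hbj) e1 e2 e3 e4 he.symm

theorem DS.step {c : Cfg} {W s : List (ℕ × ℕ)} {nm : ℕ → V} (h : Facts c W G nm) (hs : DS nm s) :
    DS nm (step c W s) := by
  intro p hp
  unfold Loc.step at hp
  rw [List.mem_append] at hp
  rcases hp with hp | hp
  · exact hs p hp
  · rw [List.mem_filter, List.mem_flatMap] at hp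
    obtain ⟨⟨i, hi, hp1⟩, hp2⟩ := hp
    rw [List.mem_map] at hp1
    obtain ⟨j, hj, rfl⟩ := hp1
    rw [List.mem_range] at hi hj
    rw [Bool.and_eq_true] at hp2
    exact ruleD_ne h hs (hj.trans hi) hi hp2.2

theorem DS.iter {c : Cfg} {W : List (ℕ × ℕ)} {nm : ℕ → V} (h : Facts c W G nm) (k : ℕ) :
    ∀ {s : List (ℕ × ℕ)}, DS nm s → DS nm (iter c W k s) := by
  induction k with
  | zero => intro s hs; exact hs
  | succ k ih => intro s hs; exact ih (hs.step h)

theorem nadj_na {c : Cfg} {W X s : List (ℕ × ℕ)} {nm : ℕ → V} (h : Facts c W G nm) (hs : DS nm s)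
    (hX : ∀ p ∈ X, ¬ G.Adj (nm p.1) (nm p.2)) {i j : ℕ} (hi : i < c.N) (hj : j < c.N)
    (hr : nadj c W X s i j = true) : ¬ G.Adj (nm i) (nm j) := by
  unfold nadj at hr
  rw [Bool.or_eq_true, Bool.or_eq_true] at hr
  rcases hr with (hr | hr) | hr
  · unfold mem2 at hr
    rw [Bool.or_eq_true, List.contains_iff_mem, List.contains_iff_mem] at hr
    rcases hr with hr | hr
    · exact hX _ hr
    · exact fun h' => hX _ hr h'.symm
  · exact ruleN_na h hs hi hj hr
  · exact fun h' => ruleN_na h hs hj hi hr h'.symm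

/-- an occurrence of a small configuration; the excluded paths are a hypothesis -/
theorem inst {c : Cfg} {W D X : List (ℕ × ℕ)} {k : ℕ} {nm : ℕ → V} (hchk : lchk c W D X k = true)
    (h : Facts c W G nm) (hD : DS nm D) (hX : ∀ p ∈ X, ¬ G.Adj (nm p.1) (nm p.2))
    (hB : ∀ i, i < c.N → c.inH i = true → nm i ∉ B)
    (hdeg : ∀ r, r < c.nc → dg G (nm r) ≤ c.outs r + (nn c r).card)
    (hdegs : ∀ t, c.isT t = true → c.sm t = true → dg G (nm t) ≤ c.outs t + (nh c t).card)
    (hexc : ∀ i j l, c.isT i = true → c.isT j = true → i ≠ j → c.excl i j l = true →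
      ¬ OPath G {v | ∃ r, r < c.nc ∧ v = nm r} (nm i) (nm j) l) :
    Inst c G B nm := by
  unfold lchk at hchk
  rw [Bool.and_eq_true, List.all_eq_true, List.all_eq_true] at hchk
  obtain ⟨h1, h2⟩ := hchk
  have hs := DS.iter h k hD
  have hne : ∀ i j, j < i → i < c.N → nm j ≠ nm i := by
    intro i j hji hi
    have h3 := h1 i (List.mem_range.2 hi)
    rw [List.all_eq_true] at h3
    exact hs.ne (h3 j (List.mem_range.2 hji))
  have hinj : ∀ i j, i < c.N → j < c.N → nm i = nm j → i = j := by
    intro i j hi hj hij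
    rcases lt_trichotomy i j with hlt | heq | hlt
    · exact absurd hij (hne j i hlt hj)
    · exact heq
    · exact absurd hij.symm (hne i j hlt hi)
  have hind : ∀ i j, i < c.N → j < c.N → c.inH i = true → c.inH j = true →
      G.Adj (nm i) (nm j) → c.adjE i j = true := by
    intro i j hi hj hiH hjH hij
    have h3 := h2 i (List.mem_range.2 hi)
    rw [List.all_eq_true] at h3
    have h4 := h3 j (List.mem_range.2 hj)
    rw [Bool.or_eq_true, Bool.or_eq_true, Bool.or_eq_true] at h4
    rcases h4 with ((h4 | h4) | h4) | h4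
    · rw [hiH, hjH] at h4
      exact absurd h4 (by decide)
    · rw [decide_eq_true_eq] at h4
      subst h4
      exact absurd rfl hij.ne
    · exact h4
    · exact absurd hij (nadj_na h hs hX hi hj h4)
  have hc : ∀ r, r < c.nc → r < c.N := fun r hr => Nat.lt_of_lt_of_le hr (Nat.le_add_right _ _)
  have hcH : ∀ r, r < c.nc → c.inH r = true := by
    intro r hr
    unfold Cfg.inH
    rw [Bool.or_eq_true]
    exact Or.inl (decide_eq_true hr)
  have hTN : ∀ t, c.isT t = true → t < c.N := by
    intro t ht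
    unfold Cfg.isT at ht
    rw [Bool.and_eq_true, decide_eq_true_eq, decide_eq_true_eq] at ht
    exact ht.2
  have hTH : ∀ t, c.isT t = true → c.sm t = true → c.inH t = true := by
    intro t ht hs'
    unfold Cfg.inH
    rw [ht, hs']
    simp
  refine inst_of hinj (fun r hr => hB r (hc r hr) (hcH r hr)) h.edge hdeg
    (fun r j hr hj hjH hrj => hind r j (hc r hr) hj (hcH r hr) hjH hrj) ?_ hexc
  intro t ht hs'
  exact ⟨hB t (hTN t ht) (hTH t ht hs'), hdegs t ht hs',
    fun j hj hjH htj => hind t j (hTN t ht) hj (hTH t ht hs') hjH htj⟩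

end Loc

end Pool.Agent.Lib.SVY
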