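import Pool.Agent.Lib.SVY.LocC

/-!
# SVY.LocD: reducible local configurations, further rules

`Loc.cfalseD`: as `Loc.cfalseC`; the pairs of `D` which are not in `D0` are distinct by a cycle of
length 6 with a non-corner, the excluded paths of `EX` are hypotheses.
-/

set_option autoImplicit false
set_option linter.unusedSectionVars false

namespace Pool.Agent.Lib.SVY

open Finset Pool.Agent.Lib.SVT Pool.Agent.Lib.SVX

namespace Loc

/-- the equality of `i` and `j` gives the cycle `i - p - q - r - t - u` -/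
def eqOK (c : Cfg) (s : List (ℕ × ℕ)) (NC : List (ℕ × ℕ × ℕ)) (i j p q r t u : ℕ) : Bool :=
  c.adjE i p && c.adjE p q && c.adjE q r && c.adjE r t && c.adjE t u && c.adjE u j &&
  mem2 s i q && mem2 s i r && mem2 s i t && mem2 s p r && mem2 s p t && mem2 s p u &&
  mem2 s q t && mem2 s q u && mem2 s r u && (ncor NC p i q || ncor NC q p r || ncor NC r q t ||
    ncor NC t r u || ncor NC u t j)

/-- the pairs of `D` are in `D0` or distinct by a cycle of length 6 -/
def dchk (c : Cfg) (W D0 D : List (ℕ × ℕ)) (NC : List (ℕ × ℕ × ℕ)) (k : ℕ) : Bool :=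
  D.all (fun e => D0.contains e || (decide (e.1 < c.N) && decide (e.2 < c.N) &&
    (List.range c.N).any (fun p => c.adjE e.1 p &&
      (List.range c.N).any (fun q => c.adjE p q && (List.range c.N).any (fun r => c.adjE q r &&
        (List.range c.N).any (fun t => c.adjE r t && (List.range c.N).any (fun u => c.adjE t u &&
          eqOK c (iter c W k D0) NC e.1 e.2 p q r t u)))))))

/-- the check of the excluded paths -/
def echkD (c : Cfg) (W D X : List (ℕ × ℕ)) (NC EX : List (ℕ × ℕ × ℕ)) (k : ℕ) : Bool :=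
  c.al.all (fun e => decide (e.1 < c.N) && decide (e.2.1 < c.N) &&
    (EX.contains e || echC c W X (iter c W k D) NC e))

variable {V : Type*} [Fintype V] [DecidableEq V] {G : SimpleGraph V} {B : Finset V}
variable {m : ℕ} {F : Fin m → Finset (Sym2 V)}

theorem dchk_ne {c : Cfg} {W D0 D : List (ℕ × ℕ)} {NC : List (ℕ × ℕ × ℕ)} {k : ℕ} {nm : ℕ → V}
    (h : MinCE G B) (hF : Faces G F) (hf : Facts c W G nm) (hs : DS nm (iter c W k D0))
    (hD0 : ∀ p ∈ D0, nm p.1 ≠ nm p.2)
    (hNC : ∀ t ∈ NC, ¬ Corner F (nm t.1) (nm t.2.1) (nm t.2.2))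
    (hr : dchk c W D0 D NC k = true) : DS nm D := by
  intro e he
  unfold dchk at hr
  have hr := List.all_eq_true.1 hr e he
  rw [Bool.or_eq_true, List.contains_iff_mem] at hr
  rcases hr with hr | hr
  · exact hD0 _ hr
  simp only [Bool.and_eq_true, List.any_eq_true, List.mem_range, decide_eq_true_eq] at hr
  obtain ⟨⟨hi, hj⟩, p, hp, h2, q, hq, h3, r, hrN, h4, t, ht, h5, u, hu, h6, hr⟩ := hr
  intro h7
  unfold eqOK at hr
  simp only [Bool.and_eq_true, Bool.or_eq_true] at hr
  obtain ⟨⟨⟨⟨⟨⟨⟨⟨⟨⟨⟨⟨⟨⟨⟨a1, a2⟩, a3⟩, a4⟩, a5⟩, a6⟩, a7⟩, a8⟩, a9⟩, a10⟩, a11⟩, a12⟩, a13⟩, a14⟩,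
    a15⟩, a16⟩ := hr
  have f1 := hf.edge _ _ hi hp a1
  have f2 := hf.edge _ _ hp hq a2
  have f3 := hf.edge _ _ hq hrN a3
  have f4 := hf.edge _ _ hrN ht a4
  have f5 := hf.edge _ _ ht hu a5
  have f6 := hf.edge _ _ hu hj a6
  rw [← h7] at f6
  have hnd : [nm e.1, nm p, nm q, nm r, nm t, nm u].Nodup := by
    simp only [List.nodup_cons, List.mem_cons, List.not_mem_nil, or_false, not_or,
      not_false_eq_true, List.nodup_nil, and_true]
    exact ⟨⟨f1.ne, hs.ne a7, hs.ne a8, hs.ne a9, f6.ne.symm⟩, ⟨f2.ne, hs.ne a10, hs.ne a11,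
      hs.ne a12⟩, ⟨f3.ne, hs.ne a13, hs.ne a14⟩, ⟨f4.ne, hs.ne a15⟩, f5.ne⟩
  rcases a16 with (((b | b) | b) | b) | b
  · exact six_false h hF hnd f1 f2 f3 f4 f5 f6 (Or.inl (ncor_nc hNC b))
  · exact six_false h hF hnd f1 f2 f3 f4 f5 f6 (Or.inr (Or.inl (ncor_nc hNC b)))
  · exact six_false h hF hnd f1 f2 f3 f4 f5 f6 (Or.inr (Or.inr (Or.inl (ncor_nc hNC b))))
  · exact six_false h hF hnd f1 f2 f3 f4 f5 f6 (Or.inr (Or.inr (Or.inr (ncor_nc hNC b))))
  · have hnd' : [nm p, nm q, nm r, nm t, nm u, nm e.1].Nodup := by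
      simp only [List.nodup_cons, List.mem_cons, List.not_mem_nil, or_false, not_or,
        not_false_eq_true, List.nodup_nil, and_true]
      exact ⟨⟨f2.ne, hs.ne a10, hs.ne a11, hs.ne a12, f1.ne.symm⟩, ⟨f3.ne, hs.ne a13, hs.ne a14,
        (hs.ne a7).symm⟩, ⟨f4.ne, hs.ne a15, (hs.ne a8).symm⟩, ⟨f5.ne, (hs.ne a9).symm⟩, f6.ne⟩
    have b' := ncor_nc hNC b
    rw [← h7] at b'
    exact six_false h hF hnd' f2 f3 f4 f5 f6 f1 (Or.inr (Or.inr (Or.inr b')))

/-- a reducible small configuration; the pairs of `X0` are assumed to be nonadjacent, the pairs of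
`D0` to be distinct, the excluded paths of `EX` are assumed, all others are derived -/
theorem cfalseD {c : Cfg} {par : ℕ → ℕ} {W D D0 X X0 : List (ℕ × ℕ)} {EX : List (ℕ × ℕ × ℕ)} {NC : List (ℕ × ℕ × ℕ)} {k : ℕ}
    {nm : ℕ → V} (hadm : c.adm par = true) (hchk : lchk c W D X k = true)
    (hech : echkD c W D X NC EX k = true)
    (hdc : dchk c W D0 D NC k = true) (hxc : xchk c W D X0 X NC k = true) (hl : c.ListOK) (h : MinCE G B) (hF : Faces G F)
    (hE : ∀ e ∈ c.E ++ c.Bs, G.Adj (nm e.1) (nm e.2)) (hW : ∀ p ∈ W, WE G (nm p.1) (nm p.2))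
    (hD0 : ∀ p ∈ D0, nm p.1 ≠ nm p.2) (hX0 : ∀ p ∈ X0, ¬ G.Adj (nm p.1) (nm p.2))
    (hNC : ∀ t ∈ NC, ¬ Corner F (nm t.1) (nm t.2.1) (nm t.2.2))
    (hEX : ∀ e ∈ EX, ¬ OPath G {v | ∃ r, r < c.nc ∧ v = nm r} (nm e.1) (nm e.2.1) e.2.2)
    (hH : ∀ i ∈ hlist c, nm i ∉ B ∧ dg G (nm i) ≤ dmax c i) : False := by
  have hedge : ∀ i j, i < c.N → j < c.N → c.adjE i j = true → G.Adj (nm i) (nm j) := by
    intro i j _ _ hij
    unfold Cfg.adjE at hij
    simp only [Bool.or_eq_true, List.contains_iff_mem] at hij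
    rcases hij with ((h1 | h1) | h1) | h1
    · exact hE (i, j) (List.mem_append_left _ h1)
    · exact (hE (j, i) (List.mem_append_left _ h1)).symm
    · exact hE (i, j) (List.mem_append_right _ h1)
    · exact (hE (j, i) (List.mem_append_right _ h1)).symm
  have hf : Facts c W G nm := ⟨h.good.c4, h.good.c5, hedge, hW⟩
  have hDS : DS nm D := dchk_ne h hF hf (DS.iter hf k (s := D0) hD0) hD0 hNC hdc
  have hcN : ∀ r, r < c.nc → r < c.N := fun r hr => Nat.lt_of_lt_of_le hr (Nat.le_add_right _ _)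
  have hcH : ∀ r, r < c.nc → c.inH r = true := by
    intro r hr
    unfold Cfg.inH
    rw [Bool.or_eq_true]
    exact Or.inl (decide_eq_true hr)
  have hTN : ∀ t, c.isT t = true → c.nc ≤ t ∧ t < c.N := by
    intro t ht
    unfold Cfg.isT at ht
    rw [Bool.and_eq_true, decide_eq_true_eq, decide_eq_true_eq] at ht
    exact ht
  have hTH : ∀ t, c.isT t = true → c.sm t = true → c.inH t = true := by
    intro t ht hs'
    unfold Cfg.inH
    rw [ht, hs']
    simp
  have hcard : ∀ (p : ℕ → Bool), ((List.range c.N).filter p).length =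
      ((Finset.range c.N).filter (fun j => p j = true)).card := by
    intro p
    rw [← List.toFinset_card_of_nodup (List.nodup_range.filter p)]
    congr 1
    ext a
    simp
  have hdegc : ∀ r, r < c.nc → dg G (nm r) ≤ c.outs r + (nn c r).card := by
    intro r hr
    have h1 := (hH r (List.mem_filter.2 ⟨List.mem_range.2 (hcN r hr), hcH r hr⟩)).2
    unfold dmax at h1
    rw [if_pos hr, hcard] at h1
    exact h1
  have hdegs : ∀ t, c.isT t = true → c.sm t = true → dg G (nm t) ≤ c.outs t + (nh c t).card := by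
    intro t ht hs'
    have h1 := (hH t (List.mem_filter.2 ⟨List.mem_range.2 (hTN t ht).2, hTH t ht hs'⟩)).2
    unfold dmax at h1
    rw [if_neg (Nat.not_lt.2 (hTN t ht).1), hcard] at h1
    have h2 : nh c t = (Finset.range c.N).filter (fun j => (c.adjE t j && c.inH j) = true) := by
      unfold nh
      refine Finset.filter_congr ?_
      intro j _
      rw [Bool.and_eq_true]
    rw [h2]
    exact h1
  -- injectivity
  have hchk' := hchk
  unfold lchk at hchk'
  rw [Bool.and_eq_true, List.all_eq_true, List.all_eq_true] at hchk'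
  have hs := DS.iter hf k hDS
  have hX : ∀ p ∈ X, ¬ G.Adj (nm p.1) (nm p.2) := xchk_na h hF hf hs hX0 hNC hxc
  have hne : ∀ i j, j < i → i < c.N → nm j ≠ nm i := by
    intro i j hji hi
    have h3 := hchk'.1 i (List.mem_range.2 hi)
    rw [List.all_eq_true] at h3
    exact hs.ne (h3 j (List.mem_range.2 hji))
  have hinj : ∀ i j, i < c.N → j < c.N → nm i = nm j → i = j := by
    intro i j hi hj hij
    rcases lt_trichotomy i j with hlt | heq | hlt
    · exact absurd hij (hne j i hlt hj)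
    · exact heq
    · exact absurd hij.symm (hne i j hlt hi)
  refine cfg_false hadm hl h (inst hchk hf hDS hX ?_ hdegc hdegs ?_)
  · intro i hi hiH
    exact (hH i (List.mem_filter.2 ⟨List.mem_range.2 hi, hiH⟩)).1
  · intro i j l _ _ _ hex
    unfold echkD at hech
    rw [List.all_eq_true] at hech
    unfold Cfg.excl at hex
    rw [Bool.or_eq_true, List.contains_iff_mem, List.contains_iff_mem] at hex
    rcases hex with hex | hex
    · have h1 := hech _ hex
      rw [Bool.and_eq_true, Bool.and_eq_true, decide_eq_true_eq, decide_eq_true_eq,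
        Bool.or_eq_true, List.contains_iff_mem] at h1
      rcases h1.2 with h2 | h2
      · exact hEX _ h2
      · exact echC_exc h hF hf hs hX hdegc hinj hNC h1.1.1 h1.1.2 h2
    · have h1 := hech _ hex
      rw [Bool.and_eq_true, Bool.and_eq_true, decide_eq_true_eq, decide_eq_true_eq,
        Bool.or_eq_true, List.contains_iff_mem] at h1
      rcases h1.2 with h2 | h2
      · exact fun h' => hEX _ h2 (opathSymm h')
      · exact fun h' => echC_exc h hF hf hs hX hdegc hinj hNC h1.1.1 h1.1.2 h2 (opathSymm h')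

end Loc

end Pool.Agent.Lib.SVY
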