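import Pool.Agent.Lib.SVY.LocB

/-!
# SVY.LocData: data of the local configurations

Generated.  The checks of the graphs and of the excluded paths.
-/

set_option autoImplicit false
set_option linter.unusedSectionVars false
set_option maxRecDepth 100000

namespace Pool.Agent.Lib.SVY.LC

open Pool.Agent.Lib.SVX

/-- P1 centre `p`, `N` of type (1,2), small third vertex `s`: new edge `v' g`; names: 0=p 1=N 2=v 3=v' 4=s 5=m 6=g -/
def gG3 : Cfg where
  nc := 2
  nt := 5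
  E := [(0, 1), (0, 2), (0, 3), (0, 4), (1, 4), (1, 5), (1, 6)]
  Bs := []
  outs := fun i => if i == 2 || i == 3 || i == 4 || i == 5 then 2 else 0
  sm := fun i => i == 2 || i == 3 || i == 4 || i == 5
  keep := []
  pi := fun i => if i = 0 then 3 else if i = 1 then 6 else i
  NE := [(3, 6)]
  al := [(3, 6, 1), (3, 6, 2), (3, 6, 3), (3, 6, 4)]

def gG3P (i : ℕ) : ℕ := if i = 0 then 3 else if i = 1 then 6 else i

theorem gG3_adm : gG3.adm gG3P = true := by decide

theorem gG3_lchk : Loc.lchk gG3 [(0, 2), (0, 3), (1, 5), (1, 6)] [(2, 3), (5, 6)] [] 1 = true := by decide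

theorem gG3_echk : Loc.echk gG3 [(0, 2), (0, 3), (1, 5), (1, 6)] [(2, 3), (5, 6)] [] [(0, 1, 3)] 1 = true := by decide

/-- P1 centre `p`, `a` of type (2,0), small third vertex `b`, the other triangle `a t g` has a 3-vertex `t`: new edge `v' g`; names: 0=p 1=a 2=t 3=v 4=v' 5=b 6=g 7=u -/
def gG4 : Cfg where
  nc := 3
  nt := 5
  E := [(0, 1), (0, 3), (0, 4), (0, 5), (1, 5), (1, 2), (1, 6), (2, 6), (2, 7)]
  Bs := []
  outs := fun i => if i == 3 || i == 4 || i == 5 then 2 else 0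
  sm := fun i => i == 3 || i == 4 || i == 5
  keep := []
  pi := fun i => if i = 0 then 4 else if i = 1 then 6 else if i = 2 then 6 else i
  NE := [(4, 6)]
  al := [(4, 6, 1), (4, 6, 2), (4, 6, 3), (4, 6, 4)]

def gG4P (i : ℕ) : ℕ := if i = 0 then 4 else if i = 1 then 6 else if i = 2 then 6 else i

theorem gG4_adm : gG4.adm gG4P = true := by decide

theorem gG4_lchk : Loc.lchk gG4 [(0, 3), (0, 4), (2, 7)] [(3, 4), (5, 2), (0, 2)] [] 2 = true := by decide

theorem gG4_echk : Loc.echk gG4 [(0, 3), (0, 4), (2, 7)] [(3, 4), (5, 2), (0, 2)] [] [(0, 1, 4)] 2 = true := by decide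

/-- 3-vertex `a` in the triangle `a y s`, `s` small, triangle `y x l`, P3-triangle `x t v`: new edge `b l`; names: 0=a 1=y 2=x 3=v 4=b 5=s 6=l 7=t 8=z -/
def gG1 : Cfg where
  nc := 4
  nt := 5
  E := [(0, 4), (0, 1), (0, 5), (1, 5), (1, 2), (1, 6), (2, 6), (2, 3), (2, 7), (3, 7), (3, 8)]
  Bs := []
  outs := fun i => if i == 5 || i == 8 then 2 else 0
  sm := fun i => i == 5 || i == 8
  keep := []
  pi := fun i => if i = 0 then 4 else if i = 1 then 6 else if i = 2 then 6 else if i = 3 then 7 else i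
  NE := [(4, 6)]
  al := [(4, 6, 1), (4, 6, 2), (4, 6, 3), (4, 6, 4)]

def gG1P (i : ℕ) : ℕ := if i = 0 then 4 else if i = 1 then 6 else if i = 2 then 6 else if i = 3 then 7 else i

theorem gG1_adm : gG1.adm gG1P = true := by decide

theorem gG1_lchk : Loc.lchk gG1 [(0, 4), (3, 8)] [(0, 2), (0, 6), (1, 7), (1, 3)] [] 3 = true := by decide

theorem gG1_echk : Loc.echk gG1 [(0, 4), (3, 8)] [(0, 2), (0, 6), (1, 7), (1, 3)] [] [(1, 0, 6)] 3 = true := by decide

/-- 3-vertex `a` in the triangle `a y l`, triangle `y x s` with `s` small, P3-triangle `x t v`, `t` small: new edge `b s`; names: 0=a 1=y 2=x 3=b 4=l 5=s 6=t 7=v -/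
def gG2 : Cfg where
  nc := 3
  nt := 5
  E := [(0, 3), (0, 1), (0, 4), (1, 4), (1, 2), (1, 5), (2, 5), (2, 7), (2, 6)]
  Bs := [(7, 6)]
  outs := fun i => if i == 7 then 1 else if i == 5 || i == 6 then 2 else 0
  sm := fun i => i == 5 || i == 6 || i == 7
  keep := []
  pi := fun i => if i = 0 then 3 else if i = 1 then 5 else if i = 2 then 5 else i
  NE := [(3, 5)]
  al := [(3, 5, 1), (3, 5, 2), (3, 5, 3), (3, 5, 4)]

def gG2P (i : ℕ) : ℕ := if i = 0 then 3 else if i = 1 then 5 else if i = 2 then 5 else i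

theorem gG2_adm : gG2.adm gG2P = true := by decide

theorem gG2_lchk : Loc.lchk gG2 [(0, 3)] [(0, 2), (0, 5), (1, 6), (1, 7)] [] 2 = true := by decide

theorem gG2_echk : Loc.echk gG2 [(0, 3)] [(0, 2), (0, 5), (1, 6), (1, 7)] [] [(1, 0, 5)] 2 = true := by decide

/-- 3-vertex `a` in the triangle `a c d`, neighbour `w` of type (1,2), triangle `w y l`, P3-triangle `y t v`, `t` small: new edges `c l`, `d l`; names: 0=a 1=w 2=y 3=v 4=c 5=d 6=r 7=l 8=t 9=z -/
def gG5 : Cfg where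
  nc := 4
  nt := 6
  E := [(0, 4), (0, 5), (0, 1), (1, 6), (1, 7), (1, 2), (2, 7), (2, 8), (2, 3), (3, 8), (3, 9)]
  Bs := [(4, 5)]
  outs := fun i => if i == 8 || i == 9 then 2 else 0
  sm := fun i => i == 8 || i == 9
  keep := []
  pi := fun i => if i = 0 then 7 else if i = 1 then 7 else if i = 2 then 7 else if i = 3 then 8 else i
  NE := [(4, 7), (5, 7)]
  al := [(4, 5, 2), (4, 5, 3), (4, 7, 1), (4, 7, 2), (4, 7, 3), (4, 7, 4), (5, 7, 1), (5, 7, 2), (5, 7, 3), (5, 7, 4)]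

def gG5P (i : ℕ) : ℕ := if i = 0 then 1 else if i = 1 then 7 else if i = 2 then 7 else if i = 3 then 8 else i

theorem gG5_adm : gG5.adm gG5P = true := by decide

theorem gG5_lchk : Loc.lchk gG5 [(0, 1), (1, 6), (3, 9)] [(0, 6), (1, 8), (7, 8)] [] 3 = true := by decide

theorem gG5_echk : Loc.echk gG5 [(0, 1), (1, 6), (3, 9)] [(0, 6), (1, 8), (7, 8)] [] [(1, 0, 7)] 3 = true := by decide

/-- `w` of type (1,2) with the neighbours `a` (3-vertex), `b`, triangle `w y s`, `s` small, triangle `y x l`, P3-triangle `x t v`, `t` small: new edges `a l`, `b l`; names: 0=w 1=y 2=x 3=v 4=a 5=b 6=s 7=l 8=t 9=z -/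
def gG7 : Cfg where
  nc := 4
  nt := 6
  E := [(0, 4), (0, 5), (0, 6), (0, 1), (1, 6), (1, 7), (1, 2), (2, 7), (2, 8), (2, 3), (3, 8), (3, 9)]
  Bs := []
  outs := fun i => if i == 4 || i == 6 || i == 8 || i == 9 then 2 else 0
  sm := fun i => i == 4 || i == 6 || i == 8 || i == 9
  keep := []
  pi := fun i => if i = 0 then 7 else if i = 1 then 7 else if i = 2 then 7 else if i = 3 then 8 else i
  NE := [(4, 7), (5, 7)]
  al := [(4, 5, 2), (4, 5, 3), (4, 7, 1), (4, 7, 2), (4, 7, 3), (4, 7, 4), (5, 7, 1), (5, 7, 2), (5, 7, 3), (5, 7, 4)]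

def gG7P (i : ℕ) : ℕ := if i = 0 then 1 else if i = 1 then 7 else if i = 2 then 7 else if i = 3 then 8 else i

theorem gG7_adm : gG7.adm gG7P = true := by decide

theorem gG7_lchk : Loc.lchk gG7 [(0, 4), (0, 5), (3, 9)] [(4, 5), (0, 2), (0, 7), (1, 8), (1, 3)] [(9, 4)] 3 = true := by decide

theorem gG7_echk : Loc.echk gG7 [(0, 4), (0, 5), (3, 9)] [(4, 5), (0, 2), (0, 7), (1, 8), (1, 3)] [(9, 4)] [(1, 0, 7)] 3 = true := by decide

/-- 3-vertex `a` with the 3-neighbour `a'` and the triangle `a y l`, triangle `y w s` with `s` small, `w` of type (1,2) with the neighbours `n` (3-vertex), `b`: new edges `l n`, `l b`; names: 0=a 1=y 2=w 3=a' 4=l 5=s 6=n 7=b -/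
def gQ : Cfg where
  nc := 3
  nt := 5
  E := [(0, 3), (0, 1), (0, 4), (1, 4), (1, 5), (1, 2), (2, 5), (2, 6), (2, 7)]
  Bs := []
  outs := fun i => if i == 3 || i == 5 || i == 6 then 2 else 0
  sm := fun i => i == 3 || i == 5 || i == 6
  keep := []
  pi := fun i => if i = 0 then 4 else if i = 1 then 4 else if i = 2 then 4 else i
  NE := [(4, 6), (4, 7)]
  al := [(4, 6, 1), (4, 6, 2), (4, 6, 3), (4, 6, 4), (4, 7, 1), (4, 7, 2), (4, 7, 3), (4, 7, 4), (6, 7, 2), (6, 7, 3)]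

def gQP (i : ℕ) : ℕ := if i = 0 then 4 else if i = 1 then 4 else if i = 2 then 1 else i

theorem gQ_adm : gQ.adm gQP = true := by decide

theorem gQ_lchk : Loc.lchk gQ [(0, 3), (2, 6), (2, 7)] [(6, 7), (0, 2), (0, 5)] [] 2 = true := by decide

theorem gQ_echk : Loc.echk gQ [(0, 3), (2, 6), (2, 7)] [(6, 7), (0, 2), (0, 5)] [] [(1, 2, 4)] 2 = true := by decide

/-- P1 centres `p`, `q` in a triangle `p q s`, `s` small; names: 0=p 1=q 2=s 3=a 4=b 5=c 6=d -/
def gPP : Cfg where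
  nc := 2
  nt := 5
  E := [(0, 1), (0, 2), (1, 2), (0, 3), (0, 4), (1, 5), (1, 6)]
  Bs := []
  outs := fun i => if i == 2 || i == 3 || i == 4 || i == 5 || i == 6 then 2 else 0
  sm := fun i => i == 2 || i == 3 || i == 4 || i == 5 || i == 6
  keep := []
  pi := fun i => if i = 0 then 3 else if i = 1 then 5 else i
  NE := []
  al := []

def gPPP (i : ℕ) : ℕ := if i = 0 then 3 else if i = 1 then 5 else i

theorem gPP_adm : gPP.adm gPPP = true := by decide

theorem gPP_lchk : Loc.lchk gPP [(0, 3), (0, 4), (1, 5), (1, 6)] [(3, 4), (5, 6)] [] 1 = true := by decide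

theorem gPP_echk : Loc.echk gPP [(0, 3), (0, 4), (1, 5), (1, 6)] [(3, 4), (5, 6)] [] [] 1 = true := by decide

/-- VTV: P3-triangles `v x y`, `v' y2 c`, triangles `x x2 wp`, `y y2 w`: new edges `x2 w`, `wp w`; names: 0=v 1=x 2=y 3=y2 4=v' 5=x2 6=wp 7=z 8=w 9=z' 10=c -/
def gVTV : Cfg where
  nc := 5
  nt := 6
  E := [(0, 1), (0, 2), (0, 7), (1, 2), (1, 5), (1, 6), (2, 8), (2, 3), (3, 8), (3, 10), (3, 4), (4, 10), (4, 9)]
  Bs := [(5, 6)]
  outs := fun i => if i == 7 || i == 9 then 2 else 0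
  sm := fun i => i == 7 || i == 9
  keep := []
  pi := fun i => if i = 0 then 8 else if i = 1 then 8 else if i = 2 then 8 else if i = 3 then 10 else if i = 4 then 10 else i
  NE := [(5, 8), (6, 8)]
  al := [(5, 6, 2), (5, 6, 3), (5, 8, 1), (5, 8, 2), (5, 8, 3), (5, 8, 4), (6, 8, 1), (6, 8, 2), (6, 8, 3), (6, 8, 4)]

def gVTVP (i : ℕ) : ℕ := if i = 0 then 2 else if i = 1 then 2 else if i = 2 then 8 else if i = 3 then 10 else if i = 4 then 10 else i

theorem gVTV_adm : gVTV.adm gVTVP = true := by decide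

theorem gVTV_lchk : Loc.lchk gVTV [(0, 7), (4, 9)] [(0, 5), (0, 6), (0, 8), (1, 8), (2, 10), (8, 10)] [(7, 9)] 3 = true := by decide

theorem gVTV_echk : Loc.echk gVTV [(0, 7), (4, 9)] [(0, 5), (0, 6), (0, 8), (1, 8), (2, 10), (8, 10)] [(7, 9)] [(2, 1, 8)] 3 = true := by decide

/-- P3-triangle `v x y`, `x` small, triangle `y y2 w`, `y2` of type (1,2) with the neighbours `n` (3-vertex), `c`: `w` of type (2,0) with the other triangle `w u l`: new edges `u c`, `l c`; names: 0=v 1=w 2=y 3=y2 4=x 5=z 6=u 7=l 8=n 9=c -/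
def gN1F : Cfg where
  nc := 4
  nt := 6
  E := [(0, 5), (0, 4), (0, 2), (4, 2), (1, 2), (1, 3), (2, 3), (3, 8), (3, 9), (1, 6), (1, 7)]
  Bs := [(6, 7)]
  outs := fun i => if i == 4 || i == 5 || i == 8 then 2 else 0
  sm := fun i => i == 4 || i == 5 || i == 8
  keep := []
  pi := fun i => if i = 0 then 4 else if i = 1 then 9 else if i = 2 then 9 else if i = 3 then 9 else i
  NE := [(6, 9), (7, 9)]
  al := [(6, 7, 2), (6, 7, 3), (6, 9, 1), (6, 9, 2), (6, 9, 3), (6, 9, 4), (7, 9, 1), (7, 9, 2), (7, 9, 3), (7, 9, 4)]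

def gN1FP (i : ℕ) : ℕ := if i = 0 then 4 else if i = 1 then 3 else if i = 2 then 3 else if i = 3 then 9 else i

theorem gN1F_adm : gN1F.adm gN1FP = true := by decide

theorem gN1F_lchk : Loc.lchk gN1F [(0, 5), (3, 8), (3, 9)] [(2, 6), (3, 6), (1, 4), (3, 4), (8, 9)] [] 3 = true := by decide

theorem gN1F_echk : Loc.echk gN1F [(0, 5), (3, 8), (3, 9)] [(2, 6), (3, 6), (1, 4), (3, 4), (8, 9)] [] [(3, 1, 9)] 3 = true := by decide

/-- P3-triangle `v x y`, `x` small, triangle `y y2 w`, `y2` of type (1,2) with the neighbours `n` (3-vertex), `c`: `w` of type (1,2) with the neighbours `u`, `l`: new edges `u c`, `l c`; names: 0=v 1=w 2=y 3=y2 4=x 5=z 6=u 7=l 8=n 9=c -/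
def gN1B : Cfg where
  nc := 4
  nt := 6
  E := [(0, 5), (0, 4), (0, 2), (4, 2), (1, 2), (1, 3), (2, 3), (3, 8), (3, 9), (1, 6), (1, 7)]
  Bs := []
  outs := fun i => if i == 4 || i == 5 || i == 8 then 2 else 0
  sm := fun i => i == 4 || i == 5 || i == 8
  keep := []
  pi := fun i => if i = 0 then 4 else if i = 1 then 9 else if i = 2 then 9 else if i = 3 then 9 else i
  NE := [(6, 9), (7, 9)]
  al := [(6, 7, 2), (6, 7, 3), (6, 9, 1), (6, 9, 2), (6, 9, 3), (6, 9, 4), (7, 9, 1), (7, 9, 2), (7, 9, 3), (7, 9, 4)]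

def gN1BP (i : ℕ) : ℕ := if i = 0 then 4 else if i = 1 then 3 else if i = 2 then 3 else if i = 3 then 9 else i

theorem gN1B_adm : gN1B.adm gN1BP = true := by decide

theorem gN1B_lchk : Loc.lchk gN1B [(0, 5), (1, 6), (1, 7), (3, 8), (3, 9)] [(6, 7), (1, 4), (3, 4), (8, 9)] [] 3 = true := by decide

theorem gN1B_echk : Loc.echk gN1B [(0, 5), (1, 6), (1, 7), (3, 8), (3, 9)] [(6, 7), (1, 4), (3, 4), (8, 9)] [] [(3, 1, 9)] 3 = true := by decide

/-- P3-triangle `v x y`, `x` small, triangle `y y2 w`, `y2` of type (1,2) with the neighbours `n` (3-vertex), `c`: `w` of type (2,1) with the other triangle `w a b` and the neighbour `m` (3-vertex): new edges `a c`, `b c`, `m c`; names: 0=v 1=w 2=y 3=y2 4=x 5=z 6=a 7=b 8=m 9=n 10=c -/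
def gN1Y : Cfg where
  nc := 4
  nt := 7
  E := [(0, 5), (0, 4), (0, 2), (4, 2), (1, 2), (1, 3), (2, 3), (3, 9), (3, 10), (1, 6), (1, 7), (1, 8)]
  Bs := [(6, 7)]
  outs := fun i => if i == 4 || i == 5 || i == 8 || i == 9 then 2 else 0
  sm := fun i => i == 4 || i == 5 || i == 8 || i == 9
  keep := []
  pi := fun i => if i = 0 then 10 else if i = 1 then 10 else if i = 2 then 10 else if i = 3 then 10 else i
  NE := [(6, 10), (7, 10), (8, 10)]
  al := [(6, 7, 2), (6, 7, 3), (6, 8, 2), (6, 8, 3), (6, 10, 1), (6, 10, 2), (6, 10, 3), (6, 10, 4), (7, 8, 2), (7, 8, 3), (7, 10, 1), (7, 10, 2), (7, 10, 3), (7, 10, 4), (8, 10, 1), (8, 10, 2), (8, 10, 3), (8, 10, 4)]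

def gN1YP (i : ℕ) : ℕ := if i = 0 then 2 else if i = 1 then 3 else if i = 2 then 3 else if i = 3 then 10 else i

theorem gN1Y_adm : gN1Y.adm gN1YP = true := by decide

theorem gN1Y_lchk : Loc.lchk gN1Y [(0, 5), (1, 8), (3, 9), (3, 10)] [(2, 6), (3, 6), (1, 4), (3, 4), (9, 10)] [] 3 = true := by decide

theorem gN1Y_echk : Loc.echk gN1Y [(0, 5), (1, 8), (3, 9), (3, 10)] [(2, 6), (3, 6), (1, 4), (3, 4), (9, 10)] [] [(3, 1, 10)] 3 = true := by decide

end Pool.Agent.Lib.SVY.LC
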