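import Pool.Agent.Lib.SVY.LocD

/-!
# SVY.LocData2: data of further local configurations

Generated.  The checks of the graphs, of the distinct pairs and of the excluded paths.
-/

set_option autoImplicit false
set_option linter.unusedSectionVars false
set_option maxRecDepth 100000

namespace Pool.Agent.Lib.SVY.LC

open Pool.Agent.Lib.SVX

/-- two P1 centres `p`, `q` in a triangle; names: 0=p 1=q 2=s 3=a 4=b 5=c 6=d -/
def gCC : Cfg where
  nc := 2
  nt := 5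
  E := [(0, 1), (0, 2), (1, 2), (0, 3), (0, 4), (1, 5), (1, 6)]
  Bs := []
  outs := fun i => if i == 3 || i == 4 || i == 5 || i == 6 then 2 else 0
  sm := fun i => i == 3 || i == 4 || i == 5 || i == 6
  keep := []
  pi := fun i => i
  NE := []
  al := []

def gCCP (i : ℕ) : ℕ := i

theorem gCC_adm : gCC.adm gCCP = true := by decide

theorem gCC_lchk : Loc.lchk gCC [(0, 3), (0, 4), (1, 5), (1, 6)] [(3, 4), (5, 6)] [] 1 = true := by decide

theorem gCC_echk : Loc.echkD gCC [(0, 3), (0, 4), (1, 5), (1, 6)] [(3, 4), (5, 6)] [] [] [] 1 = true := by decide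

theorem gCC_dchk : Loc.dchk gCC [(0, 3), (0, 4), (1, 5), (1, 6)] [(3, 4), (5, 6)] [(3, 4), (5, 6)] [] 1 = true := by decide

theorem gCC_xchk : Loc.xchk gCC [(0, 3), (0, 4), (1, 5), (1, 6)] [(3, 4), (5, 6)] [] [] [] 1 = true := by decide

/-- 3-vertex `v` with a 3-neighbour `z` in a triangle `v x y`, `x` of type (1,3) with three 3-neighbours; names: 0=v 1=x 2=y 3=z 4=k1 5=k2 6=k3 -/
def gPK : Cfg where
  nc := 2
  nt := 5
  E := [(0, 1), (0, 2), (1, 2), (0, 3), (1, 4), (1, 5), (1, 6)]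
  Bs := []
  outs := fun i => if i == 3 || i == 4 || i == 5 || i == 6 then 2 else 0
  sm := fun i => i == 3 || i == 4 || i == 5 || i == 6
  keep := []
  pi := fun i => i
  NE := []
  al := []

def gPKP (i : ℕ) : ℕ := i

theorem gPK_adm : gPK.adm gPKP = true := by decide

theorem gPK_lchk : Loc.lchk gPK [(0, 3), (1, 4), (1, 5), (1, 6)] [(4, 5), (4, 6), (5, 6)] [] 1 = true := by decide

theorem gPK_echk : Loc.echkD gPK [(0, 3), (1, 4), (1, 5), (1, 6)] [(4, 5), (4, 6), (5, 6)] [] [] [] 1 = true := by decide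

theorem gPK_dchk : Loc.dchk gPK [(0, 3), (1, 4), (1, 5), (1, 6)] [(4, 5), (4, 6), (5, 6)] [(4, 5), (4, 6), (5, 6)] [] 1 = true := by decide

theorem gPK_xchk : Loc.xchk gPK [(0, 3), (1, 4), (1, 5), (1, 6)] [(4, 5), (4, 6), (5, 6)] [] [] [] 1 = true := by decide

/-- 3-vertex `v` whose neighbour `z` has type (1,2) with a 3-neighbour `z2`, triangle `v x y`, `x` of type (1,3) with three 3-neighbours; names: 0=v 1=x 2=y 3=z 4=z2 5=k1 6=k2 7=k3 -/
def gQK : Cfg where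
  nc := 2
  nt := 6
  E := [(0, 1), (0, 2), (1, 2), (0, 3), (1, 5), (1, 6), (1, 7)]
  Bs := [(3, 4)]
  outs := fun i => if i == 3 || i == 4 || i == 5 || i == 6 || i == 7 then 2 else 0
  sm := fun i => i == 3 || i == 4 || i == 5 || i == 6 || i == 7
  keep := []
  pi := fun i => i
  NE := []
  al := []

def gQKP (i : ℕ) : ℕ := i

theorem gQK_adm : gQK.adm gQKP = true := by decide

theorem gQK_lchk : Loc.lchk gQK [(0, 3), (1, 5), (1, 6), (1, 7)] [(5, 6), (5, 7), (6, 7), (0, 4)] [] 2 = true := by decide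

theorem gQK_echk : Loc.echkD gQK [(0, 3), (1, 5), (1, 6), (1, 7)] [(5, 6), (5, 7), (6, 7), (0, 4)] [] [] [] 2 = true := by decide

theorem gQK_dchk : Loc.dchk gQK [(0, 3), (1, 5), (1, 6), (1, 7)] [(5, 6), (5, 7), (6, 7), (0, 4)] [(5, 6), (5, 7), (6, 7), (0, 4)] [] 2 = true := by decide

theorem gQK_xchk : Loc.xchk gQK [(0, 3), (1, 5), (1, 6), (1, 7)] [(5, 6), (5, 7), (6, 7), (0, 4)] [] [] [] 2 = true := by decide

/-- 3-vertex `v` with a 3-neighbour `z` in a triangle `v x y`, `x` of type (2,0), P1 centre `c` in the other triangle `x c t`: new edge `y a2`; names: 0=v 1=x 2=c 3=z 4=y 5=a1 6=a2 7=t -/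
def gM5 : Cfg where
  nc := 3
  nt := 5
  E := [(0, 3), (0, 1), (0, 4), (4, 1), (1, 2), (1, 7), (2, 7), (2, 5), (2, 6)]
  Bs := []
  outs := fun i => if i == 3 || i == 5 || i == 6 then 2 else 0
  sm := fun i => i == 3 || i == 5 || i == 6
  keep := []
  pi := fun i => if i = 1 then 4 else if i = 2 then 6 else i
  NE := [(4, 6)]
  al := [(4, 6, 1), (4, 6, 2), (4, 6, 3), (4, 6, 4)]

def gM5P (i : ℕ) : ℕ := if i = 1 then 4 else if i = 2 then 6 else i

theorem gM5_adm : gM5.adm gM5P = true := by decide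

theorem gM5_lchk : Loc.lchk gM5 [(0, 3), (2, 5), (2, 6)] [(5, 6), (0, 2), (0, 7)] [] 2 = true := by decide

theorem gM5_echk : Loc.echkD gM5 [(0, 3), (2, 5), (2, 6)] [(5, 6), (0, 2), (0, 7)] [] [(2, 1, 6)] [] 2 = true := by decide

theorem gM5_dchk : Loc.dchk gM5 [(0, 3), (2, 5), (2, 6)] [(5, 6), (0, 2), (0, 7)] [(5, 6), (0, 2), (0, 7)] [(2, 1, 6)] 2 = true := by decide

theorem gM5_xchk : Loc.xchk gM5 [(0, 3), (2, 5), (2, 6)] [(5, 6), (0, 2), (0, 7)] [] [] [(2, 1, 6)] 2 = true := by decide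

/-- 3-vertex `v` in a triangle `v x y`, `y` small, `x` of type (2,0), P1 centre `c` in the other triangle `x c t`: `c` deleted; names: 0=v 1=x 2=c 3=z 4=y 5=a1 6=a2 7=t -/
def gQ16 : Cfg where
  nc := 3
  nt := 5
  E := [(0, 3), (0, 1), (0, 4), (4, 1), (1, 2), (1, 7), (2, 7), (2, 5), (2, 6)]
  Bs := []
  outs := fun i => if i == 4 || i == 5 || i == 6 then 2 else 0
  sm := fun i => i == 4 || i == 5 || i == 6
  keep := [0, 1]
  pi := fun i => i
  NE := [(0, 3), (0, 4), (0, 1), (4, 1), (1, 7)]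
  al := [(3, 4, 1), (3, 4, 2), (3, 4, 3), (3, 7, 1), (3, 7, 2), (4, 7, 1), (4, 7, 2), (4, 7, 3)]

def gQ16P (i : ℕ) : ℕ := i

theorem gQ16_adm : gQ16.adm gQ16P = true := by decide

theorem gQ16_lchk : Loc.lchk gQ16 [(0, 3), (2, 5), (2, 6)] [(5, 6), (0, 2), (0, 7)] [] 2 = true := by decide

theorem gQ16_echk : Loc.echkD gQ16 [(0, 3), (2, 5), (2, 6)] [(5, 6), (0, 2), (0, 7)] [] [] [] 2 = true := by decide

theorem gQ16_dchk : Loc.dchk gQ16 [(0, 3), (2, 5), (2, 6)] [(5, 6), (0, 2), (0, 7)] [(5, 6), (0, 2), (0, 7)] [] 2 = true := by decide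

theorem gQ16_xchk : Loc.xchk gQ16 [(0, 3), (2, 5), (2, 6)] [(5, 6), (0, 2), (0, 7)] [] [] [] 2 = true := by decide

/-- P1 centre `z` in a triangle `z a b`, `b` small, `a` of type (2,0), P1 centre `w` in the other triangle `a w t`: new edge `t v2`; names: 0=z 1=a 2=w 3=b 4=c1 5=c2 6=t 7=v1 8=v2 -/
def gA18 : Cfg where
  nc := 3
  nt := 6
  E := [(0, 7), (0, 8), (0, 1), (0, 3), (1, 3), (1, 2), (1, 6), (2, 6), (2, 4), (2, 5)]
  Bs := []
  outs := fun i => if i == 3 || i == 4 || i == 5 || i == 7 || i == 8 then 2 else 0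
  sm := fun i => i == 3 || i == 4 || i == 5 || i == 7 || i == 8
  keep := []
  pi := fun i => if i = 0 then 8 else if i = 1 then 8 else i
  NE := [(8, 6)]
  al := [(6, 8, 1), (6, 8, 2), (6, 8, 3), (6, 8, 4)]

def gA18P (i : ℕ) : ℕ := if i = 0 then 8 else if i = 1 then 0 else i

theorem gA18_adm : gA18.adm gA18P = true := by decide

theorem gA18_lchk : Loc.lchk gA18 [(0, 7), (0, 8), (2, 4), (2, 5)] [(7, 8), (4, 5), (0, 2), (0, 6)] [] 2 = true := by decide

theorem gA18_echk : Loc.echkD gA18 [(0, 7), (0, 8), (2, 4), (2, 5)] [(7, 8), (4, 5), (0, 2), (0, 6)] [] [(0, 1, 8)] [] 2 = true := by decide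

theorem gA18_dchk : Loc.dchk gA18 [(0, 7), (0, 8), (2, 4), (2, 5)] [(7, 8), (4, 5), (0, 2), (0, 6)] [(7, 8), (4, 5), (0, 2), (0, 6)] [(0, 1, 8)] 2 = true := by decide

theorem gA18_xchk : Loc.xchk gA18 [(0, 7), (0, 8), (2, 4), (2, 5)] [(7, 8), (4, 5), (0, 2), (0, 6)] [] [] [(0, 1, 8)] 2 = true := by decide

/-- P1 centre `z` in a triangle `z a b`, `b` small, `a` of type (1,3) with three 3-neighbours; names: 0=z 1=a 2=b 3=v1 4=v2 5=k1 6=k2 7=k3 -/
def gA19 : Cfg where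
  nc := 2
  nt := 6
  E := [(0, 3), (0, 4), (0, 1), (0, 2), (1, 2), (1, 5), (1, 6), (1, 7)]
  Bs := []
  outs := fun i => if i == 2 || i == 3 || i == 4 || i == 5 || i == 6 || i == 7 then 2 else 0
  sm := fun i => i == 2 || i == 3 || i == 4 || i == 5 || i == 6 || i == 7
  keep := []
  pi := fun i => i
  NE := []
  al := []

def gA19P (i : ℕ) : ℕ := i

theorem gA19_adm : gA19.adm gA19P = true := by decide

theorem gA19_lchk : Loc.lchk gA19 [(0, 3), (0, 4), (1, 5), (1, 6), (1, 7)] [(3, 4), (5, 6), (5, 7), (6, 7)] [] 1 = true := by decide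

theorem gA19_echk : Loc.echkD gA19 [(0, 3), (0, 4), (1, 5), (1, 6), (1, 7)] [(3, 4), (5, 6), (5, 7), (6, 7)] [] [] [] 1 = true := by decide

theorem gA19_dchk : Loc.dchk gA19 [(0, 3), (0, 4), (1, 5), (1, 6), (1, 7)] [(3, 4), (5, 6), (5, 7), (6, 7)] [(3, 4), (5, 6), (5, 7), (6, 7)] [] 1 = true := by decide

theorem gA19_xchk : Loc.xchk gA19 [(0, 3), (0, 4), (1, 5), (1, 6), (1, 7)] [(3, 4), (5, 6), (5, 7), (6, 7)] [] [] [] 1 = true := by decide

/-- 3-vertex `o` with a 3-neighbour, triangles `o q x`, `x l y`, V-edge `y u`; names: 0=o 1=x 2=y 3=v 4=z1 5=u 6=z2 7=l 8=q -/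
def gSB : Cfg where
  nc := 4
  nt := 5
  E := [(0, 4), (0, 8), (0, 1), (8, 1), (1, 7), (1, 2), (2, 7), (2, 5), (2, 3), (5, 3), (3, 6)]
  Bs := []
  outs := fun i => if i == 4 || i == 6 then 2 else 0
  sm := fun i => i == 4 || i == 6
  keep := [3]
  pi := fun i => if i = 1 then 8 else if i = 2 then 8 else i
  NE := [(8, 5), (5, 3), (6, 3), (8, 3)]
  al := [(5, 6, 1), (5, 6, 2), (5, 6, 3), (5, 8, 1), (5, 8, 2), (5, 8, 3), (5, 8, 4), (6, 8, 1), (6, 8, 2), (6, 8, 3)]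

def gSBP (i : ℕ) : ℕ := if i = 1 then 8 else if i = 2 then 1 else i

theorem gSB_adm : gSB.adm gSBP = true := by decide

theorem gSB_lchk : Loc.lchk gSB [(0, 4), (3, 6)] [(0, 7), (0, 2), (1, 5), (1, 3)] [(6, 4)] 2 = true := by decide

theorem gSB_echk : Loc.echkD gSB [(0, 4), (3, 6)] [(0, 7), (0, 2), (1, 5), (1, 3)] [(6, 4)] [(1, 2, 8), (2, 1, 3)] [] 2 = true := by decide

theorem gSB_dchk : Loc.dchk gSB [(0, 4), (3, 6)] [(0, 7), (0, 2), (1, 5), (1, 3)] [(0, 7), (0, 2), (1, 5), (1, 3)] [(1, 2, 8), (2, 1, 3)] 2 = true := by decide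

theorem gSB_xchk : Loc.xchk gSB [(0, 4), (3, 6)] [(0, 7), (0, 2), (1, 5), (1, 3)] [] [(6, 4)] [(1, 2, 8), (2, 1, 3)] 2 = true := by decide

end Pool.Agent.Lib.SVY.LC
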