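import Pool.Agent.Lib.SVY.LocD

/-!
# SVY.LocData3: data of further local configurations

Generated.  The checks of the graphs, of the distinct pairs and of the excluded paths.
-/

set_option autoImplicit false
set_option linter.unusedSectionVars false
set_option maxRecDepth 100000

namespace Pool.Agent.Lib.SVY.LC

open Pool.Agent.Lib.SVX

/-- V-edge `x y`, triangles `x x2 wp`, `y A w`, `A u v1`, 3-vertex `v1` with the neighbour `z1` of type (1,2) and its 3-neighbour `z2`; names: 0=v 1=x 2=y 3=A 4=v1 5=x2 6=wp 7=z 8=w 9=z1 10=z2 11=u -/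
def gS7 : Cfg where
  nc := 5
  nt := 7
  E := [(0, 1), (0, 2), (0, 7), (1, 2), (1, 5), (1, 6), (2, 8), (2, 3), (3, 8), (3, 11), (3, 4), (4, 11), (4, 9)]
  Bs := [(5, 6), (9, 10)]
  outs := fun i => if i == 7 || i == 9 || i == 10 then 2 else 0
  sm := fun i => i == 7 || i == 9 || i == 10
  keep := []
  pi := fun i => if i = 0 then 8 else if i = 1 then 8 else if i = 2 then 8 else if i = 3 then 9 else if i = 4 then 9 else i
  NE := [(5, 8), (6, 8)]
  al := [(5, 6, 2), (5, 6, 3), (5, 8, 1), (5, 8, 2), (5, 8, 3), (5, 8, 4), (6, 8, 1), (6, 8, 2), (6, 8, 3), (6, 8, 4)]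

def gS7P (i : ℕ) : ℕ := if i = 0 then 2 else if i = 1 then 2 else if i = 2 then 8 else if i = 3 then 4 else if i = 4 then 9 else i

theorem gS7_adm : gS7.adm gS7P = true := by decide

theorem gS7_lchk : Loc.lchk gS7 [(0, 7), (4, 9)] [(0, 3), (0, 8), (0, 5), (0, 6), (2, 11), (2, 4), (4, 10), (5, 10), (6, 10), (7, 10)] [(7, 10), (9, 7), (10, 0), (10, 1)] 3 = true := by decide

theorem gS7_echk : Loc.echkD gS7 [(0, 7), (4, 9)] [(0, 3), (0, 8), (0, 5), (0, 6), (2, 11), (2, 4), (4, 10), (5, 10), (6, 10), (7, 10)] [(7, 10), (9, 7), (10, 0), (10, 1)] [(3, 2, 4), (2, 1, 8)] [] 3 = true := by decide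

theorem gS7_dchk : Loc.dchk gS7 [(0, 7), (4, 9)] [(0, 3), (0, 8), (0, 5), (0, 6), (2, 11), (2, 4), (4, 10)] [(0, 3), (0, 8), (0, 5), (0, 6), (2, 11), (2, 4), (4, 10), (5, 10), (6, 10), (7, 10)] [(3, 2, 4), (2, 1, 8)] 3 = true := by decide

theorem gS7_xchk : Loc.xchk gS7 [(0, 7), (4, 9)] [(0, 3), (0, 8), (0, 5), (0, 6), (2, 11), (2, 4), (4, 10), (5, 10), (6, 10), (7, 10)] [(7, 10)] [(7, 10), (9, 7), (10, 0), (10, 1)] [(3, 2, 4), (2, 1, 8)] 3 = true := by decide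

/-- V-edge `x y`, triangles `y A w`, `A u l`, 3-vertex `u` with the neighbour `o`: new edge `w o`; names: 0=v 1=x 2=y 3=A 4=u 5=x2 6=wp 7=z 8=w 9=l 10=o -/
def gS8 : Cfg where
  nc := 5
  nt := 6
  E := [(0, 1), (0, 2), (0, 7), (1, 2), (1, 5), (1, 6), (2, 3), (2, 8), (3, 8), (3, 4), (3, 9), (4, 9), (4, 10)]
  Bs := [(5, 6)]
  outs := fun i => if i == 7 then 2 else 0
  sm := fun i => i == 7
  keep := []
  pi := fun i => if i = 3 then 10 else if i = 4 then 10 else i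
  NE := [(8, 10)]
  al := [(8, 10, 1), (8, 10, 2), (8, 10, 3), (8, 10, 4)]

def gS8P (i : ℕ) : ℕ := if i = 3 then 4 else if i = 4 then 10 else i

theorem gS8_adm : gS8.adm gS8P = true := by decide

theorem gS8_lchk : Loc.lchk gS8 [(0, 7), (4, 10)] [(0, 3), (0, 8), (0, 5), (0, 6), (2, 4), (2, 9)] [] 3 = true := by decide

theorem gS8_echk : Loc.echkD gS8 [(0, 7), (4, 10)] [(0, 3), (0, 8), (0, 5), (0, 6), (2, 4), (2, 9)] [] [(3, 4, 8)] [] 3 = true := by decide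

theorem gS8_dchk : Loc.dchk gS8 [(0, 7), (4, 10)] [(0, 3), (0, 8), (0, 5), (0, 6), (2, 4), (2, 9)] [(0, 3), (0, 8), (0, 5), (0, 6), (2, 4), (2, 9)] [(3, 4, 8)] 3 = true := by decide

theorem gS8_xchk : Loc.xchk gS8 [(0, 7), (4, 10)] [(0, 3), (0, 8), (0, 5), (0, 6), (2, 4), (2, 9)] [] [] [(3, 4, 8)] 3 = true := by decide

/-- V-edge `x y`, triangles `y A w`, `A u l`, P1 centre `u`; names: 0=v 1=y 2=A 3=u 4=x 5=z 6=w 7=l 8=o2 9=o1 -/
def gS9a : Cfg where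
  nc := 4
  nt := 6
  E := [(0, 4), (0, 1), (0, 5), (4, 1), (1, 2), (1, 6), (2, 6), (2, 3), (2, 7), (3, 7), (3, 9), (3, 8)]
  Bs := []
  outs := fun i => if i == 5 || i == 8 || i == 9 then 2 else 0
  sm := fun i => i == 5 || i == 8 || i == 9
  keep := [0]
  pi := fun i => if i = 1 then 7 else if i = 2 then 7 else if i = 3 then 7 else i
  NE := [(4, 7), (4, 0), (5, 0), (7, 0)]
  al := [(4, 5, 1), (4, 5, 2), (4, 5, 3), (4, 7, 1), (4, 7, 2), (4, 7, 3), (4, 7, 4), (5, 7, 1), (5, 7, 2), (5, 7, 3)]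

def gS9aP (i : ℕ) : ℕ := if i = 1 then 2 else if i = 2 then 7 else if i = 3 then 7 else i

theorem gS9a_adm : gS9a.adm gS9aP = true := by decide

theorem gS9a_lchk : Loc.lchk gS9a [(0, 5), (3, 9), (3, 8)] [(9, 8), (1, 3), (1, 7), (0, 2), (0, 6)] [(8, 5), (9, 5)] 3 = true := by decide

theorem gS9a_echk : Loc.echkD gS9a [(0, 5), (3, 9), (3, 8)] [(9, 8), (1, 3), (1, 7), (0, 2), (0, 6)] [(8, 5), (9, 5)] [(2, 1, 7), (1, 0, 2)] [] 3 = true := by decide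

theorem gS9a_dchk : Loc.dchk gS9a [(0, 5), (3, 9), (3, 8)] [(9, 8), (1, 3), (1, 7), (0, 2), (0, 6)] [(9, 8), (1, 3), (1, 7), (0, 2), (0, 6)] [(2, 1, 7), (1, 0, 2)] 3 = true := by decide

theorem gS9a_xchk : Loc.xchk gS9a [(0, 5), (3, 9), (3, 8)] [(9, 8), (1, 3), (1, 7), (0, 2), (0, 6)] [] [(8, 5), (9, 5)] [(2, 1, 7), (1, 0, 2)] 3 = true := by decide

end Pool.Agent.Lib.SVY.LC
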