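import Pool.Agent.Lib.SVY.LocD

/-!
# SVY.LocData4: data of further local configurations

Generated.  The checks of the graphs, of the distinct pairs and of the excluded paths.
-/

set_option autoImplicit false
set_option linter.unusedSectionVars false
set_option maxRecDepth 100000

namespace Pool.Agent.Lib.SVY.LC

open Pool.Agent.Lib.SVX

/-- V-edge `x y`, triangles `x x2 wp`, `y A w`, `A u p`, P1 centre `p`; names: 0=v 1=x 2=y 3=A 4=p 5=x2 6=wp 7=z 8=w 9=p1 10=p2 11=u -/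
def gS9b : Cfg where
  nc := 5
  nt := 7
  E := [(0, 1), (0, 2), (0, 7), (1, 2), (1, 5), (1, 6), (2, 8), (2, 3), (3, 8), (3, 11), (3, 4), (4, 11), (4, 9), (4, 10)]
  Bs := [(5, 6)]
  outs := fun i => if i == 7 || i == 9 || i == 10 then 2 else 0
  sm := fun i => i == 7 || i == 9 || i == 10
  keep := []
  pi := fun i => if i = 1 then 8 else if i = 2 then 8 else i
  NE := [(5, 8), (6, 8)]
  al := [(5, 6, 2), (5, 6, 3), (5, 8, 1), (5, 8, 2), (5, 8, 3), (5, 8, 4), (6, 8, 1), (6, 8, 2), (6, 8, 3), (6, 8, 4)]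

def gS9bP (i : ℕ) : ℕ := if i = 1 then 2 else if i = 2 then 8 else i

theorem gS9b_adm : gS9b.adm gS9bP = true := by decide

theorem gS9b_lchk : Loc.lchk gS9b [(0, 7), (4, 9), (4, 10)] [(0, 3), (0, 8), (0, 5), (0, 6), (2, 11), (2, 4), (9, 10)] [(9, 7), (10, 7)] 3 = true := by decide

theorem gS9b_echk : Loc.echkD gS9b [(0, 7), (4, 9), (4, 10)] [(0, 3), (0, 8), (0, 5), (0, 6), (2, 11), (2, 4), (9, 10)] [(9, 7), (10, 7)] [(3, 2, 4), (2, 1, 8)] [] 3 = true := by decide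

theorem gS9b_dchk : Loc.dchk gS9b [(0, 7), (4, 9), (4, 10)] [(0, 3), (0, 8), (0, 5), (0, 6), (2, 11), (2, 4), (9, 10)] [(0, 3), (0, 8), (0, 5), (0, 6), (2, 11), (2, 4), (9, 10)] [(3, 2, 4), (2, 1, 8)] 3 = true := by decide

theorem gS9b_xchk : Loc.xchk gS9b [(0, 7), (4, 9), (4, 10)] [(0, 3), (0, 8), (0, 5), (0, 6), (2, 11), (2, 4), (9, 10)] [] [(9, 7), (10, 7)] [(3, 2, 4), (2, 1, 8)] 3 = true := by decide

/-- V-edge `x y`, triangle `y A w`, P1 centre `A`; names: 0=v 1=x 2=y 3=A 4=x2 5=wp 6=z 7=w 8=o 9=u -/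
def gS9p : Cfg where
  nc := 4
  nt := 6
  E := [(0, 1), (0, 2), (0, 6), (1, 2), (1, 4), (1, 5), (2, 7), (2, 3), (3, 7), (3, 8), (3, 9)]
  Bs := [(4, 5)]
  outs := fun i => if i == 6 || i == 8 || i == 9 then 2 else 0
  sm := fun i => i == 6 || i == 8 || i == 9
  keep := []
  pi := fun i => i
  NE := []
  al := []

def gS9pP (i : ℕ) : ℕ := i

theorem gS9p_adm : gS9p.adm gS9pP = true := by decide

theorem gS9p_lchk : Loc.lchk gS9p [(0, 6), (3, 8), (3, 9)] [(8, 9), (0, 3), (0, 7), (0, 4), (0, 5)] [] 3 = true := by decide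

theorem gS9p_echk : Loc.echkD gS9p [(0, 6), (3, 8), (3, 9)] [(8, 9), (0, 3), (0, 7), (0, 4), (0, 5)] [] [] [] 3 = true := by decide

theorem gS9p_dchk : Loc.dchk gS9p [(0, 6), (3, 8), (3, 9)] [(8, 9), (0, 3), (0, 7), (0, 4), (0, 5)] [(8, 9), (0, 3), (0, 7), (0, 4), (0, 5)] [] 3 = true := by decide

theorem gS9p_xchk : Loc.xchk gS9p [(0, 6), (3, 8), (3, 9)] [(8, 9), (0, 3), (0, 7), (0, 4), (0, 5)] [] [] [] 3 = true := by decide

/-- P3-triangle `v x y`, `x` small, triangle `y w A`, `A` of type (1,2) with the neighbours `n` (3-vertex), `c`, `w` of type (1,3) with three 3-neighbours; names: 0=v 1=w 2=y 3=A 4=x 5=z 6=k1 7=k2 8=k3 9=n 10=c -/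
def gS10K : Cfg where
  nc := 4
  nt := 7
  E := [(0, 5), (0, 4), (0, 2), (4, 2), (1, 2), (1, 3), (2, 3), (3, 9), (3, 10), (1, 6), (1, 7), (1, 8)]
  Bs := []
  outs := fun i => if i == 4 || i == 5 || i == 6 || i == 7 || i == 8 || i == 9 then 2 else 0
  sm := fun i => i == 4 || i == 5 || i == 6 || i == 7 || i == 8 || i == 9
  keep := []
  pi := fun i => i
  NE := []
  al := []

def gS10KP (i : ℕ) : ℕ := i

theorem gS10K_adm : gS10K.adm gS10KP = true := by decide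

theorem gS10K_lchk : Loc.lchk gS10K [(0, 5), (1, 6), (1, 7), (1, 8), (3, 9), (3, 10)] [(0, 3), (0, 1), (9, 10), (6, 7), (6, 8), (7, 8)] [] 2 = true := by decide

theorem gS10K_echk : Loc.echkD gS10K [(0, 5), (1, 6), (1, 7), (1, 8), (3, 9), (3, 10)] [(0, 3), (0, 1), (9, 10), (6, 7), (6, 8), (7, 8)] [] [] [] 2 = true := by decide

theorem gS10K_dchk : Loc.dchk gS10K [(0, 5), (1, 6), (1, 7), (1, 8), (3, 9), (3, 10)] [(0, 3), (0, 1), (9, 10), (6, 7), (6, 8), (7, 8)] [(0, 3), (0, 1), (9, 10), (6, 7), (6, 8), (7, 8)] [] 2 = true := by decide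

theorem gS10K_xchk : Loc.xchk gS10K [(0, 5), (1, 6), (1, 7), (1, 8), (3, 9), (3, 10)] [(0, 3), (0, 1), (9, 10), (6, 7), (6, 8), (7, 8)] [] [] [] 2 = true := by decide

/-- V-edge `x y`, triangles `x x2 wp`, `y A w`, `A` of type (1,3) with three 3-neighbours; names: 0=v 1=x 2=y 3=A 4=x2 5=wp 6=z 7=w 8=k3 9=k2 10=u -/
def gS12 : Cfg where
  nc := 4
  nt := 7
  E := [(0, 1), (0, 2), (0, 6), (1, 2), (1, 4), (1, 5), (2, 7), (2, 3), (3, 7), (3, 8), (3, 9), (3, 10)]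
  Bs := [(4, 5)]
  outs := fun i => if i == 6 || i == 8 || i == 9 || i == 10 then 2 else 0
  sm := fun i => i == 6 || i == 8 || i == 9 || i == 10
  keep := []
  pi := fun i => if i = 1 then 7 else if i = 2 then 7 else i
  NE := [(4, 7), (5, 7)]
  al := [(4, 5, 2), (4, 5, 3), (4, 7, 1), (4, 7, 2), (4, 7, 3), (4, 7, 4), (5, 7, 1), (5, 7, 2), (5, 7, 3), (5, 7, 4)]

def gS12P (i : ℕ) : ℕ := if i = 1 then 2 else if i = 2 then 7 else i

theorem gS12_adm : gS12.adm gS12P = true := by decide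

theorem gS12_lchk : Loc.lchk gS12 [(0, 6), (3, 8), (3, 9), (3, 10)] [(9, 8), (9, 10), (8, 10), (0, 3), (0, 7), (0, 4), (0, 5)] [] 3 = true := by decide

theorem gS12_echk : Loc.echkD gS12 [(0, 6), (3, 8), (3, 9), (3, 10)] [(9, 8), (9, 10), (8, 10), (0, 3), (0, 7), (0, 4), (0, 5)] [] [(2, 1, 7)] [] 3 = true := by decide

theorem gS12_dchk : Loc.dchk gS12 [(0, 6), (3, 8), (3, 9), (3, 10)] [(9, 8), (9, 10), (8, 10), (0, 3), (0, 7), (0, 4), (0, 5)] [(9, 8), (9, 10), (8, 10), (0, 3), (0, 7), (0, 4), (0, 5)] [(2, 1, 7)] 3 = true := by decide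

theorem gS12_xchk : Loc.xchk gS12 [(0, 6), (3, 8), (3, 9), (3, 10)] [(9, 8), (9, 10), (8, 10), (0, 3), (0, 7), (0, 4), (0, 5)] [] [] [(2, 1, 7)] 3 = true := by decide

end Pool.Agent.Lib.SVY.LC
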