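import Pool.Agent.Lib.SVY.LocF
import Pool.Agent.Lib.SVY.LocC

/-!
# SVY.LocG: reducible local configurations with flexible terminals, more rules

`Loc.cfalseG`: as `Loc.cfalseF` with the checks `echkC`, `xchk` of SVY/LocC.
-/

set_option autoImplicit false
set_option linter.unusedSectionVars false

namespace Pool.Agent.Lib.SVY

open Finset Pool.Agent.Lib.SVT Pool.Agent.Lib.SVX Pool.Agent.Lib.SVW

namespace Loc

variable {V : Type*} [Fintype V] [DecidableEq V] {G : SimpleGraph V} {B : Finset V}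

/-- a reducible small configuration with flexible terminals; the pairs of `X0` are assumed to be
nonadjacent, the other ones of `X` are derived -/
theorem cfalseG {m : ℕ} {F : Fin m → Finset (Sym2 V)}
    {c : Cfg} {par : ℕ → ℕ} {W D X X0 : List (ℕ × ℕ)} {NC : List (ℕ × ℕ × ℕ)} {k : ℕ}
    {fl : ℕ → Bool} {nm : ℕ → V} (hadm : c.adm par = true) (hchk : lchk c W D X k = true)
    (hech : echkC c W D X NC k = true) (hxc : xchk c W D X0 X NC k = true)
    (hfc : flchk c W D X k fl = true) (hl : c.ListOKF fl)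
    (h : MinCE G B) (hF : Faces G F)
    (hE : ∀ e ∈ c.E ++ c.Bs, G.Adj (nm e.1) (nm e.2)) (hW : ∀ p ∈ W, WE G (nm p.1) (nm p.2))
    (hD : ∀ p ∈ D, nm p.1 ≠ nm p.2) (hX0 : ∀ p ∈ X0, ¬ G.Adj (nm p.1) (nm p.2))
    (hNC : ∀ t ∈ NC, ¬ Corner F (nm t.1) (nm t.2.1) (nm t.2.2))
    (hH : ∀ i ∈ hlist c, nm i ∉ B ∧ dg G (nm i) ≤ SVW.Loc.dmaxW c i)
    (hnp : ∀ t ∈ flist c fl, ¬ Np G B (nm t)) : False := by
  have hedge : ∀ i j, i < c.N → j < c.N → c.adjE i j = true → G.Adj (nm i) (nm j) := by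
    intro i j _ _ hij
    unfold Cfg.adjE at hij
    simp only [Bool.or_eq_true, List.contains_iff_mem] at hij
    rcases hij with ((h1 | h1) | h1) | h1
    · exact hE (i, j) (List.mem_append_left _ h1)
    · exact (hE (j, i) (List.mem_append_left _ h1)).symm
    · exact hE (i, j) (List.mem_append_right _ h1)
    · exact (hE (j, i) (List.mem_append_right _ h1)).symm
  have hf : Facts c W G nm := ⟨h.good.c4, h.good.c5, hedge, hW⟩
  have hDS : DS nm D := hD
  have hcN : ∀ r, r < c.nc → r < c.N := fun r hr => Nat.lt_of_lt_of_le hr (Nat.le_add_right _ _)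
  have hcard : ∀ (p : ℕ → Bool), ((List.range c.N).filter p).length =
      ((Finset.range c.N).filter (fun j => p j = true)).card := by
    intro p
    rw [← List.toFinset_card_of_nodup (List.nodup_range.filter p)]
    congr 1
    ext a
    simp
  have hdeg : ∀ i, i < c.N → c.inH i = true →
      nm i ∉ B ∧ dg G (nm i) ≤ c.outs i + (nn c i).card := by
    intro i hi hiH
    have h1 := hH i (List.mem_filter.2 ⟨List.mem_range.2 hi, hiH⟩)
    have h2 := h1.2
    unfold SVW.Loc.dmaxW at h2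
    rw [hcard] at h2
    exact ⟨h1.1, h2⟩
  have hcH : ∀ r, r < c.nc → c.inH r = true := by
    intro r hr
    unfold Cfg.inH
    rw [Bool.or_eq_true]
    exact Or.inl (decide_eq_true hr)
  -- injectivity
  have hchk' := hchk
  unfold lchk at hchk'
  rw [Bool.and_eq_true, List.all_eq_true, List.all_eq_true] at hchk'
  have hs := DS.iter hf k hDS
  have hX : ∀ p ∈ X, ¬ G.Adj (nm p.1) (nm p.2) := xchk_na h hF hf hs hX0 hNC hxc
  have hne : ∀ i j, j < i → i < c.N → nm j ≠ nm i := by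
    intro i j hji hi
    have h3 := hchk'.1 i (List.mem_range.2 hi)
    rw [List.all_eq_true] at h3
    exact hs.ne (h3 j (List.mem_range.2 hji))
  have hinj : ∀ i j, i < c.N → j < c.N → nm i = nm j → i = j := by
    intro i j hi hj hij
    rcases lt_trichotomy i j with hlt | heq | hlt
    · exact absurd hij (hne j i hlt hj)
    · exact heq
    · exact absurd hij.symm (hne i j hlt hi)
  have hdegc : ∀ r, r < c.nc → dg G (nm r) ≤ c.outs r + (nn c r).card :=
    fun r hr => (hdeg r (hcN r hr) (hcH r hr)).2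
  have hin : InstW c G B nm := by
    refine SVW.Loc.instW hchk hf hDS hX hdeg ?_
    intro i j l _ _ _ hex
    unfold echkC at hech
    rw [List.all_eq_true] at hech
    unfold Cfg.excl at hex
    rw [Bool.or_eq_true, List.contains_iff_mem, List.contains_iff_mem] at hex
    rcases hex with hex | hex
    · have h1 := hech _ hex
      rw [Bool.and_eq_true, Bool.and_eq_true, decide_eq_true_eq, decide_eq_true_eq] at h1
      exact echC_exc h hF hf hs hX hdegc hinj hNC h1.1.1 h1.1.2 h1.2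
    · have h1 := hech _ hex
      rw [Bool.and_eq_true, Bool.and_eq_true, decide_eq_true_eq, decide_eq_true_eq] at h1
      exact fun h' => echC_exc h hF hf hs hX hdegc hinj hNC h1.1.1 h1.1.2 h1.2 (opathSymm h')
  -- the flexible terminals
  unfold flchk at hfc
  simp only [Bool.and_eq_true] at hfc
  obtain ⟨⟨⟨⟨⟨b1, b2⟩, b3⟩, b4⟩, hfc1⟩, hfc2⟩ := hfc
  have hbW : ∀ p ∈ W, p.1 < c.N ∧ p.2 < c.N := fun p hp => bnd_mem b1 hp
  have hbD : ∀ p ∈ D, p.1 < c.N ∧ p.2 < c.N := fun p hp => bnd_mem b2 hp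
  have hbX : ∀ p ∈ X, p.1 < c.N ∧ p.2 < c.N := fun p hp => bnd_mem b3 hp
  have hbE : ∀ p ∈ c.E ++ c.Bs, p.1 < c.N ∧ p.2 < c.N := fun p hp => bnd_mem b4 hp
  have hfm : ∀ t, isFl c fl t → t < c.N ∧ t ∈ flist c fl := by
    rintro t ⟨h1, h2, h3⟩
    have h4 : t < c.N := by
      unfold Cfg.isT at h1
      rw [Bool.and_eq_true, decide_eq_true_eq, decide_eq_true_eq] at h1
      exact h1.2
    refine ⟨h4, List.mem_filter.2 ⟨List.mem_range.2 h4, ?_⟩⟩
    rw [h1, h2, h3]
    rfl
  rw [List.all_eq_true] at hfc1 hfc2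
  have hone : ∀ t, isFl c fl t → triOK c t = true ∧ ∀ j, j < c.N → c.inH j = true →
      (c.adjE j t = true ∨ nadj c W X (iter c W k D) j t = true) ∧
        wOK c W D X k t j = true := by
    intro t ht
    have h1 := hfc1 t (hfm t ht).2
    rw [Bool.and_eq_true, List.all_eq_true] at h1
    refine ⟨h1.1, fun j hj hjH => ?_⟩
    have h2 := h1.2 j (List.mem_range.2 hj)
    rw [hjH, Bool.not_true, Bool.false_or, Bool.and_eq_true, Bool.or_eq_true] at h2
    exact h2
  have htH : ∀ t, isFl c fl t → c.inH t ≠ true := by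
    rintro t ⟨h1, h2, h3⟩ h4
    unfold Cfg.inH at h4
    rw [h1, h2] at h4
    unfold Cfg.isT at h1
    rw [Bool.and_eq_true, decide_eq_true_eq, decide_eq_true_eq] at h1
    simp only [Bool.and_false, Bool.or_false, decide_eq_true_eq] at h4
    omega
  have hsep : ∀ t, isFl c fl t → ∀ n, WE G (nm t) n → ∀ j, j < c.N → c.inH j = true →
      nm j ≠ n ∧ ¬ G.Adj (nm j) n := by
    intro t ht n hn j hj hjH
    exact wOK_sound hf hbE hbW hbD hbX hDS hX (hfm t ht).1 hj ((hone t ht).2 j hj hjH).2 hn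
  have hpair : ∀ t t', isFl c fl t → isFl c fl t' → t < t' → ∀ u ∈ chg G B (nm t),
      ∀ v ∈ chg G B (nm t'), u ≠ v ∧ ¬ G.Adj u v := by
    intro t t' ht ht' hlt u hu v hv
    have h1 := hfc2 t (hfm t ht).2
    rw [List.all_eq_true] at h1
    have h2 := h1 t' (hfm t' ht').2
    rw [Bool.or_eq_true, decide_eq_true_eq] at h2
    have h3 := h2.resolve_left (by omega)
    rw [Bool.and_eq_true, Bool.and_eq_true, Bool.and_eq_true] at h3
    obtain ⟨⟨⟨q1, q2⟩, q3⟩, q4⟩ := h3
    have n1 := (hfm t ht).1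
    have n2 := (hfm t' ht').1
    rcases hu with rfl | ⟨-, hu⟩
    · rcases hv with rfl | ⟨-, hv⟩
      · refine ⟨fun he => ?_, nadj_na hf hs hX n1 n2 q1⟩
        have := hinj t t' n1 n2 he
        omega
      · exact wOK_sound hf hbE hbW hbD hbX hDS hX n2 n1 q3 hv
    · rcases hv with rfl | ⟨-, hv⟩
      · obtain ⟨p1, p2⟩ := wOK_sound hf hbE hbW hbD hbX hDS hX n1 n2 q2 hu
        exact ⟨p1.symm, fun h' => p2 h'.symm⟩
      · exact wwOK_sound hf hbE hbW hbD hbX hDS hX n1 n2 q4 hu hv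
  refine cfg_falseG (C := fun t => chg G B (nm t)) hadm hl h hin ?_ ?_ ?_
  · intro t ht j hj hjH hadj
    rcases ((hone t ht).2 j hj hjH).1 with h1 | h1
    · exact h1
    · exact absurd hadj (nadj_na hf hs hX hj (hfm t ht).1 h1)
  · intro t ht
    refine np_flexC h ?_ (hnp t (hfm t ht).2) ?_ ?_ ?_
    · rintro v ⟨r, hr, rfl⟩
      exact ⟨r, hcN r hr, hcH r hr, rfl⟩
    · rintro ⟨j, hj, hjH, he⟩
      have h1 := hinj t j (hfm t ht).1 hj he
      rw [← h1] at hjH
      exact htH t ht hjH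
    · have h1 := (hone t ht).1
      unfold triOK at h1
      simp only [List.any_eq_true, Bool.and_eq_true, List.mem_range] at h1
      obtain ⟨a, ha, ⟨haH, hta⟩, b, hb, ⟨hbH, htb⟩, hab⟩ := h1
      exact ⟨nm a, nm b, ⟨a, ha, haH, rfl⟩, ⟨b, hb, hbH, rfl⟩,
        hedge t a (hfm t ht).1 ha hta, hedge t b (hfm t ht).1 hb htb, hedge a b ha hb hab⟩
    · intro n hn
      refine ⟨?_, ?_⟩
      · rintro ⟨j, hj, hjH, he⟩
        exact (hsep t ht n hn j hj hjH).1 he.symm
      · rintro w ⟨j, hj, hjH, rfl⟩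
        exact (hsep t ht n hn j hj hjH).2
  · intro t t' ht ht' hne u hu v hv
    rcases lt_or_gt_of_ne hne with hlt | hlt
    · exact hpair t t' ht ht' hlt u hu v hv
    · obtain ⟨p1, p2⟩ := hpair t' t ht' ht hlt v hv u hu
      exact ⟨p1.symm, fun h' => p2 h'.symm⟩

end Loc

end Pool.Agent.Lib.SVY
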