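import Pool.Agent.Lib.SVY.LocD
import Pool.Agent.Lib.SVY.LocG

/-!
# SVY.LocData5: data of further local configurations

Generated.  The checks of the graphs, of the distinct pairs and of the excluded paths.
-/

set_option autoImplicit false
set_option linter.unusedSectionVars false
set_option maxRecDepth 100000

namespace Pool.Agent.Lib.SVY.LC

open Pool.Agent.Lib.SVX

/-- 5-vertex `y` without triangles with five 3-neighbours; names: 0=y 1=u1 2=u2 3=u3 4=u4 5=u5 -/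
def gC3 : Cfg where
  nc := 1
  nt := 5
  E := [(0, 1), (0, 2), (0, 3), (0, 4), (0, 5)]
  Bs := []
  outs := fun i => if i == 1 || i == 2 || i == 3 || i == 4 || i == 5 then 2 else 0
  sm := fun i => i == 1 || i == 2 || i == 3 || i == 4 || i == 5
  keep := []
  pi := fun i => i
  NE := []
  al := []

def gC3P (i : ℕ) : ℕ := i

theorem gC3_adm : gC3.adm gC3P = true := by decide

theorem gC3_lchk : Loc.lchk gC3 [(0, 1), (0, 2), (0, 3), (0, 4)] [(1, 2), (1, 3), (1, 4), (1, 5), (2, 3), (2, 4), (2, 5), (3, 4), (3, 5), (4, 5)] [] 1 = true := by decide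

theorem gC3_echk : Loc.echkD gC3 [(0, 1), (0, 2), (0, 3), (0, 4)] [(1, 2), (1, 3), (1, 4), (1, 5), (2, 3), (2, 4), (2, 5), (3, 4), (3, 5), (4, 5)] [] [] [] 1 = true := by decide

theorem gC3_dchk : Loc.dchk gC3 [(0, 1), (0, 2), (0, 3), (0, 4)] [(1, 2), (1, 3), (1, 4), (1, 5), (2, 3), (2, 4), (2, 5), (3, 4), (3, 5), (4, 5)] [(1, 2), (1, 3), (1, 4), (1, 5), (2, 3), (2, 4), (2, 5), (3, 4), (3, 5), (4, 5)] [] 1 = true := by decide

theorem gC3_xchk : Loc.xchk gC3 [(0, 1), (0, 2), (0, 3), (0, 4)] [(1, 2), (1, 3), (1, 4), (1, 5), (2, 3), (2, 4), (2, 5), (3, 4), (3, 5), (4, 5)] [] [] [] 1 = true := by decide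

/-- P1 centre `z` in a triangle `z a b`, `b` flexible, `a` of type (1,3) with three 3-neighbours; names: 0=z 1=a 2=b 3=v1 4=v2 5=k1 6=k2 7=k3 -/
def gA19E : Cfg where
  nc := 2
  nt := 6
  E := [(0, 3), (0, 4), (0, 1), (0, 2), (1, 2), (1, 5), (1, 6), (1, 7)]
  Bs := []
  outs := fun i => if i == 3 || i == 4 || i == 5 || i == 6 || i == 7 then 2 else 0
  sm := fun i => i == 3 || i == 4 || i == 5 || i == 6 || i == 7
  keep := []
  pi := fun i => i
  NE := []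
  al := []

def gA19EP (i : ℕ) : ℕ := i

theorem gA19E_adm : gA19E.adm gA19EP = true := by decide

/-- the flexible terminal -/
def gA19E_fl (i : ℕ) : Bool := i == 2

theorem gA19E_flchk : Loc.flchk gA19E [(0, 3), (0, 4), (1, 5), (1, 6), (1, 7)] [(3, 4), (5, 6), (5, 7), (6, 7)] [] 1 gA19E_fl = true := by decide

theorem gA19E_lchk : Loc.lchk gA19E [(0, 3), (0, 4), (1, 5), (1, 6), (1, 7)] [(3, 4), (5, 6), (5, 7), (6, 7)] [] 1 = true := by decide

theorem gA19E_echk : Loc.echkC gA19E [(0, 3), (0, 4), (1, 5), (1, 6), (1, 7)] [(3, 4), (5, 6), (5, 7), (6, 7)] [] [] 1 = true := by decide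

theorem gA19E_xchk : Loc.xchk gA19E [(0, 3), (0, 4), (1, 5), (1, 6), (1, 7)] [(3, 4), (5, 6), (5, 7), (6, 7)] [] [] [] 1 = true := by decide

/-- V-edge `x y`, triangles `x x2 wp`, `y A w`, `A` with the weak neighbours `n`, `u`, 3-vertex `u` with the neighbours `e`, `d`: new edges `w d`, `n d`; names: 0=v 1=x 2=y 3=A 4=u 5=x2 6=wp 7=z 8=w 9=n 10=e 11=d -/
def gS11 : Cfg where
  nc := 5
  nt := 7
  E := [(0, 1), (0, 2), (0, 7), (1, 2), (1, 5), (1, 6), (2, 3), (2, 8), (3, 8), (3, 9), (3, 4), (4, 10), (4, 11)]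
  Bs := [(5, 6)]
  outs := fun i => if i == 7 then 2 else 0
  sm := fun i => i == 7
  keep := []
  pi := fun i => if i = 3 then 11 else if i = 4 then 11 else i
  NE := [(8, 11), (9, 11)]
  al := [(8, 9, 2), (8, 9, 3), (8, 11, 1), (8, 11, 2), (8, 11, 3), (8, 11, 4), (9, 11, 1), (9, 11, 2), (9, 11, 3), (9, 11, 4)]

def gS11P (i : ℕ) : ℕ := if i = 3 then 4 else if i = 4 then 11 else i

theorem gS11_adm : gS11.adm gS11P = true := by decide

theorem gS11_lchk : Loc.lchk gS11 [(0, 7), (3, 9), (3, 4)] [(9, 4), (10, 11), (3, 10), (3, 11), (0, 3), (0, 8), (0, 5), (0, 6)] [] 3 = true := by decide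

theorem gS11_echk : Loc.echkD gS11 [(0, 7), (3, 9), (3, 4)] [(9, 4), (10, 11), (3, 10), (3, 11), (0, 3), (0, 8), (0, 5), (0, 6)] [] [(3, 4, 8)] [(9, 11, 3), (9, 11, 4)] 3 = true := by decide

theorem gS11_dchk : Loc.dchk gS11 [(0, 7), (3, 9), (3, 4)] [(9, 4), (10, 11), (3, 10), (3, 11), (0, 3), (0, 8), (0, 5), (0, 6)] [(9, 4), (10, 11), (3, 10), (3, 11), (0, 3), (0, 8), (0, 5), (0, 6)] [(3, 4, 8)] 3 = true := by decide

theorem gS11_xchk : Loc.xchk gS11 [(0, 7), (3, 9), (3, 4)] [(9, 4), (10, 11), (3, 10), (3, 11), (0, 3), (0, 8), (0, 5), (0, 6)] [] [] [(3, 4, 8)] 3 = true := by decide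

/-- 33XFFX TWTVTW: new edges `c2 c5`, `l2 c5`; names: 0=c0 1=c1 2=c3 3=c4 4=v 5=c2 6=c5 7=l0 8=l2 9=l4 10=z -/
def gX4 : Cfg where
  nc := 5
  nt := 6
  E := [(0, 1), (0, 7), (1, 7), (1, 5), (0, 6), (5, 2), (2, 8), (2, 3), (2, 4), (3, 4), (4, 10), (3, 9), (3, 6)]
  Bs := [(5, 8), (6, 9)]
  outs := fun i => if i == 10 then 2 else 0
  sm := fun i => i == 10
  keep := []
  pi := fun i => if i = 2 then 6 else if i = 3 then 6 else i
  NE := [(5, 6), (8, 6)]
  al := [(5, 6, 1), (5, 6, 2), (5, 6, 3), (5, 6, 4), (5, 8, 2), (5, 8, 3), (6, 8, 1), (6, 8, 2), (6, 8, 3), (6, 8, 4)]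

def gX4P (i : ℕ) : ℕ := if i = 2 then 3 else if i = 3 then 6 else i

theorem gX4_adm : gX4.adm gX4P = true := by decide

theorem gX4_lchk : Loc.lchk gX4 [(1, 5), (0, 6), (4, 10)] [] [] 4 = true := by decide

theorem gX4_echk : Loc.echkD gX4 [(1, 5), (0, 6), (4, 10)] [] [] [] [(5, 6, 3), (5, 6, 4), (6, 8, 3), (6, 8, 4)] 4 = true := by decide

theorem gX4_dchk : Loc.dchk gX4 [(1, 5), (0, 6), (4, 10)] [] [] [] 4 = true := by decide

theorem gX4_xchk : Loc.xchk gX4 [(1, 5), (0, 6), (4, 10)] [] [] [] [] 4 = true := by decide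

end Pool.Agent.Lib.SVY.LC
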