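import Pool.Agent.Lib.SVY.LocD

/-!
# SVY.LocData6: data of further local configurations

Generated.  The checks of the graphs, of the distinct pairs and of the excluded paths.
-/

set_option autoImplicit false
set_option linter.unusedSectionVars false
set_option maxRecDepth 100000

namespace Pool.Agent.Lib.SVY.LC

open Pool.Agent.Lib.SVX

/-- V-edge `x y`, triangles `x x2 wp`, `y A w`, `A` with the weak neighbours `n`, `u`, triangle `u e d`: new edges `w e`, `w d`; names: 0=v 1=x 2=y 3=A 4=u 5=x2 6=wp 7=z 8=w 9=n 10=e 11=d -/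
def gS11O : Cfg where
  nc := 5
  nt := 7
  E := [(0, 1), (0, 2), (0, 7), (1, 2), (1, 5), (1, 6), (2, 3), (2, 8), (3, 8), (3, 9), (3, 4), (4, 10), (4, 11)]
  Bs := [(5, 6), (10, 11)]
  outs := fun i => if i == 7 then 2 else 0
  sm := fun i => i == 7
  keep := []
  pi := fun i => if i = 3 then 8 else if i = 4 then 8 else i
  NE := [(8, 10), (8, 11)]
  al := [(8, 10, 1), (8, 10, 2), (8, 10, 3), (8, 10, 4), (8, 11, 1), (8, 11, 2), (8, 11, 3), (8, 11, 4), (10, 11, 2), (10, 11, 3)]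

def gS11OP (i : ℕ) : ℕ := if i = 3 then 8 else if i = 4 then 3 else i

theorem gS11O_adm : gS11O.adm gS11OP = true := by decide

theorem gS11O_lchk : Loc.lchk gS11O [(0, 7), (3, 9), (3, 4)] [(9, 4), (0, 3), (0, 8), (0, 5), (0, 6)] [] 3 = true := by decide

theorem gS11O_echk : Loc.echkD gS11O [(0, 7), (3, 9), (3, 4)] [(9, 4), (0, 3), (0, 8), (0, 5), (0, 6)] [] [(3, 4, 8)] [] 3 = true := by decide

theorem gS11O_dchk : Loc.dchk gS11O [(0, 7), (3, 9), (3, 4)] [(9, 4), (0, 3), (0, 8), (0, 5), (0, 6)] [(9, 4), (0, 3), (0, 8), (0, 5), (0, 6)] [(3, 4, 8)] 3 = true := by decide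

theorem gS11O_xchk : Loc.xchk gS11O [(0, 7), (3, 9), (3, 4)] [(9, 4), (0, 3), (0, 8), (0, 5), (0, 6)] [] [] [(3, 4, 8)] 3 = true := by decide

end Pool.Agent.Lib.SVY.LC
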