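import Pool.Agent.Lib.SVW.LocW
import Pool.Agent.Lib.SVY.FlexG

/-!
# SVY.LocF: reducible local configurations with flexible terminals

`Loc.cfalseF`: as `Loc.cfalseW`, with `ListOKF c fl`: the kept terminals `t` with `fl t = true` are
not paying vertices (small, `Ex2` or `ExK`) and lie in a triangle with two recoloured vertices.
`flchk`: the check that the weak neighbours of the flexible terminals are not adjacent to the
recoloured part and that different flexible terminals do not interfere; `ext c t`: the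
configuration with one more vertex adjacent to `t`.
-/

set_option autoImplicit false
set_option linter.unusedSectionVars false

namespace Pool.Agent.Lib.SVY

open Finset Pool.Agent.Lib.SVT Pool.Agent.Lib.SVX Pool.Agent.Lib.SVW

namespace Loc

/-- one more vertex `c.N`, adjacent to `t` -/
def ext (c : Cfg) (t : ℕ) : Cfg := { c with nt := c.nt + 1, Bs := (t, c.N) :: c.Bs }

/-- all names are names of the configuration -/
def bnd (c : Cfg) (s : List (ℕ × ℕ)) : Bool :=
  s.all (fun p => decide (p.1 < c.N) && decide (p.2 < c.N))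

/-- the flexible terminals -/
def flist (c : Cfg) (fl : ℕ → Bool) : List ℕ :=
  (List.range c.N).filter (fun t => c.isT t && !(c.sm t) && fl t)

/-- a triangle with two recoloured vertices -/
def triOK (c : Cfg) (t : ℕ) : Bool :=
  (List.range c.N).any (fun a => c.inH a && c.adjE t a && (List.range c.N).any (fun b =>
    c.inH b && c.adjE t b && c.adjE a b))

/-- a weak neighbour of `t` is different from `j` and not adjacent to `j` -/
def wOK (c : Cfg) (W D X : List (ℕ × ℕ)) (k t j : ℕ) : Bool :=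
  mem2 (iter (ext c t) ((t, c.N) :: W) k D) j c.N &&
    nadj (ext c t) ((t, c.N) :: W) X (iter (ext c t) ((t, c.N) :: W) k D) j c.N

/-- weak neighbours of `t` and `t'` are different and not adjacent -/
def wwOK (c : Cfg) (W D X : List (ℕ × ℕ)) (k t t' : ℕ) : Bool :=
  mem2 (iter (ext (ext c t) t') ((t', c.N + 1) :: (t, c.N) :: W) k D) c.N (c.N + 1) &&
    nadj (ext (ext c t) t') ((t', c.N + 1) :: (t, c.N) :: W) X
      (iter (ext (ext c t) t') ((t', c.N + 1) :: (t, c.N) :: W) k D) c.N (c.N + 1)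

/-- the check for the flexible terminals -/
def flchk (c : Cfg) (W D X : List (ℕ × ℕ)) (k : ℕ) (fl : ℕ → Bool) : Bool :=
  bnd c W && bnd c D && bnd c X && bnd c (c.E ++ c.Bs) &&
  (flist c fl).all (fun t => triOK c t && (List.range c.N).all (fun j => !(c.inH j) ||
    ((c.adjE j t || nadj c W X (iter c W k D) j t) && wOK c W D X k t j))) &&
  (flist c fl).all (fun t => (flist c fl).all (fun t' => decide (t' ≤ t) ||
    (nadj c W X (iter c W k D) t t' && wOK c W D X k t t' && wOK c W D X k t' t &&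
      wwOK c W D X k t t')))

variable {V : Type*} [Fintype V] [DecidableEq V] {G : SimpleGraph V} {B : Finset V}

theorem ext_N (c : Cfg) (t : ℕ) : (ext c t).N = c.N + 1 := rfl

theorem ext_adjE {c : Cfg} {t i j : ℕ} (h : (ext c t).adjE i j = true) :
    c.adjE i j = true ∨ (i = t ∧ j = c.N) ∨ (i = c.N ∧ j = t) := by
  unfold Cfg.adjE at h
  simp only [ext, Bool.or_eq_true, List.contains_iff_mem, List.mem_cons, Prod.mk.injEq] at h
  unfold Cfg.adjE
  simp only [Bool.or_eq_true, List.contains_iff_mem]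
  tauto

/-- the names with one more vertex -/
def upd (nm : ℕ → V) (N : ℕ) (n : V) : ℕ → V := fun i => if i = N then n else nm i

theorem upd_of {nm : ℕ → V} {N : ℕ} {n : V} {i : ℕ} (h : i < N) : upd nm N n i = nm i :=
  if_neg (by omega)

theorem upd_N {nm : ℕ → V} {N : ℕ} {n : V} : upd nm N n N = n := if_pos rfl

theorem bnd_mem {c : Cfg} {s : List (ℕ × ℕ)} (h : bnd c s = true) {p : ℕ × ℕ} (hp : p ∈ s) :
    p.1 < c.N ∧ p.2 < c.N := by
  unfold bnd at h
  rw [List.all_eq_true] at h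
  have h1 := h p hp
  rw [Bool.and_eq_true, decide_eq_true_eq, decide_eq_true_eq] at h1
  exact h1

theorem adjE_bnd {c : Cfg} (hE : ∀ p ∈ c.E ++ c.Bs, p.1 < c.N ∧ p.2 < c.N) {i j : ℕ}
    (h : c.adjE i j = true) : i < c.N ∧ j < c.N := by
  unfold Cfg.adjE at h
  simp only [Bool.or_eq_true, List.contains_iff_mem] at h
  rcases h with ((h | h) | h) | h
  · exact hE (i, j) (List.mem_append_left _ h)
  · exact (hE (j, i) (List.mem_append_left _ h)).symm
  · exact hE (i, j) (List.mem_append_right _ h)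
  · exact (hE (j, i) (List.mem_append_right _ h)).symm

theorem Facts.ext {c : Cfg} {W : List (ℕ × ℕ)} {nm : ℕ → V} (h : Facts c W G nm)
    (hE : ∀ p ∈ c.E ++ c.Bs, p.1 < c.N ∧ p.2 < c.N)
    (hb : ∀ p ∈ W, p.1 < c.N ∧ p.2 < c.N) {t : ℕ} (ht : t < c.N) {n : V}
    (hn : WE G (nm t) n) : Facts (Loc.ext c t) ((t, c.N) :: W) G (upd nm c.N n) := by
  refine ⟨h.c4, h.c5, ?_, ?_⟩
  · intro i j _ _ hij
    rcases ext_adjE hij with h1 | ⟨rfl, rfl⟩ | ⟨rfl, rfl⟩
    · obtain ⟨h2, h3⟩ := adjE_bnd hE h1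
      rw [upd_of h2, upd_of h3]
      exact h.edge i j h2 h3 h1
    · rw [upd_of ht, upd_N]
      exact hn.1
    · rw [upd_of ht, upd_N]
      exact hn.1.symm
  · intro p hp
    rw [List.mem_cons] at hp
    rcases hp with rfl | hp
    · show WE G (upd nm c.N n t) (upd nm c.N n c.N)
      rw [upd_of ht, upd_N]
      exact hn
    · obtain ⟨h1, h2⟩ := hb p hp
      rw [upd_of h1, upd_of h2]
      exact h.weak p hp

theorem DS.upd {nm : ℕ → V} {D : List (ℕ × ℕ)} {N : ℕ} (h : DS nm D)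
    (hb : ∀ p ∈ D, p.1 < N ∧ p.2 < N) (n : V) : DS (upd nm N n) D := by
  intro p hp
  obtain ⟨h1, h2⟩ := hb p hp
  rw [upd_of h1, upd_of h2]
  exact h p hp

theorem na_upd {nm : ℕ → V} {X : List (ℕ × ℕ)} {N : ℕ}
    (h : ∀ p ∈ X, ¬ G.Adj (nm p.1) (nm p.2)) (hb : ∀ p ∈ X, p.1 < N ∧ p.2 < N) (n : V) :
    ∀ p ∈ X, ¬ G.Adj (upd nm N n p.1) (upd nm N n p.2) := by
  intro p hp
  obtain ⟨h1, h2⟩ := hb p hp
  rw [upd_of h1, upd_of h2]
  exact h p hp

theorem wOK_sound {c : Cfg} {W D X : List (ℕ × ℕ)} {k t j : ℕ} {nm : ℕ → V}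
    (hf : Facts c W G nm) (hE : ∀ p ∈ c.E ++ c.Bs, p.1 < c.N ∧ p.2 < c.N)
    (hbW : ∀ p ∈ W, p.1 < c.N ∧ p.2 < c.N) (hbD : ∀ p ∈ D, p.1 < c.N ∧ p.2 < c.N)
    (hbX : ∀ p ∈ X, p.1 < c.N ∧ p.2 < c.N) (hD : DS nm D)
    (hX : ∀ p ∈ X, ¬ G.Adj (nm p.1) (nm p.2)) (ht : t < c.N) (hj : j < c.N)
    (hr : wOK c W D X k t j = true) {n : V} (hn : WE G (nm t) n) :
    nm j ≠ n ∧ ¬ G.Adj (nm j) n := by
  unfold wOK at hr
  rw [Bool.and_eq_true] at hr
  have f1 := hf.ext hE hbW ht hn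
  have s1 := DS.iter f1 k (hD.upd hbD n)
  have h1 := s1.ne hr.1
  have h2 := nadj_na f1 s1 (na_upd hX hbX n) (by rw [ext_N]; omega) (by rw [ext_N]; omega) hr.2
  rw [upd_of hj, upd_N] at h1 h2
  exact ⟨h1, h2⟩

theorem wwOK_sound {c : Cfg} {W D X : List (ℕ × ℕ)} {k t t' : ℕ} {nm : ℕ → V}
    (hf : Facts c W G nm) (hE : ∀ p ∈ c.E ++ c.Bs, p.1 < c.N ∧ p.2 < c.N)
    (hbW : ∀ p ∈ W, p.1 < c.N ∧ p.2 < c.N) (hbD : ∀ p ∈ D, p.1 < c.N ∧ p.2 < c.N)
    (hbX : ∀ p ∈ X, p.1 < c.N ∧ p.2 < c.N) (hD : DS nm D)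
    (hX : ∀ p ∈ X, ¬ G.Adj (nm p.1) (nm p.2)) (ht : t < c.N) (ht' : t' < c.N)
    (hr : wwOK c W D X k t t' = true) {n n' : V} (hn : WE G (nm t) n) (hn' : WE G (nm t') n') :
    n ≠ n' ∧ ¬ G.Adj n n' := by
  unfold wwOK at hr
  rw [Bool.and_eq_true] at hr
  have l1 : ∀ {s : List (ℕ × ℕ)}, (∀ p ∈ s, p.1 < c.N ∧ p.2 < c.N) →
      ∀ p ∈ s, p.1 < c.N + 1 ∧ p.2 < c.N + 1 := by
    intro s hs p hp
    obtain ⟨h1, h2⟩ := hs p hp
    exact ⟨by omega, by omega⟩
  have f1 := hf.ext hE hbW ht hn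
  have hE1 : ∀ p ∈ (Loc.ext c t).E ++ (Loc.ext c t).Bs,
      p.1 < (Loc.ext c t).N ∧ p.2 < (Loc.ext c t).N := by
    intro p hp
    rw [ext_N]
    rw [List.mem_append] at hp
    rcases hp with hp | hp
    · exact l1 hE p (List.mem_append_left _ hp)
    · change p ∈ (t, c.N) :: c.Bs at hp
      rw [List.mem_cons] at hp
      rcases hp with rfl | hp
      · exact ⟨by omega, by omega⟩
      · exact l1 hE p (List.mem_append_right _ hp)
  have hW1 : ∀ p ∈ (t, c.N) :: W, p.1 < (Loc.ext c t).N ∧ p.2 < (Loc.ext c t).N := by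
    intro p hp
    rw [ext_N]
    rw [List.mem_cons] at hp
    rcases hp with rfl | hp
    · exact ⟨by omega, by omega⟩
    · exact l1 hbW p hp
  have hn1 : WE G (upd nm c.N n t') n' := by
    rw [upd_of ht']
    exact hn'
  have f2 := f1.ext hE1 hW1 (t := t') (by rw [ext_N]; omega) hn1
  rw [ext_N] at f2
  have s2 := DS.iter f2 k ((hD.upd hbD n).upd (l1 hbD) n')
  have h1 := s2.ne hr.1
  have h2 := nadj_na f2 s2 (na_upd (na_upd hX hbX n) (l1 hbX) n')
    (by rw [ext_N, ext_N]; omega) (by rw [ext_N, ext_N]; omega) hr.2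
  have e1 : upd (upd nm c.N n) (c.N + 1) n' c.N = n := by
    rw [upd_of (by omega), upd_N]
  have e2 : upd (upd nm c.N n) (c.N + 1) n' (c.N + 1) = n' := upd_N
  rw [e1, e2] at h1 h2
  exact ⟨h1, h2⟩

/-- a reducible small configuration with flexible terminals -/
theorem cfalseF {m : ℕ} {F : Fin m → Finset (Sym2 V)}
    {c : Cfg} {par : ℕ → ℕ} {W D X : List (ℕ × ℕ)} {NC : List (ℕ × ℕ × ℕ)} {k : ℕ}
    {fl : ℕ → Bool} {nm : ℕ → V} (hadm : c.adm par = true) (hchk : lchk c W D X k = true)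
    (hech : echk c W D X NC k = true) (hfc : flchk c W D X k fl = true) (hl : c.ListOKF fl)
    (h : MinCE G B) (hF : Faces G F)
    (hE : ∀ e ∈ c.E ++ c.Bs, G.Adj (nm e.1) (nm e.2)) (hW : ∀ p ∈ W, WE G (nm p.1) (nm p.2))
    (hD : ∀ p ∈ D, nm p.1 ≠ nm p.2) (hX : ∀ p ∈ X, ¬ G.Adj (nm p.1) (nm p.2))
    (hNC : ∀ t ∈ NC, ¬ Corner F (nm t.1) (nm t.2.1) (nm t.2.2))
    (hH : ∀ i ∈ hlist c, nm i ∉ B ∧ dg G (nm i) ≤ SVW.Loc.dmaxW c i)
    (hnp : ∀ t ∈ flist c fl, ¬ Np G B (nm t)) : False := by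
  have hedge : ∀ i j, i < c.N → j < c.N → c.adjE i j = true → G.Adj (nm i) (nm j) := by
    intro i j _ _ hij
    unfold Cfg.adjE at hij
    simp only [Bool.or_eq_true, List.contains_iff_mem] at hij
    rcases hij with ((h1 | h1) | h1) | h1
    · exact hE (i, j) (List.mem_append_left _ h1)
    · exact (hE (j, i) (List.mem_append_left _ h1)).symm
    · exact hE (i, j) (List.mem_append_right _ h1)
    · exact (hE (j, i) (List.mem_append_right _ h1)).symm
  have hf : Facts c W G nm := ⟨h.good.c4, h.good.c5, hedge, hW⟩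
  have hDS : DS nm D := hD
  have hcN : ∀ r, r < c.nc → r < c.N := fun r hr => Nat.lt_of_lt_of_le hr (Nat.le_add_right _ _)
  have hcard : ∀ (p : ℕ → Bool), ((List.range c.N).filter p).length =
      ((Finset.range c.N).filter (fun j => p j = true)).card := by
    intro p
    rw [← List.toFinset_card_of_nodup (List.nodup_range.filter p)]
    congr 1
    ext a
    simp
  have hdeg : ∀ i, i < c.N → c.inH i = true →
      nm i ∉ B ∧ dg G (nm i) ≤ c.outs i + (nn c i).card := by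
    intro i hi hiH
    have h1 := hH i (List.mem_filter.2 ⟨List.mem_range.2 hi, hiH⟩)
    have h2 := h1.2
    unfold SVW.Loc.dmaxW at h2
    rw [hcard] at h2
    exact ⟨h1.1, h2⟩
  have hcH : ∀ r, r < c.nc → c.inH r = true := by
    intro r hr
    unfold Cfg.inH
    rw [Bool.or_eq_true]
    exact Or.inl (decide_eq_true hr)
  -- injectivity
  have hchk' := hchk
  unfold lchk at hchk'
  rw [Bool.and_eq_true, List.all_eq_true, List.all_eq_true] at hchk'
  have hs := DS.iter hf k hDS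
  have hne : ∀ i j, j < i → i < c.N → nm j ≠ nm i := by
    intro i j hji hi
    have h3 := hchk'.1 i (List.mem_range.2 hi)
    rw [List.all_eq_true] at h3
    exact hs.ne (h3 j (List.mem_range.2 hji))
  have hinj : ∀ i j, i < c.N → j < c.N → nm i = nm j → i = j := by
    intro i j hi hj hij
    rcases lt_trichotomy i j with hlt | heq | hlt
    · exact absurd hij (hne j i hlt hj)
    · exact heq
    · exact absurd hij.symm (hne i j hlt hi)
  have hdegc : ∀ r, r < c.nc → dg G (nm r) ≤ c.outs r + (nn c r).card :=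
    fun r hr => (hdeg r (hcN r hr) (hcH r hr)).2
  have hin : InstW c G B nm := by
    refine SVW.Loc.instW hchk hf hDS hX hdeg ?_
    intro i j l _ _ _ hex
    unfold echk at hech
    rw [List.all_eq_true] at hech
    unfold Cfg.excl at hex
    rw [Bool.or_eq_true, List.contains_iff_mem, List.contains_iff_mem] at hex
    rcases hex with hex | hex
    · have h1 := hech _ hex
      rw [Bool.and_eq_true, Bool.and_eq_true, decide_eq_true_eq, decide_eq_true_eq] at h1
      exact ech1_exc h hF hf hs hX hdegc hinj hNC h1.1.1 h1.1.2 h1.2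
    · have h1 := hech _ hex
      rw [Bool.and_eq_true, Bool.and_eq_true, decide_eq_true_eq, decide_eq_true_eq] at h1
      exact fun h' => ech1_exc h hF hf hs hX hdegc hinj hNC h1.1.1 h1.1.2 h1.2 (opathSymm h')
  -- the flexible terminals
  unfold flchk at hfc
  simp only [Bool.and_eq_true] at hfc
  obtain ⟨⟨⟨⟨⟨b1, b2⟩, b3⟩, b4⟩, hfc1⟩, hfc2⟩ := hfc
  have hbW : ∀ p ∈ W, p.1 < c.N ∧ p.2 < c.N := fun p hp => bnd_mem b1 hp
  have hbD : ∀ p ∈ D, p.1 < c.N ∧ p.2 < c.N := fun p hp => bnd_mem b2 hp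
  have hbX : ∀ p ∈ X, p.1 < c.N ∧ p.2 < c.N := fun p hp => bnd_mem b3 hp
  have hbE : ∀ p ∈ c.E ++ c.Bs, p.1 < c.N ∧ p.2 < c.N := fun p hp => bnd_mem b4 hp
  have hfm : ∀ t, isFl c fl t → t < c.N ∧ t ∈ flist c fl := by
    rintro t ⟨h1, h2, h3⟩
    have h4 : t < c.N := by
      unfold Cfg.isT at h1
      rw [Bool.and_eq_true, decide_eq_true_eq, decide_eq_true_eq] at h1
      exact h1.2
    refine ⟨h4, List.mem_filter.2 ⟨List.mem_range.2 h4, ?_⟩⟩
    rw [h1, h2, h3]
    rfl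
  rw [List.all_eq_true] at hfc1 hfc2
  have hone : ∀ t, isFl c fl t → triOK c t = true ∧ ∀ j, j < c.N → c.inH j = true →
      (c.adjE j t = true ∨ nadj c W X (iter c W k D) j t = true) ∧
        wOK c W D X k t j = true := by
    intro t ht
    have h1 := hfc1 t (hfm t ht).2
    rw [Bool.and_eq_true, List.all_eq_true] at h1
    refine ⟨h1.1, fun j hj hjH => ?_⟩
    have h2 := h1.2 j (List.mem_range.2 hj)
    rw [hjH, Bool.not_true, Bool.false_or, Bool.and_eq_true, Bool.or_eq_true] at h2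
    exact h2
  have htH : ∀ t, isFl c fl t → c.inH t ≠ true := by
    rintro t ⟨h1, h2, h3⟩ h4
    unfold Cfg.inH at h4
    rw [h1, h2] at h4
    unfold Cfg.isT at h1
    rw [Bool.and_eq_true, decide_eq_true_eq, decide_eq_true_eq] at h1
    simp only [Bool.and_false, Bool.or_false, decide_eq_true_eq] at h4
    omega
  have hsep : ∀ t, isFl c fl t → ∀ n, WE G (nm t) n → ∀ j, j < c.N → c.inH j = true →
      nm j ≠ n ∧ ¬ G.Adj (nm j) n := by
    intro t ht n hn j hj hjH
    exact wOK_sound hf hbE hbW hbD hbX hDS hX (hfm t ht).1 hj ((hone t ht).2 j hj hjH).2 hn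
  have hpair : ∀ t t', isFl c fl t → isFl c fl t' → t < t' → ∀ u ∈ chg G B (nm t),
      ∀ v ∈ chg G B (nm t'), u ≠ v ∧ ¬ G.Adj u v := by
    intro t t' ht ht' hlt u hu v hv
    have h1 := hfc2 t (hfm t ht).2
    rw [List.all_eq_true] at h1
    have h2 := h1 t' (hfm t' ht').2
    rw [Bool.or_eq_true, decide_eq_true_eq] at h2
    have h3 := h2.resolve_left (by omega)
    rw [Bool.and_eq_true, Bool.and_eq_true, Bool.and_eq_true] at h3
    obtain ⟨⟨⟨q1, q2⟩, q3⟩, q4⟩ := h3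
    have n1 := (hfm t ht).1
    have n2 := (hfm t' ht').1
    rcases hu with rfl | ⟨-, hu⟩
    · rcases hv with rfl | ⟨-, hv⟩
      · refine ⟨fun he => ?_, nadj_na hf hs hX n1 n2 q1⟩
        have := hinj t t' n1 n2 he
        omega
      · exact wOK_sound hf hbE hbW hbD hbX hDS hX n2 n1 q3 hv
    · rcases hv with rfl | ⟨-, hv⟩
      · obtain ⟨p1, p2⟩ := wOK_sound hf hbE hbW hbD hbX hDS hX n1 n2 q2 hu
        exact ⟨p1.symm, fun h' => p2 h'.symm⟩
      · exact wwOK_sound hf hbE hbW hbD hbX hDS hX n1 n2 q4 hu hv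
  refine cfg_falseG (C := fun t => chg G B (nm t)) hadm hl h hin ?_ ?_ ?_
  · intro t ht j hj hjH hadj
    rcases ((hone t ht).2 j hj hjH).1 with h1 | h1
    · exact h1
    · exact absurd hadj (nadj_na hf hs hX hj (hfm t ht).1 h1)
  · intro t ht
    refine np_flexC h ?_ (hnp t (hfm t ht).2) ?_ ?_ ?_
    · rintro v ⟨r, hr, rfl⟩
      exact ⟨r, hcN r hr, hcH r hr, rfl⟩
    · rintro ⟨j, hj, hjH, he⟩
      have h1 := hinj t j (hfm t ht).1 hj he
      rw [← h1] at hjH
      exact htH t ht hjH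
    · have h1 := (hone t ht).1
      unfold triOK at h1
      simp only [List.any_eq_true, Bool.and_eq_true, List.mem_range] at h1
      obtain ⟨a, ha, ⟨haH, hta⟩, b, hb, ⟨hbH, htb⟩, hab⟩ := h1
      exact ⟨nm a, nm b, ⟨a, ha, haH, rfl⟩, ⟨b, hb, hbH, rfl⟩,
        hedge t a (hfm t ht).1 ha hta, hedge t b (hfm t ht).1 hb htb, hedge a b ha hb hab⟩
    · intro n hn
      refine ⟨?_, ?_⟩
      · rintro ⟨j, hj, hjH, he⟩
        exact (hsep t ht n hn j hj hjH).1 he.symm
      · rintro w ⟨j, hj, hjH, rfl⟩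
        exact (hsep t ht n hn j hj hjH).2
  · intro t t' ht ht' hne u hu v hv
    rcases lt_or_gt_of_ne hne with hlt | hlt
    · exact hpair t t' ht ht' hlt u hu v hv
    · obtain ⟨p1, p2⟩ := hpair t' t ht' ht hlt v hv u hu
      exact ⟨p1.symm, fun h' => p2 h'.symm⟩

end Loc

end Pool.Agent.Lib.SVY
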