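import Pool.Agent.Lib.SVY.LocData
import Pool.Agent.Lib.SVX.Chk

/-!
# SVY.LocL1: the list statements

Generated.
-/

set_option autoImplicit false
set_option linter.unusedSectionVars false
set_option maxRecDepth 100000

namespace Pool.Agent.Lib.SVY.LC

open Pool.Agent.Lib.SVX Pool.Agent.Lib.SVX.Chk

def gG3_l : List St :=
  [.par 3 2 [],
   .par 3 3 [],
   .vf ⟨0, false, [], [(2, true, []), (3, true, [])]⟩,
   .par 3 4 [],
   .tr 0 1 ⟨4, true, [], []⟩,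
   .par 3 5 [],
   .par 2 6 [],
   .vf ⟨1, false, [6], [(5, true, [])]⟩]

def gG4_l : List St :=
  [.par 3 3 [],
   .par 3 4 [],
   .vf ⟨0, false, [], [(3, true, []), (4, true, [])]⟩,
   .par 3 5 [],
   .tr 0 1 ⟨5, true, [], []⟩,
   .par 2 6 [],
   .vf ⟨1, false, [6], []⟩,
   .ed 1 2,
   .par 2 7 [],
   .vf ⟨2, false, [6, 7], []⟩]

def gG1_l : List St :=
  [.par 2 4 [],
   .vf ⟨0, false, [4], []⟩,
   .par 3 5 [],
   .tr 0 1 ⟨5, true, [], []⟩,
   .par 2 6 [4],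
   .vf ⟨1, false, [6], []⟩,
   .ed 1 2,
   .par 2 7 [],
   .vf ⟨2, false, [6, 7], []⟩,
   .ed 2 3,
   .par 3 8 [],
   .vf ⟨3, false, [7], [(8, true, [])]⟩]

def gG2_l : List St :=
  [.par 2 3 [],
   .par 2 4 [],
   .vf ⟨0, false, [3, 4], []⟩,
   .ed 0 1,
   .vf ⟨1, false, [4], []⟩,
   .par 3 5 [],
   .tr 1 2 ⟨5, true, [], []⟩,
   .par 5 7 [],
   .tr 2 6 ⟨7, true, [], []⟩,
   .par 3 6 [],
   .vf ⟨6, true, [], []⟩]

/-- all checks, one after the other -/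
theorem locl1_seq :
    (chkPath (ofCfg gG3) gG3_l [(6, 2, []), (3, 1, [6])] 0 = true) ∧
    (chkPath (ofCfg gG4) gG4_l [(6, 2, []), (4, 1, [6])] 0 = true) ∧
    (chkPath (ofCfg gG1) gG1_l [(4, 2, []), (6, 2, [4])] 0 = true) ∧
    (chkPath (ofCfg gG2) gG2_l [(3, 2, []), (5, 1, [3])] 0 = true) :=
  ⟨(by
  decide +kernel),
  (by
  decide +kernel),
  (by
  decide +kernel),
  (by
  decide +kernel)⟩

theorem gG3_chk : chkPath (ofCfg gG3) gG3_l [(6, 2, []), (3, 1, [6])] 0 = true := locl1_seq.1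

theorem gG4_chk : chkPath (ofCfg gG4) gG4_l [(6, 2, []), (4, 1, [6])] 0 = true := locl1_seq.2.1

theorem gG1_chk : chkPath (ofCfg gG1) gG1_l [(4, 2, []), (6, 2, [4])] 0 = true := locl1_seq.2.2.1

theorem gG2_chk : chkPath (ofCfg gG2) gG2_l [(3, 2, []), (5, 1, [3])] 0 = true := locl1_seq.2.2.2

theorem gG3_list : gG3.ListOK := chkPath_cfg gG3_chk

theorem gG4_list : gG4.ListOK := chkPath_cfg gG4_chk

theorem gG1_list : gG1.ListOK := chkPath_cfg gG1_chk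

theorem gG2_list : gG2.ListOK := chkPath_cfg gG2_chk

end Pool.Agent.Lib.SVY.LC
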