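import Pool.Agent.Lib.SVY.LocData
import Pool.Agent.Lib.SVX.Chk

/-!
# SVY.LocL3: the list statements

Generated.
-/

set_option autoImplicit false
set_option linter.unusedSectionVars false
set_option maxRecDepth 100000

namespace Pool.Agent.Lib.SVY.LC

open Pool.Agent.Lib.SVX Pool.Agent.Lib.SVX.Chk

def gG7_l : List St :=
  [.par 3 4 [],
   .par 2 5 [],
   .vf ⟨0, false, [5], [(4, true, [])]⟩,
   .par 3 6 [],
   .tr 0 1 ⟨6, true, [], []⟩,
   .par 2 7 [5],
   .vf ⟨1, false, [7], []⟩,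
   .ed 1 2,
   .vf ⟨2, false, [7], []⟩,
   .par 3 9 [],
   .tr 2 8 ⟨3, false, [], [(9, true, [])]⟩,
   .par 3 8 [],
   .vf ⟨8, true, [], []⟩]

theorem gG7_chk : chkPath (ofCfg gG7) gG7_l [(5, 2, []), (7, 2, [5]), (4, 1, [7])] 0 = true := by
  decide +kernel

theorem gG7_list : gG7.ListOK := chkPath_cfg gG7_chk

end Pool.Agent.Lib.SVY.LC
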