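import Pool.Agent.Lib.SVX.ChkD
import Pool.Agent.Lib.SVY.LocData

/-!
# SVY.LocL7: `ListOK` of the configurations (kernel check)
-/

set_option autoImplicit false
set_option maxRecDepth 100000

namespace Pool.Agent.Lib.SVY.LC

open Pool.Agent.Lib.SVX

/-- left strip of `gN1Y` -/
def gN1Y_l : List Chk.St := [.par 3 4 [], .tr 0 2 ⟨4, true, [], []⟩, .par 2 10 [], .par 3 9 [], .tr 2 1 ⟨3, false, [10], [(9, true, [])]⟩, .par 2 6 [], .par 2 7 [6], .vf ⟨1, false, [6, 7], []⟩]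

/-- right strip of `gN1Y` -/
def gN1Y_r : List Chk.St := [.vf ⟨0, false, [], [(5, true, [])]⟩, .ed 0 11, .ed 11 8, .par 3 8 [], .vf ⟨8, true, [], []⟩, .ed 8 1]

/-- nodes of `gN1Y` -/
def gN1Y_n : List (ℕ × ℕ × List ℕ) := [(6, 2, []), (10, 2, [6]), (7, 2, [10]), (8, 1, [10])]

/-- all checks, one after the other -/
theorem locl7_seq :
    (Chk.ringP gN1Y_l 5 gN1Y_r gN1Y_n [7, 11, 13, 14, 19, 21] = true) ∧
    (Chk.ringP gN1Y_l 5 gN1Y_r gN1Y_n [22, 25, 26, 28, 35, 37] = true) ∧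
    (Chk.ringP gN1Y_l 5 gN1Y_r gN1Y_n [38, 41, 42, 44, 49, 50] = true) ∧
    (Chk.ringP gN1Y_l 5 gN1Y_r gN1Y_n [52, 56, 67, 69, 70, 73] = true) ∧
    (Chk.ringP gN1Y_l 5 gN1Y_r gN1Y_n [74, 76, 81, 82, 84, 88] = true) ∧
    (Chk.ringP gN1Y_l 5 gN1Y_r gN1Y_n [97, 98, 100, 104, 112] = true) :=
  ⟨(by decide +kernel),
  (by decide +kernel),
  (by decide +kernel),
  (by decide +kernel),
  (by decide +kernel),
  (by decide +kernel)⟩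

theorem gN1Y_p0 : Chk.ringP gN1Y_l 5 gN1Y_r gN1Y_n [7, 11, 13, 14, 19, 21] = true := locl7_seq.1

theorem gN1Y_p1 : Chk.ringP gN1Y_l 5 gN1Y_r gN1Y_n [22, 25, 26, 28, 35, 37] = true := locl7_seq.2.1

theorem gN1Y_p2 : Chk.ringP gN1Y_l 5 gN1Y_r gN1Y_n [38, 41, 42, 44, 49, 50] = true := locl7_seq.2.2.1

theorem gN1Y_p3 : Chk.ringP gN1Y_l 5 gN1Y_r gN1Y_n [52, 56, 67, 69, 70, 73] = true := locl7_seq.2.2.2.1

theorem gN1Y_p4 : Chk.ringP gN1Y_l 5 gN1Y_r gN1Y_n [74, 76, 81, 82, 84, 88] = true := locl7_seq.2.2.2.2.1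

theorem gN1Y_p5 : Chk.ringP gN1Y_l 5 gN1Y_r gN1Y_n [97, 98, 100, 104, 112] = true := locl7_seq.2.2.2.2.2

theorem gN1Y_ok : gN1Y.ListOK := Chk.ringP_cfgZ (a := 0) (b := 8) (u0 := 0) (s := 3) (dis := [])
  (by decide +kernel) (by decide +kernel)
  (Chk.AllP_cons gN1Y_p0 (Chk.AllP_cons gN1Y_p1 (Chk.AllP_cons gN1Y_p2 (Chk.AllP_cons gN1Y_p3 (Chk.AllP_cons gN1Y_p4 (Chk.AllP_cons gN1Y_p5 Chk.AllP_nil))))))

end Pool.Agent.Lib.SVY.LC
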