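import Pool.Agent.Lib.SVW.ChkN
import Pool.Agent.Lib.SVY.LocData2

/-!
# SVY.LocOk2: `ListOK` of the configurations (kernel check)
-/

set_option autoImplicit false
set_option maxRecDepth 100000

namespace Pool.Agent.Lib.SVY.LC

open Pool.Agent.Lib.SVX

/-- left strip of `gQK` -/
def gQK_sl : List Chk.St := [.ed 3 4, .par 3 4 [], .vf ⟨4, true, [], []⟩, .ed 4 8, .ed 8 1, .par 3 5 [], .par 3 6 [], .par 3 7 [], .vf ⟨1, false, [], [(5, true, []), (6, true, []), (7, true, [])]⟩]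

/-- right strip of `gQK` -/
def gQK_sr : List Chk.St := [.vf ⟨3, true, [], []⟩, .ed 3 0, .par 2 2 [], .tr 0 1 ⟨2, true, [], []⟩]

/-- nodes of `gQK` -/
def gQK_sn : List (ℕ × ℕ × List ℕ) := [(3, 1, []), (4, 1, [3])]

/-- all checks, one after the other -/
theorem locok2_seq :
    (gCC.ListOK) ∧
    (gPK.ListOK) ∧
    (Chk.ringPM gQK_sl 3 gQK_sr gQK_sn 4 0 [7] = true) ∧
    (Chk.ringPM gQK_sl 3 gQK_sr gQK_sn 4 1 [7] = true) ∧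
    (Chk.ringPM gQK_sl 3 gQK_sr gQK_sn 4 2 [7] = true) ∧
    (Chk.ringPM gQK_sl 3 gQK_sr gQK_sn 4 3 [7] = true) ∧
    (Chk.ringPM gQK_sl 3 gQK_sr gQK_sn 4 4 [7] = true) ∧
    (Chk.ringPM gQK_sl 3 gQK_sr gQK_sn 0 0 [11, 13, 14, 19, 21, 22, 25, 26, 28, 35, 37, 38, 41, 42, 44, 49, 50, 52, 56, 67, 69, 70, 73, 74, 76, 81, 82, 84, 88, 97, 98, 100, 104, 112] = true) ∧
    (gM5.ListOK) ∧
    (gQ16.ListOK) ∧
    (gA18.ListOK) ∧
    (gA19.ListOK) ∧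
    (gSB.ListOK) :=
  ⟨(Chk.ringD_cfgZ (a := 0) (b := 1)
  (l := [.par 3 3 [], .par 3 4 [], .vf ⟨0, false, [], [(3, true, []), (4, true, [])]⟩, .ed 0 7, .ed 7 1, .par 3 5 [], .par 3 6 [], .vf ⟨1, false, [], [(5, true, []), (6, true, [])]⟩])
  (r := [.par 2 2 [], .tr 0 1 ⟨2, true, [], []⟩])
  (nodes := [])
  (u0 := 0) (by decide +kernel)),
  (Chk.ringD_cfgZ (a := 0) (b := 4)
  (l := [.par 3 3 [], .vf ⟨0, false, [], [(3, true, [])]⟩, .par 2 2 [], .tr 0 1 ⟨2, true, [], []⟩, .par 3 5 [], .par 3 6 [], .vf ⟨1, false, [], [(5, true, []), (6, true, [])]⟩])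
  (r := [.ed 0 7, .ed 7 4, .par 3 4 [], .vf ⟨4, true, [], []⟩, .ed 4 1])
  (nodes := [])
  (u0 := 0) (by decide +kernel)),
  (by decide +kernel),
  (by decide +kernel),
  (by decide +kernel),
  (by decide +kernel),
  (by decide +kernel),
  (by decide +kernel),
  (Chk.ringD_cfgZ (a := 0) (b := 2)
  (l := [.par 2 4 [], .tr 1 0 ⟨4, true, [], []⟩, .par 3 3 [], .vf ⟨0, false, [], [(3, true, [])]⟩, .ed 0 8, .ed 8 2, .par 3 5 [], .par 3 6 [], .vf ⟨2, false, [], [(5, true, []), (6, true, [])]⟩])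
  (r := [.par 2 7 [], .tr 1 2 ⟨7, true, [], []⟩])
  (nodes := [(4, 2, []), (6, 1, [4])])
  (u0 := 1) (by decide +kernel)),
  (Chk.ringD_cfgZ (a := 0) (b := 2)
  (l := [.par 3 4 [], .tr 1 0 ⟨4, true, [], []⟩, .par 2 3 [], .vf ⟨0, false, [3], []⟩, .ed 0 8, .ed 8 2, .par 3 5 [], .par 3 6 [], .vf ⟨2, false, [], [(5, true, []), (6, true, [])]⟩])
  (r := [.par 2 7 [], .tr 1 2 ⟨7, true, [], []⟩])
  (nodes := [(3, 2, []), (7, 2, []), (0, 0, [3]), (1, 0, [0, 7]), (4, 1, [0, 1])])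
  (u0 := 1) (by decide +kernel)),
  (Chk.ringD_cfgZ (a := 0) (b := 2)
  (l := [.par 3 4 [], .par 3 5 [], .vf ⟨2, false, [], [(4, true, []), (5, true, [])]⟩, .par 2 6 [], .tr 2 1 ⟨6, true, [], []⟩, .par 3 3 [], .tr 1 0 ⟨3, true, [], []⟩])
  (r := [.ed 2 9, .ed 9 0, .par 3 7 [], .par 3 8 [], .vf ⟨0, false, [], [(7, true, []), (8, true, [])]⟩])
  (nodes := [(6, 2, []), (8, 1, [6])])
  (u0 := 2) (by decide +kernel)),
  (Chk.ringD_cfgZ (a := 0) (b := 2)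
  (l := [.par 3 2 [], .vf ⟨2, true, [], []⟩, .par 3 5 [], .par 3 6 [], .par 3 7 [], .tr 2 0 ⟨1, false, [], [(5, true, []), (6, true, []), (7, true, [])]⟩])
  (r := [.ed 2 8, .ed 8 0, .par 3 3 [], .par 3 4 [], .vf ⟨0, false, [], [(3, true, []), (4, true, [])]⟩])
  (nodes := [])
  (u0 := 2) (by decide +kernel)),
  (Chk.ringD_cfgZ (a := 0) (b := 3)
  (l := [.par 2 7 [], .tr 1 2 ⟨7, true, [], []⟩, .par 2 5 [], .tr 2 3 ⟨5, true, [], []⟩, .par 3 6 [], .vf ⟨3, false, [], [(6, true, [])]⟩, .ed 3 9, .ed 9 0, .par 3 4 [], .vf ⟨0, false, [], [(4, true, [])]⟩])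
  (r := [.par 2 8 [], .tr 1 0 ⟨8, true, [], []⟩])
  (nodes := [(8, 2, []), (5, 2, [8]), (3, 0, [5, 8]), (6, 1, [3])])
  (u0 := 1) (by decide +kernel))⟩

theorem gCC_ok : gCC.ListOK := locok2_seq.1

theorem gPK_ok : gPK.ListOK := locok2_seq.2.1

theorem gQK_p0_0 : Chk.ringPM gQK_sl 3 gQK_sr gQK_sn 4 0 [7] = true := locok2_seq.2.2.1

theorem gQK_p0_1 : Chk.ringPM gQK_sl 3 gQK_sr gQK_sn 4 1 [7] = true := locok2_seq.2.2.2.1

theorem gQK_p0_2 : Chk.ringPM gQK_sl 3 gQK_sr gQK_sn 4 2 [7] = true := locok2_seq.2.2.2.2.1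

theorem gQK_p0_3 : Chk.ringPM gQK_sl 3 gQK_sr gQK_sn 4 3 [7] = true := locok2_seq.2.2.2.2.2.1

theorem gQK_p0_4 : Chk.ringPM gQK_sl 3 gQK_sr gQK_sn 4 4 [7] = true := locok2_seq.2.2.2.2.2.2.1

theorem gQK_p1 : Chk.ringPM gQK_sl 3 gQK_sr gQK_sn 0 0 [11, 13, 14, 19, 21, 22, 25, 26, 28, 35, 37, 38, 41, 42, 44, 49, 50, 52, 56, 67, 69, 70, 73, 74, 76, 81, 82, 84, 88, 97, 98, 100, 104, 112] = true := locok2_seq.2.2.2.2.2.2.2.1

theorem gM5_ok : gM5.ListOK := locok2_seq.2.2.2.2.2.2.2.2.1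

theorem gQ16_ok : gQ16.ListOK := locok2_seq.2.2.2.2.2.2.2.2.2.1

theorem gA18_ok : gA18.ListOK := locok2_seq.2.2.2.2.2.2.2.2.2.2.1

theorem gA19_ok : gA19.ListOK := locok2_seq.2.2.2.2.2.2.2.2.2.2.2.1

theorem gSB_ok : gSB.ListOK := locok2_seq.2.2.2.2.2.2.2.2.2.2.2.2

theorem gQK_ok : gQK.ListOK := Chk.ringPM_cfgZ (a := 1) (b := 4) (u0 := 3) (s := 3) (dis := [])
  (oss := [([7], 4), ([11, 13, 14, 19, 21, 22, 25, 26, 28, 35, 37, 38, 41, 42, 44, 49, 50, 52, 56, 67, 69, 70, 73, 74, 76, 81, 82, 84, 88, 97, 98, 100, 104, 112], 0)])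
  (by decide +kernel) (by decide +kernel)
  (Chk.AllM_cons (Chk.AllJ_succ (Chk.AllJ_succ (Chk.AllJ_succ (Chk.AllJ_succ (Chk.AllJ_zero gQK_p0_0) gQK_p0_1) gQK_p0_2) gQK_p0_3) gQK_p0_4)
    (Chk.AllM_cons (Chk.AllJ_zero gQK_p1) Chk.AllM_nil))

end Pool.Agent.Lib.SVY.LC
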