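import Pool.Agent.Lib.SVX.ChkD
import Pool.Agent.Lib.SVY.LocData3

/-!
# SVY.LocOk3: `ListOK` of the configurations (kernel check)
-/

set_option autoImplicit false
set_option maxRecDepth 100000

namespace Pool.Agent.Lib.SVY.LC

open Pool.Agent.Lib.SVX

/-- left strip of `gS7` -/
def gS7_sl : List Chk.St := [.par 2 8 [], .tr 3 2 ⟨8, true, [], []⟩, .par 3 7 [], .tr 2 1 ⟨0, false, [], [(7, true, [])]⟩, .par 2 5 [], .par 2 6 [5], .vf ⟨1, false, [5, 6], []⟩, .ed 1 12, .ed 12 10, .par 3 10 [], .vf ⟨10, true, [], []⟩]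

/-- right strip of `gS7` -/
def gS7_sr : List Chk.St := [.tr 3 4 ⟨11, true, [], []⟩, .ed 4 9, .par 3 9 [], .vf ⟨9, true, [], []⟩, .ed 9 10]

/-- nodes of `gS7` -/
def gS7_sn : List (ℕ × ℕ × List ℕ) := [(5, 2, []), (8, 2, [5]), (6, 2, [8]), (9, 1, []), (10, 1, [9])]

/-- all checks, one after the other -/
theorem locok3_seq :
    (Chk.ringP gS7_sl 11 gS7_sr gS7_sn [3, 5, 6, 9, 10, 12] = true) ∧
    (Chk.ringP gS7_sl 11 gS7_sr gS7_sn [17, 18, 20, 24, 33, 34] = true) ∧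
    (Chk.ringP gS7_sl 11 gS7_sr gS7_sn [36, 40, 48, 65, 66, 68] = true) ∧
    (Chk.ringP gS7_sl 11 gS7_sr gS7_sn [72, 80, 96] = true) ∧
    (gS8.ListOK) ∧
    (gS9a.ListOK) :=
  ⟨(by decide +kernel),
  (by decide +kernel),
  (by decide +kernel),
  (by decide +kernel),
  (Chk.ringD_cfgZ (a := 0) (b := 3)
  (l := [.par 2 5 [], .par 2 6 [5], .tr 2 0 ⟨1, false, [5, 6], []⟩, .par 3 7 [], .vf ⟨0, false, [], [(7, true, [])]⟩, .ed 0 11, .ed 11 3, .par 2 9 [], .par 2 10 [], .vf ⟨3, false, [9], [(4, false, [9, 10])]⟩])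
  (r := [.par 2 8 [], .tr 2 3 ⟨8, true, [], []⟩])
  (nodes := [(8, 2, []), (10, 2, [8])])
  (u0 := 2) (by decide +kernel)),
  (Chk.ringD_cfgZ (a := 0) (b := 8)
  (l := [.par 2 6 [], .tr 2 1 ⟨6, true, [], []⟩, .par 2 4 [], .tr 1 0 ⟨4, true, [], []⟩, .par 3 5 [], .vf ⟨0, false, [], [(5, true, [])]⟩, .ed 0 10, .ed 10 8, .par 3 8 [], .vf ⟨8, true, [], []⟩, .ed 8 3])
  (r := [.par 2 7 [], .tr 2 3 ⟨7, true, [], []⟩, .par 3 9 [], .vf ⟨3, false, [], [(9, true, [])]⟩])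
  (nodes := [(4, 2, []), (7, 2, [4]), (0, 0, [4, 7]), (5, 1, [0])])
  (u0 := 2) (by decide +kernel))⟩

theorem gS7_p0 : Chk.ringP gS7_sl 11 gS7_sr gS7_sn [3, 5, 6, 9, 10, 12] = true := locok3_seq.1

theorem gS7_p1 : Chk.ringP gS7_sl 11 gS7_sr gS7_sn [17, 18, 20, 24, 33, 34] = true := locok3_seq.2.1

theorem gS7_p2 : Chk.ringP gS7_sl 11 gS7_sr gS7_sn [36, 40, 48, 65, 66, 68] = true := locok3_seq.2.2.1

theorem gS7_p3 : Chk.ringP gS7_sl 11 gS7_sr gS7_sn [72, 80, 96] = true := locok3_seq.2.2.2.1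

theorem gS8_ok : gS8.ListOK := locok3_seq.2.2.2.2.1

theorem gS9a_ok : gS9a.ListOK := locok3_seq.2.2.2.2.2

theorem gS7_ok : gS7.ListOK := Chk.ringP_cfgZ (a := 1) (b := 10) (u0 := 3) (s := 2) (dis := [])
  (by decide +kernel) (by decide +kernel)
  (Chk.AllP_cons gS7_p0 (Chk.AllP_cons gS7_p1 (Chk.AllP_cons gS7_p2 (Chk.AllP_cons gS7_p3 Chk.AllP_nil))))

end Pool.Agent.Lib.SVY.LC
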