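import Pool.Agent.Lib.SVX.ChkD
import Pool.Agent.Lib.SVY.LocData4

/-!
# SVY.LocOk4: `ListOK` of the configurations (kernel check)
-/

set_option autoImplicit false
set_option maxRecDepth 100000

namespace Pool.Agent.Lib.SVY.LC

open Pool.Agent.Lib.SVX

/-- left strip of `gS10K` -/
def gS10K_sl : List Chk.St := [.par 3 4 [], .tr 2 0 ⟨4, true, [], []⟩, .par 3 5 [], .vf ⟨0, false, [], [(5, true, [])]⟩, .ed 0 11, .ed 11 1, .par 3 6 [], .par 3 7 [], .par 3 8 [], .vf ⟨1, false, [], [(6, true, []), (7, true, []), (8, true, [])]⟩]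

/-- right strip of `gS10K` -/
def gS10K_sr : List Chk.St := [.par 3 9 [], .tr 2 1 ⟨3, false, [10], [(9, true, [])]⟩]

/-- nodes of `gS10K` -/
def gS10K_sn : List (ℕ × ℕ × List ℕ) := []

/-- all checks, one after the other -/
theorem locok4_seq :
    (gS9b.ListOK) ∧
    (gS9p.ListOK) ∧
    (Chk.ringP gS10K_sl 10 gS10K_sr gS10K_sn [3, 5, 6] = true) ∧
    (Chk.ringP gS10K_sl 10 gS10K_sr gS10K_sn [9, 10, 12] = true) ∧
    (Chk.ringP gS10K_sl 10 gS10K_sr gS10K_sn [17, 18, 20] = true) ∧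
    (Chk.ringP gS10K_sl 10 gS10K_sr gS10K_sn [24, 33, 34] = true) ∧
    (Chk.ringP gS10K_sl 10 gS10K_sr gS10K_sn [36, 40, 48] = true) ∧
    (Chk.ringP gS10K_sl 10 gS10K_sr gS10K_sn [65, 66, 68] = true) ∧
    (Chk.ringP gS10K_sl 10 gS10K_sr gS10K_sn [72, 80, 96] = true) ∧
    (gS12.ListOK) :=
  ⟨(Chk.ringD_cfgZ (a := 1) (b := 4)
  (l := [.par 2 11 [], .tr 3 4 ⟨11, true, [], []⟩, .par 3 9 [], .par 3 10 [], .vf ⟨4, false, [], [(9, true, []), (10, true, [])]⟩, .ed 4 12, .ed 12 1, .par 2 5 [], .par 2 6 [5], .vf ⟨1, false, [5, 6], []⟩])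
  (r := [.par 2 8 [], .tr 3 2 ⟨8, true, [], []⟩, .par 3 7 [], .tr 2 1 ⟨0, false, [], [(7, true, [])]⟩])
  (nodes := [(5, 2, []), (8, 2, [5]), (6, 2, [8])])
  (u0 := 3) (by decide +kernel)),
  (Chk.ringD_cfgZ (a := 0) (b := 3)
  (l := [.par 3 6 [], .vf ⟨0, false, [], [(6, true, [])]⟩, .par 2 4 [], .par 2 5 [4], .tr 0 2 ⟨1, false, [4, 5], []⟩, .par 2 7 [], .tr 2 3 ⟨7, true, [], []⟩])
  (r := [.ed 0 10, .ed 10 3, .par 3 8 [], .par 3 9 [], .vf ⟨3, false, [], [(8, true, []), (9, true, [])]⟩])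
  (nodes := [])
  (u0 := 0) (by decide +kernel)),
  (by decide +kernel),
  (by decide +kernel),
  (by decide +kernel),
  (by decide +kernel),
  (by decide +kernel),
  (by decide +kernel),
  (by decide +kernel),
  (Chk.ringD_cfgZ (a := 1) (b := 3)
  (l := [.par 2 4 [], .par 2 5 [4], .vf ⟨1, false, [4, 5], []⟩, .ed 1 11, .ed 11 3, .par 3 8 [], .par 3 9 [], .par 3 10 [], .vf ⟨3, false, [], [(8, true, []), (9, true, []), (10, true, [])]⟩])
  (r := [.par 3 6 [], .tr 1 2 ⟨0, false, [], [(6, true, [])]⟩, .par 2 7 [], .tr 2 3 ⟨7, true, [], []⟩])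
  (nodes := [(4, 2, []), (7, 2, [4]), (5, 2, [7])])
  (u0 := 1) (by decide +kernel))⟩

theorem gS9b_ok : gS9b.ListOK := locok4_seq.1

theorem gS9p_ok : gS9p.ListOK := locok4_seq.2.1

theorem gS10K_p0 : Chk.ringP gS10K_sl 10 gS10K_sr gS10K_sn [3, 5, 6] = true := locok4_seq.2.2.1

theorem gS10K_p1 : Chk.ringP gS10K_sl 10 gS10K_sr gS10K_sn [9, 10, 12] = true := locok4_seq.2.2.2.1

theorem gS10K_p2 : Chk.ringP gS10K_sl 10 gS10K_sr gS10K_sn [17, 18, 20] = true := locok4_seq.2.2.2.2.1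

theorem gS10K_p3 : Chk.ringP gS10K_sl 10 gS10K_sr gS10K_sn [24, 33, 34] = true := locok4_seq.2.2.2.2.2.1

theorem gS10K_p4 : Chk.ringP gS10K_sl 10 gS10K_sr gS10K_sn [36, 40, 48] = true := locok4_seq.2.2.2.2.2.2.1

theorem gS10K_p5 : Chk.ringP gS10K_sl 10 gS10K_sr gS10K_sn [65, 66, 68] = true := locok4_seq.2.2.2.2.2.2.2.1

theorem gS10K_p6 : Chk.ringP gS10K_sl 10 gS10K_sr gS10K_sn [72, 80, 96] = true := locok4_seq.2.2.2.2.2.2.2.2.1

theorem gS12_ok : gS12.ListOK := locok4_seq.2.2.2.2.2.2.2.2.2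

theorem gS10K_ok : gS10K.ListOK := Chk.ringP_cfgZ (a := 0) (b := 1) (u0 := 2) (s := 2) (dis := [])
  (by decide +kernel) (by decide +kernel)
  (Chk.AllP_cons gS10K_p0 (Chk.AllP_cons gS10K_p1 (Chk.AllP_cons gS10K_p2 (Chk.AllP_cons gS10K_p3 (Chk.AllP_cons gS10K_p4 (Chk.AllP_cons gS10K_p5 (Chk.AllP_cons gS10K_p6 Chk.AllP_nil)))))))

end Pool.Agent.Lib.SVY.LC
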