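import Pool.Agent.Lib.SVX.ChkF
import Pool.Agent.Lib.SVY.LocData5

/-!
# SVY.LocOk5: `ListOK` of the configurations (kernel check)
-/

set_option autoImplicit false
set_option maxRecDepth 100000

namespace Pool.Agent.Lib.SVY.LC

open Pool.Agent.Lib.SVX

/-- left strip of `gA19E` -/
def gA19E_sl : List Chk.St := [.par 3 3 [], .par 3 4 [], .vf ⟨0, false, [], [(3, true, []), (4, true, [])]⟩, .ed 0 16, .ed 16 1, .par 3 5 [], .par 3 6 [], .par 3 7 [], .vf ⟨1, false, [], [(5, true, []), (6, true, []), (7, true, [])]⟩]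

/-- right strip of `gA19E` -/
def gA19E_sr : List Chk.St := [.pw 10 2, .tx 0 1 2 10]

/-- nodes of `gA19E` -/
def gA19E_sn : List (ℕ × ℕ × List ℕ) := []

/-- all checks, one after the other -/
theorem locok5_seq :
    (Chk.ringP gA19E_sl 2 gA19E_sr gA19E_sn [3, 5, 6, 9, 10, 12, 17] = true) ∧
    (Chk.ringP gA19E_sl 2 gA19E_sr gA19E_sn [18, 20, 24, 33, 34, 36, 40] = true) ∧
    (Chk.ringP gA19E_sl 2 gA19E_sr gA19E_sn [48, 65, 66, 68, 72, 80, 96] = true) ∧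
    (gS11.ListOK) ∧
    (gX4.ListOK) :=
  ⟨(by decide +kernel),
  (by decide +kernel),
  (by decide +kernel),
  (Chk.ringD_cfgZ (a := 0) (b := 4)
  (l := [.par 2 5 [], .par 2 6 [5], .tr 2 0 ⟨1, false, [5, 6], []⟩, .par 3 7 [], .vf ⟨0, false, [], [(7, true, [])]⟩, .ed 0 12, .ed 12 4, .par 2 10 [], .par 2 11 [], .vf ⟨4, false, [10, 11], []⟩])
  (r := [.par 2 8 [], .tr 2 3 ⟨8, true, [], []⟩, .par 2 9 [], .vf ⟨3, false, [9], []⟩, .ed 3 4])
  (nodes := [(8, 2, []), (11, 2, [8]), (9, 2, [11])])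
  (u0 := 2) (by decide +kernel)),
  (Chk.ringD_cfg
  (l := [.par 2 7 [], .tr 0 1 ⟨7, true, [], []⟩, .ed 1 5, .par 2 5 [], .vf ⟨5, true, [], []⟩, .ed 5 2, .par 2 8 [5], .vf ⟨2, false, [8], []⟩, .par 3 10 [], .tr 2 3 ⟨4, false, [], [(10, true, [])]⟩])
  (r := [.ed 0 6, .par 2 6 [], .vf ⟨6, true, [], []⟩, .ed 6 3, .par 2 9 [6], .vf ⟨3, false, [9], []⟩])
  (nodes := [(5, 2, []), (6, 2, [5]), (8, 2, [6])])
  (u0 := 0) (by decide +kernel))⟩

theorem gA19E_p0 : Chk.ringP gA19E_sl 2 gA19E_sr gA19E_sn [3, 5, 6, 9, 10, 12, 17] = true := locok5_seq.1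

theorem gA19E_p1 : Chk.ringP gA19E_sl 2 gA19E_sr gA19E_sn [18, 20, 24, 33, 34, 36, 40] = true := locok5_seq.2.1

theorem gA19E_p2 : Chk.ringP gA19E_sl 2 gA19E_sr gA19E_sn [48, 65, 66, 68, 72, 80, 96] = true := locok5_seq.2.2.1

theorem gS11_ok : gS11.ListOK := locok5_seq.2.2.2.1

theorem gX4_ok : gX4.ListOK := locok5_seq.2.2.2.2

theorem gA19E_okF : gA19E.ListOKF gA19E_fl := Chk.ringP_cfgFZ (a := 0) (b := 1) (u0 := 0) (s := 2) (dis := [])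
  (by decide +kernel) (by decide +kernel)
  (Chk.AllP_cons gA19E_p0 (Chk.AllP_cons gA19E_p1 (Chk.AllP_cons gA19E_p2 Chk.AllP_nil)))

end Pool.Agent.Lib.SVY.LC
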