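import Pool.Agent.Lib.SVX.ChkD
import Pool.Agent.Lib.SVY.LocData6

/-!
# SVY.LocOk6: `ListOK` of the configurations (kernel check)
-/

set_option autoImplicit false
set_option maxRecDepth 100000

namespace Pool.Agent.Lib.SVY.LC

open Pool.Agent.Lib.SVX

theorem gS11O_ok : gS11O.ListOK := Chk.ringD_cfgZ (a := 0) (b := 4)
  (l := [.par 3 7 [], .vf ⟨0, false, [], [(7, true, [])]⟩, .par 2 5 [], .par 2 6 [5], .tr 0 2 ⟨1, false, [5, 6], []⟩, .par 2 8 [], .tr 2 3 ⟨8, true, [], []⟩, .par 2 9 [], .vf ⟨3, false, [9], []⟩])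
  (r := [.ed 0 12, .ed 12 4, .par 2 10 [], .par 2 11 [10], .vf ⟨4, false, [10, 11], []⟩, .ed 4 3])
  (nodes := [(8, 2, []), (10, 2, [8]), (11, 2, [8])])
  (u0 := 0) (by decide +kernel)

end Pool.Agent.Lib.SVY.LC
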