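import Pool.Agent.Lib.SVY.Glob
import Pool.Agent.Lib.SVY.CodeT
import Pool.Agent.Lib.SVY.Four
import Pool.Agent.Lib.SVU.Comb
import Pool.Agent.Lib.SVX.FA
import Pool.Agent.Lib.SVX.MinEx
import Pool.Agent.Lib.SVX.MinA

/-!
# SVY.Main: planar graphs without 4-, 5-cycles are (7:2)-colourable
-/

set_option autoImplicit false
set_option linter.unusedSectionVars false

namespace Pool.Agent.Lib.SVY

open Finset Pool.Agent.Lib.SVT Pool.Agent.Lib.SVX

variable {V : Type*} [Fintype V] [DecidableEq V] {G : SimpleGraph V}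

theorem seven_two_of
    (H1 : ∀ (G : SimpleGraph V) (B : Finset V) (m : ℕ) (F : Fin m → Finset (Sym2 V)),
      MinCE G B → Faces G F → LF G B F)
    (H2 : ∀ (G : SimpleGraph V) (B : Finset V) (m : ℕ) (F : Fin m → Finset (Sym2 V)),
      MinCE G B → Faces G F → CF G B F)
    (hML : ML (edg G univ)) (h4 : NoC4 G) (h5 : NoC5 G) :
    ∃ φ : V → Finset (Fin 7), (∀ v, (φ v).card = 2) ∧
      ∀ u v, G.Adj u v → Disjoint (φ u) (φ v) := by
  by_cases hE : Ext G ∅
  · exact ext_empty hE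
  · exfalso
    obtain ⟨G', B', h⟩ := exists_minCE ⟨hML, h4, h5, Or.inl rfl⟩ hE
    obtain ⟨m, F, hF, -⟩ := exists_faces h.good.ml (two_conn h) (deg_ne_one h) (exists_edge h)
    exact no_minCE h hF (H1 G' B' m F h hF) (noCode_of h (H2 G' B' m F h hF))

theorem strong_of
    (H1 : ∀ (G : SimpleGraph V) (B : Finset V) (m : ℕ) (F : Fin m → Finset (Sym2 V)),
      MinCE G B → Faces G F → LF G B F)
    (H2 : ∀ (G : SimpleGraph V) (B : Finset V) (m : ℕ) (F : Fin m → Finset (Sym2 V)),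
      MinCE G B → Faces G F → CF G B F)
    (hML : ML (edg G univ)) (h4 : NoC4 G) (h5 : NoC5 G) {a b : ℕ} (h : 7 * b ≤ 2 * a) :
    ∃ Φ : V → Finset (Fin a), (∀ v, (Φ v).card = b) ∧
      ∀ u v, G.Adj u v → Disjoint (Φ u) (Φ v) := by
  obtain ⟨φ, h1, h2⟩ := seven_two_of H1 H2 hML h4 h5
  obtain ⟨ψ, h3⟩ := four_col hML h4 h5
  exact Pool.Agent.Lib.SVU.comb φ h1 h2 ψ h3 h

end Pool.Agent.Lib.SVY
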