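import Pool.Agent.Lib.SVY.RingA

/-!
# SVY.Names: configurations around a face of length 6

Names: `rg j` ring vertex, `pn j a` a vertex off the ring adjacent to exactly one ring vertex
`c j`, `ax j` the third vertex of the triangle on the ring edge `c j, c (j+1)`, `sc j` the
neighbour of `ax j` on a weak edge.  `Nm.adj` is the adjacency of names, `Nm.unk`: adjacency
unknown.  `Occ`: meaning of the names in `G`.  `exOK te x y n`: a path of length `n` outside the
ring between the vertices `x`, `y` is impossible (`te j`: the ring edge `c j, c (j+1)` is known to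
be a triangle edge).

-/

set_option autoImplicit false
set_option linter.unusedSectionVars false

namespace Pool.Agent.Lib.SVY

open Finset Pool.Agent.Lib.SVT Pool.Agent.Lib.SVX

/-- names of vertices around a face of length 6 -/
inductive Nm
  | rg (j : ZMod 6)
  | pn (j : ZMod 6) (a : ℕ)
  | ax (j : ZMod 6)
  | sc (j : ZMod 6)
deriving DecidableEq

namespace Nm

/-- adjacency of names -/
def adj : Nm → Nm → Bool
  | .rg a, .rg b => decide (b = a + 1) || decide (a = b + 1)
  | .rg a, .pn b _ => decide (a = b)
  | .pn a _, .rg b => decide (a = b)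
  | .rg a, .ax b => decide (a = b) || decide (a = b + 1)
  | .ax b, .rg a => decide (a = b) || decide (a = b + 1)
  | .ax a, .sc b => decide (a = b)
  | .sc a, .ax b => decide (a = b)
  | _, _ => false

/-- adjacency unknown -/
def unk : Nm → Nm → Bool
  | .pn a k, .pn b l => decide (a = b) && !(decide (k = l))
  | _, _ => false

/-- the ring neighbours of a vertex off the ring -/
def att : Nm → List (ZMod 6)
  | .pn j _ => [j]
  | .ax j => [j, j + 1]
  | _ => []

end Nm

/-- the exclusion of outside paths with ends `x`, `y` attached at `c j`, `c k` -/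
def exJK (te : ZMod 6 → Bool) (x y : Nm) (j k : ZMod 6) (n : ℕ) : Bool :=
  if n = 1 then !(decide (j = k))
  else if n = 2 then true
  else if n = 3 then
    decide (j = k) || (decide (k = j + 1) && te j) || (decide (j = k + 1) && te k) ||
    (decide (k = j + 2) && (!(y.att.contains (j + 1)) || te j) &&
      (!(x.att.contains (j + 1)) || te (j + 1))) ||
    (decide (j = k + 2) && (!(x.att.contains (k + 1)) || te k) &&
      (!(y.att.contains (k + 1)) || te (k + 1)))
  else if n = 4 then
    (decide (k = j + 1) && te j && !(x.att.contains k) && !(y.att.contains j)) ||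
    (decide (j = k + 1) && te k && !(x.att.contains k) && !(y.att.contains j))
  else true

/-- the exclusion of outside paths from `x` to `y` -/
def exOK (te : ZMod 6 → Bool) (x y : Nm) (n : ℕ) : Bool :=
  x.att.any (fun j => y.att.any (fun k => exJK te x y j k n))

/-- the check of a configuration against the names -/
def rchk (cf : Cfg) (l : List Nm) (te : ZMod 6 → Bool) : Bool :=
  (List.range cf.N).all (fun a => (List.range cf.N).all (fun b =>
    (!(cf.inH a && cf.inH b) ||
      ((cf.adjE a b == (l.getD a (.rg 0)).adj (l.getD b (.rg 0))) &&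
        !((l.getD a (.rg 0)).unk (l.getD b (.rg 0))))) &&
    (!(cf.adjE a b) || (l.getD a (.rg 0)).adj (l.getD b (.rg 0)) ||
      (l.getD a (.rg 0)).unk (l.getD b (.rg 0))))) &&
  cf.al.all (fun t => exOK te (l.getD t.1 (.rg 0)) (l.getD t.2.1 (.rg 0)) t.2.2) &&
  (cf.al.isEmpty || (List.range 6).all (fun (j : ℕ) => (List.range cf.nc).any
    (fun a => decide (l.getD a (.rg 0) = .rg (j : ZMod 6)))))

variable {V : Type*} [Fintype V] [DecidableEq V] {G : SimpleGraph V} {B : Finset V}
variable {m : ℕ} {F : Fin m → Finset (Sym2 V)} {i : Fin m} {c : ZMod 6 → V}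

/-- meaning of the names of the list `l` -/
structure Occ (G : SimpleGraph V) (c : ZMod 6 → V) (l : List Nm) (sem : Nm → V) : Prop where
  rg : ∀ j, .rg j ∈ l → sem (.rg j) = c j
  pn : ∀ j a, .pn j a ∈ l → Off c (sem (.pn j a)) ∧ G.Adj (sem (.pn j a)) (c j) ∧
    ∀ k, k ≠ j → ¬ G.Adj (sem (.pn j a)) (c k)
  pn2 : ∀ j a b, .pn j a ∈ l → .pn j b ∈ l → sem (.pn j a) = sem (.pn j b) → a = b
  ax : ∀ j, .ax j ∈ l → Off c (sem (.ax j)) ∧ G.Adj (sem (.ax j)) (c j) ∧
    G.Adj (sem (.ax j)) (c (j + 1))
  sc : ∀ j, .sc j ∈ l → .ax j ∈ l ∧ WE G (sem (.ax j)) (sem (.sc j))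
  sc2 : ∀ j, .sc j ∈ l → .sc (j + 2) ∈ l → TE G (c (j + 1)) (c (j + 2))

end Pool.Agent.Lib.SVY
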