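import Pool.Agent.Lib.SVY.Names

/-!
# SVY.NamesA: names around a face of length 6: distinctness and adjacency

Plan.
* `L4T`: a path `x z w u y` outside the ring with `x ~ c j`, `y ~ c (j+1)` gives a 7-cycle: it is a
  face containing the triangle edge (`te_faces`: impossible, the two faces at this edge are the
  triangle and `F i`) or has a chord: `x ~ w`, `z ~ u`, `w ~ y`, `u ~ c (j+1)`, `z ~ c j`: each
  gives a path of length 3 as in `L3` with ends at `c j`, `c (j+1)`, impossible on a triangle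
  edge; `x ~ c (j+1)`, `y ~ c j`: excluded by hypothesis.
* `occ_inj`, `occ_adj`: case analysis on the names, with `ring_chord`, `L0`-`L3`:
  a vertex off the ring adjacent to `c a`, `c b` and `c k` with `a, b, k` different is impossible
  (`L0` three times); `pn`-`pn`, `pn`-`ax`, `ax`-`ax`: `L0` and `L1`; `sc j` is off the ring
  (`WE (ax j) (sc j)`, `ax j` has no third ring neighbour and its edges to the ring are triangle
  edges) and not adjacent to the ring (`L1`); `pn`-`sc`, `ax`-`sc`: `L2`; `sc`-`sc`: `L2`, `L3`.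
-/

set_option autoImplicit false
set_option linter.unusedSectionVars false

namespace Pool.Agent.Lib.SVY

open Finset Pool.Agent.Lib.SVT Pool.Agent.Lib.SVX

variable {V : Type*} [Fintype V] [DecidableEq V] {G : SimpleGraph V} {B : Finset V}
variable {m : ℕ} {F : Fin m → Finset (Sym2 V)} {i : Fin m} {c : ZMod 6 → V}

open RingAAux in
theorem L4T (h : MinCE G B) (hF : Faces G F) (hR : Ring G F i 6 c) (hd : ∀ j, 3 ≤ dg G (c j))
    {x y z w u : V} (hx : Off c x) (hy : Off c y) (hz : Off c z) (hw : Off c w) (hu : Off c u)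
    (hne : [x, z, w, u, y].Nodup) {j : ZMod 6}
    (h1 : G.Adj x (c j)) (h2 : G.Adj y (c (j + 1))) (hxz : G.Adj x z) (hzw : G.Adj z w)
    (hwu : G.Adj w u) (huy : G.Adj u y) (ht : TE G (c j) (c (j + 1)))
    (h3 : ¬ G.Adj x (c (j + 1))) (h4 : ¬ G.Adj y (c j)) : False := by
  simp only [List.nodup_cons, List.mem_cons, List.not_mem_nil, or_false, not_or,
    not_false_eq_true, List.nodup_nil, and_true] at hne
  obtain ⟨⟨nxz, nxw, nxu, nxy⟩, ⟨nzw, nzu, nzy⟩, ⟨nwu, nwy⟩, nuy⟩ := hne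
  rcases cyc7 h hF (a := x) (b := z) (c := w) (d := u) (e := y) (f := c (j + 1)) (g := c j) (by
      simp only [List.nodup_cons, List.mem_cons, List.not_mem_nil, or_false, not_or,
        not_false_eq_true, List.nodup_nil, and_true]
      exact ⟨⟨nxz, nxw, nxu, nxy, hx _, hx _⟩, ⟨nzw, nzu, nzy, hz _, hz _⟩,
        ⟨nwu, nwy, hw _, hw _⟩, ⟨nuy, hu _, hu _⟩, ⟨hy _, hy _⟩, (cne hR (n01 j)).symm⟩)
    hxz hzw hwu huy h2 (a01 hR j).symm h1.symm with
    ⟨k, hk⟩ | h5 | h5 | h5 | h5 | h5 | h5 | h5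
  · obtain ⟨hab, v, hv1, hv2⟩ := ht
    obtain ⟨p, q, hpq, hp, hq, hq6, hall⟩ := te_faces h hF hab hv1 hv2
    have hkm : s(c j, c (j + 1)) ∈ F k := by
      rw [hk, Sym2.eq_swap (a := c j) (b := c (j + 1))]
      simp
    have him : s(c j, c (j + 1)) ∈ F i := by
      rw [hR.eq]
      exact cyc_mem j
    have hic : (F i).card = 6 := by
      rw [hR.eq]
      exact card_cyc (by norm_num) hR.cyc
    have hpc : (F p).card ≤ 3 := by
      rw [hp]
      exact card_le_three
    have hxk : s(x, z) ∈ F k := by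
      rw [hk]
      simp
    have hiq : i = q := by
      rcases (hall i).1 him with rfl | h5
      · omega
      · exact h5
    rcases (hall k).1 hkm with rfl | rfl
    · rw [hp] at hxk
      simp only [mem_insert, mem_singleton, Sym2.eq_iff] at hxk
      rcases hxk with (⟨e1, -⟩ | ⟨e1, -⟩) | (⟨e1, -⟩ | ⟨-, e1⟩) | (⟨-, e1⟩ | ⟨e1, -⟩)
      · exact hx _ e1
      · exact hx _ e1
      · exact hx _ e1
      · exact hz _ e1
      · exact hz _ e1
      · exact hx _ e1
    · rw [← hiq] at hxk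
      exact off_face hR hx hxk
  · exact ht.not_we (L3a h hF hR hx hy hw hu nxy nxu nwy h1 h2 h5 hwu huy)
  · exact ht.not_we (L3a h hF hR hx hy hz hu nxy nxu nzy h1 h2 hxz h5 huy)
  · exact ht.not_we (L3a h hF hR hx hy hz hw nxy nxw nzy h1 h2 hxz hzw h5)
  · exact ht.not_we (L3a h hF hR hx hu hz hw nxu nxw nzu h1 h5 hxz hzw hwu)
  · exact h4 h5
  · exact h3 h5.symm
  · exact ht.not_we (L3a h hF hR hz hy hw hu nzy nzu nwy h5.symm h2 hzw hwu huy)

/-- a vertex joined to `c j` by a weak edge is adjacent to no other ring vertex -/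
theorem pn_of_we (h : MinCE G B) (hR : Ring G F i 6 c) {x : V} (hx : Off c x) {j : ZMod 6}
    (h1 : WE G (c j) x) : ∀ k, k ≠ j → ¬ G.Adj x (c k) := by
  intro k hk h2
  rcases L0 h hR hx (Ne.symm hk) h1.1.symm h2 with rfl | rfl
  · exact h1.2 ⟨c (j + 1), hR.cyc.2 j, h2⟩
  · exact h1.2 ⟨c k, (hR.cyc.2 k).symm, h2⟩

namespace NamesAAux

/-- a vertex off the ring adjacent to both ends of a ring edge has no third ring neighbour -/
theorem ax_only (h : MinCE G B) (hR : Ring G F i 6 c) {x : V} (hx : Off c x) {j k : ZMod 6}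
    (h1 : G.Adj x (c j)) (h2 : G.Adj x (c (j + 1))) (h3 : G.Adj x (c k)) :
    k = j ∨ k = j + 1 := by
  by_cases e1 : k = j
  · exact Or.inl e1
  by_cases e2 : k = j + 1
  · exact Or.inr e2
  exfalso
  have q1 := L0 h hR hx (Ne.symm e1) h1 h3
  have q2 := L0 h hR hx (Ne.symm e2) h2 h3
  have key : ∀ j k : ZMod 6, k ≠ j → k ≠ j + 1 → (k = j + 1 ∨ j = k + 1) →
      (k = j + 1 + 1 ∨ j + 1 = k + 1) → False := by
    clear * -
    decide
  exact key j k e1 e2 q1 q2

theorem sc_off (h : MinCE G B) (hR : Ring G F i 6 c) {l : List Nm} {sem : Nm → V}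
    (ho : Occ G c l sem) {j : ZMod 6} (hj : .sc j ∈ l) : Off c (sem (.sc j)) := by
  obtain ⟨ha, hw⟩ := ho.sc j hj
  obtain ⟨hoff, h1, h2⟩ := ho.ax j ha
  intro k hk
  rw [hk] at hw
  rcases ax_only h hR hoff h1 h2 hw.1 with rfl | rfl
  · exact hw.2 ⟨c (k + 1), h2, hR.cyc.2 k⟩
  · exact hw.2 ⟨c j, h1, (hR.cyc.2 j).symm⟩

theorem sc_na (h : MinCE G B) (hF : Faces G F) (hR : Ring G F i 6 c)
    (hd : ∀ j, 3 ≤ dg G (c j)) {l : List Nm} {sem : Nm → V}
    (ho : Occ G c l sem) {j : ZMod 6} (hj : .sc j ∈ l) (k : ZMod 6) :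
    ¬ G.Adj (sem (.sc j)) (c k) := by
  intro hk
  obtain ⟨ha, hw⟩ := ho.sc j hj
  obtain ⟨hoff, h1, h2⟩ := ho.ax j ha
  have e1 := L1 h hF hR hd (sc_off h hR ho hj) hoff hk h1 hw.1.symm
  have e2 := L1 h hF hR hd (sc_off h hR ho hj) hoff hk h2 hw.1.symm
  exact RingAAux.n01 j (e1.symm.trans e2)

theorem ax_inj (h : MinCE G B) (hR : Ring G F i 6 c) {l : List Nm} {sem : Nm → V}
    (ho : Occ G c l sem) {a b : ZMod 6} (ha : .ax a ∈ l) (hb : .ax b ∈ l)
    (hab : sem (.ax a) = sem (.ax b)) : a = b := by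
  obtain ⟨o1, h1, h2⟩ := ho.ax a ha
  obtain ⟨-, h3, h4⟩ := ho.ax b hb
  rw [← hab] at h3 h4
  have q1 := ax_only h hR o1 h1 h2 h3
  have q2 := ax_only h hR o1 h1 h2 h4
  have key : ∀ a b : ZMod 6, (b = a ∨ b = a + 1) → (b + 1 = a ∨ b + 1 = a + 1) → a = b := by
    clear * -
    decide
  exact key a b q1 q2

/-- no two outer neighbours of different apices are adjacent -/
theorem sc_sc (h : MinCE G B) (hF : Faces G F) (hR : Ring G F i 6 c)
    (hd : ∀ j, 3 ≤ dg G (c j)) {l : List Nm} {sem : Nm → V} (ho : Occ G c l sem) {a b : ZMod 6}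
    (ha : .sc a ∈ l) (hb : .sc b ∈ l) : ¬ G.Adj (sem (.sc a)) (sem (.sc b)) := by
  intro hab
  obtain ⟨xa, wa⟩ := ho.sc a ha
  obtain ⟨xb, wb⟩ := ho.sc b hb
  obtain ⟨oa, a1, a2⟩ := ho.ax a xa
  obtain ⟨ob, b1, b2⟩ := ho.ax b xb
  have sa := sc_off h hR ho ha
  have sb := sc_off h hR ho hb
  by_cases e : a = b
  · subst e
    exact hab.ne rfl
  have hne : sem (.ax a) ≠ sem (.ax b) := fun e' => e (ax_inj h hR ho xa xb e')
  have hxw : sem (.ax a) ≠ sem (.sc b) := by
    intro e'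
    rw [e'] at a1
    exact sc_na h hF hR hd ho hb _ a1
  have hzy : sem (.sc a) ≠ sem (.ax b) := by
    intro e'
    rw [← e'] at b1
    exact sc_na h hF hR hd ho ha _ b1
  have hcase : b = a + 1 ∨ a = b + 1 ∨ b = a + 2 ∨ a = b + 2 ∨ b = a + 3 := by
    have key : ∀ a b : ZMod 6, a ≠ b →
        (b = a + 1 ∨ a = b + 1 ∨ b = a + 2 ∨ a = b + 2 ∨ b = a + 3) := by
      clear * -
      decide
    exact key a b e
  have k0 : ∀ k : ZMod 6, ¬ (k = k + 1 ∨ k = k + 2 ∨ k = k + 3) := by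
    clear * -
    decide
  rcases hcase with rfl | rfl | rfl | rfl | rfl
  · rcases L3 h hF hR hd oa ob sa sb hne hxw hzy a2 b1 wa.1 hab wb.1.symm with
      ⟨q, -⟩ | ⟨q, -⟩ | ⟨q, -⟩ | ⟨q, -⟩ | q
    · exact k0 _ (Or.inl q)
    · exact k0 _ (Or.inl q)
    · exact k0 _ (Or.inr (Or.inl q))
    · exact k0 _ (Or.inr (Or.inl q))
    · exact k0 _ (Or.inr (Or.inr q))
  · rcases L3 h hF hR hd oa ob sa sb hne hxw hzy a1 b2 wa.1 hab wb.1.symm with
      ⟨q, -⟩ | ⟨q, -⟩ | ⟨q, -⟩ | ⟨q, -⟩ | q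
    · exact k0 _ (Or.inl q)
    · exact k0 _ (Or.inl q)
    · exact k0 _ (Or.inr (Or.inl q))
    · exact k0 _ (Or.inr (Or.inl q))
    · exact k0 _ (Or.inr (Or.inr q))
  · have e2 : a + 1 + 1 = a + 2 := by
      clear * -
      decide +revert
    have q := RingAAux.L3a h hF hR (j := a + 1) oa ob sa sb hne hxw hzy a2
      (by rw [e2]; exact b1) wa.1 hab wb.1.symm
    rw [e2] at q
    exact (ho.sc2 a ha hb).not_we q
  · have e2 : b + 1 + 1 = b + 2 := by
      clear * -
      decide +revert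
    have q := RingAAux.L3a h hF hR (j := b + 1) ob oa sb sa hne.symm hzy.symm hxw.symm b2
      (by rw [e2]; exact a1) wb.1 hab.symm wa.1.symm
    rw [e2] at q
    exact (ho.sc2 b hb ha).not_we q
  · have e2 : a + 1 + 2 = a + 3 := by
      clear * -
      decide +revert
    have e3 : ∀ a : ZMod 6, ¬ (a + 1 + 1 = a + 3 ∨ a + 1 + 1 = a + 3 + 1) := by
      clear * -
      decide
    have e4 : ∀ a : ZMod 6, ¬ (a + 1 + 1 = a ∨ a + 1 + 1 = a + 1) := by
      clear * -
      decide
    rcases RingAAux.L3b h hF hR hd (j := a + 1) oa ob sa sb hne hxw hzy a2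
      (by rw [e2]; exact b1) wa.1 hab wb.1.symm with ⟨q, -⟩ | ⟨q, -⟩
    · exact e3 a (ax_only h hR ob b1 b2 q)
    · exact e4 a (ax_only h hR oa a1 a2 q)

end NamesAAux

open NamesAAux

theorem occ_inj (h : MinCE G B) (hF : Faces G F) (hR : Ring G F i 6 c)
    (hd : ∀ j, 3 ≤ dg G (c j)) {l : List Nm} {sem : Nm → V} (ho : Occ G c l sem) {x y : Nm}
    (hx : x ∈ l) (hy : y ∈ l) (hxy : sem x = sem y) : x = y := by
  have c1 : ∀ j : ZMod 6, ∀ y : Nm, y ∈ l → (∀ k, y ≠ .rg k) → sem y ≠ c j := by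
    intro j y hy hk
    cases y with
    | rg k => exact absurd rfl (hk k)
    | pn a k => exact (ho.pn a k hy).1 j
    | ax a => exact (ho.ax a hy).1 j
    | sc a => exact sc_off h hR ho hy j
  have c2 : ∀ a k b, .pn a k ∈ l → .ax b ∈ l → sem (.pn a k) ≠ sem (.ax b) := by
    intro a k b h1 h2 e
    obtain ⟨-, -, h3⟩ := ho.pn a k h1
    obtain ⟨-, h4, h5⟩ := ho.ax b h2
    rw [← e] at h4 h5
    have e1 : b = a := by
      by_contra hb
      exact h3 b hb h4
    have e2 : b + 1 = a := by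
      by_contra hb
      exact h3 (b + 1) hb h5
    exact RingAAux.n01 b (e1.trans e2.symm)
  have c3 : ∀ a k b, .pn a k ∈ l → .sc b ∈ l → sem (.pn a k) ≠ sem (.sc b) := by
    intro a k b h1 h2 e
    obtain ⟨-, h3, -⟩ := ho.pn a k h1
    rw [e] at h3
    exact sc_na h hF hR hd ho h2 _ h3
  have c4 : ∀ a b, .ax a ∈ l → .sc b ∈ l → sem (.ax a) ≠ sem (.sc b) := by
    intro a b h1 h2 e
    obtain ⟨-, h3, -⟩ := ho.ax a h1
    rw [e] at h3
    exact sc_na h hF hR hd ho h2 _ h3
  cases x with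
  | rg a =>
    cases y with
    | rg b =>
      rw [ho.rg a hx, ho.rg b hy] at hxy
      rw [hR.cyc.1 hxy]
    | pn b k =>
      rw [ho.rg a hx] at hxy
      exact absurd hxy.symm (c1 a _ hy (fun k e => by cases e))
    | ax b =>
      rw [ho.rg a hx] at hxy
      exact absurd hxy.symm (c1 a _ hy (fun k e => by cases e))
    | sc b =>
      rw [ho.rg a hx] at hxy
      exact absurd hxy.symm (c1 a _ hy (fun k e => by cases e))
  | pn a k =>
    cases y with
    | rg b =>
      rw [ho.rg b hy] at hxy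
      exact absurd hxy (c1 b _ hx (fun k e => by cases e))
    | pn b k' =>
      obtain ⟨-, h1, -⟩ := ho.pn a k hx
      obtain ⟨-, -, h2⟩ := ho.pn b k' hy
      rw [hxy] at h1
      have e1 : a = b := by
        by_contra hb
        exact h2 a hb h1
      subst e1
      rw [ho.pn2 a k k' hx hy hxy]
    | ax b => exact absurd hxy (c2 a k b hx hy)
    | sc b => exact absurd hxy (c3 a k b hx hy)
  | ax a =>
    cases y with
    | rg b =>
      rw [ho.rg b hy] at hxy
      exact absurd hxy (c1 b _ hx (fun k e => by cases e))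
    | pn b k => exact absurd hxy.symm (c2 b k a hy hx)
    | ax b => rw [ax_inj h hR ho hx hy hxy]
    | sc b => exact absurd hxy (c4 a b hx hy)
  | sc a =>
    cases y with
    | rg b =>
      rw [ho.rg b hy] at hxy
      exact absurd hxy (c1 b _ hx (fun k e => by cases e))
    | pn b k => exact absurd hxy.symm (c3 b k a hy hx)
    | ax b => exact absurd hxy.symm (c4 b a hy hx)
    | sc b =>
      by_cases e : a = b
      · rw [e]
      · exfalso
        obtain ⟨xa, wa⟩ := ho.sc a hx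
        obtain ⟨xb, wb⟩ := ho.sc b hy
        obtain ⟨oa, a1, a2⟩ := ho.ax a xa
        obtain ⟨ob, b1, b2⟩ := ho.ax b xb
        have hne : sem (.ax a) ≠ sem (.ax b) := fun e' => e (ax_inj h hR ho xa xb e')
        refine L2 h hF hR hd oa ob (sc_off h hR ho hx) hne a1 b1 wa.1 ?_
        rw [hxy]
        exact wb.1.symm

theorem occ_adj (h : MinCE G B) (hF : Faces G F) (hR : Ring G F i 6 c)
    (hd : ∀ j, 3 ≤ dg G (c j)) {l : List Nm} {sem : Nm → V} (ho : Occ G c l sem) {x y : Nm}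
    (hx : x ∈ l) (hy : y ∈ l) (hu : x.unk y = false) :
    G.Adj (sem x) (sem y) ↔ x.adj y = true := by
  have c1 : ∀ a b k, .pn b k ∈ l → (G.Adj (c a) (sem (.pn b k)) ↔ a = b) := by
    intro a b k h1
    obtain ⟨-, h2, h3⟩ := ho.pn b k h1
    constructor
    · intro h4
      by_contra hab
      exact h3 a hab h4.symm
    · rintro rfl
      exact h2.symm
  have c2 : ∀ a b, .ax b ∈ l → (G.Adj (c a) (sem (.ax b)) ↔ (a = b ∨ a = b + 1)) := by
    intro a b h1
    obtain ⟨h2, h3, h4⟩ := ho.ax b h1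
    constructor
    · intro h5
      exact ax_only h hR h2 h3 h4 h5.symm
    · rintro (rfl | rfl)
      · exact h3.symm
      · exact h4.symm
  have c3 : ∀ a k b, .pn a k ∈ l → .ax b ∈ l → ¬ G.Adj (sem (.pn a k)) (sem (.ax b)) := by
    intro a k b h1 h2 e
    obtain ⟨o1, h3, -⟩ := ho.pn a k h1
    obtain ⟨o2, h4, h5⟩ := ho.ax b h2
    have e1 := L1 h hF hR hd o1 o2 h3 h4 e
    have e2 := L1 h hF hR hd o1 o2 h3 h5 e
    exact RingAAux.n01 b (e1.symm.trans e2)
  have c4 : ∀ a k b, .pn a k ∈ l → .sc b ∈ l → ¬ G.Adj (sem (.pn a k)) (sem (.sc b)) := by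
    intro a k b h1 h2 e
    obtain ⟨o1, h3, -⟩ := ho.pn a k h1
    obtain ⟨xb, wb⟩ := ho.sc b h2
    obtain ⟨o2, h4, h5⟩ := ho.ax b xb
    have hne : sem (.pn a k) ≠ sem (.ax b) := fun e' => by
      have := occ_inj h hF hR hd ho h1 xb e'
      cases this
    exact L2 h hF hR hd o1 o2 (sc_off h hR ho h2) hne h3 h4 e wb.1.symm
  have c5 : ∀ a b, .ax a ∈ l → .ax b ∈ l → ¬ G.Adj (sem (.ax a)) (sem (.ax b)) := by
    intro a b h1 h2 e
    obtain ⟨o1, h3, -⟩ := ho.ax a h1
    obtain ⟨o2, h4, -⟩ := ho.ax b h2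
    have e1 := L1 h hF hR hd o1 o2 h3 h4 e
    subst e1
    exact e.ne rfl
  have c6 : ∀ a b, .ax a ∈ l → .sc b ∈ l → (G.Adj (sem (.ax a)) (sem (.sc b)) ↔ a = b) := by
    intro a b h1 h2
    obtain ⟨xb, wb⟩ := ho.sc b h2
    constructor
    · intro e
      by_contra hab
      obtain ⟨o1, h3, -⟩ := ho.ax a h1
      obtain ⟨o2, h4, h5⟩ := ho.ax b xb
      have hne : sem (.ax a) ≠ sem (.ax b) := fun e' => hab (ax_inj h hR ho h1 xb e')
      exact L2 h hF hR hd o1 o2 (sc_off h hR ho h2) hne h3 h4 e wb.1.symm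
    · rintro rfl
      exact wb.1
  cases x with
  | rg a =>
    cases y with
    | rg b =>
      rw [ho.rg a hx, ho.rg b hy]
      simp only [Nm.adj, Bool.or_eq_true, decide_eq_true_eq]
      constructor
      · intro e
        exact ring_chord h hR e
      · rintro (rfl | rfl)
        · exact hR.cyc.2 a
        · exact (hR.cyc.2 b).symm
    | pn b k =>
      rw [ho.rg a hx, c1 a b k hy]
      simp only [Nm.adj, decide_eq_true_eq]
    | ax b =>
      rw [ho.rg a hx, c2 a b hy]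
      simp only [Nm.adj, Bool.or_eq_true, decide_eq_true_eq]
    | sc b =>
      rw [ho.rg a hx]
      simp only [Nm.adj, Bool.false_eq_true, iff_false]
      exact fun e => sc_na h hF hR hd ho hy _ e.symm
  | pn a k =>
    cases y with
    | rg b =>
      rw [ho.rg b hy, G.adj_comm, c1 b a k hx]
      simp only [Nm.adj, decide_eq_true_eq]
      exact eq_comm
    | pn b k' =>
      simp only [Nm.adj, Bool.false_eq_true, iff_false]
      intro e
      obtain ⟨o1, h1, -⟩ := ho.pn a k hx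
      obtain ⟨o2, h2, -⟩ := ho.pn b k' hy
      have e1 := L1 h hF hR hd o1 o2 h1 h2 e
      subst e1
      simp only [Nm.unk, decide_true, Bool.true_and, Bool.not_eq_false', decide_eq_true_eq] at hu
      subst hu
      exact e.ne rfl
    | ax b =>
      simp only [Nm.adj, Bool.false_eq_true, iff_false]
      exact c3 a k b hx hy
    | sc b =>
      simp only [Nm.adj, Bool.false_eq_true, iff_false]
      exact c4 a k b hx hy
  | ax a =>
    cases y with
    | rg b =>
      rw [ho.rg b hy, G.adj_comm, c2 b a hx]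
      simp only [Nm.adj, Bool.or_eq_true, decide_eq_true_eq]
    | pn b k =>
      simp only [Nm.adj, Bool.false_eq_true, iff_false]
      exact fun e => c3 b k a hy hx e.symm
    | ax b =>
      simp only [Nm.adj, Bool.false_eq_true, iff_false]
      exact c5 a b hx hy
    | sc b =>
      rw [c6 a b hx hy]
      simp only [Nm.adj, decide_eq_true_eq]
  | sc a =>
    cases y with
    | rg b =>
      rw [ho.rg b hy]
      simp only [Nm.adj, Bool.false_eq_true, iff_false]
      exact sc_na h hF hR hd ho hx _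
    | pn b k =>
      simp only [Nm.adj, Bool.false_eq_true, iff_false]
      exact fun e => c4 b k a hy hx e.symm
    | ax b =>
      rw [G.adj_comm, c6 b a hy hx]
      simp only [Nm.adj, decide_eq_true_eq]
      exact eq_comm
    | sc b =>
      simp only [Nm.adj, Bool.false_eq_true, iff_false]
      exact sc_sc h hF hR hd ho hx hy

end Pool.Agent.Lib.SVY
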