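import Pool.Agent.Lib.SVY.NamesA

/-!
# SVY.NamesB: occurrences of configurations around a face of length 6

Plan.  `ex_of`: `exOK` gives `j`, `k` with `exJK`; use `L1`, `L2`, `L3`, `L4T` (the interior
vertices of the path are not in `R`, so off the ring); `pn j a` is adjacent to `c j` only (`Occ.pn`),
`ax j` to `c j`, `c (j+1)` only (`L0`).  `ring_inst`: `inst_of` (SVY/Del) with `occ_inj`,
`occ_adj`, `ex_of`; `OPath` is symmetric.
-/

set_option autoImplicit false
set_option linter.unusedSectionVars false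

namespace Pool.Agent.Lib.SVY

open Finset Pool.Agent.Lib.SVT Pool.Agent.Lib.SVX

variable {V : Type*} [Fintype V] [DecidableEq V] {G : SimpleGraph V} {B : Finset V}
variable {m : ℕ} {F : Fin m → Finset (Sym2 V)} {i : Fin m} {c : ZMod 6 → V}

namespace NamesBAux

theorem att_mem {l : List Nm} {sem : Nm → V} (ho : Occ G c l sem) {x : Nm} (hx : x ∈ l)
    {j : ZMod 6} (hj : j ∈ x.att) : Off c (sem x) ∧ G.Adj (sem x) (c j) := by
  cases x with
  | rg a => simp [Nm.att] at hj
  | pn a b =>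
    simp only [Nm.att, List.mem_singleton] at hj
    subst hj
    obtain ⟨h1, h2, -⟩ := ho.pn j b hx
    exact ⟨h1, h2⟩
  | ax a =>
    simp only [Nm.att, List.mem_cons, List.not_mem_nil, or_false] at hj
    obtain ⟨h1, h2, h3⟩ := ho.ax a hx
    rcases hj with rfl | rfl
    · exact ⟨h1, h2⟩
    · exact ⟨h1, h3⟩
  | sc a => simp [Nm.att] at hj

theorem att_not (h : MinCE G B) (hR : Ring G F i 6 c) {l : List Nm} {sem : Nm → V}
    (ho : Occ G c l sem) {x : Nm} (hx : x ∈ l)
    {j k : ZMod 6} (hj : j ∈ x.att) (hk : k ∉ x.att) : ¬ G.Adj (sem x) (c k) := by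
  cases x with
  | rg a => simp [Nm.att] at hj
  | pn a b =>
    simp only [Nm.att, List.mem_singleton] at hj hk
    subst hj
    obtain ⟨-, -, h3⟩ := ho.pn j b hx
    exact h3 k hk
  | ax a =>
    simp only [Nm.att, List.mem_cons, List.not_mem_nil, or_false] at hk
    obtain ⟨h1, h2, h3⟩ := ho.ax a hx
    intro h4
    exact hk (NamesAAux.ax_only h hR h1 h2 h3 h4)
  | sc a => simp [Nm.att] at hj

theorem adj_unk {x y : Nm} (h : x.adj y = true) : x.unk y = false := by
  cases x <;> cases y <;> simp_all [Nm.adj, Nm.unk]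

theorem opath_symm {R : Set V} {a b : V} {n : ℕ} (h : OPath G R a b n) : OPath G R b a n := by
  match n, h with
  | 1, h => exact SimpleGraph.Adj.symm h
  | 2, ⟨x, hx, h1, h2⟩ => exact ⟨x, hx, h2.symm, h1.symm⟩
  | 3, ⟨x, y, hx, hy, hxb, hya, h1, h2, h3⟩ =>
    exact ⟨y, x, hy, hx, hya, hxb, h3.symm, h2.symm, h1.symm⟩
  | 4, ⟨x, y, z, hx, hy, hz, hxb, hya, hyb, hza, hxz, h1, h2, h3, h4⟩ =>
    exact ⟨z, y, x, hz, hy, hx, hza, hyb, hya, hxb, hxz.symm, h4.symm, h3.symm, h2.symm, h1.symm⟩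

theorem excl_symm {cf : Cfg} {a b n : ℕ} : cf.excl a b n = cf.excl b a n := by
  unfold Cfg.excl
  rw [Bool.or_comm]

end NamesBAux

open NamesBAux

theorem ex_of (h : MinCE G B) (hF : Faces G F) (hR : Ring G F i 6 c)
    (hd : ∀ j, 3 ≤ dg G (c j)) {l : List Nm} {sem : Nm → V} (ho : Occ G c l sem)
    {te : ZMod 6 → Bool} (hte : ∀ j, te j = true → TE G (c j) (c (j + 1))) {R : Set V}
    (hRc : ∀ j, c j ∈ R) {x y : Nm} (hx : x ∈ l) (hy : y ∈ l) (hxy : x ≠ y) {n : ℕ}
    (hex : exOK te x y n = true) : ¬ OPath G R (sem x) (sem y) n := by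
  have hoff : ∀ v, v ∉ R → Off c v := by
    intro v hv j hj
    exact hv (hj ▸ hRc j)
  have hne : sem x ≠ sem y := fun e => hxy (occ_inj h hF hR hd ho hx hy e)
  unfold exOK at hex
  rw [List.any_eq_true] at hex
  obtain ⟨j, hj, hex⟩ := hex
  rw [List.any_eq_true] at hex
  obtain ⟨k, hk, hex⟩ := hex
  obtain ⟨hxo, hxj⟩ := att_mem ho hx hj
  obtain ⟨hyo, hyk⟩ := att_mem ho hy hk
  have hxn : ∀ a, (x.att.contains a = true → False) → ¬ G.Adj (sem x) (c a) := by
    intro a ha
    refine att_not h hR ho hx hj ?_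
    intro ha'
    exact ha (List.contains_iff_mem.2 ha')
  have hyn : ∀ a, (y.att.contains a = true → False) → ¬ G.Adj (sem y) (c a) := by
    intro a ha
    refine att_not h hR ho hy hk ?_
    intro ha'
    exact ha (List.contains_iff_mem.2 ha')
  intro hO
  match n, hO, hex with
  | 1, hO, hex =>
    have e := L1 h hF hR hd hxo hyo hxj hyk hO
    simp [exJK, e] at hex
  | 2, ⟨z, hz, h1, h2⟩, hex =>
    exact L2 h hF hR hd hxo hyo (hoff z hz) hne hxj hyk h1 h2
  | 3, ⟨z, w, hz, hw, hzy, hwx, h1, h2, h3⟩, hex =>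
    have q := L3 h hF hR hd hxo hyo (hoff z hz) (hoff w hw) hne (Ne.symm hwx) hzy hxj hyk h1 h2 h3
    have d1 : ∀ j k : ZMod 6, j = k → k ≠ j + 1 ∧ j ≠ k + 1 ∧ k ≠ j + 2 ∧ j ≠ k + 2 ∧
        k ≠ j + 3 := by
      clear * -
      decide
    have d2 : ∀ j k : ZMod 6, k = j + 1 → j ≠ k + 1 ∧ k ≠ j + 2 ∧ j ≠ k + 2 ∧
        k ≠ j + 3 := by
      clear * -
      decide
    have d3 : ∀ j k : ZMod 6, k = j + 2 → j ≠ k + 1 ∧ k ≠ j + 1 ∧ j ≠ k + 2 ∧
        k ≠ j + 3 := by
      clear * -
      decide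
    have d4 : ∀ j k : ZMod 6, j = k + 1 → k ≠ j + 3 := by
      clear * -
      decide
    have d5 : ∀ j k : ZMod 6, j = k + 2 → k ≠ j + 3 := by
      clear * -
      decide
    have hw1 : ∀ a b, WE G (c a) (c b) → b = a + 1 → te a = true → False := by
      intro a b hab e ht
      subst e
      exact (hte a ht).not_we hab
    simp only [exJK, Bool.or_eq_true, Bool.and_eq_true, decide_eq_true_eq,
      Bool.not_eq_true', (by decide : ¬ (3 : ℕ) = 1), (by decide : ¬ (3 : ℕ) = 2), if_false,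
      if_true] at hex
    have hc : ∀ (z : Nm) (a : ZMod 6), z.att.contains a = false →
        (z.att.contains a = true → False) := by
      intro z a h1 h2
      rw [h1] at h2
      exact absurd h2 (by decide)
    rcases hex with (((e | ⟨e, t⟩) | ⟨e, t⟩) | ⟨⟨e, t1⟩, t2⟩) | ⟨⟨e, t1⟩, t2⟩
    · obtain ⟨n1, n2, n3, n4, n5⟩ := d1 j k e
      rcases q with q | q | q | q | q
      · exact n1 q.1
      · exact n2 q.1
      · exact n3 q.1
      · exact n4 q.1
      · exact n5 q
    · obtain ⟨n2, n3, n4, n5⟩ := d2 j k e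
      rcases q with q | q | q | q | q
      · exact hw1 _ _ q.2 e t
      · exact n2 q.1
      · exact n3 q.1
      · exact n4 q.1
      · exact n5 q
    · obtain ⟨n2, n3, n4, n5⟩ := d2 k j e
      rcases q with q | q | q | q | q
      · exact n2 q.1
      · exact hw1 _ _ q.2.symm e t
      · exact n4 q.1
      · exact n3 q.1
      · exact d4 j k e q
    · obtain ⟨n1, n2, n4, n5⟩ := d3 j k e
      have e1 : k = j + 1 + 1 := by
        rw [e]
        ring
      rcases q with q | q | ⟨-, ⟨q1, q2⟩ | ⟨q1, q2⟩⟩ | q | q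
      · exact n2 q.1
      · exact n1 q.1
      · rcases t1 with t1 | t1
        · exact hyn _ (hc _ _ t1) q1
        · exact hw1 _ _ q2 rfl t1
      · rcases t2 with t2 | t2
        · exact hxn _ (hc _ _ t2) q1
        · exact hw1 _ _ q2 e1 t2
      · exact n4 q.1
      · exact n5 q
    · obtain ⟨n1, n2, n4, n5⟩ := d3 k j e
      have e1 : j = k + 1 + 1 := by
        rw [e]
        ring
      rcases q with q | q | q | ⟨-, ⟨q1, q2⟩ | ⟨q1, q2⟩⟩ | q
      · exact n1 q.1
      · exact n2 q.1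
      · exact n4 q.1
      · rcases t1 with t1 | t1
        · exact hxn _ (hc _ _ t1) q1
        · exact hw1 _ _ q2 rfl t1
      · rcases t2 with t2 | t2
        · exact hyn _ (hc _ _ t2) q1
        · exact hw1 _ _ q2 e1 t2
      · exact d5 j k e q
  | 4, ⟨z, w, u, hz, hw, hu, hzy, hwx, hwy, hux, hzu, h1, h2, h3, h4⟩, hex =>
    have hc : ∀ (z : Nm) (a : ZMod 6), z.att.contains a = false →
        (z.att.contains a = true → False) := by
      intro z a h1 h2
      rw [h1] at h2
      exact absurd h2 (by decide)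
    simp only [exJK, Bool.or_eq_true, Bool.and_eq_true, decide_eq_true_eq,
      Bool.not_eq_true', (by decide : ¬ (4 : ℕ) = 1), (by decide : ¬ (4 : ℕ) = 2),
      (by decide : ¬ (4 : ℕ) = 3), if_false, if_true] at hex
    have hnd : [sem x, z, w, u, sem y].Nodup := by
      simp only [List.nodup_cons, List.mem_cons, List.not_mem_nil, or_false, not_or,
        not_false_eq_true, List.nodup_nil, and_true]
      exact ⟨⟨h1.ne, Ne.symm hwx, Ne.symm hux, hne⟩, ⟨h2.ne, hzu, hzy⟩, ⟨h3.ne, hwy⟩, h4.ne⟩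
    have hnd' : [sem y, u, w, z, sem x].Nodup := by
      simp only [List.nodup_cons, List.mem_cons, List.not_mem_nil, or_false, not_or,
        not_false_eq_true, List.nodup_nil, and_true]
      exact ⟨⟨h4.ne.symm, Ne.symm hwy, Ne.symm hzy, hne.symm⟩, ⟨h3.ne.symm, hzu.symm, hux⟩,
        ⟨h2.ne.symm, hwx⟩, h1.ne.symm⟩
    rcases hex with ⟨⟨⟨e, t⟩, p1⟩, p2⟩ | ⟨⟨⟨e, t⟩, p1⟩, p2⟩
    · subst e
      exact L4T h hF hR hd hxo hyo (hoff z hz) (hoff w hw) (hoff u hu) hnd hxj hyk h1 h2 h3 h4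
        (hte j t) (hxn _ (hc _ _ p1)) (hyn _ (hc _ _ p2))
    · subst e
      exact L4T h hF hR hd hyo hxo (hoff u hu) (hoff w hw) (hoff z hz) hnd' hyk hxj h4.symm
        h3.symm h2.symm h1.symm (hte k t) (hyn _ (hc _ _ p2)) (hxn _ (hc _ _ p1))

/-- the occurrence of a configuration from the names -/
theorem ring_inst (h : MinCE G B) (hF : Faces G F) (hR : Ring G F i 6 c)
    (hd : ∀ j, 3 ≤ dg G (c j)) {cf : Cfg} {l : List Nm} {te : ZMod 6 → Bool} {sem : Nm → V}
    (hlen : l.length = cf.N) (hnd : l.Nodup) (hchk : rchk cf l te = true)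
    (ho : Occ G c l sem) (hte : ∀ j, te j = true → TE G (c j) (c (j + 1)))
    (hbs : ∀ a b, a < cf.N → b < cf.N → cf.adjE a b = true →
      (l.getD a (.rg 0)).adj (l.getD b (.rg 0)) = false →
      G.Adj (sem (l.getD a (.rg 0))) (sem (l.getD b (.rg 0))))
    (hB : ∀ a, a < cf.N → cf.inH a = true → sem (l.getD a (.rg 0)) ∉ B)
    (hdeg : ∀ a, a < cf.nc → dg G (sem (l.getD a (.rg 0))) ≤ cf.outs a + (nn cf a).card)
    (hdegs : ∀ a, cf.isT a = true → cf.sm a = true →
      dg G (sem (l.getD a (.rg 0))) ≤ cf.outs a + (nh cf a).card) :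
    Inst cf G B (fun a => sem (l.getD a (.rg 0))) := by
  have hN : ∀ a, a < cf.nc → a < cf.N := fun a ha => Nat.lt_of_lt_of_le ha (Nat.le_add_right _ _)
  have hmem : ∀ a, a < cf.N → l.getD a (.rg 0) ∈ l := by
    intro a ha
    rw [← hlen] at ha
    rw [List.getD_eq_getElem _ _ ha]
    exact List.getElem_mem ha
  have hinj : ∀ a b, a < cf.N → b < cf.N → l.getD a (.rg 0) = l.getD b (.rg 0) → a = b := by
    intro a b ha hb hab
    rw [← hlen] at ha hb
    rw [List.getD_eq_getElem _ _ ha, List.getD_eq_getElem _ _ hb] at hab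
    exact (hnd.getElem_inj_iff).1 hab
  have hTN : ∀ t, cf.isT t = true → t < cf.N := by
    intro t ht
    unfold Cfg.isT at ht
    rw [Bool.and_eq_true, decide_eq_true_eq, decide_eq_true_eq] at ht
    exact ht.2
  have hcH : ∀ r, r < cf.nc → cf.inH r = true := by
    intro r hr
    unfold Cfg.inH
    rw [Bool.or_eq_true, decide_eq_true_eq]
    exact Or.inl hr
  have hsH : ∀ t, cf.isT t = true → cf.sm t = true → cf.inH t = true := by
    intro t h1 h2
    unfold Cfg.inH
    rw [Bool.or_eq_true, Bool.and_eq_true]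
    exact Or.inr ⟨h1, h2⟩
  unfold rchk at hchk
  rw [Bool.and_eq_true, Bool.and_eq_true] at hchk
  obtain ⟨⟨hc1, hc2⟩, hc3⟩ := hchk
  have hp : ∀ a b, a < cf.N → b < cf.N →
      (cf.inH a = true → cf.inH b = true →
        (cf.adjE a b = (l.getD a (.rg 0)).adj (l.getD b (.rg 0)) ∧
          (l.getD a (.rg 0)).unk (l.getD b (.rg 0)) = false)) ∧
      (cf.adjE a b = true → (l.getD a (.rg 0)).adj (l.getD b (.rg 0)) = true ∨
        (l.getD a (.rg 0)).unk (l.getD b (.rg 0)) = true) := by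
    intro a b ha hb
    have h1 := (List.all_eq_true.1 ((List.all_eq_true.1 hc1) a (List.mem_range.2 ha))) b
      (List.mem_range.2 hb)
    rw [Bool.and_eq_true] at h1
    obtain ⟨h1, h2⟩ := h1
    constructor
    · intro h3 h4
      rw [h3, h4] at h1
      simpa using h1
    · intro h3
      rw [h3] at h2
      simpa using h2
  have hadj : ∀ a b, a < cf.N → b < cf.N → cf.inH a = true → cf.inH b = true →
      G.Adj (sem (l.getD a (.rg 0))) (sem (l.getD b (.rg 0))) → cf.adjE a b = true := by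
    intro a b ha hb h1 h2 h3
    obtain ⟨h4, h5⟩ := (hp a b ha hb).1 h1 h2
    rw [h4]
    exact (occ_adj h hF hR hd ho (hmem a ha) (hmem b hb) h5).1 h3
  refine inst_of ?_ ?_ ?_ ?_ ?_ ?_ ?_
  · intro a b ha hb hab
    exact hinj a b ha hb (occ_inj h hF hR hd ho (hmem a ha) (hmem b hb) hab)
  · intro r hr
    exact hB r (hN r hr) (hcH r hr)
  · intro a b ha hb hab
    by_cases h1 : (l.getD a (.rg 0)).adj (l.getD b (.rg 0)) = true
    · exact (occ_adj h hF hR hd ho (hmem a ha) (hmem b hb) (adj_unk h1)).2 h1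
    · exact hbs a b ha hb hab (by simpa using h1)
  · intro r hr
    exact hdeg r hr
  · intro r j hr hj hjH hrj
    exact hadj r j (hN r hr) hj (hcH r hr) hjH hrj
  · intro t ht hs
    refine ⟨hB t (hTN t ht) (hsH t ht hs), hdegs t ht hs, ?_⟩
    intro j hj hjH htj
    exact hadj t j (hTN t ht) hj (hsH t ht hs) hjH htj
  · intro a b n ha hb hab hex
    have hRc : ∀ j, c j ∈ {v | ∃ r, r < cf.nc ∧ v = sem (l.getD r (.rg 0))} := by
      intro j
      have hne : cf.al.isEmpty = false := by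
        unfold Cfg.excl at hex
        cases hal : cf.al with
        | nil =>
          rw [hal] at hex
          simp at hex
        | cons p q => rfl
      rw [hne] at hc3
      simp only [Bool.false_or] at hc3
      have h1 := (List.all_eq_true.1 hc3) j.val (List.mem_range.2 (ZMod.val_lt j))
      rw [List.any_eq_true] at h1
      obtain ⟨r, hr, h2⟩ := h1
      rw [decide_eq_true_eq] at h2
      have e : ((j.val : ℕ) : ZMod 6) = j := ZMod.natCast_zmod_val j
      rw [e] at h2
      have hr' := List.mem_range.1 hr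
      refine ⟨r, hr', ?_⟩
      have h3 := hmem r (hN r hr')
      rw [h2] at h3
      rw [h2, ho.rg j h3]
    unfold Cfg.excl at hex
    rw [Bool.or_eq_true] at hex
    rcases hex with hex | hex
    · have h1 := (List.all_eq_true.1 hc2) _ (List.contains_iff_mem.1 hex)
      refine ex_of h hF hR hd ho hte hRc (hmem a (hTN a ha)) (hmem b (hTN b hb)) ?_ h1
      intro e
      exact hab (hinj a b (hTN a ha) (hTN b hb) e)
    · have h1 := (List.all_eq_true.1 hc2) _ (List.contains_iff_mem.1 hex)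
      intro hO
      refine ex_of h hF hR hd ho hte hRc (hmem b (hTN b hb)) (hmem a (hTN a ha)) ?_ h1
        (opath_symm hO)
      intro e
      exact hab (hinj a b (hTN a ha) (hTN b hb) e.symm)

end Pool.Agent.Lib.SVY
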