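import Pool.Agent.Lib.SVY.Dart
import Pool.Agent.Lib.SVY.CeB

/-!
# SVY.OutA: what a vertex gives

Plan.  Unfold `CC`, `Af`.  `Cd`, `FD` need `Dt`, hence `Np`; `Cb` needs `q ∈ B`; `Ce`, `TT`-term,
`S3` need `Ex2`.  `dart_pay`; the number of darts is at most `(tn G q).card = 2 * tt G q`.
`out_ex2`: `n` the weak neighbour (`Dm`); `∑ u, C1` is 4 (`One`) or 2 (`Star`); `∑ u, Ce` and the
`TT`-term together 4 (`Ex2.tt`: exactly one face); `S3` only for `n` `Star`: the faces of the edge
`g n` are two, one of them has the edge `n o` with `o` the `One` neighbour of `n` (`corners` at `n`,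
degree 3), so at most one face, 2.
-/

set_option autoImplicit false
set_option linter.unusedSectionVars false

namespace Pool.Agent.Lib.SVY

open Finset Pool.Agent.Lib.SVT Pool.Agent.Lib.SVX

variable {V : Type*} [Fintype V] [DecidableEq V] {G : SimpleGraph V} {B : Finset V}
variable {m : ℕ} {F : Fin m → Finset (Sym2 V)} {i : Fin m}


namespace OutAAux

theorem np_not_ex2 {v : V} (hv : v ∉ B) (h1 : Np G B v) : ¬ Ex2 G B v := by
  intro h2
  rcases h1 with h3 | h3
  · rcases h3 with h4 | h4
    · exact hv h4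
    · exact h4.2 (Or.inl h2)
  · have e1 := h3.1.2.1
    have e2 := h2.2.1
    omega

theorem cb_zero {v u : V} (hv : v ∉ B) : Cb G B v u = 0 := by
  unfold Cb
  rw [if_neg]
  rintro ⟨h, -⟩
  exact hv h

open Classical in
theorem cd_zero {v u : V} (h1 : ¬ Np G B v) : Cd G B v u = 0 := by
  unfold Cd
  rw [Finset.filter_eq_empty_iff.2 (fun a _ h2 => h1 h2.1.1)]
  simp

theorem ce_zero {v u : V} (h1 : ¬ Ex2 G B v) : Ce G B v u = 0 := by
  unfold Ce
  rw [if_neg h1]

open Classical in
theorem af_ex {v : V} (i : Fin m) (h1 : ¬ Ex2 G B v) : Af G B F v i =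
    2 * ((univ.filter (fun a => FD G B v a ∧ Rcv G B F v a i)).card : ℤ) := by
  unfold Af
  rw [if_neg (fun h2 => h1 h2.1), if_neg (fun h2 => h1 h2.1)]
  ring

open Classical in
theorem af_np {v : V} (i : Fin m) (h1 : ¬ Np G B v) : Af G B F v i =
    (if Ex2 G B v ∧ TT G F v i then 4 - ∑ u, Ce G B v u else 0) +
    (if S3 G B F v i then 2 else 0) := by
  unfold Af
  rw [Finset.filter_eq_empty_iff.2 (fun a _ h2 => h1 h2.1.1.1)]
  simp

/-- the faces with `S3` are equal -/
theorem s3_unique (h : MinCE G B) (hF : Faces G F) {g : V} {i j : Fin m}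
    (h1 : S3 G B F g i) (h2 : S3 G B F g j) : i = j := by
  obtain ⟨hg, -, n, u, w1, s1, e1, n1, e2, n2⟩ := h1
  obtain ⟨-, -, n', u', w1', -, e1', n1', e2', n2'⟩ := h2
  have hn : n' = n := Ex2.wn_unique h hg w1' w1
  subst hn
  obtain ⟨⟨hB, hd, ht⟩, o, wo, ho⟩ := s1
  have hog : o ≠ g := by
    rintro rfl
    have e3 := ho.2.1
    have e4 := hg.2.1
    omega
  obtain ⟨k, k1, k2⟩ := corner_three hF (two_conn h) hd w1.1.symm wo.1 hog.symm
  have e1s : s(n', g) ∈ F i := by
    rw [Sym2.eq_swap]
    exact e1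
  have e1s' : s(n', g) ∈ F j := by
    rw [Sym2.eq_swap]
    exact e1'
  have hki : i ≠ k := by
    rintro rfl
    rcases face_two hF hog.symm k1 k2 e2 with h5 | h5
    · exact n1 h5
    · exact n2 (h5 ▸ ho)
  have hkj : j ≠ k := by
    rintro rfl
    rcases face_two hF hog.symm k1 k2 e2' with h5 | h5
    · exact n1' h5
    · exact n2' (h5 ▸ ho)
  obtain ⟨l, -, -, hl⟩ := RingNAux.second hF k1
  rw [(hl i e1s).resolve_left hki, (hl j e1s').resolve_left hkj]

end OutAAux

open OutAAux

open Classical in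
theorem OutAAux.out_np_aux (h : MinCE G B) (hF : Faces G F) {v : V} (hv : v ∉ B)
    (h1 : Np G B v) : out G B F v ≤ ∑ u, C1 G B v u + 4 * (tt G v : ℤ) := by
  have h2 : ¬ Ex2 G B v := np_not_ex2 hv h1
  have e1 : ∑ u, CC G B v u = ∑ u, C1 G B v u + ∑ u, Cd G B v u := by
    rw [← Finset.sum_add_distrib]
    apply Finset.sum_congr rfl
    intro u _
    unfold CC
    rw [cb_zero hv, ce_zero h2]
    ring
  have e2 := dart_pay (F := F) h hF v
  have e3 : ∑ i, Af G B F v i = 2 * ∑ i, ((univ.filter (fun a => FD G B v a ∧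
      Rcv G B F v a i)).card : ℤ) := by
    rw [Finset.mul_sum]
    apply Finset.sum_congr rfl
    intro i _
    exact af_ex i h2
  have e4 : (univ.filter (fun a => Dt G B v a)).card ≤ (tn G v).card := by
    apply Finset.card_le_card
    intro a ha
    exact mem_tn.2 (Finset.mem_filter.1 ha).2.2.1
  rw [card_tn h v] at e4
  have e5 : ((univ.filter (fun a => Dt G B v a)).card : ℤ) ≤ 2 * (tt G v : ℤ) := by
    exact_mod_cast e4
  unfold out
  rw [e1, e3]
  linarith

open Classical in
theorem OutAAux.out_ex2_aux (h : MinCE G B) (hF : Faces G F) {v : V} (h1 : Ex2 G B v) :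
    out G B F v ≤ 8 := by
  have h2 : ¬ Np G B v := fun h3 => np_not_ex2 h1.1 h3 h1
  have e1 : ∑ u, CC G B v u = ∑ u, C1 G B v u + ∑ u, Ce G B v u := by
    rw [← Finset.sum_add_distrib]
    apply Finset.sum_congr rfl
    intro u _
    unfold CC
    rw [cd_zero h2, cb_zero h1.1]
    ring
  have e2 : ∑ i, Af G B F v i =
      ∑ i, (if Ex2 G B v ∧ TT G F v i then 4 - ∑ u, Ce G B v u else 0) +
      ∑ i, (if S3 G B F v i then (2 : ℤ) else 0) := by
    rw [← Finset.sum_add_distrib]
    apply Finset.sum_congr rfl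
    intro i _
    exact af_np i h2
  obtain ⟨i0, t1, t2⟩ := Ex2.tt h hF h1
  have e3 : ∑ i, (if Ex2 G B v ∧ TT G F v i then
      4 - ∑ u, Ce G B v u else 0) = 4 - ∑ u, Ce G B v u := by
    rw [Finset.sum_eq_single i0]
    · rw [if_pos ⟨h1, t1⟩]
    · intro j _ hj
      rw [if_neg]
      rintro ⟨-, h3⟩
      exact hj (t2 j h3)
    · intro h3
      exact absurd (mem_univ _) h3
  have c1 := card_wn h v
  rw [h1.2.1, h1.2.2.1] at c1
  obtain ⟨n, hn⟩ := card_eq_one.1 (show (wn G v).card = 1 by omega)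
  have hnw : WE G v n := by
    rw [← mem_wn, hn]
    exact mem_singleton_self n
  have huniq : ∀ u, WE G v u → u = n := by
    intro u hu
    rw [← mem_wn, hn, mem_singleton] at hu
    exact hu
  have e4 : ∑ u, C1 G B v u = C1 G B v n := by
    rw [Finset.sum_eq_single n]
    · intro u _ hu
      unfold C1
      rw [if_neg]
      rintro ⟨h3, -⟩
      exact hu (huniq u h3)
    · intro h3
      exact absurd (mem_univ _) h3
  have hv1 : ¬ One G B v := by
    intro h3
    have e5 := h3.2.1
    have e6 := h1.2.1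
    omega
  have key : C1 G B v n + ∑ i, (if S3 G B F v i then (2 : ℤ) else 0) ≤ 4 := by
    rcases h1.2.2.2 n hnw with h3 | h3
    · have e5 : ∑ i, (if S3 G B F v i then (2 : ℤ) else 0) = 0 := by
        apply Finset.sum_eq_zero
        intro i _
        rw [if_neg]
        rintro ⟨-, -, n', u, w1, s1, -⟩
        have h4 := huniq n' w1
        subst h4
        have e6 := h3.2.2
        have e7 := s1.1.2.2
        omega
      have e6 : C1 G B v n = 4 := by
        unfold C1
        rw [if_pos ⟨hnw, hv1⟩, if_pos h3]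
      rw [e5, e6]
      norm_num
    · have h4 : ¬ One G B n := by
        intro h5
        have e6 := h5.2.2
        have e7 := h3.1.2.2
        omega
      have e6 : C1 G B v n = 2 := by
        unfold C1
        rw [if_pos ⟨hnw, hv1⟩, if_neg h4, if_pos h3]
      have e5 : ∑ i, (if S3 G B F v i then (2 : ℤ) else 0) ≤ 2 := by
        by_cases h5 : ∃ i, S3 G B F v i
        · obtain ⟨i1, h6⟩ := h5
          rw [Finset.sum_eq_single i1]
          · rw [if_pos h6]
          · intro j _ hj
            rw [if_neg]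
            intro h7
            exact hj (s3_unique h hF h7 h6)
          · intro h7
            exact absurd (mem_univ _) h7
        · rw [Finset.sum_eq_zero]
          · norm_num
          · intro i _
            rw [if_neg]
            intro h6
            exact h5 ⟨i, h6⟩
      rw [e6]
      linarith
  unfold out
  rw [e1, e2, e3, e4]
  linarith

theorem c1_one {v : V} (hv : One G B v) : ∑ u, C1 G B v u = 0 := by
  apply Finset.sum_eq_zero
  intro u _
  unfold C1
  rw [if_neg]
  rintro ⟨-, h1⟩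
  exact h1 hv

open Classical in
theorem c1_le (v : V) :
    ∑ u, C1 G B v u ≤ 4 * ((univ.filter (fun u => WE G v u ∧ Dm G B u)).card : ℤ) := by
  rw [Finset.card_filter, Nat.cast_sum, Finset.mul_sum]
  apply Finset.sum_le_sum
  intro u _
  unfold C1
  by_cases h1 : WE G v u ∧ ¬ One G B v
  · rw [if_pos h1]
    by_cases h2 : One G B u
    · rw [if_pos h2, if_pos ⟨h1.1, Or.inl h2⟩]
      norm_num
    · rw [if_neg h2]
      by_cases h3 : Star G B u
      · rw [if_pos h3, if_pos ⟨h1.1, Or.inr h3⟩]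
        norm_num
      · rw [if_neg h3]
        positivity
  · rw [if_neg h1]
    positivity

theorem out_none {v : V} (hv : v ∉ B) (h1 : ¬ Np G B v) (h2 : ¬ Ex2 G B v) :
    out G B F v = ∑ u, C1 G B v u := by
  unfold out
  have e1 : ∑ i, Af G B F v i = 0 := by
    apply Finset.sum_eq_zero
    intro i _
    rw [af_np i h1, if_neg (fun h3 => h2 h3.1), if_neg (fun h3 => h2 h3.1)]
    norm_num
  rw [e1, add_zero]
  apply Finset.sum_congr rfl
  intro u _
  unfold CC
  rw [cd_zero h1, cb_zero hv, ce_zero h2]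
  ring

theorem out_np (h : MinCE G B) (hF : Faces G F) {v : V} (hv : v ∉ B) (h1 : Np G B v) :
    out G B F v ≤ ∑ u, C1 G B v u + 4 * (tt G v : ℤ) :=
  OutAAux.out_np_aux h hF hv h1

theorem out_ex2 (h : MinCE G B) (hF : Faces G F) (hL : LF G B F) {v : V} (h1 : Ex2 G B v) :
    out G B F v ≤ 8 :=
  OutAAux.out_ex2_aux h hF h1

end Pool.Agent.Lib.SVY
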