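import Pool.Agent.Lib.SVY.LocB

/-!
# SVY.PathData: data of the path lemmas

Generated.  The checks of the graphs and of the excluded paths.
-/

set_option autoImplicit false
set_option linter.unusedSectionVars false
set_option maxRecDepth 100000

namespace Pool.Agent.Lib.SVY.LC

open Pool.Agent.Lib.SVX

/-- path of three 3-vertices; names: 0=a 1=b 2=c -/
def gL1 : Cfg where
  nc := 3
  nt := 0
  E := [(0, 1), (1, 2)]
  Bs := []
  outs := fun i => if i == 1 then 1 else if i == 0 || i == 2 then 2 else 0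
  sm := fun _ => false
  keep := []
  pi := fun i => i
  NE := []
  al := []

def gL1P (i : ℕ) : ℕ := i

theorem gL1_adm : gL1.adm gL1P = true := by decide

theorem gL1_lchk : Loc.lchk gL1 [] [(0, 2)] [(0, 2)] 1 = true := by decide

theorem gL1_echk : Loc.echk gL1 [] [(0, 2)] [(0, 2)] [] 1 = true := by decide

/-- path of vertices of degrees 3, 3, 4, 3; names: 0=z 1=v 2=y 3=u -/
def gL2 : Cfg where
  nc := 2
  nt := 2
  E := [(0, 1), (1, 2)]
  Bs := [(2, 3)]
  outs := fun i => if i == 1 then 1 else if i == 0 || i == 2 || i == 3 then 2 else 0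
  sm := fun i => i == 2 || i == 3
  keep := []
  pi := fun i => if i = 0 then 2 else if i = 1 then 2 else i
  NE := []
  al := []

def gL2P (i : ℕ) : ℕ := if i = 0 then 1 else if i = 1 then 2 else i

theorem gL2_adm : gL2.adm gL2P = true := by decide

theorem gL2_lchk : Loc.lchk gL2 [] [(0, 2), (1, 3), (0, 3)] [(0, 2), (1, 3), (0, 3)] 1 = true := by decide

theorem gL2_echk : Loc.echk gL2 [] [(0, 2), (1, 3), (0, 3)] [(0, 2), (1, 3), (0, 3)] [] 1 = true := by decide

/-- path of vertices of degrees 3, 4, 3, 4, 3; names: 0=c 1=a 2=b 3=d 4=e -/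
def gL3 : Cfg where
  nc := 1
  nt := 4
  E := [(2, 0), (0, 3)]
  Bs := [(1, 2), (3, 4)]
  outs := fun i => if i == 0 then 1 else if i == 1 || i == 2 || i == 3 || i == 4 then 2 else 0
  sm := fun i => i == 1 || i == 2 || i == 3 || i == 4
  keep := []
  pi := fun i => if i = 0 then 2 else i
  NE := []
  al := []

def gL3P (i : ℕ) : ℕ := if i = 0 then 2 else i

theorem gL3_adm : gL3.adm gL3P = true := by decide

theorem gL3_lchk : Loc.lchk gL3 [] [(1, 0), (1, 3), (1, 4), (2, 3), (2, 4), (0, 4)] [(1, 0), (1, 3), (1, 4), (2, 3), (2, 4), (0, 4)] 1 = true := by decide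

theorem gL3_echk : Loc.echk gL3 [] [(1, 0), (1, 3), (1, 4), (2, 3), (2, 4), (0, 4)] [(1, 0), (1, 3), (1, 4), (2, 3), (2, 4), (0, 4)] [] 1 = true := by decide

/-- 4-vertex with three 3-neighbours; names: 0=y 1=a 2=b 3=c -/
def gC2 : Cfg where
  nc := 4
  nt := 0
  E := [(0, 1), (0, 2), (0, 3)]
  Bs := []
  outs := fun i => if i == 0 then 1 else if i == 1 || i == 2 || i == 3 then 2 else 0
  sm := fun _ => false
  keep := []
  pi := fun i => i
  NE := []
  al := []

def gC2P (i : ℕ) : ℕ := i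

theorem gC2_adm : gC2.adm gC2P = true := by decide

theorem gC2_lchk : Loc.lchk gC2 [] [(1, 2), (1, 3), (2, 3)] [(1, 2), (1, 3), (2, 3)] 1 = true := by decide

theorem gC2_echk : Loc.echk gC2 [] [(1, 2), (1, 3), (2, 3)] [(1, 2), (1, 3), (2, 3)] [] 1 = true := by decide

end Pool.Agent.Lib.SVY.LC
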