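import Pool.Agent.Lib.SVY.PathData
import Pool.Agent.Lib.SVX.Chk

/-!
# SVY.PathL: the list statements

Generated.
-/

set_option autoImplicit false
set_option linter.unusedSectionVars false
set_option maxRecDepth 100000

namespace Pool.Agent.Lib.SVY.LC

open Pool.Agent.Lib.SVX Pool.Agent.Lib.SVX.Chk

def gL1_l : List St :=
  [.par 3 0 [],
   .vf ⟨0, true, [], []⟩,
   .ed 0 1,
   .par 5 1 [],
   .vf ⟨1, true, [], []⟩,
   .ed 1 2,
   .par 3 2 [],
   .vf ⟨2, true, [], []⟩]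

def gL2_l : List St :=
  [.par 3 0 [],
   .vf ⟨0, true, [], []⟩,
   .ed 0 1,
   .par 5 1 [],
   .vf ⟨1, true, [], []⟩,
   .ed 1 2,
   .par 3 2 [],
   .vf ⟨2, true, [], []⟩,
   .ed 2 3,
   .par 3 3 [],
   .vf ⟨3, true, [], []⟩]

def gL3_l : List St :=
  [.par 3 1 [],
   .vf ⟨1, true, [], []⟩,
   .ed 1 2,
   .par 3 2 [],
   .vf ⟨2, true, [], []⟩,
   .ed 2 0,
   .par 5 0 [],
   .vf ⟨0, true, [], []⟩,
   .ed 0 3,
   .par 3 3 [],
   .vf ⟨3, true, [], []⟩,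
   .ed 3 4,
   .par 3 4 [],
   .vf ⟨4, true, [], []⟩]

def gC2_l : List St :=
  [.par 3 1 [],
   .vf ⟨1, true, [], []⟩,
   .ed 1 0,
   .par 5 0 [],
   .par 3 3 [],
   .vf ⟨0, true, [], [(3, true, [])]⟩,
   .ed 0 2,
   .par 3 2 [],
   .vf ⟨2, true, [], []⟩]

/-- all checks, one after the other -/
theorem pathl_seq :
    (chkPath (ofCfg gL1) gL1_l [] 0 = true) ∧
    (chkPath (ofCfg gL2) gL2_l [(2, 1, []), (3, 1, [2])] 0 = true) ∧
    (chkPath (ofCfg gL3) gL3_l [(1, 1, []), (2, 1, [1]), (3, 1, []), (4, 1, [3])] 1 = true) ∧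
    (chkPath (ofCfg gC2) gC2_l [] 1 = true) :=
  ⟨(by
  decide +kernel),
  (by
  decide +kernel),
  (by
  decide +kernel),
  (by
  decide +kernel)⟩

theorem gL1_chk : chkPath (ofCfg gL1) gL1_l [] 0 = true := pathl_seq.1

theorem gL2_chk : chkPath (ofCfg gL2) gL2_l [(2, 1, []), (3, 1, [2])] 0 = true := pathl_seq.2.1

theorem gL3_chk : chkPath (ofCfg gL3) gL3_l [(1, 1, []), (2, 1, [1]), (3, 1, []), (4, 1, [3])] 1 = true := pathl_seq.2.2.1

theorem gC2_chk : chkPath (ofCfg gC2) gC2_l [] 1 = true := pathl_seq.2.2.2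

theorem gL1_list : gL1.ListOK := chkPath_cfg gL1_chk

theorem gL2_list : gL2.ListOK := chkPath_cfg gL2_chk

theorem gL3_list : gL3.ListOK := chkPath_cfg gL3_chk

theorem gC2_list : gC2.ListOK := chkPath_cfg gC2_chk

end Pool.Agent.Lib.SVY.LC
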