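import Pool.Agent.Lib.SVY.Tri

/-!
# SVY.RingA: the neighbourhood of a face of length 6

Let `c` be the ring of a face of length 6 all of whose vertices have degree at least 3.
Tools: `NoC4`, `NoC5` (from `h.good`), `cyc6` (every 6-cycle is a face), `cyc7` (every 7-cycle is a
face or has a chord), `corner_unique` (a pair of edges at a vertex of degree `≥ 3` is in at most one
face), `chord6`.  A face containing two consecutive ring edges is `F i` (`corner_unique`), so its
edge set is `cycEdges c`, and it contains no edge at a vertex off the ring.  By symmetry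
(`c` replaced by `fun j => c (-j)` or `fun j => c (j + a)`; or just by a case analysis of
`k - j : ZMod 6`) few cases have to be written.

* `L0`: common neighbour off the ring of `c j`, `c k`: distance 2 is a 4-cycle, distance 3 a 5-cycle.
* `L1`: `x ~ y`, `x ~ c j`, `y ~ c k`: distance 1: 4-cycle, 2: 5-cycle, 3: a 6-cycle, so a face,
  containing two consecutive ring edges.
* `L2`: `x ~ z ~ y`: distance 0: 4-cycle, 1: 5-cycle, 2: 6-cycle with two consecutive ring edges,
  3: a 7-cycle `x z y c_k c_{k+1} c_{k+2} c_j`: a face with two consecutive ring edges, or a chord: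
  `x ~ y` or `z ~ c k` or `z ~ c j` are excluded by `L1`; `y ~ c (k+1)` or `x ~ c (k+2)`
  lead to distance 2; the others are chords of the ring.
* `L3`: `x ~ z ~ w ~ y`: distance 0: 5-cycle, 1: 6-cycle, a face containing the ring edge; if this
  is a triangle edge it lies only in the triangle and in `F i` (`te_faces`), distance 2: 7-cycle:
  a face with two consecutive ring edges, or a chord: excluded by `L2` except `y ~ c (middle)` or
  `x ~ c (middle)`.
-/

set_option autoImplicit false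
set_option linter.unusedSectionVars false

namespace Pool.Agent.Lib.SVY

open Finset Pool.Agent.Lib.SVT Pool.Agent.Lib.SVX

variable {V : Type*} [Fintype V] [DecidableEq V] {G : SimpleGraph V} {B : Finset V}
variable {m : ℕ} {F : Fin m → Finset (Sym2 V)} {i : Fin m} {c : ZMod 6 → V}

theorem RingAAux.cases6 (j k : ZMod 6) :
    k = j ∨ k = j + 1 ∨ k = j + 2 ∨ k = j + 3 ∨ j = k + 1 ∨ j = k + 2 := by
  decide +revert

theorem ring_chord (h : MinCE G B) (hR : Ring G F i 6 c) {j k : ZMod 6}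
    (hjk : G.Adj (c j) (c k)) : k = j + 1 ∨ j = k + 1 := by
  obtain ⟨l, hl⟩ := mem_cycEdges.1 (chord6 h.good.c4 h.good.c5 hR.cyc j k hjk)
  rcases Sym2.eq_iff.1 hl with ⟨h1, h2⟩ | ⟨h1, h2⟩
  · left
    rw [← hR.cyc.1 h1, ← hR.cyc.1 h2]
  · right
    rw [← hR.cyc.1 h1, ← hR.cyc.1 h2]

namespace RingAAux

theorem cne (hR : Ring G F i 6 c) {a b : ZMod 6} (hab : a ≠ b) : c a ≠ c b :=
  fun h => hab (hR.cyc.1 h)

theorem a01 (hR : Ring G F i 6 c) (j : ZMod 6) : G.Adj (c j) (c (j + 1)) := hR.cyc.2 j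

theorem a12 (hR : Ring G F i 6 c) (j : ZMod 6) : G.Adj (c (j + 1)) (c (j + 2)) := by
  have h := hR.cyc.2 (j + 1)
  have e : j + 1 + 1 = j + 2 := by
    clear * -
    decide +revert
  rwa [e] at h

theorem a23 (hR : Ring G F i 6 c) (j : ZMod 6) : G.Adj (c (j + 2)) (c (j + 3)) := by
  have h := hR.cyc.2 (j + 2)
  have e : j + 2 + 1 = j + 3 := by
    clear * -
    decide +revert
  rwa [e] at h

theorem n02 (j : ZMod 6) : j ≠ j + 2 := by decide +revert

theorem n03 (j : ZMod 6) : j ≠ j + 3 := by decide +revert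

theorem n01 (j : ZMod 6) : j ≠ j + 1 := by decide +revert

theorem n12 (j : ZMod 6) : j + 1 ≠ j + 2 := by decide +revert

theorem n13 (j : ZMod 6) : j + 1 ≠ j + 3 := by decide +revert

theorem n23 (j : ZMod 6) : j + 2 ≠ j + 3 := by decide +revert

/-- a face containing two consecutive edges of the ring is the ring -/
theorem face_eq (h : MinCE G B) (hF : Faces G F) (hR : Ring G F i 6 c)
    (hd : ∀ j, 3 ≤ dg G (c j)) {k : Fin m} {j : ZMod 6} (h1 : s(c j, c (j + 1)) ∈ F k)
    (h2 : s(c (j + 1), c (j + 2)) ∈ F k) : k = i := by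
  have h3 : s(c (j + 1), c j) ∈ F i := by
    rw [hR.eq]
    exact cyc_mem' j
  have h4 : s(c (j + 1), c (j + 2)) ∈ F i := by
    rw [hR.eq]
    have h5 := cyc_mem (c := c) (j + 1)
    have e : j + 1 + 1 = j + 2 := by
      clear * -
      decide +revert
    rwa [e] at h5
  exact corner_unique hF (two_conn h) (cne hR (n02 j)) (hd (j + 1))
    (by rw [Sym2.eq_swap]; exact h1) h2 h3 h4

/-- the ring face has no edge at a vertex off the ring -/
theorem off_face (hR : Ring G F i 6 c) {x y : V} (hx : Off c x) : s(x, y) ∉ F i := by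
  rw [hR.eq]
  intro h
  exact off_cyc (fun j h' => hx j h'.symm) _ h (Sym2.mem_mk_left x y)

theorem sadj (hF : Faces G F) {k : Fin m} {a b : V} (h : s(a, b) ∈ F k) : G.Adj a b :=
  (SimpleGraph.mem_edgeSet G).1 (hF.sub k _ h)

/-- distance 1 -/
theorem L1a (h : MinCE G B) (hR : Ring G F i 6 c)
    {x y : V} (hx : Off c x) (hy : Off c y) {j : ZMod 6} (h1 : G.Adj x (c j))
    (h2 : G.Adj y (c (j + 1))) (hxy : G.Adj x y) : False :=
  h.good.c4 x (c j) (c (j + 1)) y (hx _) (fun e => hy _ e.symm) h1 (a01 hR j) h2.symm hxy.symm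

/-- distance 2 -/
theorem L1b (h : MinCE G B) (hR : Ring G F i 6 c)
    {x y : V} (hx : Off c x) (hy : Off c y) {j : ZMod 6} (h1 : G.Adj x (c j))
    (h2 : G.Adj y (c (j + 2))) (hxy : G.Adj x y) : False :=
  h.good.c5 x (c j) (c (j + 1)) (c (j + 2)) y (hx _) (hx _) (cne hR (n02 j))
    (fun e => hy _ e.symm) (fun e => hy _ e.symm) h1 (a01 hR j) (a12 hR j) h2.symm hxy.symm

/-- distance 3 -/
theorem L1c (h : MinCE G B) (hF : Faces G F) (hR : Ring G F i 6 c) (hd : ∀ j, 3 ≤ dg G (c j))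
    {x y : V} (hx : Off c x) (hy : Off c y) {j : ZMod 6} (h1 : G.Adj x (c j))
    (h2 : G.Adj y (c (j + 3))) (hxy : G.Adj x y) : False := by
  have n1 := cne hR (n01 j)
  have n2 := cne hR (n02 j)
  have n3 := cne hR (n03 j)
  have n4 := cne hR (n12 j)
  have n5 := cne hR (n13 j)
  have n6 := cne hR (n23 j)
  have n7 := hx j
  have n8 := hx (j + 1)
  have n9 := hx (j + 2)
  have n10 := hx (j + 3)
  have m7 := (hy j).symm
  have m8 := (hy (j + 1)).symm
  have m9 := (hy (j + 2)).symm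
  have m10 := (hy (j + 3)).symm
  have n11 := hxy.ne
  obtain ⟨k, hk⟩ := cyc6 h hF (a := x) (b := c j) (c := c (j + 1)) (d := c (j + 2))
    (e := c (j + 3)) (f := y) (by
      simp only [List.nodup_cons, List.mem_cons, List.not_mem_nil, or_false, not_or,
        not_false_eq_true, List.nodup_nil, and_true]
      exact ⟨⟨n7, n8, n9, n10, n11⟩, ⟨n1, n2, n3, m7⟩, ⟨n4, n5, m8⟩, ⟨n6, m9⟩, m10⟩)
    h1 (a01 hR j) (a12 hR j) (a23 hR j) h2.symm hxy.symm
  have hki : k = i := face_eq h hF hR hd (j := j) (by rw [hk]; simp) (by rw [hk]; simp)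
  refine off_face hR (y := c j) hx ?_
  rw [← hki, hk]
  simp

end RingAAux

open RingAAux

theorem L0 (h : MinCE G B) (hR : Ring G F i 6 c) {x : V} (hx : Off c x) {j k : ZMod 6}
    (hjk : j ≠ k) (h1 : G.Adj x (c j)) (h2 : G.Adj x (c k)) : k = j + 1 ∨ j = k + 1 := by
  have key : ∀ j : ZMod 6, G.Adj x (c j) → ¬ G.Adj x (c (j + 2)) := by
    intro j h1 h2
    exact h.good.c4 x (c j) (c (j + 1)) (c (j + 2)) (hx _) (cne hR (n02 j)) h1 (a01 hR j)
      (a12 hR j) h2.symm
  rcases cases6 j k with rfl | h3 | rfl | rfl | h3 | rfl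
  · exact absurd rfl hjk
  · exact Or.inl h3
  · exact absurd h2 (key j h1)
  · exact absurd h2.symm fun h2 => h.good.c5 x (c j) (c (j + 1)) (c (j + 2)) (c (j + 3)) (hx _)
      (hx _) (cne hR (n02 j)) (cne hR (n03 j)) (cne hR (n13 j)) h1 (a01 hR j) (a12 hR j)
      (a23 hR j) h2
  · exact Or.inr h3
  · exact absurd h1 (key k h2)

theorem L1 (h : MinCE G B) (hF : Faces G F) (hR : Ring G F i 6 c) (hd : ∀ j, 3 ≤ dg G (c j))
    {x y : V} (hx : Off c x) (hy : Off c y) {j k : ZMod 6} (h1 : G.Adj x (c j))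
    (h2 : G.Adj y (c k)) (hxy : G.Adj x y) : j = k := by
  rcases cases6 j k with rfl | rfl | rfl | rfl | rfl | rfl
  · rfl
  · exact (L1a h hR hx hy h1 h2 hxy).elim
  · exact (L1b h hR hx hy h1 h2 hxy).elim
  · exact (L1c h hF hR hd hx hy h1 h2 hxy).elim
  · exact (L1a h hR hy hx h2 h1 hxy.symm).elim
  · exact (L1b h hR hy hx h2 h1 hxy.symm).elim

namespace RingAAux

/-- distance 1 -/
theorem L2a (h : MinCE G B) (hR : Ring G F i 6 c)
    {x y z : V} (hx : Off c x) (hy : Off c y) (hz : Off c z) (hne : x ≠ y) {j : ZMod 6}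
    (h1 : G.Adj x (c j)) (h2 : G.Adj y (c (j + 1))) (hxz : G.Adj x z) (hzy : G.Adj z y) :
    False :=
  h.good.c5 x z y (c (j + 1)) (c j) hne (hx _) (hz _) (hz _) (hy _) hxz hzy h2
    (a01 hR j).symm h1.symm

/-- distance 2 -/
theorem L2b (h : MinCE G B) (hF : Faces G F) (hR : Ring G F i 6 c) (hd : ∀ j, 3 ≤ dg G (c j))
    {x y z : V} (hx : Off c x) (hy : Off c y) (hz : Off c z) (hne : x ≠ y) {j : ZMod 6}
    (h1 : G.Adj x (c j)) (h2 : G.Adj y (c (j + 2))) (hxz : G.Adj x z) (hzy : G.Adj z y) :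
    False := by
  obtain ⟨k, hk⟩ := cyc6 h hF (a := x) (b := z) (c := y) (d := c (j + 2))
    (e := c (j + 1)) (f := c j) (by
      simp only [List.nodup_cons, List.mem_cons, List.not_mem_nil, or_false, not_or,
        not_false_eq_true, List.nodup_nil, and_true]
      exact ⟨⟨hxz.ne, hne, hx _, hx _, hx _⟩, ⟨hzy.ne, hz _, hz _, hz _⟩, ⟨hy _, hy _, hy _⟩,
        ⟨(cne hR (n12 j)).symm, (cne hR (n02 j)).symm⟩, (cne hR (n01 j)).symm⟩)
    hxz hzy h2 (a12 hR j).symm (a01 hR j).symm h1.symm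
  have hki : k = i := face_eq h hF hR hd (j := j)
    (by rw [hk, Sym2.eq_swap (a := c j) (b := c (j + 1))]; simp)
    (by rw [hk, Sym2.eq_swap (a := c (j + 1)) (b := c (j + 2))]; simp)
  refine off_face hR (y := z) hx ?_
  rw [← hki, hk]
  simp

/-- distance 3 -/
theorem L2c (h : MinCE G B) (hF : Faces G F) (hR : Ring G F i 6 c) (hd : ∀ j, 3 ≤ dg G (c j))
    {x y z : V} (hx : Off c x) (hy : Off c y) (hz : Off c z) (hne : x ≠ y) {j : ZMod 6}
    (h1 : G.Adj x (c j)) (h2 : G.Adj y (c (j + 3))) (hxz : G.Adj x z) (hzy : G.Adj z y) :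
    False := by
  rcases cyc7 h hF (a := x) (b := z) (c := y) (d := c (j + 3)) (e := c (j + 2))
    (f := c (j + 1)) (g := c j) (by
      simp only [List.nodup_cons, List.mem_cons, List.not_mem_nil, or_false, not_or,
        not_false_eq_true, List.nodup_nil, and_true]
      exact ⟨⟨hxz.ne, hne, hx _, hx _, hx _, hx _⟩, ⟨hzy.ne, hz _, hz _, hz _, hz _⟩,
        ⟨hy _, hy _, hy _, hy _⟩,
        ⟨(cne hR (n23 j)).symm, (cne hR (n13 j)).symm, (cne hR (n03 j)).symm⟩,
        ⟨(cne hR (n12 j)).symm, (cne hR (n02 j)).symm⟩, (cne hR (n01 j)).symm⟩)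
    hxz hzy h2 (a23 hR j).symm (a12 hR j).symm (a01 hR j).symm h1.symm with
    ⟨k, hk⟩ | h3 | h3 | h3 | h3 | h3 | h3 | h3
  · have hki : k = i := face_eq h hF hR hd (j := j)
      (by rw [hk, Sym2.eq_swap (a := c j) (b := c (j + 1))]; simp)
      (by rw [hk, Sym2.eq_swap (a := c (j + 1)) (b := c (j + 2))]; simp)
    refine off_face hR (y := z) hx ?_
    rw [← hki, hk]
    simp
  · exact n03 j (L1 h hF hR hd hx hy h1 h2 h3)
  · exact n03 j (L1 h hF hR hd hx hz h1 h3 hxz)
  · exact L2b h hF hR hd hx hy hz hne h1 h3 hxz hzy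
  · rcases ring_chord h hR h3 with h4 | h4
    · revert h4
      clear * -
      decide +revert
    · revert h4
      clear * -
      decide +revert
  · rcases ring_chord h hR h3 with h4 | h4
    · revert h4
      clear * -
      decide +revert
    · revert h4
      clear * -
      decide +revert
  · have e : j + 1 + 2 = j + 3 := by
      clear * -
      decide +revert
    exact L2b h hF hR hd (j := j + 1) hx hy hz hne h3.symm (by rw [e]; exact h2) hxz hzy
  · exact n03 j (L1 h hF hR hd hz hy h3.symm h2 hzy)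

end RingAAux

theorem L2 (h : MinCE G B) (hF : Faces G F) (hR : Ring G F i 6 c) (hd : ∀ j, 3 ≤ dg G (c j))
    {x y z : V} (hx : Off c x) (hy : Off c y) (hz : Off c z) (hne : x ≠ y) {j k : ZMod 6}
    (h1 : G.Adj x (c j)) (h2 : G.Adj y (c k)) (hxz : G.Adj x z) (hzy : G.Adj z y) : False := by
  rcases cases6 j k with rfl | rfl | rfl | rfl | rfl | rfl
  · exact h.good.c4 x z y (c k) hne (hz _) hxz hzy h2 h1.symm
  · exact L2a h hR hx hy hz hne h1 h2 hxz hzy
  · exact L2b h hF hR hd hx hy hz hne h1 h2 hxz hzy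
  · exact L2c h hF hR hd hx hy hz hne h1 h2 hxz hzy
  · exact L2a h hR hy hx hz hne.symm h2 h1 hzy.symm hxz.symm
  · exact L2b h hF hR hd hy hx hz hne.symm h2 h1 hzy.symm hxz.symm

namespace RingAAux

/-- distance 1 -/
theorem L3a (h : MinCE G B) (hF : Faces G F) (hR : Ring G F i 6 c)
    {x y z w : V} (hx : Off c x) (hy : Off c y) (hz : Off c z) (hw : Off c w) (hne : x ≠ y)
    (hxw : x ≠ w) (hzy : z ≠ y) {j : ZMod 6}
    (h1 : G.Adj x (c j)) (h2 : G.Adj y (c (j + 1))) (hxz : G.Adj x z) (hzw : G.Adj z w)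
    (hwy : G.Adj w y) : WE G (c j) (c (j + 1)) := by
  rcases te_or_we (a01 hR j) with ht | ht
  · exfalso
    obtain ⟨hab, v, hv1, hv2⟩ := ht
    have hnd : [x, z, w, y, c (j + 1), c j].Nodup := by
      simp only [List.nodup_cons, List.mem_cons, List.not_mem_nil, or_false, not_or,
        not_false_eq_true, List.nodup_nil, and_true]
      exact ⟨⟨hxz.ne, hxw, hne, hx _, hx _⟩, ⟨hzw.ne, hzy, hz _, hz _⟩,
        ⟨hwy.ne, hw _, hw _⟩, ⟨hy _, hy _⟩, (cne hR (n01 j)).symm⟩
    obtain ⟨k, hk⟩ := cyc6 h hF hnd hxz hzw hwy h2 (a01 hR j).symm h1.symm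
    obtain ⟨p, q, hpq, hp, hq, hq6, hall⟩ := te_faces h hF hab hv1 hv2
    have hkm : s(c j, c (j + 1)) ∈ F k := by
      rw [hk, Sym2.eq_swap (a := c j) (b := c (j + 1))]
      simp
    have him : s(c j, c (j + 1)) ∈ F i := by
      rw [hR.eq]
      exact cyc_mem j
    have hkc : (F k).card = 6 := by
      rw [hk]
      exact Cyc67Aux.six_card hnd
    have hic : (F i).card = 6 := by
      rw [hR.eq]
      exact card_cyc (by norm_num) hR.cyc
    have hpc : (F p).card ≤ 3 := by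
      rw [hp]
      exact card_le_three
    have hkq : k = q := by
      rcases (hall k).1 hkm with rfl | h5
      · omega
      · exact h5
    have hiq : i = q := by
      rcases (hall i).1 him with rfl | h5
      · omega
      · exact h5
    refine off_face hR (y := z) hx ?_
    rw [hiq, ← hkq, hk]
    simp
  · exact ht

/-- distance 2 -/
theorem L3b (h : MinCE G B) (hF : Faces G F) (hR : Ring G F i 6 c) (hd : ∀ j, 3 ≤ dg G (c j))
    {x y z w : V} (hx : Off c x) (hy : Off c y) (hz : Off c z) (hw : Off c w) (hne : x ≠ y)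
    (hxw : x ≠ w) (hzy : z ≠ y) {j : ZMod 6}
    (h1 : G.Adj x (c j)) (h2 : G.Adj y (c (j + 2))) (hxz : G.Adj x z) (hzw : G.Adj z w)
    (hwy : G.Adj w y) :
    (G.Adj y (c (j + 1)) ∧ WE G (c j) (c (j + 1))) ∨
      (G.Adj x (c (j + 1)) ∧ WE G (c (j + 1)) (c (j + 2))) := by
  rcases cyc7 h hF (a := x) (b := z) (c := w) (d := y) (e := c (j + 2))
    (f := c (j + 1)) (g := c j) (by
      simp only [List.nodup_cons, List.mem_cons, List.not_mem_nil, or_false, not_or,
        not_false_eq_true, List.nodup_nil, and_true]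
      exact ⟨⟨hxz.ne, hxw, hne, hx _, hx _, hx _⟩, ⟨hzw.ne, hzy, hz _, hz _, hz _⟩,
        ⟨hwy.ne, hw _, hw _, hw _⟩, ⟨hy _, hy _, hy _⟩,
        ⟨(cne hR (n12 j)).symm, (cne hR (n02 j)).symm⟩, (cne hR (n01 j)).symm⟩)
    hxz hzw hwy h2 (a12 hR j).symm (a01 hR j).symm h1.symm with
    ⟨k, hk⟩ | h3 | h3 | h3 | h3 | h3 | h3 | h3
  · exfalso
    have hki : k = i := face_eq h hF hR hd (j := j)
      (by rw [hk, Sym2.eq_swap (a := c j) (b := c (j + 1))]; simp)
      (by rw [hk, Sym2.eq_swap (a := c (j + 1)) (b := c (j + 2))]; simp)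
    refine off_face hR (y := z) hx ?_
    rw [← hki, hk]
    simp
  · exact (L2 h hF hR hd hx hy hw hne h1 h2 h3 hwy).elim
  · exact (L2 h hF hR hd hx hy hz hne h1 h2 hxz h3).elim
  · exact (L2 h hF hR hd hx hw hz hxw h1 h3 hxz hzw).elim
  · exact Or.inl ⟨h3, L3a h hF hR hx hy hz hw hne hxw hzy h1 h3 hxz hzw hwy⟩
  · exfalso
    rcases ring_chord h hR h3 with h4 | h4
    · revert h4
      clear * -
      decide +revert
    · revert h4
      clear * -
      decide +revert
  · have e : j + 1 + 1 = j + 2 := by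
      clear * -
      decide +revert
    have h4 := L3a h hF hR (j := j + 1) hx hy hz hw hne hxw hzy h3.symm (by rw [e]; exact h2)
      hxz hzw hwy
    rw [e] at h4
    exact Or.inr ⟨h3.symm, h4⟩
  · exact (L2 h hF hR hd hz hy hw hzy h3.symm h2 hzw hwy).elim

end RingAAux

theorem L3 (h : MinCE G B) (hF : Faces G F) (hR : Ring G F i 6 c) (hd : ∀ j, 3 ≤ dg G (c j))
    {x y z w : V} (hx : Off c x) (hy : Off c y) (hz : Off c z) (hw : Off c w) (hne : x ≠ y)
    (hxw : x ≠ w) (hzy : z ≠ y) {j k : ZMod 6}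
    (h1 : G.Adj x (c j)) (h2 : G.Adj y (c k)) (hxz : G.Adj x z) (hzw : G.Adj z w)
    (hwy : G.Adj w y) :
    (k = j + 1 ∧ WE G (c j) (c k)) ∨ (j = k + 1 ∧ WE G (c j) (c k)) ∨
    (k = j + 2 ∧ ((G.Adj y (c (j + 1)) ∧ WE G (c j) (c (j + 1))) ∨
      (G.Adj x (c (j + 1)) ∧ WE G (c (j + 1)) (c k)))) ∨
    (j = k + 2 ∧ ((G.Adj x (c (k + 1)) ∧ WE G (c k) (c (k + 1))) ∨
      (G.Adj y (c (k + 1)) ∧ WE G (c (k + 1)) (c j)))) ∨ k = j + 3 := by
  rcases cases6 j k with rfl | rfl | rfl | rfl | rfl | rfl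
  · exact (h.good.c5 x z w y (c k) hxw hne hzy (hz _) (hw _) hxz hzw hwy h2 h1.symm).elim
  · exact Or.inl ⟨rfl, L3a h hF hR hx hy hz hw hne hxw hzy h1 h2 hxz hzw hwy⟩
  · exact Or.inr (Or.inr (Or.inl ⟨rfl,
      L3b h hF hR hd hx hy hz hw hne hxw hzy h1 h2 hxz hzw hwy⟩))
  · exact Or.inr (Or.inr (Or.inr (Or.inr rfl)))
  · exact Or.inr (Or.inl ⟨rfl, (L3a h hF hR hy hx hw hz hne.symm hzy.symm hxw.symm h2 h1
      hwy.symm hzw.symm hxz.symm).symm⟩)
  · exact Or.inr (Or.inr (Or.inr (Or.inl ⟨rfl,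
      L3b h hF hR hd hy hx hw hz hne.symm hzy.symm hxw.symm h2 h1 hwy.symm hzw.symm
        hxz.symm⟩)))

end Pool.Agent.Lib.SVY
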