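import Pool.Agent.Lib.SVY.RingF
import Pool.Agent.Lib.SVY.Spec

/-!
# SVY.RingC: reducible 6-faces from the classes of the vertices

`rsem G c f g`: the meaning of the names: `rg j` the ring vertex, `ax j` the apex of the ring edge
`c j, c (j+1)`, `sc j` = `f j`, `pn j a` = `g j a`.  `rsem_occ`: the occurrence.  `ring_code`,
`ring_codeF`: a face of length 6 is not reducible; `D a`: the degree of the vertex with number `a`,
`dchk`: the degrees are small enough.
-/

set_option autoImplicit false
set_option linter.unusedSectionVars false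

namespace Pool.Agent.Lib.SVY

open Finset Pool.Agent.Lib.SVT Pool.Agent.Lib.SVX

variable {V : Type*} [Fintype V] [DecidableEq V] {G : SimpleGraph V} {B : Finset V}
variable {m : ℕ} {F : Fin m → Finset (Sym2 V)} {i : Fin m} {c : ZMod 6 → V}

theorem FF.te (h : MinCE G B) {v u : V} (hv : FF G B v) (hu : G.Adj v u) : TE G v u := by
  rcases te_or_we hu with h1 | h1
  · exact h1
  · exact absurd h1 (FF.no_weak h hv)

theorem FF.te' (h : MinCE G B) {v u : V} (hv : FF G B v) (hu : G.Adj u v) : TE G u v :=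
  (FF.te h hv hu.symm).symm

/-- an edge at a `One` vertex which is not the weak edge -/
theorem One.te (h : MinCE G B) {v z u : V} (hv : One G B v) (hz : WE G v z) (hu : G.Adj v u)
    (hne : z ≠ u) : TE G v u := by
  rcases te_or_we hu with h1 | h1
  · exact h1
  · exact absurd (One.wn_unique h hv hz h1) hne

/-- the meaning of the names -/
noncomputable def rsem (G : SimpleGraph V) (c : ZMod 6 → V) (f : ZMod 6 → V)
    (g : ZMod 6 → ℕ → V) : Nm → V
  | .rg j => c j
  | .ax j => apx G (c j) (c (j + 1))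
  | .sc j => f j
  | .pn j a => g j a

/-- the apex of a ring edge is not on the ring -/
theorem apx_off (h : MinCE G B) (hR : Ring G F i 6 c) {j : ZMod 6}
    (ht : TE G (c j) (c (j + 1))) : Off c (apx G (c j) (c (j + 1))) := by
  obtain ⟨h1, h2⟩ := apx_adj ht
  intro k hk
  rw [hk] at h1 h2
  have q1 := ring_chord h hR h1
  have q2 := ring_chord h hR h2
  have key : ∀ j k : ZMod 6, (k = j + 1 ∨ j = k + 1) → (k = j + 1 + 1 ∨ j + 1 = k + 1) →
      False := by
    clear * -
    decide
  exact key j k q1 q2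

/-- the third neighbour of a ring vertex on a weak edge -/
theorem pn_weak (h : MinCE G B) (hR : Ring G F i 6 c) {j : ZMod 6} {x : V} (hw : WE G (c j) x)
    (h1 : x ≠ c (j + 1)) (h2 : x ≠ c (j - 1)) :
    Off c x ∧ G.Adj x (c j) ∧ ∀ k, k ≠ j → ¬ G.Adj x (c k) := by
  have hoff : Off c x := by
    intro k hk
    rw [hk] at hw h1 h2
    rcases ring_chord h hR hw.1 with e | e
    · exact h1 (by rw [e])
    · exact h2 (by rw [e]; congr 1; ring)
  exact ⟨hoff, hw.1.symm, pn_of_we h hR hoff hw⟩

theorem rsem_occ (h : MinCE G B) (hR : Ring G F i 6 c) {l : List Nm} {f : ZMod 6 → V}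
    {g : ZMod 6 → ℕ → V} (hax : ∀ j, .ax j ∈ l → TE G (c j) (c (j + 1)))
    (hsc : ∀ j, .sc j ∈ l → .ax j ∈ l ∧ WE G (apx G (c j) (c (j + 1))) (f j))
    (hsc2 : ∀ j, .sc j ∈ l → .sc (j + 2) ∈ l → TE G (c (j + 1)) (c (j + 2)))
    (hpn : ∀ j a, .pn j a ∈ l → Off c (g j a) ∧ G.Adj (g j a) (c j) ∧
      ∀ k, k ≠ j → ¬ G.Adj (g j a) (c k))
    (hpn2 : ∀ j a b, .pn j a ∈ l → .pn j b ∈ l → g j a = g j b → a = b) :
    Occ G c l (rsem G c f g) := by
  refine ⟨fun _ _ => rfl, hpn, hpn2, ?_, hsc, hsc2⟩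
  intro j hj
  have ht := hax j hj
  obtain ⟨h1, h2⟩ := apx_adj ht
  exact ⟨apx_off h hR ht, h1.symm, h2.symm⟩

/-- the degree bounds `D` are small enough -/
def dchk (cf : Cfg) (D : ℕ → ℕ) : Bool :=
  (List.range cf.nc).all (fun a => decide (D a ≤ cf.outs a +
    ((List.range cf.N).filter (fun j => cf.adjE a j)).length)) &&
  (List.range cf.N).all (fun a => !(cf.isT a && cf.sm a) || decide (D a ≤ cf.outs a +
    ((List.range cf.N).filter (fun j => cf.adjE a j && cf.inH j)).length))

theorem dchk_sound {cf : Cfg} {D : ℕ → ℕ} (hd : dchk cf D = true) :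
    (∀ a, a < cf.nc → D a ≤ cf.outs a + (nn cf a).card) ∧
    (∀ a, cf.isT a = true → cf.sm a = true → D a ≤ cf.outs a + (nh cf a).card) := by
  have hcard : ∀ (p : ℕ → Bool), ((List.range cf.N).filter p).length =
      ((Finset.range cf.N).filter (fun j => p j = true)).card := by
    intro p
    rw [← List.toFinset_card_of_nodup (List.nodup_range.filter p)]
    congr 1
    ext a
    simp
  unfold dchk at hd
  rw [Bool.and_eq_true, List.all_eq_true, List.all_eq_true] at hd
  constructor
  · intro a ha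
    have h1 := hd.1 a (List.mem_range.2 ha)
    rw [decide_eq_true_eq, hcard] at h1
    exact h1
  · intro a ha hs
    have haN : a < cf.N := by
      unfold Cfg.isT at ha
      rw [Bool.and_eq_true, decide_eq_true_eq, decide_eq_true_eq] at ha
      exact ha.2
    have h1 := hd.2 a (List.mem_range.2 haN)
    rw [ha, hs, Bool.and_self, Bool.not_true, Bool.false_or, decide_eq_true_eq, hcard] at h1
    have h2 : nh cf a = (Finset.range cf.N).filter (fun j => (cf.adjE a j && cf.inH j) = true) := by
      unfold nh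
      refine Finset.filter_congr ?_
      intro j _
      rw [Bool.and_eq_true]
    rw [h2]
    exact h1

/-- all edges of the configuration are edges of the names -/
def echkN (cf : Cfg) (l : List Nm) : Bool :=
  (List.range cf.N).all (fun a => (List.range cf.N).all (fun b => !(cf.adjE a b) ||
    (l.getD a (.rg 0)).adj (l.getD b (.rg 0))))

theorem echkN_sound {cf : Cfg} {l : List Nm} (he : echkN cf l = true) {a b : ℕ} (ha : a < cf.N)
    (hb : b < cf.N) (hab : cf.adjE a b = true) :
    (l.getD a (.rg 0)).adj (l.getD b (.rg 0)) = true := by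
  unfold echkN at he
  rw [List.all_eq_true] at he
  have h1 := he a (List.mem_range.2 ha)
  rw [List.all_eq_true] at h1
  have h2 := h1 b (List.mem_range.2 hb)
  rw [hab, Bool.not_true, Bool.false_or] at h2
  exact h2

/-- a reducible 6-face; `hbs`: the edges of the configuration which are not edges of the names -/
theorem ring_code (h : MinCE G B) (hF : Faces G F) (hR : Ring G F i 6 c)
    (hd : ∀ j, 3 ≤ dg G (c j)) {cf : Cfg} {par : ℕ → ℕ} {l : List Nm} {te : ZMod 6 → Bool}
    {sem : Nm → V} {D : ℕ → ℕ} (hadm : cf.adm par = true) (hlist : cf.ListOK)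
    (hchk : rchk cf l te = true) (hdc : dchk cf D = true) (hlen : l.length = cf.N)
    (hnd : l.Nodup) (ho : Occ G c l sem) (hte : ∀ j, te j = true → TE G (c j) (c (j + 1)))
    (hbs : ∀ a b, a < cf.N → b < cf.N → cf.adjE a b = true →
      (l.getD a (.rg 0)).adj (l.getD b (.rg 0)) = false →
      G.Adj (sem (l.getD a (.rg 0))) (sem (l.getD b (.rg 0))))
    (hH : ∀ a, a < cf.N → cf.inH a = true →
      sem (l.getD a (.rg 0)) ∉ B ∧ dg G (sem (l.getD a (.rg 0))) ≤ D a) : False := by
  obtain ⟨d1, d2⟩ := dchk_sound hdc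
  have hNc : ∀ r, r < cf.nc → r < cf.N := fun r hr => Nat.lt_of_lt_of_le hr (Nat.le_add_right _ _)
  have hHc : ∀ r, r < cf.nc → cf.inH r = true := by
    intro r hr
    unfold Cfg.inH
    rw [decide_eq_true hr, Bool.true_or]
  have hTN : ∀ t, cf.isT t = true → t < cf.N := by
    intro t ht
    unfold Cfg.isT at ht
    rw [Bool.and_eq_true, decide_eq_true_eq, decide_eq_true_eq] at ht
    exact ht.2
  have hTH : ∀ t, cf.isT t = true → cf.sm t = true → cf.inH t = true := by
    intro t h1 h2
    unfold Cfg.inH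
    rw [h1, h2]
    simp
  exact cfg_false hadm hlist h (ring_inst h hF hR hd hlen hnd hchk ho hte hbs
    (fun a ha hiH => (hH a ha hiH).1)
    (fun a ha => (hH a (hNc a ha) (hHc a ha)).2.trans (d1 a ha))
    (fun a h1 h2 => (hH a (hTN a h1) (hTH a h1 h2)).2.trans (d2 a h1 h2)))

/-- a reducible 6-face with a flexible apex -/
theorem ring_codeF (h : MinCE G B) (hF : Faces G F) (hR : Ring G F i 6 c)
    (hd : ∀ j, 3 ≤ dg G (c j)) {cf : Cfg} {par : ℕ → ℕ} {l : List Nm} {te : ZMod 6 → Bool}
    {sem : Nm → V} {D : ℕ → ℕ} {t : ℕ} {j : ZMod 6} (hadm : cf.adm par = true)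
    (hlist : cf.ListOKF (fun i => i == t)) (hchk : rchk cf l te = true)
    (hf : fchk cf l te t j = true) (hdc : dchk cf D = true) (hlen : l.length = cf.N)
    (hnd : l.Nodup) (ho : Occ G c l sem) (hte : ∀ j, te j = true → TE G (c j) (c (j + 1)))
    (hbs : ∀ a b, a < cf.N → b < cf.N → cf.adjE a b = true →
      (l.getD a (.rg 0)).adj (l.getD b (.rg 0)) = false →
      G.Adj (sem (l.getD a (.rg 0))) (sem (l.getD b (.rg 0))))
    (hH : ∀ a, a < cf.N → cf.inH a = true →
      sem (l.getD a (.rg 0)) ∉ B ∧ dg G (sem (l.getD a (.rg 0))) ≤ D a)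
    (hexc : Exc G B (sem (.ax j))) : False := by
  obtain ⟨d1, d2⟩ := dchk_sound hdc
  have hNc : ∀ r, r < cf.nc → r < cf.N := fun r hr => Nat.lt_of_lt_of_le hr (Nat.le_add_right _ _)
  have hHc : ∀ r, r < cf.nc → cf.inH r = true := by
    intro r hr
    unfold Cfg.inH
    rw [decide_eq_true hr, Bool.true_or]
  have hTN : ∀ t, cf.isT t = true → t < cf.N := by
    intro t ht
    unfold Cfg.isT at ht
    rw [Bool.and_eq_true, decide_eq_true_eq, decide_eq_true_eq] at ht
    exact ht.2
  have hTH : ∀ t, cf.isT t = true → cf.sm t = true → cf.inH t = true := by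
    intro t h1 h2
    unfold Cfg.inH
    rw [h1, h2]
    simp
  exact ring_falseF h hF hR hd hadm hlist hchk hf hlen hnd ho hte hbs
    (fun a ha hiH => (hH a ha hiH).1)
    (fun a ha => (hH a (hNc a ha) (hHc a ha)).2.trans (d1 a ha))
    (fun a h1 h2 => (hH a (hTN a h1) (hTH a h1 h2)).2.trans (d2 a h1 h2)) hexc

end Pool.Agent.Lib.SVY
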