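import Pool.Agent.Lib.SVY.NamesB
import Pool.Agent.Lib.SVY.Flex

/-!
# SVY.RingF: configurations around a face of length 6 with a flexible apex

`fchk cf l te t j`: the name of the kept terminal `t` is `ax j` and the third vertex of the
triangle on `c j, c (j+1)` may be flexible.  `ring_false`, `ring_falseF`: no reducible
configuration.
-/

set_option autoImplicit false
set_option linter.unusedSectionVars false

namespace Pool.Agent.Lib.SVY

open Finset Pool.Agent.Lib.SVT Pool.Agent.Lib.SVX

/-- the check for a flexible terminal -/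
def fchk (cf : Cfg) (l : List Nm) (te : ZMod 6 → Bool) (t : ℕ) (j : ZMod 6) : Bool :=
  cf.isT t && !(cf.sm t) && decide (l.getD t (.rg 0) = .ax j) && !(l.contains (.sc j)) &&
  (!(l.contains (.sc (j + 2))) || te (j + 1)) && (!(l.contains (.sc (j - 2))) || te (j - 1)) &&
  (List.range cf.N).all (fun a => !(cf.inH a) || (!(decide (l.getD a (.rg 0) = .ax j)) &&
    (!((l.getD a (.rg 0)).adj (.ax j)) || cf.adjE a t))) &&
  (List.range cf.nc).any (fun a => decide (l.getD a (.rg 0) = .rg j)) &&
  (List.range cf.nc).any (fun a => decide (l.getD a (.rg 0) = .rg (j + 1)))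

variable {V : Type*} [Fintype V] [DecidableEq V] {G : SimpleGraph V} {B : Finset V}
variable {m : ℕ} {F : Fin m → Finset (Sym2 V)} {i : Fin m} {c : ZMod 6 → V}

/-- a weak neighbour of an apex is a further name -/
theorem occ_ext {l : List Nm} {sem : Nm → V} (ho : Occ G c l sem) {te : ZMod 6 → Bool}
    (hte : ∀ j, te j = true → TE G (c j) (c (j + 1))) {j : ZMod 6} {n : V} (hj : .ax j ∈ l)
    (hn : .sc j ∉ l) (h1 : .sc (j + 2) ∈ l → te (j + 1) = true)
    (h2 : .sc (j - 2) ∈ l → te (j - 1) = true) (hw : WE G (sem (.ax j)) n) :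
    Occ G c (.sc j :: l) (fun x => if x = .sc j then n else sem x) := by
  have e0 : ∀ x : Nm, x ≠ .sc j → (if x = .sc j then n else sem x) = sem x := fun x hx =>
    if_neg hx
  refine ⟨?_, ?_, ?_, ?_, ?_, ?_⟩
  · intro k hk
    rw [List.mem_cons] at hk
    rcases hk with hk | hk
    · cases hk
    · rw [e0 _ (by intro e; cases e)]
      exact ho.rg k hk
  · intro k a hk
    rw [List.mem_cons] at hk
    rcases hk with hk | hk
    · cases hk
    · rw [e0 _ (by intro e; cases e)]
      exact ho.pn k a hk
  · intro k a b ha hb hab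
    rw [List.mem_cons] at ha hb
    rcases ha with ha | ha
    · cases ha
    rcases hb with hb | hb
    · cases hb
    rw [e0 _ (by intro e; cases e), e0 _ (by intro e; cases e)] at hab
    exact ho.pn2 k a b ha hb hab
  · intro k hk
    rw [List.mem_cons] at hk
    rcases hk with hk | hk
    · cases hk
    · rw [e0 _ (by intro e; cases e)]
      exact ho.ax k hk
  · intro k hk
    rw [List.mem_cons] at hk
    rcases hk with hk | hk
    · cases hk
      refine ⟨List.mem_cons_of_mem _ hj, ?_⟩
      rw [e0 _ (by intro e; cases e), if_pos rfl]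
      exact hw
    · obtain ⟨h3, h4⟩ := ho.sc k hk
      refine ⟨List.mem_cons_of_mem _ h3, ?_⟩
      rw [e0 _ (by intro e; cases e), e0 _ (by rintro e; exact hn (e ▸ hk))]
      exact h4
  · intro k hk hk2
    rw [List.mem_cons] at hk hk2
    rcases hk with hk | hk
    · cases hk
      rcases hk2 with hk2 | hk2
      · exfalso
        have e : j + 2 = j := by
          injection hk2
        have key : ∀ j : ZMod 6, j + 2 ≠ j := by
          clear * -
          decide
        exact key j e
      · have h3 := hte _ (h1 hk2)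
        have e : j + 1 + 1 = j + 2 := by ring
        rwa [e] at h3
    · rcases hk2 with hk2 | hk2
      · have e : k + 2 = j := by
          injection hk2
        subst e
        have e1 : k + 2 - 2 = k := by ring
        have e2 : k + 2 - 1 = k + 1 := by ring
        have e3 : k + 1 + 1 = k + 2 := by ring
        rw [e1, e2] at h2
        have h3 := hte _ (h2 hk)
        rwa [e3] at h3
      · exact ho.sc2 k hk hk2

theorem unk_sc {x : Nm} {j : ZMod 6} : x.unk (.sc j) = false := by
  cases x <;> rfl

theorem unk_ax {x : Nm} {j : ZMod 6} : x.unk (.ax j) = false := by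
  cases x <;> rfl

theorem adj_sc {x : Nm} {j : ZMod 6} (h : x.adj (.sc j) = true) : x = .ax j := by
  cases x with
  | rg a => simp [Nm.adj] at h
  | pn a b => simp [Nm.adj] at h
  | ax a =>
    simp only [Nm.adj, decide_eq_true_eq] at h
    rw [h]
  | sc a => simp [Nm.adj] at h

/-- no reducible configuration with a flexible apex -/
theorem ring_falseF (h : MinCE G B) (hF : Faces G F) (hR : Ring G F i 6 c)
    (hd : ∀ j, 3 ≤ dg G (c j)) {cf : Cfg} {par : ℕ → ℕ} {l : List Nm} {te : ZMod 6 → Bool}
    {sem : Nm → V} {t : ℕ} {j : ZMod 6} (hadm : cf.adm par = true)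
    (hlist : cf.ListOKF (fun i => i == t)) (hchk : rchk cf l te = true)
    (hf : fchk cf l te t j = true) (hlen : l.length = cf.N) (hnd : l.Nodup)
    (ho : Occ G c l sem) (hte : ∀ j, te j = true → TE G (c j) (c (j + 1)))
    (hbs : ∀ a b, a < cf.N → b < cf.N → cf.adjE a b = true →
      (l.getD a (.rg 0)).adj (l.getD b (.rg 0)) = false →
      G.Adj (sem (l.getD a (.rg 0))) (sem (l.getD b (.rg 0))))
    (hB : ∀ a, a < cf.N → cf.inH a = true → sem (l.getD a (.rg 0)) ∉ B)
    (hdeg : ∀ a, a < cf.nc → dg G (sem (l.getD a (.rg 0))) ≤ cf.outs a + (nn cf a).card)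
    (hdegs : ∀ a, cf.isT a = true → cf.sm a = true →
      dg G (sem (l.getD a (.rg 0))) ≤ cf.outs a + (nh cf a).card)
    (hexc : Exc G B (sem (.ax j))) : False := by
  have hin := ring_inst h hF hR hd hlen hnd hchk ho hte hbs hB hdeg hdegs
  have hmem : ∀ a, a < cf.N → l.getD a (.rg 0) ∈ l := by
    intro a ha
    rw [← hlen] at ha
    rw [List.getD_eq_getElem _ _ ha]
    exact List.getElem_mem ha
  have hNc : ∀ r, r < cf.nc → r < cf.N := fun r hr => Nat.lt_of_lt_of_le hr (Nat.le_add_right _ _)
  have hHc : ∀ r, r < cf.nc → cf.inH r = true := by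
    intro r hr
    unfold Cfg.inH
    rw [decide_eq_true hr, Bool.true_or]
  unfold fchk at hf
  simp only [Bool.and_eq_true, Bool.not_eq_true', decide_eq_true_eq, Bool.or_eq_true,
    List.any_eq_true, List.all_eq_true, List.mem_range, decide_eq_false_iff_not] at hf
  obtain ⟨⟨⟨⟨⟨⟨⟨⟨ht, hst⟩, hlt⟩, hsc⟩, hs1⟩, hs2⟩, hall⟩, ⟨r1, hr1, hr1'⟩⟩, ⟨r2, hr2, hr2'⟩⟩ := hf
  have htN : t < cf.N := by
    unfold Cfg.isT at ht
    rw [Bool.and_eq_true, decide_eq_true_eq, decide_eq_true_eq] at ht
    exact ht.2
  have hj : .ax j ∈ l := hlt ▸ hmem t htN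
  have hcon : ∀ x : Nm, l.contains x = false → x ∉ l := by
    intro x hx hx'
    rw [List.contains_iff_mem.2 hx'] at hx
    exact absurd hx (by decide)
  have hn : .sc j ∉ l := hcon _ hsc
  have hs1' : .sc (j + 2) ∈ l → te (j + 1) = true := by
    intro h1
    rcases hs1 with h2 | h2
    · exact absurd h1 (hcon _ h2)
    · exact h2
  have hs2' : .sc (j - 2) ∈ l → te (j - 1) = true := by
    intro h1
    rcases hs2 with h2 | h2
    · exact absurd h1 (hcon _ h2)
    · exact h2
  have hall' : ∀ a, a < cf.N → cf.inH a = true → l.getD a (.rg 0) ≠ .ax j ∧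
      ((l.getD a (.rg 0)).adj (.ax j) = true → cf.adjE a t = true) := by
    intro a ha hH
    rcases hall a ha with h1 | ⟨h1, h2⟩
    · rw [hH] at h1
      exact absurd h1 (by decide)
    · refine ⟨h1, fun h3 => ?_⟩
      rcases h2 with h2 | h2
      · rw [h3] at h2
        exact absurd h2 (by decide)
      · exact h2
  obtain ⟨hoff, ha1, ha2⟩ := ho.ax j hj
  have hrg : ∀ k : ZMod 6, ∀ r, r < cf.nc → l.getD r (.rg 0) = .rg k →
      sem (l.getD r (.rg 0)) = c k := by
    intro k r hr h1
    have h2 := hmem r (hNc r hr)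
    rw [h1] at h2
    rw [h1]
    exact ho.rg k h2
  refine cfg_falseF (t := t) hadm hlist h hin ht hst ?_ ?_
  · intro a ha hH hadj
    rw [hlt] at hadj
    exact (hall' a ha hH).2 ((occ_adj h hF hR hd ho (hmem a ha) hj unk_ax).1 hadj)
  · rw [hlt]
    refine exc_flexible h ?_ hexc ?_ ?_ ?_
    · rintro v ⟨r, hr, rfl⟩
      exact ⟨r, hNc r hr, hHc r hr, rfl⟩
    · rintro ⟨a, ha, hH, he⟩
      exact (hall' a ha hH).1 (occ_inj h hF hR hd ho hj (hmem a ha) he).symm
    · refine ⟨c j, c (j + 1), ⟨r1, hNc r1 hr1, hHc r1 hr1, ?_⟩, ⟨r2, hNc r2 hr2, hHc r2 hr2, ?_⟩,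
        ha1, ha2, hR.cyc.2 j⟩
      · exact (hrg j r1 hr1 hr1').symm
      · exact (hrg (j + 1) r2 hr2 hr2').symm
    · intro n hnw
      have ho' := occ_ext ho hte hj hn hs1' hs2' hnw
      have hx : ∀ a, a < cf.N → l.getD a (.rg 0) ≠ .sc j := by
        intro a ha he
        exact hn (he ▸ hmem a ha)
      refine ⟨?_, ?_⟩
      · rintro ⟨a, ha, hH, he⟩
        have h1 := occ_inj h hF hR hd ho' (x := l.getD a (.rg 0)) (y := .sc j)
          (List.mem_cons_of_mem _ (hmem a ha)) List.mem_cons_self (by
            show (if l.getD a (.rg 0) = .sc j then n else sem (l.getD a (.rg 0))) =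
              (if Nm.sc j = .sc j then n else sem (.sc j))
            rw [if_neg (hx a ha), if_pos rfl]
            exact he.symm)
        exact hx a ha h1
      · rintro w ⟨a, ha, hH, rfl⟩ hadj
        have h1 := (occ_adj h hF hR hd ho' (x := l.getD a (.rg 0)) (y := .sc j)
          (List.mem_cons_of_mem _ (hmem a ha)) List.mem_cons_self unk_sc).1 (by
            show G.Adj (if l.getD a (.rg 0) = .sc j then n else sem (l.getD a (.rg 0)))
              (if Nm.sc j = .sc j then n else sem (.sc j))
            rw [if_neg (hx a ha), if_pos rfl]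
            exact hadj)
        exact (hall' a ha hH).1 (adj_sc h1)

end Pool.Agent.Lib.SVY
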