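import Pool.Agent.Lib.SVY.RingC
import Pool.Agent.Lib.SVY.FlexG

/-!
# SVY.RingU: configurations around a face of length 6 with a fixed ring vertex

The ring vertex `c u` need not be in the core.  `exU`, `exR`: excluded outside paths.  `ring_instU`:
the occurrence.  `ring_falseG`: a flexible apex (not a paying vertex), any occurrence.
-/

set_option autoImplicit false
set_option linter.unusedSectionVars false

namespace Pool.Agent.Lib.SVY

open Finset Pool.Agent.Lib.SVT Pool.Agent.Lib.SVX Pool.Agent.Lib.SVW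

/-- the exclusion of paths from the fixed ring vertex `c u` to `y` -/
def exR (te : ZMod 6 → Bool) (u : ZMod 6) (y : Nm) (n : ℕ) : Bool :=
  !(y.att.isEmpty) &&
  (if n = 1 then !(y.att.contains u)
  else if n = 2 then y.att.any (fun k => !(decide (k = u)))
  else if n = 3 then true
  else if n = 4 then y.att.any (fun k => decide (u = k) || (decide (k = u + 1) && te u) ||
      (decide (u = k + 1) && te k) ||
      (decide (k = u + 2) && (!(y.att.contains (u + 1)) || te u) && te (u + 1)) ||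
      (decide (u = k + 2) && te k && (!(y.att.contains (k + 1)) || te (k + 1))))
  else true)

/-- the exclusion of paths between vertices off the ring -/
def exU (te : ZMod 6 → Bool) (u : ZMod 6) (x y : Nm) (n : ℕ) : Bool :=
  exOK te x y n && x.att.any (fun k => !(decide (k = u))) &&
    y.att.any (fun k => !(decide (k = u))) && !(x.att.contains u && y.att.contains u)

/-- the exclusion of paths -/
def exUR (te : ZMod 6 → Bool) (u : ZMod 6) (x y : Nm) (n : ℕ) : Bool :=
  match x, y with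
  | .rg _, .rg _ => false
  | .rg j, .pn k a => decide (j = u) && exR te u (.pn k a) n
  | .rg j, .ax k => decide (j = u) && exR te u (.ax k) n
  | .pn k a, .rg j => decide (j = u) && exR te u (.pn k a) n
  | .ax k, .rg j => decide (j = u) && exR te u (.ax k) n
  | x, y => exU te u x y n

/-- the check of a configuration against the names; `c u` need not be in the core -/
def rchkU (cf : Cfg) (l : List Nm) (te : ZMod 6 → Bool) (u : ZMod 6) : Bool :=
  rchk { cf with al := [] } l te &&
  cf.al.all (fun t => exUR te u (l.getD t.1 (.rg 0)) (l.getD t.2.1 (.rg 0)) t.2.2) &&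
  (List.range 6).all (fun (j : ℕ) => decide ((j : ZMod 6) = u) || (List.range cf.nc).any
    (fun a => decide (l.getD a (.rg 0) = .rg (j : ZMod 6))))

variable {V : Type*} [Fintype V] [DecidableEq V] {G : SimpleGraph V} {B : Finset V}
variable {m : ℕ} {F : Fin m → Finset (Sym2 V)} {i : Fin m} {c : ZMod 6 → V}

open NamesBAux

theorem exR_of (h : MinCE G B) (hF : Faces G F) (hR : Ring G F i 6 c)
    (hd : ∀ j, 3 ≤ dg G (c j)) {l : List Nm} {sem : Nm → V} (ho : Occ G c l sem)
    {te : ZMod 6 → Bool} (hte : ∀ j, te j = true → TE G (c j) (c (j + 1))) {R : Set V}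
    {u : ZMod 6} (hRc : ∀ j, j ≠ u → c j ∈ R) {y : Nm} (hy : y ∈ l) {n : ℕ}
    (hex : exR te u y n = true) : ¬ OPath G R (c u) (sem y) n := by
  have hoff : ∀ v, v ∉ R → v ≠ c u → Off c v := by
    intro v hv hvu j hj
    by_cases e : j = u
    · rw [e] at hj
      exact hvu hj
    · exact hv (hj ▸ hRc j e)
  unfold exR at hex
  rw [Bool.and_eq_true, Bool.not_eq_true'] at hex
  obtain ⟨hne, hex⟩ := hex
  obtain ⟨k0, hk0⟩ : ∃ k, k ∈ y.att := by
    cases hatt : y.att with
    | nil =>
      rw [hatt] at hne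
      exact absurd hne (by decide)
    | cons a b => exact ⟨a, List.mem_cons_self⟩
  have hyo := (att_mem ho hy hk0).1
  have hyn : ∀ a, (y.att.contains a = true → False) → ¬ G.Adj (sem y) (c a) := by
    intro a ha
    refine att_not h hR ho hy hk0 ?_
    intro ha'
    exact ha (List.contains_iff_mem.2 ha')
  have hc : ∀ (z : Nm) (a : ZMod 6), z.att.contains a = false →
      (z.att.contains a = true → False) := by
    intro z a h1 h2
    rw [h1] at h2
    exact absurd h2 (by decide)
  intro hO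
  match n, hO, hex with
  | 1, hO, hex =>
    simp only [if_true, Bool.not_eq_true'] at hex
    exact hyn u (hc _ _ hex) (SimpleGraph.Adj.symm hO)
  | 2, ⟨x, hx, h1, h2⟩, hex =>
    simp only [(by decide : ¬ (2 : ℕ) = 1), if_false, if_true, List.any_eq_true,
      Bool.not_eq_true', decide_eq_false_iff_not] at hex
    obtain ⟨k, hk, hku⟩ := hex
    exact hku (L1 h hF hR hd (hoff x hx h1.ne.symm) hyo h1.symm (att_mem ho hy hk).2 h2).symm
  | 3, ⟨x, z, hx, hz, hxb, hza, h1, h2, h3⟩, hex =>
    exact L2 h hF hR hd (hoff x hx h1.ne.symm) hyo (hoff z hz hza) hxb h1.symm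
      (att_mem ho hy hk0).2 h2 h3
  | 4, ⟨x, z, w, hx, hz, hw, hxb, hza, hzb, hwa, hxw, h1, h2, h3, h4⟩, hex =>
    simp only [(by decide : ¬ (4 : ℕ) = 1), (by decide : ¬ (4 : ℕ) = 2),
      (by decide : ¬ (4 : ℕ) = 3), if_false, if_true, List.any_eq_true, Bool.or_eq_true,
      Bool.and_eq_true, decide_eq_true_eq, Bool.not_eq_true'] at hex
    obtain ⟨k, hk, hex⟩ := hex
    have q := L3 h hF hR hd (hoff x hx h1.ne.symm) hyo (hoff z hz hza) (hoff w hw hwa) hxb hxw hzb
      h1.symm (att_mem ho hy hk).2 h2 h3 h4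
    have d1 : ∀ j k : ZMod 6, j = k → k ≠ j + 1 ∧ j ≠ k + 1 ∧ k ≠ j + 2 ∧ j ≠ k + 2 ∧
        k ≠ j + 3 := by
      clear * -
      decide
    have d2 : ∀ j k : ZMod 6, k = j + 1 → j ≠ k + 1 ∧ k ≠ j + 2 ∧ j ≠ k + 2 ∧
        k ≠ j + 3 := by
      clear * -
      decide
    have d3 : ∀ j k : ZMod 6, k = j + 2 → j ≠ k + 1 ∧ k ≠ j + 1 ∧ j ≠ k + 2 ∧
        k ≠ j + 3 := by
      clear * -
      decide
    have d4 : ∀ j k : ZMod 6, j = k + 1 → k ≠ j + 3 := by
      clear * -
      decide
    have d5 : ∀ j k : ZMod 6, j = k + 2 → k ≠ j + 3 := by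
      clear * -
      decide
    have hw1 : ∀ a b, WE G (c a) (c b) → b = a + 1 → te a = true → False := by
      intro a b hab e ht
      subst e
      exact (hte a ht).not_we hab
    rcases hex with (((e | ⟨e, t⟩) | ⟨e, t⟩) | ⟨⟨e, t1⟩, t2⟩) | ⟨⟨e, t1⟩, t2⟩
    · obtain ⟨n1, n2, n3, n4, n5⟩ := d1 u k e
      rcases q with q | q | q | q | q
      · exact n1 q.1
      · exact n2 q.1
      · exact n3 q.1
      · exact n4 q.1
      · exact n5 q
    · obtain ⟨n2, n3, n4, n5⟩ := d2 u k e
      rcases q with q | q | q | q | q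
      · exact hw1 _ _ q.2 e t
      · exact n2 q.1
      · exact n3 q.1
      · exact n4 q.1
      · exact n5 q
    · obtain ⟨n2, n3, n4, n5⟩ := d2 k u e
      rcases q with q | q | q | q | q
      · exact n2 q.1
      · exact hw1 _ _ q.2.symm e t
      · exact n4 q.1
      · exact n3 q.1
      · exact d4 u k e q
    · obtain ⟨n1, n2, n4, n5⟩ := d3 u k e
      have e1 : k = u + 1 + 1 := by
        rw [e]
        ring
      rcases q with q | q | ⟨-, ⟨q1, q2⟩ | ⟨q1, q2⟩⟩ | q | q
      · exact n2 q.1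
      · exact n1 q.1
      · rcases t1 with t1 | t1
        · exact hyn _ (hc _ _ t1) q1
        · exact hw1 _ _ q2 rfl t1
      · exact hw1 _ _ q2 e1 t2
      · exact n4 q.1
      · exact n5 q
    · obtain ⟨n1, n2, n4, n5⟩ := d3 k u e
      have e1 : u = k + 1 + 1 := by
        rw [e]
        ring
      rcases q with q | q | q | ⟨-, ⟨q1, q2⟩ | ⟨q1, q2⟩⟩ | q
      · exact n1 q.1
      · exact n2 q.1
      · exact n4 q.1
      · exact hw1 _ _ q2 rfl t1
      · rcases t2 with t2 | t2
        · exact hyn _ (hc _ _ t2) q1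
        · exact hw1 _ _ q2 e1 t2
      · exact d5 u k e q

theorem exU_of (h : MinCE G B) (hF : Faces G F) (hR : Ring G F i 6 c)
    (hd : ∀ j, 3 ≤ dg G (c j)) {l : List Nm} {sem : Nm → V} (ho : Occ G c l sem)
    {te : ZMod 6 → Bool} (hte : ∀ j, te j = true → TE G (c j) (c (j + 1))) {R : Set V}
    {u : ZMod 6} (hRc : ∀ j, j ≠ u → c j ∈ R) {x y : Nm} (hx : x ∈ l) (hy : y ∈ l) (hxy : x ≠ y)
    {n : ℕ} (hex : exU te u x y n = true) : ¬ OPath G R (sem x) (sem y) n := by
  have hoff : ∀ v, v ∉ R → v ≠ c u → Off c v := by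
    intro v hv hvu j hj
    by_cases e : j = u
    · rw [e] at hj
      exact hvu hj
    · exact hv (hj ▸ hRc j e)
  unfold exU at hex
  simp only [Bool.and_eq_true, List.any_eq_true, Bool.not_eq_true', decide_eq_false_iff_not] at hex
  obtain ⟨⟨⟨hex, jx, hjx, hjxu⟩, ky, hky, hkyu⟩, hboth⟩ := hex
  obtain ⟨hxo, hxj⟩ := att_mem ho hx hjx
  obtain ⟨hyo, hyk⟩ := att_mem ho hy hky
  have hRc' : ∀ j, c j ∈ {v | v ∈ R ∨ v = c u} := by
    intro j
    by_cases e : j = u
    · exact Or.inr (by rw [e])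
    · exact Or.inl (hRc j e)
  have hno := ex_of h hF hR hd ho hte hRc' hx hy hxy hex
  have hnot : ∀ v, v ∉ R → v ≠ c u → v ∉ {v | v ∈ R ∨ v = c u} := by
    rintro v h1 h2 (h3 | h3)
    · exact h1 h3
    · exact h2 h3
  -- a vertex outside `R` adjacent to `c u` is adjacent to neither of the ends
  have hadj : ∀ v, v ∉ R → G.Adj v (c u) → ¬ G.Adj v (sem x) ∧ ¬ G.Adj v (sem y) := by
    intro v hv h1
    have hvo := hoff v hv h1.ne
    constructor
    · intro h2
      exact hjxu (L1 h hF hR hd hvo hxo h1 hxj h2).symm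
    · intro h2
      exact hkyu (L1 h hF hR hd hvo hyo h1 hyk h2).symm
  intro hO
  apply hno
  match n, hO, hex with
  | 1, hO, _ => exact hO
  | 2, ⟨z, hz, h1, h2⟩, _ =>
    refine ⟨z, hnot z hz ?_, h1, h2⟩
    rintro rfl
    have h3 : x.att.contains u = true := by
      by_contra h3
      exact att_not h hR ho hx hjx (fun h4 => h3 (List.contains_iff_mem.2 h4)) h1
    have h4 : y.att.contains u = true := by
      by_contra h4
      exact att_not h hR ho hy hky (fun h5 => h4 (List.contains_iff_mem.2 h5)) h2.symm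
    rw [h3, h4] at hboth
    exact absurd hboth (by decide)
  | 3, ⟨z, w, hz, hw, hzy, hwx, h1, h2, h3⟩, _ =>
    refine ⟨z, w, hnot z hz ?_, hnot w hw ?_, hzy, hwx, h1, h2, h3⟩
    · rintro rfl
      exact (hadj w hw h2.symm).2 h3
    · rintro rfl
      exact (hadj z hz h2).1 h1.symm
  | 4, ⟨z, w, v, hz, hw, hv, hzy, hwx, hwy, hvx, hzv, h1, h2, h3, h4⟩, _ =>
    refine ⟨z, w, v, hnot z hz ?_, hnot w hw ?_, hnot v hv ?_, hzy, hwx, hwy, hvx, hzv, h1, h2,
      h3, h4⟩
    · rintro rfl
      exact L2 h hF hR hd (hoff w hw h2.ne.symm) hyo (hoff v hv hzv.symm) hwy h2.symm hyk h3 h4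
    · rintro rfl
      exact (hadj z hz h2).1 h1.symm
    · rintro rfl
      exact L2 h hF hR hd (hoff w hw h3.ne) hxo (hoff z hz hzv) hwx h3 hxj h2.symm h1.symm

theorem exUR_of (h : MinCE G B) (hF : Faces G F) (hR : Ring G F i 6 c)
    (hd : ∀ j, 3 ≤ dg G (c j)) {l : List Nm} {sem : Nm → V} (ho : Occ G c l sem)
    {te : ZMod 6 → Bool} (hte : ∀ j, te j = true → TE G (c j) (c (j + 1))) {R : Set V}
    {u : ZMod 6} (hRc : ∀ j, j ≠ u → c j ∈ R) {x y : Nm} (hx : x ∈ l) (hy : y ∈ l) (hxy : x ≠ y)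
    {n : ℕ} (hex : exUR te u x y n = true) : ¬ OPath G R (sem x) (sem y) n := by
  have key : ∀ (j : ZMod 6) (z : Nm), .rg j ∈ l → z ∈ l →
      (decide (j = u) && exR te u z n) = true → ¬ OPath G R (sem (.rg j)) (sem z) n := by
    intro j z hj hz h1
    rw [Bool.and_eq_true, decide_eq_true_eq] at h1
    obtain ⟨rfl, h2⟩ := h1
    rw [ho.rg j hj]
    exact exR_of h hF hR hd ho hte hRc hz h2
  cases x with
  | rg j =>
    cases y with
    | rg k => exact absurd hex (by simp [exUR])
    | pn k a => exact key j _ hx hy hex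
    | ax k => exact key j _ hx hy hex
    | sc k => exact exU_of h hF hR hd ho hte hRc hx hy hxy hex
  | pn j a =>
    cases y with
    | rg k => exact fun h' => key k _ hy hx hex (opath_symm h')
    | pn k b => exact exU_of h hF hR hd ho hte hRc hx hy hxy hex
    | ax k => exact exU_of h hF hR hd ho hte hRc hx hy hxy hex
    | sc k => exact exU_of h hF hR hd ho hte hRc hx hy hxy hex
  | ax j =>
    cases y with
    | rg k => exact fun h' => key k _ hy hx hex (opath_symm h')
    | pn k b => exact exU_of h hF hR hd ho hte hRc hx hy hxy hex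
    | ax k => exact exU_of h hF hR hd ho hte hRc hx hy hxy hex
    | sc k => exact exU_of h hF hR hd ho hte hRc hx hy hxy hex
  | sc j =>
    cases y with
    | rg k => exact exU_of h hF hR hd ho hte hRc hx hy hxy hex
    | pn k b => exact exU_of h hF hR hd ho hte hRc hx hy hxy hex
    | ax k => exact exU_of h hF hR hd ho hte hRc hx hy hxy hex
    | sc k => exact exU_of h hF hR hd ho hte hRc hx hy hxy hex

/-- the occurrence of a configuration from the names, `c u` may be fixed -/
theorem ring_instU (h : MinCE G B) (hF : Faces G F) (hR : Ring G F i 6 c)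
    (hd : ∀ j, 3 ≤ dg G (c j)) {cf : Cfg} {l : List Nm} {te : ZMod 6 → Bool} {u : ZMod 6}
    {sem : Nm → V}
    (hlen : l.length = cf.N) (hnd : l.Nodup) (hchk : rchkU cf l te u = true)
    (ho : Occ G c l sem) (hte : ∀ j, te j = true → TE G (c j) (c (j + 1)))
    (hbs : ∀ a b, a < cf.N → b < cf.N → cf.adjE a b = true →
      (l.getD a (.rg 0)).adj (l.getD b (.rg 0)) = false →
      G.Adj (sem (l.getD a (.rg 0))) (sem (l.getD b (.rg 0))))
    (hB : ∀ a, a < cf.N → cf.inH a = true → sem (l.getD a (.rg 0)) ∉ B)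
    (hdeg : ∀ a, a < cf.nc → dg G (sem (l.getD a (.rg 0))) ≤ cf.outs a + (nn cf a).card)
    (hdegs : ∀ a, cf.isT a = true → cf.sm a = true →
      dg G (sem (l.getD a (.rg 0))) ≤ cf.outs a + (nh cf a).card) :
    Inst cf G B (fun a => sem (l.getD a (.rg 0))) := by
  unfold rchkU at hchk
  rw [Bool.and_eq_true, Bool.and_eq_true] at hchk
  obtain ⟨⟨hc1, hc2⟩, hc3⟩ := hchk
  have hin := ring_inst (cf := { cf with al := [] }) h hF hR hd hlen hnd hc1 ho hte hbs hB hdeg
    hdegs
  refine ⟨hin.inj, hin.coreB, hin.edge, hin.out, hin.small, ?_⟩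
  have hmem : ∀ a, a < cf.N → l.getD a (.rg 0) ∈ l := by
    intro a ha
    rw [← hlen] at ha
    rw [List.getD_eq_getElem _ _ ha]
    exact List.getElem_mem ha
  have hinj : ∀ a b, a < cf.N → b < cf.N → l.getD a (.rg 0) = l.getD b (.rg 0) → a = b := by
    intro a b ha hb hab
    rw [← hlen] at ha hb
    rw [List.getD_eq_getElem _ _ ha, List.getD_eq_getElem _ _ hb] at hab
    exact (hnd.getElem_inj_iff).1 hab
  have hTN : ∀ t, cf.isT t = true → t < cf.N := by
    intro t ht
    unfold Cfg.isT at ht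
    rw [Bool.and_eq_true, decide_eq_true_eq, decide_eq_true_eq] at ht
    exact ht.2
  have hRc : ∀ j, j ≠ u → c j ∈ {v | ∃ r, r < cf.nc ∧ v = sem (l.getD r (.rg 0))} := by
    intro j hju
    have h1 := (List.all_eq_true.1 hc3) j.val (List.mem_range.2 (ZMod.val_lt j))
    have e : ((j.val : ℕ) : ZMod 6) = j := ZMod.natCast_zmod_val j
    rw [Bool.or_eq_true, decide_eq_true_eq, e, List.any_eq_true] at h1
    rcases h1 with h1 | ⟨r, hr, h2⟩
    · exact absurd h1 hju
    · rw [decide_eq_true_eq] at h2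
      have hr' := List.mem_range.1 hr
      refine ⟨r, hr', ?_⟩
      have h3 := hmem r (Nat.lt_of_lt_of_le hr' (Nat.le_add_right _ _))
      rw [h2] at h3
      rw [h2, ho.rg j h3]
  intro a b n ha hb hab hex
  unfold Cfg.excl at hex
  rw [Bool.or_eq_true] at hex
  rcases hex with hex | hex
  · have h1 := (List.all_eq_true.1 hc2) _ (List.contains_iff_mem.1 hex)
    refine exUR_of h hF hR hd ho hte hRc (hmem a (hTN a ha)) (hmem b (hTN b hb)) ?_ h1
    intro e
    exact hab (hinj a b (hTN a ha) (hTN b hb) e)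
  · have h1 := (List.all_eq_true.1 hc2) _ (List.contains_iff_mem.1 hex)
    intro hO
    refine exUR_of h hF hR hd ho hte hRc (hmem b (hTN b hb)) (hmem a (hTN a ha)) ?_ h1
      (opath_symm hO)
    intro e
    exact hab (hinj a b (hTN a ha) (hTN b hb) e.symm)

/-- no reducible configuration with a flexible apex which is not a paying vertex -/
theorem ring_falseG (h : MinCE G B) (hF : Faces G F) (hR : Ring G F i 6 c)
    (hd : ∀ j, 3 ≤ dg G (c j)) {cf : Cfg} {par : ℕ → ℕ} {l : List Nm} {te : ZMod 6 → Bool}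
    {sem : Nm → V} {t : ℕ} {j : ZMod 6} (hadm : cf.adm par = true)
    (hlist : cf.ListOKF (fun i => i == t)) (hf : fchk cf l te t j = true)
    (hlen : l.length = cf.N) (ho : Occ G c l sem)
    (hte : ∀ j, te j = true → TE G (c j) (c (j + 1)))
    (hin : Inst cf G B (fun a => sem (l.getD a (.rg 0))))
    (hnp : ¬ Np G B (sem (.ax j))) : False := by
  have hmem : ∀ a, a < cf.N → l.getD a (.rg 0) ∈ l := by
    intro a ha
    rw [← hlen] at ha
    rw [List.getD_eq_getElem _ _ ha]
    exact List.getElem_mem ha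
  have hNc : ∀ r, r < cf.nc → r < cf.N := fun r hr => Nat.lt_of_lt_of_le hr (Nat.le_add_right _ _)
  have hHc : ∀ r, r < cf.nc → cf.inH r = true := by
    intro r hr
    unfold Cfg.inH
    rw [decide_eq_true hr, Bool.true_or]
  unfold fchk at hf
  simp only [Bool.and_eq_true, Bool.not_eq_true', decide_eq_true_eq, Bool.or_eq_true,
    List.any_eq_true, List.all_eq_true, List.mem_range, decide_eq_false_iff_not] at hf
  obtain ⟨⟨⟨⟨⟨⟨⟨⟨ht, hst⟩, hlt⟩, hsc⟩, hs1⟩, hs2⟩, hall⟩, ⟨r1, hr1, hr1'⟩⟩, ⟨r2, hr2, hr2'⟩⟩ := hf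
  have htN : t < cf.N := by
    unfold Cfg.isT at ht
    rw [Bool.and_eq_true, decide_eq_true_eq, decide_eq_true_eq] at ht
    exact ht.2
  have hj : .ax j ∈ l := hlt ▸ hmem t htN
  have hcon : ∀ x : Nm, l.contains x = false → x ∉ l := by
    intro x hx hx'
    rw [List.contains_iff_mem.2 hx'] at hx
    exact absurd hx (by decide)
  have hn : .sc j ∉ l := hcon _ hsc
  have hs1' : .sc (j + 2) ∈ l → te (j + 1) = true := by
    intro h1
    rcases hs1 with h2 | h2
    · exact absurd h1 (hcon _ h2)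
    · exact h2
  have hs2' : .sc (j - 2) ∈ l → te (j - 1) = true := by
    intro h1
    rcases hs2 with h2 | h2
    · exact absurd h1 (hcon _ h2)
    · exact h2
  have hall' : ∀ a, a < cf.N → cf.inH a = true → l.getD a (.rg 0) ≠ .ax j ∧
      ((l.getD a (.rg 0)).adj (.ax j) = true → cf.adjE a t = true) := by
    intro a ha hH
    rcases hall a ha with h1 | ⟨h1, h2⟩
    · rw [hH] at h1
      exact absurd h1 (by decide)
    · refine ⟨h1, fun h3 => ?_⟩
      rcases h2 with h2 | h2
      · rw [h3] at h2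
        exact absurd h2 (by decide)
      · exact h2
  obtain ⟨hoff, ha1, ha2⟩ := ho.ax j hj
  have hrg : ∀ k : ZMod 6, ∀ r, r < cf.nc → l.getD r (.rg 0) = .rg k →
      sem (l.getD r (.rg 0)) = c k := by
    intro k r hr h1
    have h2 := hmem r (hNc r hr)
    rw [h1] at h2
    rw [h1]
    exact ho.rg k h2
  have hinW : InstW cf G B (fun a => sem (l.getD a (.rg 0))) := by
    refine ⟨hin.inj, hin.coreB, hin.edge, hin.out, ?_, hin.exc⟩
    intro t' h1 h2
    obtain ⟨h3, O, h4, h5, h6⟩ := hin.small t' h1 h2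
    refine ⟨h3, O, h4, fun v hv => ?_, h6⟩
    rcases h5 v hv with h7 | ⟨j', h7, -, h8, h9⟩
    · exact Or.inl h7
    · exact Or.inr ⟨j', h7, h8, h9⟩
  have hfl : ∀ t', isFl cf (fun i => i == t) t' → t' = t := by
    intro t' h1
    simpa using h1.2.2
  refine cfg_falseG (C := fun t' => chg G B (sem (l.getD t' (.rg 0)))) hadm hlist h hinW ?_ ?_ ?_
  · intro t' ht' a ha hH hadj
    rw [hfl t' ht'] at hadj ⊢
    rw [hlt] at hadj
    exact (hall' a ha hH).2 ((occ_adj h hF hR hd ho (hmem a ha) hj unk_ax).1 hadj)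
  · intro t' ht'
    rw [hfl t' ht', hlt]
    refine np_flexC h ?_ hnp ?_ ?_ ?_
    · rintro v ⟨r, hr, rfl⟩
      exact ⟨r, hNc r hr, hHc r hr, rfl⟩
    · rintro ⟨a, ha, hH, he⟩
      exact (hall' a ha hH).1 (occ_inj h hF hR hd ho hj (hmem a ha) he).symm
    · refine ⟨c j, c (j + 1), ⟨r1, hNc r1 hr1, hHc r1 hr1, ?_⟩, ⟨r2, hNc r2 hr2, hHc r2 hr2, ?_⟩,
        ha1, ha2, hR.cyc.2 j⟩
      · exact (hrg j r1 hr1 hr1').symm
      · exact (hrg (j + 1) r2 hr2 hr2').symm
    · intro n hnw
      have ho' := occ_ext ho hte hj hn hs1' hs2' hnw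
      have hx : ∀ a, a < cf.N → l.getD a (.rg 0) ≠ .sc j := by
        intro a ha he
        exact hn (he ▸ hmem a ha)
      refine ⟨?_, ?_⟩
      · rintro ⟨a, ha, hH, he⟩
        have h1 := occ_inj h hF hR hd ho' (x := l.getD a (.rg 0)) (y := .sc j)
          (List.mem_cons_of_mem _ (hmem a ha)) List.mem_cons_self (by
            show (if l.getD a (.rg 0) = .sc j then n else sem (l.getD a (.rg 0))) =
              (if Nm.sc j = .sc j then n else sem (.sc j))
            rw [if_neg (hx a ha), if_pos rfl]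
            exact he.symm)
        exact hx a ha h1
      · rintro w ⟨a, ha, hH, rfl⟩ hadj
        have h1 := (occ_adj h hF hR hd ho' (x := l.getD a (.rg 0)) (y := .sc j)
          (List.mem_cons_of_mem _ (hmem a ha)) List.mem_cons_self unk_sc).1 (by
            show G.Adj (if l.getD a (.rg 0) = .sc j then n else sem (l.getD a (.rg 0)))
              (if Nm.sc j = .sc j then n else sem (.sc j))
            rw [if_neg (hx a ha), if_pos rfl]
            exact hadj)
        exact (hall' a ha hH).1 (adj_sc h1)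
  · intro t1 t2 h1 h2 hne
    exact absurd ((hfl t1 h1).trans (hfl t2 h2).symm) hne

end Pool.Agent.Lib.SVY
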