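import Pool.Agent.Lib.SVY.RingN
import Pool.Agent.Lib.SVY.Facts
import Pool.Agent.Lib.SVY.Word

/-!
# SVY.ValA: restrictions for edges

Plan.  Case analysis on the types; every excluded case contradicts a definition or one of the
fields `l1`, `l2`, `l3`, `c2`, `cc`, `pk`, `qk` of `LF`.
`okW1`: the weak neighbour of a `OneP` is `OneP`, of a `OneQ` is `P1c`, of a `P1c` is `OneQ`; a
`Free` vertex has no `Dm` weak neighbour; the weak neighbours of `Ex2`, `ExK` are `Dm`, and not
`OneP`/`OneQ` (their weak neighbour is `One`/`P1c`); a `Thr` with a neighbour `One` is `Star`;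
`Star - Star` and `Star - Thr` contradict `l1` (the `One` neighbour of the `Star`).
`okT1`: a `OneP` vertex `u` (weak neighbour `z`) in a triangle with `v`: `v` is not of degree 3
(`l1`), not `Npay`, `P1c` (`l2`), not `ExK` (`pk`); a `OneQ` vertex `u` (weak neighbour `z`, `P1c`,
with the other weak neighbour `v'`): `v` is not of degree 3 (`l2`: `v, u, z, v'`), not `Npay`, `P1c`
(`l3`: `v', z, u, v`, weak neighbour of `v`), not `ExK` (`qk`); `P1c` in a triangle with a vertex of
degree 3: `c2`; with `P1c`: `cc`.  The same for an apex (`apx_te`).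
Weak edges lie in no triangle, so the ends of a weak edge have no common neighbour.
-/

set_option autoImplicit false
set_option linter.unusedSectionVars false

namespace Pool.Agent.Lib.SVY

open Finset Pool.Agent.Lib.SVT Pool.Agent.Lib.SVX

variable {V : Type*} [Fintype V] [DecidableEq V] {G : SimpleGraph V} {B : Finset V}
variable {m : ℕ} {F : Fin m → Finset (Sym2 V)} {i : Fin m}

namespace ValAAux

/-! ### the boolean predicates -/

theorem isa_iff {v : V} : (ty G B v).isa = true ↔ OneP G B v := by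
  rw [← ty_a]
  cases ty G B v <;> simp [Ty.isa]

theorem isb_iff (h : MinCE G B) {v : V} : (ty G B v).isb = true ↔ OneQ G B v := by
  rw [← ty_b h]
  cases ty G B v <;> simp [Ty.isb]

theorem isp_iff (h : MinCE G B) {v : V} : (ty G B v).isp = true ↔ P1c G B v := by
  rw [← ty_p h]
  cases ty G B v <;> simp [Ty.isp]

theorem isf_iff {v : V} : (ty G B v).isf = true ↔ Free G B v := by
  rw [← ty_f]
  cases ty G B v <;> simp [Ty.isf]

theorem iss_iff {v : V} : (ty G B v).iss = true ↔ Star G B v := by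
  rw [← ty_s]
  cases ty G B v <;> simp [Ty.iss]

theorem one_of (h : MinCE G B) {v : V} (hv : (ty G B v).one = true) : One G B v := by
  cases e : ty G B v <;> rw [e] at hv <;> simp [Ty.one] at hv
  · exact (ty_a.1 e).1
  · exact ((ty_b h).1 e).1
  · exact (ty_c.1 e).1

theorem isW_iff {a b : V} : (ed G B a b).isW = true ↔ WE G a b := by
  rw [← ed_W (G := G) (B := B)]
  cases ed G B a b <;> simp [Ed.isW]

theorem isV_iff {a b : V} (hab : TE G a b) :
    (ed G B a b).isV = true ↔ OneP G B (apx G a b) := by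
  rw [← ed_V hab]
  cases ed G B a b <;> simp [Ed.isV]

theorem isQ_iff (h : MinCE G B) {a b : V} (hab : TE G a b) :
    (ed G B a b).isQ = true ↔ OneQ G B (apx G a b) := by
  rw [← ed_Q h hab]
  cases ed G B a b <;> simp [Ed.isQ]

theorem isC_iff (h : MinCE G B) {a b : V} (hab : TE G a b) :
    (ed G B a b).isC = true ↔ P1c G B (apx G a b) := by
  rw [← ed_C h hab]
  cases ed G B a b <;> simp [Ed.isC]

/-! ### degrees -/

theorem One.inn {v : V} (hv : One G B v) : Inn G B 3 v := ⟨hv.1, hv.2.1.le⟩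

theorem Thr.inn {v : V} (hv : Thr G B v) : Inn G B 3 v := ⟨hv.1, hv.2.1.le⟩

theorem F12.inn {v : V} (hv : F12 G B v) : Inn G B 4 v := ⟨hv.1, hv.2.1.le⟩

theorem Dm.inn {v : V} (hv : Dm G B v) : Inn G B 3 v := by
  rcases hv with h1 | h1
  · exact One.inn h1
  · exact Thr.inn h1.1

theorem WE.not_adj {a b w : V} (hab : WE G a b) (h1 : G.Adj a w) : ¬ G.Adj b w :=
  fun h2 => hab.2 ⟨w, h1, h2⟩

/-- a weak neighbour of degree 3 of an `F12` vertex which is not `Free` -/
theorem exists_dm {y : V} (h1 : F12 G B y) (h2 : ¬ Free G B y) : ∃ u, WE G y u ∧ Dm G B u := by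
  by_contra hne
  push Not at hne
  exact h2 ⟨h1, hne⟩

theorem P1c.not_free (h : MinCE G B) {y : V} (h1 : P1c G B y) : ¬ Free G B y := by
  intro h2
  obtain ⟨a, b, -, ha, -, -⟩ := F12.weak h h1.1
  exact h2.2 a ha (Or.inl (h1.2 a ha))

/-! ### weak edges -/

theorem notP_a (h : MinCE G B) {a b : V} (hab : WE G a b) (h1 : ¬ One G B a) : ¬ OneP G B b := by
  rintro ⟨hb, z, hz, hz1⟩
  have e : a = z := One.wn_unique h hb hab.symm hz
  exact h1 (e ▸ hz1)

theorem notQ_a (h : MinCE G B) {a b : V} (hab : WE G a b) (h1 : ¬ P1c G B a) :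
    ¬ OneQ G B b := by
  rintro ⟨hb, z, hz, hz1⟩
  have e : a = z := One.wn_unique h hb hab.symm hz
  exact h1 (e ▸ hz1)

theorem dflt (h : MinCE G B) {a b : V} (hab : WE G a b) (h1 : ¬ One G B a)
    (h2 : ¬ P1c G B a) : (!((ty G B b).isa || (ty G B b).isb)) = true := by
  have e1 : (ty G B b).isa = false :=
    Bool.eq_false_iff.2 (fun h3 => notP_a h hab h1 (isa_iff.1 h3))
  have e2 : (ty G B b).isb = false :=
    Bool.eq_false_iff.2 (fun h3 => notQ_a h hab h2 ((isb_iff h).1 h3))
  rw [e1, e2]
  rfl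

/-- the weak neighbour of an exceptional vertex -/
theorem exc_w (h : MinCE G B) {a b : V} (hab : WE G a b) (h1 : ¬ One G B a)
    (h2 : ¬ P1c G B a) (h3 : Dm G B b) : ty G B b = .c ∨ ty G B b = .s := by
  rcases h3 with h4 | h4
  · exact Or.inl (ty_c.2 ⟨h4, notP_a h hab h1, notQ_a h hab h2⟩)
  · exact Or.inr (ty_s.2 h4)

/-- `Thr - Thr` with a further `One` neighbour -/
theorem star_thr {F : Fin m → Finset (Sym2 V)} (hL : LF G B F) {a b : V} (hab : WE G a b)
    (ha : Star G B a) (hb : Thr G B b) : False := by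
  obtain ⟨ha1, z, hz, hz1⟩ := ha
  have hne : z ≠ b := by
    rintro rfl
    have e1 := hz1.2.2
    have e2 := hb.2.2
    omega
  exact hL.l1 z a b (One.inn hz1) (Thr.inn ha1) (Thr.inn hb) hz.1.symm hab.1 hne
    (fun h1 => WE.not_adj hz hab.1 h1)

theorem okW1_of (h : MinCE G B) (hL : LF G B F) {a b : V} (hab : WE G a b) :
    okW1 (ty G B a) (ty G B b) = true := by
  cases ha : ty G B a
  case X =>
    have h1 := ty_X.1 ha
    refine dflt h hab (fun h2 => ?_) (fun h2 => ?_)
    · rcases h1 with h1 | h1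
      · exact h2.1 h1
      · have := h2.2.1
        omega
    · rcases h1 with h1 | h1
      · exact h2.1.1 h1
      · have := h2.1.2.1
        omega
  case f =>
    have h1 := ty_f.1 ha
    show (!(ty G B b).dm) = true
    have e1 : (ty G B b).dm = false :=
      Bool.eq_false_iff.2 (fun h3 => h1.2 b hab (dm_iff.1 h3))
    rw [e1]
    rfl
  case F =>
    exact absurd hab (FF.no_weak h (ty_F.1 ha))
  case N =>
    have h1 := ty_N.1 ha
    refine dflt h hab (fun h2 => ?_) h1.2.1
    have e1 := h2.2.1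
    have e2 := h1.1.2.1
    omega
  case p =>
    have h1 := (ty_p h).1 ha
    show (ty G B b).isb = true
    exact (isb_iff h).2 ⟨h1.2 b hab, a, hab.symm, h1⟩
  case E =>
    have h1 := ty_E.1 ha
    refine dflt h hab (fun h2 => ?_) (fun h2 => ?_)
    · have e1 := h2.2.1
      have e2 := h1.2.1
      omega
    · have e1 := h2.1.2.2
      have e2 := h1.2.2
      omega
  case G =>
    have h1 := ty_G.1 ha
    have h2 : ¬ One G B a := by
      intro h2
      have e1 := h2.2.1
      have e2 := h1.2.1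
      omega
    have h3 : ¬ P1c G B a := by
      intro h2
      have e1 := h2.1.2.1
      have e2 := h1.2.1
      omega
    rcases exc_w h hab h2 h3 (h1.2.2.2 b hab) with h4 | h4 <;> rw [h4] <;> rfl
  case K =>
    have h1 := ty_K.1 ha
    have h2 : ¬ One G B a := by
      intro h2
      have e1 := h2.2.1
      have e2 := h1.2.1
      omega
    have h3 : ¬ P1c G B a := by
      intro h2
      have e1 := h2.1.2.1
      have e2 := h1.2.1
      omega
    rcases exc_w h hab h2 h3 (h1.2.2.2 b hab) with h4 | h4 <;> rw [h4] <;> rfl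
  case a =>
    obtain ⟨h1, z, hz, hz1⟩ := ty_a.1 ha
    have e : z = b := One.wn_unique h h1 hz hab
    subst e
    show (ty G B z).isa = true
    exact isa_iff.2 ⟨hz1, a, hz.symm, h1⟩
  case b =>
    obtain ⟨h1, z, hz, hz1⟩ := (ty_b h).1 ha
    have e : z = b := One.wn_unique h h1 hz hab
    subst e
    show (ty G B z).isp = true
    exact (isp_iff h).2 hz1
  case c =>
    obtain ⟨h1, h2, h3⟩ := ty_c.1 ha
    have k1 : ¬ One G B b := fun h4 => h2 ⟨h1, b, hab, h4⟩
    cases hb : ty G B b
    case X => rfl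
    case f => exact absurd (Or.inl h1) ((ty_f.1 hb).2 a hab.symm)
    case F => rfl
    case N => rfl
    case p => exact absurd ⟨h1, b, hab, (ty_p h).1 hb⟩ h3
    case E => rfl
    case G => rfl
    case K => rfl
    case a => exact absurd (ty_a.1 hb).1 k1
    case b => exact absurd ((ty_b h).1 hb).1 k1
    case c => exact absurd (ty_c.1 hb).1 k1
    case z =>
      have h4 := (ty_z h ⟨a, hab.1.symm⟩).1 hb
      exact absurd ⟨h4.1, a, hab.symm, h1⟩ h4.2
    case s => rfl
  case z =>
    obtain ⟨h1, h2⟩ := (ty_z h ⟨b, hab.1⟩).1 ha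
    show (!(ty G B b).dm) = true
    have e1 : (ty G B b).dm = false := by
      refine Bool.eq_false_iff.2 (fun h3 => ?_)
      rcases dm_iff.1 h3 with h4 | h4
      · exact h2 ⟨h1, b, hab, h4⟩
      · exact star_thr hL hab.symm h4 h1
    rw [e1]
    rfl
  case s =>
    have h1 := ty_s.1 ha
    cases hb : ty G B b
    case X => rfl
    case f => rfl
    case F => rfl
    case N => rfl
    case p => rfl
    case E => rfl
    case G => rfl
    case K => rfl
    case a =>
      refine absurd (ty_a.1 hb) (notP_a h hab (fun h2 => ?_))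
      have e1 := h2.2.2
      have e2 := h1.1.2.2
      omega
    case b =>
      refine absurd ((ty_b h).1 hb) (notQ_a h hab (fun h2 => ?_))
      have e1 := h2.1.2.1
      have e2 := h1.1.2.1
      omega
    case c => rfl
    case z =>
      exact (star_thr hL hab h1 ((ty_z h ⟨a, hab.1.symm⟩).1 hb).1).elim
    case s =>
      exact (star_thr hL hab h1 (ty_s.1 hb).1).elim

/-! ### triangle edges -/

/-- a neighbour of a `OneP` vertex in its triangle -/
theorem ma_of (h : MinCE G B) (hL : LF G B F) {v y : V} (hv : OneP G B v) (hy : TE G v y) :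
    (ty G B y).ma = true := by
  have hP := hv
  obtain ⟨h1, z, hz, hz1⟩ := hv
  have hne : z ≠ y := by
    rintro rfl
    exact hy.not_we hz
  have hna : ¬ G.Adj z y := WE.not_adj hz hy.1
  have hone : ¬ One G B y := fun h2 =>
    hL.l1 z v y (One.inn hz1) (One.inn h1) (One.inn h2) hz.1.symm hy.1 hne hna
  have h12 : F12 G B y → ¬ Free G B y → False := by
    intro h2 h3
    obtain ⟨u, hu, hu1⟩ := exists_dm h2 h3
    have hvu : v ≠ u := by
      rintro rfl
      exact hy.symm.not_we hu
    exact hL.l2 z v y u (One.inn hz1) (One.inn h1) (F12.inn h2) (Dm.inn hu1) hz.1.symm hy.1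
      hu.1 hne hvu hna (fun h4 => WE.not_adj hu hy.1.symm h4.symm)
  cases e : ty G B y
  case X => rfl
  case f => rfl
  case F => rfl
  case N =>
    have h2 := ty_N.1 e
    exact (h12 h2.1 h2.2.2).elim
  case p =>
    have h2 := (ty_p h).1 e
    exact (h12 h2.1 (P1c.not_free h h2)).elim
  case E => exact absurd hy.symm (F04.no_te h (ty_E.1 e))
  case G => rfl
  case K => exact (hL.pk v y hP (ty_K.1 e) hy).elim
  case a => exact absurd (ty_a.1 e).1 hone
  case b => exact absurd ((ty_b h).1 e).1 hone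
  case c => exact absurd (ty_c.1 e).1 hone
  case z => exact absurd hy.symm (Thr.no_te h ((ty_z h ⟨v, hy.1.symm⟩).1 e).1)
  case s => exact absurd hy.symm (Thr.no_te h (ty_s.1 e).1)

/-- a neighbour of a `OneQ` vertex in its triangle -/
theorem mb_of (h : MinCE G B) (hL : LF G B F) {v y : V} (hv : OneQ G B v) (hy : TE G v y) :
    (ty G B y).mb = true := by
  have hQ := hv
  obtain ⟨h1, z, hz, hz1⟩ := hv
  -- the other weak neighbour of `z`
  obtain ⟨v', hv'1, hv'2⟩ : ∃ v', v' ≠ v ∧ WE G z v' := by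
    obtain ⟨p, q, hpq, hp, hq, -⟩ := F12.weak h hz1.1
    by_cases h2 : p = v
    · exact ⟨q, fun h3 => hpq (h2.trans h3.symm), hq⟩
    · exact ⟨p, h2, hp⟩
  have hv'3 : One G B v' := hz1.2 v' hv'2
  have hzy : z ≠ y := by
    rintro rfl
    exact hy.not_we hz
  have hna : ¬ G.Adj z y := WE.not_adj hz hy.1
  have hvv' : ¬ G.Adj v v' := WE.not_adj hz.symm hv'2.1
  have hone : ¬ One G B y := fun h2 =>
    hL.l2 y v z v' (One.inn h2) (One.inn h1) (F12.inn hz1.1) (One.inn hv'3) hy.1.symm hz.1
      hv'2.1 hzy.symm hv'1.symm (fun h3 => hna h3.symm) hvv'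
  have h12 : F12 G B y → ¬ Free G B y → False := by
    intro h2 h3
    obtain ⟨u, hu, hu1⟩ := exists_dm h2 h3
    have hvu : v ≠ u := by
      rintro rfl
      exact hy.symm.not_we hu
    exact hL.l3 v' z v y u (One.inn hv'3) (F12.inn hz1.1) (One.inn h1) (F12.inn h2)
      (Dm.inn hu1) hv'2.1.symm hz.1.symm hy.1 hu.1 hv'1 hzy hvu (fun h4 => hvv' h4.symm) hna
      (fun h4 => WE.not_adj hu hy.1.symm h4.symm)
  cases e : ty G B y
  case X => rfl
  case f => rfl
  case F => rfl
  case N =>
    have h2 := ty_N.1 e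
    exact (h12 h2.1 h2.2.2).elim
  case p =>
    have h2 := (ty_p h).1 e
    exact (h12 h2.1 (P1c.not_free h h2)).elim
  case E => exact absurd hy.symm (F04.no_te h (ty_E.1 e))
  case G => rfl
  case K => exact (hL.qk v y hQ (ty_K.1 e) hy).elim
  case a => exact absurd (ty_a.1 e).1 hone
  case b => exact absurd ((ty_b h).1 e).1 hone
  case c => exact absurd (ty_c.1 e).1 hone
  case z => exact absurd hy.symm (Thr.no_te h ((ty_z h ⟨v, hy.1.symm⟩).1 e).1)
  case s => exact absurd hy.symm (Thr.no_te h (ty_s.1 e).1)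

/-- a neighbour of a `P1c` vertex in its triangle -/
theorem pc_of (h : MinCE G B) (hL : LF G B F) {v y : V} (hv : P1c G B v) (hy : TE G v y) :
    ((ty G B y).t3 || (ty G B y).isp) = false := by
  obtain ⟨p, q, hpq, hp, hq, -⟩ := F12.weak h hv.1
  have e1 : (ty G B y).t3 = false := by
    refine Bool.eq_false_iff.2 (fun h1 => ?_)
    obtain ⟨h2, h3⟩ := (t3_iff h ⟨v, hy.1.symm⟩).1 h1
    refine hL.c2 v p q y (F12.inn hv.1) (One.inn (hv.2 p hp)) (One.inn (hv.2 q hq))
      ⟨h2, h3.le⟩ hp.1 hq.1 hy.1 hpq ?_ ?_ (WE.not_adj hp hq.1) (WE.not_adj hp hy.1)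
      (WE.not_adj hq hy.1)
    · rintro rfl
      exact hy.not_we hp
    · rintro rfl
      exact hy.not_we hq
  have e2 : (ty G B y).isp = false :=
    Bool.eq_false_iff.2 (fun h1 => hL.cc v y hv ((isp_iff h).1 h1) hy)
  rw [e1, e2]
  rfl

theorem imp_bool {x y : Bool} (hxy : x = true → y = true) : (!x || y) = true := by
  cases x
  · rfl
  · exact hxy rfl

theorem not_and_bool {x y : Bool} (hxy : x = true → y = false) : (!(x && y)) = true := by
  cases x
  · rfl
  · rw [hxy rfl]
    rfl

theorem okT1_of (h : MinCE G B) (hL : LF G B F) {a b : V} (hab : TE G a b) :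
    okT1 (ty G B a) (ty G B b) (ed G B a b) = true := by
  have ht : TE G (apx G a b) a := (apx_te hab).1.symm
  unfold okT1
  have k1 : (!(ty G B a).isa || (ty G B b).ma) = true :=
    imp_bool (fun h1 => ma_of h hL (isa_iff.1 h1) hab)
  have k2 : (!(ty G B a).isb || (ty G B b).mb) = true :=
    imp_bool (fun h1 => mb_of h hL ((isb_iff h).1 h1) hab)
  have k3 : (!(ed G B a b).isV || (ty G B a).ma) = true :=
    imp_bool (fun h1 => ma_of h hL ((isV_iff hab).1 h1) ht)
  have k4 : (!(ed G B a b).isQ || (ty G B a).mb) = true :=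
    imp_bool (fun h1 => mb_of h hL ((isQ_iff h hab).1 h1) ht)
  have k5 : (!((ed G B a b).isC && ((ty G B a).t3 || (ty G B a).isp))) = true :=
    not_and_bool (fun h1 => pc_of h hL ((isC_iff h hab).1 h1) ht)
  have k6 : (!((ty G B a).isp && ((ty G B b).t3 || (ty G B b).isp))) = true :=
    not_and_bool (fun h1 => pc_of h hL ((isp_iff h).1 h1) hab)
  rw [k1, k2, k3, k4, k5, k6]
  rfl

end ValAAux

open ValAAux

theorem l_okW (h : MinCE G B) (hF : Faces G F) (hL : LF G B F) {a b : V} (hab : WE G a b) :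
    okW (ty G B a) (ty G B b) = true := by
  unfold okW
  rw [okW1_of h hL hab, okW1_of h hL hab.symm]
  rfl

theorem l_okT (h : MinCE G B) (hF : Faces G F) (hL : LF G B F) {a b : V} (hab : TE G a b) :
    okT (ty G B a) (ty G B b) (ed G B a b) = true := by
  unfold okT
  have h1 := okT1_of h hL hab.symm
  rw [ed_symm h hab.1.symm] at h1
  rw [okT1_of h hL hab, h1]
  rfl

theorem l_okE (h : MinCE G B) (hF : Faces G F) (hL : LF G B F) {a b : V} (hab : G.Adj a b) :
    okE (ty G B a) (ty G B b) (ed G B a b) = true := by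
  unfold okE
  rcases te_or_we hab with h1 | h1
  · have h2 : ¬ (ed G B a b).isW = true := fun h3 => h1.not_we (isW_iff.1 h3)
    rw [if_neg h2]
    exact l_okT h hF hL h1
  · rw [if_pos (isW_iff.2 h1)]
    exact l_okW h hF hL h1

theorem l_okC (h : MinCE G B) (hF : Faces G F) {v a b : V} (hi : Nt F i) (hab : a ≠ b)
    (h1 : s(v, a) ∈ F i) (h2 : s(v, b) ∈ F i) :
    okC (ty G B v) (ed G B v a) (ed G B v b) = true := by
  have hva : G.Adj v a := (SimpleGraph.mem_edgeSet G).1 (hF.sub i _ h1)
  have hvb : G.Adj v b := (SimpleGraph.mem_edgeSet G).1 (hF.sub i _ h2)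
  have hnw : ∀ x, TE G v x → (ed G B v x).isW = false := fun x hx =>
    Bool.eq_false_iff.2 (fun h3 => hx.not_we (isW_iff.1 h3))
  -- one triangle: not both edges are triangle edges
  have h11 : tt G v = 1 → 3 ≤ dg G v → TE G v a → TE G v b → False := by
    intro ht hd ha hb
    obtain ⟨p, q, hpq, -, -, h3, h4⟩ := one_tri h ht
    refine nt_short h hF hi hd hab h1 h2 ?_
    rcases h4 a ha with h5 | h5 <;> rcases h4 b hb with h6 | h6
    · exact absurd (h5.trans h6.symm) hab
    · rw [h5, h6]
      exact h3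
    · rw [h5, h6]
      exact h3.symm
    · exact absurd (h5.trans h6.symm) hab
  have hor : tt G v = 1 → 3 ≤ dg G v →
      ((ed G B v a).isW || (ed G B v b).isW) = true := by
    intro ht hd
    rcases te_or_we hva with ha | ha
    · rcases te_or_we hvb with hb | hb
      · exact (h11 ht hd ha hb).elim
      · rw [isW_iff.2 hb, Bool.or_true]
    · rw [isW_iff.2 ha, Bool.true_or]
  have hone : One G B v → ((ed G B v a).isW != (ed G B v b).isW) = true := by
    intro hv
    rcases te_or_we hva with ha | ha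
    · rcases te_or_we hvb with hb | hb
      · exact (h11 hv.2.2 hv.2.1.ge ha hb).elim
      · rw [isW_iff.2 hb, hnw a ha]
        rfl
    · rcases te_or_we hvb with hb | hb
      · rw [isW_iff.2 ha, hnw b hb]
        rfl
      · exact absurd (One.wn_unique h hv ha hb) hab
  have hww : (∀ x, ¬ TE G v x) → ((ed G B v a).isW && (ed G B v b).isW) = true := by
    intro h3
    have ha := (te_or_we hva).resolve_left (h3 a)
    have hb := (te_or_we hvb).resolve_left (h3 b)
    rw [isW_iff.2 ha, isW_iff.2 hb]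
    rfl
  cases e : ty G B v
  case X => rfl
  case f =>
    have h3 := (ty_f.1 e).1
    exact hor h3.2.2 (by have := h3.2.1; omega)
  case F =>
    have h3 := ty_F.1 e
    have ha := (te_or_we hva).resolve_right (FF.no_weak h h3)
    have hb := (te_or_we hvb).resolve_right (FF.no_weak h h3)
    show (!(ed G B v a).isW && !(ed G B v b).isW) = true
    rw [hnw a ha, hnw b hb]
    rfl
  case N =>
    have h3 := (ty_N.1 e).1
    exact hor h3.2.2 (by have := h3.2.1; omega)
  case p =>
    have h3 := ((ty_p h).1 e).1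
    exact hor h3.2.2 (by have := h3.2.1; omega)
  case E => exact hww (fun x => F04.no_te h (ty_E.1 e))
  case G =>
    have h3 := ty_G.1 e
    show (!((ed G B v a).isW && (ed G B v b).isW)) = true
    exact not_and_bool (fun h4 => Bool.eq_false_iff.2 (fun h5 =>
      hab (Ex2.wn_unique h h3 (isW_iff.1 h4) (isW_iff.1 h5))))
  case K =>
    have h3 := ty_K.1 e
    exact hor h3.2.2.1 (by have := h3.2.1; omega)
  case a => exact hone (ty_a.1 e).1
  case b => exact hone ((ty_b h).1 e).1
  case c => exact hone (ty_c.1 e).1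
  case z => exact hww (fun x => Thr.no_te h ((ty_z h ⟨a, hva⟩).1 e).1)
  case s => exact hww (fun x => Thr.no_te h (ty_s.1 e).1)

end Pool.Agent.Lib.SVY
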