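import Pool.Agent.Lib.SVY.Wd
import Pool.Agent.Lib.SVY.ValA

/-!
# SVY.SupA: free darts received by a face of length 6

Plan.  Every term of the sum on the left side is a pair `(q, a)` with `FD q a` and `Rcv q a i`:
* `sX` at `j` towards `j ± 1`: `q = c j`, `a = c (j ± 1)` (not in `B` because the type is not `X`; the
  apex is not `OneP` because the edge is not `V`); no rerouting: `RF` would need the other ring
  neighbour of `a` to be paying or exceptional (`i₀ = i`: the face which is not a triangle on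
  `q a` is unique, `te_nt_unique`), `RN`: if `a` is `Npay` then the weak neighbour of `a` on this
  face is not `Dm`, so the other one is `Dm` and `u` would be the other one (the face of
  `s(apx, a)` is the other one: `F12.opp`, `corner_face`);
* `sF` at `j`: `a = c j` is `FF`, `q = apx (c j) (c (j ± 1))` (paying by `isT`), the third vertex
  `c (j ± 1)` is not `OneP`; `RF q a i`: `i₀` is the opposite face (`FF.opp`) with `b` = the apex of
  the other ring edge, which is paying or exceptional;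
* `sN` at `j` (`c j`, `c (j+1)` are `FF`, V-edge; `c (j-1)` is `Npay`): `a = c (j-1)`,
  `q = apx (c (j-1)) (c j)`, `x = c (j+1)`, `u = c (j-2)`.
Different terms give different pairs: `a = c j'` and `q` is a ring neighbour of `a` (`sX`) or an apex
of a ring edge at `a` (`sF`: `a` is `FF`, `sN`: `a` is `Npay`, the apex of the only triangle edge at
`a`); an apex of a ring edge at `a` is not a ring neighbour of `a` (`nt_short`).
State it as an injection from the set of terms `(j, direction, kind)` or bound the number of `(q, a)`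
for every fixed `a = c j'` from below and sum over `j'` (`c` is injective): the terms with `a = c j'`
are `sX` at `j' - 1` (direction +), `sX` at `j' + 1` (direction -), `sF` at `j'` (both directions),
`sN` at `j' + 1` (direction +) and `sN` at `j' - 1` (direction -).
-/

set_option autoImplicit false
set_option linter.unusedSectionVars false

namespace Pool.Agent.Lib.SVY

open Finset Pool.Agent.Lib.SVT Pool.Agent.Lib.SVX

variable {V : Type*} [Fintype V] [DecidableEq V] {G : SimpleGraph V} {B : Finset V}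
variable {m : ℕ} {F : Fin m → Finset (Sym2 V)} {i : Fin m}

/-- the number of terms of the kinds `sX`, `sF`, `sN` -/
noncomputable def nfree (k : ZMod 6 → Ty) (e : ZMod 6 → Ed) : ℕ :=
  ∑ j, ((if sX (k j) (e j) (k (j + 1)) (e (j + 1)) (k (j + 2)) then 1 else 0) +
    (if sX (k j) (e (j - 1)) (k (j - 1)) (e (j - 2)) (k (j - 2)) then 1 else 0) +
    (if sF (e (j - 1)) (k j) (e j) (k (j + 1)) then 1 else 0) +
    (if sF (e j) (k j) (e (j - 1)) (k (j - 1)) then 1 else 0) +
    (if sN (e (j - 1)) (k (j - 1)) (e (j - 2)) (k (j - 2)) (k j) (e j) (k (j + 1)) then 1 else 0) +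
    (if sN (e j) (k (j + 1)) (e (j + 1)) (k (j + 2)) (k j) (e (j - 1)) (k (j - 1)) then 1 else 0))


namespace SupAAux

theorem te_of_ed {a b : V} (hab : G.Adj a b) (h1 : (ed G B a b).isW = false) : TE G a b := by
  rcases te_or_we hab with h2 | h2
  · exact h2
  · exfalso
    rw [ed_W.2 h2] at h1
    exact Bool.noConfusion h1

theorem not_oneP_of_deg {v : V} (hd : dg G v = 4) : ¬ One G B v := by
  rintro ⟨-, h1, -⟩
  omega

theorem dg3 {v : V} {k : ℕ} (hd : dg G v = k) (hk : 3 ≤ k) : 3 ≤ dg G v := by omega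

theorem isF_iff {v : V} : (ty G B v).isF = true ↔ FF G B v := by
  rw [← ty_F]
  cases ty G B v <;> simp [Ty.isF]

theorem isN_iff {v : V} : (ty G B v).isN = true ↔ Npay G B v := by
  rw [← ty_N]
  cases ty G B v <;> simp [Ty.isN]

theorem isX_iff {v : V} : (ty G B v).isX = true ↔ Big G B v := by
  rw [← ty_X]
  cases ty G B v <;> simp [Ty.isX]

theorem isa_iff {v : V} : (ty G B v).isa = true ↔ OneP G B v := by
  rw [← ty_a]
  cases ty G B v <;> simp [Ty.isa]

theorem isb_iff (h : MinCE G B) {v : V} : (ty G B v).isb = true ↔ OneQ G B v := by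
  rw [← ty_b h]
  cases ty G B v <;> simp [Ty.isb]

theorem isp_iff (h : MinCE G B) {v : V} : (ty G B v).isp = true ↔ P1c G B v := by
  rw [← ty_p h]
  cases ty G B v <;> simp [Ty.isp]

theorem isW_iff {a b : V} : (ed G B a b).isW = true ↔ WE G a b := by
  rw [← ed_W (G := G) (B := B)]
  cases ed G B a b <;> simp [Ed.isW]

theorem isV_iff {a b : V} (hab : TE G a b) :
    (ed G B a b).isV = true ↔ OneP G B (apx G a b) := by
  rw [← ed_V hab]
  cases ed G B a b <;> simp [Ed.isV]

theorem isT_iff {a b : V} (hab : TE G a b) :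
    (ed G B a b).isT = true ↔ Np G B (apx G a b) := by
  rw [← ed_T hab]
  cases ed G B a b <;> simp [Ed.isT]

theorem isZ_iff {a b : V} (hab : TE G a b) :
    (ed G B a b).isZ = true ↔ Exc G B (apx G a b) := by
  rw [← ed_Z hab]
  cases ed G B a b <;> simp [Ed.isZ]

/-- the kind `sX` -/
theorem recX (h : MinCE G B) (hF : Faces G F) {q a b : V} (hi : Nt F i) (h1 : s(a, q) ∈ F i)
    (h2 : s(a, b) ∈ F i) (hqb : q ≠ b)
    (hX : sX (ty G B q) (ed G B q a) (ty G B a) (ed G B a b) (ty G B b) = true) :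
    FD G B q a ∧ Rcv G B F q a i := by
  have haq : G.Adj a q := (SimpleGraph.mem_edgeSet G).1 (hF.sub i _ h1)
  have hab : G.Adj a b := (SimpleGraph.mem_edgeSet G).1 (hF.sub i _ h2)
  simp only [sX, Bool.and_eq_true, Bool.not_eq_true'] at hX
  obtain ⟨⟨⟨⟨⟨⟨⟨⟨x1, x2⟩, x3⟩, x4⟩, x5⟩, x6⟩, x7⟩, x8⟩, x9⟩ := hX
  have hq : Np G B q := np_iff.1 x1
  have tqa : TE G q a := te_of_ed haq.symm x2
  have nV : ¬ OneP G B (apx G q a) := fun hh => by
    rw [← isV_iff tqa, x3] at hh
    exact Bool.noConfusion hh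
  have nX : ¬ Big G B a := fun hh => by
    rw [← isX_iff, x4] at hh
    exact Bool.noConfusion hh
  have na : ¬ OneP G B a := fun hh => by
    rw [← isa_iff, x5] at hh
    exact Bool.noConfusion hh
  have nb' : ¬ OneQ G B a := fun hh => by
    rw [← isb_iff h, x6] at hh
    exact Bool.noConfusion hh
  have np : ¬ P1c G B a := fun hh => by
    rw [← isp_iff h, x7] at hh
    exact Bool.noConfusion hh
  have haB : a ∉ B := fun hh => nX (Or.inl hh)
  refine ⟨⟨⟨hq, tqa, haB⟩, nV, na, nb', np⟩, Or.inr (Or.inr ⟨?_, ?_, hi, ?_⟩)⟩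
  · rintro ⟨j, hf, i₀, b₀, hi₀, g1, g2, hb₀, hnb, -⟩
    have e1 : i₀ = i := te_nt_unique h hF tqa.symm hi₀ hi (by rw [Sym2.eq_swap]; exact g1) h1
    rw [e1] at g2
    have e2 : b₀ = b := (face_two hF hqb h1 h2 g2).resolve_left hb₀
    rw [e2] at hnb
    have y1 : (ty G B a).isF = true := isF_iff.2 hf
    have y2 : ((ty G B b).np || (ty G B b).ex) = true := by
      rw [Bool.or_eq_true, np_iff, ex_iff]
      exact hnb
    rw [y1, y2] at x8
    exact Bool.noConfusion x8
  · rintro ⟨j, hN, -⟩
    have y1 : (ty G B a).isN = true := isN_iff.2 hN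
    rw [y1] at x9
    exact Bool.noConfusion x9
  · rw [Sym2.eq_swap]
    exact h1

theorem FF.te (h : MinCE G B) {v a : V} (hv : FF G B v) (ha : G.Adj v a) : TE G v a := by
  rcases te_or_we ha with h1 | h1
  · exact h1
  · exact absurd h1 (FF.no_weak h hv)

/-- the kind `sF` -/
theorem recF (h : MinCE G B) (hF : Faces G F) {v a b : V} (hi : Nt F i) (h1 : s(v, a) ∈ F i)
    (h2 : s(v, b) ∈ F i) (hab : a ≠ b)
    (hX : sF (ed G B v a) (ty G B v) (ed G B v b) (ty G B b) = true) :
    FD G B (apx G v b) v ∧ Rcv G B F (apx G v b) v i := by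
  have hva : G.Adj v a := (SimpleGraph.mem_edgeSet G).1 (hF.sub i _ h1)
  have hvb : G.Adj v b := (SimpleGraph.mem_edgeSet G).1 (hF.sub i _ h2)
  simp only [sF, Bool.and_eq_true, Bool.not_eq_true', Bool.or_eq_true] at hX
  obtain ⟨⟨⟨x1, x2⟩, x3⟩, x4⟩ := hX
  have hv : FF G B v := isF_iff.1 x1
  have ta : TE G v a := FF.te h hv hva
  have tb : TE G v b := FF.te h hv hvb
  have hq : Np G B (apx G v b) := (isT_iff tb).1 x2
  have hp : Np G B (apx G v a) ∨ Exc G B (apx G v a) := by
    rcases x3 with x3 | x3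
    · exact Or.inl ((isT_iff ta).1 x3)
    · exact Or.inr ((isZ_iff ta).1 x3)
  have nb' : ¬ OneP G B b := fun hh => by
    rw [← isa_iff, x4] at hh
    exact Bool.noConfusion hh
  have n1 : ¬ One G B v := not_oneP_of_deg hv.2.1
  have tq : TE G v (apx G v b) := (apx_te tb).1
  have haa := apx_adj ta
  have hbb := apx_adj tb
  have hd : 3 ≤ dg G v := by have := hv.2.1; omega
  have hns : ¬ G.Adj a b := nt_short h hF hi hd hab h1 h2
  have m2 : a ≠ apx G v b := by
    intro hh
    rw [← hh] at hbb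
    exact hns hbb.2.symm
  have m3 : apx G v a ≠ b := by
    intro hh
    rw [hh] at haa
    exact hns haa.2
  have m4 : apx G v a ≠ apx G v b := by
    intro hh
    have k1 := apx_apx h ta
    have k2 := apx_apx h tb
    rw [hh, k2] at k1
    exact hab k1.symm
  obtain ⟨j, hj, hji, g1, g2⟩ := FF.opp h hF hv hva haa.1 haa.2 hvb hbb.1 hbb.2 hab m2 m3 m4 hi
    h1 h2
  have hap : apx G (apx G v b) v = b := by
    rw [apx_symm h tq.symm]
    exact apx_apx h tb
  have hRF : RF G B F (apx G v b) v i := by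
    refine ⟨hv, j, apx G v a, hj, ?_, g1, m4, hp, hi, hji.symm, a, h1⟩
    rw [Sym2.eq_swap]
    exact g2
  refine ⟨⟨⟨hq, tq.symm, hv.1⟩, ?_, fun hh => n1 hh.1, fun hh => n1 hh.1, ?_⟩,
    Or.inl ⟨⟨i, hRF⟩, hRF⟩⟩
  · rw [hap]
    exact nb'
  · rintro ⟨⟨-, -, k1⟩, -⟩
    have := hv.2.2
    omega

/-- the kind `sN` -/
theorem recN (h : MinCE G B) (hF : Faces G F) {x y A u : V} (hi : Nt F i)
    (h1 : s(y, x) ∈ F i) (h2 : s(y, A) ∈ F i) (h3 : s(A, u) ∈ F i) (hxA : x ≠ A)
    (hX : sN (ed G B y A) (ty G B A) (ed G B A u) (ty G B u) (ty G B y) (ed G B y x)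
      (ty G B x) = true) :
    FD G B (apx G A y) A ∧ Rcv G B F (apx G A y) A i := by
  have hyx : G.Adj y x := (SimpleGraph.mem_edgeSet G).1 (hF.sub i _ h1)
  have hyA : G.Adj y A := (SimpleGraph.mem_edgeSet G).1 (hF.sub i _ h2)
  simp only [sN, Bool.and_eq_true] at hX
  obtain ⟨⟨⟨⟨⟨x1, x2⟩, x3⟩, x4⟩, x5⟩, x6⟩ := hX
  have hy : FF G B y := isF_iff.1 x1
  have tyx : TE G y x := FF.te h hy hyx
  have tyA : TE G y A := FF.te h hy hyA
  have hV : OneP G B (apx G y x) := (isV_iff tyx).1 x2
  have hx : FF G B x := isF_iff.1 x3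
  have hT : Np G B (apx G y A) := (isT_iff tyA).1 x4
  have hA : Npay G B A := isN_iff.1 x5
  have wAu : WE G A u := isW_iff.1 x6
  have e1 : apx G y A = apx G A y := apx_symm h tyA
  rw [e1] at hT
  have tAy : TE G A y := tyA.symm
  have tq : TE G A (apx G A y) := (apx_te tAy).1
  have hap : apx G (apx G A y) A = y := by
    rw [apx_symm h tq.symm]
    exact apx_apx h tAy
  have n1 : ¬ One G B A := not_oneP_of_deg hA.1.2.1
  refine ⟨⟨⟨hT, tq.symm, hA.1.1⟩, ?_, fun hh => n1 hh.1, fun hh => n1 hh.1, hA.2.1⟩, ?_⟩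
  · rw [hap]
    exact fun hh => not_oneP_of_deg hy.2.1 hh.1
  · have hRN : RN G B F (apx G A y) A i := by
      refine ⟨hA, x, u, ?_⟩
      rw [hap]
      refine ⟨hy, hx, hxA, tyx.symm, ?_, hi, ?_, h2, h3, wAu⟩
      · rw [apx_symm h tyx.symm]
        exact hV
      · rw [Sym2.eq_swap]
        exact h1
    refine Or.inr (Or.inl ⟨?_, ⟨i, hRN⟩, hRN⟩)
    rintro ⟨j, hf, -⟩
    have k1 := hf.2.2
    have k2 := hA.1.2.2
    omega

/-- sums over the ring -/
theorem sum_ring {c : ZMod 6 → V} (hc : Function.Injective c) (f : V → ℕ) :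
    ∑ t, f (c t) ≤ ∑ a, f a := by
  rw [← sum_image (f := f) (s := univ) (g := c) (fun x _ y _ hxy => hc hxy)]
  exact sum_le_sum_of_subset (subset_univ _)

/-- the terms at one vertex -/
theorem six {w1 w2 w3 w4 : V} (S : Finset V) {p1 p2 p3 p4 p5 p6 : Prop}
    [Decidable p1] [Decidable p2] [Decidable p3] [Decidable p4] [Decidable p5] [Decidable p6]
    (h12 : w1 ≠ w2)
    (a1 : p1 → w1 ∈ S) (a2 : p2 → w2 ∈ S) (a3 : p3 → w3 ∈ S) (a4 : p4 → w4 ∈ S)
    (a5 : p5 → w3 ∈ S) (a6 : p6 → w4 ∈ S)
    (b3 : p3 ∨ p5 → w3 ≠ w1 ∧ w3 ≠ w2) (b4 : p4 ∨ p6 → w4 ≠ w1 ∧ w4 ≠ w2)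
    (b34 : (p3 ∨ p5) → (p4 ∨ p6) → w3 ≠ w4)
    (c35 : p3 → p5 → False) (c46 : p4 → p6 → False) :
    (if p1 then 1 else 0) + (if p2 then 1 else 0) + (if p3 then 1 else 0) +
      (if p4 then 1 else 0) + (if p5 then 1 else 0) + (if p6 then 1 else 0) ≤ S.card := by
  classical
  have e1 : (if p3 then 1 else 0) + (if p5 then 1 else 0) = (if p3 ∨ p5 then 1 else 0) := by
    by_cases h3 : p3 <;> by_cases h5 : p5 <;> simp [h3, h5]
    exact c35 h3 h5
  have e2 : (if p4 then 1 else 0) + (if p6 then 1 else 0) = (if p4 ∨ p6 then 1 else 0) := by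
    by_cases h3 : p4 <;> by_cases h5 : p6 <;> simp [h3, h5]
    exact c46 h3 h5
  have a35 : p3 ∨ p5 → w3 ∈ S := fun hh => hh.elim a3 a5
  have a46 : p4 ∨ p6 → w4 ∈ S := fun hh => hh.elim a4 a6
  have key : (if p1 then ({w1} : Finset V) else ∅) ∪ (if p2 then {w2} else ∅) ∪
      (if p3 ∨ p5 then {w3} else ∅) ∪ (if p4 ∨ p6 then {w4} else ∅) ⊆ S := by
    intro z hz
    simp only [mem_union] at hz
    rcases hz with ((hz | hz) | hz) | hz
    · split_ifs at hz with hp
      · rw [mem_singleton.1 hz]; exact a1 hp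
      · exact absurd hz (notMem_empty z)
    · split_ifs at hz with hp
      · rw [mem_singleton.1 hz]; exact a2 hp
      · exact absurd hz (notMem_empty z)
    · split_ifs at hz with hp
      · rw [mem_singleton.1 hz]; exact a35 hp
      · exact absurd hz (notMem_empty z)
    · split_ifs at hz with hp
      · rw [mem_singleton.1 hz]; exact a46 hp
      · exact absurd hz (notMem_empty z)
  refine le_trans ?_ (card_le_card key)
  have cd : ∀ (p : Prop) [Decidable p] (w : V),
      (if p then ({w} : Finset V) else ∅).card = (if p then 1 else 0) := by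
    intro p _ w
    split_ifs <;> simp
  rw [card_union_of_disjoint, card_union_of_disjoint, card_union_of_disjoint, cd, cd, cd, cd]
  · omega
  · rw [disjoint_left]
    intro z h1 h2
    split_ifs at h1 h2
    all_goals first
      | exact absurd h1 (notMem_empty z)
      | exact absurd h2 (notMem_empty z)
      | exact h12 ((mem_singleton.1 h1).symm.trans (mem_singleton.1 h2))
  · rw [disjoint_left]
    intro z h1 h2
    rw [mem_union] at h1
    split_ifs at h2 with hp
    · obtain ⟨k1, k2⟩ := b3 hp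
      rw [mem_singleton] at h2
      rcases h1 with h1 | h1
      · split_ifs at h1
        · exact k1 (h2.symm.trans (mem_singleton.1 h1))
        · exact absurd h1 (notMem_empty z)
      · split_ifs at h1
        · exact k2 (h2.symm.trans (mem_singleton.1 h1))
        · exact absurd h1 (notMem_empty z)
    · exact absurd h2 (notMem_empty z)
  · rw [disjoint_left]
    intro z h1 h2
    rw [mem_union, mem_union] at h1
    split_ifs at h2 with hp
    · obtain ⟨k1, k2⟩ := b4 hp
      rw [mem_singleton] at h2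
      rcases h1 with (h1 | h1) | h1
      · split_ifs at h1
        · exact k1 (h2.symm.trans (mem_singleton.1 h1))
        · exact absurd h1 (notMem_empty z)
      · split_ifs at h1
        · exact k2 (h2.symm.trans (mem_singleton.1 h1))
        · exact absurd h1 (notMem_empty z)
      · split_ifs at h1 with hq
        · exact b34 hq hp ((mem_singleton.1 h1).symm.trans h2)
        · exact absurd h1 (notMem_empty z)
    · exact absurd h2 (notMem_empty z)

theorem reindex (f1 f2 f3 f4 f5 f6 : ZMod 6 → ℕ) :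
    ∑ j, (f1 j + f2 j + f3 j + f4 j + f5 j + f6 j) =
      ∑ t, (f1 (t - 1) + f2 (t + 1) + f3 t + f4 t + f5 (t + 1) + f6 (t - 1)) := by
  have r1 : ∀ f : ZMod 6 → ℕ, ∑ t, f (t - 1) = ∑ t, f t := fun f =>
    (Equiv.subRight (1 : ZMod 6)).sum_comp f
  have r2 : ∀ f : ZMod 6 → ℕ, ∑ t, f (t + 1) = ∑ t, f t := fun f =>
    Equiv.sum_comp (Equiv.addRight (1 : ZMod 6)) f
  simp only [sum_add_distrib]
  rw [r1 f1, r2 f2, r2 f5, r1 f6]

end SupAAux

open SupAAux

open Classical in
theorem free_ge (h : MinCE G B) (hF : Faces G F) (hL : LF G B F) {c : ZMod 6 → V}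
    (hR : Ring G F i 6 c) :
    nfree (wk G B c) (we G B c) ≤
      ∑ q, (univ.filter (fun a => FD G B q a ∧ Rcv G B F q a i)).card := by
  have hi : Nt F i := Ring.nt hR (by norm_num)
  -- change of summation
  have s1 : ∑ q, (univ.filter (fun a => FD G B q a ∧ Rcv G B F q a i)).card =
      ∑ a, (univ.filter (fun q => FD G B q a ∧ Rcv G B F q a i)).card := by
    simp only [card_filter]
    exact sum_comm
  rw [s1]
  refine le_trans ?_ (sum_ring hR.cyc.1
    (fun a => (univ.filter (fun q => FD G B q a ∧ Rcv G B F q a i)).card))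
  unfold nfree
  refine (le_of_eq (reindex _ _ _ _ _ _)).trans ?_
  refine sum_le_sum fun t _ => ?_
  have i1 : t - 1 + 1 = t := sub_add_cancel _ _
  have i2 : t - 1 + 2 = t + 1 := by ring
  have i3 : t + 1 - 1 = t := add_sub_cancel_right _ _
  have i4 : t + 1 - 2 = t - 1 := by ring
  simp only [i1, i2, i3, i4]
  have hmem := Ring.mem hR
  have hmem' := Ring.mem' hR
  have hadj := Ring.adj hR
  have hadj' := Ring.adj' hR
  have hne := Ring.ne (by norm_num) hR
  have w1 : we G B c (t - 1) = ed G B (c (t - 1)) (c t) := by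
    unfold we
    rw [i1]
  have w1' : we G B c (t - 1) = ed G B (c t) (c (t - 1)) := by
    rw [w1]
    exact ed_symm h (hadj' t).symm
  have w2 : we G B c t = ed G B (c t) (c (t + 1)) := rfl
  have w2' : we G B c t = ed G B (c (t + 1)) (c t) := by
    rw [w2]
    exact ed_symm h (hadj t)
  have m1 : s(c t, c (t + 1)) ∈ F i := hmem t
  have m2 : s(c t, c (t - 1)) ∈ F i := hmem' t
  have m1' : s(c (t + 1), c t) ∈ F i := by
    rw [Sym2.eq_swap]
    exact m1
  have m2' : s(c (t - 1), c t) ∈ F i := by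
    rw [Sym2.eq_swap]
    exact m2
  have hsh : 3 ≤ dg G (c t) → ¬ G.Adj (c (t - 1)) (c (t + 1)) := Ring.short h hF (by norm_num) hR
  -- types of the centre
  have dF : (wk G B c t).isF = true → FF G B (c t) := fun hh => isF_iff.1 hh
  have dN : (wk G B c t).isN = true → Npay G B (c t) := fun hh => isN_iff.1 hh
  -- consequences of the kinds
  have f3 : sF (we G B c (t - 1)) (wk G B c t) (we G B c t) (wk G B c (t + 1)) = true →
      (wk G B c t).isF = true := by
    intro hh
    simp only [sF, Bool.and_eq_true] at hh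
    exact hh.1.1.1
  have f4 : sF (we G B c t) (wk G B c t) (we G B c (t - 1)) (wk G B c (t - 1)) = true →
      (wk G B c t).isF = true := by
    intro hh
    simp only [sF, Bool.and_eq_true] at hh
    exact hh.1.1.1
  have f5 : sN (we G B c t) (wk G B c t) (we G B c (t - 1)) (wk G B c (t - 1))
      (wk G B c (t + 1)) (we G B c (t + 1)) (wk G B c (t + 1 + 1)) = true →
      (wk G B c t).isN = true ∧ (we G B c t).isT = true ∧ (we G B c (t - 1)).isW = true := by
    intro hh
    simp only [sN, Bool.and_eq_true] at hh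
    exact ⟨hh.1.2, hh.1.1.2, hh.2⟩
  have f6 : sN (we G B c (t - 1)) (wk G B c t) (we G B c t) (wk G B c (t + 1))
      (wk G B c (t - 1)) (we G B c (t - 1 - 1)) (wk G B c (t - 1 - 1)) = true →
      (wk G B c t).isN = true ∧ (we G B c (t - 1)).isT = true ∧ (we G B c t).isW = true := by
    intro hh
    simp only [sN, Bool.and_eq_true] at hh
    exact ⟨hh.1.2, hh.1.1.2, hh.2⟩
  have TW : ∀ x : Ed, x.isT = true → x.isW = true → False := by
    intro x hx hy
    cases x <;> simp [Ed.isT, Ed.isW] at hx hy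
  have FN : ∀ x : Ty, x.isF = true → x.isN = true → False := by
    intro x hx hy
    cases x <;> simp [Ty.isF, Ty.isN] at hx hy
  -- degrees
  have d3 : (wk G B c t).isF = true ∨ (wk G B c t).isN = true → 3 ≤ dg G (c t) := by
    rintro (hh | hh)
    · have := (dF hh).2.1
      omega
    · have := (dN hh).1.2.1
      omega
  have te1 : (wk G B c t).isF = true ∨ (we G B c t).isT = true → TE G (c t) (c (t + 1)) := by
    rintro (hh | hh)
    · exact FF.te h (dF hh) (hadj t)
    · rcases te_or_we (hadj t) with k1 | k1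
      · exact k1
      · exact (TW _ hh (isW_iff.2 k1)).elim
  have te2 : (wk G B c t).isF = true ∨ (we G B c (t - 1)).isT = true →
      TE G (c t) (c (t - 1)) := by
    rintro (hh | hh)
    · exact FF.te h (dF hh) (hadj' t)
    · rcases te_or_we (hadj' t) with k1 | k1
      · exact k1
      · refine (TW _ hh ?_).elim
        rw [w1']
        exact isW_iff.2 k1
  refine six (w1 := c (t - 1)) (w2 := c (t + 1)) (w3 := apx G (c t) (c (t + 1)))
    (w4 := apx G (c t) (c (t - 1))) _ (hne t) ?_ ?_ ?_ ?_ ?_ ?_ ?_ ?_ ?_ ?_ ?_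
  · intro hh
    rw [mem_filter]
    refine ⟨mem_univ _, recX h hF hi m2 m1 (hne t) ?_⟩
    rw [w1, w2] at hh
    exact hh
  · intro hh
    rw [mem_filter]
    refine ⟨mem_univ _, recX h hF hi m1 m2 (hne t).symm ?_⟩
    rw [w1', w2'] at hh
    exact hh
  · intro hh
    rw [mem_filter]
    refine ⟨mem_univ _, recF h hF hi m2 m1 (hne t) ?_⟩
    rw [w1', w2] at hh
    exact hh
  · intro hh
    rw [mem_filter]
    refine ⟨mem_univ _, recF h hF hi m1 m2 (hne t).symm ?_⟩
    rw [w1', w2] at hh
    exact hh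
  · intro hh
    rw [mem_filter]
    refine ⟨mem_univ _, recN h hF (x := c (t + 1 + 1)) (y := c (t + 1)) (A := c t)
      (u := c (t - 1)) hi (hmem (t + 1)) m1' m2 ?_ ?_⟩
    · have k1 := hne (t + 1)
      rw [i3] at k1
      exact k1.symm
    · rw [w1', w2'] at hh
      exact hh
  · intro hh
    rw [mem_filter]
    refine ⟨mem_univ _, recN h hF (x := c (t - 1 - 1)) (y := c (t - 1)) (A := c t)
      (u := c (t + 1)) hi (hmem' (t - 1)) m2' m1 ?_ ?_⟩
    · have k1 := hne (t - 1)
      rw [i1] at k1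
      exact k1
    · have w3 : we G B c (t - 1 - 1) = ed G B (c (t - 1)) (c (t - 1 - 1)) := by
        unfold we
        rw [sub_add_cancel]
        exact ed_symm h (hadj' (t - 1)).symm
      rw [w1, w2, w3] at hh
      exact hh
  · intro hh
    have k0 : (wk G B c t).isF = true ∨ ((wk G B c t).isN = true ∧ (we G B c t).isT = true) := by
      rcases hh with hh | hh
      · exact Or.inl (f3 hh)
      · exact Or.inr ⟨(f5 hh).1, (f5 hh).2.1⟩
    have k1 := te1 (k0.imp id (fun hh => hh.2))
    have k2 := d3 (k0.imp id (fun hh => hh.1))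
    have k3 := apx_adj k1
    refine ⟨?_, (apx_ne k1).2⟩
    intro k4
    rw [k4] at k3
    exact hsh k2 k3.2.symm
  · intro hh
    have k0 : (wk G B c t).isF = true ∨
        ((wk G B c t).isN = true ∧ (we G B c (t - 1)).isT = true) := by
      rcases hh with hh | hh
      · exact Or.inl (f4 hh)
      · exact Or.inr ⟨(f6 hh).1, (f6 hh).2.1⟩
    have k1 := te2 (k0.imp id (fun hh => hh.2))
    have k2 := d3 (k0.imp id (fun hh => hh.1))
    have k3 := apx_adj k1
    refine ⟨(apx_ne k1).2, ?_⟩
    intro k4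
    rw [k4] at k3
    exact hsh k2 k3.2
  · intro g1 g2 g3
    have k0 : (wk G B c t).isF = true := by
      rcases g1 with g1 | g1
      · exact f3 g1
      · rcases g2 with g2 | g2
        · exact f4 g2
        · exact (TW _ (f5 g1).2.1 (f6 g2).2.2).elim
    have k1 := te1 (Or.inl k0)
    have k2 := te2 (Or.inl k0)
    have k3 := apx_apx h k1
    have k4 := apx_apx h k2
    rw [g3, k4] at k3
    exact hne t k3
  · intro g1 g2
    exact FN _ (f3 g1) (f5 g2).1
  · intro g1 g2
    exact FN _ (f4 g1) (f6 g2).1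

end Pool.Agent.Lib.SVY
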