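import Pool.Agent.Lib.SVY.Word

/-!
# SVY.WordD: the enumeration of the words of 6-faces

Generated.
-/

set_option autoImplicit false
set_option linter.unusedSectionVars false
set_option maxRecDepth 100000

namespace Pool.Agent.Lib.SVY

/-- `k x` for all `x` with `g x` -/
def allT (g k : Ty → Bool) : Bool :=
  (!g .X || k .X) && ((!g .f || k .f) && ((!g .F || k .F) && ((!g .N || k .N) &&
  ((!g .p || k .p) && ((!g .E || k .E) && ((!g .G || k .G) && ((!g .K || k .K) &&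
  ((!g .a || k .a) && ((!g .b || k .b) && ((!g .c || k .c) && ((!g .z || k .z) &&
  (!g .s || k .s))))))))))))

def allE (g k : Ed → Bool) : Bool :=
  (!g .W || k .W) && ((!g .T || k .T) && ((!g .Z || k .Z) && ((!g .S || k .S) &&
  ((!g .V || k .V) && ((!g .Q || k .Q) && (!g .C || k .C))))))

lemma allT_spec {g k : Ty → Bool} (h : allT g k = true) (x : Ty) (hg : g x = true) :
    k x = true := by
  simp only [allT, Bool.and_eq_true, Bool.or_eq_true, Bool.not_eq_true'] at h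
  obtain ⟨h1, h2, h3, h4, h5, h6, h7, h8, h9, h10, h11, h12, h13⟩ := h
  cases x <;> simp_all

lemma allE_spec {g k : Ed → Bool} (h : allE g k = true) (x : Ed) (hg : g x = true) :
    k x = true := by
  simp only [allE, Bool.and_eq_true, Bool.or_eq_true, Bool.not_eq_true'] at h
  obtain ⟨h1, h2, h3, h4, h5, h6, h7⟩ := h
  cases x <;> simp_all

/-- partial supply tests -/
def sX1 (c : Ty) (y : Ed) (b : Ty) : Bool :=
  c.np && !y.isW && !y.isV && !b.isX && !b.isa && !b.isb && !b.isp && !b.isF && !b.isN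

def sX2 (c : Ty) (y : Ed) (b b' : Ty) : Bool :=
  c.np && !y.isW && !y.isV && b.isF && !(b'.np || b'.ex)

def sX3 (_ : Ty) (_ : Ed) (_ : Ty) (_ : Ed) (_ : Ty) : Bool := false

def sG2 (x : Ed) (a : Ty) (o : Ed) (a' : Ty) (c : Ty) (y : Ed) (b : Ty) (u : Ed) (b' : Ty) : Bool :=
  Nat.ble 2 (supG x a o a' c y b u b')

/-- the demand of a word -/
def dem6 (k0 : Ty) (e0 : Ed) (k1 : Ty) (e1 : Ed) (k2 : Ty) (e2 : Ed) (k3 : Ty) (e3 : Ed)
    (k4 : Ty) (e4 : Ed) (k5 : Ty) (e5 : Ed) : ℕ :=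
  demj e5 k5 e4 k4 k0 e0 k1 e1 k2 + (demj e0 k0 e5 k5 k1 e1 k2 e2 k3 +
  (demj e1 k1 e0 k0 k2 e2 k3 e3 k4 + (demj e2 k2 e1 k1 k3 e3 k4 e4 k5 +
  (demj e3 k3 e2 k2 k4 e4 k5 e5 k0 + demj e4 k4 e3 k3 k5 e5 k0 e0 k1))))

/-- the supply at a vertex -/
def supj (x : Ed) (a : Ty) (o : Ed) (a' : Ty) (c : Ty) (y : Ed) (b : Ty) (u : Ed) (b' : Ty) : ℕ :=
  supd x a o a' c y b u b' + supd y b u b' c x a o a' + supG x a o a' c y b u b'

/-- the supply of a word -/
def sup6 (k0 : Ty) (e0 : Ed) (k1 : Ty) (e1 : Ed) (k2 : Ty) (e2 : Ed) (k3 : Ty) (e3 : Ed)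
    (k4 : Ty) (e4 : Ed) (k5 : Ty) (e5 : Ed) : ℕ :=
  supj e5 k5 e4 k4 k0 e0 k1 e1 k2 + (supj e0 k0 e5 k5 k1 e1 k2 e2 k3 +
  (supj e1 k1 e0 k0 k2 e2 k3 e3 k4 + (supj e2 k2 e1 k1 k3 e3 k4 e4 k5 +
  (supj e3 k3 e2 k2 k4 e4 k5 e5 k0 + supj e4 k4 e3 k3 k5 e5 k0 e0 k1))))

/-- a code in some position -/
def code6 (k0 : Ty) (e0 : Ed) (k1 : Ty) (e1 : Ed) (k2 : Ty) (e2 : Ed) (k3 : Ty) (e3 : Ed)
    (k4 : Ty) (e4 : Ed) (k5 : Ty) (e5 : Ed) : Bool :=
  code1 k0 e0 k1 e1 k2 e2 k3 e3 k4 e4 k5 e5 || (code1 k1 e1 k2 e2 k3 e3 k4 e4 k5 e5 k0 e0 ||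
  (code1 k2 e2 k3 e3 k4 e4 k5 e5 k0 e0 k1 e1 || (code1 k3 e3 k4 e4 k5 e5 k0 e0 k1 e1 k2 e2 ||
  (code1 k4 e4 k5 e5 k0 e0 k1 e1 k2 e2 k3 e3 || (code1 k5 e5 k0 e0 k1 e1 k2 e2 k3 e3 k4 e4 ||
  (code1 k0 e5 k5 e4 k4 e3 k3 e2 k2 e1 k1 e0 || (code1 k5 e4 k4 e3 k3 e2 k2 e1 k1 e0 k0 e5 ||
  (code1 k4 e3 k3 e2 k2 e1 k1 e0 k0 e5 k5 e4 || (code1 k3 e2 k2 e1 k1 e0 k0 e5 k5 e4 k4 e3 ||
  (code1 k2 e1 k1 e0 k0 e5 k5 e4 k4 e3 k3 e2 || code1 k1 e0 k0 e5 k5 e4 k4 e3 k3 e2 k2 e1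
  ))))))))))

def leaf (k0 : Ty) (e0 : Ed) (k1 : Ty) (e1 : Ed) (k2 : Ty) (e2 : Ed) (k3 : Ty) (e3 : Ed)
    (k4 : Ty) (e4 : Ed) (k5 : Ty) (e5 : Ed) : Bool :=
  code6 k0 e0 k1 e1 k2 e2 k3 e3 k4 e4 k5 e5 ||
    Nat.ble (dem6 k0 e0 k1 e1 k2 e2 k3 e3 k4 e4 k5 e5) (sup6 k0 e0 k1 e1 k2 e2 k3 e3 k4 e4 k5 e5)

/-- enumeration, start `V`, the inner part -/
def enVb (e1 : Ed) (k2 : Ty) (e5 : Ed) : Bool :=
     allT (fun k5 =>
         okE k5 .F e5 &&
         r1e .V .F e5 k5 &&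
         sbf .F .F e1 e5 k5 &&
         r1v k5 e5 .F .V .F &&
         !(sX2 k5 e5 .F .F) &&
         r2f .F .V .F e1 k2 e5 k5 &&
         r2f .F .V .F e5 k5 e1 k2) (fun k5 =>
      allE (fun e2 =>
          okC k2 e1 e2 &&
          r1e e2 k2 e1 .F &&
          !(sF e2 k2 e1 .F)) (fun e2 =>
       allT (fun k3 =>
           okE k2 k3 e2 &&
           r1e e1 k2 e2 k3 &&
           !(sX1 k2 e2 k3) &&
           !(sX1 k3 e2 k2) &&
           !(sF e1 k2 e2 k3) &&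
           sbf k2 .F .V e2 k3 &&
           r1v .F e1 k2 e2 k3 &&
           r1v k3 e2 k2 e1 .F &&
           !(sX2 k3 e2 k2 .F) &&
           !(sS k3 e2 k2 .F) &&
           !(sX3 k3 e2 k2 e1 .F) &&
           r2f .F e1 k2 e2 k3 .V .F &&
           r2f k2 e1 .F .V .F e2 k3 &&
           !(sN e1 k2 e2 k3 .F .V .F)) (fun k3 =>
        allE (fun e4 =>
            okC k5 e4 e5 &&
            r1e e4 k5 e5 .F &&
            !(sF e4 k5 e5 .F)) (fun e4 =>
         allT (fun k4 =>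
             okE k4 k5 e4 &&
             r1e e5 k5 e4 k4 &&
             !(sX1 k4 e4 k5) &&
             !(sX1 k5 e4 k4) &&
             !(sF e5 k5 e4 k4) &&
             sbf k3 k4 e4 e2 k2 &&
             sbf k4 k3 e2 e4 k5 &&
             sbf k5 .F .V e4 k4 &&
             r1v k4 e4 k5 e5 .F &&
             r1v .F e5 k5 e4 k4 &&
             !(sX2 k2 e2 k3 k4) &&
             !(sX2 k4 e4 k5 .F) &&
             !(sX2 k5 e4 k4 k3) &&
             !(sS k2 e2 k3 k4) &&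
             !(sS k4 e4 k5 .F) &&
             !(sS k5 e4 k4 k3) &&
             !(sX3 k4 e4 k5 e5 .F) &&
             r2f .F e5 k5 e4 k4 .V .F &&
             r2f k5 e5 .F .V .F e4 k4 &&
             !(sN e5 k5 e4 k4 .F .V .F)) (fun k4 =>
          allE (fun e3 =>
              okE k3 k4 e3 &&
              okC k3 e2 e3 &&
              okC k4 e3 e4 &&
              r1e e2 k3 e3 k4 &&
              r1e e3 k3 e2 k2 &&
              r1e e3 k4 e4 k5 &&
              r1e e4 k4 e3 k3 &&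
              !(sX1 k3 e3 k4) &&
              !(sX1 k4 e3 k3) &&
              !(sF e2 k3 e3 k4) &&
              !(sF e3 k3 e2 k2) &&
              !(sF e3 k4 e4 k5) &&
              !(sF e4 k4 e3 k3) &&
              sbf k3 k2 e1 e3 k4 &&
              sbf k4 k5 e5 e3 k3 &&
              r1v k2 e2 k3 e3 k4 &&
              r1v k4 e3 k3 e2 k2 &&
              r1v k3 e3 k4 e4 k5 &&
              r1v k5 e4 k4 e3 k3 &&
              !(sX2 k3 e3 k4 k5) &&
              !(sX2 k4 e3 k3 k2) &&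
              !(sS k3 e3 k4 k5) &&
              !(sS k4 e3 k3 k2) &&
              !(sX3 k2 e2 k3 e3 k4) &&
              !(sX3 k3 e3 k4 e4 k5) &&
              !(sX3 k4 e3 k3 e2 k2) &&
              !(sX3 k5 e4 k4 e3 k3) &&
              r2f k2 e2 k3 e3 k4 e1 .F &&
              r2f k3 e2 k2 e1 .F e3 k4 &&
              r2f k3 e3 k4 e4 k5 e2 k2 &&
              r2f k4 e3 k3 e2 k2 e4 k5 &&
              r2f k4 e4 k5 e5 .F e3 k3 &&
              r2f k5 e4 k4 e3 k3 e5 .F &&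
              !(sN e2 k3 e3 k4 k2 e1 .F) &&
              !(sN e2 k2 e1 .F k3 e3 k4) &&
              !(sN e3 k4 e4 k5 k3 e2 k2) &&
              !(sN e3 k3 e2 k2 k4 e4 k5) &&
              !(sN e4 k5 e5 .F k4 e3 k3) &&
              !(sN e4 k4 e3 k3 k5 e5 .F) &&
              !(sG2 e1 .F .V .F k2 e2 k3 e3 k4) &&
              !(sG2 e2 k2 e1 .F k3 e3 k4 e4 k5) &&
              !(sG2 e3 k3 e2 k2 k4 e4 k5 e5 .F) &&
              !(sG2 e4 k4 e3 k3 k5 e5 .F .V .F)) (fun e3 =>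
           leaf .F .V .F e1 k2 e2 k3 e3 k4 e4 k5 e5))))))

/-- `T`, `Z`, `S` -/
def hE : Ed → Bool
  | .T => true
  | .Z => true
  | .S => true
  | _ => false

/-- the heavy parts -/
def hvV (e1 : Ed) (k2 : Ty) (e5 : Ed) : Bool := hE e1 && (k2.isF || k2.isG) && hE e5

/-- enumeration, start `V` -/
def enV : Bool :=
  allE (fun e1 =>
      okC .F .V e1 &&
      r1e e1 .F .V .F) (fun e1 =>
   allT (fun k2 =>
       okE .F k2 e1 &&
       r1e .V .F e1 k2 &&
       r1v k2 e1 .F .V .F &&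
       !(sX2 k2 e1 .F .F)) (fun k2 =>
    allE (fun e5 =>
        okC .F e5 .V &&
        r1e e5 .F .V .F &&
        sbf .F .F e5 e1 k2) (fun e5 =>
     enVb e1 k2 e5)))

/-- the same without the heavy parts -/
def enVc : Bool :=
  allE (fun e1 =>
      okC .F .V e1 &&
      r1e e1 .F .V .F) (fun e1 =>
   allT (fun k2 =>
       okE .F k2 e1 &&
       r1e .V .F e1 k2 &&
       r1v k2 e1 .F .V .F &&
       !(sX2 k2 e1 .F .F)) (fun k2 =>
    allE (fun e5 =>
        okC .F e5 .V &&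
        r1e e5 .F .V .F &&
        sbf .F .F e5 e1 k2) (fun e5 =>
     hvV e1 k2 e5 || enVb e1 k2 e5)))

/-- enumeration, start `W` -/
def enW : Bool :=
  allE (fun e1 =>
      okE .a .F e1 &&
      okC .a .W e1) (fun e1 =>
   allE (fun e5 =>
       okE .F .a e5 &&
       okC .a e5 .W) (fun e5 =>
    allE (fun e2 =>
        okC .F e1 e2 &&
        r1e e2 .F e1 .a) (fun e2 =>
     allT (fun k3 =>
         okE .F k3 e2 &&
         r1e e1 .F e2 k3 &&
         !(sF e1 .F e2 k3) &&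
         r1v .a e1 .F e2 k3 &&
         r1v k3 e2 .F e1 .a &&
         !(sX2 k3 e2 .F .a)) (fun k3 =>
      allE (fun e4 =>
          okC .F e4 e5 &&
          r1e e4 .F e5 .a) (fun e4 =>
       allT (fun k4 =>
           okE k4 .F e4 &&
           r1e e5 .F e4 k4 &&
           !(sF e5 .F e4 k4) &&
           r1v k4 e4 .F e5 .a &&
           r1v .a e5 .F e4 k4 &&
           !(sX2 k4 e4 .F .a)) (fun k4 =>
        allE (fun e3 =>
            okE k3 k4 e3 &&
            okC k3 e2 e3 &&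
            okC k4 e3 e4 &&
            r1e e2 k3 e3 k4 &&
            r1e e3 k3 e2 .F &&
            r1e e3 k4 e4 .F &&
            r1e e4 k4 e3 k3 &&
            !(sX1 k3 e3 k4) &&
            !(sX1 k4 e3 k3) &&
            !(sF e2 k3 e3 k4) &&
            !(sF e3 k3 e2 .F) &&
            !(sF e3 k4 e4 .F) &&
            !(sF e4 k4 e3 k3) &&
            sbf .F k3 e3 e1 .a &&
            sbf k3 .F e1 e3 k4 &&
            sbf k4 .F e5 e3 k3 &&
            sbf .F k4 e3 e5 .a &&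
            r1v .F e2 k3 e3 k4 &&
            r1v k4 e3 k3 e2 .F &&
            r1v k3 e3 k4 e4 .F &&
            r1v .F e4 k4 e3 k3 &&
            !(sX2 k3 e3 k4 .F) &&
            !(sX2 k4 e3 k3 .F) &&
            !(sS k3 e3 k4 .F) &&
            !(sS k4 e3 k3 .F) &&
            !(sX3 k3 e3 k4 e4 .F) &&
            !(sX3 k4 e3 k3 e2 .F) &&
            r2f k3 e2 .F e1 .a e3 k4 &&
            r2f k3 e3 k4 e4 .F e2 .F &&
            r2f k4 e3 k3 e2 .F e4 .F &&
            r2f k4 e4 .F e5 .a e3 k3 &&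
            !(sN e3 k4 e4 .F k3 e2 .F) &&
            !(sN e3 k3 e2 .F k4 e4 .F) &&
            !(sG2 e2 .F e1 .a k3 e3 k4 e4 .F) &&
            !(sG2 e3 k3 e2 .F k4 e4 .F e5 .a)) (fun e3 =>
         leaf .a .W .a e1 .F e2 k3 e3 k4 e4 .F e5)))))))

/-- enumeration, start `P` -/
def enP : Bool :=
  allE (fun e1 =>
      okE .b .F e1 &&
      okC .b .W e1) (fun e1 =>
   allE (fun e4 =>
       okE .F .b e4 &&
       okC .b e4 .W) (fun e4 =>
    allT (fun k3 =>
        true) (fun k3 =>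
     allE (fun e2 =>
         okE .F k3 e2 &&
         okC .F e1 e2 &&
         r1e e1 .F e2 k3 &&
         r1e e2 .F e1 .b &&
         !(sF e1 .F e2 k3) &&
         !(sF e2 .F e1 .b) &&
         r1v .b e1 .F e2 k3 &&
         r1v k3 e2 .F e1 .b &&
         !(sX2 k3 e2 .F .b)) (fun e2 =>
      allE (fun e3 =>
          okE k3 .F e3 &&
          okC k3 e2 e3 &&
          okC .F e3 e4 &&
          r1e e2 k3 e3 .F &&
          r1e e3 k3 e2 .F &&
          r1e e3 .F e4 .b &&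
          r1e e4 .F e3 k3 &&
          !(sF e2 k3 e3 .F) &&
          !(sF e3 k3 e2 .F) &&
          !(sF e3 .F e4 .b) &&
          !(sF e4 .F e3 k3) &&
          r1v .F e2 k3 e3 .F &&
          r1v .F e3 k3 e2 .F &&
          r1v k3 e3 .F e4 .b &&
          r1v .b e4 .F e3 k3 &&
          !(sX2 k3 e3 .F .b) &&
          r2f k3 e2 .F e1 .b e3 .F &&
          r2f k3 e3 .F e4 .b e2 .F &&
          !(sG2 e2 .F e1 .b k3 e3 .F e4 .b)) (fun e3 =>
       leaf .p .W .b e1 .F e2 k3 e3 .F e4 .b .W)))))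

/-- enumeration, start `Q` -/
def enQ : Bool :=
  allE (fun e0 =>
      okE .p .F e0) (fun e0 =>
   allE (fun e4 =>
       okE .F .b e4 &&
       okC .b e4 .W) (fun e4 =>
    allE (fun e1 =>
        okC .F e0 e1 &&
        r1e e1 .F e0 .p &&
        !(sF e1 .F e0 .p)) (fun e1 =>
     allE (fun e3 =>
         okC .F e3 e4 &&
         r1e e3 .F e4 .b &&
         !(sF e3 .F e4 .b)) (fun e3 =>
      allT (fun k2 =>
          okE .F k2 e1 &&
          r1e e0 .F e1 k2 &&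
          !(sF e0 .F e1 k2) &&
          r1v .p e0 .F e1 k2 &&
          r1v k2 e1 .F e0 .p &&
          !(sX2 k2 e1 .F .p) &&
          r2f .F e0 .p .W .b e1 k2) (fun k2 =>
       allT (fun k3 =>
           okE k3 .F e3 &&
           r1e e4 .F e3 k3 &&
           !(sF e4 .F e3 k3) &&
           r1v k3 e3 .F e4 .b &&
           r1v .b e4 .F e3 k3 &&
           !(sX2 k3 e3 .F .b)) (fun k3 =>
        allE (fun e2 =>
            okE k2 k3 e2 &&
            okC k2 e1 e2 &&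
            okC k3 e2 e3 &&
            r1e e1 k2 e2 k3 &&
            r1e e2 k2 e1 .F &&
            r1e e2 k3 e3 .F &&
            r1e e3 k3 e2 k2 &&
            !(sX1 k2 e2 k3) &&
            !(sX1 k3 e2 k2) &&
            !(sF e1 k2 e2 k3) &&
            !(sF e2 k2 e1 .F) &&
            !(sF e2 k3 e3 .F) &&
            !(sF e3 k3 e2 k2) &&
            sbf k2 .F e0 e2 k3 &&
            sbf k3 .F e4 e2 k2 &&
            r1v .F e1 k2 e2 k3 &&
            r1v k3 e2 k2 e1 .F &&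
            r1v k2 e2 k3 e3 .F &&
            r1v .F e3 k3 e2 k2 &&
            !(sX2 k2 e2 k3 .F) &&
            !(sX2 k3 e2 k2 .F) &&
            !(sS k2 e2 k3 .F) &&
            !(sS k3 e2 k2 .F) &&
            !(sX3 k2 e2 k3 e3 .F) &&
            !(sX3 k3 e2 k2 e1 .F) &&
            r2f k2 e1 .F e0 .p e2 k3 &&
            r2f k2 e2 k3 e3 .F e1 .F &&
            r2f k3 e2 k2 e1 .F e3 .F &&
            r2f k3 e3 .F e4 .b e2 k2 &&
            !(sN e2 k3 e3 .F k2 e1 .F) &&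
            !(sN e2 k2 e1 .F k3 e3 .F) &&
            !(sG2 e1 .F e0 .p k2 e2 k3 e3 .F) &&
            !(sG2 e2 k2 e1 .F k3 e3 .F e4 .b)) (fun e2 =>
         leaf .p e0 .F e1 k2 e2 k3 e3 .F e4 .b .W)))))))

/-- enumeration, start `VV` -/
def enVV : Bool :=
  allE (fun e1 =>
      okC .F .V e1 &&
      r1e e1 .F .V .F) (fun e1 =>
   allT (fun k2 =>
       okE .F k2 e1 &&
       r1e .V .F e1 k2 &&
       r1v k2 e1 .F .V .F) (fun k2 =>
    allE (fun e2 =>
        okE k2 .F e2 &&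
        okC k2 e1 e2 &&
        okC .F e2 .V &&
        r1e e1 k2 e2 .F &&
        r1e e2 k2 e1 .F &&
        r1e e2 .F .V .F &&
        r1e .V .F e2 k2 &&
        r1v .F e1 k2 e2 .F &&
        r1v .F e2 k2 e1 .F &&
        r1v k2 e2 .F .V .F &&
        r2f .F e1 k2 e2 .F .V .F &&
        r2f k2 e1 .F .V .F e2 .F &&
        r2f k2 e2 .F .V .F e1 .F &&
        r2f .F e2 k2 e1 .F .V .F) (fun e2 =>
     allE (fun e4 =>
         okC .F .V e4 &&
         r1e e4 .F .V .F &&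
         sbf .F .F e4 e2 k2) (fun e4 =>
      allT (fun k5 =>
          okE .F k5 e4 &&
          r1e .V .F e4 k5 &&
          sbf .F .F e2 e4 k5 &&
          r1v k5 e4 .F .V .F &&
          r2f .F .V .F e4 k5 e2 k2 &&
          r2f .F .V .F e2 k2 e4 k5) (fun k5 =>
       allE (fun e5 =>
           okE k5 .F e5 &&
           okC .F e5 .V &&
           okC k5 e4 e5 &&
           r1e e5 .F .V .F &&
           r1e .V .F e5 k5 &&
           r1e e4 k5 e5 .F &&
           r1e e5 k5 e4 .F &&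
           sbf .F .F e1 e5 k5 &&
           sbf .F .F e5 e1 k2 &&
           r1v k5 e5 .F .V .F &&
           r1v .F e4 k5 e5 .F &&
           r1v .F e5 k5 e4 .F &&
           r2f .F e5 k5 e4 .F .V .F &&
           r2f .F .V .F e1 k2 e5 k5 &&
           r2f .F .V .F e5 k5 e1 k2 &&
           r2f .F e4 k5 e5 .F .V .F &&
           r2f k5 e4 .F .V .F e5 .F &&
           r2f k5 e5 .F .V .F e4 .F) (fun e5 =>
        leaf .F .V .F e1 k2 e2 .F .V .F e4 k5 e5))))))

end Pool.Agent.Lib.SVY
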