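import Pool.Agent.Lib.SVY.WordD

/-!
# SVY.WordE: the enumerations of SVY.WordD are complete
-/

set_option autoImplicit false
set_option maxRecDepth 100000

namespace Pool.Agent.Lib.SVY

lemma allT_of {g k k' : Ty → Bool} (h : allT g k = true) (hk : ∀ x, k x = true → k' x = true) :
    allT g k' = true := by
  simp only [allT, Bool.and_eq_true, Bool.or_eq_true, Bool.not_eq_true'] at h ⊢
  obtain ⟨h1, h2, h3, h4, h5, h6, h7, h8, h9, h10, h11, h12, h13⟩ := h
  exact ⟨h1.imp_right (hk _), h2.imp_right (hk _), h3.imp_right (hk _), h4.imp_right (hk _),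
    h5.imp_right (hk _), h6.imp_right (hk _), h7.imp_right (hk _), h8.imp_right (hk _),
    h9.imp_right (hk _), h10.imp_right (hk _), h11.imp_right (hk _), h12.imp_right (hk _),
    h13.imp_right (hk _)⟩

lemma allE_of {g k k' : Ed → Bool} (h : allE g k = true) (hk : ∀ x, k x = true → k' x = true) :
    allE g k' = true := by
  simp only [allE, Bool.and_eq_true, Bool.or_eq_true, Bool.not_eq_true'] at h ⊢
  obtain ⟨h1, h2, h3, h4, h5, h6, h7⟩ := h
  exact ⟨h1.imp_right (hk _), h2.imp_right (hk _), h3.imp_right (hk _), h4.imp_right (hk _),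
    h5.imp_right (hk _), h6.imp_right (hk _), h7.imp_right (hk _)⟩

theorem parts :
    enVb .T .F .T = true ∧
    enVb .T .F .Z = true ∧
    enVb .T .F .S = true ∧
    enVb .T .G .T = true ∧
    enVb .T .G .Z = true ∧
    enVb .T .G .S = true ∧
    enVb .Z .F .T = true ∧
    enVb .Z .F .Z = true ∧
    enVb .Z .F .S = true ∧
    enVb .Z .G .T = true ∧
    enVb .Z .G .Z = true ∧
    enVb .Z .G .S = true ∧
    enVb .S .F .T = true ∧
    enVb .S .F .Z = true ∧
    enVb .S .F .S = true ∧
    enVb .S .G .T = true ∧
    enVb .S .G .Z = true ∧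
    enVb .S .G .S = true ∧
    enVc = true ∧ enW = true ∧ enP = true ∧ enQ = true ∧ enVV = true :=
  ⟨by decide +kernel,
    by decide +kernel,
    by decide +kernel,
    by decide +kernel,
    by decide +kernel,
    by decide +kernel,
    by decide +kernel,
    by decide +kernel,
    by decide +kernel,
    by decide +kernel,
    by decide +kernel,
    by decide +kernel,
    by decide +kernel,
    by decide +kernel,
    by decide +kernel,
    by decide +kernel,
    by decide +kernel,
    by decide +kernel,
    by decide +kernel, by decide +kernel, by decide +kernel, by decide +kernel,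
    by decide +kernel⟩

theorem hv_of {e1 : Ed} {k2 : Ty} {e5 : Ed} (h : hvV e1 k2 e5 = true) :
    enVb e1 k2 e5 = true := by
  obtain ⟨p0, p1, p2, p3, p4, p5, p6, p7, p8, p9, p10, p11, p12, p13, p14, p15, p16, p17, -⟩ := parts
  unfold hvV at h
  rw [Bool.and_eq_true, Bool.and_eq_true, Bool.or_eq_true] at h
  obtain ⟨⟨h1, h2⟩, h3⟩ := h
  have g1 : e1 = .T ∨ e1 = .Z ∨ e1 = .S := by
    revert h1
    cases e1 <;> simp [hE]
  have g2 : k2 = .F ∨ k2 = .G := by
    revert h2
    cases k2 <;> simp [Ty.isF, Ty.isG]
  have g3 : e5 = .T ∨ e5 = .Z ∨ e5 = .S := by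
    revert h3
    cases e5 <;> simp [hE]
  rcases g1 with rfl | rfl | rfl
  · rcases g2 with rfl | rfl
    · rcases g3 with rfl | rfl | rfl
      · exact p0
      · exact p1
      · exact p2
    · rcases g3 with rfl | rfl | rfl
      · exact p3
      · exact p4
      · exact p5
  · rcases g2 with rfl | rfl
    · rcases g3 with rfl | rfl | rfl
      · exact p6
      · exact p7
      · exact p8
    · rcases g3 with rfl | rfl | rfl
      · exact p9
      · exact p10
      · exact p11
  · rcases g2 with rfl | rfl
    · rcases g3 with rfl | rfl | rfl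
      · exact p12
      · exact p13
      · exact p14
    · rcases g3 with rfl | rfl | rfl
      · exact p15
      · exact p16
      · exact p17

theorem enV_true : enV = true := by
  have h : enVc = true := parts.2.2.2.2.2.2.2.2.2.2.2.2.2.2.2.2.2.2.1
  unfold enVc at h
  unfold enV
  refine allE_of h fun e1 h => allT_of h fun k2 h => allE_of h fun e5 h => ?_
  rw [Bool.or_eq_true] at h
  rcases h with h | h
  · exact hv_of h
  · exact h

theorem enW_true : enW = true := parts.2.2.2.2.2.2.2.2.2.2.2.2.2.2.2.2.2.2.2.1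

theorem enP_true : enP = true := parts.2.2.2.2.2.2.2.2.2.2.2.2.2.2.2.2.2.2.2.2.1

theorem enQ_true : enQ = true := parts.2.2.2.2.2.2.2.2.2.2.2.2.2.2.2.2.2.2.2.2.2.1

theorem enVV_true : enVV = true := parts.2.2.2.2.2.2.2.2.2.2.2.2.2.2.2.2.2.2.2.2.2.2

end Pool.Agent.Lib.SVY
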