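import Pool.Agent.Lib.SVY.WordE

/-!
# SVY.WordF: the words of 6-faces with a given start

Proof.  All theorems have the same proof: `enX_true` (file WordE) and nested applications of
`allT_spec`/`allE_spec` (file WordD) with the actual values; every guard of the enumeration is one
of the properties of `Valid` (fields `c`, `g`, `e1`, `e2`, `v1`, `v2`, `f1`, `f2`, `s1`, `s2` at a
given `j`, after the arithmetic of `ZMod 6`, by `decide`/`rfl`), or the negation of a supply test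
(`sX1`, `sX2`, `sX3`, `sF`, `sN`, `sS`, `sG2`): each of them implies a term at least 2 of `sup k e`
(`sX1`, `sX2`, `sX3` imply `sX` by cases), and `sup k e < 2`.  Write `sup k e` as the sum of the six
terms `supj` (`Fin.sum_univ_six`), i.e. `sup k e = sup6 (k 0) (e 0) ...`.
It is best to generate the proofs (the guards in the definitions `enV`, ... are literal).
`Code k e`: one of the codes in some position.
-/

set_option autoImplicit false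
set_option linter.unusedSectionVars false
set_option maxRecDepth 100000

namespace Pool.Agent.Lib.SVY

/-- a code in some position -/
def Code (k : ZMod 6 → Ty) (e : ZMod 6 → Ed) : Prop :=
  code6 (k 0) (e 0) (k 1) (e 1) (k 2) (e 2) (k 3) (e 3) (k 4) (e 4) (k 5) (e 5) = true

theorem dem_eq6 (k : ZMod 6 → Ty) (e : ZMod 6 → Ed) : dem k e =
    dem6 (k 0) (e 0) (k 1) (e 1) (k 2) (e 2) (k 3) (e 3) (k 4) (e 4) (k 5) (e 5) := by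
  unfold dem dem6
  rw [show (∑ j : ZMod 6, demj (e (j - 1)) (k (j - 1)) (e (j - 2)) (k (j - 2)) (k j) (e j)
    (k (j + 1)) (e (j + 1)) (k (j + 2))) = ∑ j : Fin 6, (fun j : ZMod 6 => demj (e (j - 1))
    (k (j - 1)) (e (j - 2)) (k (j - 2)) (k j) (e j) (k (j + 1)) (e (j + 1)) (k (j + 2))) j
    from rfl, Fin.sum_univ_six]
  simp only [Nat.add_assoc]
  rfl

theorem sup_eq6 (k : ZMod 6 → Ty) (e : ZMod 6 → Ed) : sup k e =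
    sup6 (k 0) (e 0) (k 1) (e 1) (k 2) (e 2) (k 3) (e 3) (k 4) (e 4) (k 5) (e 5) := by
  unfold sup sup6
  rw [show (∑ j : ZMod 6, (supd (e (j - 1)) (k (j - 1)) (e (j - 2)) (k (j - 2)) (k j) (e j)
      (k (j + 1)) (e (j + 1)) (k (j + 2)) +
    supd (e j) (k (j + 1)) (e (j + 1)) (k (j + 2)) (k j) (e (j - 1)) (k (j - 1)) (e (j - 2))
      (k (j - 2)) +
    supG (e (j - 1)) (k (j - 1)) (e (j - 2)) (k (j - 2)) (k j) (e j) (k (j + 1)) (e (j + 1))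
      (k (j + 2)))) = ∑ j : Fin 6, (fun j : ZMod 6 => supj (e (j - 1))
    (k (j - 1)) (e (j - 2)) (k (j - 2)) (k j) (e j) (k (j + 1)) (e (j + 1)) (k (j + 2))) j
    from rfl, Fin.sum_univ_six]
  rw [Nat.add_assoc, Nat.add_assoc, Nat.add_assoc, Nat.add_assoc]
  rfl

lemma of_leaf {k : ZMod 6 → Ty} {e : ZMod 6 → Ed}
    (h : leaf (k 0) (e 0) (k 1) (e 1) (k 2) (e 2) (k 3) (e 3) (k 4) (e 4) (k 5) (e 5) = true) :
    Code k e ∨ dem k e ≤ sup k e := by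
  unfold leaf at h
  rw [Bool.or_eq_true] at h
  rcases h with h | h
  · exact Or.inl h
  · right
    rw [dem_eq6, sup_eq6]
    exact Nat.le_of_ble_eq_true h

lemma andI {a b : Bool} (h1 : a = true) (h2 : b = true) : (a && b) = true := by
  rw [h1, h2]; rfl

lemma nt {a : Bool} (h : a = false) : (!a) = true := by
  rw [h]; rfl

lemma sX1_of {c : Ty} {y : Ed} {b : Ty} {u : Ed} {b' : Ty} (h : sX c y b u b' = false) :
    sX1 c y b = false := by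
  unfold sX at h
  unfold sX1
  revert h
  generalize c.np = A, y.isW = B, y.isV = C, b.isX = D, b.isa = E, b.isb = F, b.isp = G,
    b.isF = H, b.isN = I, (b'.np || b'.ex) = J, u.isW = M, b'.dm = N
  revert A B C D E F G H I J M N
  decide

lemma sX2_of {c : Ty} {y : Ed} {b : Ty} {u : Ed} {b' : Ty} (h : sX c y b u b' = false) :
    sX2 c y b b' = false := by
  unfold sX at h
  unfold sX2
  cases b <;> revert h <;>
    simp [Ty.isX, Ty.isa, Ty.isb, Ty.isp, Ty.isF, Ty.isN]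

lemma sX3_of {c : Ty} {y : Ed} {b : Ty} {u : Ed} {b' : Ty} (h : sX c y b u b' = false) :
    sX3 c y b u b' = false := rfl

lemma supd_lt {x : Ed} {a : Ty} {o : Ed} {a' : Ty} {c : Ty} {y : Ed} {b : Ty} {u : Ed} {b' : Ty}
    (h : supd x a o a' c y b u b' < 2) : sX c y b u b' = false ∧ sF x c y b = false ∧
      sN x a o a' c y b = false ∧ sS c y b b' = false := by
  unfold supd at h
  refine ⟨?_, ?_, ?_, ?_⟩
  · by_contra hc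
    rw [Bool.not_eq_false] at hc
    rw [if_pos hc] at h
    omega
  · by_contra hc
    rw [Bool.not_eq_false] at hc
    rw [if_pos (c := sF x c y b = true) hc] at h
    omega
  · by_contra hc
    rw [Bool.not_eq_false] at hc
    rw [if_pos (c := sN x a o a' c y b = true) hc] at h
    omega
  · by_contra hc
    rw [Bool.not_eq_false] at hc
    rw [if_pos (c := sS c y b b' = true) hc] at h
    omega

lemma supG_lt {x : Ed} {a : Ty} {o : Ed} {a' : Ty} {c : Ty} {y : Ed} {b : Ty} {u : Ed} {b' : Ty}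
    (h : supG x a o a' c y b u b' < 2) : sG2 x a o a' c y b u b' = false := by
  unfold sG2
  by_contra hc
  rw [Bool.not_eq_false] at hc
  have := Nat.le_of_ble_eq_true hc
  omega

/-- the restrictions, instantiated -/
structure V6 (k0 : Ty) (e0 : Ed) (k1 : Ty) (e1 : Ed) (k2 : Ty) (e2 : Ed) (k3 : Ty) (e3 : Ed) (k4 : Ty) (e4 : Ed) (k5 : Ty) (e5 : Ed) : Prop where
  c0 : okC k0 e5 e0 = true
  g0 : okE k0 k1 e0 = true
  ea0 : r1e e5 k0 e0 k1 = true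
  eb0 : r1e e0 k0 e5 k5 = true
  va0 : r1v k5 e5 k0 e0 k1 = true
  vb0 : r1v k1 e0 k0 e5 k5 = true
  fa0 : r2f k0 e5 k5 e4 k4 e0 k1 = true
  fb0 : r2f k0 e0 k1 e1 k2 e5 k5 = true
  sa0 : sbf k0 k5 e4 e0 k1 = true
  sb0 : sbf k0 k1 e1 e5 k5 = true
  c1 : okC k1 e0 e1 = true
  g1 : okE k1 k2 e1 = true
  ea1 : r1e e0 k1 e1 k2 = true
  eb1 : r1e e1 k1 e0 k0 = true
  va1 : r1v k0 e0 k1 e1 k2 = true
  vb1 : r1v k2 e1 k1 e0 k0 = true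
  fa1 : r2f k1 e0 k0 e5 k5 e1 k2 = true
  fb1 : r2f k1 e1 k2 e2 k3 e0 k0 = true
  sa1 : sbf k1 k0 e5 e1 k2 = true
  sb1 : sbf k1 k2 e2 e0 k0 = true
  c2 : okC k2 e1 e2 = true
  g2 : okE k2 k3 e2 = true
  ea2 : r1e e1 k2 e2 k3 = true
  eb2 : r1e e2 k2 e1 k1 = true
  va2 : r1v k1 e1 k2 e2 k3 = true
  vb2 : r1v k3 e2 k2 e1 k1 = true
  fa2 : r2f k2 e1 k1 e0 k0 e2 k3 = true
  fb2 : r2f k2 e2 k3 e3 k4 e1 k1 = true
  sa2 : sbf k2 k1 e0 e2 k3 = true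
  sb2 : sbf k2 k3 e3 e1 k1 = true
  c3 : okC k3 e2 e3 = true
  g3 : okE k3 k4 e3 = true
  ea3 : r1e e2 k3 e3 k4 = true
  eb3 : r1e e3 k3 e2 k2 = true
  va3 : r1v k2 e2 k3 e3 k4 = true
  vb3 : r1v k4 e3 k3 e2 k2 = true
  fa3 : r2f k3 e2 k2 e1 k1 e3 k4 = true
  fb3 : r2f k3 e3 k4 e4 k5 e2 k2 = true
  sa3 : sbf k3 k2 e1 e3 k4 = true
  sb3 : sbf k3 k4 e4 e2 k2 = true
  c4 : okC k4 e3 e4 = true
  g4 : okE k4 k5 e4 = true
  ea4 : r1e e3 k4 e4 k5 = true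
  eb4 : r1e e4 k4 e3 k3 = true
  va4 : r1v k3 e3 k4 e4 k5 = true
  vb4 : r1v k5 e4 k4 e3 k3 = true
  fa4 : r2f k4 e3 k3 e2 k2 e4 k5 = true
  fb4 : r2f k4 e4 k5 e5 k0 e3 k3 = true
  sa4 : sbf k4 k3 e2 e4 k5 = true
  sb4 : sbf k4 k5 e5 e3 k3 = true
  c5 : okC k5 e4 e5 = true
  g5 : okE k5 k0 e5 = true
  ea5 : r1e e4 k5 e5 k0 = true
  eb5 : r1e e5 k5 e4 k4 = true
  va5 : r1v k4 e4 k5 e5 k0 = true
  vb5 : r1v k0 e5 k5 e4 k4 = true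
  fa5 : r2f k5 e4 k4 e3 k3 e5 k0 = true
  fb5 : r2f k5 e5 k0 e0 k1 e4 k4 = true
  sa5 : sbf k5 k4 e3 e5 k0 = true
  sb5 : sbf k5 k0 e0 e4 k4 = true

/-- no supply, instantiated -/
structure S6 (k0 : Ty) (e0 : Ed) (k1 : Ty) (e1 : Ed) (k2 : Ty) (e2 : Ed) (k3 : Ty) (e3 : Ed) (k4 : Ty) (e4 : Ed) (k5 : Ty) (e5 : Ed) : Prop where
  x1p0 : sX1 k0 e0 k1 = false
  x2p0 : sX2 k0 e0 k1 k2 = false
  x3p0 : sX3 k0 e0 k1 e1 k2 = false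
  fp0 : sF e5 k0 e0 k1 = false
  np0 : sN e5 k5 e4 k4 k0 e0 k1 = false
  sp0 : sS k0 e0 k1 k2 = false
  x1m0 : sX1 k0 e5 k5 = false
  x2m0 : sX2 k0 e5 k5 k4 = false
  x3m0 : sX3 k0 e5 k5 e4 k4 = false
  fm0 : sF e0 k0 e5 k5 = false
  nm0 : sN e0 k1 e1 k2 k0 e5 k5 = false
  sm0 : sS k0 e5 k5 k4 = false
  g0 : sG2 e5 k5 e4 k4 k0 e0 k1 e1 k2 = false
  x1p1 : sX1 k1 e1 k2 = false
  x2p1 : sX2 k1 e1 k2 k3 = false
  x3p1 : sX3 k1 e1 k2 e2 k3 = false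
  fp1 : sF e0 k1 e1 k2 = false
  np1 : sN e0 k0 e5 k5 k1 e1 k2 = false
  sp1 : sS k1 e1 k2 k3 = false
  x1m1 : sX1 k1 e0 k0 = false
  x2m1 : sX2 k1 e0 k0 k5 = false
  x3m1 : sX3 k1 e0 k0 e5 k5 = false
  fm1 : sF e1 k1 e0 k0 = false
  nm1 : sN e1 k2 e2 k3 k1 e0 k0 = false
  sm1 : sS k1 e0 k0 k5 = false
  g1 : sG2 e0 k0 e5 k5 k1 e1 k2 e2 k3 = false
  x1p2 : sX1 k2 e2 k3 = false
  x2p2 : sX2 k2 e2 k3 k4 = false
  x3p2 : sX3 k2 e2 k3 e3 k4 = false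
  fp2 : sF e1 k2 e2 k3 = false
  np2 : sN e1 k1 e0 k0 k2 e2 k3 = false
  sp2 : sS k2 e2 k3 k4 = false
  x1m2 : sX1 k2 e1 k1 = false
  x2m2 : sX2 k2 e1 k1 k0 = false
  x3m2 : sX3 k2 e1 k1 e0 k0 = false
  fm2 : sF e2 k2 e1 k1 = false
  nm2 : sN e2 k3 e3 k4 k2 e1 k1 = false
  sm2 : sS k2 e1 k1 k0 = false
  g2 : sG2 e1 k1 e0 k0 k2 e2 k3 e3 k4 = false
  x1p3 : sX1 k3 e3 k4 = false
  x2p3 : sX2 k3 e3 k4 k5 = false
  x3p3 : sX3 k3 e3 k4 e4 k5 = false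
  fp3 : sF e2 k3 e3 k4 = false
  np3 : sN e2 k2 e1 k1 k3 e3 k4 = false
  sp3 : sS k3 e3 k4 k5 = false
  x1m3 : sX1 k3 e2 k2 = false
  x2m3 : sX2 k3 e2 k2 k1 = false
  x3m3 : sX3 k3 e2 k2 e1 k1 = false
  fm3 : sF e3 k3 e2 k2 = false
  nm3 : sN e3 k4 e4 k5 k3 e2 k2 = false
  sm3 : sS k3 e2 k2 k1 = false
  g3 : sG2 e2 k2 e1 k1 k3 e3 k4 e4 k5 = false
  x1p4 : sX1 k4 e4 k5 = false
  x2p4 : sX2 k4 e4 k5 k0 = false
  x3p4 : sX3 k4 e4 k5 e5 k0 = false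
  fp4 : sF e3 k4 e4 k5 = false
  np4 : sN e3 k3 e2 k2 k4 e4 k5 = false
  sp4 : sS k4 e4 k5 k0 = false
  x1m4 : sX1 k4 e3 k3 = false
  x2m4 : sX2 k4 e3 k3 k2 = false
  x3m4 : sX3 k4 e3 k3 e2 k2 = false
  fm4 : sF e4 k4 e3 k3 = false
  nm4 : sN e4 k5 e5 k0 k4 e3 k3 = false
  sm4 : sS k4 e3 k3 k2 = false
  g4 : sG2 e3 k3 e2 k2 k4 e4 k5 e5 k0 = false
  x1p5 : sX1 k5 e5 k0 = false
  x2p5 : sX2 k5 e5 k0 k1 = false
  x3p5 : sX3 k5 e5 k0 e0 k1 = false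
  fp5 : sF e4 k5 e5 k0 = false
  np5 : sN e4 k4 e3 k3 k5 e5 k0 = false
  sp5 : sS k5 e5 k0 k1 = false
  x1m5 : sX1 k5 e4 k4 = false
  x2m5 : sX2 k5 e4 k4 k3 = false
  x3m5 : sX3 k5 e4 k4 e3 k3 = false
  fm5 : sF e5 k5 e4 k4 = false
  nm5 : sN e5 k0 e0 k1 k5 e4 k4 = false
  sm5 : sS k5 e4 k4 k3 = false
  g5 : sG2 e4 k4 e3 k3 k5 e5 k0 e0 k1 = false

theorem aux_V (k2 k3 k4 k5 : Ty) (e1 e2 e3 e4 e5 : Ed)
    (hv : V6 .F .V .F e1 k2 e2 k3 e3 k4 e4 k5 e5)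
    (hs : S6 .F .V .F e1 k2 e2 k3 e3 k4 e4 k5 e5) :
    leaf .F .V .F e1 k2 e2 k3 e3 k4 e4 k5 e5 = true := by
  have h := enV_true
  have h := allE_spec h e1 (andI hv.c1 hv.eb1)
  have h := allT_spec h k2 (andI (andI (andI hv.g1 hv.ea1) hv.vb1) (nt hs.x2m2))
  have h : enVb e1 k2 e5 = true := allE_spec h e5 (andI (andI hv.c0 hv.ea0) hv.sa1)
  unfold enVb at h
  have h := allT_spec h k5 (andI (andI (andI (andI (andI (andI hv.g5 hv.eb0) hv.sb0) hv.va0) (nt hs.x2p5)) hv.fb0) hv.fa1)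
  have h := allE_spec h e2 (andI (andI hv.c2 hv.eb2) (nt hs.fm2))
  have h := allT_spec h k3 (andI (andI (andI (andI (andI (andI (andI (andI (andI (andI (andI (andI (andI hv.g2 hv.ea2) (nt hs.x1p2)) (nt hs.x1m3)) (nt hs.fp2)) hv.sa2) hv.va2) hv.vb2) (nt hs.x2m3)) (nt hs.sm3)) (nt hs.x3m3)) hv.fb1) hv.fa2) (nt hs.nm1))
  have h := allE_spec h e4 (andI (andI hv.c5 hv.ea5) (nt hs.fp5))
  have h := allT_spec h k4 (andI (andI (andI (andI (andI (andI (andI (andI (andI (andI (andI (andI (andI (andI (andI (andI (andI (andI (andI hv.g4 hv.eb5) (nt hs.x1p4)) (nt hs.x1m5)) (nt hs.fm5)) hv.sb3) hv.sa4) hv.sb5) hv.va5) hv.vb5) (nt hs.x2p2)) (nt hs.x2p4)) (nt hs.x2m5)) (nt hs.sp2)) (nt hs.sp4)) (nt hs.sm5)) (nt hs.x3p4)) hv.fa0) hv.fb5) (nt hs.np0))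
  have h := allE_spec h e3 (andI (andI (andI (andI (andI (andI (andI (andI (andI (andI (andI (andI (andI (andI (andI (andI (andI (andI (andI (andI (andI (andI (andI (andI (andI (andI (andI (andI (andI (andI (andI (andI (andI (andI (andI (andI (andI (andI (andI (andI (andI (andI hv.g3 hv.c3) hv.c4) hv.ea3) hv.eb3) hv.ea4) hv.eb4) (nt hs.x1p3)) (nt hs.x1m4)) (nt hs.fp3)) (nt hs.fm3)) (nt hs.fp4)) (nt hs.fm4)) hv.sa3) hv.sb4) hv.va3) hv.vb3) hv.va4) hv.vb4) (nt hs.x2p3)) (nt hs.x2m4)) (nt hs.sp3)) (nt hs.sm4)) (nt hs.x3p2)) (nt hs.x3p3)) (nt hs.x3m4)) (nt hs.x3m5)) hv.fb2) hv.fa3) hv.fb3) hv.fa4) hv.fb4) hv.fa5) (nt hs.nm2)) (nt hs.np3)) (nt hs.nm3)) (nt hs.np4)) (nt hs.nm4)) (nt hs.np5)) (nt hs.g2)) (nt hs.g3)) (nt hs.g4)) (nt hs.g5))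
  exact h

theorem aux_W (k3 k4 : Ty) (e1 e2 e3 e4 e5 : Ed)
    (hv : V6 .a .W .a e1 .F e2 k3 e3 k4 e4 .F e5)
    (hs : S6 .a .W .a e1 .F e2 k3 e3 k4 e4 .F e5) :
    leaf .a .W .a e1 .F e2 k3 e3 k4 e4 .F e5 = true := by
  have h := enW_true
  have h := allE_spec h e1 (andI hv.g1 hv.c1)
  have h := allE_spec h e5 (andI hv.g5 hv.c0)
  have h := allE_spec h e2 (andI hv.c2 hv.eb2)
  have h := allT_spec h k3 (andI (andI (andI (andI (andI hv.g2 hv.ea2) (nt hs.fp2)) hv.va2) hv.vb2) (nt hs.x2m3))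
  have h := allE_spec h e4 (andI hv.c5 hv.ea5)
  have h := allT_spec h k4 (andI (andI (andI (andI (andI hv.g4 hv.eb5) (nt hs.fm5)) hv.va5) hv.vb5) (nt hs.x2p4))
  have h := allE_spec h e3 (andI (andI (andI (andI (andI (andI (andI (andI (andI (andI (andI (andI (andI (andI (andI (andI (andI (andI (andI (andI (andI (andI (andI (andI (andI (andI (andI (andI (andI (andI (andI (andI (andI (andI hv.g3 hv.c3) hv.c4) hv.ea3) hv.eb3) hv.ea4) hv.eb4) (nt hs.x1p3)) (nt hs.x1m4)) (nt hs.fp3)) (nt hs.fm3)) (nt hs.fp4)) (nt hs.fm4)) hv.sb2) hv.sa3) hv.sb4) hv.sa5) hv.va3) hv.vb3) hv.va4) hv.vb4) (nt hs.x2p3)) (nt hs.x2m4)) (nt hs.sp3)) (nt hs.sm4)) (nt hs.x3p3)) (nt hs.x3m4)) hv.fa3) hv.fb3) hv.fa4) hv.fb4) (nt hs.nm3)) (nt hs.np4)) (nt hs.g3)) (nt hs.g4))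
  exact h

theorem aux_P (k3 : Ty) (e1 e2 e3 e4 : Ed)
    (hv : V6 .p .W .b e1 .F e2 k3 e3 .F e4 .b .W)
    (hs : S6 .p .W .b e1 .F e2 k3 e3 .F e4 .b .W) :
    leaf .p .W .b e1 .F e2 k3 e3 .F e4 .b .W = true := by
  have h := enP_true
  have h := allE_spec h e1 (andI hv.g1 hv.c1)
  have h := allE_spec h e4 (andI hv.g4 hv.c5)
  have h := allT_spec h k3 rfl
  have h := allE_spec h e2 (andI (andI (andI (andI (andI (andI (andI (andI hv.g2 hv.c2) hv.ea2) hv.eb2) (nt hs.fp2)) (nt hs.fm2)) hv.va2) hv.vb2) (nt hs.x2m3))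
  have h := allE_spec h e3 (andI (andI (andI (andI (andI (andI (andI (andI (andI (andI (andI (andI (andI (andI (andI (andI (andI (andI hv.g3 hv.c3) hv.c4) hv.ea3) hv.eb3) hv.ea4) hv.eb4) (nt hs.fp3)) (nt hs.fm3)) (nt hs.fp4)) (nt hs.fm4)) hv.va3) hv.vb3) hv.va4) hv.vb4) (nt hs.x2p3)) hv.fa3) hv.fb3) (nt hs.g3))
  exact h

theorem aux_Q (k2 k3 : Ty) (e0 e1 e2 e3 e4 : Ed)
    (hv : V6 .p e0 .F e1 k2 e2 k3 e3 .F e4 .b .W)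
    (hs : S6 .p e0 .F e1 k2 e2 k3 e3 .F e4 .b .W) :
    leaf .p e0 .F e1 k2 e2 k3 e3 .F e4 .b .W = true := by
  have h := enQ_true
  have h := allE_spec h e0 hv.g0
  have h := allE_spec h e4 (andI hv.g4 hv.c5)
  have h := allE_spec h e1 (andI (andI hv.c1 hv.eb1) (nt hs.fm1))
  have h := allE_spec h e3 (andI (andI hv.c4 hv.ea4) (nt hs.fp4))
  have h := allT_spec h k2 (andI (andI (andI (andI (andI (andI hv.g1 hv.ea1) (nt hs.fp1)) hv.va1) hv.vb1) (nt hs.x2m2)) hv.fa1)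
  have h := allT_spec h k3 (andI (andI (andI (andI (andI hv.g3 hv.eb4) (nt hs.fm4)) hv.va4) hv.vb4) (nt hs.x2p3))
  have h := allE_spec h e2 (andI (andI (andI (andI (andI (andI (andI (andI (andI (andI (andI (andI (andI (andI (andI (andI (andI (andI (andI (andI (andI (andI (andI (andI (andI (andI (andI (andI (andI (andI (andI (andI hv.g2 hv.c2) hv.c3) hv.ea2) hv.eb2) hv.ea3) hv.eb3) (nt hs.x1p2)) (nt hs.x1m3)) (nt hs.fp2)) (nt hs.fm2)) (nt hs.fp3)) (nt hs.fm3)) hv.sa2) hv.sb3) hv.va2) hv.vb2) hv.va3) hv.vb3) (nt hs.x2p2)) (nt hs.x2m3)) (nt hs.sp2)) (nt hs.sm3)) (nt hs.x3p2)) (nt hs.x3m3)) hv.fa2) hv.fb2) hv.fa3) hv.fb3) (nt hs.nm2)) (nt hs.np3)) (nt hs.g2)) (nt hs.g3))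
  exact h

theorem aux_VV (k2 k5 : Ty) (e1 e2 e4 e5 : Ed)
    (hv : V6 .F .V .F e1 k2 e2 .F .V .F e4 k5 e5) :
    leaf .F .V .F e1 k2 e2 .F .V .F e4 k5 e5 = true := by
  have h := enVV_true
  have h := allE_spec h e1 (andI hv.c1 hv.eb1)
  have h := allT_spec h k2 (andI (andI hv.g1 hv.ea1) hv.vb1)
  have h := allE_spec h e2 (andI (andI (andI (andI (andI (andI (andI (andI (andI (andI (andI (andI (andI hv.g2 hv.c2) hv.c3) hv.ea2) hv.eb2) hv.ea3) hv.eb3) hv.va2) hv.vb2) hv.va3) hv.fb1) hv.fa2) hv.fb2) hv.fa3)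
  have h := allE_spec h e4 (andI (andI hv.c4 hv.eb4) hv.sb3)
  have h := allT_spec h k5 (andI (andI (andI (andI (andI hv.g4 hv.ea4) hv.sa4) hv.vb4) hv.fb3) hv.fa4)
  have h := allE_spec h e5 (andI (andI (andI (andI (andI (andI (andI (andI (andI (andI (andI (andI (andI (andI (andI (andI (andI hv.g5 hv.c0) hv.c5) hv.ea0) hv.eb0) hv.ea5) hv.eb5) hv.sb0) hv.sa1) hv.va0) hv.va5) hv.vb5) hv.fa0) hv.fb0) hv.fa1) hv.fb4) hv.fa5) hv.fb5)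
  exact h

lemma S6_of {k0 : Ty} {e0 : Ed} {k1 : Ty} {e1 : Ed} {k2 : Ty} {e2 : Ed} {k3 : Ty} {e3 : Ed} {k4 : Ty} {e4 : Ed} {k5 : Ty} {e5 : Ed}
    (h : sup6 k0 e0 k1 e1 k2 e2 k3 e3 k4 e4 k5 e5 < 2) : S6 k0 e0 k1 e1 k2 e2 k3 e3 k4 e4 k5 e5 := by
  unfold sup6 supj at h
  have hp0 : supd e5 k5 e4 k4 k0 e0 k1 e1 k2 < 2 := by omega
  have hm0 : supd e0 k1 e1 k2 k0 e5 k5 e4 k4 < 2 := by omega
  have hg0 : supG e5 k5 e4 k4 k0 e0 k1 e1 k2 < 2 := by omega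
  have hp1 : supd e0 k0 e5 k5 k1 e1 k2 e2 k3 < 2 := by omega
  have hm1 : supd e1 k2 e2 k3 k1 e0 k0 e5 k5 < 2 := by omega
  have hg1 : supG e0 k0 e5 k5 k1 e1 k2 e2 k3 < 2 := by omega
  have hp2 : supd e1 k1 e0 k0 k2 e2 k3 e3 k4 < 2 := by omega
  have hm2 : supd e2 k3 e3 k4 k2 e1 k1 e0 k0 < 2 := by omega
  have hg2 : supG e1 k1 e0 k0 k2 e2 k3 e3 k4 < 2 := by omega
  have hp3 : supd e2 k2 e1 k1 k3 e3 k4 e4 k5 < 2 := by omega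
  have hm3 : supd e3 k4 e4 k5 k3 e2 k2 e1 k1 < 2 := by omega
  have hg3 : supG e2 k2 e1 k1 k3 e3 k4 e4 k5 < 2 := by omega
  have hp4 : supd e3 k3 e2 k2 k4 e4 k5 e5 k0 < 2 := by omega
  have hm4 : supd e4 k5 e5 k0 k4 e3 k3 e2 k2 < 2 := by omega
  have hg4 : supG e3 k3 e2 k2 k4 e4 k5 e5 k0 < 2 := by omega
  have hp5 : supd e4 k4 e3 k3 k5 e5 k0 e0 k1 < 2 := by omega
  have hm5 : supd e5 k0 e0 k1 k5 e4 k4 e3 k3 < 2 := by omega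
  have hg5 : supG e4 k4 e3 k3 k5 e5 k0 e0 k1 < 2 := by omega
  obtain ⟨xp0, fp0, np0, sp0⟩ := supd_lt hp0
  obtain ⟨xm0, fm0, nm0, sm0⟩ := supd_lt hm0
  obtain ⟨xp1, fp1, np1, sp1⟩ := supd_lt hp1
  obtain ⟨xm1, fm1, nm1, sm1⟩ := supd_lt hm1
  obtain ⟨xp2, fp2, np2, sp2⟩ := supd_lt hp2
  obtain ⟨xm2, fm2, nm2, sm2⟩ := supd_lt hm2
  obtain ⟨xp3, fp3, np3, sp3⟩ := supd_lt hp3
  obtain ⟨xm3, fm3, nm3, sm3⟩ := supd_lt hm3
  obtain ⟨xp4, fp4, np4, sp4⟩ := supd_lt hp4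
  obtain ⟨xm4, fm4, nm4, sm4⟩ := supd_lt hm4
  obtain ⟨xp5, fp5, np5, sp5⟩ := supd_lt hp5
  obtain ⟨xm5, fm5, nm5, sm5⟩ := supd_lt hm5
  exact {
    x1p0 := sX1_of xp0,
    x2p0 := sX2_of xp0,
    x3p0 := sX3_of xp0,
    fp0 := fp0,
    np0 := np0,
    sp0 := sp0,
    x1m0 := sX1_of xm0,
    x2m0 := sX2_of xm0,
    x3m0 := sX3_of xm0,
    fm0 := fm0,
    nm0 := nm0,
    sm0 := sm0,
    g0 := supG_lt hg0,
    x1p1 := sX1_of xp1,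
    x2p1 := sX2_of xp1,
    x3p1 := sX3_of xp1,
    fp1 := fp1,
    np1 := np1,
    sp1 := sp1,
    x1m1 := sX1_of xm1,
    x2m1 := sX2_of xm1,
    x3m1 := sX3_of xm1,
    fm1 := fm1,
    nm1 := nm1,
    sm1 := sm1,
    g1 := supG_lt hg1,
    x1p2 := sX1_of xp2,
    x2p2 := sX2_of xp2,
    x3p2 := sX3_of xp2,
    fp2 := fp2,
    np2 := np2,
    sp2 := sp2,
    x1m2 := sX1_of xm2,
    x2m2 := sX2_of xm2,
    x3m2 := sX3_of xm2,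
    fm2 := fm2,
    nm2 := nm2,
    sm2 := sm2,
    g2 := supG_lt hg2,
    x1p3 := sX1_of xp3,
    x2p3 := sX2_of xp3,
    x3p3 := sX3_of xp3,
    fp3 := fp3,
    np3 := np3,
    sp3 := sp3,
    x1m3 := sX1_of xm3,
    x2m3 := sX2_of xm3,
    x3m3 := sX3_of xm3,
    fm3 := fm3,
    nm3 := nm3,
    sm3 := sm3,
    g3 := supG_lt hg3,
    x1p4 := sX1_of xp4,
    x2p4 := sX2_of xp4,
    x3p4 := sX3_of xp4,
    fp4 := fp4,
    np4 := np4,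
    sp4 := sp4,
    x1m4 := sX1_of xm4,
    x2m4 := sX2_of xm4,
    x3m4 := sX3_of xm4,
    fm4 := fm4,
    nm4 := nm4,
    sm4 := sm4,
    g4 := supG_lt hg4,
    x1p5 := sX1_of xp5,
    x2p5 := sX2_of xp5,
    x3p5 := sX3_of xp5,
    fp5 := fp5,
    np5 := np5,
    sp5 := sp5,
    x1m5 := sX1_of xm5,
    x2m5 := sX2_of xm5,
    x3m5 := sX3_of xm5,
    fm5 := fm5,
    nm5 := nm5,
    sm5 := sm5,
    g5 := supG_lt hg5 }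

lemma V6_of {k : ZMod 6 → Ty} {e : ZMod 6 → Ed} (hv : Valid k e) :
    V6 (k 0) (e 0) (k 1) (e 1) (k 2) (e 2) (k 3) (e 3) (k 4) (e 4) (k 5) (e 5) where
  c0 := hv.c 0
  g0 := hv.g 0
  ea0 := hv.e1 0
  eb0 := hv.e2 0
  va0 := hv.v1 0
  vb0 := hv.v2 0
  fa0 := hv.f1 0
  fb0 := hv.f2 0
  sa0 := hv.s1 0
  sb0 := hv.s2 0
  c1 := hv.c 1
  g1 := hv.g 1
  ea1 := hv.e1 1
  eb1 := hv.e2 1
  va1 := hv.v1 1
  vb1 := hv.v2 1
  fa1 := hv.f1 1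
  fb1 := hv.f2 1
  sa1 := hv.s1 1
  sb1 := hv.s2 1
  c2 := hv.c 2
  g2 := hv.g 2
  ea2 := hv.e1 2
  eb2 := hv.e2 2
  va2 := hv.v1 2
  vb2 := hv.v2 2
  fa2 := hv.f1 2
  fb2 := hv.f2 2
  sa2 := hv.s1 2
  sb2 := hv.s2 2
  c3 := hv.c 3
  g3 := hv.g 3
  ea3 := hv.e1 3
  eb3 := hv.e2 3
  va3 := hv.v1 3
  vb3 := hv.v2 3
  fa3 := hv.f1 3
  fb3 := hv.f2 3
  sa3 := hv.s1 3
  sb3 := hv.s2 3
  c4 := hv.c 4
  g4 := hv.g 4
  ea4 := hv.e1 4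
  eb4 := hv.e2 4
  va4 := hv.v1 4
  vb4 := hv.v2 4
  fa4 := hv.f1 4
  fb4 := hv.f2 4
  sa4 := hv.s1 4
  sb4 := hv.s2 4
  c5 := hv.c 5
  g5 := hv.g 5
  ea5 := hv.e1 5
  eb5 := hv.e2 5
  va5 := hv.v1 5
  vb5 := hv.v2 5
  fa5 := hv.f1 5
  fb5 := hv.f2 5
  sa5 := hv.s1 5
  sb5 := hv.s2 5

theorem word_V {k : ZMod 6 → Ty} {e : ZMod 6 → Ed} (hv : Valid k e) (h0 : k 0 = .F)
    (h1 : k 1 = .F) (h2 : e 0 = .V) (hs : sup k e < 2) : Code k e ∨ dem k e ≤ sup k e := by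
  have hv6 := V6_of hv
  rw [sup_eq6] at hs
  have hs6 := S6_of hs
  apply of_leaf
  rw [h0, h1, h2] at hv6 hs6 ⊢
  exact aux_V _ _ _ _ _ _ _ _ _ hv6 hs6

theorem word_W {k : ZMod 6 → Ty} {e : ZMod 6 → Ed} (hv : Valid k e) (h0 : k 0 = .a)
    (h1 : k 1 = .a) (h2 : e 0 = .W) (h3 : k 2 = .F) (h4 : k 5 = .F) (hs : sup k e < 2) :
    Code k e ∨ dem k e ≤ sup k e := by
  have hv6 := V6_of hv
  rw [sup_eq6] at hs
  have hs6 := S6_of hs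
  apply of_leaf
  rw [h0, h1, h2, h3, h4] at hv6 hs6 ⊢
  exact aux_W _ _ _ _ _ _ _ hv6 hs6

theorem word_P {k : ZMod 6 → Ty} {e : ZMod 6 → Ed} (hv : Valid k e) (h0 : k 0 = .p)
    (h1 : e 0 = .W) (h2 : e 5 = .W) (h3 : k 1 = .b) (h4 : k 5 = .b) (h5 : k 2 = .F)
    (h6 : k 4 = .F) (hs : sup k e < 2) : Code k e ∨ dem k e ≤ sup k e := by
  have hv6 := V6_of hv
  rw [sup_eq6] at hs
  have hs6 := S6_of hs
  apply of_leaf
  rw [h0, h1, h2, h3, h4, h5, h6] at hv6 hs6 ⊢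
  exact aux_P _ _ _ _ _ hv6 hs6

theorem word_Q {k : ZMod 6 → Ty} {e : ZMod 6 → Ed} (hv : Valid k e) (h0 : k 0 = .p)
    (h1 : e 5 = .W) (h2 : k 5 = .b) (h3 : k 4 = .F) (h4 : k 1 = .F) (hs : sup k e < 2) :
    Code k e ∨ dem k e ≤ sup k e := by
  have hv6 := V6_of hv
  rw [sup_eq6] at hs
  have hs6 := S6_of hs
  apply of_leaf
  rw [h0, h1, h2, h3, h4] at hv6 hs6 ⊢
  exact aux_Q _ _ _ _ _ _ _ hv6 hs6

theorem word_VV {k : ZMod 6 → Ty} {e : ZMod 6 → Ed} (hv : Valid k e) (h0 : k 0 = .F)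
    (h1 : k 1 = .F) (h2 : e 0 = .V) (h3 : k 3 = .F) (h4 : k 4 = .F) (h5 : e 3 = .V) :
    Code k e ∨ dem k e ≤ sup k e := by
  have hv6 := V6_of hv
  apply of_leaf
  rw [h0, h1, h2, h3, h4, h5] at hv6 ⊢
  exact aux_VV _ _ _ _ _ _ hv6

end Pool.Agent.Lib.SVY
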