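import Pool.Agent.Lib.SVY.Word

/-!
# SVY.WordW: the demand of a word

Plan.  Every demand gives weight 24 to the vertices of the ring: `dV` at the edge `j, j+1`: 8 to `j`
and `j+1`, 4 to `j-1` and `j+2`; `dW` at the edge `j, j+1`: 6 to `j-1, j, j+1, j+2`; `dP` at `j`:
6 to the two vertices at distance 1 or 2 on each side: on a side with a weak edge (`y.isW`) the
vertices at distance 1 and 2, on a side with a triangle edge the vertex `j` itself and the
neighbour (`okC` of `p`: at least one side is weak; if both sides are weak the vertices are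
`j-2, j-1, j+1, j+2`, if one side is weak, say `-`, they are `j-2, j-1, j, j+1`).
Claim: every vertex gets at most 8.  Hence `12 * dem k e ≤ 8 * n`.
First restrict the types: `dV`: both ends are `F` (`okT`: `x.isV → u.ma`, and small); `dW`: both
outer vertices are `F` (`ma` and small, the edge on the other side of an `a` is not weak by `okC`);
`dP` on a weak side: the neighbour is `b`, the next edge is not weak, the next vertex is small and
`mb`, so `F`; on a triangle side: the neighbour is small, and `F` by `okT`, `okC` and `r1e`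
(`att`, `aps` exclude `N`; `p`, `a`, `b`, `c` are excluded by `okT`; `E`, `z`, `s` by `okC`).
Then the vertex `j` with type
* `F`: if it is an end of a `V`-edge with demand: nothing else (two `V`-edges: `r1e`; `a`, `b`, `p` on
  the other side: `r1v`; the vertex at distance 1 of another `V`-edge with demand: `r2f`);
  otherwise, if it is the outer vertex of a demand of the kinds `dW`, `dP`: only one of them
  (`r1v`, `r1e`: `mem`/`xt`/`att` on one side exclude `one`, `p` on the other side; for `att` with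
  `aps`, which follows from the demand), and not adjacent to a `V`-edge with demand (`r2f`: the
  next vertex after the `F` is not `one`, `p`, ...); otherwise at most 4 + 4.
* `a`, `b`: one demand only, no `V`-edge with demand next to it (`r1v`: `mem` and `t3`);
* `p`: only its own demand, and no `V`-edge with demand next to it (`r1v`, `r2f`);
* other types: at most 4 + 4.
-/

set_option autoImplicit false
set_option linter.unusedSectionVars false

namespace Pool.Agent.Lib.SVY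

namespace WordWAux

theorem okE_symm (u v : Ty) (x : Ed) : okE u v x = okE v u x := by
  unfold okE okW okT
  rw [Bool.and_comm (okW1 u v), Bool.and_comm (okT1 u v x)]

theorem dV_symm (c b : Ty) (y : Ed) : dV c y b = dV b y c := by
  unfold dV
  cases y.isV <;> cases c.sm <;> cases b.sm <;> rfl

theorem dW_symm (x : Ed) (a c : Ty) (y : Ed) (b : Ty) (u : Ed) (b' : Ty) :
    dW x a c y b u b' = dW u b' b y c x a := by
  unfold dW
  cases y.isW <;> cases c.isa <;> cases b.isa <;> cases a.sm <;> cases b'.sm <;> cases x.isZ <;>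
    cases u.isZ <;> rfl

theorem dP_symm (x : Ed) (a : Ty) (o : Ed) (a' c : Ty) (y : Ed) (b : Ty) (u : Ed) (b' : Ty) :
    dP x a o a' c y b u b' = dP y b u b' c x a o a' := by
  unfold dP
  cases c.isp <;> cases mk x a o a' <;> cases mk y b u b' <;> rfl

theorem isa_eq {t : Ty} (h : t.isa = true) : t = .a := by
  cases t <;> simp [Ty.isa] at h ⊢

theorem isp_eq {t : Ty} (h : t.isp = true) : t = .p := by
  cases t <;> simp [Ty.isp] at h ⊢

theorem isW_eq {y : Ed} (h : y.isW = true) : y = .W := by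
  cases y <;> simp [Ed.isW] at h ⊢

theorem isV_eq {y : Ed} (h : y.isV = true) : y = .V := by
  cases y <;> simp [Ed.isV] at h ⊢

/-- demands of `V`-edges -/
theorem fV {c b : Ty} {y : Ed} (h : dV c y b = true) (hg : okE c b y = true) :
    c = .F ∧ b = .F ∧ y = .V := by
  simp only [dV, Bool.and_eq_true] at h
  obtain ⟨⟨h1, h2⟩, h3⟩ := h
  have hy := isV_eq h1
  subst hy
  simp only [okE, Ed.isW, Bool.false_eq_true, if_false, okT, okT1, Bool.and_eq_true, Ed.isV,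
    Bool.not_true, Bool.false_or] at hg
  have h4 : c.ma = true := hg.1.1.1.1.2
  have h5 : b.ma = true := hg.2.1.1.1.2
  refine ⟨?_, ?_, rfl⟩
  · cases c <;> simp [Ty.ma, Ty.sm, Ty.np, Ty.ex] at h4 h2 ⊢
  · cases b <;> simp [Ty.ma, Ty.sm, Ty.np, Ty.ex] at h5 h3 ⊢

/-- the outer vertex of a demand of the kind `W` -/
theorem fW0 {a : Ty} {x : Ed} (hs : a.sm = true) (hx : x.isW = false)
    (hg : okE a .a x = true) : a = .F := by
  simp only [okE, hx, Bool.false_eq_true, if_false, okT, okT1, Bool.and_eq_true, Ty.isa,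
    Bool.not_true, Bool.false_or] at hg
  have h4 : a.ma = true := hg.2.1.1.1.1.1
  cases a <;> simp [Ty.ma, Ty.sm, Ty.np, Ty.ex] at h4 hs ⊢

theorem fC0 {t : Ty} {x : Ed} (ht : t = .a ∨ t = .b) (h : okC t x .W = true) :
    x.isW = false := by
  rcases ht with rfl | rfl
  · cases x <;> simp [okC, Ed.isW] at h ⊢
  · cases x <;> simp [okC, Ed.isW] at h ⊢

theorem okC_symm (t : Ty) (x y : Ed) : okC t x y = okC t y x := by
  cases t <;> cases x <;> cases y <;> rfl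

/-- demands of the kind `W` -/
theorem fW {x : Ed} {a c : Ty} {y : Ed} {b : Ty} {u : Ed} {b' : Ty}
    (h : dW x a c y b u b' = true) (h1 : okC c x y = true) (h2 : okC b y u = true)
    (h3 : okE a c x = true) (h4 : okE b b' u = true) :
    c = .a ∧ b = .a ∧ y = .W ∧ a = .F ∧ b' = .F ∧ x.isW = false ∧ u.isW = false := by
  simp only [dW, Bool.and_eq_true] at h
  obtain ⟨⟨⟨⟨⟨hy, hc⟩, hb⟩, ha⟩, hb'⟩, -⟩ := h
  have ey := isW_eq hy
  have ec := isa_eq hc
  have eb := isa_eq hb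
  subst ey ec eb
  have hx : x.isW = false := fC0 (Or.inl rfl) h1
  have hu : u.isW = false := fC0 (Or.inl rfl) (by rw [okC_symm]; exact h2)
  exact ⟨rfl, rfl, rfl, fW0 ha hx h3, fW0 hb' hu (by rw [okE_symm]; exact h4), hx, hu⟩

/-- a weak side of a demand of the kind `P` -/
theorem fPw {y : Ed} {b : Ty} {u : Ed} {b' : Ty} (h : mk y b u b' = true) (hy : y.isW = true)
    (h1 : okE b .p y = true) (h2 : okC b y u = true) (h3 : okE b b' u = true) :
    b = .b ∧ y = .W ∧ u.isW = false ∧ b' = .F := by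
  have ey := isW_eq hy
  subst ey
  simp only [mk, Ed.isW, if_true, Bool.and_eq_true] at h
  simp only [okE, Ed.isW, if_true, okW, okW1, Bool.and_eq_true] at h1
  have eb : b = .b := by
    have := h1.2
    cases b <;> simp [Ty.isb] at this ⊢
  subst eb
  have hu : u.isW = false := fC0 (Or.inr rfl) (by rw [okC_symm]; exact h2)
  refine ⟨rfl, rfl, hu, ?_⟩
  simp only [okE, hu, Bool.false_eq_true, if_false, okT, okT1, Bool.and_eq_true, Ty.isb,
    Bool.not_true, Bool.false_or] at h3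
  have h4 : b'.mb = true := h3.1.1.1.1.1.2
  have h5 := h.1
  cases b' <;> simp [Ty.mb, Ty.sm, Ty.np, Ty.ex] at h4 h5 ⊢

/-- a triangle side of a demand of the kind `P` -/
theorem fPt {y : Ed} {b : Ty} {u : Ed} {b' : Ty} (h : mk y b u b' = true) (hy : y.isW = false)
    (h1 : okE b .p y = true) (h2 : okC b y u = true) (h3 : r1e u b y .p = true) :
    b = .F ∧ y = .S := by
  simp only [mk, hy, Bool.false_eq_true, if_false, Bool.and_eq_true] at h
  obtain ⟨hb, hs⟩ := h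
  simp only [okE, hy, Bool.false_eq_true, if_false, okT, okT1, Bool.and_eq_true, Ty.isp,
    Ty.t3, Ty.dm, Ty.ma, Ty.mb] at h1
  have ey : y = .S := by
    cases y <;> simp [Ed.sl, Ed.isV, Ed.isQ, Ed.isC] at hs h1 ⊢
  subst ey
  refine ⟨?_, rfl⟩
  cases b <;>
    simp [Ty.sm, Ty.np, Ty.ex, Ty.isp, Ty.t3, Ty.dm, okC, Ed.isW, r1e, Ty.isN, att, aps, Ed.isC,
      Ed.sl] at hb h1 h2 h3 ⊢

/-- the weight of a vertex `c` from one side -/
def rc (x : Ed) (a c : Ty) (y : Ed) (b : Ty) (u : Ed) (b' : Ty) (v : Ed) (b'' : Ty) (t : Ed)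
    (b''' : Ty) : ℕ :=
  (if dV c y b = true then 8 else 0) + (if dV b u b' = true then 4 else 0) +
  (if dW x a c y b u b' = true then 6 else 0) + (if dW y c b u b' v b'' = true then 6 else 0) +
  (if dP y c x a b u b' v b'' = true then 6 else 0) +
  (if dP u b y c b' v b'' t b''' = true ∧ u.isW = true then 6 else 0)

/-- the weight of a vertex from its own demand -/
def oc (x : Ed) (a : Ty) (o : Ed) (a' c : Ty) (y : Ed) (b : Ty) (u : Ed) (b' : Ty) : ℕ :=
  if dP x a o a' c y b u b' = true then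
    (if y.isW = true then 0 else 6) + (if x.isW = true then 0 else 6) else 0

/-- the possible weights from one side -/
def Cls (c : Ty) (y : Ed) (b : Ty) (u : Ed) (b' : Ty) (r : ℕ) : Prop :=
  r = 0 ∨ (r = 8 ∧ c = .F ∧ b = .F ∧ y = .V) ∨ (r = 4 ∧ b = .F ∧ b' = .F ∧ u = .V) ∨
  (r = 6 ∧ ((c = .a ∧ b = .a ∧ y = .W) ∨ (c = .F ∧ b = .a ∧ y.isW = false) ∨
    (c = .b ∧ b = .p ∧ y = .W) ∨ (c = .F ∧ b = .p ∧ y = .S) ∨
    (c = .F ∧ b = .b ∧ y.isW = false)))

theorem cls {x : Ed} {a c : Ty} {y : Ed} {b : Ty} {u : Ed} {b' : Ty} {v : Ed} {b'' : Ty} {t : Ed}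
    {b''' : Ty} (c0 : okC c x y = true) (c1 : okC b y u = true) (c2 : okC b' u v = true)
    (g0 : okE a c x = true) (g1 : okE c b y = true) (g2 : okE b b' u = true)
    (g3 : okE b' b'' v = true) (e0 : r1e x c y b = true) (e1 : r1e y b u b' = true) :
    Cls c y b u b' (rc x a c y b u b' v b'' t b''') := by
  have f1 : dV c y b = true → c = .F ∧ b = .F ∧ y = .V := fun h => fV h g1
  have f2 : dV b u b' = true → b = .F ∧ b' = .F ∧ u = .V := fun h => fV h g2
  have f3 : dW x a c y b u b' = true → c = .a ∧ b = .a ∧ y = .W := by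
    intro h
    have := fW h c0 c1 g0 g2
    exact ⟨this.1, this.2.1, this.2.2.1⟩
  have f4 : dW y c b u b' v b'' = true → c = .F ∧ b = .a ∧ y.isW = false := by
    intro h
    have := fW h c1 c2 g1 g3
    exact ⟨this.2.2.2.1, this.1, this.2.2.2.2.2.1⟩
  have f5 : dP y c x a b u b' v b'' = true → b = .p ∧
      ((c = .b ∧ y = .W) ∨ (c = .F ∧ y = .S)) := by
    intro h
    simp only [dP, Bool.and_eq_true] at h
    obtain ⟨⟨hb, hm⟩, -⟩ := h
    have eb := isp_eq hb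
    subst eb
    refine ⟨rfl, ?_⟩
    cases hy : y.isW with
    | true =>
      have := fPw hm hy g1 (by rw [okC_symm]; exact c0) (by rw [okE_symm]; exact g0)
      exact Or.inl ⟨this.1, this.2.1⟩
    | false =>
      have := fPt hm hy g1 (by rw [okC_symm]; exact c0) e0
      exact Or.inr ⟨this.1, this.2⟩
  have f6 : (dP u b y c b' v b'' t b''' = true ∧ u.isW = true) →
      c = .F ∧ b = .b ∧ y.isW = false := by
    rintro ⟨h, hu⟩
    simp only [dP, Bool.and_eq_true] at h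
    obtain ⟨⟨hb, hm⟩, -⟩ := h
    have eb := isp_eq hb
    subst eb
    have := fPw hm hu g2 (by rw [okC_symm]; exact c1) (by rw [okE_symm]; exact g1)
    exact ⟨this.2.2.2, this.1, this.2.2.1⟩
  unfold rc Cls
  by_cases h1 : dV c y b = true
  · obtain ⟨rfl, rfl, rfl⟩ := f1 h1
    have n2 : ¬ dV .F u b' = true := by
      intro h
      obtain ⟨-, -, rfl⟩ := f2 h
      simp [r1e, Ty.isF, mem, Ed.isV] at e1
    have n3 : ¬ dW x a .F .V .F u b' = true := fun h => by simpa using f3 h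
    have n4 : ¬ dW .V .F .F u b' v b'' = true := fun h => by simpa using f4 h
    have n5 : ¬ dP .V .F x a .F u b' v b'' = true := fun h => by simpa using f5 h
    have n6 : ¬ (dP u .F .V .F b' v b'' t b''' = true ∧ u.isW = true) :=
      fun h => by simpa using f6 h
    right
    left
    rw [if_pos h1, if_neg n2, if_neg n3, if_neg n4, if_neg n5, if_neg n6]
    exact ⟨rfl, rfl, rfl, rfl⟩
  rw [if_neg h1]
  by_cases h2 : dV b u b' = true
  · obtain ⟨rfl, rfl, rfl⟩ := f2 h2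
    have n3 : ¬ dW x a c y .F .V .F = true := fun h => by simpa using f3 h
    have n4 : ¬ dW y c .F .V .F v b'' = true := fun h => by simpa using f4 h
    have n5 : ¬ dP y c x a .F .V .F v b'' = true := fun h => by simpa using f5 h
    have n6 : ¬ (dP .V .F y c .F v b'' t b''' = true ∧ Ed.V.isW = true) :=
      fun h => by simpa using f6 h
    right
    right
    left
    rw [if_pos h2, if_neg n3, if_neg n4, if_neg n5, if_neg n6]
    exact ⟨rfl, rfl, rfl, rfl⟩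
  rw [if_neg h2]
  by_cases h3 : dW x a c y b u b' = true
  · obtain ⟨rfl, rfl, rfl⟩ := f3 h3
    have n4 : ¬ dW .W .a .a u b' v b'' = true := fun h => by simpa using f4 h
    have n5 : ¬ dP .W .a x a .a u b' v b'' = true := fun h => by simpa using f5 h
    have n6 : ¬ (dP u .a .W .a b' v b'' t b''' = true ∧ u.isW = true) :=
      fun h => by simpa using f6 h
    right
    right
    right
    rw [if_pos h3, if_neg n4, if_neg n5, if_neg n6]
    exact ⟨rfl, Or.inl ⟨rfl, rfl, rfl⟩⟩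
  rw [if_neg h3]
  by_cases h4 : dW y c b u b' v b'' = true
  · obtain ⟨rfl, rfl, hy⟩ := f4 h4
    have n5 : ¬ dP y .F x a .a u b' v b'' = true := fun h => by simpa using f5 h
    have n6 : ¬ (dP u .a y .F b' v b'' t b''' = true ∧ u.isW = true) :=
      fun h => by simpa using f6 h
    right
    right
    right
    rw [if_pos h4, if_neg n5, if_neg n6]
    exact ⟨rfl, Or.inr (Or.inl ⟨rfl, rfl, hy⟩)⟩
  rw [if_neg h4]
  by_cases h5 : dP y c x a b u b' v b'' = true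
  · obtain ⟨rfl, h⟩ := f5 h5
    have n6 : ¬ (dP u .p y c b' v b'' t b''' = true ∧ u.isW = true) :=
      fun h => by simpa using f6 h
    right
    right
    right
    rw [if_pos h5, if_neg n6]
    rcases h with ⟨rfl, rfl⟩ | ⟨rfl, rfl⟩
    · exact ⟨rfl, Or.inr (Or.inr (Or.inl ⟨rfl, rfl, rfl⟩))⟩
    · exact ⟨rfl, Or.inr (Or.inr (Or.inr (Or.inl ⟨rfl, rfl, rfl⟩)))⟩
  rw [if_neg h5]
  by_cases h6 : dP u b y c b' v b'' t b''' = true ∧ u.isW = true
  · obtain ⟨rfl, rfl, hy⟩ := f6 h6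
    right
    right
    right
    rw [if_pos h6]
    exact ⟨rfl, Or.inr (Or.inr (Or.inr (Or.inr ⟨rfl, rfl, hy⟩)))⟩
  rw [if_neg h6]
  exact Or.inl rfl

/-- at most 8, and 8 only if there is 8 from one side or 4 from both sides -/
theorem comb {x : Ed} {a : Ty} {o : Ed} {a' c : Ty} {y : Ed} {b : Ty} {u : Ed} {b' : Ty} {r l : ℕ}
    (hr : Cls c y b u b' r) (hl : Cls c x a o a' l)
    (hC : okC c x y = true) (he1 : r1e x c y b = true)
    (hv1 : r1v a x c y b = true) (hv2 : r1v b y c x a = true)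
    (hb : r1v c y b u b' = true) (ha : r1v c x a o a' = true)
    (hf1 : r2f b y c x a u b' = true) (hf2 : r2f a x c y b o a' = true) :
    r + l + oc x a o a' c y b u b' ≤ 8 ∧
      (r + l + oc x a o a' c y b u b' = 8 → (r = 4 ∧ l = 4) ∨ (r = 8 ∧ l = 0) ∨
        (r = 0 ∧ l = 8)) := by
  have ho : c ≠ .p → oc x a o a' c y b u b' = 0 := by
    intro h
    unfold oc
    rw [if_neg]
    intro h'
    simp only [dP, Bool.and_eq_true] at h'
    exact h (isp_eq h'.1.1)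
  by_cases hp : c = .p
  · subst hp
    have hr0 : r = 0 := by
      rcases hr with h | ⟨-, h, -, -⟩ | ⟨-, rfl, rfl, rfl⟩ |
        ⟨-, ⟨h, -, -⟩ | ⟨h, -, -⟩ | ⟨h, -, -⟩ | ⟨h, -, -⟩ | ⟨h, -, -⟩⟩
      · exact h
      · cases h
      · simp [r1v, Ty.isF, mem, Ed.isV, Ty.isp] at hb
      all_goals cases h
    have hl0 : l = 0 := by
      rcases hl with h | ⟨-, h, -, -⟩ | ⟨-, rfl, rfl, rfl⟩ |
        ⟨-, ⟨h, -, -⟩ | ⟨h, -, -⟩ | ⟨h, -, -⟩ | ⟨h, -, -⟩ | ⟨h, -, -⟩⟩
      · exact h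
      · cases h
      · simp [r1v, Ty.isF, mem, Ed.isV, Ty.isp] at ha
      all_goals cases h
    subst hr0 hl0
    have h6 : oc x a o a' .p y b u b' ≤ 6 := by
      unfold oc
      simp only [okC, Bool.or_eq_true] at hC
      split_ifs with h1 h2 h3 h4 <;> simp_all
    constructor
    · omega
    · intro h
      omega
  · rw [ho hp]
    rcases hr with rfl | ⟨rfl, rfl, rfl, rfl⟩ | ⟨rfl, rfl, rfl, rfl⟩ |
      ⟨rfl, ⟨rfl, rfl, rfl⟩ | ⟨rfl, rfl, hy⟩ | ⟨rfl, rfl, rfl⟩ | ⟨rfl, rfl, rfl⟩ |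
        ⟨rfl, rfl, hy⟩⟩
    · -- r = 0
      rcases hl with rfl | ⟨rfl, -⟩ | ⟨rfl, -⟩ | ⟨rfl, -⟩
      · exact ⟨by omega, fun h => by omega⟩
      · exact ⟨by omega, fun _ => Or.inr (Or.inr ⟨rfl, rfl⟩)⟩
      · exact ⟨by omega, fun h => by omega⟩
      · exact ⟨by omega, fun h => by omega⟩
    · -- r = 8
      rcases hl with rfl | ⟨rfl, -, rfl, rfl⟩ | ⟨rfl, rfl, rfl, rfl⟩ |
        ⟨rfl, ⟨h, -, -⟩ | ⟨-, rfl, hx⟩ | ⟨h, -, -⟩ | ⟨-, rfl, rfl⟩ | ⟨-, rfl, hx⟩⟩
      · exact ⟨by omega, fun _ => Or.inr (Or.inl ⟨rfl, rfl⟩)⟩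
      · simp [r1e, Ty.isF, mem, Ed.isV] at he1
      · simp [r2f, Ty.isF, Ed.isV, r2] at hf2
      · cases h
      · simp [r1v, Ty.isF, mem, Ed.isV, Ty.t3, Ty.dm] at hv1
      · cases h
      · simp [r1v, Ty.isF, mem, Ed.isV, Ty.isp] at hv1
      · simp [r1v, Ty.isF, mem, Ed.isV, Ty.t3, Ty.dm] at hv1
    · -- r = 4
      rcases hl with rfl | ⟨rfl, rfl, rfl, rfl⟩ | ⟨rfl, rfl, rfl, rfl⟩ |
        ⟨rfl, ⟨rfl, -, -⟩ | ⟨rfl, rfl, hx⟩ | ⟨rfl, -, -⟩ | ⟨rfl, rfl, rfl⟩ |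
          ⟨rfl, rfl, hx⟩⟩
      · exact ⟨by omega, fun h => by omega⟩
      · simp [r2f, Ty.isF, Ed.isV, r2] at hf1
      · exact ⟨by omega, fun _ => Or.inl ⟨rfl, rfl⟩⟩
      · simp [r1v, Ty.isF, mem, Ed.isV, Ty.t3, Ty.dm] at hb
      · simp [r2f, Ty.isF, Ed.isV, r2, Ty.one] at hf1
      · simp [r1v, Ty.isF, mem, Ed.isV, Ty.t3, Ty.dm] at hb
      · simp [r2f, Ty.isF, Ed.isV, r2, Ty.isp] at hf1
      · simp [r2f, Ty.isF, Ed.isV, r2, Ty.one] at hf1
    · -- `a W a`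
      rcases hl with rfl | ⟨-, h, -⟩ | ⟨rfl, rfl, rfl, rfl⟩ |
        ⟨rfl, ⟨-, rfl, rfl⟩ | ⟨h, -⟩ | ⟨h, -⟩ | ⟨h, -⟩ | ⟨h, -⟩⟩
      · exact ⟨by omega, fun h => by omega⟩
      · cases h
      · simp [r1v, Ty.isF, mem, Ed.isV, Ty.t3, Ty.dm] at ha
      · simp [okC, Ed.isW] at hC
      all_goals cases h
    · -- `F - a`
      rcases hl with rfl | ⟨rfl, -, rfl, rfl⟩ | ⟨rfl, rfl, rfl, rfl⟩ |
        ⟨rfl, ⟨h, -, -⟩ | ⟨-, rfl, hx⟩ | ⟨h, -, -⟩ | ⟨-, rfl, rfl⟩ | ⟨-, rfl, hx⟩⟩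
      · exact ⟨by omega, fun h => by omega⟩
      · simp [r1v, Ty.isF, mem, Ed.isV, Ty.t3, Ty.dm] at hv2
      · simp [r2f, Ty.isF, Ed.isV, r2, Ty.one] at hf2
      · cases h
      · simp [r1v, Ty.isF, mem, hy, Ty.isa, Ty.t3, Ty.dm] at hv1
      · cases h
      · simp [r1v, Ty.isF, mem, hy, Ty.isa, Ty.isp] at hv1
      · simp [r1v, Ty.isF, mem, hy, Ty.isa, Ty.t3, Ty.dm] at hv1
    · -- `b W p`
      rcases hl with rfl | ⟨-, h, -⟩ | ⟨rfl, rfl, rfl, rfl⟩ |
        ⟨rfl, ⟨h, -⟩ | ⟨h, -⟩ | ⟨-, rfl, rfl⟩ | ⟨h, -⟩ | ⟨h, -⟩⟩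
      · exact ⟨by omega, fun h => by omega⟩
      · cases h
      · simp [r1v, Ty.isF, mem, Ed.isV, Ty.t3, Ty.dm] at ha
      · cases h
      · cases h
      · simp [okC, Ed.isW] at hC
      all_goals cases h
    · -- `F S p`
      rcases hl with rfl | ⟨rfl, -, rfl, rfl⟩ | ⟨rfl, rfl, rfl, rfl⟩ |
        ⟨rfl, ⟨h, -, -⟩ | ⟨-, rfl, hx⟩ | ⟨h, -, -⟩ | ⟨-, rfl, rfl⟩ | ⟨-, rfl, hx⟩⟩
      · exact ⟨by omega, fun h => by omega⟩
      · simp [r1v, Ty.isF, mem, Ed.isV, Ty.isp] at hv2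
      · simp [r2f, Ty.isF, Ed.isV, r2, Ty.isp] at hf2
      · cases h
      · simp [r1v, Ty.isF, mem, hx, Ty.isa, Ty.isp] at hv2
      · cases h
      · simp [r1v, Ty.isF, att, aps, Ed.isC, Ed.isW, Ed.sl, Ty.isp, Ty.one] at hv1
      · simp [r1v, Ty.isF, att, aps, Ed.isC, Ed.isW, Ed.sl, Ty.isp, Ty.one] at hv1
    · -- `F - b`
      rcases hl with rfl | ⟨rfl, -, rfl, rfl⟩ | ⟨rfl, rfl, rfl, rfl⟩ |
        ⟨rfl, ⟨h, -, -⟩ | ⟨-, rfl, hx⟩ | ⟨h, -, -⟩ | ⟨-, rfl, rfl⟩ | ⟨-, rfl, hx⟩⟩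
      · exact ⟨by omega, fun h => by omega⟩
      · simp [r1v, Ty.isF, mem, Ed.isV, Ty.t3, Ty.dm] at hv2
      · simp [r2f, Ty.isF, Ed.isV, r2, Ty.one] at hf2
      · cases h
      · simp [r1v, Ty.isF, mem, hx, Ty.isa, Ty.t3, Ty.dm] at hv2
      · cases h
      · simp [r1v, Ty.isF, att, aps, Ed.isC, Ed.isW, Ed.sl, Ty.isp, Ty.one] at hv2
      · simp [r1v, Ty.isF, xt, hy, Ty.isb, Ty.t3, Ty.dm] at hv1

variable {n : ℕ}

/-- demand of the edge `j, j+1` -/
def tV (k : ZMod n → Ty) (e : ZMod n → Ed) (j : ZMod n) : ℕ :=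
  if dV (k j) (e j) (k (j + 1)) = true then 1 else 0

def tW (k : ZMod n → Ty) (e : ZMod n → Ed) (j : ZMod n) : ℕ :=
  if dW (e (j - 1)) (k (j - 1)) (k j) (e j) (k (j + 1)) (e (j + 1)) (k (j + 2)) = true then 1
    else 0

def tP (k : ZMod n → Ty) (e : ZMod n → Ed) (j : ZMod n) : ℕ :=
  if dP (e (j - 1)) (k (j - 1)) (e (j - 2)) (k (j - 2)) (k j) (e j) (k (j + 1)) (e (j + 1))
    (k (j + 2)) = true then 1 else 0

def tPl (k : ZMod n → Ty) (e : ZMod n → Ed) (j : ZMod n) : ℕ :=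
  if dP (e (j - 1)) (k (j - 1)) (e (j - 2)) (k (j - 2)) (k j) (e j) (k (j + 1)) (e (j + 1))
    (k (j + 2)) = true ∧ (e (j - 1)).isW = true then 1 else 0

def tPr (k : ZMod n → Ty) (e : ZMod n → Ed) (j : ZMod n) : ℕ :=
  if dP (e (j - 1)) (k (j - 1)) (e (j - 2)) (k (j - 2)) (k j) (e j) (k (j + 1)) (e (j + 1))
    (k (j + 2)) = true ∧ (e j).isW = true then 1 else 0

/-- weight from the right side -/
def wr (k : ZMod n → Ty) (e : ZMod n → Ed) (j : ZMod n) : ℕ :=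
  rc (e (j - 1)) (k (j - 1)) (k j) (e j) (k (j + 1)) (e (j + 1)) (k (j + 2)) (e (j + 2))
    (k (j + 3)) (e (j + 3)) (k (j + 4))

/-- weight from the left side -/
def wl (k : ZMod n → Ty) (e : ZMod n → Ed) (j : ZMod n) : ℕ :=
  rc (e j) (k (j + 1)) (k j) (e (j - 1)) (k (j - 1)) (e (j - 2)) (k (j - 2)) (e (j - 3))
    (k (j - 3)) (e (j - 4)) (k (j - 4))

def wo (k : ZMod n → Ty) (e : ZMod n → Ed) (j : ZMod n) : ℕ :=
  oc (e (j - 1)) (k (j - 1)) (e (j - 2)) (k (j - 2)) (k j) (e j) (k (j + 1)) (e (j + 1))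
    (k (j + 2))

theorem ite_mul6 (p : Prop) [Decidable p] (m : ℕ) :
    (if p then m else 0) = m * (if p then 1 else 0) := by
  split_ifs <;> simp

theorem wr_eq (k : ZMod n → Ty) (e : ZMod n → Ed) (j : ZMod n) : wr k e j =
    8 * tV k e j + 4 * tV k e (j + 1) + 6 * tW k e j + 6 * tW k e (j + 1) +
      6 * tP k e (j + 1) + 6 * tPl k e (j + 2) := by
  have a1 : j + 1 + 1 = j + 2 := by ring
  have a2 : j + 1 - 1 = j := by ring
  have a3 : j + 1 + 2 = j + 3 := by ring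
  have a4 : j + 1 - 2 = j - 1 := by ring
  have a5 : j + 2 - 1 = j + 1 := by ring
  have a6 : j + 2 - 2 = j := by ring
  have a7 : j + 2 + 1 = j + 3 := by ring
  have a8 : j + 2 + 2 = j + 4 := by ring
  simp only [wr, rc, tV, tW, tP, tPl, a1, a2, a3, a4, a5, a6, a7, a8]
  rw [ite_mul6 _ 8, ite_mul6 _ 4, ite_mul6 _ 6, ite_mul6 _ 6, ite_mul6 _ 6, ite_mul6 _ 6]

theorem wl_eq (k : ZMod n → Ty) (e : ZMod n → Ed) (j : ZMod n) : wl k e j =
    8 * tV k e (j - 1) + 4 * tV k e (j - 2) + 6 * tW k e (j - 1) + 6 * tW k e (j - 2) +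
      6 * tP k e (j - 1) + 6 * tPr k e (j - 2) := by
  have a1 : j - 1 + 1 = j := by ring
  have a2 : j - 2 + 1 = j - 1 := by ring
  have a3 : j - 1 - 1 = j - 2 := by ring
  have a4 : j - 1 + 2 = j + 1 := by ring
  have a5 : j - 2 - 1 = j - 3 := by ring
  have a6 : j - 2 + 2 = j := by ring
  have a7 : j - 1 - 2 = j - 3 := by ring
  have a8 : j - 2 - 2 = j - 4 := by ring
  simp only [wl, rc, tV, tW, tP, tPr, a1, a2, a3, a4, a5, a6, a7, a8]
  rw [dV_symm (k j), dV_symm (k (j - 1)) (k (j - 2)), dW_symm (e j),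
    dW_symm (e (j - 1)) (k j), dP_symm (e (j - 1)) (k j), dP_symm (e (j - 2)) (k (j - 1))]
  rw [ite_mul6 _ 8, ite_mul6 _ 4, ite_mul6 _ 6, ite_mul6 _ 6, ite_mul6 _ 6, ite_mul6 _ 6]

theorem wo_eq (k : ZMod n → Ty) (e : ZMod n → Ed) (j : ZMod n) :
    wo k e j + 6 * tPl k e j + 6 * tPr k e j = 12 * tP k e j := by
  simp only [wo, oc, tP, tPl, tPr]
  split_ifs <;> simp_all

theorem sum_shift [NeZero n] (f : ZMod n → ℕ) (c : ZMod n) : ∑ j, f (j + c) = ∑ j, f j :=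
  Equiv.sum_comp (Equiv.addRight c) f

theorem sum_shift' [NeZero n] (f : ZMod n → ℕ) (c : ZMod n) : ∑ j, f (j - c) = ∑ j, f j :=
  Equiv.sum_comp (Equiv.subRight c) f

theorem dem_eq [NeZero n] (k : ZMod n → Ty) (e : ZMod n → Ed) :
    dem k e = 2 * (∑ j, tV k e j + ∑ j, tW k e j + ∑ j, tP k e j) := by
  rw [← Finset.sum_add_distrib, ← Finset.sum_add_distrib, Finset.mul_sum]
  unfold dem
  refine Finset.sum_congr rfl fun j _ => ?_
  unfold demj tV tW tP
  rw [ite_mul6 _ 2, ite_mul6 _ 2, ite_mul6 _ 2]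
  ring

theorem sum_eq [NeZero n] (k : ZMod n → Ty) (e : ZMod n → Ed) :
    ∑ j, (wr k e j + wl k e j + wo k e j) = 12 * dem k e := by
  have h1 : ∑ j, (wr k e j + wl k e j + wo k e j) =
      ∑ j, wr k e j + ∑ j, wl k e j + ∑ j, wo k e j := by
    rw [Finset.sum_add_distrib, Finset.sum_add_distrib]
  have h2 : ∑ j, wr k e j = 12 * ∑ j, tV k e j + 12 * ∑ j, tW k e j + 6 * ∑ j, tP k e j +
      6 * ∑ j, tPl k e j := by
    simp only [wr_eq, Finset.sum_add_distrib, ← Finset.mul_sum]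
    rw [sum_shift (tV k e), sum_shift (tW k e), sum_shift (tP k e), sum_shift (tPl k e)]
    ring
  have h3 : ∑ j, wl k e j = 12 * ∑ j, tV k e j + 12 * ∑ j, tW k e j + 6 * ∑ j, tP k e j +
      6 * ∑ j, tPr k e j := by
    simp only [wl_eq, Finset.sum_add_distrib, ← Finset.mul_sum]
    rw [sum_shift' (tV k e), sum_shift' (tV k e), sum_shift' (tW k e), sum_shift' (tW k e),
      sum_shift' (tP k e), sum_shift' (tPr k e)]
    ring
  have h4 : ∑ j, wo k e j + 6 * ∑ j, tPl k e j + 6 * ∑ j, tPr k e j = 12 * ∑ j, tP k e j := by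
    rw [Finset.mul_sum, Finset.mul_sum, Finset.mul_sum, ← Finset.sum_add_distrib,
      ← Finset.sum_add_distrib]
    exact Finset.sum_congr rfl fun j _ => wo_eq k e j
  have h5 := dem_eq k e
  rw [h1, h2, h3]
  omega

theorem cls_r {k : ZMod n → Ty} {e : ZMod n → Ed} (hv : Valid k e) (j : ZMod n) :
    Cls (k j) (e j) (k (j + 1)) (e (j + 1)) (k (j + 2)) (wr k e j) := by
  have a1 : j + 1 + 1 = j + 2 := by ring
  have a2 : j + 1 - 1 = j := by ring
  have a5 : j + 2 - 1 = j + 1 := by ring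
  have a7 : j + 2 + 1 = j + 3 := by ring
  have a8 : j - 1 + 1 = j := by ring
  have c1 := hv.c (j + 1)
  have c2 := hv.c (j + 2)
  have g0 := hv.g (j - 1)
  have g2 := hv.g (j + 1)
  have g3 := hv.g (j + 2)
  have e1 := hv.e1 (j + 1)
  simp only [a1, a2, a5, a7, a8] at c1 c2 g0 g2 g3 e1
  exact cls (hv.c j) c1 c2 g0 (hv.g j) g2 g3 (hv.e1 j) e1

theorem cls_l {k : ZMod n → Ty} {e : ZMod n → Ed} (hv : Valid k e) (j : ZMod n) :
    Cls (k j) (e (j - 1)) (k (j - 1)) (e (j - 2)) (k (j - 2)) (wl k e j) := by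
  have a1 : j - 1 + 1 = j := by ring
  have a2 : j - 1 - 1 = j - 2 := by ring
  have a3 : j - 2 + 1 = j - 1 := by ring
  have a4 : j - 2 - 1 = j - 3 := by ring
  have a5 : j - 3 + 1 = j - 2 := by ring
  have c0 := hv.c j
  have c1 := hv.c (j - 1)
  have c2 := hv.c (j - 2)
  have g0 := hv.g j
  have g1 := hv.g (j - 1)
  have g2 := hv.g (j - 2)
  have g3 := hv.g (j - 3)
  have e1 := hv.e2 (j - 1)
  rw [okC_symm] at c0 c1 c2
  rw [okE_symm] at g0 g1 g2 g3
  simp only [a1, a2, a3, a4, a5] at c1 c2 g0 g1 g2 g3 e1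
  exact cls c0 c1 c2 g0 g1 g2 g3 (hv.e2 j) e1

theorem wt {k : ZMod n → Ty} {e : ZMod n → Ed} (hv : Valid k e) (j : ZMod n) :
    wr k e j + wl k e j + wo k e j ≤ 8 ∧ (wr k e j + wl k e j + wo k e j = 8 →
      (wr k e j = 4 ∧ wl k e j = 4) ∨ (wr k e j = 8 ∧ wl k e j = 0) ∨
        (wr k e j = 0 ∧ wl k e j = 8)) := by
  have a1 : j + 1 + 1 = j + 2 := by ring
  have a2 : j + 1 - 1 = j := by ring
  have a3 : j - 1 - 1 = j - 2 := by ring
  have a4 : j - 1 + 1 = j := by ring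
  have a5 : j + 1 - 2 = j - 1 := by ring
  have a6 : j - 1 + 2 = j + 1 := by ring
  have hb := hv.v1 (j + 1)
  have ha := hv.v2 (j - 1)
  have f1 := hv.f1 (j + 1)
  have f2 := hv.f2 (j - 1)
  simp only [a1, a2, a3, a4, a5, a6] at hb ha f1 f2
  exact comb (cls_r hv j) (cls_l hv j) (hv.c j) (hv.e1 j) (hv.v1 j) (hv.v2 j) hb ha f1 f2

end WordWAux

open WordWAux in
theorem dem_le {n : ℕ} [NeZero n] (hn : 6 ≤ n) {k : ZMod n → Ty} {e : ZMod n → Ed}
    (hv : Valid k e) : 3 * dem k e ≤ 2 * n := by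
  have h := sum_eq k e
  have h1 : ∑ j, (wr k e j + wl k e j + wo k e j) ≤ ∑ _j : ZMod n, 8 :=
    Finset.sum_le_sum fun j _ => (wt hv j).1
  rw [Finset.sum_const, Finset.card_univ, ZMod.card, smul_eq_mul] at h1
  omega

open WordWAux in
/-- more than one demand on a 6-face: two opposite `V`-edges -/
theorem dem_vv {k : ZMod 6 → Ty} {e : ZMod 6 → Ed} (hv : Valid k e) (hd : 2 < dem k e) :
    ∃ j, k j = .F ∧ k (j + 1) = .F ∧ e j = .V ∧ k (j + 3) = .F ∧ k (j + 4) = .F ∧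
      e (j + 3) = .V := by
  have h := sum_eq k e
  have h8 : ∀ j, wr k e j + wl k e j + wo k e j = 8 := by
    intro j
    by_contra hne
    have hlt : wr k e j + wl k e j + wo k e j < 8 := lt_of_le_of_ne (wt hv j).1 hne
    have h1 : ∑ j, (wr k e j + wl k e j + wo k e j) < ∑ _j : ZMod 6, 8 :=
      Finset.sum_lt_sum (fun j _ => (wt hv j).1) ⟨j, Finset.mem_univ _, hlt⟩
    rw [Finset.sum_const, Finset.card_univ, ZMod.card, smul_eq_mul] at h1
    have h2 := dem_eq k e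
    omega
  -- a `V`-edge with demand
  have hV : ∃ j, k j = .F ∧ k (j + 1) = .F ∧ e j = .V := by
    rcases (wt hv 0).2 (h8 0) with ⟨h1, -⟩ | ⟨h1, -⟩ | ⟨-, h1⟩
    · rcases cls_r hv 0 with h2 | ⟨h2, -⟩ | ⟨-, h2, h3, h4⟩ | ⟨h2, -⟩
      · omega
      · omega
      · exact ⟨0 + 1, h2, by rw [show (0 : ZMod 6) + 1 + 1 = 0 + 2 by ring]; exact h3, h4⟩
      · omega
    · rcases cls_r hv 0 with h2 | ⟨-, h2, h3, h4⟩ | ⟨h2, -⟩ | ⟨h2, -⟩
      · omega
      · exact ⟨0, h2, h3, h4⟩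
      · omega
      · omega
    · rcases cls_l hv 0 with h2 | ⟨-, h2, h3, h4⟩ | ⟨h2, -⟩ | ⟨h2, -⟩
      · omega
      · exact ⟨0 - 1, h3, by rw [show (0 : ZMod 6) - 1 + 1 = 0 by ring]; exact h2, h4⟩
      · omega
      · omega
  obtain ⟨j, h1, h2, h3⟩ := hV
  refine ⟨j, h1, h2, h3, ?_⟩
  have hl : 4 ≤ wl k e (j + 2) := by
    have h4 : dV (k j) (e j) (k (j + 1)) = true := by
      rw [h1, h2, h3]
      rfl
    have h5 : tV k e j = 1 := by
      unfold tV
      rw [if_pos h4]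
    have h6 := wl_eq k e (j + 2)
    rw [show j + 2 - 2 = j by ring] at h6
    omega
  rcases (wt hv (j + 2)).2 (h8 (j + 2)) with ⟨h4, h5⟩ | ⟨h4, h5⟩ | ⟨h4, h5⟩
  · rcases cls_r hv (j + 2) with h6 | ⟨h6, -⟩ | ⟨-, h6, h7, h8⟩ | ⟨h6, -⟩
    · omega
    · omega
    · rw [show j + 2 + 1 = j + 3 by ring] at h6 h8
      rw [show j + 2 + 2 = j + 4 by ring] at h7
      exact ⟨h6, h7, h8⟩
    · omega
  · omega
  · exfalso
    -- the edge `j + 1, j + 2` would also be a `V`-edge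
    rcases cls_l hv (j + 2) with h6 | ⟨-, h6, h7, h8⟩ | ⟨h6, -⟩ | ⟨h6, -⟩
    · omega
    · have h9 := hv.e1 (j + 1)
      rw [show j + 1 - 1 = j by ring, h3, h2] at h9
      rw [show j + 2 - 1 = j + 1 by ring] at h8
      rw [h8] at h9
      simp [r1e, Ty.isF, mem, Ed.isV] at h9
    · omega
    · omega

end Pool.Agent.Lib.SVY
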