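import Pool.Agent.Lib.SVY.WordF
import Pool.Agent.Lib.SVY.WordW

/-!
# SVY.WordX: deficient words of 6-faces are codes

Plan.  Rotations `k' i = k (i + j)`, `e' i = e (i + j)` and the reflection `k' i = k (-i)`,
`e' i = e (-i - 1)` preserve `Valid`, `dem`, `sup` (the sums by `Equiv.sum_comp`) and the
conclusion.  If `2 < dem k e`: `dem_vv`, rotate, `word_VV`.  Otherwise `sup k e < 2`; as
`0 < dem k e` there is a `j` with `dV`, `dW` or `dP`; rotate to `j = 0` (for `dP` with a triangle
edge on the side `-` reflect, so that the side `-` is weak) and apply `word_V`, `word_W`, `word_P`,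
`word_Q` of SVY/WordF.lean: their hypotheses on the types follow as in the plan of SVY/WordW.lean
(prove them here again if they are not available).
-/

set_option autoImplicit false
set_option linter.unusedSectionVars false
set_option linter.unusedSimpArgs false
set_option linter.constructorNameAsVariable false

namespace Pool.Agent.Lib.SVY

namespace WordXAux

/-- the conclusion of `word6` -/
def Concl (k : ZMod 6 → Ty) (e : ZMod 6 → Ed) : Prop :=
  ∃ j, code1 (k j) (e j) (k (j + 1)) (e (j + 1)) (k (j + 2)) (e (j + 2)) (k (j + 3))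
        (e (j + 3)) (k (j + 4)) (e (j + 4)) (k (j + 5)) (e (j + 5)) = true ∨
      code1 (k j) (e (j - 1)) (k (j - 1)) (e (j - 2)) (k (j - 2)) (e (j - 3)) (k (j - 3))
        (e (j - 4)) (k (j - 4)) (e (j - 5)) (k (j - 5)) (e (j - 6)) = true

theorem concl_of_code {k : ZMod 6 → Ty} {e : ZMod 6 → Ed} (h : Code k e) : Concl k e := by
  unfold Code code6 at h
  simp only [Bool.or_eq_true] at h
  rcases h with h | h | h | h | h | h | h | h | h | h | h | h
  · exact ⟨0, Or.inl h⟩
  · exact ⟨1, Or.inl h⟩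
  · exact ⟨2, Or.inl h⟩
  · exact ⟨3, Or.inl h⟩
  · exact ⟨4, Or.inl h⟩
  · exact ⟨5, Or.inl h⟩
  · exact ⟨0, Or.inr h⟩
  · exact ⟨5, Or.inr h⟩
  · exact ⟨4, Or.inr h⟩
  · exact ⟨3, Or.inr h⟩
  · exact ⟨2, Or.inr h⟩
  · exact ⟨1, Or.inr h⟩

/-- rotation -/
def rk {α : Type} (k : ZMod 6 → α) (c : ZMod 6) : ZMod 6 → α := fun i => k (i + c)

theorem a1 (j c : ZMod 6) : j + 1 + c = j + c + 1 := by ring
theorem a2 (j c : ZMod 6) : j + 2 + c = j + c + 2 := by ring
theorem a3 (j c : ZMod 6) : j + 3 + c = j + c + 3 := by ring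
theorem a4 (j c : ZMod 6) : j + 4 + c = j + c + 4 := by ring
theorem a5 (j c : ZMod 6) : j + 5 + c = j + c + 5 := by ring
theorem m1 (j c : ZMod 6) : j - 1 + c = j + c - 1 := by ring
theorem m2 (j c : ZMod 6) : j - 2 + c = j + c - 2 := by ring
theorem m3 (j c : ZMod 6) : j - 3 + c = j + c - 3 := by ring
theorem m4 (j c : ZMod 6) : j - 4 + c = j + c - 4 := by ring
theorem m5 (j c : ZMod 6) : j - 5 + c = j + c - 5 := by ring
theorem m6 (j c : ZMod 6) : j - 6 + c = j + c - 6 := by ring

theorem valid_rot {k : ZMod 6 → Ty} {e : ZMod 6 → Ed} (hv : Valid k e) (c : ZMod 6) :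
    Valid (rk k c) (rk e c) where
  c := fun j => by simp only [rk, a1, a2, m1, m2]; exact hv.c (j + c)
  g := fun j => by simp only [rk, a1, a2, m1, m2]; exact hv.g (j + c)
  e1 := fun j => by simp only [rk, a1, a2, m1, m2]; exact hv.e1 (j + c)
  e2 := fun j => by simp only [rk, a1, a2, m1, m2]; exact hv.e2 (j + c)
  v1 := fun j => by simp only [rk, a1, a2, m1, m2]; exact hv.v1 (j + c)
  v2 := fun j => by simp only [rk, a1, a2, m1, m2]; exact hv.v2 (j + c)
  f1 := fun j => by simp only [rk, a1, a2, m1, m2]; exact hv.f1 (j + c)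
  f2 := fun j => by simp only [rk, a1, a2, m1, m2]; exact hv.f2 (j + c)
  s1 := fun j => by simp only [rk, a1, a2, m1, m2]; exact hv.s1 (j + c)
  s2 := fun j => by simp only [rk, a1, a2, m1, m2]; exact hv.s2 (j + c)

theorem dem_rot (k : ZMod 6 → Ty) (e : ZMod 6 → Ed) (c : ZMod 6) :
    dem (rk k c) (rk e c) = dem k e := by
  unfold dem
  rw [← Equiv.sum_comp (Equiv.addRight c) (fun j => demj (e (j - 1)) (k (j - 1)) (e (j - 2))
    (k (j - 2)) (k j) (e j) (k (j + 1)) (e (j + 1)) (k (j + 2)))]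
  refine Finset.sum_congr rfl fun j _ => ?_
  simp only [rk, a1, a2, m1, m2, Equiv.coe_addRight]

theorem sup_rot (k : ZMod 6 → Ty) (e : ZMod 6 → Ed) (c : ZMod 6) :
    sup (rk k c) (rk e c) = sup k e := by
  unfold sup
  rw [← Equiv.sum_comp (Equiv.addRight c) (fun j => (supd (e (j - 1)) (k (j - 1)) (e (j - 2))
      (k (j - 2)) (k j) (e j) (k (j + 1)) (e (j + 1))
      (k (j + 2)) +
    supd (e j) (k (j + 1)) (e (j + 1)) (k (j + 2)) (k j) (e (j - 1)) (k (j - 1)) (e (j - 2))
      (k (j - 2)) +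
    supG (e (j - 1)) (k (j - 1)) (e (j - 2)) (k (j - 2)) (k j) (e j) (k (j + 1)) (e (j + 1))
      (k (j + 2))))]
  refine Finset.sum_congr rfl fun j _ => ?_
  simp only [rk, a1, a2, m1, m2, Equiv.coe_addRight]

theorem concl_rot {k : ZMod 6 → Ty} {e : ZMod 6 → Ed} {c : ZMod 6}
    (h : Concl (rk k c) (rk e c)) : Concl k e := by
  obtain ⟨j, h⟩ := h
  refine ⟨j + c, ?_⟩
  simpa only [rk, a1, a2, a3, a4, a5, m1, m2, m3, m4, m5, m6] using h

/-- reflection -/
def tk (k : ZMod 6 → Ty) : ZMod 6 → Ty := fun i => k (-i)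

def te (e : ZMod 6 → Ed) : ZMod 6 → Ed := fun i => e (-i - 1)

theorem n1 (j : ZMod 6) : -(j + 1) = -j - 1 := by ring
theorem n2 (j : ZMod 6) : -(j + 2) = -j - 2 := by ring
theorem n3 (j : ZMod 6) : -(j - 1) = -j + 1 := by ring
theorem n4 (j : ZMod 6) : -(j - 2) = -j + 2 := by ring
theorem n5 (j : ZMod 6) : -j - 1 - 1 = -j - 2 := by ring
theorem n6 (j : ZMod 6) : -j + 1 - 1 = -j := by ring
theorem n7 (j : ZMod 6) : -j + 2 - 1 = -j + 1 := by ring

theorem valid_ref {k : ZMod 6 → Ty} {e : ZMod 6 → Ed} (hv : Valid k e) :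
    Valid (tk k) (te e) where
  c := fun j => by
    simp only [tk, te, n1, n2, n3, n4, n5, n6, n7]
    rw [WordWAux.okC_symm]
    exact hv.c (-j)
  g := fun j => by
    simp only [tk, te, n1, n2, n3, n4, n5, n6, n7]
    rw [WordWAux.okE_symm]
    have h := hv.g (-j - 1)
    rwa [show -j - 1 + 1 = -j by ring] at h
  e1 := fun j => by
    simp only [tk, te, n1, n2, n3, n4, n5, n6, n7]
    exact hv.e2 (-j)
  e2 := fun j => by
    simp only [tk, te, n1, n2, n3, n4, n5, n6, n7]
    exact hv.e1 (-j)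
  v1 := fun j => by
    simp only [tk, te, n1, n2, n3, n4, n5, n6, n7]
    exact hv.v2 (-j)
  v2 := fun j => by
    simp only [tk, te, n1, n2, n3, n4, n5, n6, n7]
    exact hv.v1 (-j)
  f1 := fun j => by
    simp only [tk, te, n1, n2, n3, n4, n5, n6, n7]
    exact hv.f2 (-j)
  f2 := fun j => by
    simp only [tk, te, n1, n2, n3, n4, n5, n6, n7]
    exact hv.f1 (-j)
  s1 := fun j => by
    simp only [tk, te, n1, n2, n3, n4, n5, n6, n7]
    exact hv.s2 (-j)
  s2 := fun j => by
    simp only [tk, te, n1, n2, n3, n4, n5, n6, n7]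
    exact hv.s1 (-j)

theorem sup_ref (k : ZMod 6 → Ty) (e : ZMod 6 → Ed) : sup (tk k) (te e) = sup k e := by
  unfold sup
  rw [← Equiv.sum_comp (Equiv.neg (ZMod 6)) (fun j => (supd (e (j - 1)) (k (j - 1)) (e (j - 2))
      (k (j - 2)) (k j) (e j) (k (j + 1)) (e (j + 1))
      (k (j + 2)) +
    supd (e j) (k (j + 1)) (e (j + 1)) (k (j + 2)) (k j) (e (j - 1)) (k (j - 1)) (e (j - 2))
      (k (j - 2)) +
    supG (e (j - 1)) (k (j - 1)) (e (j - 2)) (k (j - 2)) (k j) (e j) (k (j + 1)) (e (j + 1))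
      (k (j + 2))))]
  refine Finset.sum_congr rfl fun j _ => ?_
  simp only [tk, te, n1, n2, n3, n4, n5, n6, n7, Equiv.neg_apply]
  have hG : ∀ (x : Ed) (a : Ty) (o : Ed) (a' c : Ty) (y : Ed) (b : Ty) (u : Ed) (b' : Ty),
      supG x a o a' c y b u b' = supG y b u b' c x a o a' := by
    intro x a o a' c y b u b'
    unfold supG
    rw [Nat.add_comm (paj x a y b u b')]
    congr 1
    cases c.isG <;> cases x.isW <;> cases y.isW <;> rfl
  rw [hG (e (-j)), Nat.add_comm (supd (e (-j)) _ _ _ _ _ _ _ _)]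

theorem concl_ref {k : ZMod 6 → Ty} {e : ZMod 6 → Ed} (h : Concl (tk k) (te e)) :
    Concl k e := by
  obtain ⟨j, h⟩ := h
  refine ⟨-j, ?_⟩
  have b1 : -(j + 1) = -j - 1 := by ring
  have b2 : -(j + 2) = -j - 2 := by ring
  have b3 : -(j + 3) = -j - 3 := by ring
  have b4 : -(j + 4) = -j - 4 := by ring
  have b5 : -(j + 5) = -j - 5 := by ring
  have c1 : -(j - 1) = -j + 1 := by ring
  have c2 : -(j - 2) = -j + 2 := by ring
  have c3 : -(j - 3) = -j + 3 := by ring
  have c4 : -(j - 4) = -j + 4 := by ring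
  have c5 : -(j - 5) = -j + 5 := by ring
  have c6 : -(j - 6) = -j + 6 := by ring
  have d1 : -j - 1 - 1 = -j - 2 := by ring
  have d2 : -j - 2 - 1 = -j - 3 := by ring
  have d3 : -j - 3 - 1 = -j - 4 := by ring
  have d4 : -j - 4 - 1 = -j - 5 := by ring
  have d5 : -j - 5 - 1 = -j - 6 := by ring
  have f1 : -j + 1 - 1 = -j := by ring
  have f2 : -j + 2 - 1 = -j + 1 := by ring
  have f3 : -j + 3 - 1 = -j + 2 := by ring
  have f4 : -j + 4 - 1 = -j + 3 := by ring
  have f5 : -j + 5 - 1 = -j + 4 := by ring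
  have f6 : -j + 6 - 1 = -j + 5 := by ring
  simp only [tk, te, b1, b2, b3, b4, b5, c1, c2, c3, c4, c5, c6, d1, d2, d3, d4, d5, f1, f2, f3,
    f4, f5, f6] at h
  rcases h with h | h
  · exact Or.inr h
  · exact Or.inl h

/-- `dP` with a weak side `-` -/
theorem caseP {k : ZMod 6 → Ty} {e : ZMod 6 → Ed} (hv : Valid k e) (hs : sup k e < 2)
    (h0 : k 0 = .p) (hm : mk (e 5) (k 5) (e 4) (k 4) = true)
    (hm' : mk (e 0) (k 1) (e 1) (k 2) = true) (hw : (e 5).isW = true) :
    Code k e := by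
  have hd : 2 ≤ dem k e := by
    have h1 : dP (e 5) (k 5) (e 4) (k 4) (k 0) (e 0) (k 1) (e 1) (k 2) = true := by
      rw [h0]
      simp only [dP, Ty.isp, hm, hm', Bool.and_self]
    have h2 : 2 ≤ demj (e 5) (k 5) (e 4) (k 4) (k 0) (e 0) (k 1) (e 1) (k 2) := by
      unfold demj
      rw [if_pos h1]
      omega
    unfold dem
    exact le_trans h2 (Finset.single_le_sum (f := fun j : ZMod 6 => demj (e (j - 1)) (k (j - 1))
      (e (j - 2)) (k (j - 2)) (k j) (e j) (k (j + 1)) (e (j + 1)) (k (j + 2)))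
      (fun _ _ => Nat.zero_le _) (Finset.mem_univ 0))
  have main : Code k e ∨ dem k e ≤ sup k e → Code k e := by
    rintro (h | h)
    · exact h
    · omega
  apply main
  have c0 : okC (k 0) (e 5) (e 0) = true := hv.c 0
  have c1 : okC (k 1) (e 0) (e 1) = true := hv.c 1
  have c5 : okC (k 5) (e 4) (e 5) = true := hv.c 5
  have g0 : okE (k 0) (k 1) (e 0) = true := hv.g 0
  have g1 : okE (k 1) (k 2) (e 1) = true := hv.g 1
  have g4 : okE (k 4) (k 5) (e 4) = true := hv.g 4
  have g5 : okE (k 5) (k 0) (e 5) = true := hv.g 5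
  rw [h0] at c0 g0 g5
  have A := WordWAux.fPw hm hw g5 (by rw [WordWAux.okC_symm]; exact c5)
    (by rw [WordWAux.okE_symm]; exact g4)
  cases hy : (e 0).isW with
  | true =>
    have B := WordWAux.fPw hm' hy (by rw [WordWAux.okE_symm]; exact g0) c1 g1
    exact word_P hv h0 B.2.1 A.2.1 B.1 A.1 B.2.2.2 A.2.2.2 hs
  | false =>
    have e2 : r1e (e 1) (k 1) (e 0) (k 0) = true := hv.e2 1
    rw [h0] at e2
    have B := WordWAux.fPt hm' hy (by rw [WordWAux.okE_symm]; exact g0) c1 e2
    exact word_Q hv h0 A.2.1 A.1 A.2.2.2 B.1 hs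

end WordXAux

open WordXAux in
theorem word6 {k : ZMod 6 → Ty} {e : ZMod 6 → Ed} (hv : Valid k e) (hlt : sup k e < dem k e) :
    ∃ j, code1 (k j) (e j) (k (j + 1)) (e (j + 1)) (k (j + 2)) (e (j + 2)) (k (j + 3))
        (e (j + 3)) (k (j + 4)) (e (j + 4)) (k (j + 5)) (e (j + 5)) = true ∨
      code1 (k j) (e (j - 1)) (k (j - 1)) (e (j - 2)) (k (j - 2)) (e (j - 3)) (k (j - 3))
        (e (j - 4)) (k (j - 4)) (e (j - 5)) (k (j - 5)) (e (j - 6)) = true := by
  show Concl k e
  by_cases hd : 2 < dem k e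
  · obtain ⟨j, h0, h1, h2, h3, h4, h5⟩ := dem_vv hv hd
    apply concl_rot (c := j)
    have hv' := valid_rot hv j
    have hlt' : sup (rk k j) (rk e j) < dem (rk k j) (rk e j) := by
      rw [sup_rot, dem_rot]
      exact hlt
    have h0' : rk k j 0 = .F := by
      simp only [rk, zero_add]
      exact h0
    have h1' : rk k j 1 = .F := by
      simp only [rk, add_comm (1 : ZMod 6) j]
      exact h1
    have h2' : rk e j 0 = .V := by
      simp only [rk, zero_add]
      exact h2
    have h3' : rk k j 3 = .F := by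
      simp only [rk, add_comm (3 : ZMod 6) j]
      exact h3
    have h4' : rk k j 4 = .F := by
      simp only [rk, add_comm (4 : ZMod 6) j]
      exact h4
    have h5' : rk e j 3 = .V := by
      simp only [rk, add_comm (3 : ZMod 6) j]
      exact h5
    rcases word_VV hv' h0' h1' h2' h3' h4' h5' with h | h
    · exact concl_of_code h
    · omega
  · have hs : sup k e < 2 := by omega
    have hpos : 0 < dem k e := by omega
    unfold dem at hpos
    obtain ⟨j, -, hj⟩ := Finset.exists_ne_zero_of_sum_ne_zero hpos.ne'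
    apply concl_rot (c := j)
    have hv' := valid_rot hv j
    have hlt' : sup (rk k j) (rk e j) < dem (rk k j) (rk e j) := by
      rw [sup_rot, dem_rot]
      exact hlt
    have hs' : sup (rk k j) (rk e j) < 2 := by
      rw [sup_rot]
      exact hs
    have key : demj (rk e j 5) (rk k j 5) (rk e j 4) (rk k j 4) (rk k j 0) (rk e j 0)
        (rk k j 1) (rk e j 1) (rk k j 2) ≠ 0 := by
      have q1 : j - 1 = 5 + j := by
        rw [show (5 : ZMod 6) = -1 from rfl]
        ring
      have q2 : j - 2 = 4 + j := by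
        rw [show (4 : ZMod 6) = -2 from rfl]
        ring
      simp only [rk, zero_add]
      rw [q1, q2, add_comm j 1, add_comm j 2] at hj
      exact hj
    generalize rk k j = k' at hv' hlt' hs' key ⊢
    generalize rk e j = e' at hv' hlt' hs' key ⊢
    have hcode : Concl k' e' ∨ dem k' e' ≤ sup k' e' := by
      by_cases hV : dV (k' 0) (e' 0) (k' 1) = true
      · have A := WordWAux.fV hV (hv'.g 0)
        exact (word_V hv' A.1 A.2.1 A.2.2 hs').imp_left concl_of_code
      by_cases hW : dW (e' 5) (k' 5) (k' 0) (e' 0) (k' 1) (e' 1) (k' 2) = true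
      · have A := WordWAux.fW hW (hv'.c 0) (hv'.c 1) (hv'.g 5) (hv'.g 1)
        exact (word_W hv' A.1 A.2.1 A.2.2.1 A.2.2.2.2.1 A.2.2.2.1 hs').imp_left concl_of_code
      by_cases hP : dP (e' 5) (k' 5) (e' 4) (k' 4) (k' 0) (e' 0) (k' 1) (e' 1) (k' 2) = true
      · simp only [dP, Bool.and_eq_true] at hP
        obtain ⟨⟨hp, hm⟩, hm'⟩ := hP
        have h0 := WordWAux.isp_eq hp
        have c0 : okC (k' 0) (e' 5) (e' 0) = true := hv'.c 0
        rw [h0] at c0
        simp only [okC, Bool.or_eq_true] at c0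
        rcases c0 with c0 | c0
        · exact Or.inl (concl_of_code (caseP hv' hs' h0 hm hm' c0))
        · left
          apply concl_ref
          have hs'' : sup (tk k') (te e') < 2 := by
            rw [sup_ref]
            exact hs'
          exact concl_of_code (caseP (valid_ref hv') hs'' h0 hm' hm c0)
      · exfalso
        apply key
        unfold demj
        rw [if_neg hV, if_neg hW, if_neg hP]
    rcases hcode with h | h
    · exact h
    · omega

end Pool.Agent.Lib.SVY
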